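import Pool.Agent.V11228.Col3

/-!
# Constrained matrix invertibility: the reduction

The intermediate problem `AF` asks for vectors `P z` and linear forms `F i` on `ℝ³` with
`F i (P i) ≠ 0` and prescribed zeros `F i (P z) = 0`.
-/

namespace Pool.Agent.NPC.V11228.CM

open Pool.Agent.NPC Pool.Agent.NPC.ER Matrix

/-- Vectors with three coordinates. -/
abbrev V3 : Type := Fin 3 → ℝ

/-- The intermediate problem. -/
def AF (I : List (ℕ × List ℕ)) : Prop :=
  ∃ P : ℕ → V3, ∀ q ∈ I, ∃ F : V3, F ⬝ᵥ P q.1 ≠ 0 ∧ ∀ z ∈ q.2, F ⬝ᵥ P z = 0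

/-- Well-formed instances: every name has exactly one entry. -/
def AFOk (I : List (ℕ × List ℕ)) : Prop :=
  (I.map Prod.fst).Nodup ∧ ∀ q ∈ I, q.1 ∉ q.2 ∧ ∀ z ∈ q.2, z ∈ I.map Prod.fst

/-- A real matrix fits a pattern; `false` stands for the entry `0` of the pattern, `true` for the
entry `*`. -/
def Fits {n : ℕ} (A : List (List Bool)) (X : Matrix (Fin n) (Fin n) ℝ) : Prop :=
  ∀ i j : Fin n, (A.getD i []).getD j false = false → X i j = 0

/-- The list of rows describes an `n × n` pattern. -/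
def IsSquare (n : ℕ) (A : List (List Bool)) : Prop := A.length = n ∧ ∀ r ∈ A, r.length = n

/-- Constrained matrix invertibility over the reals. -/
def CMI (I : List (List Bool) × List (List Bool)) : Prop :=
  ∃ n : ℕ, IsSquare n I.1 ∧ IsSquare n I.2 ∧
    ∃ X Y : Matrix (Fin n) (Fin n) ℝ, Fits I.1 X ∧ Fits I.2 Y ∧ X * Y = 1

/-- The name of the `i`-th entry. -/
def nm (I : List (ℕ × List ℕ)) (i : ℕ) : ℕ := (I.getD i (0, [])).1

/-- The zeros of the `i`-th entry. -/
def zs (I : List (ℕ × List ℕ)) (i : ℕ) : List ℕ := (I.getD i (0, [])).2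

/-- Entries of the first pattern. -/
def entA (I : List (ℕ × List ℕ)) (r c : ℕ) : Bool :=
  decide (r < 3) || (decide (c < 3) || (!decide (r = c) && !decide (nm I (r - 3) ∈ zs I (c - 3))))

/-- Entries of the second pattern. -/
def entB (r c : ℕ) : Bool := decide (r < 3) || (decide (c < 3) || decide (r = c))

/-- Matrix of a Boolean function. -/
def tab (n : ℕ) (f : ℕ → ℕ → Bool) : List (List Bool) :=
  (List.range n).map fun r => (List.range n).map fun c => f r c

/-- The two patterns. -/
def cmiOf (I : List (ℕ × List ℕ)) : List (List Bool) × List (List Bool) :=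
  (tab (3 + I.length) (entA I), tab (3 + I.length) entB)

theorem tab_square (n : ℕ) (f : ℕ → ℕ → Bool) : IsSquare n (tab n f) := by
  constructor
  · simp [tab]
  · intro r hr
    simp only [tab, List.mem_map, List.mem_range] at hr
    obtain ⟨a, _, rfl⟩ := hr
    simp

theorem tab_getD (n : ℕ) (f : ℕ → ℕ → Bool) (i j : Fin n) :
    ((tab n f).getD i []).getD j false = f i j := by
  have h1 : (tab n f).getD i [] = (List.range n).map fun c => f i c := by
    rw [List.getD_eq_getElem _ _ (by simp [tab])]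
    simp [tab]
  rw [h1, List.getD_eq_getElem _ _ (by simp)]
  simp

theorem nm_mem (I : List (ℕ × List ℕ)) {i : ℕ} (h : i < I.length) :
    I.getD i (0, []) ∈ I := by
  rw [List.getD_eq_getElem _ _ h]
  exact List.getElem_mem _

theorem nm_eq {I : List (ℕ × List ℕ)} {i : ℕ} (h : i < I.length) : nm I i = I[i].1 := by
  unfold nm
  rw [List.getD_eq_getElem _ _ h]

theorem nm_inj {I : List (ℕ × List ℕ)} (h : (I.map Prod.fst).Nodup) {i j : ℕ} (hi : i < I.length)
    (hj : j < I.length) (hij : nm I i = nm I j) : i = j := by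
  have h1 : (I.map Prod.fst)[i]'(by simpa using hi) = (I.map Prod.fst)[j]'(by simpa using hj) := by
    rw [List.getElem_map, List.getElem_map, ← nm_eq hi, ← nm_eq hj, hij]
  exact (List.Nodup.getElem_inj_iff h).1 h1

theorem exists_nm {I : List (ℕ × List ℕ)} {z : ℕ} (h : z ∈ I.map Prod.fst) :
    ∃ i, i < I.length ∧ nm I i = z := by
  obtain ⟨i, hi, hz⟩ := List.getElem_of_mem h
  have hi' : i < I.length := by simpa using hi
  refine ⟨i, hi', ?_⟩
  rw [← hz, List.getElem_map, nm_eq hi']

theorem castAdd_lt {N : ℕ} (s : Fin 3) : ((Fin.castAdd N s : Fin (3 + N)) : ℕ) < 3 := by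
  simp

theorem natAdd_not {N : ℕ} (s : Fin N) : ¬ ((Fin.natAdd 3 s : Fin (3 + N)) : ℕ) < 3 := by
  simp

theorem natAdd_sub {N : ℕ} (s : Fin N) : ((Fin.natAdd 3 s : Fin (3 + N)) : ℕ) - 3 = s := by
  simp

theorem cmi_sound {I : List (ℕ × List ℕ)} (hI : AFOk I) (h : CMI (cmiOf I)) : AF I := by
  obtain ⟨n, hA, -, X, Y, hX, hY, hXY⟩ := h
  have hn : 3 + I.length = n := by
    have := hA.1
    simpa [cmiOf, tab] using this
  subst hn
  choose! ix hix1 hix2 using fun z (hz : z ∈ I.map Prod.fst) => exists_nm hz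
  -- products
  have key : ∀ z i : Fin I.length, (∑ s : Fin 3, X (Fin.natAdd 3 z) (Fin.castAdd _ s) *
      Y (Fin.castAdd _ s) (Fin.natAdd 3 i)) + X (Fin.natAdd 3 z) (Fin.natAdd 3 i) *
      Y (Fin.natAdd 3 i) (Fin.natAdd 3 i) = if z = i then 1 else 0 := by
    intro z i
    have h1 := congrFun (congrFun hXY (Fin.natAdd 3 z)) (Fin.natAdd 3 i)
    rw [Matrix.mul_apply, Fin.sum_univ_add] at h1
    have h2 : ∑ k : Fin I.length, X (Fin.natAdd 3 z) (Fin.natAdd 3 k) *
        Y (Fin.natAdd 3 k) (Fin.natAdd 3 i) = X (Fin.natAdd 3 z) (Fin.natAdd 3 i) *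
        Y (Fin.natAdd 3 i) (Fin.natAdd 3 i) := by
      rw [Finset.sum_eq_single i]
      · intro k _ hk
        have : Y (Fin.natAdd 3 k) (Fin.natAdd 3 i) = 0 := by
          apply hY
          change ((tab (3 + I.length) entB).getD _ []).getD _ false = false
          rw [tab_getD]
          simp only [entB, natAdd_not, decide_false, Bool.false_or, decide_eq_false_iff_not]
          intro h
          apply hk
          ext
          simpa using h
        rw [this, mul_zero]
      · intro h
        exact absurd (Finset.mem_univ _) h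
    rw [h2] at h1
    rw [h1, Matrix.one_apply]
    by_cases hzi : z = i
    · rw [if_pos hzi, if_pos (by rw [hzi])]
    · rw [if_neg hzi, if_neg (fun h => hzi (Fin.natAdd_injective _ _ h))]
  have zero : ∀ z i : Fin I.length, z = i ∨ nm I z ∈ zs I i →
      X (Fin.natAdd 3 z) (Fin.natAdd 3 i) = 0 := by
    intro z i hzi
    apply hX
    change ((tab (3 + I.length) (entA I)).getD _ []).getD _ false = false
    rw [tab_getD]
    simp only [entA, natAdd_not, decide_false, Bool.false_or, natAdd_sub]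
    rcases hzi with rfl | h
    · simp
    · simp [h]
  refine ⟨fun v s => if h : ix v < I.length then X (Fin.natAdd 3 ⟨ix v, h⟩) (Fin.castAdd _ s)
    else 0, ?_⟩
  intro q hq
  have hq1 : q.1 ∈ I.map Prod.fst := List.mem_map.2 ⟨q, hq, rfl⟩
  have hlt := hix1 _ hq1
  have hname := hix2 _ hq1
  have hget : I.getD (ix q.1) (0, []) = q := by
    obtain ⟨j, hj, hjq⟩ := List.getElem_of_mem hq
    have h1 : nm I j = q.1 := by
      rw [nm_eq hj, hjq]
    have : ix q.1 = j := nm_inj hI.1 hlt hj (hname.trans h1.symm)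
    rw [this, List.getD_eq_getElem _ _ hj, hjq]
  have hzs : zs I (ix q.1) = q.2 := by rw [zs, hget]
  refine ⟨fun s => Y (Fin.castAdd _ s) (Fin.natAdd 3 ⟨ix q.1, hlt⟩), ?_, ?_⟩
  · have h1 := key ⟨ix q.1, hlt⟩ ⟨ix q.1, hlt⟩
    rw [zero _ _ (Or.inl rfl), zero_mul, add_zero, if_pos rfl] at h1
    have h2 : (fun s => Y (Fin.castAdd _ s) (Fin.natAdd 3 ⟨ix q.1, hlt⟩)) ⬝ᵥ
        (fun s => if h : ix q.1 < I.length then X (Fin.natAdd 3 ⟨ix q.1, h⟩) (Fin.castAdd _ s)
          else 0) = 1 := by
      rw [← h1]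
      simp only [dotProduct, dif_pos hlt]
      exact Finset.sum_congr rfl fun s _ => mul_comm _ _
    rw [h2]
    exact one_ne_zero
  · intro z hz
    have hz1 := (hI.2 q hq).2 z hz
    have hzlt := hix1 _ hz1
    have hzn := hix2 _ hz1
    have h0 : nm I (ix z) ∈ zs I (ix q.1) := by rw [hzn, hzs]; exact hz
    have h1 := key ⟨ix z, hzlt⟩ ⟨ix q.1, hlt⟩
    rw [zero ⟨ix z, hzlt⟩ ⟨ix q.1, hlt⟩ (Or.inr h0), zero_mul, add_zero] at h1
    by_cases hzq : (⟨ix z, hzlt⟩ : Fin I.length) = ⟨ix q.1, hlt⟩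
    · -- then the entry contains its own name, which contradicts the diagonal
      exfalso
      have h3 : ix z = ix q.1 := congrArg Fin.val hzq
      have h4 : z = q.1 := by rw [← hzn, ← hname, h3]
      rw [h4] at hz
      exact (hI.2 q hq).1 hz
    · rw [if_neg hzq] at h1
      simp only [dotProduct, dif_pos hzlt]
      rw [← h1]
      exact Finset.sum_congr rfl fun s _ => mul_comm _ _

theorem cmi_complete {I : List (ℕ × List ℕ)} (h : AF I) : CMI (cmiOf I) := by
  obtain ⟨P, hP⟩ := h
  have hF : ∀ i : Fin I.length, ∃ F : V3, F ⬝ᵥ P (nm I i) = 1 ∧ ∀ z ∈ zs I i, F ⬝ᵥ P z = 0 := by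
    intro i
    obtain ⟨F, h1, h2⟩ := hP _ (nm_mem I i.2)
    refine ⟨(F ⬝ᵥ P (nm I i))⁻¹ • F, ?_, ?_⟩
    · rw [smul_dotProduct, smul_eq_mul]
      exact inv_mul_cancel₀ h1
    · intro z hz
      rw [smul_dotProduct, h2 z hz, smul_zero]
  choose F hF1 hF2 using hF
  obtain ⟨p, hp⟩ : ∃ p : Matrix (Fin I.length) (Fin 3) ℝ, p = Matrix.of fun z : Fin I.length => fun s => P (nm I z) s :=
    ⟨_, rfl⟩
  obtain ⟨f, hf⟩ : ∃ f : Matrix (Fin 3) (Fin I.length) ℝ, f = Matrix.of fun s i => F i s :=
    ⟨_, rfl⟩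
  have hpf : ∀ z i, (p * f) z i = F i ⬝ᵥ P (nm I z) := by
    intro z i
    rw [hp, hf, Matrix.mul_apply, dotProduct]
    exact Finset.sum_congr rfl fun s _ => mul_comm _ _
  refine ⟨3 + I.length, tab_square _ _, tab_square _ _,
    Matrix.reindex finSumFinEquiv finSumFinEquiv (Matrix.fromBlocks 1 (-f) p (1 - p * f)),
    Matrix.reindex finSumFinEquiv finSumFinEquiv (Matrix.fromBlocks (1 - f * p) f (-p) 1),
    ?_, ?_, ?_⟩
  · intro i j hij
    change ((tab (3 + I.length) (entA I)).getD _ []).getD _ false = false at hij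
    rw [tab_getD] at hij
    refine Fin.addCases (fun s hij => ?_) (fun z hij => ?_) i hij
    · simp [entA] at hij
    · refine Fin.addCases (fun s hij => ?_) (fun i hij => ?_) j hij
      · simp [entA] at hij
      · simp only [entA, natAdd_not, decide_false, Bool.false_or, natAdd_sub] at hij
        rw [Matrix.reindex_apply, Matrix.submatrix_apply, finSumFinEquiv_symm_apply_natAdd,
          finSumFinEquiv_symm_apply_natAdd, Matrix.fromBlocks_apply₂₂, Matrix.sub_apply, hpf]
        by_cases hzi : z = i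
        · subst hzi
          rw [hF1, Matrix.one_apply_eq, sub_self]
        · rw [Matrix.one_apply_ne hzi]
          have h1 : ¬ ((Fin.natAdd 3 z : Fin (3 + I.length)) : ℕ) =
              ((Fin.natAdd 3 i : Fin (3 + I.length)) : ℕ) := fun h =>
            hzi (Fin.natAdd_injective _ _ (Fin.ext h))
          simp only [h1, decide_false, Bool.not_false, Bool.true_and, Bool.not_eq_false',
            decide_eq_true_eq] at hij
          rw [hF2 i _ hij, sub_zero]
  · intro i j hij
    change ((tab (3 + I.length) entB).getD _ []).getD _ false = false at hij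
    rw [tab_getD] at hij
    refine Fin.addCases (fun s hij => ?_) (fun z hij => ?_) i hij
    · simp [entB] at hij
    · refine Fin.addCases (fun s hij => ?_) (fun i hij => ?_) j hij
      · simp [entB] at hij
      · simp only [entB, natAdd_not, decide_false, Bool.false_or, decide_eq_false_iff_not] at hij
        rw [Matrix.reindex_apply, Matrix.submatrix_apply, finSumFinEquiv_symm_apply_natAdd,
          finSumFinEquiv_symm_apply_natAdd, Matrix.fromBlocks_apply₂₂, Matrix.one_apply_ne]
        intro h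
        exact hij (by rw [h])
  · rw [Matrix.reindex_apply, Matrix.reindex_apply, Matrix.submatrix_mul_equiv,
      Matrix.fromBlocks_multiply]
    have e1 : (1 : Matrix (Fin 3) (Fin 3) ℝ) * (1 - f * p) + -f * -p = 1 := by
      rw [Matrix.one_mul, Matrix.neg_mul, Matrix.mul_neg]; abel
    have e2 : (1 : Matrix (Fin 3) (Fin 3) ℝ) * f +
        -f * (1 : Matrix (Fin I.length) (Fin I.length) ℝ) = 0 := by
      rw [Matrix.one_mul, Matrix.mul_one]; abel
    have e3 : p * (1 - f * p) + (1 - p * f) * -p = 0 := by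
      rw [Matrix.mul_sub, Matrix.mul_one, Matrix.sub_mul, Matrix.one_mul, Matrix.mul_neg,
        Matrix.mul_assoc]; abel
    have e4 : p * f + (1 - p * f) * (1 : Matrix (Fin I.length) (Fin I.length) ℝ) = 1 := by
      rw [Matrix.mul_one]; abel
    rw [e1, e2, e3, e4, Matrix.fromBlocks_one, Matrix.submatrix_one_equiv]

end Pool.Agent.NPC.V11228.CM
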