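import Pool.Agent.V11228.Col3
import Pool.Agent.H612.TmPoly

/-!
# Collinearity logic with groups of at most three variables is `∃ℝ`-complete
-/

namespace Pool.Agent.NPC.V11228.C3

open Pool.Agent.NPC Pool.Agent.NPC.ER Pool.Agent.NPC.H612 Pool.Agent.H621R2

/-- An instance of collinearity logic with groups: the list of the groups (each of them is given
as the list of its variables; order and repetitions are irrelevant) and the list of the negative
atoms. -/
abbrev CInst : Type := List (List ℕ) × List (ℕ × ℕ × ℕ)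

/-- The instance is well-formed: every group has at most `k` variables, and any two distinct groups
share at most one variable. -/
def WellFormed (k : ℕ) (I : CInst) : Prop :=
  (∀ G ∈ I.1, G.toFinset.card ≤ k) ∧
  ∀ G ∈ I.1, ∀ H ∈ I.1, G.toFinset ≠ H.toFinset → (G.toFinset ∩ H.toFinset).card ≤ 1

/-- Points of the plane can be assigned to the variables such that any three variables of a common
group are collinear and such that the negative atoms hold. -/
def Satisfiable (I : CInst) : Prop :=
  ∃ p : ℕ → ℝ × ℝ,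
    (∀ G ∈ I.1, ∀ a ∈ G, ∀ b ∈ G, ∀ c ∈ G, Collinear ℝ {p a, p b, p c}) ∧
    ∀ t ∈ I.2, ¬ Collinear ℝ {p t.1, p t.2.1, p t.2.2}

/-- The decision problem `COL_k`. -/
def COLk (k : ℕ) (I : CInst) : Prop := WellFormed k I ∧ Satisfiable I

theorem collinear_iff_col (P Q R : ℝ × ℝ) : Collinear ℝ {P, Q, R} ↔ Col P Q R := by
  constructor
  · intro h
    rw [collinear_iff_of_mem (p₀ := P) (by simp)] at h
    obtain ⟨v, hv⟩ := h
    obtain ⟨s, hs⟩ := hv Q (by simp)
    obtain ⟨t, ht⟩ := hv R (by simp)
    rw [hs, ht]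
    simp only [Col, cr, vadd_eq_add, Prod.fst_sub, Prod.snd_sub, Prod.fst_add, Prod.snd_add,
      Prod.smul_fst, Prod.smul_snd, smul_eq_mul]
    ring
  · intro h
    by_cases hPQ : P = Q
    · subst hPQ
      have : ({P, P, R} : Set (ℝ × ℝ)) = {P, R} := by simp
      rw [this]
      exact collinear_pair ℝ P R
    · obtain ⟨s, hs⟩ := exists_param_of_col hPQ h
      rw [collinear_iff_of_mem (p₀ := P) (by simp)]
      refine ⟨Q - P, fun x hx => ?_⟩
      simp only [Set.mem_insert_iff, Set.mem_singleton_iff] at hx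
      rcases hx with rfl | rfl | rfl
      · exact ⟨0, by simp⟩
      · exact ⟨1, by simp⟩
      · exact ⟨s, by rw [hs, vadd_eq_add, add_comm]⟩

/-! ### Hardness -/

/-- The names of the points. -/
def nam (S : List ER.Con) : List ℕ := (edgesOf S).flatten

/-- The instance of a system of constraints. -/
def instOf (S : List ER.Con) : CInst :=
  ((gads (trip (gatesOf S)) 0).map (fun e => e.map (fun v => v + 1)),
    (3, 1, 5) :: (nam S).flatMap (fun a => (nam S).map fun b =>
      if a = b then (3, 1, 5) else (a + 1, b + 1, 0)))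

theorem succ_image (e : List ℕ) :
    (e.map (fun v => v + 1)).toFinset = e.toFinset.image (fun v => v + 1) := by
  ext v; simp

theorem succ_inj : Function.Injective (fun v : ℕ => v + 1) := fun a b h => by
  simpa using h

theorem wellFormed_instOf (S : List ER.Con) {k : ℕ} (hk : 3 ≤ k) : WellFormed k (instOf S) := by
  constructor
  · intro G hG
    simp only [instOf, List.mem_map] at hG
    obtain ⟨e, he, rfl⟩ := hG
    rw [succ_image, Finset.card_image_of_injective _ succ_inj]
    exact ((hyp_card (P := prs) (by decide) (fun u hu => trip_distinct hu) (gads_sub S he)).2).trans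
      hk
  · intro G hG H hH hne
    simp only [instOf, List.mem_map] at hG hH
    obtain ⟨e, he, rfl⟩ := hG
    obtain ⟨f, hf, rfl⟩ := hH
    rw [succ_image, succ_image] at hne ⊢
    rw [← Finset.image_inter _ _ succ_inj, Finset.card_image_of_injective _ succ_inj]
    exact hyp_lin (P := prs) (fun u hu => trip_distinct hu) (gads_sub S he) (gads_sub S hf)
      (fun h => hne (by rw [h]))

theorem mem_nam {S : List ER.Con} {v : ℕ} : v ∈ nam S ↔ v ∈ vs (edgesOf S) := Iff.rfl

theorem satisfiable_of_sat {S : List ER.Con} (h : Sat S) : Satisfiable (instOf S) := by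
  obtain ⟨p, hinj, hcol, hD⟩ := real3_complete h
  obtain ⟨W, hW⟩ := exists_generic (nam S) p
  refine ⟨fun n => if n = 0 then W else p (n - 1), ?_, ?_⟩
  · intro G hG a ha b hb c hc
    simp only [instOf, List.mem_map] at hG
    obtain ⟨e, he, rfl⟩ := hG
    rw [List.mem_map] at ha hb hc
    obtain ⟨a, ha, rfl⟩ := ha
    obtain ⟨b, hb, rfl⟩ := hb
    obtain ⟨c, hc, rfl⟩ := hc
    simp only [Nat.add_eq_zero_iff, one_ne_zero, and_false, if_false, Nat.add_sub_cancel]
    rw [collinear_iff_col]
    exact hcol e he a ha b hb c hc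
  · have h315 : ¬ Col (p 2) (p 0) (p 4) := hD
    intro t ht
    simp only [instOf, List.mem_cons, List.mem_flatMap, List.mem_map] at ht
    rcases ht with rfl | ⟨a, ha, b, hb, hab⟩
    · rw [collinear_iff_col]
      exact h315
    · by_cases h : a = b
      · rw [if_pos h] at hab
        subst hab
        rw [collinear_iff_col]
        exact h315
      · rw [if_neg h] at hab
        subst hab
        rw [collinear_iff_col]
        simp only [Nat.add_eq_zero_iff, one_ne_zero, and_false, if_false, if_true,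
          Nat.add_sub_cancel]
        exact hW a ha b hb fun h' => h (hinj (mem_nam.1 ha) (mem_nam.1 hb) h')

theorem sat_of_satisfiable {S : List ER.Con} (h : Satisfiable (instOf S)) : Sat S := by
  obtain ⟨p, h1, h2⟩ := h
  refine real3_sound (p := fun n => p (n + 1)) ⟨?_, ?_, ?_⟩
  · intro a ha b hb hab
    by_contra hne
    have := h2 (a + 1, b + 1, 0) (by
      simp only [instOf, List.mem_cons, List.mem_flatMap, List.mem_map]
      exact Or.inr ⟨a, mem_nam.2 ha, b, mem_nam.2 hb, by rw [if_neg hne]⟩)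
    apply this
    simp only at hab ⊢
    rw [hab]
    have : ({p (b + 1), p (b + 1), p 0} : Set (ℝ × ℝ)) = {p (b + 1), p 0} := by simp
    rw [this]
    exact collinear_pair ℝ _ _
  · intro e he a ha b hb c hc
    have := h1 (e.map (fun v => v + 1)) (by
      simp only [instOf, List.mem_map]
      exact ⟨e, he, rfl⟩) (a + 1) (List.mem_map.2 ⟨a, ha, rfl⟩) (b + 1)
      (List.mem_map.2 ⟨b, hb, rfl⟩) (c + 1) (List.mem_map.2 ⟨c, hc, rfl⟩)
    rwa [collinear_iff_col] at this
  · have := h2 (3, 1, 5) (by simp [instOf])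
    rwa [collinear_iff_col] at this

section

variable {α : Type} [TEnc α]

theorem poly_nam {S : α → List ER.Con} (hS : Poly S) : Poly (fun a => nam (S a)) :=
  NPC.Poly.flatten (poly_edgesOf hS)

theorem poly_instOf {S : α → List ER.Con} (hS : Poly S) : Poly (fun a => instOf (S a)) := by
  unfold instOf
  refine NPC.Poly.pair ?_ (Poly.cons (Poly.const _) ?_)
  · refine Poly.map (F := fun _ (e : List ℕ) => e.map (fun v => v + 1)) ?_ ?_
    · unfold gads
      refine Poly.flatMap (F := fun (_ : α) (q : (ℕ × ℕ × ℕ) × ℕ) =>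
        gad (2 * q.1.1) (2 * q.1.2.1) (2 * q.1.2.2) (fr q.2))
        (Poly.zipIdx (poly_trip (poly_gatesOf hS))) ?_
      have h : Poly (fun p : α × (ℕ × ℕ × ℕ) × ℕ => p.2) := Poly.snd Poly.id
      exact poly_gad (Poly.mul (NPC.Poly.const 2) h.fst.fst)
        (Poly.mul (NPC.Poly.const 2) h.fst.snd.fst)
        (Poly.mul (NPC.Poly.const 2) h.fst.snd.snd) h.snd
    · exact Poly.map (F := fun _ (v : ℕ) => v + 1) (Poly.snd Poly.id)
        (Poly.add (Poly.snd Poly.id) (Poly.const 1))
  · refine Poly.flatMap (F := fun x a => (nam (S x)).map fun b =>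
      if a = b then (3, 1, 5) else (a + 1, b + 1, 0)) (poly_nam hS) ?_
    refine Poly.map (F := fun (q : α × ℕ) b =>
      if q.2 = b then (3, 1, 5) else (q.2 + 1, b + 1, 0)) (poly_nam (hS.comp (Poly.fst Poly.id))) ?_
    have h1 : Poly (fun q : (α × ℕ) × ℕ => q.1.2) := Poly.snd (Poly.fst Poly.id)
    have h2 : Poly (fun q : (α × ℕ) × ℕ => q.2) := Poly.snd Poly.id
    exact Poly.ite (Poly.decide_eq h1 h2) (Poly.const _)
      (NPC.Poly.pair (Poly.add h1 (Poly.const 1)) (NPC.Poly.pair (Poly.add h2 (Poly.const 1))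
        (Poly.const 0)))

end

theorem COLk_hard {k : ℕ} (hk : 3 ≤ k) : ERHard (lang (COLk k)) :=
  ERHard.of_sys (f := instOf) (poly_instOf Poly.id) fun S =>
    ⟨fun h => ⟨wellFormed_instOf S hk, satisfiable_of_sat h⟩, fun h => sat_of_satisfiable h.2⟩

/-! ### Membership -/

/-- Difference of two variables. -/
def dfT (a b : ℕ) : Tm := Tm.add (Tm.var a) (Tm.neg (Tm.var b))

/-- Collinearity of three points. -/
def colF (a b c : ℕ) : Fm :=
  Fm.eq (Tm.mul (dfT (2 * b) (2 * a)) (dfT (2 * c + 1) (2 * a + 1)))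
    (Tm.mul (dfT (2 * b + 1) (2 * a + 1)) (dfT (2 * c) (2 * a)))

/-- The conditions. -/
def colList (I : CInst) : List Fm :=
  I.1.flatMap (fun G => G.flatMap fun a => G.flatMap fun b => G.map fun c => colF a b c) ++
  I.2.map (fun t => Fm.not (colF t.1 t.2.1 t.2.2))

/-- The test for well-formed instances. -/
def wfB (k : ℕ) (I : CInst) : Bool :=
  (I.1.all fun G => decide (G.dedup.length ≤ k)) &&
  (I.1.all fun G => I.1.all fun H =>
    ((G.all fun a => decide (a ∈ H)) && (H.all fun a => decide (a ∈ G))) ||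
    decide ((G.dedup.filter fun a => decide (a ∈ H)).length ≤ 1))

/-- The sentence. -/
def colSent (k : ℕ) (I : CInst) : Fm := if wfB k I = true then conj (colList I) else Fm.ff

/-- The point with a given index. -/
def pnt (v : ℕ → ℝ) (a : ℕ) : ℝ × ℝ := (v (2 * a), v (2 * a + 1))

theorem holds_colF (v : ℕ → ℝ) (a b c : ℕ) :
    (colF a b c).Holds v ↔ Collinear ℝ {pnt v a, pnt v b, pnt v c} := by
  rw [collinear_iff_col]
  simp only [colF, Fm.Holds, dfT, Tm.eval, Col, cr, pnt, Prod.fst_sub, Prod.snd_sub]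
  rw [← sub_eq_add_neg, ← sub_eq_add_neg, ← sub_eq_add_neg, ← sub_eq_add_neg]
  exact sub_eq_zero.symm

theorem holds_colList (v : ℕ → ℝ) (I : CInst) :
    (conj (colList I)).Holds v ↔
      (∀ G ∈ I.1, ∀ a ∈ G, ∀ b ∈ G, ∀ c ∈ G, Collinear ℝ {pnt v a, pnt v b, pnt v c}) ∧
      ∀ t ∈ I.2, ¬ Collinear ℝ {pnt v t.1, pnt v t.2.1, pnt v t.2.2} := by
  rw [holds_conj]
  simp only [colList, List.mem_append, or_imp, forall_and, List.mem_flatMap, List.mem_map,
    forall_exists_index, and_imp]
  constructor
  · rintro ⟨h1, h2⟩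
    refine ⟨fun G hG a ha b hb c hc => ?_, fun t ht => ?_⟩
    · exact (holds_colF v a b c).1 (h1 _ G hG a ha b hb c hc rfl)
    · have := h2 _ t ht rfl
      rw [← holds_colF]
      exact this
  · rintro ⟨h1, h2⟩
    refine ⟨?_, ?_⟩
    · rintro _ G hG a ha b hb c hc rfl
      exact (holds_colF v a b c).2 (h1 G hG a ha b hb c hc)
    · rintro _ t ht rfl
      have := h2 t ht
      rw [← holds_colF] at this
      exact this

theorem card_eq_dedup (G : List ℕ) : G.toFinset.card = G.dedup.length := by
  rw [List.card_toFinset]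

theorem inter_card (G H : List ℕ) :
    (G.toFinset ∩ H.toFinset).card = (G.dedup.filter fun a => decide (a ∈ H)).length := by
  have h : G.toFinset ∩ H.toFinset = (G.dedup.filter fun a => decide (a ∈ H)).toFinset := by
    ext v; simp
  rw [h, List.toFinset_card_of_nodup ((List.nodup_dedup G).filter _)]

theorem wfB_iff (k : ℕ) (I : CInst) : wfB k I = true ↔ WellFormed k I := by
  unfold wfB WellFormed
  rw [Bool.and_eq_true, List.all_eq_true, List.all_eq_true]
  refine and_congr ?_ ?_
  · refine forall_congr' fun G => forall_congr' fun _ => ?_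
    rw [card_eq_dedup]
    exact decide_eq_true_iff
  · refine forall_congr' fun G => forall_congr' fun _ => ?_
    rw [List.all_eq_true]
    refine forall_congr' fun H => forall_congr' fun _ => ?_
    rw [inter_card, Bool.or_eq_true, Bool.and_eq_true, List.all_eq_true, List.all_eq_true,
      decide_eq_true_iff]
    have : ((∀ x ∈ G, decide (x ∈ H) = true) ∧ ∀ x ∈ H, decide (x ∈ G) = true) ↔
        G.toFinset = H.toFinset := by
      simp only [decide_eq_true_iff]
      constructor
      · rintro ⟨h1, h2⟩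
        ext v
        simp only [List.mem_toFinset]
        exact ⟨h1 v, h2 v⟩
      · intro h
        have h' : ∀ v, v ∈ G ↔ v ∈ H := fun v => by
          rw [← List.mem_toFinset, h, List.mem_toFinset]
        exact ⟨fun v hv => (h' v).1 hv, fun v hv => (h' v).2 hv⟩
    rw [this]
    tauto

theorem exists_pnt (p : ℕ → ℝ × ℝ) : ∃ v : ℕ → ℝ, ∀ a, pnt v a = p a := by
  refine ⟨fun n => if n % 2 = 0 then (p (n / 2)).1 else (p (n / 2)).2, fun a => ?_⟩
  have h1 : 2 * a % 2 = 0 := by omega
  have h2 : ¬ (2 * a + 1) % 2 = 0 := by omega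
  have h3 : 2 * a / 2 = a := by omega
  have h4 : (2 * a + 1) / 2 = a := by omega
  simp only [pnt, h1, h2, h3, h4, if_true, if_false]

theorem COLk_iff (k : ℕ) (I : CInst) : COLk k I ↔ ETR (colSent k I) := by
  unfold colSent
  by_cases hI : wfB k I = true
  · rw [if_pos hI]
    constructor
    · rintro ⟨-, p, h1, h2⟩
      obtain ⟨v, hv⟩ := exists_pnt p
      refine ⟨v, (holds_colList v I).2 ⟨?_, ?_⟩⟩
      · intro G hG a ha b hb c hc
        rw [hv, hv, hv]
        exact h1 G hG a ha b hb c hc
      · intro t ht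
        rw [hv, hv, hv]
        exact h2 t ht
    · rintro ⟨v, hv⟩
      obtain ⟨h1, h2⟩ := (holds_colList v I).1 hv
      exact ⟨(wfB_iff k I).1 hI, pnt v, h1, h2⟩
  · rw [if_neg hI]
    constructor
    · rintro ⟨h, -⟩
      exact absurd ((wfB_iff k I).2 h) hI
    · intro h
      exact absurd h not_ETR_ff

section

variable {α : Type} [TEnc α]

theorem poly_dfT {a b : α → ℕ} (ha : Poly a) (hb : Poly b) : Poly (fun x => dfT (a x) (b x)) :=
  poly_tadd (poly_tvar ha) (poly_tneg (poly_tvar hb))

theorem poly_colF {a b c : α → ℕ} (ha : Poly a) (hb : Poly b) (hc : Poly c) :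
    Poly (fun x => colF (a x) (b x) (c x)) := by
  have d1 : ∀ {n : α → ℕ}, Poly n → Poly (fun x => 2 * n x) := fun hn =>
    Poly.mul (Poly.const 2) hn
  have d2 : ∀ {n : α → ℕ}, Poly n → Poly (fun x => 2 * n x + 1) := fun hn =>
    Poly.add (Poly.mul (Poly.const 2) hn) (Poly.const 1)
  exact poly_feq (poly_tmul (poly_dfT (d1 hb) (d1 ha)) (poly_dfT (d2 hc) (d2 ha)))
    (poly_tmul (poly_dfT (d2 hb) (d2 ha)) (poly_dfT (d1 hc) (d1 ha)))

end

theorem poly_colList : Poly colList := by
  unfold colList
  refine Poly.append ?_ ?_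
  · refine Poly.flatMap (F := fun (_ : CInst) G => G.flatMap fun a => G.flatMap fun b =>
      G.map fun c => colF a b c) (Poly.fst Poly.id) ?_
    refine Poly.flatMap (F := fun (q : CInst × List ℕ) a => q.2.flatMap fun b =>
      q.2.map fun c => colF a b c) (Poly.snd Poly.id) ?_
    refine Poly.flatMap (F := fun (q : (CInst × List ℕ) × ℕ) b =>
      q.1.2.map fun c => colF q.2 b c) (Poly.snd (Poly.fst Poly.id)) ?_
    refine Poly.map (F := fun (q : ((CInst × List ℕ) × ℕ) × ℕ) c =>
      colF q.1.2 q.2 c) (Poly.snd (Poly.fst (Poly.fst Poly.id))) ?_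
    exact poly_colF (Poly.snd (Poly.fst (Poly.fst Poly.id))) (Poly.snd (Poly.fst Poly.id))
      (Poly.snd Poly.id)
  · refine Poly.map (F := fun (_ : CInst) (t : ℕ × ℕ × ℕ) => Fm.not (colF t.1 t.2.1 t.2.2))
      (Poly.snd Poly.id) ?_
    have h : Poly (fun q : CInst × (ℕ × ℕ × ℕ) => q.2) := Poly.snd Poly.id
    exact poly_fnot (poly_colF h.fst h.snd.fst h.snd.snd)

theorem poly_wfB (k : ℕ) : Poly (wfB k) := by
  unfold wfB
  have hg : Poly (fun I : CInst => I.1) := Poly.fst Poly.id
  refine Poly.and ?_ ?_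
  · exact Poly.all (p := fun (_ : CInst) (G : List ℕ) => decide (G.dedup.length ≤ k)) hg
      (Poly.decide_le (Poly.length (poly_dedup (Poly.snd Poly.id))) (Poly.const k))
  · refine Poly.all (p := fun (I : CInst) (G : List ℕ) => I.1.all fun H =>
      ((G.all fun a => decide (a ∈ H)) && (H.all fun a => decide (a ∈ G))) ||
      decide ((G.dedup.filter fun a => decide (a ∈ H)).length ≤ 1)) hg ?_
    refine Poly.all (p := fun (q : CInst × List ℕ) (H : List ℕ) =>
      ((q.2.all fun a => decide (a ∈ H)) && (H.all fun a => decide (a ∈ q.2))) ||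
      decide ((q.2.dedup.filter fun a => decide (a ∈ H)).length ≤ 1))
      (Poly.fst (Poly.fst Poly.id)) ?_
    have hG : Poly (fun q : (CInst × List ℕ) × List ℕ => q.1.2) := Poly.snd (Poly.fst Poly.id)
    have hH : Poly (fun q : (CInst × List ℕ) × List ℕ => q.2) := Poly.snd Poly.id
    refine Poly.or (Poly.and ?_ ?_) ?_
    · exact Poly.all (p := fun (q : (CInst × List ℕ) × List ℕ) (a : ℕ) => decide (a ∈ q.2)) hG
        (Poly.decide_mem (Poly.snd Poly.id) (hH.comp (Poly.fst Poly.id)))
    · exact Poly.all (p := fun (q : (CInst × List ℕ) × List ℕ) (a : ℕ) => decide (a ∈ q.1.2)) hH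
        (Poly.decide_mem (Poly.snd Poly.id) (hG.comp (Poly.fst Poly.id)))
    · refine Poly.decide_le (Poly.length ?_) (Poly.const 1)
      exact Poly.filter (p := fun (q : (CInst × List ℕ) × List ℕ) (a : ℕ) => decide (a ∈ q.2))
        (poly_dedup hG) (Poly.decide_mem (Poly.snd Poly.id) (hH.comp (Poly.fst Poly.id)))

theorem poly_colSent (k : ℕ) : Poly (colSent k) := by
  unfold colSent
  exact Poly.ite (Poly.congr (poly_wfB k) fun M => Bool.decide_eq_true.symm)
    (poly_conj poly_colList) (Poly.const _)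

theorem COLk_mem (k : ℕ) : InER (lang (COLk k)) := InER.of_poly (poly_colSent k) (COLk_iff k)

/-- `COL_k` is `∃ℝ`-complete for every `k ≥ 3`. -/
theorem COLk_complete {k : ℕ} (hk : 3 ≤ k) : ERComplete (lang (COLk k)) :=
  ⟨COLk_mem k, COLk_hard hk⟩

end Pool.Agent.NPC.V11228.C3
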