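import Pool.Agent.V11228.CMI
import Pool.Agent.V11228.Col3Fin

/-!
# Constrained matrix invertibility: vectors and forms from point configurations
-/

namespace Pool.Agent.NPC.V11228.CM

open Pool.Agent.NPC Pool.Agent.NPC.ER Pool.Agent.NPC.H612 Pool.Agent.H621R2 Matrix
open Pool.Agent.NPC.V11228.C3 (nam mem_nam Real3 poly_nam)

/-! ### The instance -/

/-- Separation atoms: the first point is not in the span of the points of the list. -/
def dis (S : List ER.Con) : List (ℕ × List ℕ) :=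
  (2, [0, 4]) :: (nam S).flatMap (fun a => (nam S).map fun b =>
    if a = b then (2, [0, 4]) else (a, [b]))

/-- Collinearity atoms. -/
def cols (S : List ER.Con) : List (List ℕ) := gads (trip (gatesOf S)) 0

/-- Entries for the points. -/
def part0 (S : List ER.Con) : List (ℕ × List ℕ) := (nam S).dedup.map fun v => (5 * v, [])

/-- Entries for the copies. -/
def part1 (S : List ER.Con) : List (ℕ × List ℕ) :=
  (dis S).zipIdx.map fun q => (5 * q.2 + 1, q.1.2.map fun z => 5 * z)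

/-- First lines forcing a copy. -/
def part2 (S : List ER.Con) : List (ℕ × List ℕ) :=
  (dis S).zipIdx.map fun q => (5 * q.2 + 2, [5 * q.1.1, 5 * q.2 + 1])

/-- Second lines forcing a copy. -/
def part3 (S : List ER.Con) : List (ℕ × List ℕ) :=
  (dis S).zipIdx.map fun q => (5 * q.2 + 3, [5 * q.1.1, 5 * q.2 + 1, 5 * q.2 + 2])

/-- Entries for the collinearity atoms. -/
def part4 (S : List ER.Con) : List (ℕ × List ℕ) :=
  (cols S).zipIdx.map fun q => (5 * q.2 + 4, q.1.map fun z => 5 * z)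

/-- The instance of a system of constraints. -/
def afOf (S : List ER.Con) : List (ℕ × List ℕ) :=
  part0 S ++ (part1 S ++ (part2 S ++ (part3 S ++ part4 S)))

theorem nam0 (S : List ER.Con) : 0 ∈ nam S :=
  List.mem_flatten.2 ⟨[2, 0], List.mem_append_left _ (by decide), by simp⟩

theorem nam2 (S : List ER.Con) : 2 ∈ nam S :=
  List.mem_flatten.2 ⟨[2, 0], List.mem_append_left _ (by decide), by simp⟩

theorem nam4 (S : List ER.Con) : 4 ∈ nam S :=
  List.mem_flatten.2 ⟨[2, 4], List.mem_append_left _ (by decide), by simp⟩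

theorem dis_cases {S : List ER.Con} {q : ℕ × List ℕ} (hq : q ∈ dis S) :
    q = (2, [0, 4]) ∨ ∃ a ∈ nam S, ∃ b ∈ nam S, a ≠ b ∧ q = (a, [b]) := by
  simp only [dis, List.mem_cons, List.mem_flatMap, List.mem_map] at hq
  rcases hq with rfl | ⟨a, ha, b, hb, rfl⟩
  · exact Or.inl rfl
  · by_cases h : a = b
    · rw [if_pos h]
      exact Or.inl rfl
    · rw [if_neg h]
      exact Or.inr ⟨a, ha, b, hb, h, rfl⟩

theorem dis_mem {S : List ER.Con} {a b : ℕ} (ha : a ∈ nam S) (hb : b ∈ nam S) (h : a ≠ b) :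
    (a, [b]) ∈ dis S := by
  simp only [dis, List.mem_cons, List.mem_flatMap, List.mem_map]
  exact Or.inr ⟨a, ha, b, hb, by rw [if_neg h]⟩

theorem dis_nam {S : List ER.Con} {q : ℕ × List ℕ} (hq : q ∈ dis S) :
    q.1 ∈ nam S ∧ ∀ z ∈ q.2, z ∈ nam S := by
  rcases dis_cases hq with rfl | ⟨a, ha, b, hb, h, rfl⟩
  · refine ⟨nam2 S, ?_⟩
    intro z hz
    simp only [List.mem_cons, List.not_mem_nil, or_false] at hz
    rcases hz with rfl | rfl
    · exact nam0 S
    · exact nam4 S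
  · refine ⟨ha, ?_⟩
    intro z hz
    simp only [List.mem_cons, List.not_mem_nil, or_false] at hz
    rw [hz]
    exact hb

theorem cols_nam {S : List ER.Con} {G : List ℕ} (hG : G ∈ cols S) : ∀ z ∈ G, z ∈ nam S :=
  fun _ hz => List.mem_flatten.2 ⟨G, C3.gads_sub S hG, hz⟩

theorem names_part {β : Type} (l : List β) (j : ℕ) (g : β × ℕ → List ℕ) :
    (l.zipIdx.map fun q => (5 * q.2 + j, g q)).map Prod.fst =
      (List.range l.length).map fun k => 5 * k + j := by
  rw [List.map_map, List.range_eq_range', ← List.zipIdx_map_snd, List.map_map]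
  rfl

theorem nodup_part (n j : ℕ) : ((List.range n).map fun k => 5 * k + j).Nodup :=
  List.Nodup.map (fun a b h => by simpa using h) List.nodup_range

theorem mem_part {n j x : ℕ} (h : x ∈ (List.range n).map fun k => 5 * k + j) :
    ∃ k, x = 5 * k + j := by
  rw [List.mem_map] at h
  obtain ⟨k, _, rfl⟩ := h
  exact ⟨k, rfl⟩

theorem names_eq (S : List ER.Con) : (afOf S).map Prod.fst =
    ((nam S).dedup.map fun v => 5 * v) ++
    (((List.range (dis S).length).map fun k => 5 * k + 1) ++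
    (((List.range (dis S).length).map fun k => 5 * k + 2) ++
    (((List.range (dis S).length).map fun k => 5 * k + 3) ++
    ((List.range (cols S).length).map fun k => 5 * k + 4)))) := by
  unfold afOf
  rw [List.map_append, List.map_append, List.map_append, List.map_append, part1, part2, part3,
    part4, names_part, names_part, names_part, names_part, part0, List.map_map]
  rfl

theorem names_nodup (S : List ER.Con) : ((afOf S).map Prod.fst).Nodup := by
  rw [names_eq]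
  have h0 : ((nam S).dedup.map fun v => 5 * v).Nodup :=
    List.Nodup.map (fun a b h => by simpa using h) (List.nodup_dedup _)
  have m0 : ∀ x ∈ ((nam S).dedup.map fun v => 5 * v), ∃ k, x = 5 * k := by
    intro x hx
    rw [List.mem_map] at hx
    obtain ⟨k, _, rfl⟩ := hx
    exact ⟨k, rfl⟩
  rw [List.nodup_append', List.nodup_append', List.nodup_append', List.nodup_append']
  refine ⟨h0, ⟨nodup_part _ _, ⟨nodup_part _ _, ⟨nodup_part _ _, nodup_part _ _, ?_⟩, ?_⟩, ?_⟩, ?_⟩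
  · intro x hx hy
    obtain ⟨k, rfl⟩ := mem_part hx
    obtain ⟨l, hl⟩ := mem_part hy
    omega
  · intro x hx hy
    obtain ⟨k, rfl⟩ := mem_part hx
    rw [List.mem_append] at hy
    rcases hy with hy | hy <;> (obtain ⟨l, hl⟩ := mem_part hy; omega)
  · intro x hx hy
    obtain ⟨k, rfl⟩ := mem_part hx
    rw [List.mem_append, List.mem_append] at hy
    rcases hy with hy | hy | hy <;> (obtain ⟨l, hl⟩ := mem_part hy; omega)
  · intro x hx hy
    obtain ⟨k, rfl⟩ := m0 x hx
    rw [List.mem_append, List.mem_append, List.mem_append] at hy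
    rcases hy with hy | hy | hy | hy <;> (obtain ⟨l, hl⟩ := mem_part hy; omega)

theorem nam_name {S : List ER.Con} {v : ℕ} (h : v ∈ nam S) : 5 * v ∈ (afOf S).map Prod.fst := by
  rw [names_eq]
  exact List.mem_append_left _ (List.mem_map.2 ⟨v, List.mem_dedup.2 h, rfl⟩)

theorem lt_of_zipIdx {β : Type} {l : List β} {q : β × ℕ} (h : q ∈ l.zipIdx) :
    q.2 < l.length ∧ l[q.2]? = some q.1 := by
  obtain ⟨x, i⟩ := q
  have := List.mem_zipIdx h
  refine ⟨by omega, ?_⟩
  rw [List.getElem?_eq_getElem (by omega)]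
  have h3 := this.2.2
  simp only [Nat.sub_zero] at h3
  exact congrArg some h3.symm

theorem name1 {S : List ER.Con} {k : ℕ} (h : k < (dis S).length) :
    5 * k + 1 ∈ (afOf S).map Prod.fst := by
  rw [names_eq]
  exact List.mem_append_right _ (List.mem_append_left _
    (List.mem_map.2 ⟨k, List.mem_range.2 h, rfl⟩))

theorem name2 {S : List ER.Con} {k : ℕ} (h : k < (dis S).length) :
    5 * k + 2 ∈ (afOf S).map Prod.fst := by
  rw [names_eq]
  exact List.mem_append_right _ (List.mem_append_right _ (List.mem_append_left _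
    (List.mem_map.2 ⟨k, List.mem_range.2 h, rfl⟩)))

theorem mem_of_zipIdx {β : Type} {l : List β} {q : β × ℕ} (h : q ∈ l.zipIdx) : q.1 ∈ l := by
  obtain ⟨h1, h2⟩ := lt_of_zipIdx h
  exact List.mem_of_getElem? h2

theorem afOk (S : List ER.Con) : AFOk (afOf S) := by
  refine ⟨names_nodup S, ?_⟩
  intro q hq
  rw [afOf, List.mem_append, List.mem_append, List.mem_append, List.mem_append] at hq
  rcases hq with hq | hq | hq | hq | hq
  · rw [part0, List.mem_map] at hq
    obtain ⟨v, _, rfl⟩ := hq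
    simp
  · rw [part1, List.mem_map] at hq
    obtain ⟨r, hr, rfl⟩ := hq
    have hn := dis_nam (mem_of_zipIdx hr)
    simp only [List.mem_map]
    refine ⟨?_, ?_⟩
    · rintro ⟨z, _, hz⟩
      omega
    · rintro _ ⟨z, hz, rfl⟩
      exact List.mem_map.1 (nam_name (hn.2 z hz))
  · rw [part2, List.mem_map] at hq
    obtain ⟨r, hr, rfl⟩ := hq
    have hn := dis_nam (mem_of_zipIdx hr)
    have hl := (lt_of_zipIdx hr).1
    refine ⟨?_, ?_⟩
    · simp only [List.mem_cons, List.not_mem_nil, or_false]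
      omega
    · intro z hz
      simp only [List.mem_cons, List.not_mem_nil, or_false] at hz
      rcases hz with rfl | rfl
      · exact nam_name hn.1
      · exact name1 hl
  · rw [part3, List.mem_map] at hq
    obtain ⟨r, hr, rfl⟩ := hq
    have hn := dis_nam (mem_of_zipIdx hr)
    have hl := (lt_of_zipIdx hr).1
    refine ⟨?_, ?_⟩
    · simp only [List.mem_cons, List.not_mem_nil, or_false]
      omega
    · intro z hz
      simp only [List.mem_cons, List.not_mem_nil, or_false] at hz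
      rcases hz with rfl | rfl | rfl
      · exact nam_name hn.1
      · exact name1 hl
      · exact name2 hl
  · rw [part4, List.mem_map] at hq
    obtain ⟨r, hr, rfl⟩ := hq
    have hn := cols_nam (mem_of_zipIdx hr)
    simp only [List.mem_map]
    refine ⟨?_, ?_⟩
    · rintro ⟨z, _, hz⟩
      omega
    · rintro _ ⟨z, hz, rfl⟩
      exact List.mem_map.1 (nam_name (hn z hz))

/-! ### Linear algebra -/

theorem dot3 (v w : V3) : v ⬝ᵥ w = v 0 * w 0 + v 1 * w 1 + v 2 * w 2 := by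
  simp [dotProduct, Fin.sum_univ_three]

theorem dependent {A B C F X : V3} (hF : F ⬝ᵥ X ≠ 0) (hA : F ⬝ᵥ A = 0) (hB : F ⬝ᵥ B = 0)
    (hC : F ⬝ᵥ C = 0) : ∃ w : V3, w ≠ 0 ∧ ∀ G : V3,
      w 0 * (G ⬝ᵥ A) + w 1 * (G ⬝ᵥ B) + w 2 * (G ⬝ᵥ C) = 0 := by
  have h1 : (Matrix.of ![A, B, C]).det = 0 := by
    rw [← Matrix.exists_mulVec_eq_zero_iff]
    refine ⟨F, ?_, ?_⟩
    · rintro rfl
      exact hF (zero_dotProduct X)
    · ext i
      fin_cases i
      · change A ⬝ᵥ F = 0
        rw [dotProduct_comm]; exact hA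
      · change B ⬝ᵥ F = 0
        rw [dotProduct_comm]; exact hB
      · change C ⬝ᵥ F = 0
        rw [dotProduct_comm]; exact hC
  rw [← Matrix.exists_vecMul_eq_zero_iff] at h1
  obtain ⟨w, hw, h1⟩ := h1
  refine ⟨w, hw, fun G => ?_⟩
  have h2 : ∀ s, w 0 * A s + w 1 * B s + w 2 * C s = 0 := by
    intro s
    have h3 : w ⬝ᵥ (fun i => Matrix.of ![A, B, C] i s) = 0 := congrFun h1 s
    rw [dot3] at h3
    exact h3
  rw [dot3, dot3, dot3]
  linear_combination G 0 * h2 0 + G 1 * h2 1 + G 2 * h2 2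

theorem copy {Pu Pc Pa Pb Fc Fa Fb Fu : V3} (hu : Fu ⬝ᵥ Pu ≠ 0) (hc : Fc ⬝ᵥ Pc ≠ 0)
    (ha1 : Fa ⬝ᵥ Pu = 0) (ha2 : Fa ⬝ᵥ Pc = 0) (ha3 : Fa ⬝ᵥ Pa ≠ 0) (hb1 : Fb ⬝ᵥ Pu = 0)
    (hb2 : Fb ⬝ᵥ Pc = 0) (hb3 : Fb ⬝ᵥ Pa = 0) (hb : Fb ⬝ᵥ Pb ≠ 0) : Fc ⬝ᵥ Pu ≠ 0 := by
  intro h
  obtain ⟨w, hw, h1⟩ := dependent hb hb3 hb2 hb1
  have w0 : w 0 = 0 := by
    have := h1 Fa
    rw [ha1, ha2, mul_zero, mul_zero, add_zero, add_zero] at this
    exact (mul_eq_zero.1 this).resolve_right ha3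
  have w1 : w 1 = 0 := by
    have := h1 Fc
    rw [h, w0, zero_mul, zero_add, mul_zero, add_zero] at this
    exact (mul_eq_zero.1 this).resolve_right hc
  have w2 : w 2 = 0 := by
    have := h1 Fu
    rw [w0, w1, zero_mul, zero_mul, zero_add, zero_add] at this
    exact (mul_eq_zero.1 this).resolve_right hu
  apply hw
  ext i
  fin_cases i
  · exact w0
  · exact w1
  · exact w2

/-- A generic linear form is nonzero at finitely many given nonzero vectors. -/
theorem generic_form (V : V3) (hV : V ≠ 0) :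
    ∀ᶠ t : ℝ in Filter.cofinite, V 0 + t * V 1 + t ^ 2 * V 2 ≠ 0 := by
  rw [Filter.eventually_cofinite]
  obtain ⟨P, hP⟩ : ∃ P : Polynomial ℝ, P = Polynomial.C (V 2) * Polynomial.X ^ 2 +
    Polynomial.C (V 1) * Polynomial.X + Polynomial.C (V 0) := ⟨_, rfl⟩
  have hP0 : P ≠ 0 := by
    intro h0
    apply hV
    have e0 : P.coeff 0 = V 0 := by rw [hP]; simp
    have e1 : P.coeff 1 = V 1 := by
      rw [hP]; simp [Polynomial.coeff_C]
    have e2 : P.coeff 2 = V 2 := by
      rw [hP]; simp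
    rw [h0, Polynomial.coeff_zero] at e0 e1 e2
    ext i
    fin_cases i
    · exact e0.symm
    · exact e1.symm
    · exact e2.symm
  refine (Polynomial.finite_setOfPred_isRoot hP0).subset ?_
  intro t ht
  simp only [Set.mem_ofPred_eq, not_not] at ht
  simp only [Set.mem_ofPred_eq, Polynomial.IsRoot.def]
  rw [hP]
  simp only [Polynomial.eval_add, Polynomial.eval_mul, Polynomial.eval_C, Polynomial.eval_pow,
    Polynomial.eval_X]
  linarith

/-! ### Soundness -/

/-- An affine function. -/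
theorem col_of_affine {a b c : ℝ} {P Q R : Pt} (h : ¬ (b = 0 ∧ c = 0))
    (hP : a + b * P.1 + c * P.2 = 0) (hQ : a + b * Q.1 + c * Q.2 = 0)
    (hR : a + b * R.1 + c * R.2 = 0) : Col P Q R := by
  have e1 : b * (Q.1 - P.1) + c * (Q.2 - P.2) = 0 := by linarith
  have e2 : b * (R.1 - P.1) + c * (R.2 - P.2) = 0 := by linarith
  have kb : b * cr (Q - P) (R - P) = 0 := by
    simp only [cr, Prod.fst_sub, Prod.snd_sub]
    linear_combination (R.2 - P.2) * e1 - (Q.2 - P.2) * e2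
  have kc : c * cr (Q - P) (R - P) = 0 := by
    simp only [cr, Prod.fst_sub, Prod.snd_sub]
    linear_combination (Q.1 - P.1) * e2 - (R.1 - P.1) * e1
  by_cases hb : b = 0
  · exact (mul_eq_zero.1 kc).resolve_left fun hc => h ⟨hb, hc⟩
  · exact (mul_eq_zero.1 kb).resolve_left hb

/-- The affine point of a vector, with respect to the chart given by `t`. -/
noncomputable def aff (t : ℝ) (V : V3) : Pt :=
  (V 1 / (V 0 + t * V 1 + t ^ 2 * V 2), V 2 / (V 0 + t * V 1 + t ^ 2 * V 2))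

theorem dot_aff (t : ℝ) (V F : V3) (h : V 0 + t * V 1 + t ^ 2 * V 2 ≠ 0) :
    F ⬝ᵥ V = (V 0 + t * V 1 + t ^ 2 * V 2) *
      (F 0 + (F 1 - t * F 0) * (aff t V).1 + (F 2 - t ^ 2 * F 0) * (aff t V).2) := by
  obtain ⟨k, hk⟩ : ∃ k, k = V 0 + t * V 1 + t ^ 2 * V 2 := ⟨_, rfl⟩
  rw [← hk] at h
  simp only [aff, ← hk, dot3]
  field_simp
  rw [hk]
  ring

theorem real3_of_af {S : List ER.Con} (h : AF (afOf S)) : ∃ p, Real3 S p := by
  obtain ⟨P, hP⟩ := h
  have hpt : ∀ v ∈ nam S, ∃ F : V3, F ⬝ᵥ P (5 * v) ≠ 0 := by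
    intro v hv
    obtain ⟨F, hF, -⟩ := hP (5 * v, []) (List.mem_append_left _
      (List.mem_map.2 ⟨v, List.mem_dedup.2 hv, rfl⟩))
    exact ⟨F, hF⟩
  have hsep : ∀ q ∈ dis S, ∃ F : V3, F ⬝ᵥ P (5 * q.1) ≠ 0 ∧ ∀ z ∈ q.2, F ⬝ᵥ P (5 * z) = 0 := by
    intro q hq
    obtain ⟨k, hk⟩ := mem_zipIdx_of_mem hq 0
    obtain ⟨Fc, hc1, hc2⟩ := hP (5 * k + 1, q.2.map fun z => 5 * z) (by
      rw [afOf, List.mem_append, List.mem_append]
      exact Or.inr (Or.inl (List.mem_map.2 ⟨(q, k), hk, rfl⟩)))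
    obtain ⟨Fa, ha1, ha2⟩ := hP (5 * k + 2, [5 * q.1, 5 * k + 1]) (by
      rw [afOf, List.mem_append, List.mem_append, List.mem_append]
      exact Or.inr (Or.inr (Or.inl (List.mem_map.2 ⟨(q, k), hk, rfl⟩))))
    obtain ⟨Fb, hb1, hb2⟩ := hP (5 * k + 3, [5 * q.1, 5 * k + 1, 5 * k + 2]) (by
      rw [afOf, List.mem_append, List.mem_append, List.mem_append, List.mem_append]
      exact Or.inr (Or.inr (Or.inr (Or.inl (List.mem_map.2 ⟨(q, k), hk, rfl⟩)))))
    obtain ⟨Fu, hu⟩ := hpt q.1 (dis_nam hq).1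
    refine ⟨Fc, ?_, fun z hz => hc2 _ (List.mem_map.2 ⟨z, hz, rfl⟩)⟩
    exact copy hu hc1 (ha2 _ (by simp)) (ha2 _ (by simp)) ha1 (hb2 _ (by simp))
      (hb2 _ (by simp)) (hb2 _ (by simp)) hb1
  have hcol : ∀ G ∈ cols S, ∃ F : V3, (∃ X, F ⬝ᵥ X ≠ 0) ∧ ∀ z ∈ G, F ⬝ᵥ P (5 * z) = 0 := by
    intro G hG
    obtain ⟨k, hk⟩ := mem_zipIdx_of_mem hG 0
    obtain ⟨F, h1, h2⟩ := hP (5 * k + 4, G.map fun z => 5 * z) (by
      rw [afOf, List.mem_append, List.mem_append, List.mem_append, List.mem_append]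
      exact Or.inr (Or.inr (Or.inr (Or.inr (List.mem_map.2 ⟨(G, k), hk, rfl⟩)))))
    exact ⟨F, ⟨_, h1⟩, fun z hz => h2 _ (List.mem_map.2 ⟨z, hz, rfl⟩)⟩
  have hne : ∀ v ∈ nam S, P (5 * v) ≠ 0 := by
    intro v hv h0
    obtain ⟨F, hF⟩ := hpt v hv
    rw [h0, dotProduct_zero] at hF
    exact hF rfl
  have hev : ∀ᶠ t : ℝ in Filter.cofinite, ∀ v ∈ (nam S).toFinset,
      P (5 * v) 0 + t * P (5 * v) 1 + t ^ 2 * P (5 * v) 2 ≠ 0 := by
    rw [Filter.eventually_all_finset]
    intro v hv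
    exact generic_form _ (hne v (List.mem_toFinset.1 hv))
  obtain ⟨t, ht⟩ := hev.exists
  have ht' : ∀ v ∈ nam S, P (5 * v) 0 + t * P (5 * v) 1 + t ^ 2 * P (5 * v) 2 ≠ 0 := fun v hv =>
    ht v (List.mem_toFinset.2 hv)
  obtain ⟨p, hp⟩ : ∃ p : ℕ → Pt, p = fun v => aff t (P (5 * v)) := ⟨_, rfl⟩
  have hz : ∀ F : V3, ∀ v ∈ nam S, (F ⬝ᵥ P (5 * v) = 0 ↔
      F 0 + (F 1 - t * F 0) * (p v).1 + (F 2 - t ^ 2 * F 0) * (p v).2 = 0) := by
    intro F v hv
    rw [dot_aff t _ F (ht' v hv), mul_eq_zero, hp]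
    exact ⟨fun h => h.resolve_left (ht' v hv), fun h => Or.inr h⟩
  have hinj : ∀ a ∈ nam S, ∀ b ∈ nam S, a ≠ b → p a ≠ p b := by
    intro a ha b hb hab hpab
    obtain ⟨F, h1, h2⟩ := hsep _ (dis_mem ha hb hab)
    have h3 := h2 b (by simp)
    rw [hz F b hb, ← hpab, ← hz F a ha] at h3
    exact h1 h3
  refine ⟨p, ?_, ?_, ?_⟩
  · intro a ha b hb hab
    by_contra h
    exact hinj a (mem_nam.2 ha) b (mem_nam.2 hb) h hab
  · intro e he a ha b hb c hc
    obtain ⟨F, ⟨X, hX⟩, h2⟩ := hcol e he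
    have hn := cols_nam he
    have h3 : ∀ z ∈ e, F 0 + (F 1 - t * F 0) * (p z).1 + (F 2 - t ^ 2 * F 0) * (p z).2 = 0 :=
      fun z hz' => (hz F z (hn z hz')).1 (h2 z hz')
    refine col_of_affine ?_ (h3 a ha) (h3 b hb) (h3 c hc)
    rintro ⟨hb0, hc0⟩
    apply hX
    have h4 := h3 a ha
    rw [hb0, hc0, zero_mul, zero_mul, add_zero, add_zero] at h4
    rw [h4, mul_zero, sub_zero] at hb0 hc0
    rw [dot3, h4, hb0, hc0]
    ring
  · intro hc
    obtain ⟨F, h1, h2⟩ := hsep (2, [0, 4]) (by simp [dis])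
    have h04 : p 0 ≠ p 4 := hinj 0 (nam0 S) 4 (nam4 S) (by decide)
    obtain ⟨s, hs⟩ := exists_param_of_col h04 hc.rot
    have e0 := (hz F 0 (nam0 S)).1 (h2 0 (by simp))
    have e4 := (hz F 4 (nam4 S)).1 (h2 4 (by simp))
    apply h1
    rw [hz F 2 (nam2 S), hs]
    simp only [Prod.fst_add, Prod.snd_add, Prod.smul_fst, Prod.smul_snd, smul_eq_mul,
      Prod.fst_sub, Prod.snd_sub]
    linear_combination (1 - s) * e0 + s * e4

/-! ### Completeness -/

/-- The vector of an affine point. -/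
def lift (Q : Pt) : V3 := ![1, Q.1, Q.2]

theorem dot_lift (F : V3) (Q : Pt) : F ⬝ᵥ lift Q = F 0 + F 1 * Q.1 + F 2 * Q.2 := by
  rw [dot3]
  simp [lift]

/-- The form of a line through a point. -/
theorem exists_form (P d : Pt) : ∃ F : V3, ∀ Q : Pt, F ⬝ᵥ lift Q = cr d (Q - P) := by
  refine ⟨![-(d.1 * P.2) + d.2 * P.1, -d.2, d.1], fun Q => ?_⟩
  rw [dot_lift]
  simp only [cr, Prod.fst_sub, Prod.snd_sub]
  simp
  ring

theorem sep_complete {S : List ER.Con} {p : ℕ → Pt} (h : Real3 S p) {q : ℕ × List ℕ}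
    (hq : q ∈ dis S) : ∃ F : V3, F ⬝ᵥ lift (p q.1) ≠ 0 ∧ ∀ z ∈ q.2, F ⬝ᵥ lift (p z) = 0 := by
  rcases dis_cases hq with rfl | ⟨a, ha, b, hb, hab, rfl⟩
  · obtain ⟨F, hF⟩ := exists_form (p 0) (p 4 - p 0)
    refine ⟨F, ?_, ?_⟩
    · rw [hF]
      intro h0
      apply h.2.2
      have : Col (p 0) (p 4) (p 2) := h0
      exact this.rot.rot
    · intro z hz
      simp only [List.mem_cons, List.not_mem_nil, or_false] at hz
      rw [hF]
      rcases hz with rfl | rfl
      · simp [cr]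
      · simp [cr]; ring
  · have hne : p a ≠ p b := fun h0 => hab (h.1 (mem_nam.1 ha) (mem_nam.1 hb) h0)
    obtain ⟨F, hF⟩ := exists_form (p b) (-(p a - p b).2, (p a - p b).1)
    refine ⟨F, ?_, ?_⟩
    · rw [hF]
      intro h0
      apply hne
      simp only [cr] at h0
      have h1 : (p a - p b).1 = 0 := by nlinarith [sq_nonneg (p a - p b).1, sq_nonneg (p a - p b).2]
      have h2 : (p a - p b).2 = 0 := by nlinarith [sq_nonneg (p a - p b).1, sq_nonneg (p a - p b).2]
      have : p a - p b = 0 := Prod.ext h1 h2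
      exact sub_eq_zero.1 this
    · intro z hz
      simp only [List.mem_cons, List.not_mem_nil, or_false] at hz
      rw [hF, hz]
      simp [cr]

theorem col_complete {S : List ER.Con} {p : ℕ → Pt} (h : Real3 S p) {G : List ℕ}
    (hG : G ∈ cols S) : ∃ F : V3, F ≠ 0 ∧ ∀ z ∈ G, F ⬝ᵥ lift (p z) = 0 := by
  by_cases hab : ∃ a ∈ G, ∃ b ∈ G, p a ≠ p b
  · obtain ⟨a, ha, b, hb, hab⟩ := hab
    obtain ⟨F, hF⟩ := exists_form (p a) (p b - p a)
    refine ⟨F, ?_, ?_⟩
    · rintro rfl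
      have h1 := hF (p a + (-(p b - p a).2, (p b - p a).1))
      rw [zero_dotProduct] at h1
      apply hab
      simp only [cr, Prod.fst_sub, Prod.snd_sub, Prod.fst_add, Prod.snd_add] at h1
      have h2 : (p b).1 - (p a).1 = 0 := by
        nlinarith [sq_nonneg ((p b).1 - (p a).1), sq_nonneg ((p b).2 - (p a).2)]
      have h3 : (p b).2 - (p a).2 = 0 := by
        nlinarith [sq_nonneg ((p b).1 - (p a).1), sq_nonneg ((p b).2 - (p a).2)]
      exact Prod.ext (by linarith) (by linarith)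
    · intro z hz
      rw [hF]
      exact h.2.1 G hG a ha b hb z hz
  · push Not at hab
    cases G with
    | nil => exact ⟨![1, 0, 0], fun h0 => by simpa using congrFun h0 0, by simp⟩
    | cons a G =>
      obtain ⟨F, hF⟩ := exists_form (p a) (1, 0)
      refine ⟨F, ?_, ?_⟩
      · rintro rfl
        have h1 := hF (p a + (0, 1))
        rw [zero_dotProduct] at h1
        simp [cr] at h1
      · intro z hz
        rw [hF, hab z hz a (by simp)]
        simp [cr]

theorem af_of_real3 {S : List ER.Con} {p : ℕ → Pt} (h : Real3 S p) : AF (afOf S) := by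
  have hW : ∀ k : ℕ, ∃ W : V3, ∀ G, (cols S)[k]? = some G →
      ∃ F : V3, F ⬝ᵥ W ≠ 0 ∧ ∀ z ∈ G, F ⬝ᵥ lift (p z) = 0 := by
    intro k
    cases hG : (cols S)[k]? with
    | none => exact ⟨0, fun G h => by simp at h⟩
    | some G =>
      obtain ⟨F, h1, h2⟩ := col_complete h (List.mem_of_getElem? hG)
      refine ⟨F, fun G' hG' => ?_⟩
      rw [Option.some.injEq] at hG'
      subst hG'
      exact ⟨F, fun h0 => h1 (dotProduct_self_eq_zero.1 h0), h2⟩
  choose W hW using hW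
  obtain ⟨u, hu⟩ : ∃ u : ℕ → ℕ, ∀ q ∈ (dis S).zipIdx, u q.2 = q.1.1 := by
    refine ⟨fun k => ((dis S).getD k (0, [])).1, fun q hq => ?_⟩
    obtain ⟨h1, h2⟩ := lt_of_zipIdx hq
    change ((dis S).getD q.2 (0, [])).1 = q.1.1
    rw [List.getD_eq_getElem?_getD, h2]
    rfl
  obtain ⟨P, hP⟩ : ∃ P : ℕ → V3, P = fun n => if n % 5 = 0 then lift (p (n / 5)) else
    if n % 5 = 1 then lift (p (u (n / 5))) else if n % 5 = 2 then ![0, 1, 0] else
    if n % 5 = 3 then ![0, 0, 1] else W (n / 5) := ⟨_, rfl⟩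
  have P0 : ∀ v, P (5 * v) = lift (p v) := by
    intro v
    have h1 : 5 * v % 5 = 0 := by omega
    have h2 : 5 * v / 5 = v := by omega
    simp only [hP, h1, h2, if_true]
  have P1 : ∀ v, P (5 * v + 1) = lift (p (u v)) := by
    intro v
    have h1 : (5 * v + 1) % 5 = 1 := by omega
    have h2 : (5 * v + 1) / 5 = v := by omega
    simp only [hP, h1, h2, if_true, one_ne_zero, if_false]
  have P2 : ∀ v, P (5 * v + 2) = ![0, 1, 0] := by
    intro v
    have h1 : (5 * v + 2) % 5 = 2 := by omega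
    simp only [hP, h1]
    rfl
  have P3 : ∀ v, P (5 * v + 3) = ![0, 0, 1] := by
    intro v
    have h1 : (5 * v + 3) % 5 = 3 := by omega
    simp only [hP, h1]
    rfl
  have P4 : ∀ v, P (5 * v + 4) = W v := by
    intro v
    have h1 : (5 * v + 4) % 5 = 4 := by omega
    have h2 : (5 * v + 4) / 5 = v := by omega
    simp only [hP, h1, h2]
    rfl
  refine ⟨P, fun q hq => ?_⟩
  rw [afOf, List.mem_append, List.mem_append, List.mem_append, List.mem_append] at hq
  rcases hq with hq | hq | hq | hq | hq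
  · rw [part0, List.mem_map] at hq
    obtain ⟨v, _, rfl⟩ := hq
    refine ⟨![1, 0, 0], ?_, by simp⟩
    simp only [P0]
    rw [dot_lift]
    simp
  · rw [part1, List.mem_map] at hq
    obtain ⟨r, hr, rfl⟩ := hq
    obtain ⟨F, h1, h2⟩ := sep_complete h (mem_of_zipIdx hr)
    refine ⟨F, ?_, ?_⟩
    · simp only [P1, hu r hr]
      exact h1
    · intro z hz
      rw [List.mem_map] at hz
      obtain ⟨z, hz, rfl⟩ := hz
      rw [P0]
      exact h2 z hz
  · rw [part2, List.mem_map] at hq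
    obtain ⟨r, hr, rfl⟩ := hq
    refine ⟨![-(p r.1.1).1, 1, 0], ?_, ?_⟩
    · simp only [P2]
      rw [dot3]
      simp
    · intro z hz
      simp only [List.mem_cons, List.not_mem_nil, or_false] at hz
      rcases hz with rfl | rfl
      · rw [P0, dot_lift]
        simp
      · rw [P1, hu r hr, dot_lift]
        simp
  · rw [part3, List.mem_map] at hq
    obtain ⟨r, hr, rfl⟩ := hq
    refine ⟨![-(p r.1.1).2, 0, 1], ?_, ?_⟩
    · simp only [P3]
      rw [dot3]
      simp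
    · intro z hz
      simp only [List.mem_cons, List.not_mem_nil, or_false] at hz
      rcases hz with rfl | rfl | rfl
      · rw [P0, dot_lift]
        simp
      · rw [P1, hu r hr, dot_lift]
        simp
      · rw [P2, dot3]
        simp
  · rw [part4, List.mem_map] at hq
    obtain ⟨r, hr, rfl⟩ := hq
    obtain ⟨F, h1, h2⟩ := hW r.2 r.1 (lt_of_zipIdx hr).2
    refine ⟨F, ?_, ?_⟩
    · simp only [P4]
      exact h1
    · intro z hz
      rw [List.mem_map] at hz
      obtain ⟨z, hz, rfl⟩ := hz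
      rw [P0]
      exact h2 z hz

theorem cmi_iff_sat (S : List ER.Con) : Sat S ↔ CMI (cmiOf (afOf S)) := by
  constructor
  · intro h
    obtain ⟨p, hp⟩ := C3.real3_complete h
    exact cmi_complete (af_of_real3 hp)
  · intro h
    obtain ⟨p, hp⟩ := real3_of_af (cmi_sound (afOk S) h)
    exact C3.real3_sound hp

end Pool.Agent.NPC.V11228.CM
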