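import Pool.Agent.V11228.CMI2
import Pool.Agent.H612.TmPoly

/-!
# Constrained matrix invertibility is `∃ℝ`-complete: the reduction in polynomial time, membership
-/

namespace Pool.Agent.NPC.V11228.CM

open Pool.Agent.NPC Pool.Agent.NPC.ER Pool.Agent.NPC.H612 Pool.Agent.H621R2 Matrix
open Pool.Agent.NPC.V11228.C3 (nam mem_nam Real3 poly_nam)

section

variable {α : Type} [TEnc α]

theorem poly_dis {S : α → List ER.Con} (hS : Poly S) : Poly (fun a => dis (S a)) := by
  unfold dis
  refine Poly.cons (Poly.const _) ?_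
  refine Poly.flatMap (F := fun x a => (nam (S x)).map fun b =>
    if a = b then (2, [0, 4]) else (a, [b])) (poly_nam hS) ?_
  refine Poly.map (F := fun (q : α × ℕ) b =>
    if q.2 = b then (2, [0, 4]) else (q.2, [b])) (poly_nam (hS.comp (Poly.fst Poly.id))) ?_
  have h1 : Poly (fun q : (α × ℕ) × ℕ => q.1.2) := Poly.snd (Poly.fst Poly.id)
  have h2 : Poly (fun q : (α × ℕ) × ℕ => q.2) := Poly.snd Poly.id
  exact Poly.ite (Poly.decide_eq h1 h2) (Poly.const _)
    (NPC.Poly.pair h1 (Poly.cons h2 (Poly.const [])))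

theorem poly_cols {S : α → List ER.Con} (hS : Poly S) : Poly (fun a => cols (S a)) := by
  unfold cols gads
  refine Poly.flatMap (F := fun (_ : α) (q : (ℕ × ℕ × ℕ) × ℕ) =>
    gad (2 * q.1.1) (2 * q.1.2.1) (2 * q.1.2.2) (fr q.2))
    (Poly.zipIdx (poly_trip (poly_gatesOf hS))) ?_
  have h : Poly (fun p : α × (ℕ × ℕ × ℕ) × ℕ => p.2) := Poly.snd Poly.id
  exact poly_gad (Poly.mul (NPC.Poly.const 2) h.fst.fst)
    (Poly.mul (NPC.Poly.const 2) h.fst.snd.fst)
    (Poly.mul (NPC.Poly.const 2) h.fst.snd.snd) h.snd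

theorem poly_five {n : α → ℕ} (hn : Poly n) (j : ℕ) : Poly (fun a => 5 * n a + j) :=
  Poly.add (Poly.mul (Poly.const 5) hn) (Poly.const j)

theorem poly_five0 {n : α → ℕ} (hn : Poly n) : Poly (fun a => 5 * n a) :=
  Poly.mul (Poly.const 5) hn

theorem poly_five_list {l : α → List ℕ} (hl : Poly l) :
    Poly (fun a => (l a).map fun z => 5 * z) :=
  Poly.map (F := fun (_ : α) z => 5 * z) hl (poly_five0 (Poly.snd Poly.id))

theorem poly_afOf {S : α → List ER.Con} (hS : Poly S) : Poly (fun a => afOf (S a)) := by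
  unfold afOf part0 part1 part2 part3 part4
  have hd : Poly (fun a => (dis (S a)).zipIdx) := Poly.zipIdx (poly_dis hS)
  have hr : Poly (fun q : α × ((ℕ × List ℕ) × ℕ) => q.2) := Poly.snd Poly.id
  refine Poly.append ?_ (Poly.append ?_ (Poly.append ?_ (Poly.append ?_ ?_)))
  · exact Poly.map (F := fun (_ : α) v => (5 * v, ([] : List ℕ))) (poly_dedup (poly_nam hS))
      (NPC.Poly.pair (poly_five0 (Poly.snd Poly.id)) (Poly.const []))
  · exact Poly.map (F := fun (_ : α) (q : (ℕ × List ℕ) × ℕ) =>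
      (5 * q.2 + 1, q.1.2.map fun z => 5 * z)) hd
      (NPC.Poly.pair (poly_five hr.snd 1) (poly_five_list hr.fst.snd))
  · exact Poly.map (F := fun (_ : α) (q : (ℕ × List ℕ) × ℕ) =>
      (5 * q.2 + 2, [5 * q.1.1, 5 * q.2 + 1])) hd
      (NPC.Poly.pair (poly_five hr.snd 2) (Poly.cons (poly_five0 hr.fst.fst)
        (Poly.cons (poly_five hr.snd 1) (Poly.const []))))
  · exact Poly.map (F := fun (_ : α) (q : (ℕ × List ℕ) × ℕ) =>
      (5 * q.2 + 3, [5 * q.1.1, 5 * q.2 + 1, 5 * q.2 + 2])) hd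
      (NPC.Poly.pair (poly_five hr.snd 3) (Poly.cons (poly_five0 hr.fst.fst)
        (Poly.cons (poly_five hr.snd 1) (Poly.cons (poly_five hr.snd 2) (Poly.const [])))))
  · have hc : Poly (fun q : α × (List ℕ × ℕ) => q.2) := Poly.snd Poly.id
    exact Poly.map (F := fun (_ : α) (q : List ℕ × ℕ) =>
      (5 * q.2 + 4, q.1.map fun z => 5 * z)) (Poly.zipIdx (poly_cols hS))
      (NPC.Poly.pair (poly_five hc.snd 4) (poly_five_list hc.fst))

theorem poly_entA : Poly (fun q : List (ℕ × List ℕ) × ℕ × ℕ => entA q.1 q.2.1 q.2.2) := by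
  have hI : Poly (fun q : List (ℕ × List ℕ) × ℕ × ℕ => q.1) := Poly.fst Poly.id
  have hr : Poly (fun q : List (ℕ × List ℕ) × ℕ × ℕ => q.2.1) := Poly.fst (Poly.snd Poly.id)
  have hc : Poly (fun q : List (ℕ × List ℕ) × ℕ × ℕ => q.2.2) := Poly.snd (Poly.snd Poly.id)
  unfold entA nm zs
  refine Poly.or (Poly.decide_lt hr (Poly.const 3)) (Poly.or (Poly.decide_lt hc (Poly.const 3))
    (Poly.and (Poly.not (Poly.decide_eq hr hc)) (Poly.not (Poly.decide_mem ?_ ?_))))
  · exact Poly.fst (Poly.getD hI (Poly.sub hr (Poly.const 3)) (Poly.const (0, [])))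
  · exact Poly.snd (Poly.getD hI (Poly.sub hc (Poly.const 3)) (Poly.const (0, [])))

theorem poly_entB : Poly (fun q : List (ℕ × List ℕ) × ℕ × ℕ => entB q.2.1 q.2.2) := by
  have hr : Poly (fun q : List (ℕ × List ℕ) × ℕ × ℕ => q.2.1) := Poly.fst (Poly.snd Poly.id)
  have hc : Poly (fun q : List (ℕ × List ℕ) × ℕ × ℕ => q.2.2) := Poly.snd (Poly.snd Poly.id)
  unfold entB
  exact Poly.or (Poly.decide_lt hr (Poly.const 3)) (Poly.or (Poly.decide_lt hc (Poly.const 3))
    (Poly.decide_eq hr hc))

theorem poly_tab {f : List (ℕ × List ℕ) → ℕ → ℕ → Bool}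
    (hf : Poly (fun q : List (ℕ × List ℕ) × ℕ × ℕ => f q.1 q.2.1 q.2.2)) :
    Poly (fun I : List (ℕ × List ℕ) => tab (3 + I.length) (f I)) := by
  unfold tab
  have hl : ∀ {γ : Type} [TEnc γ] {g : γ → List (ℕ × List ℕ)}, Poly g →
      UPoly (fun x => 3 + (g x).length) := fun hg =>
    UPoly.add (UPoly.const 3) (UPoly.length hg)
  refine Poly.map (F := fun I r => (List.range (3 + I.length)).map fun c => f I r c)
    (hl Poly.id).range ?_
  refine Poly.map (F := fun (q : List (ℕ × List ℕ) × ℕ) c => f q.1 q.2 c)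
    (hl (Poly.fst Poly.id)).range ?_
  exact hf.comp (NPC.Poly.pair (Poly.fst (Poly.fst Poly.id))
    (NPC.Poly.pair (Poly.snd (Poly.fst Poly.id)) (Poly.snd Poly.id)))

theorem poly_cmiOf {I : α → List (ℕ × List ℕ)} (hI : Poly I) : Poly (fun a => cmiOf (I a)) :=
  (NPC.Poly.pair (poly_tab poly_entA) (poly_tab (f := fun _ => entB) poly_entB)).comp hI

end

/-- Constrained matrix invertibility over the reals is `∃ℝ`-hard. -/
theorem cmi_hard : ERHard (lang CMI) :=
  ERHard.of_sys (f := fun S => cmiOf (afOf S)) (poly_cmiOf (poly_afOf Poly.id)) cmi_iff_sat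

/-! ### Membership -/

/-- Variable for an entry of the first matrix. -/
def vX (n i j : ℕ) : ℕ := 2 * (i * n + j)

/-- Variable for an entry of the second matrix. -/
def vY (n i j : ℕ) : ℕ := 2 * (i * n + j) + 1

/-- Shape of a pattern. -/
def sqB (n : ℕ) (A : List (List Bool)) : Bool :=
  decide (A.length = n) && A.all fun r => decide (r.length = n)

/-- Vanishing conditions. -/
def zeroF (A : List (List Bool)) (i j x : ℕ) : Fm :=
  if (A.getD i []).getD j false = false then Fm.eq (Tm.var x) Tm.zero else tt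

/-- The equation of an entry of the product. -/
def prodF (n i j : ℕ) : Fm :=
  Fm.eq (sumT ((List.range n).map fun k => Tm.mul (Tm.var (vX n i k)) (Tm.var (vY n k j))))
    (if i = j then Tm.one else Tm.zero)

/-- All conditions. -/
def cmiList (I : List (List Bool) × List (List Bool)) : List Fm :=
  (List.range I.1.length).flatMap fun i => (List.range I.1.length).flatMap fun j =>
    [zeroF I.1 i j (vX I.1.length i j), zeroF I.2 i j (vY I.1.length i j), prodF I.1.length i j]

/-- The sentence. -/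
def cmiF (I : List (List Bool) × List (List Bool)) : Fm :=
  if (sqB I.1.length I.1 && sqB I.1.length I.2) = true then conj (cmiList I) else Fm.ff

theorem sqB_iff (n : ℕ) (A : List (List Bool)) : sqB n A = true ↔ IsSquare n A := by
  unfold sqB IsSquare
  rw [Bool.and_eq_true, List.all_eq_true, decide_eq_true_iff]
  simp only [decide_eq_true_iff]

theorem holds_zeroF (v : ℕ → ℝ) (A : List (List Bool)) (i j x : ℕ) :
    (zeroF A i j x).Holds v ↔ ((A.getD i []).getD j false = false → v x = 0) := by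
  unfold zeroF
  split_ifs with h
  · simp only [Fm.Holds, Tm.eval, h, true_implies]
  · exact ⟨fun _ h' => absurd h' h, fun _ => holds_tt v⟩

theorem list_sum_range (f : ℕ → ℝ) (n : ℕ) :
    ((List.range n).map f).sum = ∑ k ∈ Finset.range n, f k := by
  induction n with
  | zero => simp
  | succ n ih =>
    rw [List.range_succ, List.map_append, List.sum_append, ih, Finset.sum_range_succ]
    simp

theorem holds_prodF (v : ℕ → ℝ) (n i j : ℕ) :
    (prodF n i j).Holds v ↔ ∑ k ∈ Finset.range n, v (vX n i k) * v (vY n k j) =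
      if i = j then 1 else 0 := by
  unfold prodF
  simp only [Fm.Holds, eval_sumT, List.map_map]
  rw [list_sum_range]
  split_ifs with h
  · simp only [Tm.eval, Function.comp_def]
  · simp only [Tm.eval, Function.comp_def]

theorem holds_cmiList (v : ℕ → ℝ) (I : List (List Bool) × List (List Bool)) :
    (conj (cmiList I)).Holds v ↔ ∀ i < I.1.length, ∀ j < I.1.length,
      ((I.1.getD i []).getD j false = false → v (vX I.1.length i j) = 0) ∧
      ((I.2.getD i []).getD j false = false → v (vY I.1.length i j) = 0) ∧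
      ∑ k ∈ Finset.range I.1.length, v (vX I.1.length i k) * v (vY I.1.length k j) =
        if i = j then 1 else 0 := by
  rw [holds_conj]
  simp only [cmiList, List.mem_flatMap, List.mem_range, List.mem_cons, List.not_mem_nil, or_false,
    forall_exists_index, and_imp]
  constructor
  · intro h i hi j hj
    exact ⟨(holds_zeroF _ _ _ _ _).1 (h _ i hi j hj (Or.inl rfl)),
      (holds_zeroF _ _ _ _ _).1 (h _ i hi j hj (Or.inr (Or.inl rfl))),
      (holds_prodF _ _ _ _).1 (h _ i hi j hj (Or.inr (Or.inr rfl)))⟩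
  · rintro h _ i hi j hj (rfl | rfl | rfl)
    · exact (holds_zeroF _ _ _ _ _).2 (h i hi j hj).1
    · exact (holds_zeroF _ _ _ _ _).2 (h i hi j hj).2.1
    · exact (holds_prodF _ _ _ _).2 (h i hi j hj).2.2

theorem exists_ent {n : ℕ} (X Y : Matrix (Fin n) (Fin n) ℝ) :
    ∃ v : ℕ → ℝ, (∀ i j : Fin n, v (vX n i j) = X i j) ∧ ∀ i j : Fin n, v (vY n i j) = Y i j := by
  by_cases hn : n = 0
  · subst hn
    exact ⟨fun _ => 0, fun i => i.elim0, fun i => i.elim0⟩
  · have hpos : 0 < n := Nat.pos_of_ne_zero hn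
    refine ⟨fun m => if m % 2 = 0 then
      (if h : m / 2 / n < n then X ⟨m / 2 / n, h⟩ ⟨m / 2 % n, Nat.mod_lt _ hpos⟩ else 0) else
      (if h : m / 2 / n < n then Y ⟨m / 2 / n, h⟩ ⟨m / 2 % n, Nat.mod_lt _ hpos⟩ else 0), ?_, ?_⟩
    · intro i j
      have h1 : vX n i j % 2 = 0 := by unfold vX; omega
      have h2 : vX n i j / 2 = i * n + j := by unfold vX; omega
      have h3 : ((i : ℕ) * n + j) / n = i := by
        rw [Nat.add_comm, Nat.add_mul_div_right _ _ hpos, Nat.div_eq_of_lt j.2, zero_add]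
      have h4 : ((i : ℕ) * n + j) % n = j := by
        rw [Nat.add_comm, Nat.add_mul_mod_self_right, Nat.mod_eq_of_lt j.2]
      simp only [h1, h2, h3, h4, if_true, i.2, dif_pos]
    · intro i j
      have h1 : ¬ vY n i j % 2 = 0 := by unfold vY; omega
      have h2 : vY n i j / 2 = i * n + j := by unfold vY; omega
      have h3 : ((i : ℕ) * n + j) / n = i := by
        rw [Nat.add_comm, Nat.add_mul_div_right _ _ hpos, Nat.div_eq_of_lt j.2, zero_add]
      have h4 : ((i : ℕ) * n + j) % n = j := by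
        rw [Nat.add_comm, Nat.add_mul_mod_self_right, Nat.mod_eq_of_lt j.2]
      simp only [h1, h2, h3, h4, if_false, i.2, dif_pos]

theorem cmi_iff (I : List (List Bool) × List (List Bool)) : CMI I ↔ ETR (cmiF I) := by
  unfold cmiF
  by_cases hI : (sqB I.1.length I.1 && sqB I.1.length I.2) = true
  · rw [if_pos hI]
    rw [Bool.and_eq_true, sqB_iff, sqB_iff] at hI
    constructor
    · rintro ⟨n, hA, hB, X, Y, hX, hY, hXY⟩
      have hn : I.1.length = n := hA.1
      subst hn
      obtain ⟨v, hvX, hvY⟩ := exists_ent X Y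
      refine ⟨v, (holds_cmiList v I).2 fun i hi j hj => ⟨fun h => ?_, fun h => ?_, ?_⟩⟩
      · exact (hvX ⟨i, hi⟩ ⟨j, hj⟩).trans (hX ⟨i, hi⟩ ⟨j, hj⟩ h)
      · exact (hvY ⟨i, hi⟩ ⟨j, hj⟩).trans (hY ⟨i, hi⟩ ⟨j, hj⟩ h)
      · have h1 := congrFun (congrFun hXY ⟨i, hi⟩) ⟨j, hj⟩
        rw [Matrix.mul_apply, Matrix.one_apply] at h1
        rw [Finset.sum_range]
        have h2 : ∀ k : Fin I.1.length, v (vX I.1.length i k) * v (vY I.1.length k j) =
            X ⟨i, hi⟩ k * Y k ⟨j, hj⟩ := fun k => by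
          have e1 : v (vX I.1.length i k) = X ⟨i, hi⟩ k := hvX ⟨i, hi⟩ k
          have e2 : v (vY I.1.length k j) = Y k ⟨j, hj⟩ := hvY k ⟨j, hj⟩
          rw [e1, e2]
        rw [Finset.sum_congr rfl fun k _ => h2 k, h1]
        simp only [Fin.mk.injEq]
    · rintro ⟨v, hv⟩
      have hv' := (holds_cmiList v I).1 hv
      refine ⟨I.1.length, hI.1, hI.2, fun i j => v (vX I.1.length i j),
        fun i j => v (vY I.1.length i j), fun i j h => (hv' i i.2 j j.2).1 h,
        fun i j h => (hv' i i.2 j j.2).2.1 h, ?_⟩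
      ext i j
      rw [Matrix.mul_apply, Matrix.one_apply]
      have h1 := (hv' i i.2 j j.2).2.2
      rw [Finset.sum_range] at h1
      rw [h1]
      by_cases h : i = j
      · rw [if_pos h, if_pos (by rw [h])]
      · rw [if_neg h, if_neg (fun h' => h (Fin.ext h'))]
  · rw [if_neg hI]
    constructor
    · rintro ⟨n, hA, hB, -⟩
      exfalso
      apply hI
      have hn : I.1.length = n := hA.1
      subst hn
      rw [Bool.and_eq_true, sqB_iff, sqB_iff]
      exact ⟨hA, hB⟩
    · intro h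
      exact absurd h not_ETR_ff

section

variable {α : Type} [TEnc α]

theorem poly_vX {n i j : α → ℕ} (hn : Poly n) (hi : Poly i) (hj : Poly j) :
    Poly (fun a => vX (n a) (i a) (j a)) :=
  Poly.mul (Poly.const 2) (Poly.add (Poly.mul hi hn) hj)

theorem poly_vY {n i j : α → ℕ} (hn : Poly n) (hi : Poly i) (hj : Poly j) :
    Poly (fun a => vY (n a) (i a) (j a)) :=
  Poly.add (poly_vX hn hi hj) (Poly.const 1)

theorem poly_zeroF {A : α → List (List Bool)} {i j x : α → ℕ} (hA : Poly A) (hi : Poly i)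
    (hj : Poly j) (hx : Poly x) : Poly (fun a => zeroF (A a) (i a) (j a) (x a)) := by
  unfold zeroF
  exact Poly.ite (Poly.decide_eq (Poly.getD (Poly.getD hA hi (Poly.const [])) hj
    (Poly.const false)) (Poly.const false)) (poly_feq (poly_tvar hx) (Poly.const _))
    (Poly.const _)

theorem poly_prodF {n : α → ℕ} {i j : α → ℕ} (hn : UPoly n) (hi : Poly i) (hj : Poly j) :
    Poly (fun a => prodF (n a) (i a) (j a)) := by
  unfold prodF
  refine poly_feq (poly_sumT ?_) (Poly.ite (Poly.decide_eq hi hj) (Poly.const _) (Poly.const _))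
  refine Poly.map (F := fun a k => Tm.mul (Tm.var (vX (n a) (i a) k)) (Tm.var (vY (n a) k (j a))))
    hn.range ?_
  have hn' : Poly (fun q : α × ℕ => n q.1) := hn.toPoly.comp (Poly.fst Poly.id)
  have hk : Poly (fun q : α × ℕ => q.2) := Poly.snd Poly.id
  exact poly_tmul (poly_tvar (poly_vX hn' (hi.comp (Poly.fst Poly.id)) hk))
    (poly_tvar (poly_vY hn' hk (hj.comp (Poly.fst Poly.id))))

theorem poly_sqB {n : α → ℕ} {A : α → List (List Bool)} (hn : Poly n) (hA : Poly A) :
    Poly (fun a => sqB (n a) (A a)) := by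
  unfold sqB
  refine Poly.and (Poly.decide_eq (Poly.length hA) hn) ?_
  exact Poly.all (p := fun a (r : List Bool) => decide (r.length = n a)) hA
    (Poly.decide_eq (Poly.length (Poly.snd Poly.id)) (hn.comp (Poly.fst Poly.id)))

end

theorem poly_cmiList : Poly cmiList := by
  unfold cmiList
  have hl : ∀ {γ : Type} [TEnc γ] {f : γ → List (List Bool) × List (List Bool)}, Poly f →
      UPoly (fun x => (f x).1.length) := fun hf => UPoly.length hf.fst
  refine Poly.flatMap (F := fun I i => (List.range I.1.length).flatMap fun j =>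
    [zeroF I.1 i j (vX I.1.length i j), zeroF I.2 i j (vY I.1.length i j), prodF I.1.length i j])
    (hl Poly.id).range ?_
  refine Poly.flatMap (F := fun (q : (List (List Bool) × List (List Bool)) × ℕ) j =>
    [zeroF q.1.1 q.2 j (vX q.1.1.length q.2 j), zeroF q.1.2 q.2 j (vY q.1.1.length q.2 j),
      prodF q.1.1.length q.2 j]) (hl (Poly.fst Poly.id)).range ?_
  have hI : Poly (fun q : ((List (List Bool) × List (List Bool)) × ℕ) × ℕ => q.1.1) :=
    Poly.fst (Poly.fst Poly.id)
  have hi : Poly (fun q : ((List (List Bool) × List (List Bool)) × ℕ) × ℕ => q.1.2) :=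
    Poly.snd (Poly.fst Poly.id)
  have hj : Poly (fun q : ((List (List Bool) × List (List Bool)) × ℕ) × ℕ => q.2) :=
    Poly.snd Poly.id
  exact Poly.cons (poly_zeroF hI.fst hi hj (poly_vX (hl hI).toPoly hi hj))
    (Poly.cons (poly_zeroF hI.snd hi hj (poly_vY (hl hI).toPoly hi hj))
      (Poly.cons (poly_prodF (hl hI) hi hj) (Poly.const [])))

theorem poly_cmiF : Poly cmiF := by
  unfold cmiF
  have hn : Poly (fun I : List (List Bool) × List (List Bool) => I.1.length) :=
    Poly.length (Poly.fst Poly.id)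
  exact Poly.ite (Poly.congr (Poly.and (poly_sqB hn (Poly.fst Poly.id))
    (poly_sqB hn (Poly.snd Poly.id))) fun M => Bool.decide_eq_true.symm)
    (poly_conj poly_cmiList) (Poly.const _)

/-- Constrained matrix invertibility over the reals is `∃ℝ`-complete. -/
theorem cmi_complete_ER : ERComplete (lang CMI) := ⟨InER.of_poly poly_cmiF cmi_iff, cmi_hard⟩

end Pool.Agent.NPC.V11228.CM
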