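import Mathlib

/-! Relations definable with parameters in a structure. -/

set_option autoImplicit false
open FirstOrder FirstOrder.Language

namespace Pool.Agent.V11228.DefLib

variable {L : FirstOrder.Language.{0, 0}} {M : Type} [L.Structure M]

/-- The relation `R` is definable with parameters. -/
def D (L : FirstOrder.Language.{0, 0}) {M : Type} [L.Structure M] {α : Type}
    (R : (α → M) → Prop) : Prop :=
  (Set.univ : Set M).Definable L {v : α → M | R v}

variable {α β : Type} {R S : (α → M) → Prop}

theorem D.congr (h : D L R) (e : ∀ v, R v ↔ S v) : D L S := by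
  have : R = S := by funext v; exact propext (e v)
  rwa [← this]

theorem D.and (h1 : D L R) (h2 : D L S) : D L (fun v => R v ∧ S v) :=
  Set.Definable.inter h1 h2

theorem D.or (h1 : D L R) (h2 : D L S) : D L (fun v => R v ∨ S v) :=
  Set.Definable.union h1 h2

theorem D.not (h1 : D L R) : D L (fun v => ¬ R v) :=
  Set.Definable.compl h1

theorem D.imp (h1 : D L R) (h2 : D L S) : D L (fun v => R v → S v) :=
  (h1.not.or h2).congr (fun v => by tauto)

theorem D.iff (h1 : D L R) (h2 : D L S) : D L (fun v => (R v ↔ S v)) :=
  ((h1.imp h2).and (h2.imp h1)).congr (fun v => by tauto)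

theorem D.true : D L (fun _ : α → M => True) := Set.definable_univ

theorem D.false : D L (fun _ : α → M => False) := Set.definable_empty

theorem D.prop (p : Prop) : D L (fun _ : α → M => p) := by
  by_cases h : p
  · exact D.true.congr (fun _ => by simp [h])
  · exact D.false.congr (fun _ => by simp [h])

theorem D.sub (f : α → β) (h : D L R) : D L (fun v : β → M => R (fun a => v (f a))) :=
  Set.Definable.preimage_comp f h

theorem D.ex {R : (α → M) → M → Prop}
    (h : D L (fun w : Option α → M => R (fun a => w (some a)) (w none))) :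
    D L (fun v => ∃ x, R v x) := by
  have h1 := (h.sub (fun o : Option α => (o.elim (Sum.inr ()) Sum.inl : α ⊕ Unit)))
  have h2 := Set.Definable.exists_of_finite (S := {v : α ⊕ Unit → M |
    R (fun a => v (Sum.inl a)) (v (Sum.inr ()))}) h1
  refine D.congr (R := fun v => ∃ u : Unit → M, Sum.elim v u ∈ {v : α ⊕ Unit → M |
    R (fun a => v (Sum.inl a)) (v (Sum.inr ()))}) h2 (fun v => ?_)
  constructor
  · rintro ⟨u, hu⟩
    exact ⟨u (), hu⟩
  · rintro ⟨x, hx⟩
    exact ⟨fun _ => x, hx⟩

theorem D.all {R : (α → M) → M → Prop}
    (h : D L (fun w : Option α → M => R (fun a => w (some a)) (w none))) :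
    D L (fun v => ∀ x, R v x) :=
  (D.ex (R := fun v x => ¬ R v x) h.not).not.congr (fun v => by push Not; rfl)

theorem D.eq (a b : α) : D L (fun v : α → M => v a = v b) := by
  refine Set.Definable.mono (A := ∅) ?_ (Set.empty_subset _)
  rw [Set.empty_definable_iff]
  refine ⟨(Term.var a).equal (Term.var b), ?_⟩
  ext v
  simp

theorem D.eqc (a : α) (c : M) : D L (fun v : α → M => v a = c) := by
  have h := Set.Definable.singleton_of_mem (L := L) (A := (Set.univ : Set M)) (a := c) trivial
  have h1 : D L (fun v : Fin 1 → M => v 0 = c) := h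
  exact h1.sub (fun _ => a)

theorem D.param {R : (α → M) → M → Prop} (c : M)
    (h : D L (fun w : Option α → M => R (fun a => w (some a)) (w none))) :
    D L (fun v => R v c) :=
  (D.ex (R := fun v x => x = c ∧ R v x) ((D.eqc none c).and h)).congr (fun v => by simp)

theorem D.exFin {ι : Type} [Finite ι] {R : ι → (α → M) → Prop} (h : ∀ i, D L (R i)) :
    D L (fun v => ∃ i, R i v) := by
  have := Set.definable_iUnion_of_finite (A := (Set.univ : Set M)) (L := L)
    (f := fun i => {v : α → M | R i v}) h
  refine D.congr (R := fun v => v ∈ ⋃ i, {v : α → M | R i v}) this (fun v => ?_)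
  simp

/-! Relations with few places. -/

variable (L) in
def D1 (r : M → Prop) : Prop := D L (fun v : Fin 1 → M => r (v 0))
variable (L) in
def D2 (r : M → M → Prop) : Prop := D L (fun v : Fin 2 → M => r (v 0) (v 1))
variable (L) in
def D3 (r : M → M → M → Prop) : Prop := D L (fun v : Fin 3 → M => r (v 0) (v 1) (v 2))

theorem D1.app {r : M → Prop} (h : D1 L r) (a : α) : D L (fun v : α → M => r (v a)) :=
  D.sub (fun _ => a) h

theorem D2.app {r : M → M → Prop} (h : D2 L r) (a b : α) :
    D L (fun v : α → M => r (v a) (v b)) :=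
  D.sub (![a, b]) h

theorem D3.app {r : M → M → M → Prop} (h : D3 L r) (a b c : α) :
    D L (fun v : α → M => r (v a) (v b) (v c)) :=
  D.sub (![a, b, c]) h

end Pool.Agent.V11228.DefLib
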