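import Pool.Agent.V11228.OMvC
import Pool.Agent.W896.RK.Sat

/-!
# Bilinear forms over the field with two elements: signs, expanders, arithmetic
-/

set_option autoImplicit false

open Finset

namespace Pool.Agent.V11228.F2

open Pool.Agent.W896.RK Pool.Agent.W896.HP Pool.Agent.W896.FD H592R3 H568R2

variable {n : ℕ}

/-- A bit as an element of the field with two elements. -/
def bq (b : Bool) : ZMod 2 := if b = true then 1 else 0

/-- The value `uᵀ M v` of the bilinear form over the field with two elements. -/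
def frm (M : Fin n → Fin n → ZMod 2) (u v : Fin n → Bool) : ZMod 2 :=
  ∑ r, ∑ c, bq (u r) * M r c * bq (v c)

/-- The sign. -/
noncomputable def χ (a : ZMod 2) : ℝ := if a = 0 then 1 else -1

theorem χ_add (a b : ZMod 2) : χ (a + b) = χ a * χ b := by
  have h : ∀ a b : ZMod 2, (a + b = 0 ↔ (a = 0 ↔ b = 0)) := by decide
  unfold χ
  by_cases ha : a = 0 <;> by_cases hb : b = 0
  · rw [if_pos ((h a b).2 ⟨fun _ => hb, fun _ => ha⟩), if_pos ha, if_pos hb]; ring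
  · rw [if_neg (fun h' => hb (((h a b).1 h').1 ha)), if_pos ha, if_neg hb]; ring
  · rw [if_neg (fun h' => ha (((h a b).1 h').2 hb)), if_neg ha, if_pos hb]; ring
  · rw [if_pos ((h a b).2 ⟨fun h' => absurd h' ha, fun h' => absurd h' hb⟩), if_neg ha,
      if_neg hb]; ring

theorem χ_sum {ι : Type} (s : Finset ι) (g : ι → ZMod 2) :
    χ (∑ i ∈ s, g i) = ∏ i ∈ s, χ (g i) := by
  classical
  induction s using Finset.induction_on with
  | empty => simp [χ]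
  | insert i s hi ih => rw [sum_insert hi, prod_insert hi, χ_add, ih]

theorem χ_abs (a : ZMod 2) : |χ a| = 1 := by
  unfold χ
  split_ifs <;> simp

theorem bil_eq (M : Fin n → Fin n → ZMod 2) (u v : Fin n → Bool) :
    bil (fun r c => M r c = 1) u v = χ (frm M u v) := by
  unfold bil frm
  rw [χ_sum]
  refine prod_congr rfl fun r _ => ?_
  rw [χ_sum]
  refine prod_congr rfl fun c _ => ?_
  have h : ∀ a : ZMod 2, a = 0 ∨ a = 1 := by decide
  rcases h (M r c) with h0 | h1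
  · have h2 : ¬ (M r c = 1) := by rw [h0]; decide
    simp only [h2, if_false]
    rw [h0, mul_zero, zero_mul]
    simp [χ]
  · simp only [h1, if_true]
    rw [mul_one]
    unfold sg bq χ
    cases u r <;> cases v c <;> simp

/-- The matrix of an expander. -/
theorem exists_F2 (Q n : ℕ) (hQ : 1 ≤ Q) (hn : 1 ≤ n) :
    ∃ M : Fin n → Fin n → ZMod 2, ∀ (h : ℕ) (R B : Finset (Fin n)),
      n + Q * h ≤ Q * R.card → n + Q * (h * (2 * Q ^ 2)) < Q * B.card + 1 →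
      ∃ (e f : Fin h → Fin n), Function.Injective e ∧ Function.Injective f ∧
        (∀ s, e s ∈ R) ∧ (∀ s, f s ∈ B) ∧ IsTri (fun s s' => M (e s) (f s') = 1) := by
  classical
  obtain ⟨F, hF⟩ := expander Q n hQ hn
  refine ⟨fun r c => if ∃ t, F r t = c then 1 else 0, fun h R B h1 h2 => ?_⟩
  obtain ⟨e, f, he, hf, heR, hfB, h3, h4⟩ := exists_tri hQ hn hF h R B h1 h2
  refine ⟨e, f, he, hf, heR, hfB, fun s => ?_, fun s s' hs => ?_⟩
  · show (if ∃ t, F (e s) t = f s then (1 : ZMod 2) else 0) = 1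
    rw [if_pos (h3 s)]
  · show ¬ ((if ∃ t, F (e s) t = f s' then (1 : ZMod 2) else 0) = 1)
    rw [if_neg (h4 s s' hs)]
    decide

/-- The choice of the parameters. -/
structure Par (k n n₁ κ a m h Q ν : ℕ) : Prop where
  κ4 : κ = 4 * (k + 1)
  n₁2 : 4 * n₁ ≤ 3 * n
  n₁8 : 3 * n + 1 ≤ 8 * n₁
  a1 : 2 ≤ a
  aκ : 2 * (κ * a) ≤ n₁
  m1 : a + 8 * (n₁ * κ) ≤ a * m
  me : m = 512 * (k + 1) ^ 2 + 1
  QE : Q = 8 * 2 ^ (2 * κ + 1)
  Qh : Q ^ 3 * h ≤ n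
  fin : ∀ lg, h ≤ 2 * ν + 4 * (lg + 1) * m + 2 → n ≤ 2 ^ (50 * (k + 1)) * (lg + 1)

theorem exists_par (k n ν : ℕ) (hν : ν = n / 2 ^ (50 * (k + 1))) (hn : 2 ^ (50 * (k + 1)) ≤ n) :
    ∃ n₁ κ a m h, Par k n n₁ κ a m h (2 ^ (8 * k + 12)) ν := by
  obtain ⟨D, hD⟩ : ∃ D, D = 2 ^ (50 * (k + 1)) := ⟨_, rfl⟩
  rw [← hD] at hn hν
  obtain ⟨κ, hκ⟩ : ∃ κ, κ = 4 * (k + 1) := ⟨_, rfl⟩
  obtain ⟨m, hm⟩ : ∃ m, m = 512 * (k + 1) ^ 2 + 1 := ⟨_, rfl⟩
  obtain ⟨n₁, hn₁⟩ : ∃ n₁, n₁ = n / 2 := ⟨_, rfl⟩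
  obtain ⟨a, ha⟩ : ∃ a, a = n₁ / (2 * κ) := ⟨_, rfl⟩
  obtain ⟨Q, hQ⟩ : ∃ Q, Q = 2 ^ (8 * k + 12) := ⟨_, rfl⟩
  obtain ⟨C, hC⟩ : ∃ C, C = Q ^ 3 := ⟨_, rfl⟩
  obtain ⟨h, hh⟩ : ∃ h, h = n / C := ⟨_, rfl⟩
  rw [← hQ]
  have hC' : C = 2 ^ (24 * k + 36) := by
    rw [hC, hQ, ← pow_mul]
    congr 1
    ring
  have hC1 : 1 ≤ C := by rw [hC']; exact Nat.one_le_two_pow
  have hDbig : 2 ^ 20 * (k + 1) ≤ D := by
    have h3 : k + 1 ≤ 2 ^ k := Nat.lt_two_pow_self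
    calc 2 ^ 20 * (k + 1) ≤ 2 ^ 20 * 2 ^ k := Nat.mul_le_mul_left _ h3
      _ = 2 ^ (20 + k) := (pow_add _ _ _).symm
      _ ≤ D := by rw [hD]; exact Nat.pow_le_pow_right (by norm_num) (by omega)
  have h4C : 4 * C ≤ D := by
    rw [hC', hD, show 4 * 2 ^ (24 * k + 36) = 2 ^ 2 * 2 ^ (24 * k + 36) by norm_num, ← pow_add]
    exact Nat.pow_le_pow_right (by norm_num) (by omega)
  have hn20 : 2 ^ 20 * (k + 1) ≤ n := hDbig.trans hn
  have hκ1 : 1 ≤ κ := by omega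
  have ha1 : 2 ≤ a := by
    rw [ha, Nat.le_div_iff_mul_le (by omega)]
    omega
  have haκ : 2 * κ * a ≤ n₁ := by rw [ha]; exact Nat.mul_div_le _ _
  have hna : n₁ < 2 * κ * (a + 1) := by rw [ha]; exact Nat.lt_mul_div_succ n₁ (by omega)
  have hhC : C * h ≤ n := by rw [hh]; exact Nat.mul_div_le _ _
  have hhC2 : n < C * (h + 1) := by rw [hh]; exact Nat.lt_mul_div_succ n (by omega)
  refine ⟨n₁, κ, a, m, h, ⟨hκ, by omega, by omega, ha1, by linarith, ?_, hm, ?_, ?_, ?_⟩⟩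
  · have h3 : n₁ ≤ 4 * κ * a := by nlinarith
    calc a + 8 * (n₁ * κ) ≤ a + 8 * ((4 * κ * a) * κ) := by gcongr
      _ = a * m := by rw [hm, hκ]; ring
  · rw [hQ, hκ, show 8 * k + 12 = (2 * (4 * (k + 1)) + 1) + 3 by ring, pow_add]
    ring
  · rw [← hC]
    exact hhC
  · intro lg H
    rw [← hD]
    have hk4 : (k + 1) ^ 2 ≤ 2 ^ (2 * k) := by
      have : k + 1 ≤ 2 ^ k := Nat.lt_two_pow_self
      calc (k + 1) ^ 2 ≤ (2 ^ k) ^ 2 := Nat.pow_le_pow_left this 2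
        _ = _ := by rw [← pow_mul, mul_comm]
    have hm5 : 14 * m ≤ 2 ^ (2 * k + 13) := by
      have h1 : 1 ≤ 2 ^ (2 * k) := Nat.one_le_two_pow
      have h2 : 2 ^ (2 * k + 13) = 8192 * 2 ^ (2 * k) := by rw [pow_add]; norm_num; ring
      rw [hm, h2]; omega
    have hDW : C * (14 * m) ≤ D := by
      calc C * (14 * m) ≤ 2 ^ (24 * k + 36) * 2 ^ (2 * k + 13) := by
            rw [hC']; exact Nat.mul_le_mul_left _ hm5
        _ = 2 ^ (26 * k + 49) := by rw [← pow_add]; congr 1; ring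
        _ ≤ D := by rw [hD]; exact Nat.pow_le_pow_right (by norm_num) (by omega)
    have h5 : 4 * ν ≤ h + 1 := by
      have h3 : D * ν ≤ n := by rw [hν]; exact Nat.mul_div_le n D
      have h6 : (4 * C) * ν ≤ n := (Nat.mul_le_mul_right _ h4C).trans h3
      have h7 : C * (4 * ν) ≤ C * (h + 1) := by nlinarith
      exact Nat.le_of_mul_le_mul_left h7 (by omega)
    obtain ⟨X, hX⟩ : ∃ X, X = (lg + 1) * m := ⟨_, rfl⟩
    have hX1 : 1 ≤ X := by rw [hX]; exact Nat.mul_pos (by omega) (by omega)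
    have hXe : 4 * (lg + 1) * m = 4 * X := by rw [hX]; ring
    rw [hXe] at H
    have h6 : h + 1 ≤ 14 * X := by omega
    calc n ≤ C * (h + 1) := hhC2.le
      _ ≤ C * (14 * X) := Nat.mul_le_mul_left _ h6
      _ = C * (14 * m) * (lg + 1) := by rw [hX]; ring
      _ ≤ D * (lg + 1) := Nat.mul_le_mul_right _ hDW

/-- The two sides of a coloring contain a triangular part. -/
theorem color_tri {k n n₁ κ a m h Q ν : ℕ} (par : Par k n n₁ κ a m h Q ν)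
    {M : Fin n → Fin n → ZMod 2}
    (hM : ∀ (h : ℕ) (R B : Finset (Fin n)),
      n + Q * h ≤ Q * R.card → n + Q * (h * (2 * Q ^ 2)) < Q * B.card + 1 →
      ∃ (e f : Fin h → Fin n), Function.Injective e ∧ Function.Injective f ∧
        (∀ s, e s ∈ R) ∧ (∀ s, f s ∈ B) ∧ IsTri (fun s s' => M (e s) (f s') = 1))
    {A B : Finset (Fin n₁)} {α β : Fin n₁ ↪ Fin n}
    (hAB : n₁ * n₁ ≤ 2 ^ (2 * κ + 1) * (A.card * B.card)) :
    ∃ (e f : Fin h → Fin n), Function.Injective e ∧ Function.Injective f ∧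
      (∀ s, ∃ a ∈ A, α a = e s) ∧ (∀ s, ∃ a ∈ B, β a = f s) ∧
      IsTri (fun s s' => M (e s) (f s') = 1) := by
  classical
  have hA1 : A.card ≤ n₁ := by simpa using card_le_univ A
  have hB1 : B.card ≤ n₁ := by simpa using card_le_univ B
  have hn₁ : 0 < n₁ := by
    have := par.n₁8
    omega
  have hA : n₁ ≤ 2 ^ (2 * κ + 1) * A.card := by
    have h2 : n₁ * n₁ ≤ n₁ * (2 ^ (2 * κ + 1) * A.card) := by
      calc n₁ * n₁ ≤ 2 ^ (2 * κ + 1) * (A.card * B.card) := hAB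
        _ ≤ 2 ^ (2 * κ + 1) * (A.card * n₁) := by gcongr
        _ = _ := by ring
    exact Nat.le_of_mul_le_mul_left h2 hn₁
  have hB : n₁ ≤ 2 ^ (2 * κ + 1) * B.card := by
    have h2 : n₁ * n₁ ≤ n₁ * (2 ^ (2 * κ + 1) * B.card) := by
      calc n₁ * n₁ ≤ 2 ^ (2 * κ + 1) * (A.card * B.card) := hAB
        _ ≤ 2 ^ (2 * κ + 1) * (n₁ * B.card) := by gcongr
        _ = _ := by ring
    exact Nat.le_of_mul_le_mul_left h2 hn₁
  have hQ1 : 1 ≤ Q := by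
    rw [par.QE]
    have := Nat.two_pow_pos (2 * κ + 1)
    omega
  have hQA : 3 * n + 1 ≤ Q * A.card := by
    calc 3 * n + 1 ≤ 8 * n₁ := par.n₁8
      _ ≤ 8 * (2 ^ (2 * κ + 1) * A.card) := Nat.mul_le_mul_left _ hA
      _ = Q * A.card := by rw [par.QE]; ring
  have hQB : 3 * n + 1 ≤ Q * B.card := by
    calc 3 * n + 1 ≤ 8 * n₁ := par.n₁8
      _ ≤ 8 * (2 ^ (2 * κ + 1) * B.card) := Nat.mul_le_mul_left _ hB
      _ = Q * B.card := by rw [par.QE]; ring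
  have hQh1 : Q * h ≤ n := by
    refine le_trans ?_ par.Qh
    apply Nat.mul_le_mul_right
    calc Q = Q ^ 1 := (pow_one Q).symm
      _ ≤ Q ^ 3 := Nat.pow_le_pow_right hQ1 (by norm_num)
  have hQh2 : Q * (h * (2 * Q ^ 2)) ≤ 2 * n := by
    calc Q * (h * (2 * Q ^ 2)) = 2 * (Q ^ 3 * h) := by ring
      _ ≤ 2 * n := Nat.mul_le_mul_left _ par.Qh
  obtain ⟨e, f, he, hf, h1, h2, h3⟩ := hM h (A.map α) (B.map β)
    (by rw [card_map]; omega) (by rw [card_map]; omega)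
  refine ⟨e, f, he, hf, fun i => ?_, fun i => ?_, h3⟩
  · obtain ⟨a, ha, ha'⟩ := mem_map.1 (h1 i)
    exact ⟨a, ha, ha'⟩
  · obtain ⟨a, ha, ha'⟩ := mem_map.1 (h2 i)
    exact ⟨a, ha, ha'⟩

end Pool.Agent.V11228.F2
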