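import Pool.Agent.V11228.F2A

/-!
# Bilinear forms over the field with two elements and circuits of small formal degree
-/

set_option autoImplicit false

open Finset

namespace Pool.Agent.V11228.F2

open Pool.Agent.W896.RK Pool.Agent.W896.HP Pool.Agent.W896.FD
open Pool.Agent.V11228.OMv (exists_rare)

variable {n : ℕ} {V : Type}

theorem fill_elim_l {p : Fin n ⊕ Fin n → V} {b₀ : V → Bool} {u u' v : Fin n → Bool} {w : V}
    (h : fill p b₀ (Sum.elim u v) w ≠ fill p b₀ (Sum.elim u' v) w) :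
    ∃ r, p (.inl r) = w ∧ u r ≠ u' r := by
  unfold fill at h
  cases hv : idx p w with
  | none => rw [hv] at h; exact absurd rfl h
  | some i =>
    rw [hv] at h
    have hi := idx_some hv
    cases i with
    | inl r => exact ⟨r, hi, h⟩
    | inr c => exact absurd rfl h

theorem fill_elim_r {p : Fin n ⊕ Fin n → V} {b₀ : V → Bool} {u v v' : Fin n → Bool} {w : V}
    (h : fill p b₀ (Sum.elim u v) w ≠ fill p b₀ (Sum.elim u v') w) :
    ∃ c, p (.inr c) = w ∧ v c ≠ v' c := by
  unfold fill at h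
  cases hv : idx p w with
  | none => rw [hv] at h; exact absurd rfl h
  | some i =>
    rw [hv] at h
    have hi := idx_some hv
    cases i with
    | inl r => exact absurd rfl h
    | inr c => exact ⟨c, hi, h⟩

open Classical in
/-- The inputs which satisfy the pieces. -/
theorem class_card {n₁ m h μ : ℕ} {U : Circ V} {p : Fin n ⊕ Fin n → V}
    (hp : Function.Injective p) (b₀ : V → Bool) {M : Fin n → Fin n → ZMod 2}
    {α β : Fin n₁ ↪ Fin n} {d : U.G → Fin n₁ ⊕ Fin n₁ → ℕ}
    (hd : IsDeg U (fun i => p (Sum.map α β i)) d) {θ : Fin m → Option (Piece U)}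
    (hcl : Cl U (plst θ) U.out) (col : Fin m → Bool) {e f : Fin h → Fin n}
    (he : Function.Injective e) (hf : Function.Injective f)
    (he' : ∀ s, ∃ a, α a = e s ∧
      ∀ j, Sum.inl a ∈ vrs (fun i => p (Sum.map α β i)) d θ j → col j = true)
    (hf' : ∀ s, ∃ a, β a = f s ∧
      ∀ j, Sum.inr a ∈ vrs (fun i => p (Sum.map α β i)) d θ j → col j = false)
    (hT : IsTri (fun s s' => M (e s) (f s') = 1)) {σ : ZMod 2}
    (hU : ∀ u v, U.Val (fill p b₀ (Sum.elim u v)) U.out → frm M u v = σ) (hμ : 2 * μ ≤ h) :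
    ((univ.filter (fun q : (Fin n → Bool) × (Fin n → Bool) =>
      ∀ j P, θ j = some P → P.True (fill p b₀ (Sum.elim q.1 q.2)))).card : ℝ) * 2 ^ μ ≤ 4 ^ n := by
  have hp' : Function.Injective (fun i => p (Sum.map α β i)) :=
    hp.comp (Function.Injective.sumMap α.injective β.injective)
  obtain ⟨G, hG⟩ : ∃ G : (Fin n → Bool) → (Fin n → Bool) → ℝ, ∀ x y, G x y =
    if ∀ j P, θ j = some P → col j = true → P.True (fill p b₀ (Sum.elim x y)) then 1 else 0 :=
    ⟨_, fun _ _ => rfl⟩
  obtain ⟨H, hH⟩ : ∃ H : (Fin n → Bool) → (Fin n → Bool) → ℝ, ∀ x y, H x y =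
    if ∀ j P, θ j = some P → col j = false → P.True (fill p b₀ (Sum.elim x y)) then 1 else 0 :=
    ⟨_, fun _ _ => rfl⟩
  have hvrs : ∀ j P, θ j = some P → vrs (fun i => p (Sum.map α β i)) d θ j =
      P.vars (fun i => p (Sum.map α β i)) d := by
    intro j P hj
    unfold vrs
    rw [hj]; rfl
  have key := rect_disc (fun r c => M r c = 1) he hf hT G H
    (by intro x y; rw [hG]; split_ifs <;> simp)
    (by intro x y; rw [hH]; split_ifs <;> simp)
    (by
      intro x y y' hy
      rw [hG, hG]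
      have h3 : ∀ y y' : Fin n → Bool, (∀ c, (∀ s, f s ≠ c) → y c = y' c) → ∀ j P,
          θ j = some P → col j = true → P.True (fill p b₀ (Sum.elim x y)) →
          P.True (fill p b₀ (Sum.elim x y')) := by
        intro y y' hy j P hj hcj h
        refine piece_dep' hd h (fun v hv => ?_) hp'
        obtain ⟨c, hc, hne⟩ := fill_elim_r hv
        obtain ⟨s, hs⟩ : ∃ s, f s = c := by
          by_contra hcon
          push Not at hcon
          exact hne (hy c hcon)
        obtain ⟨a, ha, ha'⟩ := hf' s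
        refine ⟨.inr a, ?_, fun h5 => ?_⟩
        · rw [← hc, ← hs, ← ha]
          rfl
        · rw [← hvrs j P hj] at h5
          rw [ha' j h5] at hcj
          exact Bool.noConfusion hcj
      congr 1
      apply propext
      exact ⟨fun h j P hj hcj => h3 y y' hy j P hj hcj (h j P hj hcj),
        fun h j P hj hcj => h3 y' y (fun c hc => (hy c hc).symm) j P hj hcj (h j P hj hcj)⟩)
    (by
      intro x x' y hx
      rw [hH, hH]
      have h3 : ∀ x x' : Fin n → Bool, (∀ c, (∀ s, e s ≠ c) → x c = x' c) → ∀ j P,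
          θ j = some P → col j = false → P.True (fill p b₀ (Sum.elim x y)) →
          P.True (fill p b₀ (Sum.elim x' y)) := by
        intro x x' hx j P hj hcj h
        refine piece_dep' hd h (fun v hv => ?_) hp'
        obtain ⟨c, hc, hne⟩ := fill_elim_l hv
        obtain ⟨s, hs⟩ : ∃ s, e s = c := by
          by_contra hcon
          push Not at hcon
          exact hne (hx c hcon)
        obtain ⟨a, ha, ha'⟩ := he' s
        refine ⟨.inl a, ?_, fun h5 => ?_⟩
        · rw [← hc, ← hs, ← ha]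
          rfl
        · rw [← hvrs j P hj] at h5
          rw [ha' j h5] at hcj
          exact Bool.noConfusion hcj
      congr 1
      apply propext
      exact ⟨fun h j P hj hcj => h3 x x' hx j P hj hcj (h j P hj hcj),
        fun h j P hj hcj => h3 x' x (fun c hc => (hx c hc).symm) j P hj hcj (h j P hj hcj)⟩)
  obtain ⟨N, hN⟩ : ∃ N : ℝ, N = ((univ.filter (fun q : (Fin n → Bool) × (Fin n → Bool) =>
      ∀ j P, θ j = some P → P.True (fill p b₀ (Sum.elim q.1 q.2)))).card : ℝ) := ⟨_, rfl⟩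
  have e1 : ∑ x, ∑ y, G x y * H x y * bil (fun r c => M r c = 1) x y = χ σ * N := by
    rw [hN, card_filter]
    push_cast
    rw [mul_sum, Fintype.sum_prod_type]
    refine sum_congr rfl (fun x _ => sum_congr rfl (fun y _ => ?_))
    rw [hG, hH]
    by_cases h3 : ∀ j P, θ j = some P → P.True (fill p b₀ (Sum.elim x y))
    · rw [if_pos (fun j P hj _ => h3 j P hj), if_pos (fun j P hj _ => h3 j P hj),
        if_pos h3]
      have h4 : U.Val (fill p b₀ (Sum.elim x y)) U.out := by
        apply hcl.val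
        intro P hP
        obtain ⟨j, hj⟩ := mem_plst.1 hP
        exact h3 j P hj
      rw [bil_eq, hU x y h4]; ring
    · rw [if_neg h3]
      have h4 : ¬ ((∀ j P, θ j = some P → col j = true → P.True (fill p b₀ (Sum.elim x y))) ∧
          ∀ j P, θ j = some P → col j = false → P.True (fill p b₀ (Sum.elim x y))) := by
        rintro ⟨h5, h6⟩
        apply h3
        intro j P hj
        cases hcj : col j with
        | true => exact h5 j P hj hcj
        | false => exact h6 j P hj hcj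
      rw [not_and_or] at h4
      rcases h4 with h4 | h4
      · rw [if_neg h4]; ring
      · rw [if_neg h4]; ring
  rw [e1] at key
  rw [← hN]
  have hN0 : 0 ≤ N := by rw [hN]; positivity
  rw [Fintype.card_fin, mul_pow, ← mul_pow 2 2 n] at key
  have h3 : χ σ ^ 2 = 1 := by rw [← sq_abs, χ_abs, one_pow]
  rw [h3, one_mul] at key
  have h4 : (N * 2 ^ μ) ^ 2 ≤ (4 ^ n) ^ 2 := by
    calc (N * 2 ^ μ) ^ 2 = N ^ 2 * 2 ^ (2 * μ) := by rw [mul_pow, ← pow_mul, mul_comm μ 2]
      _ ≤ N ^ 2 * 2 ^ h := by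
          apply mul_le_mul_of_nonneg_left _ (by positivity)
          exact pow_le_pow_right₀ (by norm_num) hμ
      _ ≤ _ := key
      _ = (4 ^ n) ^ 2 := by norm_num
  exact le_of_sq_le_sq h4 (by positivity)

open Classical in
/-- **The bound** for circuits which find out the value of the form on many inputs. -/
theorem circ_main {k n₁ κ a m h Q ν : ℕ} (par : Par k n n₁ κ a m h Q ν)
    {M : Fin n → Fin n → ZMod 2}
    (hM : ∀ (h : ℕ) (R B : Finset (Fin n)),
      n + Q * h ≤ Q * R.card → n + Q * (h * (2 * Q ^ 2)) < Q * B.card + 1 →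
      ∃ (e f : Fin h → Fin n), Function.Injective e ∧ Function.Injective f ∧
        (∀ s, e s ∈ R) ∧ (∀ s, f s ∈ B) ∧ IsTri (fun s s' => M (e s) (f s') = 1))
    {p : Fin n ⊕ Fin n → V} (hp : Function.Injective p) (b₀ : V → Bool) (σ : ZMod 2)
    (U : Circ V) (hU : ∀ u v, U.Val (fill p b₀ (Sum.elim u v)) U.out → frm M u v = σ)
    (hc : 4 ^ n ≤ 2 ^ ν * (univ.filter (fun q : (Fin n → Bool) × (Fin n → Bool) =>
      U.Val (fill p b₀ (Sum.elim q.1 q.2)) U.out)).card)
    (hd : ∃ d : U.G → V → ℕ, IsDeg U id d ∧ ∑ i, d U.out (p i) ≤ k * n) :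
    n ≤ 2 ^ (50 * (k + 1)) * (Nat.log 2 (Fintype.card U.G) + 1) := by
  obtain ⟨T, hT⟩ : ∃ T : Finset ((Fin n → Bool) × (Fin n → Bool)), T = univ.filter
    (fun q => U.Val (fill p b₀ (Sum.elim q.1 q.2)) U.out) := ⟨_, rfl⟩
  rw [← hT] at hc
  -- the degrees
  obtain ⟨f, hf, hfk⟩ := hd
  rw [Fintype.sum_sum_type] at hfk
  obtain ⟨α, hα⟩ := exists_rare par.κ4 par.n₁2 (fun i => f U.out (p (.inl i)))
    ((Nat.le_add_right _ _).trans hfk)
  obtain ⟨β, hβ⟩ := exists_rare par.κ4 par.n₁2 (fun i => f U.out (p (.inr i)))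
    ((Nat.le_add_left _ _).trans hfk)
  obtain ⟨d, hdd⟩ : ∃ d : U.G → Fin n₁ ⊕ Fin n₁ → ℕ, ∀ g i, d g i =
    f g (p (Sum.map α β i)) := ⟨_, fun _ _ => rfl⟩
  have hd' : IsDeg U (fun i => p (Sum.map α β i)) d := by
    refine ⟨fun g v b e i hi => ?_, fun g a b e i => ?_, fun g S a e ha i => ?_⟩
    · rw [hdd]
      exact hf.1 g v b e _ hi
    · rw [hdd, hdd, hdd]
      exact hf.2.1 g a b e _
    · rw [hdd, hdd]
      exact hf.2.2 g S a e ha _
  have hp' : Function.Injective (fun i => p (Sum.map α β i)) :=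
    hp.comp (Function.Injective.sumMap α.injective β.injective)
  have hκ : ∀ i, d U.out i ≤ κ := by
    intro i
    rw [hdd]
    cases i with
    | inl i => exact hα i
    | inr i => exact hβ i
  have hwt : wt d U.out ≤ 2 * (n₁ * κ) := by
    unfold wt
    calc ∑ i, d U.out i ≤ ∑ _i : Fin n₁ ⊕ Fin n₁, κ := sum_le_sum (fun i _ => hκ i)
      _ = 2 * (n₁ * κ) := by
          rw [sum_const, card_univ, Fintype.card_sum, Fintype.card_fin, smul_eq_mul]
          ring
  obtain ⟨S, hS⟩ : ∃ S : (Fin m → Option (Piece U)) → Finset ((Fin n → Bool) × (Fin n → Bool)),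
    ∀ θ, S θ = if Valid U (fun i => p (Sum.map α β i)) d a κ θ then
      univ.filter (fun q => ∀ j P, θ j = some P → P.True (fill p b₀ (Sum.elim q.1 q.2)))
      else ∅ := ⟨_, fun _ => rfl⟩
  have h3 : T ⊆ univ.biUnion S := by
    intro q hq
    rw [hT, mem_filter] at hq
    obtain ⟨θ, h4, h5⟩ := exists_valid (p := fun i => p (Sum.map α β i)) (d := d)
      hd' (one_le_two.trans par.a1) hp' hq.2 hκ (m := m) (by
        have := par.m1
        omega)
    rw [mem_biUnion]
    refine ⟨θ, mem_univ _, ?_⟩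
    rw [hS, if_pos h4, mem_filter]
    exact ⟨mem_univ _, h5⟩
  obtain ⟨μ, hμ⟩ : ∃ μ, μ = h / 2 := ⟨_, rfl⟩
  have h4 : ∀ θ, ((S θ).card : ℝ) * 2 ^ μ ≤ 4 ^ n := by
    intro θ
    rw [hS]
    by_cases hθ : Valid U (fun i => p (Sum.map α β i)) d a κ θ
    · rw [if_pos hθ]
      obtain ⟨col, hcol⟩ := exists_color (vrs (fun i => p (Sum.map α β i)) d θ)
        hθ.cnt hθ.card par.aκ
      obtain ⟨e, g, he, hg, h5, h6, h7⟩ := color_tri par hM (α := α) (β := β) hcol
      refine class_card hp b₀ hd' hθ.cl col he hg (fun i => ?_) (fun i => ?_) h7 hU (by omega)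
      · obtain ⟨a, ha, ha'⟩ := h5 i
        exact ⟨a, ha', (mem_filter.1 ha).2⟩
      · obtain ⟨a, ha, ha'⟩ := h6 i
        exact ⟨a, ha', (mem_filter.1 ha).2⟩
    · rw [if_neg hθ]
      simp only [card_empty, Nat.cast_zero, zero_mul]
      positivity
  have h5 : (T.card : ℝ) * 2 ^ μ ≤ (Fintype.card (Option (Piece U)) : ℝ) ^ m * 4 ^ n := by
    calc (T.card : ℝ) * 2 ^ μ ≤ (∑ θ, ((S θ).card : ℝ)) * 2 ^ μ := by
          apply mul_le_mul_of_nonneg_right _ (by positivity)
          exact_mod_cast (card_le_card h3).trans card_biUnion_le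
      _ = ∑ θ, ((S θ).card : ℝ) * 2 ^ μ := by rw [sum_mul]
      _ ≤ ∑ _θ : Fin m → Option (Piece U), (4 : ℝ) ^ n := sum_le_sum (fun θ _ => h4 θ)
      _ = _ := by
          rw [sum_const, card_univ, nsmul_eq_mul, Fintype.card_fun, Fintype.card_fin]
          push_cast
          ring
  have h6 : (4 : ℝ) ^ n ≤ 2 ^ ν * T.card := by exact_mod_cast hc
  have h7 : (4 : ℝ) ^ n * 2 ^ μ ≤ 4 ^ n * (2 ^ ν * (Fintype.card (Option (Piece U)) : ℝ) ^ m) := by
    calc (4 : ℝ) ^ n * 2 ^ μ ≤ (2 ^ ν * T.card) * 2 ^ μ :=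
          mul_le_mul_of_nonneg_right h6 (by positivity)
      _ = 2 ^ ν * (T.card * 2 ^ μ) := by ring
      _ ≤ 2 ^ ν * ((Fintype.card (Option (Piece U)) : ℝ) ^ m * 4 ^ n) := by
          apply mul_le_mul_of_nonneg_left h5 (by positivity)
      _ = _ := by ring
  have h8 : (2 : ℝ) ^ μ ≤ 2 ^ ν * (Fintype.card (Option (Piece U)) : ℝ) ^ m :=
    le_of_mul_le_mul_left h7 (by positivity)
  have h9 : 2 ^ μ ≤ 2 ^ ν * Fintype.card (Option (Piece U)) ^ m := by exact_mod_cast h8
  have h10 : 2 ^ μ ≤ 2 ^ (ν + 2 * (Nat.log 2 (Fintype.card U.G) + 1) * m) := by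
    refine h9.trans ?_
    rw [pow_add, pow_mul 2 (2 * _) m]
    exact Nat.mul_le_mul_left _ (Nat.pow_le_pow_left (piece_card U) m)
  have h11 := (Nat.pow_le_pow_iff_right (by norm_num)).1 h10
  apply par.fin
  have h12 : 4 * (Nat.log 2 (Fintype.card U.G) + 1) * m =
      2 * (2 * (Nat.log 2 (Fintype.card U.G) + 1) * m) := by ring
  omega

end Pool.Agent.V11228.F2
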