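import Pool.Agent.V11228.F2T
import Pool.Agent.V11228.F2C

/-!
# Matrix-vector products over the field with two elements and a fixed matrix: the bounds
-/

set_option autoImplicit false

open Finset

namespace Pool.Agent.V11228.F2

open Pool.Agent.W896.RK Pool.Agent.W896.HP Pool.Agent.W896.FD
open Pool.Agent.TH700.TN Pool.Agent.V11163.NT
open Pool.Agent.V11228.OMv (pl pl_inj sum_rounds_le)

variable {n q : ℕ}

/-- The value `uᵀ M v` for the vectors `u`, `v` of the pair `j`. -/
def fm (M : Fin n → Fin n → ZMod 2) (x : Fin q × Bool × Fin n → Bool) (j : Fin q) : ZMod 2 :=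
  frm M (fun i => x (j, false, i)) (fun i => x (j, true, i))

/-- The input with the vectors `u`, `v` in the pair `j`; the other pairs are those of `y`. -/
def put (y : Fin q × Bool × Fin n → Bool) (j : Fin q) (u v : Fin n → Bool) :
    Fin q × Bool × Fin n → Bool :=
  fun z => if z.1 = j then (if z.2.1 = true then v z.2.2 else u z.2.2) else y z

/-- At most one pair is different from zero. -/
def Single (x : Fin q × Bool × Fin n → Bool) : Prop :=
  ∃ j, ∀ j', j' ≠ j → ∀ s i, x (j', s, i) = false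

theorem put_eq (y : Fin q × Bool × Fin n → Bool) (j : Fin q) (u v : Fin n → Bool) :
    put y j u v = fill (pl j) y (Sum.elim u v) := by
  funext z
  obtain ⟨j', s, i⟩ := z
  by_cases hj : j' = j
  · subst hj
    cases s with
    | false =>
      have h := fill_apply (pl_inj j') y (Sum.elim u v) (.inl i)
      refine Eq.trans ?_ h.symm
      unfold put
      simp
    | true =>
      have h := fill_apply (pl_inj j') y (Sum.elim u v) (.inr i)
      refine Eq.trans ?_ h.symm
      unfold put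
      simp
  · rw [fill_other y (Sum.elim u v) (v := (j', s, i)) (by
      rintro (i' | i') hi
      · exact hj (congrArg Prod.fst hi).symm
      · exact hj (congrArg Prod.fst hi).symm)]
    unfold put
    simp [hj]

theorem fm_put (M : Fin n → Fin n → ZMod 2) (y : Fin q × Bool × Fin n → Bool) (j : Fin q)
    (u v : Fin n → Bool) : fm M (put y j u v) j = frm M u v := by
  unfold fm put
  simp

theorem single_put (j : Fin q) (u v : Fin n → Bool) : Single (put (fun _ => false) j u v) :=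
  ⟨j, fun j' hj' s i => by unfold put; simp [hj']⟩

theorem all_put (M : Fin n → Fin n → ZMod 2) (j : Fin q) (u v : Fin n → Bool) :
    (∀ j', fm M (put (fun _ => false) j u v) j' = 0) ↔ frm M u v = 0 := by
  constructor
  · intro h
    rw [← fm_put M (fun _ => false) j u v]
    exact h j
  · intro h j'
    by_cases hj : j' = j
    · rw [hj, fm_put, h]
    · unfold fm frm put
      simp [hj, bq]

/-- At least half of the pairs of vectors have the product zero. -/
theorem half_zero (M : Fin n → Fin n → ZMod 2) :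
    4 ^ n ≤ 2 * (univ.filter (fun z : (Fin n → Bool) × (Fin n → Bool) =>
      frm M z.1 z.2 = 0)).card := by
  classical
  have h1 : ∀ u : Fin n → Bool, 0 ≤ ∑ v : Fin n → Bool, bil (fun r c => M r c = 1) u v := by
    intro u
    have e : ∑ v : Fin n → Bool, bil (fun r c => M r c = 1) u v =
        ∏ c, ∑ b : Bool, ∏ r, (if M r c = 1 then sg (u r) b else 1) := by
      rw [prod_univ_sum, Fintype.piFinset_univ]
      refine sum_congr rfl fun v _ => ?_
      unfold bil
      rw [Finset.prod_comm]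
      refine prod_congr rfl fun c _ => prod_congr rfl fun r _ => ?_
      by_cases hrc : M r c = 1
      · simp only [hrc, if_true]
      · simp only [hrc, if_false]
    rw [e]
    refine prod_nonneg fun c _ => ?_
    rw [Fintype.sum_bool]
    have h2 : ∏ r, (if M r c = 1 then sg (u r) false else 1) = 1 := by
      apply prod_eq_one
      intro r _
      rw [sg_false_right]
      simp
    have h3 : |∏ r, (if M r c = 1 then sg (u r) true else 1)| = 1 := by
      rw [abs_prod]
      apply prod_eq_one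
      intro r _
      split_ifs
      · exact sg_abs _ _
      · simp
    rw [h2]
    have := neg_abs_le (∏ r, (if M r c = 1 then sg (u r) true else 1))
    rw [h3] at this
    linarith
  obtain ⟨Z, hZ⟩ : ∃ Z : ℝ, Z = ((univ.filter (fun z : (Fin n → Bool) × (Fin n → Bool) =>
      frm M z.1 z.2 = 0)).card : ℝ) := ⟨_, rfl⟩
  have h2 : 0 ≤ 2 * Z - 4 ^ n := by
    have h3 : ∑ u, ∑ v, bil (fun r c => M r c = 1) u v = 2 * Z - 4 ^ n := by
      have h4 : ∀ u v : Fin n → Bool, bil (fun r c => M r c = 1) u v =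
          2 * (if frm M u v = 0 then 1 else 0) - 1 := by
        intro u v
        rw [bil_eq]
        unfold χ
        split_ifs <;> norm_num
      have h5 : ∑ u : Fin n → Bool, ∑ v : Fin n → Bool,
          (2 * (if frm M u v = 0 then (1 : ℝ) else 0) - 1) = ∑ z : (Fin n → Bool) × (Fin n → Bool),
          (2 * (if frm M z.1 z.2 = 0 then (1 : ℝ) else 0) - 1) := by
        rw [Fintype.sum_prod_type]
      simp_rw [h4]
      rw [h5, sum_sub_distrib, ← mul_sum, hZ, card_filter]
      push_cast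
      congr 1
      rw [sum_const, card_univ, Fintype.card_prod, Fintype.card_fun, Fintype.card_bool,
        Fintype.card_fin, nsmul_eq_mul, mul_one, ← mul_pow]
      norm_num
    rw [← h3]
    exact sum_nonneg fun u _ => h1 u
  have h3 : (4 : ℝ) ^ n ≤ 2 * Z := by linarith
  rw [hZ] at h3
  exact_mod_cast h3

/-- **Circuits**, one pair of vectors. -/
theorem fd_round (k n : ℕ) : ∃ M : Fin n → Fin n → ZMod 2,
    ∀ (q : ℕ) (j : Fin q) (y : Fin q × Bool × Fin n → Bool) (σ : ZMod 2) (R : Type) [Fintype R]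
      [Nonempty R] (U : R → Circ (Fin q × Bool × Fin n)),
      (∀ r u v, (U r).Val (put y j u v) (U r).out → frm M u v = σ) →
      Nat.card R * 4 ^ n ≤ 2 ^ (n / 2 ^ (50 * (k + 1))) *
        Nat.card {z : R × (Fin n → Bool) × (Fin n → Bool) //
          (U z.1).Val (put y j z.2.1 z.2.2) (U z.1).out} →
      (∀ r, ∃ d : (U r).G → Fin q × Bool × Fin n → ℕ, IsDeg (U r) id d ∧
        ∑ i, (d (U r).out (j, false, i) + d (U r).out (j, true, i)) ≤ k * n) →
      ∃ r, n ≤ 2 ^ (50 * (k + 1)) * (Nat.log 2 (Fintype.card (U r).G) + 1) := by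
  classical
  rcases Nat.lt_or_ge n (2 ^ (50 * (k + 1))) with hn | hn
  · refine ⟨fun _ _ => 0, fun q j y σ R _ _ U _ _ _ => ?_⟩
    obtain ⟨r⟩ := (inferInstance : Nonempty R)
    exact ⟨r, hn.le.trans (Nat.le_mul_of_pos_right _ (by omega))⟩
  obtain ⟨n₁, κ, a, m, h, par⟩ := exists_par k n _ rfl hn
  have hn1 : 1 ≤ n := le_trans Nat.one_le_two_pow hn
  obtain ⟨M, hM⟩ := exists_F2 (2 ^ (8 * k + 12)) n Nat.one_le_two_pow hn1
  refine ⟨M, fun q j y σ R _ _ U hU hc hd => ?_⟩
  obtain ⟨ν, hν⟩ : ∃ ν, ν = n / 2 ^ (50 * (k + 1)) := ⟨_, rfl⟩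
  rw [← hν] at hc par
  obtain ⟨r, hr⟩ : ∃ r, 4 ^ n ≤ 2 ^ ν * (univ.filter (fun z : (Fin n → Bool) × (Fin n → Bool) =>
      (U r).Val (put y j z.1 z.2) (U r).out)).card := by
    by_contra hcon
    push Not at hcon
    have h1 : Nat.card {z : R × (Fin n → Bool) × (Fin n → Bool) //
        (U z.1).Val (put y j z.2.1 z.2.2) (U z.1).out} =
        ∑ r, (univ.filter (fun z : (Fin n → Bool) × (Fin n → Bool) =>
          (U r).Val (put y j z.1 z.2) (U r).out)).card := by
      rw [Nat.card_eq_fintype_card, Fintype.card_subtype, card_filter, Fintype.sum_prod_type]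
      exact sum_congr rfl fun r _ => (card_filter _ _).symm
    have h2 : 2 ^ ν * ∑ r, (univ.filter (fun z : (Fin n → Bool) × (Fin n → Bool) =>
          (U r).Val (put y j z.1 z.2) (U r).out)).card < ∑ _r : R, 4 ^ n := by
      rw [mul_sum]
      exact sum_lt_sum_of_nonempty univ_nonempty fun r _ => hcon r
    rw [h1] at hc
    rw [sum_const, card_univ, smul_eq_mul, ← Nat.card_eq_fintype_card] at h2
    omega
  refine ⟨r, circ_main par hM (pl_inj j) y σ (U r) (fun u v huv => ?_) (hr.trans (le_of_eq ?_)) ?_⟩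
  · rw [← put_eq] at huv
    exact hU r u v huv
  · congr 2
    ext z
    rw [mem_filter, mem_filter, put_eq]
  · obtain ⟨d, hd1, hd2⟩ := hd r
    refine ⟨d, hd1, ?_⟩
    rw [Fintype.sum_sum_type, ← sum_add_distrib]
    exact hd2

/-- **Real networks**, one pair of vectors. -/
theorem tn_round (k n : ℕ) : ∃ M : Fin n → Fin n → ZMod 2,
    ∀ (q : ℕ) (j : Fin q) (y : Fin q × Bool × Fin n → Bool) (W : Type) [Fintype W]
      (T : Net ℝ (Fin q × Bool × Fin n) W) (a : W → ℝ),
      ((∀ u v, (frm M u v = 0 → 0 < T.value a (put y j u v)) ∧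
        (frm M u v ≠ 0 → T.value a (put y j u v) < 0)) ∨
        ∃ σ, ∀ u v, T.value a (put y j u v) ≠ 0 ↔ frm M u v = σ) →
      ∑ i, (T.reads (j, false, i) + T.reads (j, true, i)) ≤ k * n →
      n ≤ 2 ^ (50 * (k + 1)) * (Nat.log 2 (Fintype.card W) + 1) := by
  classical
  rcases Nat.lt_or_ge n (2 ^ (50 * (k + 1))) with hn | hn
  · refine ⟨fun _ _ => 0, fun q j y W _ T a _ _ => ?_⟩
    exact hn.le.trans (Nat.le_mul_of_pos_right _ (by omega))
  obtain ⟨n₁, κ, g, m, h, par⟩ := exists_par k n _ rfl hn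
  have hn1 : 1 ≤ n := le_trans Nat.one_le_two_pow hn
  obtain ⟨M, hM⟩ := exists_F2 (2 ^ (8 * k + 12)) n Nat.one_le_two_pow hn1
  refine ⟨M, fun q j y W _ T a hT hd => ?_⟩
  refine net_main par hM (pl_inj j) y T a ?_ ?_
  · rcases hT with hT | ⟨σ, hT⟩
    · left
      intro u v
      rw [← put_eq]
      unfold χ
      split_ifs with h0
      · rw [one_mul]
        exact (hT u v).1 h0
      · have := (hT u v).2 h0
        linarith
    · right
      refine ⟨σ, fun u v => ?_⟩
      rw [← put_eq]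
      exact hT u v
  · rw [Fintype.sum_sum_type, ← sum_add_distrib]
    exact hd

/-- Circuits, asymptotically. -/
theorem fd_asym {ε : ℝ} (hε : 0 < ε) (hε1 : ε ≤ 1) : ∃ n₀ : ℕ, ∀ n ≥ n₀,
    ∃ M : Fin n → Fin n → ZMod 2, ∀ q w μ : ℕ, (w : ℝ) ≤ (n : ℝ) ^ (1 - ε) →
      (μ : ℝ) ≤ (n : ℝ) ^ (1 - ε) →
    ∀ (j : Fin q) (y : Fin q × Bool × Fin n → Bool) (σ : ZMod 2) (R : Type) [Fintype R]
      [Nonempty R] (U : R → Circ (Fin q × Bool × Fin n)),
      (∀ r, Fintype.card (U r).G ≤ 2 ^ w) →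
      (∀ r u v, (U r).Val (put y j u v) (U r).out → frm M u v = σ) →
      Nat.card R * 4 ^ n ≤ 2 ^ μ * Nat.card {z : R × (Fin n → Bool) × (Fin n → Bool) //
          (U z.1).Val (put y j z.2.1 z.2.2) (U z.1).out} →
      ∃ r, ∀ d : (U r).G → Fin q × Bool × Fin n → ℕ, IsDeg (U r) id d →
        ε / 150 * (n * Real.logb 2 n) ≤
          (∑ i, (d (U r).out (j, false, i) + d (U r).out (j, true, i)) : ℕ) := by
  obtain ⟨n₀, hn₀⟩ := asym 50 (by norm_num) hε hε1
  refine ⟨n₀, fun n hn => ?_⟩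
  obtain ⟨k, hk1, hk2, hk3⟩ := hn₀ n hn
  obtain ⟨M, hM⟩ := fd_round k n
  refine ⟨M, fun q w μ hw hμ j y σ R _ _ U hU0 hU hc => ?_⟩
  by_contra hcon
  push Not at hcon
  obtain ⟨r, hr⟩ := hM q j y σ R U hU (hc.trans
    (Nat.mul_le_mul_right _ (Nat.pow_le_pow_right (by norm_num) (hk2 μ hμ)))) (fun r => by
      obtain ⟨d, hd, hd'⟩ := hcon r
      refine ⟨d, hd, ?_⟩
      have h2 : ((∑ i, (d (U r).out (j, false, i) + d (U r).out (j, true, i)) : ℕ) : ℝ) ≤
          k * n := by
        calc ((∑ i, (d (U r).out (j, false, i) + d (U r).out (j, true, i)) : ℕ) : ℝ) ≤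
            ε / 150 * (n * Real.logb 2 n) := hd'.le
          _ = (ε / (3 * (50 : ℕ)) * Real.logb 2 n) * n := by push_cast; ring
          _ ≤ k * n := by gcongr
      exact_mod_cast h2)
  refine hk3 w hw (hr.trans (Nat.mul_le_mul_left _ (Nat.add_le_add_right ?_ 1)))
  refine (Nat.log_mono_right (hU0 r)).trans (le_of_eq ?_)
  exact Nat.log_pow (by norm_num) w

/-- Real networks, asymptotically. -/
theorem tn_asym {ε : ℝ} (hε : 0 < ε) (hε1 : ε ≤ 1) : ∃ n₀ : ℕ, ∀ n ≥ n₀,
    ∃ M : Fin n → Fin n → ZMod 2, ∀ q w : ℕ, (w : ℝ) ≤ (n : ℝ) ^ (1 - ε) →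
    ∀ (j : Fin q) (y : Fin q × Bool × Fin n → Bool) (W : Type) [Fintype W]
      (T : Net ℝ (Fin q × Bool × Fin n) W) (a : W → ℝ), Fintype.card W ≤ 2 ^ w →
      ((∀ u v, (frm M u v = 0 → 0 < T.value a (put y j u v)) ∧
        (frm M u v ≠ 0 → T.value a (put y j u v) < 0)) ∨
        ∃ σ, ∀ u v, T.value a (put y j u v) ≠ 0 ↔ frm M u v = σ) →
      ε / 150 * (n * Real.logb 2 n) ≤
        (∑ i, (T.reads (j, false, i) + T.reads (j, true, i)) : ℕ) := by
  obtain ⟨n₀, hn₀⟩ := asym 50 (by norm_num) hε hε1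
  refine ⟨n₀, fun n hn => ?_⟩
  obtain ⟨k, hk1, hk2, hk3⟩ := hn₀ n hn
  obtain ⟨M, hM⟩ := tn_round k n
  refine ⟨M, fun q w hw j y W _ T a hW hT => ?_⟩
  by_contra hcon
  push Not at hcon
  have hr := hM q j y W T a hT (by
      have h2 : ((∑ i, (T.reads (j, false, i) + T.reads (j, true, i)) : ℕ) : ℝ) ≤
          k * n := by
        calc ((∑ i, (T.reads (j, false, i) + T.reads (j, true, i)) : ℕ) : ℝ) ≤
            ε / 150 * (n * Real.logb 2 n) := hcon.le
          _ = (ε / (3 * (50 : ℕ)) * Real.logb 2 n) * n := by push_cast; ring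
          _ ≤ k * n := by gcongr
      exact_mod_cast h2)
  refine hk3 w hw (hr.trans (Nat.mul_le_mul_left _ (Nat.add_le_add_right ?_ 1)))
  refine (Nat.log_mono_right hW).trans (le_of_eq ?_)
  exact Nat.log_pow (by norm_num) w

end Pool.Agent.V11228.F2
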