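import Pool.Agent.V11228.OMvT
import Pool.Agent.V11163.NT.Asym
import Pool.Agent.V11163.NT.Upper

/-!
# Boolean matrix-vector products with a fixed matrix: the bounds

The input consists of the entries of `q` pairs of vectors; `(j, false, i)` is the entry `i` of the
first vector and `(j, true, i)` the entry `i` of the second vector of the pair `j`.
-/

set_option autoImplicit false

open Finset

namespace Pool.Agent.V11228.OMv

open Pool.Agent.W896.RK Pool.Agent.W896.HP Pool.Agent.W896.FD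
open Pool.Agent.TH700.TN Pool.Agent.V11163.NT

variable {n q : ℕ}

/-- For some pair `j` of vectors `u`, `v` the Boolean product `uᵀ M v` is one: the matrix has a one
in a row `r` and a column `c` with `u r = v c = 1`. -/
def Hit (M : Fin n → Fin n → Bool) (x : Fin q × Bool × Fin n → Bool) : Prop :=
  ∃ j r c, x (j, false, r) = true ∧ M r c = true ∧ x (j, true, c) = true

/-- The places of the pair `j`. -/
def pl (j : Fin q) : Fin n ⊕ Fin n → Fin q × Bool × Fin n :=
  Sum.elim (fun i => (j, false, i)) (fun i => (j, true, i))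

theorem pl_inj (j : Fin q) : Function.Injective (pl (n := n) j) := by
  rintro (i | i) (i' | i') h
  · have h' : ((j, false, i) : Fin q × Bool × Fin n) = (j, false, i') := h
    rw [Prod.mk.injEq, Prod.mk.injEq] at h'
    rw [h'.2.2]
  · have h' : ((j, false, i) : Fin q × Bool × Fin n) = (j, true, i') := h
    rw [Prod.mk.injEq, Prod.mk.injEq] at h'
    exact absurd h'.2.1 (by decide)
  · have h' : ((j, true, i) : Fin q × Bool × Fin n) = (j, false, i') := h
    rw [Prod.mk.injEq, Prod.mk.injEq] at h'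
    exact absurd h'.2.1 (by decide)
  · have h' : ((j, true, i) : Fin q × Bool × Fin n) = (j, true, i') := h
    rw [Prod.mk.injEq, Prod.mk.injEq] at h'
    rw [h'.2.2]

theorem fill_l (j : Fin q) (y : Fin n ⊕ Fin n → Bool) (r : Fin n) :
    fill (pl j) (fun _ => false) y (j, false, r) = y (.inl r) :=
  fill_apply (pl_inj j) (fun _ => false) y (.inl r)

theorem fill_r (j : Fin q) (y : Fin n ⊕ Fin n → Bool) (c : Fin n) :
    fill (pl j) (fun _ => false) y (j, true, c) = y (.inr c) :=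
  fill_apply (pl_inj j) (fun _ => false) y (.inr c)

theorem hit_fill (M : Fin n → Fin n → Bool) (j : Fin q) (y : Fin n ⊕ Fin n → Bool) :
    ¬ Hit M (fill (pl j) (fun _ => false) y) ↔
      ∀ r c, y (.inl r) = true → y (.inr c) = true → M r c = false := by
  constructor
  · intro h r c hr hc
    cases hM : M r c with
    | false => rfl
    | true =>
      exfalso
      apply h
      exact ⟨j, r, c, by rw [fill_l]; exact hr, hM, by rw [fill_r]; exact hc⟩
  · rintro h ⟨j', r, c, h1, h2, h3⟩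
    by_cases hj : j' = j
    · subst hj
      rw [fill_l] at h1
      rw [fill_r] at h3
      rw [h r c h1 h3] at h2
      exact Bool.noConfusion h2
    · rw [fill_other (fun _ => false) y (v := (j', false, r)) (by
        rintro (i | i) hi
        · have h' : ((j, false, i) : Fin q × Bool × Fin n) = (j', false, r) := hi
          rw [Prod.mk.injEq] at h'
          exact hj h'.1.symm
        · have h' : ((j, true, i) : Fin q × Bool × Fin n) = (j', false, r) := hi
          rw [Prod.mk.injEq] at h'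
          exact hj h'.1.symm)] at h1
      exact Bool.noConfusion h1

/-- **Circuits**, one pair of vectors. -/
theorem fd_round (k n : ℕ) : ∃ M : Fin n → Fin n → Bool,
    ∀ (q : ℕ) (j : Fin q) (R : Type) [Fintype R] [Nonempty R]
      (U : R → Circ (Fin q × Bool × Fin n)),
      (∀ r x, (U r).Val x (U r).out → ¬ Hit M x) →
      (∀ x, ¬ Hit M x → Nat.card R ≤
        2 ^ (n / 2 ^ (70 * (k + 1))) * Nat.card {r // (U r).Val x (U r).out}) →
      (∀ r, ∃ d : (U r).G → Fin q × Bool × Fin n → ℕ, IsDeg (U r) id d ∧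
        ∑ i, (d (U r).out (j, false, i) + d (U r).out (j, true, i)) ≤ k * n) →
      ∃ r, n ≤ 2 ^ (70 * (k + 1)) * (Nat.log 2 (Fintype.card (U r).G) + 1) := by
  classical
  rcases Nat.lt_or_ge n (2 ^ (70 * (k + 1))) with hn | hn
  · refine ⟨fun _ _ => false, fun q j R _ _ U _ _ _ => ?_⟩
    obtain ⟨r⟩ := (inferInstance : Nonempty R)
    exact ⟨r, hn.le.trans (Nat.le_mul_of_pos_right _ (by omega))⟩
  obtain ⟨n₁, κ, a, m, h, Q, L, par⟩ := exists_par k n _ rfl hn
  obtain ⟨M, hM1, hM2⟩ := exists_matrix par.h1 par.Qh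
  refine ⟨M, fun q j R _ _ U hU hc hd => ?_⟩
  refine circ_main par hM1 hM2 (pl_inj j) (fun _ => false) R U (fun r y hy => ?_)
    (fun y hy => ?_) (fun r => ?_)
  · exact (hit_fill M j y).1 (hU r _ hy)
  · exact hc _ ((hit_fill M j y).2 hy)
  · obtain ⟨d, hd1, hd2⟩ := hd r
    refine ⟨d, hd1, ?_⟩
    rw [Fintype.sum_sum_type, ← sum_add_distrib]
    exact hd2

/-- **Networks**, one pair of vectors. -/
theorem tn_round (k n : ℕ) : ∃ M : Fin n → Fin n → Bool,
    ∀ (q : ℕ) (j : Fin q) (R : Type) [Fintype R] [Nonempty R] (K W : R → Type)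
      [∀ r, Field (K r)] [∀ r, Fintype (W r)]
      (T : ∀ r, Net (K r) (Fin q × Bool × Fin n) (W r)) (a : ∀ r, W r → K r),
      (∀ r x, (T r).value (a r) x ≠ 0 → ¬ Hit M x) →
      (∀ x, ¬ Hit M x → Nat.card R ≤
        2 ^ (n / 2 ^ (70 * (k + 1))) * Nat.card {r // (T r).value (a r) x ≠ 0}) →
      (∀ r, ∑ i, ((T r).reads (j, false, i) + (T r).reads (j, true, i)) ≤ k * n) →
      ∃ r, n ≤ 2 ^ (70 * (k + 1)) * (Nat.log 2 (Fintype.card (W r)) + 1) := by
  classical
  rcases Nat.lt_or_ge n (2 ^ (70 * (k + 1))) with hn | hn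
  · refine ⟨fun _ _ => false, fun q j R _ _ K W _ _ T a _ _ _ => ?_⟩
    obtain ⟨r⟩ := (inferInstance : Nonempty R)
    exact ⟨r, hn.le.trans (Nat.le_mul_of_pos_right _ (by omega))⟩
  obtain ⟨n₁, κ, g, m, h, Q, L, par⟩ := exists_par k n _ rfl hn
  obtain ⟨M, hM1, hM2⟩ := exists_matrix par.h1 par.Qh
  refine ⟨M, fun q j R _ _ K W _ _ T a hU hc hd => ?_⟩
  refine net_main par hM1 hM2 (pl_inj j) (fun _ => false) R K W T a (fun r y hy => ?_)
    (fun y hy => ?_) (fun r => ?_)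
  · exact (hit_fill M j y).1 (hU r _ hy)
  · exact hc _ ((hit_fill M j y).2 hy)
  · rw [Fintype.sum_sum_type, ← sum_add_distrib]
    exact hd r

/-- Circuits, asymptotically. -/
theorem fd_asym {ε : ℝ} (hε : 0 < ε) (hε1 : ε ≤ 1) : ∃ n₀ : ℕ, ∀ n ≥ n₀,
    ∃ M : Fin n → Fin n → Bool, ∀ q w μ : ℕ, (w : ℝ) ≤ (n : ℝ) ^ (1 - ε) →
      (μ : ℝ) ≤ (n : ℝ) ^ (1 - ε) →
    ∀ (j : Fin q) (R : Type) [Fintype R] [Nonempty R] (U : R → Circ (Fin q × Bool × Fin n)),
      (∀ r, Fintype.card (U r).G ≤ 2 ^ w) →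
      (∀ r x, (U r).Val x (U r).out → ¬ Hit M x) →
      (∀ x, ¬ Hit M x → Nat.card R ≤ 2 ^ μ * Nat.card {r // (U r).Val x (U r).out}) →
      ∃ r, ∀ d : (U r).G → Fin q × Bool × Fin n → ℕ, IsDeg (U r) id d →
        ε / 210 * (n * Real.logb 2 n) ≤
          (∑ i, (d (U r).out (j, false, i) + d (U r).out (j, true, i)) : ℕ) := by
  obtain ⟨n₀, hn₀⟩ := asym 70 (by norm_num) hε hε1
  refine ⟨n₀, fun n hn => ?_⟩
  obtain ⟨k, hk1, hk2, hk3⟩ := hn₀ n hn
  obtain ⟨M, hM⟩ := fd_round k n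
  refine ⟨M, fun q w μ hw hμ j R _ _ U hU0 hU hc => ?_⟩
  by_contra hcon
  push Not at hcon
  obtain ⟨r, hr⟩ := hM q j R U hU (fun x hx => (hc x hx).trans
    (Nat.mul_le_mul_right _ (Nat.pow_le_pow_right (by norm_num) (hk2 μ hμ)))) (fun r => by
      obtain ⟨d, hd, hd'⟩ := hcon r
      refine ⟨d, hd, ?_⟩
      have h2 : ((∑ i, (d (U r).out (j, false, i) + d (U r).out (j, true, i)) : ℕ) : ℝ) ≤
          k * n := by
        calc ((∑ i, (d (U r).out (j, false, i) + d (U r).out (j, true, i)) : ℕ) : ℝ) ≤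
            ε / 210 * (n * Real.logb 2 n) := hd'.le
          _ = (ε / (3 * (70 : ℕ)) * Real.logb 2 n) * n := by push_cast; ring
          _ ≤ k * n := by gcongr
      exact_mod_cast h2)
  refine hk3 w hw (hr.trans (Nat.mul_le_mul_left _ (Nat.add_le_add_right ?_ 1)))
  refine (Nat.log_mono_right (hU0 r)).trans (le_of_eq ?_)
  exact Nat.log_pow (by norm_num) w

/-- Networks, asymptotically. -/
theorem tn_asym {ε : ℝ} (hε : 0 < ε) (hε1 : ε ≤ 1) : ∃ n₀ : ℕ, ∀ n ≥ n₀,
    ∃ M : Fin n → Fin n → Bool, ∀ q w μ : ℕ, (w : ℝ) ≤ (n : ℝ) ^ (1 - ε) →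
      (μ : ℝ) ≤ (n : ℝ) ^ (1 - ε) →
    ∀ (j : Fin q) (R : Type) [Fintype R] [Nonempty R] (K W : R → Type)
      [∀ r, Field (K r)] [∀ r, Fintype (W r)]
      (T : ∀ r, Net (K r) (Fin q × Bool × Fin n) (W r)) (a : ∀ r, W r → K r),
      (∀ r, Fintype.card (W r) ≤ 2 ^ w) →
      (∀ r x, (T r).value (a r) x ≠ 0 → ¬ Hit M x) →
      (∀ x, ¬ Hit M x → Nat.card R ≤ 2 ^ μ * Nat.card {r // (T r).value (a r) x ≠ 0}) →
      ∃ r, ε / 210 * (n * Real.logb 2 n) ≤
          (∑ i, ((T r).reads (j, false, i) + (T r).reads (j, true, i)) : ℕ) := by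
  obtain ⟨n₀, hn₀⟩ := asym 70 (by norm_num) hε hε1
  refine ⟨n₀, fun n hn => ?_⟩
  obtain ⟨k, hk1, hk2, hk3⟩ := hn₀ n hn
  obtain ⟨M, hM⟩ := tn_round k n
  refine ⟨M, fun q w μ hw hμ j R _ _ K W _ _ T a hU0 hU hc => ?_⟩
  by_contra hcon
  push Not at hcon
  obtain ⟨r, hr⟩ := hM q j R K W T a hU (fun x hx => (hc x hx).trans
    (Nat.mul_le_mul_right _ (Nat.pow_le_pow_right (by norm_num) (hk2 μ hμ)))) (fun r => by
      have hd' := hcon r
      have h2 : ((∑ i, ((T r).reads (j, false, i) + (T r).reads (j, true, i)) : ℕ) : ℝ) ≤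
          k * n := by
        calc ((∑ i, ((T r).reads (j, false, i) + (T r).reads (j, true, i)) : ℕ) : ℝ) ≤
            ε / 210 * (n * Real.logb 2 n) := hd'.le
          _ = (ε / (3 * (70 : ℕ)) * Real.logb 2 n) * n := by push_cast; ring
          _ ≤ k * n := by gcongr
      exact_mod_cast h2)
  refine hk3 w hw (hr.trans (Nat.mul_le_mul_left _ (Nat.add_le_add_right ?_ 1)))
  refine (Nat.log_mono_right (hU0 r)).trans (le_of_eq ?_)
  exact Nat.log_pow (by norm_num) w

theorem one_le_of_iff {P Q : Prop} (h : Q) (hPQ : P ↔ Q) :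
    Nat.card Unit ≤ 2 ^ 0 * Nat.card {_r : Unit // P} := by
  have h2 : Nat.card {_r : Unit // P} = 1 := by
    rw [Nat.card_eq_one_iff_unique]
    exact ⟨⟨fun a b => Subtype.ext rfl⟩, ⟨⟨(), hPQ.2 h⟩⟩⟩
  rw [h2, Nat.card_unique]
  norm_num

/-- The sum over all pairs. -/
theorem sum_rounds (g : Fin q × Bool × Fin n → ℕ) :
    ∑ v, g v = ∑ j, ∑ i, (g (j, false, i) + g (j, true, i)) := by
  rw [Fintype.sum_prod_type]
  refine sum_congr rfl fun j _ => ?_
  rw [Fintype.sum_prod_type, Fintype.sum_bool, sum_add_distrib, add_comm]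

theorem sum_rounds_le {c : ℝ} (g : Fin q × Bool × Fin n → ℕ)
    (h : ∀ j, c ≤ ((∑ i, (g (j, false, i) + g (j, true, i)) : ℕ) : ℝ)) :
    q * c ≤ ((∑ v, g v : ℕ) : ℝ) := by
  rw [sum_rounds, Nat.cast_sum]
  calc q * c = ∑ _j : Fin q, c := by
        rw [sum_const, card_univ, Fintype.card_fin, nsmul_eq_mul]
    _ ≤ _ := sum_le_sum fun j _ => h j

/-- A network for one pair of vectors. -/
theorem tn_upper (K : Type) [Field K] (hn : 1 ≤ n) (hq : 2 ≤ q) (M : Fin n → Fin n → Bool)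
    (j : Fin q) :
    ∃ (W : Type) (_ : Fintype W) (T : Net K (Fin q × Bool × Fin n) W) (a : W → K),
      Fintype.card W = 4 ^ n + 1 ∧ (∀ s i, T.reads (j, s, i) = 1) ∧
        ∀ x, T.value a x ≠ 0 ↔ ¬ Hit M x := by
  classical
  obtain ⟨z, hz⟩ : ∃ z : Fin n, z.val = 0 := ⟨⟨0, by omega⟩, rfl⟩
  obtain ⟨j', hj'⟩ : ∃ j' : Fin q, j' ≠ j := by
    by_contra hcon
    push Not at hcon
    have h1 := hcon ⟨0, by omega⟩
    have h2 := hcon ⟨1, by omega⟩
    have h3 := congrArg Fin.val (h1.trans h2.symm)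
    simp at h3
  obtain ⟨W, hW, T, a, h1, h2, h3⟩ := exists_net K
    ((univ : Finset (Fin n ⊕ Fin n)).image (pl j))
    ⟨_, mem_image_of_mem _ (mem_univ (Sum.inl z))⟩ ⟨(j', false, z), by
      rw [mem_image]
      rintro ⟨i | i, -, h⟩
      · exact hj' (congrArg Prod.fst h).symm
      · exact hj' (congrArg Prod.fst h).symm⟩ (fun x => ¬ Hit M x)
  refine ⟨W, hW, T, a, ?_, fun s i => ?_, h3⟩
  · rw [h1, card_image_of_injective _ (pl_inj j), card_univ, Fintype.card_sum, Fintype.card_fin,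
      ← two_mul, pow_mul]
    norm_num
  · cases s with
    | false => exact h2 (pl j (Sum.inl i)) (mem_image_of_mem _ (mem_univ _))
    | true => exact h2 (pl j (Sum.inr i)) (mem_image_of_mem _ (mem_univ _))

end Pool.Agent.V11228.OMv
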