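import Pool.Agent.V11228.F2A
import Pool.Agent.V11228.OMvF
import Pool.Agent.H524R2.Forster

/-!
# Bilinear forms over the field with two elements and real tree tensor networks
-/

set_option autoImplicit false

open Finset

namespace Pool.Agent.V11228.F2

open Pool.Agent.W896.RK Pool.Agent.W896.HP Pool.Agent.W896.FD
open Pool.Agent.TH700.TN Pool.Agent.V11163.GI Pool.Agent.V11163.NT
open Pool.Agent.V11228.OMv (exists_rare)

variable {n : ℕ} {V : Type}

/-- Forster's bound for the forms with a triangular matrix. -/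
theorem forster_tri {h : ℕ} {T : Fin h → Fin h → Prop} (hT : IsTri T) {X : Type} [Fintype X]
    (A B : (Fin h → Bool) → X → ℝ)
    (hs : ∀ x y, 0 < bil T x y * ∑ u, A x u * B y u) : 2 ^ h ≤ Fintype.card X ^ 2 := by
  classical
  obtain ⟨N, hN⟩ : ∃ N, N = 2 ^ h := ⟨_, rfl⟩
  have hNp : 0 < N := by rw [hN]; exact Nat.two_pow_pos _
  rcases Nat.lt_or_ge N (Fintype.card X) with hd | hd
  · rw [← hN, sq]
    nlinarith
  have hcard : Fintype.card (Fin h → Bool) = N := by
    rw [Fintype.card_fun, Fintype.card_bool, Fintype.card_fin, hN]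
  obtain ⟨ε⟩ : Nonempty (Fin N ≃ (Fin h → Bool)) := ⟨(Fintype.equivFinOfCardEq hcard).symm⟩
  obtain ⟨η⟩ : Nonempty (Fin (Fintype.card X) ≃ X) := ⟨(Fintype.equivFin X).symm⟩
  have hNR : (N : ℝ) = 2 ^ h := by rw [hN]; push_cast; rfl
  have key := Pool.Agent.H524R2.forster (N := N) (d := Fintype.card X) (Y := Fin h → Bool)
    (fun i y => bil T (ε i) y) (fun i y => bil_abs T _ _) (fun y y' => by
      rw [Equiv.sum_comp ε (fun x => bil T x y * bil T x y'), sum_bil_sq hT, hNR]) hNp hd
    (fun i j => A (ε i) (η j)) (fun y j => B y (η j)) (fun i y => by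
      have h1 : (fun j => A (ε i) (η j)) ⬝ᵥ (fun j => B y (η j)) = ∑ u, A (ε i) u * B y u :=
        Equiv.sum_comp η (fun u => A (ε i) u * B y u)
      rw [h1]
      exact hs _ _)
  rw [hcard] at key
  rw [← hN]
  exact_mod_cast key

/-- The bound for the matrices which are different from zero where the form has a given value. -/
theorem forster_nz {h : ℕ} {T : Fin h → Fin h → Prop} (hT : IsTri T) {X : Type} [Fintype X]
    (A B : (Fin h → Bool) → X → ℝ) (σ : ℝ) (hσ : σ = 1 ∨ σ = -1)
    (hs : ∀ x y, (∑ u, A x u * B y u) ≠ 0 ↔ bil T x y = σ) :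
    2 ^ h ≤ (Fintype.card X ^ 2 + 1) ^ 2 := by
  classical
  obtain ⟨g, hg⟩ : ∃ g : (Fin h → Bool) × (Fin h → Bool) → ℝ, ∀ z, g z =
      (∑ u, A z.1 u * B z.2 u) ^ 2 := ⟨_, fun _ => rfl⟩
  obtain ⟨δ, hδ, hδ'⟩ : ∃ δ : ℝ, 0 < δ ∧ ∀ z, g z ≠ 0 → δ < g z := by
    obtain ⟨S, hS⟩ : ∃ S : Finset ((Fin h → Bool) × (Fin h → Bool)), S =
      univ.filter (fun z => g z ≠ 0) := ⟨_, rfl⟩
    rcases S.eq_empty_or_nonempty with h0 | h0
    · refine ⟨1, one_pos, fun z hz => ?_⟩
      have : z ∈ S := by rw [hS, mem_filter]; exact ⟨mem_univ _, hz⟩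
      rw [h0] at this
      exact absurd this (notMem_empty _)
    · obtain ⟨z₀, hz₀, hmin⟩ := exists_min_image S g h0
      rw [hS, mem_filter] at hz₀
      have hpos : 0 < g z₀ := by
        rw [hg]
        exact lt_of_le_of_ne (sq_nonneg _) (by rw [← hg]; exact hz₀.2.symm)
      refine ⟨g z₀ / 2, by positivity, fun z hz => ?_⟩
      have := hmin z (by rw [hS, mem_filter]; exact ⟨mem_univ _, hz⟩)
      linarith
  have hσ2 : σ * σ = 1 := by rcases hσ with h | h <;> rw [h] <;> norm_num
  have key := forster_tri hT (X := Option (X × X))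
    (fun x o => o.elim 1 (fun u => A x u.1 * A x u.2))
    (fun y o => o.elim (-(σ * δ)) (fun u => σ * (B y u.1 * B y u.2))) (fun x y => by
      rw [Fintype.sum_option]
      simp only [Option.elim_none, Option.elim_some]
      have h1 : ∑ u : X × X, A x u.1 * A x u.2 * (σ * (B y u.1 * B y u.2)) =
          σ * g (x, y) := by
        rw [hg, sq, sum_mul_sum, Fintype.sum_prod_type, mul_sum]
        refine sum_congr rfl fun u _ => ?_
        rw [mul_sum]
        exact sum_congr rfl fun v _ => by ring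
      rw [h1]
      have h2 : bil T x y * (1 * -(σ * δ) + σ * g (x, y)) =
          (bil T x y * σ) * (g (x, y) - δ) := by ring
      rw [h2]
      by_cases h3 : bil T x y = σ
      · rw [h3, hσ2, one_mul, sub_pos]
        apply hδ'
        rw [hg]
        exact pow_ne_zero _ ((hs x y).2 h3)
      · have h4 : g (x, y) = 0 := by
          rw [hg]
          have : ∑ u, A x u * B y u = 0 := by
            by_contra h5
            exact h3 ((hs x y).1 h5)
          simp only [this]
          norm_num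
        have h5 : bil T x y * σ = -1 := by
          have h6 : bil T x y = -σ := by
            rcases eq_or_eq_neg_of_abs_eq (bil_abs T x y) with h | h
            · rcases hσ with h' | h'
              · exact absurd (h.trans h'.symm) h3
              · rw [h, h']; norm_num
            · rcases hσ with h' | h'
              · rw [h, h']
              · exact absurd (h.trans h'.symm) h3
          rw [h6]
          linarith
        rw [h5, h4]
        linarith)
  rw [Fintype.card_option, Fintype.card_prod, ← sq] at key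
  exact key

/-- The two sides of the pieces. -/
theorem pd_split {K : Type} [CommSemiring K] {n₁ m h N : ℕ} {D : Set V} {f : (V → Bool) → K}
    {P : Fin m → Finset V} (hf : Pd D f m P N) {p : Fin n ⊕ Fin n → V}
    (b₀ : V → Bool) {α β : Fin n₁ ↪ Fin n}
    (hD : ∀ i, p (Sum.map α β i) ∈ D) (col : Fin m → Bool) {e g : Fin h → Fin n}
    (he : ∀ s, ∃ a, α a = e s ∧ ∀ j, p (.inl (α a)) ∈ P j → col j = true)
    (hg : ∀ s, ∃ a, β a = g s ∧ ∀ j, p (.inr (β a)) ∈ P j → col j = false) :
    ∃ (X : Type) (_ : Fintype X) (A B : (Fin h → Bool) → X → K), Fintype.card X ≤ N ∧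
      ∀ x y, f (fill p b₀ (Sum.elim (spread e x) (spread g y))) = ∑ u, A x u * B y u := by
  classical
  obtain ⟨X, iX, G, hX, hG, hfG⟩ := hf
  obtain ⟨w, hw⟩ : ∃ w : (Fin h → Bool) → (Fin h → Bool) → V → Bool, ∀ x y, w x y =
      fill p b₀ (Sum.elim (spread e x) (spread g y)) := ⟨_, fun _ _ => rfl⟩
  have d1 : ∀ x y y' v, w x y v ≠ w x y' v → ∃ s, v = p (.inr (g s)) := by
    intro x y y' v hv
    rw [hw, hw] at hv
    unfold fill at hv
    cases hi : idx p v with
    | none => rw [hi] at hv; exact absurd rfl hv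
    | some i =>
      rw [hi] at hv
      have hi' := idx_some hi
      cases i with
      | inl r => exact absurd rfl hv
      | inr c =>
        by_cases hc : ∃ s, g s = c
        · obtain ⟨s, rfl⟩ := hc
          exact ⟨s, hi'.symm⟩
        · push Not at hc
          exfalso
          apply hv
          simp only [Sum.elim_inr]
          rw [spread_other y hc, spread_other y' hc]
  have d2 : ∀ x x' y v, w x y v ≠ w x' y v → ∃ s, v = p (.inl (e s)) := by
    intro x x' y v hv
    rw [hw, hw] at hv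
    unfold fill at hv
    cases hi : idx p v with
    | none => rw [hi] at hv; exact absurd rfl hv
    | some i =>
      rw [hi] at hv
      have hi' := idx_some hi
      cases i with
      | inr r => exact absurd rfl hv
      | inl c =>
        by_cases hc : ∃ s, e s = c
        · obtain ⟨s, rfl⟩ := hc
          exact ⟨s, hi'.symm⟩
        · push Not at hc
          exfalso
          apply hv
          simp only [Sum.elim_inl]
          rw [spread_other x hc, spread_other x' hc]
  obtain ⟨z, hz⟩ : ∃ z : Fin h → Bool, z = fun _ => false := ⟨_, rfl⟩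
  refine ⟨X, iX, fun x u => ∏ j with col j = true, G j (w x z) u,
    fun y u => ∏ j with ¬ col j = true, G j (w z y) u, hX, fun x y => ?_⟩
  rw [← hw, hfG]
  refine sum_congr rfl fun u _ => ?_
  rw [← prod_filter_mul_prod_filter_not univ (fun j => col j = true) (fun j => G j (w x y) u)]
  congr 1
  · refine prod_congr rfl fun j hj => ?_
    rw [mem_filter] at hj
    refine congrFun (hG j _ _ fun v hv => ?_) u
    obtain ⟨s, rfl⟩ := d1 x y z v hv
    obtain ⟨a, ha, ha'⟩ := hg s
    rw [← ha]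
    refine ⟨hD (.inr a), fun h5 => ?_⟩
    have := ha' j h5
    rw [hj.2] at this
    exact Bool.noConfusion this
  · refine prod_congr rfl fun j hj => ?_
    rw [mem_filter] at hj
    refine congrFun (hG j _ _ fun v hv => ?_) u
    obtain ⟨s, rfl⟩ := d2 x z y v hv
    obtain ⟨a, ha, ha'⟩ := he s
    rw [← ha]
    exact ⟨hD (.inl a), fun h5 => hj.2 (ha' j h5)⟩

/-- The form on the spread vectors. -/
theorem frm_spread {h : ℕ} (M : Fin n → Fin n → ZMod 2) {e g : Fin h → Fin n}
    (he : Function.Injective e) (hg : Function.Injective g) (x y : Fin h → Bool) :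
    χ (frm M (spread e x) (spread g y)) = bil (fun s s' => M (e s) (g s') = 1) x y := by
  rw [← bil_eq]
  exact bil_spread (fun r c => M r c = 1) he hg x y

open Classical in
/-- **The bound** for real networks. -/
theorem net_main {k n₁ κ a m h Q ν : ℕ} (par : Par k n n₁ κ a m h Q ν)
    {M : Fin n → Fin n → ZMod 2}
    (hM : ∀ (h : ℕ) (R B : Finset (Fin n)),
      n + Q * h ≤ Q * R.card → n + Q * (h * (2 * Q ^ 2)) < Q * B.card + 1 →
      ∃ (e f : Fin h → Fin n), Function.Injective e ∧ Function.Injective f ∧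
        (∀ s, e s ∈ R) ∧ (∀ s, f s ∈ B) ∧ IsTri (fun s s' => M (e s) (f s') = 1))
    {p : Fin n ⊕ Fin n → V} (hp : Function.Injective p) (b₀ : V → Bool)
    {W : Type} [Fintype W] (T : Net ℝ V W) (o : W → ℝ)
    (hT : (∀ u v, 0 < χ (frm M u v) * T.value o (fill p b₀ (Sum.elim u v))) ∨
      ∃ σ, ∀ u v, T.value o (fill p b₀ (Sum.elim u v)) ≠ 0 ↔ frm M u v = σ)
    (hd : ∑ i, T.reads (p i) ≤ k * n) :
    n ≤ 2 ^ (50 * (k + 1)) * (Nat.log 2 (Fintype.card W) + 1) := by
  -- the reads
  rw [Fintype.sum_sum_type] at hd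
  obtain ⟨α, hα⟩ := exists_rare par.κ4 par.n₁2 (fun i => T.reads (p (.inl i)))
    ((Nat.le_add_right _ _).trans hd)
  obtain ⟨β, hβ⟩ := exists_rare par.κ4 par.n₁2 (fun i => T.reads (p (.inr i)))
    ((Nat.le_add_left _ _).trans hd)
  have hp' : Function.Injective (fun i => p (Sum.map α β i)) :=
    hp.comp (Function.Injective.sumMap α.injective β.injective)
  have hκ : ∀ i, T.reads (p (Sum.map α β i)) ≤ κ := by
    intro i
    cases i with
    | inl i => exact hα i
    | inr i => exact hβ i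
  obtain ⟨g, hg⟩ : ∃ g, g = a / 2 := ⟨_, rfl⟩
  have hg1 : 1 ≤ g := by
    have := par.a1
    omega
  obtain ⟨D, hD⟩ : ∃ D : Finset V, D = univ.image (fun i => p (Sum.map α β i)) := ⟨_, rfl⟩
  obtain ⟨s, P, hPd, hPc, -, hPs, hPr⟩ := net_pd D hg1 T o
  have hsum : ∑ v ∈ D, T.reads v ≤ 2 * (n₁ * κ) := by
    rw [hD, sum_image (fun i _ j _ h => hp' h)]
    calc ∑ i, T.reads (p (Sum.map α β i)) ≤ ∑ _i : Fin n₁ ⊕ Fin n₁, κ :=
          sum_le_sum (fun i _ => hκ i)
      _ = 2 * (n₁ * κ) := by
          rw [sum_const, card_univ, Fintype.card_sum, Fintype.card_fin, smul_eq_mul]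
          ring
  have hs : s ≤ 256 * (k + 1) ^ 2 := by
    have h3 : s * (g + 1) ≤ 2 * (n₁ * κ) := hPs.trans hsum
    have h4 : 8 * (n₁ * κ) ≤ a * (512 * (k + 1) ^ 2) := by
      have h5 := par.m1
      rw [par.me, mul_add, mul_one] at h5
      omega
    have h5 : a ≤ 2 * (g + 1) := by omega
    have h6 : s * (g + 1) ≤ 256 * (k + 1) ^ 2 * (g + 1) := by
      have h7 : 8 * (n₁ * κ) ≤ 2 * (g + 1) * (512 * (k + 1) ^ 2) :=
        h4.trans (Nat.mul_le_mul_right _ h5)
      obtain ⟨Y, hY⟩ : ∃ Y, Y = (g + 1) * (k + 1) ^ 2 := ⟨_, rfl⟩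
      have e1 : 2 * (g + 1) * (512 * (k + 1) ^ 2) = 1024 * Y := by rw [hY]; ring
      have e2 : 256 * (k + 1) ^ 2 * (g + 1) = 256 * Y := by rw [hY]; ring
      rw [e1] at h7
      rw [e2]
      omega
    exact Nat.le_of_mul_le_mul_right h6 (by omega)
  obtain ⟨Vp, hVp⟩ : ∃ Vp : Fin (s + 1) → Finset (Fin n₁ ⊕ Fin n₁), ∀ j, Vp j =
      univ.filter (fun i => p (Sum.map α β i) ∈ P j) := ⟨_, fun _ => rfl⟩
  obtain ⟨col, hcol⟩ := exists_color (a := a) (κ := κ) Vp (by
      intro i
      refine le_trans (le_trans (le_of_eq ?_) (hPr (p (Sum.map α β i)))) (hκ i)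
      congr 1
      ext j
      rw [mem_filter, mem_filter, hVp, mem_filter]
      simp only [mem_univ, true_and]) (by
      intro j
      have h3 : (Vp j).card ≤ (P j).card := by
        refine card_le_card_of_injOn (fun i => p (Sum.map α β i)) ?_ (hp'.injOn)
        intro i hi
        rw [mem_coe, hVp, mem_filter] at hi
        exact mem_coe.2 hi.2
      have h4 := hPc j
      omega) par.aκ
  obtain ⟨e, f, he, hf, h5, h6, h7⟩ := color_tri par hM (α := α) (β := β) hcol
  obtain ⟨X, iX, A, B, hX, hAB⟩ := pd_split (h := h) hPd (p := p) b₀ (α := α) (β := β) (by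
      intro i
      rw [hD]
      exact mem_coe.2 (mem_image_of_mem _ (mem_univ i))) col (e := e) (g := f) (by
      intro i
      obtain ⟨x, hx, hx'⟩ := h5 i
      refine ⟨x, hx', fun j hj => (mem_filter.1 hx).2 j ?_⟩
      rw [hVp, mem_filter]
      exact ⟨mem_univ _, hj⟩) (by
      intro i
      obtain ⟨x, hx, hx'⟩ := h6 i
      refine ⟨x, hx', fun j hj => (mem_filter.1 hx).2 j ?_⟩
      rw [hVp, mem_filter]
      exact ⟨mem_univ _, hj⟩)
  -- the rank
  have hrank : 2 ^ h ≤ (Fintype.card X ^ 2 + 1) ^ 2 := by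
    rcases hT with hT | ⟨σ, hT⟩
    · have key := forster_tri h7 A B (fun x y => by
        rw [← hAB, ← frm_spread M he hf]
        exact hT _ _)
      have h8 : Fintype.card X ^ 2 ≤ (Fintype.card X ^ 2 + 1) ^ 2 := by nlinarith
      exact key.trans h8
    · refine forster_nz h7 A B (χ σ) ?_ (fun x y => ?_)
      · unfold χ
        split_ifs
        · exact Or.inl rfl
        · exact Or.inr rfl
      · rw [← hAB, hT, ← frm_spread M he hf]
        have h8 : ∀ a b : ZMod 2, a = 0 ∨ a = 1 := by decide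
        have hne : (1 : ZMod 2) ≠ 0 := by decide
        unfold χ
        rcases h8 (frm M (spread e x) (spread f y)) 0 with h9 | h9 <;>
          rcases h8 σ 0 with h10 | h10 <;> rw [h9, h10] <;> simp <;> norm_num
  apply par.fin
  obtain ⟨lg, hlg⟩ : ∃ lg, lg = Nat.log 2 (Fintype.card W) := ⟨_, rfl⟩
  rw [← hlg]
  have hw : Fintype.card W ≤ 2 ^ (lg + 1) := by
    rw [hlg]
    exact (Nat.lt_pow_succ_log_self (by norm_num) _).le
  have h8 : Fintype.card X ^ 2 + 1 ≤ 2 ^ (2 * (s * (lg + 1)) + 1) := by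
    have h9 : Fintype.card X ≤ 2 ^ (s * (lg + 1)) := by
      calc Fintype.card X ≤ Fintype.card W ^ s := hX
        _ ≤ (2 ^ (lg + 1)) ^ s := Nat.pow_le_pow_left hw s
        _ = 2 ^ (s * (lg + 1)) := by rw [← pow_mul, mul_comm]
    have h10 : Fintype.card X ^ 2 ≤ 2 ^ (2 * (s * (lg + 1))) := by
      calc Fintype.card X ^ 2 ≤ (2 ^ (s * (lg + 1))) ^ 2 := Nat.pow_le_pow_left h9 2
        _ = _ := by rw [← pow_mul, mul_comm 2]
    have h11 : 1 ≤ 2 ^ (2 * (s * (lg + 1))) := Nat.one_le_two_pow
    rw [pow_succ 2 (2 * (s * (lg + 1)))]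
    omega
  have h9 : 2 ^ h ≤ 2 ^ (4 * (s * (lg + 1)) + 2) := by
    refine hrank.trans ((Nat.pow_le_pow_left h8 2).trans (le_of_eq ?_))
    rw [← pow_mul]
    congr 1
    ring
  have h10 : h ≤ 4 * (s * (lg + 1)) + 2 := (Nat.pow_le_pow_iff_right (by norm_num)).1 h9
  have h11 : s * (lg + 1) ≤ (lg + 1) * m := by
    rw [mul_comm]
    apply Nat.mul_le_mul_left
    rw [par.me]
    omega
  have h12 : 4 * (lg + 1) * m = 4 * ((lg + 1) * m) := by ring
  omega

end Pool.Agent.V11228.F2
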