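import Pool.Agent.V11228.F2F

/-!
# A matrix product over the field with two elements
-/

set_option autoImplicit false

open Finset

namespace Pool.Agent.V11228.F2

open Pool.Agent.TH700.TN

variable {V : Type} {n : ℕ}

/-- The index set of the vectors. -/
abbrev Ix (n : ℕ) := Option (Option (Fin n))

/-- The vector of a leaf. -/
def lf (b : Bool) : Ix n → ZMod 2
  | none => 1
  | some none => bq b
  | some (some _) => 0

/-- The tensor which adds `N` times the old vector, if the bit is one. -/
def cc (N : Ix n → Ix n → ZMod 2) (i j k : Ix n) : ZMod 2 :=
  match j with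
  | none => if i = k then 1 else 0
  | some none => N i k
  | some (some _) => 0

/-- One step after the other. -/
def chain : Net (ZMod 2) V (Ix n) → List (V × (Ix n → Ix n → ZMod 2)) → Net (ZMod 2) V (Ix n)
  | T, [] => T
  | T, p :: L => chain (.node T (.leaf p.1 lf) (cc p.2)) L

/-- The change of the vector. -/
def upd (x : V → Bool) (s : Ix n → ZMod 2) (p : V × (Ix n → Ix n → ZMod 2)) : Ix n → ZMod 2 :=
  fun k => s k + bq (x p.1) * ∑ i, p.2 i k * s i

theorem step_eval (T : Net (ZMod 2) V (Ix n)) (p : V × (Ix n → Ix n → ZMod 2)) (x : V → Bool) :
    (Net.node T (.leaf p.1 lf) (cc p.2)).eval x = upd x (T.eval x) p := by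
  funext k
  unfold upd
  simp only [Net.eval]
  have h : ∀ i, ∑ j, cc p.2 i j k * (T.eval x i * lf (x p.1) j) =
      (if i = k then T.eval x i else 0) + bq (x p.1) * (p.2 i k * T.eval x i) := by
    intro i
    rw [Fintype.sum_option, Fintype.sum_option]
    simp only [cc, lf]
    have h0 : ∑ _j : Fin n, (0 : ZMod 2) * (T.eval x i * 0) = 0 := by simp
    rw [h0]
    split_ifs <;> ring
  rw [sum_congr rfl fun i _ => h i, sum_add_distrib, ← mul_sum]
  congr 1
  rw [sum_ite_eq' univ k (fun i => T.eval x i), if_pos (mem_univ _)]

theorem chain_eval (L : List (V × (Ix n → Ix n → ZMod 2))) : ∀ (T : Net (ZMod 2) V (Ix n))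
    (x : V → Bool), (chain T L).eval x = L.foldl (upd x) (T.eval x) := by
  induction L with
  | nil => intro T x; rfl
  | cons p L ih =>
    intro T x
    unfold chain
    rw [ih, step_eval]
    rfl

theorem chain_reads [DecidableEq V] (v : V) (L : List (V × (Ix n → Ix n → ZMod 2))) :
    ∀ T : Net (ZMod 2) V (Ix n), (chain T L).reads v = T.reads v + (L.map Prod.fst).count v := by
  induction L with
  | nil => intro T; simp [chain]
  | cons p L ih =>
    intro T
    unfold chain
    rw [ih, List.map_cons, List.count_cons]
    have : (Net.node T (.leaf p.1 lf) (cc p.2)).reads v = T.reads v + if p.1 = v then 1 else 0 := by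
      by_cases h : p.1 = v
      · simp only [Net.reads, h, if_true]
      · simp only [Net.reads, h, if_false]
    rw [this]
    simp only [beq_iff_eq]
    omega

/-- The step for a column. -/
def colN (M : Fin n → Fin n → ZMod 2) (c : Fin n) (i k : Ix n) : ZMod 2 :=
  match i, k with
  | none, some (some r) => M r c
  | _, _ => 0

/-- The step for a row. -/
def rowN (r : Fin n) (i k : Ix n) : ZMod 2 := if i = some (some r) ∧ k = some none then 1 else 0

theorem cols (M : Fin n → Fin n → ZMod 2) (g : Fin n → V) (x : V → Bool) (C : List (Fin n)) :
    ∀ s : Ix n → ZMod 2, s none = 1 → s (some none) = 0 →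
      ∀ k, (C.map (fun c => (g c, colN M c))).foldl (upd x) s k =
        match k with
        | none => 1
        | some none => 0
        | some (some r) => s (some (some r)) + (C.map (fun c => M r c * bq (x (g c)))).sum := by
  induction C with
  | nil =>
    intro s h1 h2 k
    match k with
    | none => exact h1
    | some none => exact h2
    | some (some r) => simp
  | cons c C ih =>
    intro s h1 h2 k
    rw [List.map_cons, List.foldl_cons]
    have e : ∀ k, upd x s (g c, colN M c) k = match k with
        | none => 1
        | some none => 0
        | some (some r) => s (some (some r)) + M r c * bq (x (g c)) := by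
      intro k
      unfold upd
      match k with
      | none =>
        simp only [colN, zero_mul, sum_const_zero, mul_zero, add_zero]
        exact h1
      | some none =>
        simp only [colN, zero_mul, sum_const_zero, mul_zero, add_zero]
        exact h2
      | some (some r) =>
        simp only
        rw [Fintype.sum_option]
        simp only [colN, zero_mul, sum_const_zero, add_zero, h1, mul_one]
        ring
    rw [ih _ (e none) (e (some none))]
    match k with
    | none => rfl
    | some none => rfl
    | some (some r) =>
      simp only
      rw [e (some (some r)), List.map_cons, List.sum_cons]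
      ring

theorem rows (g : Fin n → V) (x : V → Bool) (C : List (Fin n)) :
    ∀ s : Ix n → ZMod 2,
      ∀ k, (C.map (fun r => (g r, rowN r))).foldl (upd x) s k =
        match k with
        | none => s none
        | some none => s (some none) + (C.map (fun r => bq (x (g r)) * s (some (some r)))).sum
        | some (some r) => s (some (some r)) := by
  induction C with
  | nil =>
    intro s k
    match k with
    | none => rfl
    | some none => simp
    | some (some r) => rfl
  | cons c C ih =>
    intro s k
    rw [List.map_cons, List.foldl_cons]
    have e : ∀ k, upd x s (g c, rowN c) k = match k with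
        | none => s none
        | some none => s (some none) + bq (x (g c)) * s (some (some c))
        | some (some r) => s (some (some r)) := by
      intro k
      unfold upd
      match k with
      | none => simp [rowN]
      | some none => simp [rowN]
      | some (some r) => simp [rowN]
    rw [ih]
    match k with
    | none => exact e none
    | some none =>
      simp only
      rw [e (some none), List.map_cons, List.sum_cons]
      simp only [e]
      ring
    | some (some r) => exact e (some (some r))

open Classical in
/-- **A matrix product over the field with two elements** of bond dimension `n + 2` which reads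
every entry once. -/
theorem exists_chain (hn : 1 ≤ n) (M : Fin n → Fin n → ZMod 2) {p : Fin n ⊕ Fin n → V}
    (hp : Function.Injective p) :
    ∃ (W : Type) (_ : Fintype W) (T : Net (ZMod 2) V W) (a : W → ZMod 2),
      Fintype.card W = n + 2 ∧ T.Linear ∧ (∀ i, T.reads (p i) = 1) ∧
        ∀ x, T.value a x = frm M (fun r => x (p (.inl r))) (fun c => x (p (.inr c))) := by
  obtain ⟨m, rfl⟩ : ∃ m, n = m + 1 := ⟨n - 1, by omega⟩
  obtain ⟨C, hC⟩ : ∃ C : List (Fin (m + 1)), C = (List.finRange m).map Fin.succ := ⟨_, rfl⟩
  have hfin : List.finRange (m + 1) = 0 :: C := by rw [hC, List.finRange_succ]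
  obtain ⟨L, hL⟩ : ∃ L : List (V × (Ix (m + 1) → Ix (m + 1) → ZMod 2)), L =
      C.map (fun c => (p (.inr c), colN M c)) ++
        (List.finRange (m + 1)).map (fun r => (p (.inl r), rowN r)) := ⟨_, rfl⟩
  obtain ⟨f₀, hf₀⟩ : ∃ f₀ : Bool → Ix (m + 1) → ZMod 2, ∀ b k, f₀ b k = match k with
      | none => 1
      | some none => 0
      | some (some r) => M r 0 * bq b := ⟨_, fun _ _ => rfl⟩
  refine ⟨Ix (m + 1), inferInstance, chain (.leaf (p (.inr 0)) f₀) L,
    fun k => if k = some none then 1 else 0, ?_, ?_, ?_, ?_⟩
  · rw [Fintype.card_option, Fintype.card_option, Fintype.card_fin]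
  · have h : ∀ (L : List (V × (Ix (m + 1) → Ix (m + 1) → ZMod 2)))
        (T : Net (ZMod 2) V (Ix (m + 1))), T.Linear → (chain T L).Linear := by
      intro L
      induction L with
      | nil => intro T hT; exact hT
      | cons q L ih => intro T hT; exact ih _ ⟨hT, q.1, lf, rfl⟩
    exact h L _ trivial
  · intro i
    rw [chain_reads, hL, List.map_append, List.count_append, List.map_map, List.map_map]
    have e1 : (Prod.fst ∘ fun c : Fin (m + 1) => (p (.inr c), colN M c)) = fun c => p (.inr c) :=
      rfl
    have e2 : (Prod.fst ∘ fun r : Fin (m + 1) => (p (.inl r), rowN r)) = fun r => p (.inl r) :=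
      rfl
    rw [e1, e2]
    cases i with
    | inl r =>
      have h1 : (C.map (fun c => p (.inr c))).count (p (.inl r)) = 0 := by
        rw [List.count_eq_zero, List.mem_map]
        rintro ⟨c, -, hc⟩
        exact absurd (hp hc) (by simp)
      have h2 : ((List.finRange (m + 1)).map (fun r => p (.inl r))).count (p (.inl r)) = 1 := by
        apply List.count_eq_one_of_mem
        · refine (List.nodup_finRange _).map ?_
          intro a b hab
          exact Sum.inl_injective (hp hab)
        · exact List.mem_map.2 ⟨r, List.mem_finRange r, rfl⟩
      have h3 : ¬ p (.inr 0) = p (.inl r) := fun h => absurd (hp h) (by simp)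
      rw [h1, h2]
      unfold Net.reads
      rw [if_neg h3]
    | inr c =>
      have h2 : ((List.finRange (m + 1)).map (fun r => p (.inl r))).count (p (.inr c)) = 0 := by
        rw [List.count_eq_zero, List.mem_map]
        rintro ⟨c, -, hc⟩
        exact absurd (hp hc) (by simp)
      have h1 : (if p (.inr 0) = p (.inr c) then 1 else 0) +
          (C.map (fun c => p (.inr c))).count (p (.inr c)) = 1 := by
        have h3 : ((List.finRange (m + 1)).map (fun c => p (.inr c))).count (p (.inr c)) = 1 := by
          apply List.count_eq_one_of_mem
          · refine (List.nodup_finRange _).map ?_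
            intro a b hab
            exact Sum.inr_injective (hp hab)
          · exact List.mem_map.2 ⟨c, List.mem_finRange c, rfl⟩
        rw [hfin, List.map_cons, List.count_cons] at h3
        simp only [beq_iff_eq] at h3
        omega
      rw [h2, add_zero]
      unfold Net.reads
      exact h1
  · intro x
    unfold Net.value
    have h0 : ∑ k : Ix (m + 1), (if k = some none then (1 : ZMod 2) else 0) *
        (chain (.leaf (p (.inr 0)) f₀) L).eval x k =
        (chain (.leaf (p (.inr 0)) f₀) L).eval x (some none) := by
      rw [sum_eq_single (some none)]
      · rw [if_pos rfl, one_mul]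
      · intro k _ hk
        rw [if_neg hk, zero_mul]
      · intro h
        exact absurd (mem_univ _) h
    rw [h0, chain_eval, hL, List.foldl_append, rows]
    simp only
    obtain ⟨s, hs⟩ : ∃ s, s = (C.map (fun c => (p (.inr c), colN M c))).foldl (upd x)
        ((Net.leaf (p (.inr 0)) f₀).eval x) := ⟨_, rfl⟩
    rw [← hs]
    have hs1 : ∀ k, s k = match k with
        | none => 1
        | some none => 0
        | some (some r) => ∑ c, M r c * bq (x (p (.inr c))) := by
      intro k
      rw [hs, cols M (fun c => p (.inr c)) x C _ (by
        show f₀ (x (p (.inr 0))) none = 1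
        rw [hf₀]) (by
        show f₀ (x (p (.inr 0))) (some none) = 0
        rw [hf₀])]
      match k with
      | none => rfl
      | some none => rfl
      | some (some r) =>
        simp only
        rw [Fin.sum_univ_def, hfin, List.map_cons, List.sum_cons]
        congr 1
        show f₀ (x (p (.inr 0))) (some (some r)) = _
        rw [hf₀]
    rw [hs1 (some none)]
    simp only [zero_add]
    rw [← Fin.sum_univ_def]
    unfold frm
    refine sum_congr rfl fun r _ => ?_
    rw [hs1 (some (some r)), mul_sum]
    exact sum_congr rfl fun c _ => by ring

end Pool.Agent.V11228.F2
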