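import Mathlib

/-! A class of finite structures given by one forbidden homomorphic image that has no
first-order convergence: a unary relation `P` and a ternary relation `T`, no triple of
elements of `P` being in `T`. -/

set_option autoImplicit false
open FirstOrder FirstOrder.Language

namespace Pool.Agent.V11228.ForbHom

inductive Rl : ℕ → Type
  | P : Rl 1
  | T : Rl 3

def L : FirstOrder.Language.{0, 0} := ⟨fun _ => Empty, Rl⟩

abbrev Cfg (n : ℕ) : Type := Finset (Fin n) × (Fin n → Finset (Fin n × Fin n))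

def relOf {n : ℕ} (x : Cfg n) : {k : ℕ} → Rl k → (Fin k → Fin n) → Prop
  | _, Rl.P, v => v 0 ∈ x.1
  | _, Rl.T, v => (v 1, v 2) ∈ x.2 (v 0)

@[reducible] def str {n : ℕ} (x : Cfg n) : L.Structure (Fin n) where
  funMap := fun f => Empty.elim f
  RelMap := fun r v => relOf x r v

noncomputable def unstr {n : ℕ} (M : L.Structure (Fin n)) : Cfg n := by
  classical
  exact (Finset.univ.filter fun a => M.RelMap (Rl.P : L.Relations 1) ![a],
    fun c => Finset.univ.filter fun p => M.RelMap (Rl.T : L.Relations 3) ![c, p.1, p.2])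

noncomputable def eqv (n : ℕ) : Cfg n ≃ L.Structure (Fin n) where
  toFun := str
  invFun := unstr
  left_inv := by
    rintro ⟨A, T⟩
    unfold unstr
    refine Prod.ext ?_ ?_
    · ext a
      simp only [Finset.mem_filter, Finset.mem_univ, true_and]
      exact Iff.rfl
    · funext c
      ext p
      simp only [Finset.mem_filter, Finset.mem_univ, true_and]
      exact Iff.rfl
  right_inv := by
    intro M
    apply Structure.ext
    · funext k f
      exact Empty.elim f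
    · funext k r v
      apply propext
      cases r with
      | P =>
        show v 0 ∈ (unstr M).1 ↔ _
        unfold unstr
        simp only [Finset.mem_filter, Finset.mem_univ, true_and]
        have : ![v 0] = v := by
          funext i; fin_cases i; rfl
        rw [this]
      | T =>
        show (v 1, v 2) ∈ (unstr M).2 (v 0) ↔ _
        unfold unstr
        simp only [Finset.mem_filter, Finset.mem_univ, true_and]
        have : ![v 0, v 1, v 2] = v := by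
          funext i; fin_cases i <;> rfl
        rw [this]

/-- No triple of elements of `P` in `T`. -/
def Free {n : ℕ} (x : Cfg n) : Prop := ∀ c ∈ x.1, Disjoint (x.2 c) (x.1 ×ˢ x.1)

/-- The forbidden structure. -/
@[reducible] def forb : L.Structure (Fin 3) := str (Finset.univ, fun c => if c = 0 then {(1, 2)} else ∅)

theorem forb_iff {n : ℕ} (x : Cfg n) :
    IsEmpty (@FirstOrder.Language.Hom L (Fin 3) (Fin n) forb (str x)) ↔ Free x := by
  constructor
  · intro h c hc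
    rw [Finset.disjoint_left]
    rintro ⟨a, b⟩ hab hab'
    rw [Finset.mem_product] at hab'
    refine h.false ?_
    refine @FirstOrder.Language.Hom.mk L (Fin 3) (Fin n) forb (str x) ![c, a, b] ?_ ?_
    · intro k f
      exact Empty.elim f
    · intro k r v hv
      cases r with
      | P =>
        show ![c, a, b] (v 0) ∈ x.1
        generalize v 0 = i
        fin_cases i
        · exact hc
        · exact hab'.1
        · exact hab'.2
      | T =>
        show (![c, a, b] (v 1), ![c, a, b] (v 2)) ∈ x.2 (![c, a, b] (v 0))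
        have hv' : (v 1, v 2) ∈ (if v 0 = (0 : Fin 3) then ({(1, 2)} : Finset (Fin 3 × Fin 3)) else ∅) := hv
        split_ifs at hv' with h0
        · rw [Finset.mem_singleton, Prod.mk.injEq] at hv'
          rw [h0, hv'.1, hv'.2]
          exact hab
        · exact absurd hv' (Finset.notMem_empty _)
  · intro h
    refine ⟨fun f => ?_⟩
    let _ := forb
    let _ := str x
    have hP : ∀ i : Fin 3, f i ∈ x.1 := by
      intro i
      exact f.map_rel (Rl.P : L.Relations 1) ![i] (Finset.mem_univ _)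
    have hT : (f 1, f 2) ∈ x.2 (f 0) := by
      refine f.map_rel (Rl.T : L.Relations 3) ![0, 1, 2] ?_
      show ((1 : Fin 3), (2 : Fin 3)) ∈ (if (0 : Fin 3) = 0 then ({(1, 2)} : Finset (Fin 3 × Fin 3)) else ∅)
      simp
    exact Finset.disjoint_left.1 (h (f 0) (hP 0)) hT (Finset.mem_product.2 ⟨hP 1, hP 2⟩)

/-! ### The sentence -/

def vP {k : ℕ} (i : Fin k) : L.BoundedFormula Empty k :=
  BoundedFormula.rel (Rl.P : L.Relations 1) ![Term.var (Sum.inr i)]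

def vT {k : ℕ} (c i j : Fin k) : L.BoundedFormula Empty k :=
  BoundedFormula.rel (Rl.T : L.Relations 3)
    ![Term.var (Sum.inr c), Term.var (Sum.inr i), Term.var (Sum.inr j)]

def vE {k : ℕ} (i j : Fin k) : L.BoundedFormula Empty k :=
  Term.bdEqual (Term.var (Sum.inr i)) (Term.var (Sum.inr j))

def zpart : L.BoundedFormula Empty 3 :=
  BoundedFormula.all ((vP (k := 4) 3).imp ((vT (k := 4) 0 1 3).imp (vE (k := 4) 3 2)))

def ypart : L.BoundedFormula Empty 2 :=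
  BoundedFormula.ex ((vP (k := 3) 2) ⊓ ((vE (k := 3) 1 2).not ⊓
    ((vT (k := 3) 0 1 2) ⊓ ((vT (k := 3) 0 2 1) ⊓ zpart))))

def phi : L.Sentence :=
  BoundedFormula.ex (BoundedFormula.all ((vP (k := 2) 1).imp ypart))

/-- The meaning of the sentence. -/
def Phi {n : ℕ} (x : Cfg n) : Prop :=
  ∃ c, ∀ a, a ∈ x.1 → ∃ b, b ∈ x.1 ∧ a ≠ b ∧ (a, b) ∈ x.2 c ∧ (b, a) ∈ x.2 c ∧
    ∀ z, z ∈ x.1 → (a, z) ∈ x.2 c → z = b

theorem real_P {n : ℕ} (x : Cfg n) {k : ℕ} (i : Fin k) (v : Empty → Fin n) (xs : Fin k → Fin n) :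
    @BoundedFormula.Realize L (Fin n) (str x) _ _ (vP i) v xs ↔ xs i ∈ x.1 := Iff.rfl

theorem real_T {n : ℕ} (x : Cfg n) {k : ℕ} (c i j : Fin k) (v : Empty → Fin n)
    (xs : Fin k → Fin n) :
    @BoundedFormula.Realize L (Fin n) (str x) _ _ (vT c i j) v xs ↔ (xs i, xs j) ∈ x.2 (xs c) :=
  Iff.rfl

theorem real_E {n : ℕ} (x : Cfg n) {k : ℕ} (i j : Fin k) (v : Empty → Fin n)
    (xs : Fin k → Fin n) :
    @BoundedFormula.Realize L (Fin n) (str x) _ _ (vE i j) v xs ↔ xs i = xs j := Iff.rfl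

theorem phi_iff {n : ℕ} (x : Cfg n) :
    @Sentence.Realize L (Fin n) (str x) phi ↔ Phi x := by
  let _ := str x
  unfold Sentence.Realize Formula.Realize phi Phi
  rw [BoundedFormula.realize_ex]
  refine exists_congr fun c => ?_
  rw [BoundedFormula.realize_all]
  refine forall_congr' fun a => ?_
  rw [BoundedFormula.realize_imp]
  refine imp_congr Iff.rfl ?_
  unfold ypart
  rw [BoundedFormula.realize_ex]
  refine exists_congr fun b => ?_
  rw [BoundedFormula.realize_inf, BoundedFormula.realize_inf, BoundedFormula.realize_inf,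
    BoundedFormula.realize_inf, BoundedFormula.realize_not]
  refine and_congr Iff.rfl (and_congr Iff.rfl (and_congr Iff.rfl (and_congr Iff.rfl ?_)))
  unfold zpart
  rw [BoundedFormula.realize_all]
  refine forall_congr' fun z => ?_
  rw [BoundedFormula.realize_imp, BoundedFormula.realize_imp]
  exact Iff.rfl

/-! ### Geometric decay -/

theorem sum_low (f : ℕ → ℝ) (q : ℝ) (hq : 0 ≤ q) (hq2 : q ≤ 1 / 2) (a : ℕ) (hf : ∀ k, 0 ≤ f k)
    (h : ∀ j < a, f j ≤ q * f (j + 1)) : ∀ b ≤ a, ∑ k ∈ Finset.range b, f k ≤ 2 * q * f b := by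
  intro b
  induction b with
  | zero =>
    intro _
    simp only [Finset.range_zero, Finset.sum_empty]
    have := hf 0
    positivity
  | succ b ih =>
    intro hb
    rw [Finset.sum_range_succ]
    have h1 := ih (by omega)
    have h2 := h b (by omega)
    have h3 := hf b
    nlinarith [hf (b + 1), mul_nonneg hq h3]

theorem sum_high (f : ℕ → ℝ) (q : ℝ) (hq2 : q ≤ 1 / 2) (a : ℕ)
    (hf : ∀ k, 0 ≤ f k) (h : ∀ j, a ≤ j → f (j + 1) ≤ q * f j) :
    ∀ N m, a ≤ m → ∑ i ∈ Finset.range N, f (m + i) ≤ 2 * f m := by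
  intro N
  induction N with
  | zero =>
    intro m _
    simp only [Finset.range_zero, Finset.sum_empty]
    have := hf m
    positivity
  | succ N ih =>
    intro m hm
    rw [Finset.sum_range_succ']
    have h1 := ih (m + 1) (by omega)
    have h2 := h m hm
    have h3 := hf m
    have h4 : ∑ i ∈ Finset.range N, f (m + (i + 1)) = ∑ i ∈ Finset.range N, f (m + 1 + i) := by
      refine Finset.sum_congr rfl fun i _ => ?_
      congr 1
      omega
    rw [h4]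
    simp only [Nat.add_zero]
    nlinarith

theorem sum_off (f : ℕ → ℝ) (q : ℝ) (hq : 0 ≤ q) (hq2 : q ≤ 1 / 2) (a : ℕ) (hf : ∀ k, 0 ≤ f k)
    (h1 : ∀ j < a, f j ≤ q * f (j + 1)) (h2 : ∀ j, a ≤ j → f (j + 1) ≤ q * f j) (N : ℕ) :
    ∑ k ∈ (Finset.range N).filter (fun k => k ≠ a), f k ≤ 4 * q * f a := by
  have h3 := sum_low f q hq hq2 a hf h1 a le_rfl
  have h4 := sum_high f q hq2 a hf h2 N (a + 1) (by omega)
  have h5 := h2 a le_rfl
  have h6 : (Finset.range N).filter (fun k => k ≠ a) ⊆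
      Finset.range a ∪ (Finset.range N).image (fun i => a + 1 + i) := by
    intro k hk
    rw [Finset.mem_filter, Finset.mem_range] at hk
    rw [Finset.mem_union, Finset.mem_range, Finset.mem_image]
    by_cases h : k < a
    · exact Or.inl h
    · refine Or.inr ⟨k - (a + 1), ?_, ?_⟩
      · rw [Finset.mem_range]; omega
      · omega
  calc ∑ k ∈ (Finset.range N).filter (fun k => k ≠ a), f k
      ≤ ∑ k ∈ Finset.range a ∪ (Finset.range N).image (fun i => a + 1 + i), f k :=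
        Finset.sum_le_sum_of_subset_of_nonneg h6 (fun k _ _ => hf k)
    _ ≤ ∑ k ∈ Finset.range a, f k + ∑ k ∈ (Finset.range N).image (fun i => a + 1 + i), f k := by
        rw [← Finset.sum_union_inter]
        have : 0 ≤ ∑ k ∈ Finset.range a ∩ (Finset.range N).image (fun i => a + 1 + i), f k :=
          Finset.sum_nonneg fun k _ => hf k
        linarith
    _ = ∑ k ∈ Finset.range a, f k + ∑ i ∈ Finset.range N, f (a + 1 + i) := by
        rw [Finset.sum_image]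
        intro i _ j _ hij
        simpa using hij
    _ ≤ 4 * q * f a := by nlinarith

/-! ### The sizes of `P` -/

noncomputable def Wt (n k : ℕ) : ℝ := (n.choose k : ℝ) / 2 ^ (k ^ 3)

theorem Wt_nonneg (n k : ℕ) : 0 ≤ Wt n k := by unfold Wt; positivity

theorem Wt_step (n j : ℕ) :
    Wt n (j + 1) * ((j + 1) * 2 ^ (3 * j ^ 2 + 3 * j + 1)) = Wt n j * ((n - j : ℕ) : ℝ) := by
  unfold Wt
  have h1 : ((n.choose (j + 1) : ℝ)) * (j + 1) = (n.choose j : ℝ) * ((n - j : ℕ) : ℝ) := by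
    have := Nat.choose_succ_right_eq n j
    exact_mod_cast this
  have h2 : (2 : ℝ) ^ ((j + 1) ^ 3) = 2 ^ (j ^ 3) * 2 ^ (3 * j ^ 2 + 3 * j + 1) := by
    rw [← pow_add]
    congr 1
    ring
  rw [h2]
  field_simp
  linarith [h1]

theorem Wt_up (a j : ℕ) (hj : a ≤ j) :
    Wt (2 ^ (3 * a ^ 2)) (j + 1) ≤ (1 / 2 ^ a) * Wt (2 ^ (3 * a ^ 2)) j := by
  have h1 := Wt_step (2 ^ (3 * a ^ 2)) j
  have h2 : (((2 ^ (3 * a ^ 2) : ℕ) - j : ℕ) : ℝ) ≤ 2 ^ (3 * a ^ 2) := by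
    have : (2 ^ (3 * a ^ 2) : ℕ) - j ≤ 2 ^ (3 * a ^ 2) := Nat.sub_le _ _
    exact_mod_cast this
  have h3 : (2 : ℝ) ^ (3 * a ^ 2) * 2 ^ a ≤ (j + 1) * 2 ^ (3 * j ^ 2 + 3 * j + 1) := by
    rw [← pow_add]
    have h4 : (2 : ℝ) ^ (3 * a ^ 2 + a) ≤ 2 ^ (3 * j ^ 2 + 3 * j + 1) := by
      apply pow_le_pow_right₀ (by norm_num)
      nlinarith
    have h5 : (1 : ℝ) ≤ (j + 1 : ℝ) := by
      have : (0 : ℝ) ≤ j := Nat.cast_nonneg j
      linarith
    calc (2 : ℝ) ^ (3 * a ^ 2 + a) ≤ 1 * 2 ^ (3 * j ^ 2 + 3 * j + 1) := by rw [one_mul]; exact h4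
      _ ≤ _ := by gcongr
  have h6 := Wt_nonneg (2 ^ (3 * a ^ 2)) j
  have h7 := Wt_nonneg (2 ^ (3 * a ^ 2)) (j + 1)
  have h8 : (0 : ℝ) < 2 ^ (3 * a ^ 2) := by positivity
  have h9 : (0 : ℝ) < 2 ^ a := by positivity
  have h10 : Wt (2 ^ (3 * a ^ 2)) (j + 1) * (2 ^ (3 * a ^ 2) * 2 ^ a) ≤
      Wt (2 ^ (3 * a ^ 2)) j * 2 ^ (3 * a ^ 2) :=
    calc _ ≤ Wt (2 ^ (3 * a ^ 2)) (j + 1) * ((j + 1) * 2 ^ (3 * j ^ 2 + 3 * j + 1)) := by gcongr
      _ = _ := h1
      _ ≤ _ := by gcongr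
  rw [one_div, inv_mul_eq_div, le_div_iff₀ h9]
  have h11 : (Wt (2 ^ (3 * a ^ 2)) (j + 1) * 2 ^ a) * 2 ^ (3 * a ^ 2) ≤
      Wt (2 ^ (3 * a ^ 2)) j * 2 ^ (3 * a ^ 2) := by
    calc _ = Wt (2 ^ (3 * a ^ 2)) (j + 1) * (2 ^ (3 * a ^ 2) * 2 ^ a) := by ring
      _ ≤ _ := h10
  exact le_of_mul_le_mul_right h11 h8

theorem two_mul_le_pow (a : ℕ) (ha : 2 ≤ a) : 2 * a ≤ 2 ^ (3 * a ^ 2) := by
  have h1 : a < 2 ^ a := Nat.lt_two_pow_self
  calc 2 * a ≤ 2 * 2 ^ a := by omega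
    _ = 2 ^ (a + 1) := by ring
    _ ≤ 2 ^ (3 * a ^ 2) := Nat.pow_le_pow_right (by norm_num) (by nlinarith)

theorem Wt_down (a j : ℕ) (ha : 2 ≤ a) (hj : j < a) :
    Wt (2 ^ (3 * a ^ 2)) j ≤ (1 / 2 ^ (a - 2)) * Wt (2 ^ (3 * a ^ 2)) (j + 1) := by
  have h1 := Wt_step (2 ^ (3 * a ^ 2)) j
  have h0 := two_mul_le_pow a ha
  have h2 : (2 : ℝ) ^ (3 * a ^ 2) ≤ 2 * (((2 ^ (3 * a ^ 2) : ℕ) - j : ℕ) : ℝ) := by
    have : 2 ^ (3 * a ^ 2) ≤ 2 * ((2 ^ (3 * a ^ 2) : ℕ) - j) := by omega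
    exact_mod_cast this
  have h3 : ((j : ℝ) + 1) * 2 ^ (3 * j ^ 2 + 3 * j + 1) * 2 ^ (a - 2) * 2 ≤ 2 ^ (3 * a ^ 2) := by
    have h4 : (j + 1) * 2 ^ (3 * j ^ 2 + 3 * j + 1) * 2 ^ (a - 2) * 2 ≤ 2 ^ (3 * a ^ 2) := by
      have h5 : j + 1 ≤ 2 ^ a := by
        have h6 : a < 2 ^ a := Nat.lt_two_pow_self
        omega
      calc (j + 1) * 2 ^ (3 * j ^ 2 + 3 * j + 1) * 2 ^ (a - 2) * 2
          ≤ 2 ^ a * 2 ^ (3 * j ^ 2 + 3 * j + 1) * 2 ^ (a - 2) * 2 := by gcongr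
        _ = 2 ^ (a + (3 * j ^ 2 + 3 * j + 1) + (a - 2) + 1) := by
            simp only [pow_add, pow_one]
        _ ≤ 2 ^ (3 * a ^ 2) := by
            apply Nat.pow_le_pow_right (by norm_num)
            obtain ⟨b, rfl⟩ : ∃ b, a = b + 2 := ⟨a - 2, by omega⟩
            have h7 : j ≤ b + 1 := by omega
            have h8 : j ^ 2 ≤ (b + 1) ^ 2 := Nat.pow_le_pow_left h7 2
            have h9 : b + 2 - 2 = b := by omega
            rw [h9]
            nlinarith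
    exact_mod_cast h4
  have h6 := Wt_nonneg (2 ^ (3 * a ^ 2)) j
  have h7 := Wt_nonneg (2 ^ (3 * a ^ 2)) (j + 1)
  have h8 : (0 : ℝ) < 2 ^ (3 * a ^ 2) := by positivity
  have h9 : (0 : ℝ) < 2 ^ (a - 2) := by positivity
  rw [one_div, inv_mul_eq_div, le_div_iff₀ h9]
  have h11 : (Wt (2 ^ (3 * a ^ 2)) j * 2 ^ (a - 2)) * 2 ^ (3 * a ^ 2) ≤
      Wt (2 ^ (3 * a ^ 2)) (j + 1) * 2 ^ (3 * a ^ 2) := by
    calc (Wt (2 ^ (3 * a ^ 2)) j * 2 ^ (a - 2)) * 2 ^ (3 * a ^ 2)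
        ≤ (Wt (2 ^ (3 * a ^ 2)) j * 2 ^ (a - 2)) *
          (2 * (((2 ^ (3 * a ^ 2) : ℕ) - j : ℕ) : ℝ)) := by gcongr
      _ = (Wt (2 ^ (3 * a ^ 2)) j * (((2 ^ (3 * a ^ 2) : ℕ) - j : ℕ) : ℝ)) *
          (2 ^ (a - 2) * 2) := by ring
      _ = Wt (2 ^ (3 * a ^ 2)) (j + 1) *
          ((j + 1) * 2 ^ (3 * j ^ 2 + 3 * j + 1) * 2 ^ (a - 2) * 2) := by rw [← h1]; ring
      _ ≤ _ := by gcongr
  exact le_of_mul_le_mul_right h11 h8

theorem Wt_off (a : ℕ) (ha : 3 ≤ a) (N : ℕ) :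
    ∑ k ∈ (Finset.range N).filter (fun k => k ≠ a), Wt (2 ^ (3 * a ^ 2)) k ≤
      4 * (1 / 2 ^ (a - 2)) * Wt (2 ^ (3 * a ^ 2)) a := by
  apply sum_off _ _ (by positivity)
  · have : (2 : ℝ) ^ 1 ≤ 2 ^ (a - 2) := pow_le_pow_right₀ (by norm_num) (by omega)
    rw [pow_one] at this
    exact one_div_le_one_div_of_le (by norm_num) this
  · exact fun k => Wt_nonneg _ _
  · exact fun j hj => Wt_down a j (by omega) hj
  · intro j hj
    refine (Wt_up a j hj).trans ?_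
    have h1 := Wt_nonneg (2 ^ (3 * a ^ 2)) j
    have h2 : (1 : ℝ) / 2 ^ a ≤ 1 / 2 ^ (a - 2) := by
      apply one_div_le_one_div_of_le (by positivity)
      exact pow_le_pow_right₀ (by norm_num) (by omega)
    gcongr

/-! ### Counting the relations -/

section Count
open Finset

variable {n : ℕ}

def Z (A : Finset (Fin n)) : Finset (Finset (Fin n × Fin n)) :=
  univ.filter (fun ρ => Disjoint ρ (A ×ˢ A))

theorem card_compl' (A : Finset (Fin n)) : ((A ×ˢ A)ᶜ : Finset (Fin n × Fin n)).card =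
    n ^ 2 - A.card ^ 2 := by
  rw [card_compl, Fintype.card_prod, Fintype.card_fin, card_product]
  ring_nf

theorem card_Z (A : Finset (Fin n)) : (Z A).card = 2 ^ (n ^ 2 - A.card ^ 2) := by
  have h : Z A = ((A ×ˢ A)ᶜ : Finset (Fin n × Fin n)).powerset := by
    ext ρ
    unfold Z
    rw [mem_filter, mem_powerset, subset_compl_iff_disjoint_right]
    simp
  rw [h, card_powerset, card_compl']

def Y (A : Finset (Fin n)) (E : Finset (Fin n × Fin n)) : Finset (Finset (Fin n × Fin n)) :=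
  univ.filter (fun ρ => ρ ∩ (A ×ˢ A) = E)

theorem card_Y (A : Finset (Fin n)) (E : Finset (Fin n × Fin n)) (hE : E ⊆ A ×ˢ A) :
    (Y A E).card = 2 ^ (n ^ 2 - A.card ^ 2) := by
  rw [← card_compl', ← card_powerset]
  refine card_nbij' (fun ρ => ρ \ (A ×ˢ A)) (fun ρ => ρ ∪ E) ?_ ?_ ?_ ?_
  · intro ρ _
    rw [mem_coe, mem_powerset]
    intro x hx
    rw [mem_compl]
    exact (mem_sdiff.1 hx).2
  · intro ρ hρ
    rw [mem_coe, mem_powerset] at hρ
    unfold Y
    rw [mem_coe, mem_filter]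
    refine ⟨mem_univ _, ?_⟩
    ext x
    rw [mem_inter, mem_union]
    constructor
    · rintro ⟨h1 | h1, h2⟩
      · exact absurd h2 (mem_compl.1 (hρ h1))
      · exact h1
    · intro h; exact ⟨Or.inr h, hE h⟩
  · intro ρ hρ
    unfold Y at hρ
    rw [mem_coe, mem_filter] at hρ
    ext x
    show x ∈ ρ \ (A ×ˢ A) ∪ E ↔ _
    rw [← hρ.2, mem_union, mem_sdiff, mem_inter]
    tauto
  · intro ρ hρ
    rw [mem_coe, mem_powerset] at hρ
    ext x
    show x ∈ (ρ ∪ E) \ (A ×ˢ A) ↔ _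
    rw [mem_sdiff, mem_union]
    constructor
    · rintro ⟨h1 | h1, h2⟩
      · exact h1
      · exact absurd (hE h1) h2
    · intro h; exact ⟨Or.inl h, mem_compl.1 (hρ h)⟩

/-- The families `T` with `Free (A, T)`. -/
def TotA (A : Finset (Fin n)) : Finset (Fin n → Finset (Fin n × Fin n)) :=
  Fintype.piFinset (fun c => if c ∈ A then Z A else univ)

/-- The families that moreover code `E` nowhere outside of `A`. -/
def BadA (A : Finset (Fin n)) (E : Finset (Fin n × Fin n)) :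
    Finset (Fin n → Finset (Fin n × Fin n)) :=
  Fintype.piFinset (fun c => if c ∈ A then Z A else (Y A E)ᶜ)

theorem prod_split (A : Finset (Fin n)) (u v : ℕ) :
    (∏ c : Fin n, if c ∈ A then u else v) = u ^ A.card * v ^ (n - A.card) := by
  rw [prod_ite, prod_const, prod_const]
  congr 2
  · congr 1
    ext x; simp
  · have : (univ.filter fun x => x ∉ A) = Aᶜ := by ext x; simp
    rw [this, card_compl, Fintype.card_fin]

theorem card_rel : Fintype.card (Finset (Fin n × Fin n)) = 2 ^ (n ^ 2) := by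
  rw [Fintype.card_finset, Fintype.card_prod, Fintype.card_fin]
  ring_nf

theorem card_TotA (A : Finset (Fin n)) :
    (TotA A).card = (2 ^ (n ^ 2 - A.card ^ 2)) ^ A.card * (2 ^ (n ^ 2)) ^ (n - A.card) := by
  unfold TotA
  rw [Fintype.card_piFinset, ← prod_split]
  refine prod_congr rfl fun c _ => ?_
  split_ifs
  · exact card_Z A
  · rw [card_univ, card_rel]

theorem card_BadA (A : Finset (Fin n)) (E : Finset (Fin n × Fin n)) (hE : E ⊆ A ×ˢ A) :
    (BadA A E).card = (2 ^ (n ^ 2 - A.card ^ 2)) ^ A.card *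
      (2 ^ (n ^ 2) - 2 ^ (n ^ 2 - A.card ^ 2)) ^ (n - A.card) := by
  unfold BadA
  rw [Fintype.card_piFinset, ← prod_split]
  refine prod_congr rfl fun c _ => ?_
  split_ifs
  · exact card_Z A
  · rw [card_compl, card_rel, card_Y A E hE]

theorem real_pow (a : ℕ) (ha : a ≤ n) :
    ((2 : ℝ) ^ (n ^ 2 - a ^ 2)) = 2 ^ (n ^ 2) / 2 ^ (a ^ 2) := by
  rw [eq_div_iff (by positivity), ← pow_add, Nat.sub_add_cancel (Nat.pow_le_pow_left ha 2)]

/-- The number of all families. -/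
noncomputable def KK (n : ℕ) : ℝ := ((2 : ℝ) ^ (n ^ 2)) ^ n

theorem KK_pos (n : ℕ) : 0 < KK n := by unfold KK; positivity

theorem card_le (A : Finset (Fin n)) : A.card ≤ n := by
  simpa using card_le_univ A

theorem real_TotA (A : Finset (Fin n)) : ((TotA A).card : ℝ) = KK n / 2 ^ (A.card ^ 3) := by
  have hA := card_le A
  rw [card_TotA]
  push_cast
  rw [real_pow _ hA, div_pow]
  unfold KK
  have h1 : ((2 : ℝ) ^ (n ^ 2)) ^ n = (2 ^ (n ^ 2)) ^ A.card * (2 ^ (n ^ 2)) ^ (n - A.card) := by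
    rw [← pow_add, Nat.add_sub_cancel' hA]
  have h2 : ((2 : ℝ) ^ (A.card ^ 2)) ^ A.card = 2 ^ (A.card ^ 3) := by
    rw [← pow_mul]
    congr 1
  rw [h1, h2]
  ring

theorem real_BadA (A : Finset (Fin n)) (E : Finset (Fin n × Fin n)) (hE : E ⊆ A ×ˢ A) :
    ((BadA A E).card : ℝ) =
      KK n / 2 ^ (A.card ^ 3) * (1 - 1 / 2 ^ (A.card ^ 2)) ^ (n - A.card) := by
  have hA := card_le A
  rw [card_BadA A E hE]
  have h0 : 2 ^ (n ^ 2 - A.card ^ 2) ≤ 2 ^ (n ^ 2) :=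
    Nat.pow_le_pow_right (by norm_num) (Nat.sub_le _ _)
  rw [Nat.cast_mul, Nat.cast_pow, Nat.cast_pow _ (n - A.card), Nat.cast_sub h0]
  push_cast
  rw [real_pow _ hA, div_pow]
  unfold KK
  have h1 : ((2 : ℝ) ^ (n ^ 2)) ^ n = (2 ^ (n ^ 2)) ^ A.card * (2 ^ (n ^ 2)) ^ (n - A.card) := by
    rw [← pow_add, Nat.add_sub_cancel' hA]
  have h2 : ((2 : ℝ) ^ (A.card ^ 2)) ^ A.card = 2 ^ (A.card ^ 3) := by
    rw [← pow_mul]
    congr 1
  have h3 : ((2 : ℝ) ^ (n ^ 2) - 2 ^ (n ^ 2) / 2 ^ (A.card ^ 2)) =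
      2 ^ (n ^ 2) * (1 - 1 / 2 ^ (A.card ^ 2)) := by ring
  rw [h1, h2, h3, mul_pow]
  ring

theorem sum_card (g : ℕ → ℝ) : ∑ A : Finset (Fin n), g A.card =
    ∑ k ∈ range (n + 1), (n.choose k : ℝ) * g k := by
  have h := sum_powerset_apply_card g (x := (univ : Finset (Fin n)))
  rw [card_univ, Fintype.card_fin] at h
  simp only [nsmul_eq_mul] at h
  rw [← h, powerset_univ]

theorem sum_card_off (a : ℕ) : ∑ A : Finset (Fin n), (if A.card = a then (0 : ℝ) else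
    KK n / 2 ^ (A.card ^ 3)) =
    KK n * ∑ k ∈ (range (n + 1)).filter (fun k => k ≠ a), Wt n k := by
  rw [sum_card (fun k => if k = a then (0 : ℝ) else KK n / 2 ^ (k ^ 3)), sum_filter, mul_sum]
  refine sum_congr rfl fun k _ => ?_
  unfold Wt
  by_cases h : k = a
  · simp [h]
  · rw [if_neg h, if_pos h]
    ring

theorem sum_card_at (a : ℕ) (ha : a ≤ n) : ∑ A : Finset (Fin n), (if A.card = a then
    KK n / 2 ^ (A.card ^ 3) else (0 : ℝ)) = KK n * Wt n a := by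
  rw [sum_card (fun k => if k = a then KK n / 2 ^ (k ^ 3) else (0 : ℝ))]
  rw [sum_eq_single a]
  · rw [if_pos rfl]
    unfold Wt
    ring
  · intro b _ hb
    rw [if_neg hb, mul_zero]
  · intro h
    exact absurd (mem_range.2 (by omega)) h

end Count

/-! ### The parity -/

section Parity
open Finset

variable {n : ℕ}

theorem even_of_Phi (x : Cfg n) (h : Phi x) : Even x.1.card := by
  obtain ⟨c, hc⟩ := h
  choose b hb1 hb2 hb3 hb4 hb5 using hc
  have h1 : ∑ _a ∈ x.1, (1 : ZMod 2) = 0 := by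
    refine sum_involution (fun a ha => b a ha) ?_ ?_ ?_ ?_
    · intro a ha; decide
    · intro a ha _
      exact (hb2 a ha).symm
    · intro a ha
      exact hb1 a ha
    · intro a ha
      exact (hb5 _ _ a ha (hb4 a ha)).symm
  rw [sum_const, nsmul_eq_mul, mul_one] at h1
  exact (ZMod.natCast_eq_zero_iff_even).1 h1

theorem exists_matching (A : Finset (Fin n)) (hA : Even A.card) :
    ∃ E ⊆ A ×ˢ A, ∀ a ∈ A, ∃ b ∈ A, a ≠ b ∧ (a, b) ∈ E ∧ (b, a) ∈ E ∧
      ∀ z ∈ A, (a, z) ∈ E → z = b := by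
  obtain ⟨m, hm⟩ := hA
  have hcard : Fintype.card A = Fintype.card (Fin m × Bool) := by
    rw [Fintype.card_coe, Fintype.card_prod, Fintype.card_fin, Fintype.card_bool, hm]
    omega
  let e : A ≃ Fin m × Bool := Fintype.equivOfCardEq hcard
  let σ : A → A := fun a => e.symm ((e a).1, !(e a).2)
  have hσσ : ∀ a, σ (σ a) = a := by
    intro a
    simp [σ]
  have hσ : ∀ a, σ a ≠ a := by
    intro a h
    have h1 := congrArg e h
    simp only [σ, Equiv.apply_symm_apply] at h1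
    have h2 := congrArg Prod.snd h1
    simp at h2
  refine ⟨univ.image (fun a : A => ((a : Fin n), (σ a : Fin n))), ?_, ?_⟩
  · intro p hp
    rw [mem_image] at hp
    obtain ⟨a, -, rfl⟩ := hp
    exact mem_product.2 ⟨a.2, (σ a).2⟩
  · intro a ha
    refine ⟨σ ⟨a, ha⟩, (σ ⟨a, ha⟩).2, ?_, ?_, ?_, ?_⟩
    · intro h
      exact hσ ⟨a, ha⟩ (Subtype.ext h.symm)
    · exact mem_image.2 ⟨⟨a, ha⟩, mem_univ _, rfl⟩
    · refine mem_image.2 ⟨σ ⟨a, ha⟩, mem_univ _, ?_⟩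
      rw [hσσ]
    · intro z hz hp
      rw [mem_image] at hp
      obtain ⟨y, -, hy⟩ := hp
      rw [Prod.mk.injEq] at hy
      have h1 : y = ⟨a, ha⟩ := Subtype.ext hy.1
      rw [← hy.2, h1]

theorem free_iff (A : Finset (Fin n)) (T : Fin n → Finset (Fin n × Fin n)) :
    Free (A, T) ↔ T ∈ TotA A := by
  unfold Free TotA
  rw [Fintype.mem_piFinset]
  refine forall_congr' fun c => ?_
  show (c ∈ A → Disjoint (T c) (A ×ˢ A)) ↔ _
  by_cases hc : c ∈ A
  · rw [if_pos hc]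
    unfold Z
    rw [mem_filter]
    simp [hc]
  · rw [if_neg hc]
    simp [hc]

theorem mem_bad (A : Finset (Fin n)) (E : Finset (Fin n × Fin n))
    (hE : ∀ a ∈ A, ∃ b ∈ A, a ≠ b ∧ (a, b) ∈ E ∧ (b, a) ∈ E ∧ ∀ z ∈ A, (a, z) ∈ E → z = b)
    (T : Fin n → Finset (Fin n × Fin n)) (hf : Free (A, T)) (hp : ¬ Phi (A, T)) :
    T ∈ BadA A E := by
  rw [free_iff] at hf
  unfold TotA at hf
  unfold BadA
  rw [Fintype.mem_piFinset] at hf ⊢
  intro c
  have h1 := hf c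
  by_cases hc : c ∈ A
  · rw [if_pos hc] at h1 ⊢
    exact h1
  · rw [if_neg hc, mem_compl]
    intro hY
    unfold Y at hY
    rw [mem_filter] at hY
    apply hp
    refine ⟨c, fun a ha => ?_⟩
    obtain ⟨b, hb, h2, h3, h4, h5⟩ := hE a ha
    rw [← hY.2] at h3 h4 h5
    refine ⟨b, hb, h2, (mem_inter.1 h3).1, (mem_inter.1 h4).1, fun z hz hz' => ?_⟩
    exact h5 z hz (mem_inter.2 ⟨hz', mem_product.2 ⟨ha, hz⟩⟩)

/-- The sentence holds. -/
def GP (x : Cfg n) : Prop := Free x ∧ Phi x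

/-- The sentence fails. -/
def BP (x : Cfg n) : Prop := Free x ∧ ¬ Phi x

open Classical in
/-- The number of the configurations with a property. -/
noncomputable def cnt (n : ℕ) (p : Cfg n → Prop) : ℕ := (univ.filter p).card

open Classical in
theorem cnt_eq (p : Cfg n → Prop) :
    (cnt n p : ℝ) = ∑ A : Finset (Fin n),
      ((univ.filter (fun T : Fin n → Finset (Fin n × Fin n) => p (A, T))).card : ℝ) := by
  unfold cnt
  rw [card_filter, Fintype.sum_prod_type]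
  push_cast
  refine sum_congr rfl fun A _ => ?_
  rw [card_filter]
  push_cast
  rfl

open Classical in
theorem tot_fiber (A : Finset (Fin n)) :
    univ.filter (fun T : Fin n → Finset (Fin n × Fin n) => Free (A, T)) = TotA A := by
  ext T
  rw [mem_filter, free_iff]
  simp

theorem cnt_tot : (cnt n Free : ℝ) = KK n * ∑ k ∈ range (n + 1), Wt n k := by
  classical
  rw [cnt_eq, mul_sum]
  have h1 : ∀ A : Finset (Fin n),
      ((univ.filter (fun T : Fin n → Finset (Fin n × Fin n) => Free (A, T))).card : ℝ) =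
      KK n / 2 ^ (A.card ^ 3) := by
    intro A
    rw [← real_TotA]
    congr 2
    convert tot_fiber A
  rw [sum_congr rfl (fun A _ => h1 A), sum_card (fun k => KK n / 2 ^ (k ^ 3))]
  refine sum_congr rfl fun k _ => ?_
  unfold Wt
  ring

theorem cnt_tot_ge (a : ℕ) (ha : a ≤ n) : KK n * Wt n a ≤ cnt n Free := by
  rw [cnt_tot]
  have hK := KK_pos n
  have h1 : Wt n a ≤ ∑ k ∈ range (n + 1), Wt n k :=
    single_le_sum (fun k _ => Wt_nonneg n k) (mem_range.2 (by omega))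
  exact mul_le_mul_of_nonneg_left h1 hK.le

theorem fiber_le (p : Cfg n → Prop) (hp : ∀ x, p x → Free x) (A : Finset (Fin n)) :
    ∀ (_inst : DecidablePred fun T : Fin n → Finset (Fin n × Fin n) => p (A, T)),
    ((univ.filter (fun T : Fin n → Finset (Fin n × Fin n) => p (A, T))).card : ℝ) ≤
      KK n / 2 ^ (A.card ^ 3) := by
  intro _inst
  rw [← real_TotA]
  have : univ.filter (fun T : Fin n → Finset (Fin n × Fin n) => p (A, T)) ⊆ TotA A := by
    intro T hT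
    rw [mem_filter] at hT
    exact (free_iff A T).1 (hp _ hT.2)
  exact_mod_cast card_le_card this

/-- For odd `a` few configurations satisfy the sentence. -/
theorem cnt_odd (a : ℕ) (ha : Odd a) :
    (cnt n GP : ℝ) ≤
      KK n * ∑ k ∈ (range (n + 1)).filter (fun k => k ≠ a), Wt n k := by
  classical
  rw [cnt_eq, ← sum_card_off]
  refine sum_le_sum fun A _ => ?_
  split_ifs with h
  · refine le_of_eq ?_
    rw [Nat.cast_eq_zero, card_eq_zero, filter_eq_empty_iff]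
    rintro T - ⟨-, h2⟩
    have h3 := even_of_Phi _ h2
    have h3' : Even A.card := h3
    rw [h] at h3'
    exact (Nat.not_even_iff_odd.2 ha) h3'
  · exact fiber_le GP (fun x hx => hx.1) A _

/-- For even `a` few configurations do not satisfy the sentence. -/
theorem cnt_even (a : ℕ) (ha : Even a) (han : a ≤ n) :
    (cnt n BP : ℝ) ≤
      KK n * (∑ k ∈ (range (n + 1)).filter (fun k => k ≠ a), Wt n k) +
      KK n * Wt n a * (1 - 1 / 2 ^ (a ^ 2)) ^ (n - a) := by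
  classical
  rw [cnt_eq, ← sum_card_off, ← sum_card_at a han, sum_mul, ← sum_add_distrib]
  refine sum_le_sum fun A _ => ?_
  by_cases h : A.card = a
  · rw [if_pos h, if_pos h, zero_add, ← h]
    obtain ⟨E, hE1, hE2⟩ := exists_matching A (by rw [h]; exact ha)
    rw [← real_BadA A E hE1]
    refine Nat.cast_le.2 (card_le_card ?_)
    intro T hT
    rw [mem_filter] at hT
    exact mem_bad A E hE2 T hT.2.1 hT.2.2
  · rw [if_neg h, if_neg h, zero_mul, add_zero]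
    exact fiber_le BP (fun x hx => hx.1) A _

theorem cnt_add : cnt n GP + cnt n BP =
    cnt n Free := by
  classical
  have h1 := card_filter_add_card_filter_not (s := univ.filter (Free (n := n))) Phi
  rw [filter_filter, filter_filter] at h1
  unfold cnt
  convert h1 <;> rfl

end Parity

/-! ### The bounds for the fractions -/

theorem one_sub_pow_le (x : ℝ) (hx0 : 0 < x) (hx1 : x ≤ 1) (m : ℕ) (y : ℝ) (hy : 0 < y)
    (hm : y ≤ m * x) : (1 - x) ^ m ≤ 1 / y := by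
  have h1 : (1 - x) ^ m * (1 + x) ^ m ≤ 1 := by
    rw [← mul_pow]
    apply pow_le_one₀
    · nlinarith
    · nlinarith
  have h2 : 1 + (m : ℝ) * x ≤ (1 + x) ^ m := one_add_mul_le_pow (by linarith) m
  have h3 : 0 ≤ (1 - x) ^ m := pow_nonneg (by linarith) m
  rw [le_div_iff₀ hy]
  nlinarith

theorem le_nn (a : ℕ) : a ≤ 2 ^ (3 * a ^ 2) := by
  have h1 : a < 2 ^ a := Nat.lt_two_pow_self
  have h2 : 2 ^ a ≤ 2 ^ (3 * a ^ 2) := Nat.pow_le_pow_right (by norm_num) (by nlinarith)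
  omega

theorem pow_bound (a : ℕ) (ha : 3 ≤ a) :
    ((1 : ℝ) - 1 / 2 ^ (a ^ 2)) ^ (2 ^ (3 * a ^ 2) - a) ≤ 1 / 2 ^ a := by
  have h0 := two_mul_le_pow a (by omega)
  apply one_sub_pow_le _ (by positivity) _ _ _ (by positivity)
  · have h2 : (2 : ℝ) ^ (3 * a ^ 2) ≤ 2 * (((2 ^ (3 * a ^ 2) : ℕ) - a : ℕ) : ℝ) := by
      have : 2 ^ (3 * a ^ 2) ≤ 2 * ((2 ^ (3 * a ^ 2) : ℕ) - a) := by omega
      exact_mod_cast this
    rw [mul_one_div, le_div_iff₀ (by positivity)]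
    have h3 : (2 : ℝ) ^ a * 2 ^ (a ^ 2) * 2 ≤ 2 ^ (3 * a ^ 2) := by
      calc (2 : ℝ) ^ a * 2 ^ (a ^ 2) * 2 = 2 ^ (a + a ^ 2 + 1) := by
            rw [pow_add _ (a + a ^ 2) 1, pow_add _ a (a ^ 2), pow_one]
        _ ≤ 2 ^ (3 * a ^ 2) := pow_le_pow_right₀ (by norm_num) (by nlinarith)
    linarith
  · rw [div_le_one (by positivity)]
    exact one_le_pow₀ (by norm_num)

theorem inv_pow_sub (a : ℕ) (ha : 3 ≤ a) : (4 : ℝ) * (1 / 2 ^ (a - 2)) = 16 / 2 ^ a := by
  obtain ⟨b, rfl⟩ : ∃ b, a = b + 2 := ⟨a - 2, by omega⟩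
  have h9 : b + 2 - 2 = b := by omega
  rw [h9, pow_add]
  field_simp
  norm_num

theorem frac_odd (a : ℕ) (ha : 3 ≤ a) (ho : Odd a) :
    (cnt (2 ^ (3 * a ^ 2)) GP : ℝ) ≤ 16 / 2 ^ a * cnt (2 ^ (3 * a ^ 2)) Free := by
  have h1 := cnt_odd (n := 2 ^ (3 * a ^ 2)) a ho
  have h2 := Wt_off a ha (2 ^ (3 * a ^ 2) + 1)
  have h3 := cnt_tot_ge (n := 2 ^ (3 * a ^ 2)) a (le_nn a)
  have h4 := KK_pos (2 ^ (3 * a ^ 2))
  rw [inv_pow_sub a ha] at h2
  have h5 : (0 : ℝ) ≤ 16 / 2 ^ a := by positivity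
  calc _ ≤ _ := h1
    _ ≤ KK (2 ^ (3 * a ^ 2)) * (16 / 2 ^ a * Wt (2 ^ (3 * a ^ 2)) a) :=
        mul_le_mul_of_nonneg_left h2 h4.le
    _ = 16 / 2 ^ a * (KK (2 ^ (3 * a ^ 2)) * Wt (2 ^ (3 * a ^ 2)) a) := by ring
    _ ≤ _ := mul_le_mul_of_nonneg_left h3 h5

theorem frac_even (a : ℕ) (ha : 3 ≤ a) (he : Even a) :
    (cnt (2 ^ (3 * a ^ 2)) BP : ℝ) ≤ 17 / 2 ^ a * cnt (2 ^ (3 * a ^ 2)) Free := by
  have h1 := cnt_even (n := 2 ^ (3 * a ^ 2)) a he (le_nn a)
  have h2 := Wt_off a ha (2 ^ (3 * a ^ 2) + 1)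
  have h3 := cnt_tot_ge (n := 2 ^ (3 * a ^ 2)) a (le_nn a)
  have h4 := KK_pos (2 ^ (3 * a ^ 2))
  have h6 := pow_bound a ha
  have h7 := Wt_nonneg (2 ^ (3 * a ^ 2)) a
  rw [inv_pow_sub a ha] at h2
  have h5 : (0 : ℝ) ≤ 17 / 2 ^ a := by positivity
  have h8 : (0 : ℝ) ≤ KK (2 ^ (3 * a ^ 2)) * Wt (2 ^ (3 * a ^ 2)) a := by positivity
  calc _ ≤ _ := h1
    _ ≤ KK (2 ^ (3 * a ^ 2)) * (16 / 2 ^ a * Wt (2 ^ (3 * a ^ 2)) a) +
        KK (2 ^ (3 * a ^ 2)) * Wt (2 ^ (3 * a ^ 2)) a * (1 / 2 ^ a) := by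
        apply add_le_add
        · exact mul_le_mul_of_nonneg_left h2 h4.le
        · exact mul_le_mul_of_nonneg_left h6 h8
    _ = 17 / 2 ^ a * (KK (2 ^ (3 * a ^ 2)) * Wt (2 ^ (3 * a ^ 2)) a) := by ring
    _ ≤ _ := mul_le_mul_of_nonneg_left h3 h5

theorem cnt_free_pos (n : ℕ) : 0 < cnt n Free := by
  classical
  unfold cnt
  rw [Finset.card_pos]
  refine ⟨(∅, fun _ => ∅), ?_⟩
  rw [Finset.mem_filter]
  refine ⟨Finset.mem_univ _, ?_⟩
  intro c hc
  exact absurd hc (Finset.notMem_empty c)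

theorem not_conv : ¬ ∃ c : ℝ, Filter.Tendsto
    (fun n : ℕ => (cnt n GP : ℝ) / (cnt n Free : ℝ)) Filter.atTop (nhds c) := by
  rintro ⟨c, hc⟩
  rw [Metric.tendsto_atTop] at hc
  obtain ⟨N, hN⟩ := hc (1 / 4) (by norm_num)
  have key : ∀ a, N ≤ a → |(cnt (2 ^ (3 * a ^ 2)) GP : ℝ) / (cnt (2 ^ (3 * a ^ 2)) Free : ℝ) - c| <
      1 / 4 := by
    intro a ha
    have := hN (2 ^ (3 * a ^ 2)) (ha.trans (le_nn a))
    rwa [Real.dist_eq] at this
  have hpow : ∀ a, 9 ≤ a → (17 : ℝ) / 2 ^ a ≤ 1 / 8 := by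
    intro a ha
    have h1 : (2 : ℝ) ^ 9 ≤ 2 ^ a := pow_le_pow_right₀ (by norm_num) ha
    rw [div_le_div_iff₀ (by positivity) (by norm_num)]
    norm_num at h1
    linarith
  have hodd := key (2 * N + 9) (by omega)
  have heven := key (2 * N + 10) (by omega)
  have h1 := frac_odd (2 * N + 9) (by omega) ⟨N + 4, by ring⟩
  have h2 := frac_even (2 * N + 10) (by omega) ⟨N + 5, by ring⟩
  have h3 := cnt_add (n := 2 ^ (3 * (2 * N + 10) ^ 2))
  have p1 : (0 : ℝ) < cnt (2 ^ (3 * (2 * N + 9) ^ 2)) Free := by exact_mod_cast cnt_free_pos _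
  have p2 : (0 : ℝ) < cnt (2 ^ (3 * (2 * N + 10) ^ 2)) Free := by exact_mod_cast cnt_free_pos _
  have h4 : (cnt (2 ^ (3 * (2 * N + 9) ^ 2)) GP : ℝ) / cnt (2 ^ (3 * (2 * N + 9) ^ 2)) Free ≤
      1 / 8 := by
    rw [div_le_iff₀ p1]
    refine h1.trans (mul_le_mul_of_nonneg_right ?_ p1.le)
    refine le_trans ?_ (hpow (2 * N + 9) (by omega))
    gcongr
    norm_num
  have h3' : (cnt (2 ^ (3 * (2 * N + 10) ^ 2)) GP : ℝ) + cnt (2 ^ (3 * (2 * N + 10) ^ 2)) BP =
      cnt (2 ^ (3 * (2 * N + 10) ^ 2)) Free := by exact_mod_cast h3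
  have h5 : (7 : ℝ) / 8 ≤ (cnt (2 ^ (3 * (2 * N + 10) ^ 2)) GP : ℝ) /
      cnt (2 ^ (3 * (2 * N + 10) ^ 2)) Free := by
    rw [le_div_iff₀ p2]
    have h6 := mul_le_mul_of_nonneg_right (hpow (2 * N + 10) (by omega)) p2.le
    linarith
  rw [abs_lt] at hodd heven
  linarith [hodd.1, hodd.2, heven.1, heven.2]

theorem card_eq (n : ℕ) (p : Cfg n → Prop) (q : L.Structure (Fin n) → Prop)
    (h : ∀ x, q (str x) ↔ p x) :
    Nat.card {M : L.Structure (Fin n) // q M} = cnt n p := by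
  classical
  have e : {x : Cfg n // p x} ≃ {M : L.Structure (Fin n) // q M} :=
    Equiv.subtypeEquiv (eqv n) (fun x => (h x).symm)
  rw [← Nat.card_congr e, Nat.card_eq_fintype_card, Fintype.card_subtype]
  unfold cnt
  congr 1

theorem fin_rel : Finite (Σ l, L.Relations l) := by
  have : Function.Surjective (fun b : Bool => (if b then ⟨1, Rl.P⟩ else ⟨3, Rl.T⟩ : Σ l, Rl l)) := by
    rintro ⟨l, r⟩
    cases r with
    | P => exact ⟨true, rfl⟩
    | T => exact ⟨false, rfl⟩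
  exact Finite.of_surjective _ this

end Pool.Agent.V11228.ForbHom
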