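import Pool.Agent.V11228.KNeg
import Pool.Agent.V11163.NT.AP

/-!
# Distances in a digraph which is known in advance
-/

set_option autoImplicit false

open Finset

namespace Pool.Agent.V11228.KApsp

open Pool.Agent.W896.RK Pool.Agent.W896.HP Pool.Agent.W896.FD
open Pool.Agent.TH700.TN Pool.Agent.V11163.NT Pool.Agent.V11228.OMv
open Pool.Agent.V11228.KBase
open Pool.Agent.V11163.NT.AP (Bt wt Walk Far Valid)

variable {n q N w : ℕ}

/-- The arcs are the pairs in `G`, `S × A` and `B × T`. The weights of the arcs in `G` are one, the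
weights of the arcs in `S × A` and `B × T` are `2` or `3` (and the bits for the other pairs hold the
weight `2`). -/
def Known (S A B T : Finset (Fin N)) (G : Finset (Fin N × Fin N)) (x : Bt N w → Bool) : Prop :=
  ∀ u v : Fin N,
    (x ((u, v), none) = true ↔ (u, v) ∈ G ∨ (u ∈ S ∧ v ∈ A) ∨ (u ∈ B ∧ v ∈ T)) ∧
    ((wt x u v = 1 ∧ (u, v) ∈ G) ∨ (wt x u v = 2 ∧ (u, v) ∉ G) ∨
      (wt x u v = 3 ∧ ((u ∈ S ∧ v ∈ A) ∨ (u ∈ B ∧ v ∈ T))))

/-- The vertices: sources, targets, and two sets of `n` vertices. -/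
abbrev Vx (q n : ℕ) : Type := (Fin q ⊕ Fin q) ⊕ (Fin n ⊕ Fin n)

/-- The arcs. -/
def ed (M : Fin n → Fin n → Bool) : Vx q n → Vx q n → Bool
  | .inl (.inl _), .inr (.inl _) => true
  | .inr (.inl i), .inr (.inr j) => M i j
  | .inr (.inr _), .inl (.inr _) => true
  | _, _ => false

/-- The weights if all unknown bits are one. -/
def w3 (M : Fin n → Fin n → Bool) : Vx q n → Vx q n → ℕ
  | .inl (.inl _), .inr (.inl _) => 3
  | .inr (.inl i), .inr (.inr j) => if M i j = true then 1 else 2
  | .inr (.inr _), .inl (.inr _) => 3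
  | _, _ => 2

theorem w3_le (M : Fin n → Fin n → Bool) (a b : Vx q n) : w3 M a b ≤ 3 := by
  rcases a with (a | a) | (a | a) <;> rcases b with (b | b) | (b | b) <;> unfold w3 <;>
    first | (norm_num; done) | (dsimp only; split_ifs <;> norm_num)

/-- The fixed bits. -/
def base (M : Fin n → Fin n → Bool) (e : Vx q n ≃ Fin N) (w : ℕ) : Bt N w → Bool
  | (z, none) => ed M (e.symm z.1) (e.symm z.2)
  | (z, some l) => (w3 M (e.symm z.1) (e.symm z.2)).testBit l.val

/-- The pairs with free last bits, for the source `l` and the target `l'`. -/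
def pr (e : Vx q n ≃ Fin N) (l l' : Fin q) : Fin n ⊕ Fin n → Fin N × Fin N
  | .inl i => (e (.inl (.inl l)), e (.inr (.inl i)))
  | .inr j => (e (.inr (.inr j)), e (.inl (.inr l')))

theorem pr_inj (e : Vx q n ≃ Fin N) (l l' : Fin q) : Function.Injective (pr e l l') := by
  rintro (i | i) (j | j) h
  · have := e.injective (congrArg Prod.snd h)
    rw [Sum.inl_injective (Sum.inr_injective this)]
  · have := e.injective (congrArg Prod.fst h)
    simp at this
  · have := e.injective (congrArg Prod.fst h)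
    simp at this
  · have := e.injective (congrArg Prod.fst h)
    rw [Sum.inr_injective (Sum.inr_injective this)]

/-- The places of the free bits. -/
def ps (e : Vx q n ≃ Fin N) (w : ℕ) (l l' : Fin q) (s : Fin n ⊕ Fin n) : Bt N w :=
  (pr e l l' s, some 0)

theorem ps_inj (e : Vx q n ≃ Fin N) (w : ℕ) (l l' : Fin q) :
    Function.Injective (ps e w l l') :=
  fun _ _ h => pr_inj e l l' (congrArg Prod.fst h)

/-- The input. -/
noncomputable def inst (M : Fin n → Fin n → Bool) (e : Vx q n ≃ Fin N) (w : ℕ) (l l' : Fin q)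
    (y : Fin n ⊕ Fin n → Bool) : Bt N w → Bool :=
  fill (ps e w l l') (base M e w) (fun i => !y i)

theorem inst_flag (M : Fin n → Fin n → Bool) (e : Vx q n ≃ Fin N) (l l' : Fin q)
    (y : Fin n ⊕ Fin n → Bool) (a b : Vx q n) :
    inst M e w l l' y ((e a, e b), none) = ed M a b := by
  unfold inst
  rw [fill_other _ _ (fun s h => by
    have h1 := congrArg Prod.snd h
    cases h1)]
  unfold base
  simp only [Equiv.symm_apply_apply]

theorem two_lt (w : ℕ) : 4 ≤ 2 ^ (w + 2) := by
  calc 4 = 2 ^ 2 := rfl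
    _ ≤ 2 ^ (w + 2) := Nat.pow_le_pow_right (by norm_num) (by omega)

theorem wt_other (M : Fin n → Fin n → Bool) (e : Vx q n ≃ Fin N) (l l' : Fin q)
    (y : Fin n ⊕ Fin n → Bool) (a b : Vx q n) (h : ∀ s, pr e l l' s ≠ (e a, e b)) :
    wt (inst M e w l l' y) (e a) (e b) = w3 M a b := by
  unfold Pool.Agent.V11163.NT.AP.wt
  have h1 : (fun m : Fin (w + 2) => inst M e w l l' y ((e a, e b), some m)) =
      fun m : Fin (w + 2) => (w3 M a b).testBit m.val := by
    funext m
    unfold inst
    rw [fill_other _ _ (fun s h' => h s (congrArg Prod.fst h'))]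
    unfold base
    simp only [Equiv.symm_apply_apply]
  rw [h1, Nat.ofBits_testBit, Nat.mod_eq_of_lt]
  have := w3_le M a b
  have := two_lt w
  omega

theorem wt_star (M : Fin n → Fin n → Bool) (e : Vx q n ≃ Fin N) (l l' : Fin q)
    (y : Fin n ⊕ Fin n → Bool) (s : Fin n ⊕ Fin n) :
    wt (inst M e w l l' y) (pr e l l' s).1 (pr e l l' s).2 = 2 + (!y s).toNat := by
  unfold Pool.Agent.V11163.NT.AP.wt
  have hb : ∀ m : Fin (w + 2), base M e w (pr e l l' s, some m) = (3 : ℕ).testBit m.val := by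
    intro m
    rcases s with i | j <;> unfold base pr w3 <;> simp only [Equiv.symm_apply_apply]
  have h1 : (fun m : Fin (w + 2) =>
      inst M e w l l' y (((pr e l l' s).1, (pr e l l' s).2), some m)) =
      fun m : Fin (w + 2) => (Nat.bit (!y s) 1).testBit m.val := by
    funext m
    rcases eq_or_ne m 0 with rfl | hm
    · rw [Fin.val_zero, Nat.testBit_bit_zero]
      exact fill_apply (ps_inj e w l l') _ (fun i => !y i) s
    · obtain ⟨m', hm'⟩ : ∃ m', m.val = m' + 1 := by
        refine ⟨m.val - 1, ?_⟩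
        have : m.val ≠ 0 := fun h => hm (Fin.ext h)
        omega
      unfold inst
      rw [fill_other _ _ (fun s' h => by
        have h2 := congrArg Prod.snd h
        unfold ps at h2
        simp only [Option.some.injEq] at h2
        exact hm h2.symm)]
      have h3 : base M e w (pr e l l' s, some m) = (3 : ℕ).testBit m.val := hb m
      have h4 : (3 : ℕ).testBit (m' + 1) = (1 : ℕ).testBit m' :=
        Nat.testBit_bit_succ m' true 1
      rw [hm', Nat.testBit_bit_succ, ← h4, ← hm']
      exact h3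
  rw [h1, Nat.ofBits_testBit, Nat.bit_val, Nat.mod_eq_of_lt]
  have := Bool.toNat_le (!y s)
  have := two_lt w
  omega

theorem wt_src (M : Fin n → Fin n → Bool) (e : Vx q n ≃ Fin N) (l l' : Fin q)
    (y : Fin n ⊕ Fin n → Bool) (a : Fin q) (i : Fin n) :
    wt (inst M e w l l' y) (e (.inl (.inl a))) (e (.inr (.inl i))) =
      if a = l then 2 + (!y (.inl i)).toNat else 3 := by
  by_cases h : a = l
  · subst h
    rw [if_pos rfl]
    exact wt_star M e a l' y (.inl i)
  · rw [if_neg h, wt_other M e l l' y _ _ (by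
      rintro (i' | j') h' <;> have h2 := e.injective (congrArg Prod.fst h')
      · exact h (Sum.inl_injective (Sum.inl_injective h2)).symm
      · simp at h2)]
    rfl

theorem wt_tgt (M : Fin n → Fin n → Bool) (e : Vx q n ≃ Fin N) (l l' : Fin q)
    (y : Fin n ⊕ Fin n → Bool) (b : Fin q) (j : Fin n) :
    wt (inst M e w l l' y) (e (.inr (.inr j))) (e (.inl (.inr b))) =
      if b = l' then 2 + (!y (.inr j)).toNat else 3 := by
  by_cases h : b = l'
  · subst h
    rw [if_pos rfl]
    exact wt_star M e l b y (.inr j)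
  · rw [if_neg h, wt_other M e l l' y _ _ (by
      rintro (i' | j') h' <;> have h2 := e.injective (congrArg Prod.snd h')
      · simp at h2
      · exact h (Sum.inr_injective (Sum.inl_injective h2)).symm)]
    rfl

theorem wt_mid (M : Fin n → Fin n → Bool) (e : Vx q n ≃ Fin N) (l l' : Fin q)
    (y : Fin n ⊕ Fin n → Bool) (i j : Fin n) :
    wt (inst M e w l l' y) (e (.inr (.inl i))) (e (.inr (.inr j))) =
      if M i j = true then 1 else 2 := by
  rw [wt_other M e l l' y _ _ (by
    rintro (i' | j') h' <;> have h2 := e.injective (congrArg Prod.fst h') <;> simp at h2)]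
  rfl

/-! ### The sets -/

/-- The sources. -/
def sS (e : Vx q n ≃ Fin N) : Finset (Fin N) :=
  univ.map ⟨fun l : Fin q => e (.inl (.inl l)),
    fun _ _ h => Sum.inl_injective (Sum.inl_injective (e.injective h))⟩

/-- The targets. -/
def sT (e : Vx q n ≃ Fin N) : Finset (Fin N) :=
  univ.map ⟨fun l : Fin q => e (.inl (.inr l)),
    fun _ _ h => Sum.inr_injective (Sum.inl_injective (e.injective h))⟩

/-- The first set. -/
def sA (e : Vx q n ≃ Fin N) : Finset (Fin N) :=
  univ.map ⟨fun i : Fin n => e (.inr (.inl i)),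
    fun _ _ h => Sum.inl_injective (Sum.inr_injective (e.injective h))⟩

/-- The second set. -/
def sB (e : Vx q n ≃ Fin N) : Finset (Fin N) :=
  univ.map ⟨fun i : Fin n => e (.inr (.inr i)),
    fun _ _ h => Sum.inr_injective (Sum.inr_injective (e.injective h))⟩

/-- The arcs between the two sets. -/
def sG (M : Fin n → Fin n → Bool) (e : Vx q n ≃ Fin N) : Finset (Fin N × Fin N) :=
  (univ.filter (fun p : Fin n × Fin n => M p.1 p.2 = true)).map
    ⟨fun p => (e (.inr (.inl p.1)), e (.inr (.inr p.2))), fun _ _ h => Prod.ext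
      (Sum.inl_injective (Sum.inr_injective (e.injective (congrArg Prod.fst h))))
      (Sum.inr_injective (Sum.inr_injective (e.injective (congrArg Prod.snd h))))⟩

theorem mem_sS {e : Vx q n ≃ Fin N} {a : Vx q n} : e a ∈ sS e ↔ ∃ l, a = .inl (.inl l) := by
  unfold sS
  simp only [mem_map, mem_univ, true_and, Function.Embedding.coeFn_mk]
  exact ⟨fun ⟨l, h⟩ => ⟨l, (e.injective h).symm⟩, fun ⟨l, h⟩ => ⟨l, by rw [h]⟩⟩

theorem mem_sT {e : Vx q n ≃ Fin N} {a : Vx q n} : e a ∈ sT e ↔ ∃ l, a = .inl (.inr l) := by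
  unfold sT
  simp only [mem_map, mem_univ, true_and, Function.Embedding.coeFn_mk]
  exact ⟨fun ⟨l, h⟩ => ⟨l, (e.injective h).symm⟩, fun ⟨l, h⟩ => ⟨l, by rw [h]⟩⟩

theorem mem_sA {e : Vx q n ≃ Fin N} {a : Vx q n} : e a ∈ sA e ↔ ∃ i, a = .inr (.inl i) := by
  unfold sA
  simp only [mem_map, mem_univ, true_and, Function.Embedding.coeFn_mk]
  exact ⟨fun ⟨l, h⟩ => ⟨l, (e.injective h).symm⟩, fun ⟨l, h⟩ => ⟨l, by rw [h]⟩⟩

theorem mem_sB {e : Vx q n ≃ Fin N} {a : Vx q n} : e a ∈ sB e ↔ ∃ i, a = .inr (.inr i) := by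
  unfold sB
  simp only [mem_map, mem_univ, true_and, Function.Embedding.coeFn_mk]
  exact ⟨fun ⟨l, h⟩ => ⟨l, (e.injective h).symm⟩, fun ⟨l, h⟩ => ⟨l, by rw [h]⟩⟩

theorem mem_sG {M : Fin n → Fin n → Bool} {e : Vx q n ≃ Fin N} {a b : Vx q n} :
    (e a, e b) ∈ sG M e ↔ ∃ i j, a = .inr (.inl i) ∧ b = .inr (.inr j) ∧ M i j = true := by
  unfold sG
  simp only [mem_map, mem_filter, mem_univ, true_and, Function.Embedding.coeFn_mk]
  constructor
  · rintro ⟨⟨i, j⟩, h1, h2⟩
    exact ⟨i, j, (e.injective (congrArg Prod.fst h2)).symm,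
      (e.injective (congrArg Prod.snd h2)).symm, h1⟩
  · rintro ⟨i, j, rfl, rfl, h⟩
    exact ⟨(i, j), h, rfl⟩

theorem cards (e : Vx q n ≃ Fin N) :
    (sS e).card = q ∧ (sA e).card = n ∧ (sB e).card = n ∧ (sT e).card = q := by
  unfold sS sA sB sT
  simp only [card_map, card_univ, Fintype.card_fin, and_self]

theorem cover (e : Vx q n ≃ Fin N) : sS e ∪ sA e ∪ sB e ∪ sT e = univ := by
  ext v
  obtain ⟨a, rfl⟩ := e.surjective v
  simp only [mem_union, mem_sS, mem_sA, mem_sB, mem_sT, mem_univ, iff_true]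
  rcases a with (a | a) | (a | a) <;> simp

theorem sG_sub (M : Fin n → Fin n → Bool) (e : Vx q n ≃ Fin N) : sG M e ⊆ sA e ×ˢ sB e := by
  rintro ⟨u, v⟩ h
  obtain ⟨a, rfl⟩ := e.surjective u
  obtain ⟨b, rfl⟩ := e.surjective v
  obtain ⟨i, j, rfl, rfl, -⟩ := mem_sG.1 h
  exact mem_product.2 ⟨mem_sA.2 ⟨i, rfl⟩, mem_sB.2 ⟨j, rfl⟩⟩

theorem sG_card {M : Fin n → Fin n → Bool} {d : ℕ}
    (hM : ∀ r, (univ.filter (fun c => M r c = true)).card ≤ d) (e : Vx q n ≃ Fin N) :
    (sG M e).card ≤ d * n := by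
  unfold sG
  rw [card_map, ← Fintype.card_subtype]
  exact card_ones hM

theorem known_inst (M : Fin n → Fin n → Bool) (e : Vx q n ≃ Fin N) (l l' : Fin q)
    (y : Fin n ⊕ Fin n → Bool) :
    Known (sS e) (sA e) (sB e) (sT e) (sG M e) (inst M e w l l' y) := by
  intro u v
  obtain ⟨a, rfl⟩ := e.surjective u
  obtain ⟨b, rfl⟩ := e.surjective v
  rw [inst_flag]
  simp only [mem_sS, mem_sA, mem_sB, mem_sT, mem_sG]
  have h23 : ∀ b' : Bool, 2 + b'.toNat = 2 ∨ 2 + b'.toNat = 3 := by
    intro b'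
    cases b' <;> simp
  have hoth : ∀ a b : Vx q n, (∀ s, pr e l l' s ≠ (e a, e b)) → w3 M a b = 2 →
      wt (inst M e w l l' y) (e a) (e b) = 2 := fun a b h h' => (wt_other M e l l' y a b h).trans h'
  rcases a with (a | a) | (a | a) <;> rcases b with (b | b) | (b | b)
  case inl.inl.inr.inl =>
    refine ⟨by simp [ed], ?_⟩
    rw [wt_src]
    by_cases h : a = l
    · rw [if_pos h]
      rcases h23 (!y (.inl b)) with h2 | h2
      · exact Or.inr (Or.inl ⟨h2, by simp⟩)
      · exact Or.inr (Or.inr ⟨h2, by simp⟩)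
    · rw [if_neg h]
      exact Or.inr (Or.inr ⟨rfl, by simp⟩)
  case inr.inr.inl.inr =>
    refine ⟨by simp [ed], ?_⟩
    rw [wt_tgt]
    by_cases h : b = l'
    · rw [if_pos h]
      rcases h23 (!y (.inr a)) with h2 | h2
      · exact Or.inr (Or.inl ⟨h2, by simp⟩)
      · exact Or.inr (Or.inr ⟨h2, by simp⟩)
    · rw [if_neg h]
      exact Or.inr (Or.inr ⟨rfl, by simp⟩)
  case inr.inl.inr.inr =>
    refine ⟨by simp [ed], ?_⟩
    rw [wt_mid]
    by_cases h : M a b = true
    · rw [if_pos h]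
      exact Or.inl ⟨rfl, a, b, rfl, rfl, h⟩
    · rw [if_neg h]
      refine Or.inr (Or.inl ⟨rfl, ?_⟩)
      rintro ⟨i, j, h1, h2, h3⟩
      have h1' := Sum.inl_injective (Sum.inr_injective h1)
      have h2' := Sum.inr_injective (Sum.inr_injective h2)
      rw [h1', h2'] at h
      exact h h3
  all_goals
    refine ⟨by simp [ed], Or.inr (Or.inl ⟨hoth _ _ ?_ rfl, by simp⟩)⟩
    rintro (i' | j') h'
    · have h2 := e.injective (congrArg Prod.fst h')
      have h3 := e.injective (congrArg Prod.snd h')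
      simp at h2 h3
    · have h2 := e.injective (congrArg Prod.fst h')
      have h3 := e.injective (congrArg Prod.snd h')
      simp at h2 h3

theorem valid_known {S A B T : Finset (Fin N)} {G : Finset (Fin N × Fin N)} {x : Bt N w → Bool}
    (hx : Known S A B T G x) : Valid 3 x := by
  intro a b _
  rcases (hx a b).2 with h | h | h <;> omega

/-- The distances are large. -/
theorem all_far (M : Fin n → Fin n → Bool) (e : Vx q n ≃ Fin N) (l l' : Fin q)
    (y : Fin n ⊕ Fin n → Bool) (h : ∀ i j, y (.inl i) = true → y (.inr j) = true → M i j = false)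
    (s t : Fin q) : Far (inst M e w l l' y) (e (.inl (.inl s))) (e (.inl (.inr t))) 6 := by
  classical
  intro c hc
  obtain ⟨α, hα⟩ : ∃ α : Fin n → ℕ, α = fun i => if s = l then 2 + (!y (.inl i)).toNat else 3 :=
    ⟨_, rfl⟩
  have hα2 : ∀ i, α i = 2 ∨ α i = 3 := by
    intro i
    rw [hα]
    dsimp only
    split_ifs
    · cases y (.inl i) <;> simp
    · exact Or.inr rfl
  obtain ⟨φ, hφ⟩ : ∃ φ : Vx q n → ℕ, φ = fun a => match a with
    | .inl (.inl a) => if a = s then 0 else 10
    | .inl (.inr b) => if b = t then 6 else 0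
    | .inr (.inl i) => α i
    | .inr (.inr j) => if ∃ i, M i j = true ∧ α i = 2 then 3 else 4 := ⟨_, rfl⟩
  have key := Walk.le (fun a => φ (e.symm a)) (by
    rw [Equiv.symm_apply_apply, hφ]
    simp) (fun u v huv => ?_) hc
  · rw [Equiv.symm_apply_apply, hφ] at key
    simpa using key
  · obtain ⟨a, rfl⟩ := e.surjective u
    obtain ⟨b, rfl⟩ := e.surjective v
    rw [inst_flag] at huv
    rw [Equiv.symm_apply_apply, Equiv.symm_apply_apply]
    rcases a with (a | a) | (a | a) <;> rcases b with (b | b) | (b | b) <;>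
      unfold ed at huv <;> simp only [Bool.false_eq_true] at huv
    · -- from a source
      rw [wt_src, hφ]
      dsimp only
      by_cases ha : a = s
      · subst ha
        rw [if_pos rfl, zero_add, hα]
      · rw [if_neg ha]
        have := hα2 b
        split_ifs <;> omega
    · -- between the two sets
      rw [wt_mid, if_pos huv, hφ]
      dsimp only
      rcases hα2 a with h1 | h1
      · rw [if_pos ⟨a, huv, h1⟩, h1]
      · rw [h1]
        split_ifs <;> norm_num
    · -- to a target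
      rw [wt_tgt, hφ]
      dsimp only
      by_cases hb : b = t
      · subst hb
        rw [if_pos rfl]
        by_cases hi : ∃ i, M i a = true ∧ α i = 2
        · obtain ⟨i, hi1, hi2⟩ := hi
          rw [if_pos ⟨i, hi1, hi2⟩]
          by_cases hbl : b = l'
          · rw [if_pos hbl]
            cases hy : y (.inr a) with
            | false => simp
            | true =>
              exfalso
              rw [hα] at hi2
              dsimp only at hi2
              by_cases hs : s = l
              · rw [if_pos hs] at hi2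
                cases hyi : y (.inl i) with
                | false => rw [hyi] at hi2; simp at hi2
                | true =>
                  have := h i a hyi hy
                  rw [hi1] at this
                  exact Bool.noConfusion this
              · rw [if_neg hs] at hi2
                exact absurd hi2 (by norm_num)
          · rw [if_neg hbl]
        · rw [if_neg hi]
          split_ifs <;> omega
      · rw [if_neg hb]
        exact Nat.zero_le _

/-- The distance is small if there is a hit. -/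
theorem of_far (M : Fin n → Fin n → Bool) (e : Vx q n ≃ Fin N) (l l' : Fin q)
    (y : Fin n ⊕ Fin n → Bool)
    (h : Far (inst M e w l l' y) (e (.inl (.inl l))) (e (.inl (.inr l'))) 6) :
    ∀ i j, y (.inl i) = true → y (.inr j) = true → M i j = false := by
  intro i j hi hj
  cases hM : M i j with
  | false => rfl
  | true =>
    exfalso
    have h1 := wt_src (w := w) M e l l' y l i
    have h2 := wt_tgt (w := w) M e l l' y l' j
    have h3 := wt_mid (w := w) M e l l' y i j
    rw [if_pos rfl, hi] at h1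
    rw [if_pos rfl, hj] at h2
    rw [if_pos hM] at h3
    have a1 : Walk (inst M e w l l' y) (e (.inl (.inl l))) (e (.inr (.inl i))) (0 + 2) := by
      have := Walk.step (Walk.nil (x := inst M e w l l' y) (s := e (.inl (.inl l))))
        (v := e (.inr (.inl i))) (by rw [inst_flag]; rfl)
      rw [show wt (inst M e w l l' y) (e (.inl (.inl l))) (e (.inr (.inl i))) = 2 from h1] at this
      exact this
    have a2 : Walk (inst M e w l l' y) (e (.inl (.inl l))) (e (.inr (.inr j))) (0 + 2 + 1) := by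
      have := Walk.step a1 (v := e (.inr (.inr j))) (by rw [inst_flag]; exact hM)
      rw [h3] at this
      exact this
    have a3 : Walk (inst M e w l l' y) (e (.inl (.inl l))) (e (.inl (.inr l')))
        (0 + 2 + 1 + 2) := by
      have := Walk.step a2 (v := e (.inl (.inr l'))) (by rw [inst_flag]; rfl)
      rw [show wt (inst M e w l l' y) (e (.inr (.inr j))) (e (.inl (.inr l'))) = 2 from h2] at this
      exact this
    have := h _ a3
    omega

theorem sum_star (e : Vx q n ≃ Fin N) (l l' : Fin q) (g : Bt N w → ℕ) :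
    ∑ s, g (ps e w l l' s) = ∑ v ∈ sA e, g ((e (.inl (.inl l)), v), some 0) +
      ∑ v ∈ sB e, g ((v, e (.inl (.inr l'))), some 0) := by
  rw [Fintype.sum_sum_type]
  unfold sA sB
  rw [sum_map, sum_map]
  rfl

/-- **Distances in a known graph.** -/
theorem main (k n q : ℕ) : ∃ (S A B T : Finset (Fin (2 * q + 2 * n)))
    (G : Finset (Fin (2 * q + 2 * n) × Fin (2 * q + 2 * n))),
    (S.card = q ∧ A.card = n ∧ B.card = n ∧ T.card = q ∧ S ∪ A ∪ B ∪ T = univ) ∧
    (G ⊆ A ×ˢ B ∧ G.card ≤ 2 ^ (16 * k + 26) * n) ∧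
    (∀ w, ∀ x : Bt (2 * q + 2 * n) w → Bool, Known S A B T G x → Valid 3 x) ∧
    (∀ w, ∀ s ∈ S, ∀ t ∈ T,
      ∀ (R : Type) [Fintype R] [Nonempty R] (U : R → Circ (Bt (2 * q + 2 * n) w)),
      (∀ r x, Known S A B T G x → (U r).Val x (U r).out → Far x s t 6) →
      (∀ x, Known S A B T G x → (∀ s' ∈ S, ∀ t' ∈ T, Far x s' t' 6) → Nat.card R ≤
        2 ^ (n / 2 ^ (70 * (k + 1))) * Nat.card {r // (U r).Val x (U r).out}) →
      (∀ r, ∃ d : (U r).G → Bt (2 * q + 2 * n) w → ℕ, IsDeg (U r) id d ∧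
        ∑ v ∈ A, d (U r).out ((s, v), some 0) + ∑ v ∈ B, d (U r).out ((v, t), some 0) ≤ k * n) →
      ∃ r, n ≤ 2 ^ (70 * (k + 1)) * (Nat.log 2 (Fintype.card (U r).G) + 1)) ∧
    (∀ w, ∀ s ∈ S, ∀ t ∈ T,
      ∀ (R : Type) [Fintype R] [Nonempty R] (K L : R → Type) [∀ r, Field (K r)]
        [∀ r, Fintype (L r)] (P : ∀ r, Net (K r) (Bt (2 * q + 2 * n) w) (L r))
        (a : ∀ r, L r → K r),
      (∀ r x, Known S A B T G x → (P r).value (a r) x ≠ 0 → Far x s t 6) →
      (∀ x, Known S A B T G x → (∀ s' ∈ S, ∀ t' ∈ T, Far x s' t' 6) → Nat.card R ≤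
        2 ^ (n / 2 ^ (70 * (k + 1))) * Nat.card {r // (P r).value (a r) x ≠ 0}) →
      (∀ r, ∑ v ∈ A, (P r).reads ((s, v), some 0) + ∑ v ∈ B, (P r).reads ((v, t), some 0) ≤
        k * n) →
      ∃ r, n ≤ 2 ^ (70 * (k + 1)) * (Nat.log 2 (Fintype.card (L r)) + 1)) := by
  classical
  obtain ⟨M, hM, hd⟩ := exists_good k n
  obtain ⟨e⟩ : Nonempty (Vx q n ≃ Fin (2 * q + 2 * n)) :=
    ⟨Fintype.equivFinOfCardEq (by simp only [Fintype.card_sum, Fintype.card_fin]; ring)⟩
  obtain ⟨c1, c2, c3, c4⟩ := cards e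
  refine ⟨sS e, sA e, sB e, sT e, sG M e, ⟨c1, c2, c3, c4, cover e⟩, ⟨sG_sub M e, sG_card hd e⟩,
    fun w x hx => valid_known hx, fun w s hs t ht R _ _ U hU hc hdg => ?_,
    fun w s hs t ht R _ _ K L _ _ P a hU hc hdg => ?_⟩
  · obtain ⟨s, rfl⟩ := e.surjective s
    obtain ⟨t, rfl⟩ := e.surjective t
    obtain ⟨l, rfl⟩ := mem_sS.1 hs
    obtain ⟨l', rfl⟩ := mem_sT.1 ht
    refine circ_good' hM (ps_inj e w l l') (base M e w) R U (fun r y hy => ?_) (fun y hy => ?_)
      (fun r => ?_)
    · exact of_far M e l l' y (hU r _ (known_inst M e l l' y) hy)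
    · refine hc _ (known_inst M e l l' y) (fun s' hs' t' ht' => ?_)
      obtain ⟨s', rfl⟩ := e.surjective s'
      obtain ⟨t', rfl⟩ := e.surjective t'
      obtain ⟨a, rfl⟩ := mem_sS.1 hs'
      obtain ⟨b, rfl⟩ := mem_sT.1 ht'
      exact all_far M e l l' y hy a b
    · obtain ⟨d, hd1, hd2⟩ := hdg r
      refine ⟨d, hd1, ?_⟩
      rw [sum_star e l l' (d (U r).out)]
      exact hd2
  · obtain ⟨s, rfl⟩ := e.surjective s
    obtain ⟨t, rfl⟩ := e.surjective t
    obtain ⟨l, rfl⟩ := mem_sS.1 hs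
    obtain ⟨l', rfl⟩ := mem_sT.1 ht
    refine net_good' hM (ps_inj e w l l') (base M e w) R K L P a (fun r y hy => ?_)
      (fun y hy => ?_) (fun r => ?_)
    · exact of_far M e l l' y (hU r _ (known_inst M e l l' y) hy)
    · refine hc _ (known_inst M e l l' y) (fun s' hs' t' ht' => ?_)
      obtain ⟨s', rfl⟩ := e.surjective s'
      obtain ⟨t', rfl⟩ := e.surjective t'
      obtain ⟨a, rfl⟩ := mem_sS.1 hs'
      obtain ⟨b, rfl⟩ := mem_sT.1 ht'
      exact all_far M e l l' y hy a b
    · have := hdg r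
      rw [sum_star e l l' ((P r).reads)]
      exact this

end Pool.Agent.V11228.KApsp
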