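import Pool.Agent.V11228.KApspF

/-!
# Distances in a digraph which is known in advance: short forms
-/

set_option autoImplicit false

open Finset

namespace Pool.Agent.V11228.KApsp

open Pool.Agent.W896.RK Pool.Agent.W896.HP Pool.Agent.W896.FD
open Pool.Agent.TH700.TN Pool.Agent.V11163.NT Pool.Agent.V11228.OMv
open Pool.Agent.V11228.KBase
open Pool.Agent.V11163.NT.AP (Bt wt Walk Far Valid)

/-- What is known in advance: a partition of `2 q + 2 n` vertices into a set `S` of `q` sources, sets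
`A` and `B` of `n` vertices each and a set `T` of `q` targets, and a set `G` of pairs in `A × B`. -/
structure Plan (q n : ℕ) where
  /-- The sources. -/
  S : Finset (Fin (2 * q + 2 * n))
  /-- The first set of other vertices. -/
  A : Finset (Fin (2 * q + 2 * n))
  /-- The second set of other vertices. -/
  B : Finset (Fin (2 * q + 2 * n))
  /-- The targets. -/
  T : Finset (Fin (2 * q + 2 * n))
  /-- The arcs from the first to the second set. -/
  G : Finset (Fin (2 * q + 2 * n) × Fin (2 * q + 2 * n))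
  /-- The sizes of the sets. -/
  cards : S.card = q ∧ A.card = n ∧ B.card = n ∧ T.card = q
  /-- These are all vertices. -/
  cover : S ∪ A ∪ B ∪ T = univ
  /-- The arcs go from the first to the second set. -/
  sub : G ⊆ A ×ˢ B

variable {q n w : ℕ}

/-- The inputs: the arcs are the pairs in `G`, `S × A` and `B × T`. The weights of the arcs in `G` are
one, the weights of the arcs in `S × A` and `B × T` are `2` or `3` (and the bits for the other pairs
hold the weight `2`). -/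
def Plan.Input (Γ : Plan q n) (x : Bt (2 * q + 2 * n) w → Bool) : Prop :=
  Known Γ.S Γ.A Γ.B Γ.T Γ.G x

/-- All distances from `S` to `T` are at least six. -/
def Plan.AllFar (Γ : Plan q n) (x : Bt (2 * q + 2 * n) w → Bool) : Prop :=
  ∀ s ∈ Γ.S, ∀ t ∈ Γ.T, Far x s t 6

/-- None of the algorithms (`acc r x` says that the algorithm `r` accepts the input `x`) accepts an
input in which the distance from `s` to `t` is less than six, and the inputs in which all distances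
from `S` to `T` are at least six are accepted by at least the fraction `2 ^ (- μ)` of them. -/
def Plan.Right (Γ : Plan q n) (s t : Fin (2 * q + 2 * n)) (μ : ℕ) {R : Type}
    (acc : R → (Bt (2 * q + 2 * n) w → Bool) → Prop) : Prop :=
  (∀ r x, Γ.Input x → acc r x → Far x s t 6) ∧
    ∀ x, Γ.Input x → Γ.AllFar x → Nat.card R ≤ 2 ^ μ * Nat.card {r // acc r x}

/-- The sum of `f` over the least significant bits of the weights of the arcs from `s` to `A` and from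
`B` to `t`. -/
def Plan.at (Γ : Plan q n) (s t : Fin (2 * q + 2 * n)) (f : Bt (2 * q + 2 * n) w → ℕ) : ℕ :=
  ∑ v ∈ Γ.A, f ((s, v), some 0) + ∑ v ∈ Γ.B, f ((v, t), some 0)

/-- The sum of `f` over the least significant bits of the weights of the arcs in `S × A` and
`B × T`. -/
def Plan.tot (Γ : Plan q n) (f : Bt (2 * q + 2 * n) w → ℕ) : ℕ :=
  ∑ s ∈ Γ.S, ∑ v ∈ Γ.A, f ((s, v), some 0) + ∑ t ∈ Γ.T, ∑ v ∈ Γ.B, f ((v, t), some 0)

/-- **Distances in a known graph.** -/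
theorem main' (k n q : ℕ) : ∃ Γ : Plan q n, Γ.G.card ≤ 2 ^ (16 * k + 26) * n ∧
    ∀ (w : ℕ), ∀ s ∈ Γ.S, ∀ t ∈ Γ.T, ∀ (R : Type) [Fintype R] [Nonempty R],
    (∀ U : R → Circ (Bt (2 * q + 2 * n) w),
      Γ.Right s t (n / 2 ^ (70 * (k + 1))) (fun r x => (U r).Val x (U r).out) →
      (∀ r, ∃ d : (U r).G → Bt (2 * q + 2 * n) w → ℕ,
        IsDeg (U r) id d ∧ Γ.at s t (d (U r).out) ≤ k * n) →
      ∃ r, n ≤ 2 ^ (70 * (k + 1)) * (Nat.log 2 (Fintype.card (U r).G) + 1)) ∧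
    (∀ (K L : R → Type) [∀ r, Field (K r)] [∀ r, Fintype (L r)]
        (P : ∀ r, Net (K r) (Bt (2 * q + 2 * n) w) (L r)) (a : ∀ r, L r → K r),
      Γ.Right s t (n / 2 ^ (70 * (k + 1))) (fun r x => (P r).value (a r) x ≠ 0) →
      (∀ r, Γ.at s t (P r).reads ≤ k * n) →
      ∃ r, n ≤ 2 ^ (70 * (k + 1)) * (Nat.log 2 (Fintype.card (L r)) + 1)) := by
  obtain ⟨S, A, B, T, G, ⟨h1, h2, h3, h4, h5⟩, ⟨h6, h7⟩, -, hcirc, hnet⟩ := main k n q
  exact ⟨⟨S, A, B, T, G, ⟨h1, h2, h3, h4⟩, h5, h6⟩, h7, fun w s hs t ht R _ _ =>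
    ⟨fun U hU hd => hcirc w s hs t ht R U hU.1 hU.2 hd,
    fun K L _ _ P a hU hd => hnet w s hs t ht R K L P a hU.1 hU.2 hd⟩⟩

/-- Asymptotic form. -/
theorem asymp' {ε : ℝ} (hε : 0 < ε) (hε1 : ε ≤ 1) : ∃ n₀ : ℕ, ∀ n ≥ n₀, ∀ q : ℕ,
    ∃ Γ : Plan q n, (Γ.G.card : ℝ) ≤ (n : ℝ) ^ (1 + ε) ∧
    ∀ w m μ : ℕ, (m : ℝ) ≤ (n : ℝ) ^ (1 - ε) → (μ : ℝ) ≤ (n : ℝ) ^ (1 - ε) →
    (∀ s ∈ Γ.S, ∀ t ∈ Γ.T, ∀ (R : Type) [Fintype R] [Nonempty R],
      (∀ U : R → Circ (Bt (2 * q + 2 * n) w), (∀ r, Fintype.card (U r).G ≤ 2 ^ m) →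
        Γ.Right s t μ (fun r x => (U r).Val x (U r).out) →
        ∃ r, ∀ d : (U r).G → Bt (2 * q + 2 * n) w → ℕ, IsDeg (U r) id d →
          ε / 210 * (n * Real.logb 2 n) ≤ Γ.at s t (d (U r).out)) ∧
      (∀ (K L : R → Type) [∀ r, Field (K r)] [∀ r, Fintype (L r)]
          (P : ∀ r, Net (K r) (Bt (2 * q + 2 * n) w) (L r)) (a : ∀ r, L r → K r),
        (∀ r, Fintype.card (L r) ≤ 2 ^ m) →
        Γ.Right s t μ (fun r x => (P r).value (a r) x ≠ 0) →
        ∃ r, ε / 210 * (n * Real.logb 2 n) ≤ Γ.at s t (P r).reads)) ∧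
    (∀ U : Circ (Bt (2 * q + 2 * n) w), Fintype.card U.G ≤ 2 ^ m →
      (∀ x, Γ.Input x → (U.Val x U.out ↔ Γ.AllFar x)) →
      ∀ d : U.G → Bt (2 * q + 2 * n) w → ℕ, IsDeg U id d →
        ε / 210 * (q * n * Real.logb 2 n) ≤ Γ.tot (d U.out)) ∧
    (∀ (K L : Type) [Field K] [Fintype L] (P : Net K (Bt (2 * q + 2 * n) w) L),
      Fintype.card L ≤ 2 ^ m →
      (∀ s ∈ Γ.S, ∀ t ∈ Γ.T, ∃ a : L → K, ∀ x, Γ.Input x →
        (P.value a x ≠ 0 → Far x s t 6) ∧ (Γ.AllFar x → P.value a x ≠ 0)) →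
        ε / 210 * (q * n * Real.logb 2 n) ≤ Γ.tot P.reads) := by
  obtain ⟨n₀, hn₀⟩ := asymp hε hε1
  refine ⟨n₀, fun n hn q => ?_⟩
  obtain ⟨S, A, B, T, G, ⟨h1, h2, h3, h4, h5⟩, ⟨h6, h7⟩, -, hcirc, hnet⟩ := hn₀ n hn q
  have hz : ((0 : ℕ) : ℝ) ≤ (n : ℝ) ^ (1 - ε) := by
    rw [Nat.cast_zero]
    positivity
  have hre : ε / 210 * (q * n * Real.logb 2 n) = q * (ε / 210 * (n * Real.logb 2 n)) := by ring
  refine ⟨⟨S, A, B, T, G, ⟨h1, h2, h3, h4⟩, h5, h6⟩, h7, fun w m μ hm hμ =>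
    ⟨fun s hs t ht R _ _ => ⟨fun U hg hU => hcirc w m μ hm hμ s hs t ht R U hg hU.1 hU.2,
      fun K L _ _ P a hg hU => hnet w m μ hm hμ s hs t ht R K L P a hg hU.1 hU.2⟩,
      fun U hU hc d hd => ?_, fun K L _ _ P hP hc => ?_⟩⟩
  · rw [hre]
    refine sum_ge h1 h4 (f := fun s => ∑ v ∈ A, d U.out ((s, v), some 0))
      (g := fun t => ∑ v ∈ B, d U.out ((v, t), some 0)) (fun s hs t ht => ?_)
    obtain ⟨-, h8⟩ := hcirc w m 0 hm hz s hs t ht Unit (fun _ => U) (fun _ => hU)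
      (fun _ x hx h => (hc x hx).1 h s hs t ht) (fun x hx hx' => by
        have h2 := (hc x hx).2 hx'
        rw [pow_zero, one_mul]
        have : Nonempty {r : Unit // U.Val x U.out} := ⟨⟨(), h2⟩⟩
        rw [Nat.card_unique]
        exact Nat.card_pos)
    exact h8 d hd
  · rw [hre]
    refine sum_ge h1 h4 (f := fun s => ∑ v ∈ A, P.reads ((s, v), some 0))
      (g := fun t => ∑ v ∈ B, P.reads ((v, t), some 0)) (fun s hs t ht => ?_)
    obtain ⟨a, ha⟩ := hc s hs t ht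
    obtain ⟨-, h8⟩ := hnet w m 0 hm hz s hs t ht Unit (fun _ => K) (fun _ => L) (fun _ => P)
      (fun _ => a) (fun _ => hP) (fun _ x hx h => (ha x hx).1 h) (fun x hx hx' => by
        have h2 := (ha x hx).2 hx'
        rw [pow_zero, one_mul]
        have : Nonempty {r : Unit // P.value a x ≠ 0} := ⟨⟨(), h2⟩⟩
        rw [Nat.card_unique]
        exact Nat.card_pos)
    exact h8

end Pool.Agent.V11228.KApsp
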