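import Pool.Agent.V11228.KApsp

/-!
# Distances in a digraph which is known in advance: asymptotic forms
-/

set_option autoImplicit false

open Finset

namespace Pool.Agent.V11228.KApsp

open Pool.Agent.W896.RK Pool.Agent.W896.HP Pool.Agent.W896.FD
open Pool.Agent.TH700.TN Pool.Agent.V11163.NT Pool.Agent.V11228.OMv
open Pool.Agent.V11228.KBase
open Pool.Agent.V11163.NT.AP (Bt wt Walk Far Valid)

/-- Asymptotic form. -/
theorem asymp {ε : ℝ} (hε : 0 < ε) (hε1 : ε ≤ 1) : ∃ n₀ : ℕ, ∀ n ≥ n₀, ∀ q : ℕ,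
    ∃ (S A B T : Finset (Fin (2 * q + 2 * n)))
      (G : Finset (Fin (2 * q + 2 * n) × Fin (2 * q + 2 * n))),
    (S.card = q ∧ A.card = n ∧ B.card = n ∧ T.card = q ∧ S ∪ A ∪ B ∪ T = univ) ∧
    (G ⊆ A ×ˢ B ∧ (G.card : ℝ) ≤ (n : ℝ) ^ (1 + ε)) ∧
    (∀ w, ∀ x : Bt (2 * q + 2 * n) w → Bool, Known S A B T G x → Valid 3 x) ∧
    (∀ w, ∀ m μ : ℕ, (m : ℝ) ≤ (n : ℝ) ^ (1 - ε) → (μ : ℝ) ≤ (n : ℝ) ^ (1 - ε) →
      ∀ s ∈ S, ∀ t ∈ T,
      ∀ (R : Type) [Fintype R] [Nonempty R] (U : R → Circ (Bt (2 * q + 2 * n) w)),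
      (∀ r, Fintype.card (U r).G ≤ 2 ^ m) →
      (∀ r x, Known S A B T G x → (U r).Val x (U r).out → Far x s t 6) →
      (∀ x, Known S A B T G x → (∀ s' ∈ S, ∀ t' ∈ T, Far x s' t' 6) →
        Nat.card R ≤ 2 ^ μ * Nat.card {r // (U r).Val x (U r).out}) →
      ∃ r, ∀ d : (U r).G → Bt (2 * q + 2 * n) w → ℕ, IsDeg (U r) id d →
        ε / 210 * (n * Real.logb 2 n) ≤
          (∑ v ∈ A, d (U r).out ((s, v), some 0) + ∑ v ∈ B, d (U r).out ((v, t), some 0) : ℕ)) ∧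
    (∀ w, ∀ m μ : ℕ, (m : ℝ) ≤ (n : ℝ) ^ (1 - ε) → (μ : ℝ) ≤ (n : ℝ) ^ (1 - ε) →
      ∀ s ∈ S, ∀ t ∈ T,
      ∀ (R : Type) [Fintype R] [Nonempty R] (K L : R → Type) [∀ r, Field (K r)]
        [∀ r, Fintype (L r)] (P : ∀ r, Net (K r) (Bt (2 * q + 2 * n) w) (L r))
        (a : ∀ r, L r → K r),
      (∀ r, Fintype.card (L r) ≤ 2 ^ m) →
      (∀ r x, Known S A B T G x → (P r).value (a r) x ≠ 0 → Far x s t 6) →
      (∀ x, Known S A B T G x → (∀ s' ∈ S, ∀ t' ∈ T, Far x s' t' 6) →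
        Nat.card R ≤ 2 ^ μ * Nat.card {r // (P r).value (a r) x ≠ 0}) →
      ∃ r, ε / 210 * (n * Real.logb 2 n) ≤
        (∑ v ∈ A, (P r).reads ((s, v), some 0) + ∑ v ∈ B, (P r).reads ((v, t), some 0) : ℕ)) := by
  obtain ⟨n₀, hn₀⟩ := asym_size hε hε1
  refine ⟨n₀, fun n hn q => ?_⟩
  obtain ⟨hn4, k, hk1, hk0, hk2, hk3⟩ := hn₀ n hn
  obtain ⟨S, A, B, T, G, hcard, ⟨hG1, hG2⟩, hval, hcirc, hnet⟩ := main k n q
  have hkey : ∀ X : ℕ, (X : ℝ) < ε / 210 * (n * Real.logb 2 n) → X ≤ k * n := by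
    intro X hX
    have h2 : (X : ℝ) ≤ k * n := by
      calc (X : ℝ) ≤ ε / 210 * (n * Real.logb 2 n) := hX.le
        _ = (ε / 210 * Real.logb 2 n) * n := by ring
        _ ≤ k * n := by gcongr
    exact_mod_cast h2
  have hlog : ∀ m g : ℕ, (m : ℝ) ≤ (n : ℝ) ^ (1 - ε) → g ≤ 2 ^ m →
      ¬ n ≤ 2 ^ (70 * (k + 1)) * (Nat.log 2 g + 1) := by
    intro m g hm hg h
    refine hk3 m hm (h.trans (Nat.mul_le_mul_left _ (Nat.add_le_add_right ?_ 1)))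
    exact (Nat.log_mono_right hg).trans (le_of_eq (Nat.log_pow (by norm_num) m))
  have hn0 : (0 : ℝ) < n := by
    have : (4 : ℝ) ≤ n := by exact_mod_cast hn4
    linarith
  have hG3 : (G.card : ℝ) ≤ (n : ℝ) ^ (1 + ε) := by
    have h1 : (G.card : ℝ) ≤ (2 : ℝ) ^ (16 * k + 26) * n := by exact_mod_cast hG2
    have h2 : (2 : ℝ) ^ (16 * k + 26) ≤ (2 : ℝ) ^ (16 * k + 27) :=
      pow_le_pow_right₀ (by norm_num) (by omega)
    calc (G.card : ℝ) ≤ (2 : ℝ) ^ (16 * k + 26) * n := h1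
      _ ≤ (n : ℝ) ^ ε * n := by gcongr; exact h2.trans hk0
      _ = (n : ℝ) ^ (1 + ε) := by
        rw [Real.rpow_add hn0, Real.rpow_one]
        ring
  refine ⟨S, A, B, T, G, hcard, ⟨hG1, hG3⟩, hval,
    fun w m μ hm hμ s hs t ht R _ _ U hg hU hc => ?_,
    fun w m μ hm hμ s hs t ht R _ _ K L _ _ P a hg hU hc => ?_⟩
  · by_contra hcon
    push Not at hcon
    obtain ⟨r, hr⟩ := hcirc w s hs t ht R U hU (fun x hx hx' => (hc x hx hx').trans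
      (Nat.mul_le_mul_right _ (Nat.pow_le_pow_right (by norm_num) (hk2 μ hμ)))) (fun r => by
        obtain ⟨d, hd, hd'⟩ := hcon r
        exact ⟨d, hd, hkey _ hd'⟩)
    exact hlog m _ hm (hg r) hr
  · by_contra hcon
    push Not at hcon
    obtain ⟨r, hr⟩ := hnet w s hs t ht R K L P a hU (fun x hx hx' => (hc x hx hx').trans
      (Nat.mul_le_mul_right _ (Nat.pow_le_pow_right (by norm_num) (hk2 μ hμ))))
      (fun r => hkey _ (hcon r))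
    exact hlog m _ hm (hg r) hr

theorem sum_ge {N q : ℕ} {S T : Finset (Fin N)} (hS : S.card = q) (hT : T.card = q) {b : ℝ}
    {f g : Fin N → ℕ} (h : ∀ s ∈ S, ∀ t ∈ T, b ≤ ((f s + g t : ℕ) : ℝ)) :
    q * b ≤ ((∑ s ∈ S, f s + ∑ t ∈ T, g t : ℕ) : ℝ) := by
  classical
  have e : S ≃ T := Finset.equivOfCardEq (hS.trans hT.symm)
  have h1 : ∑ t ∈ T, g t = ∑ s : S, g (e s) := by
    rw [← Finset.sum_coe_sort T]
    exact (Equiv.sum_comp e (fun t : T => g t)).symm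
  rw [h1, ← Finset.sum_coe_sort S, ← sum_add_distrib, Nat.cast_sum]
  calc (q : ℝ) * b = ∑ _s : S, b := by
        rw [sum_const, card_univ, Fintype.card_coe, hS, nsmul_eq_mul]
    _ ≤ ∑ s : S, ((f s + g (e s) : ℕ) : ℝ) :=
        sum_le_sum fun s _ => h s.1 s.2 (e s).1 (e s).2

/-- Deterministic networks: the reads of all the unknown bits. -/
theorem total {ε : ℝ} (hε : 0 < ε) (hε1 : ε ≤ 1) : ∃ n₀ : ℕ, ∀ n ≥ n₀, ∀ q : ℕ,
    ∃ (S A B T : Finset (Fin (2 * q + 2 * n)))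
      (G : Finset (Fin (2 * q + 2 * n) × Fin (2 * q + 2 * n))),
    (S.card = q ∧ A.card = n ∧ B.card = n ∧ T.card = q ∧ S ∪ A ∪ B ∪ T = univ) ∧
    (G ⊆ A ×ˢ B ∧ (G.card : ℝ) ≤ (n : ℝ) ^ (1 + ε)) ∧
    ∀ w, ∀ m : ℕ, (m : ℝ) ≤ (n : ℝ) ^ (1 - ε) →
    (∀ U : Circ (Bt (2 * q + 2 * n) w), Fintype.card U.G ≤ 2 ^ m →
      (∀ x, Known S A B T G x → (U.Val x U.out ↔ ∀ s ∈ S, ∀ t ∈ T, Far x s t 6)) →
      ∀ d : U.G → Bt (2 * q + 2 * n) w → ℕ, IsDeg U id d →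
        ε / 210 * (q * n * Real.logb 2 n) ≤
          (∑ s ∈ S, ∑ v ∈ A, d U.out ((s, v), some 0) +
            ∑ t ∈ T, ∑ v ∈ B, d U.out ((v, t), some 0) : ℕ)) ∧
    (∀ (K L : Type) [Field K] [Fintype L] (P : Net K (Bt (2 * q + 2 * n) w) L),
      Fintype.card L ≤ 2 ^ m →
      (∀ s ∈ S, ∀ t ∈ T, ∃ a : L → K, ∀ x, Known S A B T G x →
        (P.value a x ≠ 0 → Far x s t 6) ∧
        ((∀ s' ∈ S, ∀ t' ∈ T, Far x s' t' 6) → P.value a x ≠ 0)) →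
        ε / 210 * (q * n * Real.logb 2 n) ≤
          (∑ s ∈ S, ∑ v ∈ A, P.reads ((s, v), some 0) +
            ∑ t ∈ T, ∑ v ∈ B, P.reads ((v, t), some 0) : ℕ)) := by
  obtain ⟨n₀, hn₀⟩ := asymp hε hε1
  refine ⟨n₀, fun n hn q => ?_⟩
  obtain ⟨S, A, B, T, G, hcard, hG, -, hcirc, hnet⟩ := hn₀ n hn q
  have hz : ((0 : ℕ) : ℝ) ≤ (n : ℝ) ^ (1 - ε) := by
    rw [Nat.cast_zero]
    positivity
  have hre : ε / 210 * (q * n * Real.logb 2 n) = q * (ε / 210 * (n * Real.logb 2 n)) := by ring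
  refine ⟨S, A, B, T, G, hcard, hG, fun w m hm => ⟨fun U hU hc d hd => ?_,
    fun K L _ _ P hP hc => ?_⟩⟩
  · rw [hre]
    refine sum_ge hcard.1 hcard.2.2.2.1 (f := fun s => ∑ v ∈ A, d U.out ((s, v), some 0))
      (g := fun t => ∑ v ∈ B, d U.out ((v, t), some 0)) (fun s hs t ht => ?_)
    obtain ⟨-, h1⟩ := hcirc w m 0 hm hz s hs t ht Unit (fun _ => U) (fun _ => hU)
      (fun _ x hx h => (hc x hx).1 h s hs t ht) (fun x hx hx' => by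
        have h2 := (hc x hx).2 hx'
        rw [pow_zero, one_mul]
        have : Nonempty {r : Unit // U.Val x U.out} := ⟨⟨(), h2⟩⟩
        rw [Nat.card_unique]
        exact Nat.card_pos)
    exact h1 d hd
  · rw [hre]
    refine sum_ge hcard.1 hcard.2.2.2.1 (f := fun s => ∑ v ∈ A, P.reads ((s, v), some 0))
      (g := fun t => ∑ v ∈ B, P.reads ((v, t), some 0)) (fun s hs t ht => ?_)
    obtain ⟨a, ha⟩ := hc s hs t ht
    obtain ⟨-, h1⟩ := hnet w m 0 hm hz s hs t ht Unit (fun _ => K) (fun _ => L) (fun _ => P)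
      (fun _ => a) (fun _ => hP) (fun _ x hx h => (ha x hx).1 h) (fun x hx hx' => by
        have h2 := (ha x hx).2 hx'
        rw [pow_zero, one_mul]
        have : Nonempty {r : Unit // P.value a x ≠ 0} := ⟨⟨(), h2⟩⟩
        rw [Nat.card_unique]
        exact Nat.card_pos)
    exact h1

end Pool.Agent.V11228.KApsp
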