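import Pool.Agent.V11228.OMvF

/-!
# Sparse matrices for which the bounds hold: general form
-/

set_option autoImplicit false

open Finset

namespace Pool.Agent.V11228.KBase

open Pool.Agent.W896.RK Pool.Agent.W896.HP Pool.Agent.W896.FD
open Pool.Agent.TH700.TN Pool.Agent.V11163.NT Pool.Agent.V11228.OMv

variable {n k : ℕ} {V : Type}

/-- Matrices for which the bounds hold. -/
def Good (k n : ℕ) (M : Fin n → Fin n → Bool) : Prop :=
  n < 2 ^ (70 * (k + 1)) ∨ ∃ n₁ κ a m h Q L, Par k n n₁ κ a m h Q L (n / 2 ^ (70 * (k + 1))) ∧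
    (∀ r, (univ.filter (fun c => M r c = true)).card ≤ 4 * Q ^ 2) ∧
    ∀ A B : Finset (Fin n), h ≤ A.card → h ≤ B.card → ∃ r ∈ A, ∃ c ∈ B, M r c = true

theorem exists_good (k n : ℕ) : ∃ M : Fin n → Fin n → Bool, Good k n M ∧
    ∀ r, (univ.filter (fun c => M r c = true)).card ≤ 2 ^ (16 * k + 26) := by
  classical
  rcases Nat.lt_or_ge n (2 ^ (70 * (k + 1))) with hn | hn
  · exact ⟨fun _ _ => false, Or.inl hn, fun r => by simp⟩
  obtain ⟨n₁, κ, a, m, h, Q, L, par⟩ := exists_par k n _ rfl hn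
  obtain ⟨M, hM1, hM2⟩ := exists_matrix par.h1 par.Qh
  refine ⟨M, Or.inr ⟨n₁, κ, a, m, h, Q, L, par, hM1, hM2⟩, fun r => (hM1 r).trans (le_of_eq ?_)⟩
  rw [par.QQ, ← pow_mul, show (4 : ℕ) = 2 ^ 2 by norm_num, ← pow_add]
  congr 1
  ring

/-- The bound for random circuits. -/
theorem circ_good {M : Fin n → Fin n → Bool} (hM : Good k n M)
    {p : Fin n ⊕ Fin n → V} (hp : Function.Injective p) (b₀ : V → Bool)
    (R : Type) [Fintype R] [Nonempty R] (U : R → Circ V)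
    (hU : ∀ r y, (U r).Val (fill p b₀ y) (U r).out →
      ∀ i j, y (.inl i) = true → y (.inr j) = true → M i j = false)
    (hc : ∀ y : Fin n ⊕ Fin n → Bool,
      (∀ i j, y (.inl i) = true → y (.inr j) = true → M i j = false) →
      Nat.card R ≤ 2 ^ (n / 2 ^ (70 * (k + 1))) *
        Nat.card {r // (U r).Val (fill p b₀ y) (U r).out})
    (hd : ∀ r, ∃ d : (U r).G → V → ℕ, IsDeg (U r) id d ∧
      ∑ i, d (U r).out (p i) ≤ k * n) :
    ∃ r, n ≤ 2 ^ (70 * (k + 1)) * (Nat.log 2 (Fintype.card (U r).G) + 1) := by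
  rcases hM with hn | ⟨n₁, κ, a, m, h, Q, L, par, hM1, hM2⟩
  · obtain ⟨r⟩ := (inferInstance : Nonempty R)
    exact ⟨r, hn.le.trans (Nat.le_mul_of_pos_right _ (by omega))⟩
  · exact circ_main par hM1 hM2 hp b₀ R U hU hc hd

/-- The bound for random networks. -/
theorem net_good {M : Fin n → Fin n → Bool} (hM : Good k n M)
    {p : Fin n ⊕ Fin n → V} (hp : Function.Injective p) (b₀ : V → Bool)
    (R : Type) [Fintype R] [Nonempty R] (K W : R → Type) [∀ r, Field (K r)]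
    [∀ r, Fintype (W r)] (T : ∀ r, Net (K r) V (W r)) (o : ∀ r, W r → K r)
    (hU : ∀ r y, (T r).value (o r) (fill p b₀ y) ≠ 0 →
      ∀ i j, y (.inl i) = true → y (.inr j) = true → M i j = false)
    (hc : ∀ y : Fin n ⊕ Fin n → Bool,
      (∀ i j, y (.inl i) = true → y (.inr j) = true → M i j = false) →
      Nat.card R ≤ 2 ^ (n / 2 ^ (70 * (k + 1))) *
        Nat.card {r // (T r).value (o r) (fill p b₀ y) ≠ 0})
    (hd : ∀ r, ∑ i, (T r).reads (p i) ≤ k * n) :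
    ∃ r, n ≤ 2 ^ (70 * (k + 1)) * (Nat.log 2 (Fintype.card (W r)) + 1) := by
  rcases hM with hn | ⟨n₁, κ, a, m, h, Q, L, par, hM1, hM2⟩
  · obtain ⟨r⟩ := (inferInstance : Nonempty R)
    exact ⟨r, hn.le.trans (Nat.le_mul_of_pos_right _ (by omega))⟩
  · exact net_main par hM1 hM2 hp b₀ R K W T o hU hc hd

/-- The number of the ones. -/
theorem card_ones {M : Fin n → Fin n → Bool} {d : ℕ}
    (hM : ∀ r, (univ.filter (fun c => M r c = true)).card ≤ d) :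
    Fintype.card {p : Fin n × Fin n // M p.1 p.2 = true} ≤ d * n := by
  classical
  have h1 : Fintype.card {p : Fin n × Fin n // M p.1 p.2 = true} =
      ∑ r, (univ.filter (fun c => M r c = true)).card := by
    rw [Fintype.card_subtype, card_filter, Fintype.sum_prod_type]
    exact sum_congr rfl fun r _ => (card_filter _ _).symm
  rw [h1]
  calc ∑ r, (univ.filter (fun c => M r c = true)).card ≤ ∑ _r : Fin n, d :=
        sum_le_sum fun r _ => hM r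
    _ = d * n := by rw [sum_const, card_univ, Fintype.card_fin, smul_eq_mul, mul_comm]

/-- The choice of the number of reads, with a bound for the number of the ones. -/
theorem asym_size {ε : ℝ} (hε : 0 < ε) (hε1 : ε ≤ 1) : ∃ n₀ : ℕ, ∀ n ≥ n₀,
    4 ≤ n ∧ ∃ k : ℕ, ε / 210 * Real.logb 2 n ≤ k ∧ (2 : ℝ) ^ (16 * k + 27) ≤ (n : ℝ) ^ ε ∧
      (∀ μ : ℕ, (μ : ℝ) ≤ (n : ℝ) ^ (1 - ε) → μ ≤ n / 2 ^ (70 * (k + 1))) ∧
      (∀ w : ℕ, (w : ℝ) ≤ (n : ℝ) ^ (1 - ε) → ¬ n ≤ 2 ^ (70 * (k + 1)) * (w + 1)) := by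
  obtain ⟨n₀, hn₀⟩ := asym 70 (by norm_num) hε hε1
  refine ⟨max n₀ 4, fun n hn => ?_⟩
  obtain ⟨k, hk1, hk2, hk3⟩ := hn₀ n ((le_max_left _ _).trans hn)
  have hn4 : 4 ≤ n := (le_max_right _ _).trans hn
  refine ⟨hn4, k, ?_, ?_, hk2, hk3⟩
  · calc ε / 210 * Real.logb 2 n = ε / (3 * (70 : ℕ)) * Real.logb 2 n := by push_cast; ring
      _ ≤ k := hk1
  · have hn1 : (1 : ℝ) ≤ n := by
      have : (4 : ℝ) ≤ n := by exact_mod_cast hn4
      linarith
    have hn0 : (0 : ℝ) < n := by linarith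
    obtain ⟨z, hz⟩ : ∃ z : ℝ, z = (n : ℝ) ^ (1 - ε) := ⟨_, rfl⟩
    have hz1 : 1 ≤ z := by
      rw [hz]
      exact Real.one_le_rpow hn1 (by linarith)
    have h1 := hk2 ⌊z⌋₊ (by rw [← hz]; exact Nat.floor_le (by linarith))
    have h2 : ⌊z⌋₊ * 2 ^ (70 * (k + 1)) ≤ n := by
      calc ⌊z⌋₊ * 2 ^ (70 * (k + 1)) ≤ (n / 2 ^ (70 * (k + 1))) * 2 ^ (70 * (k + 1)) :=
            Nat.mul_le_mul_right _ h1
        _ ≤ n := Nat.div_mul_le_self _ _
    have h3 : z ≤ 2 * (⌊z⌋₊ : ℝ) := by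
      have h4 : z < ⌊z⌋₊ + 1 := Nat.lt_floor_add_one z
      have h5 : 1 ≤ ⌊z⌋₊ := by
        rw [Nat.one_le_floor_iff]
        exact hz1
      have h6 : (1 : ℝ) ≤ ⌊z⌋₊ := by exact_mod_cast h5
      linarith
    have h4 : (⌊z⌋₊ : ℝ) * 2 ^ (70 * (k + 1)) ≤ n := by exact_mod_cast h2
    have h5 : z * 2 ^ (70 * (k + 1)) ≤ 2 * n := by
      calc z * 2 ^ (70 * (k + 1)) ≤ (2 * (⌊z⌋₊ : ℝ)) * 2 ^ (70 * (k + 1)) := by gcongr
        _ = 2 * ((⌊z⌋₊ : ℝ) * 2 ^ (70 * (k + 1))) := by ring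
        _ ≤ 2 * n := by linarith
    have h6 : (n : ℝ) = z * (n : ℝ) ^ ε := by
      rw [hz, ← Real.rpow_add hn0, sub_add_cancel, Real.rpow_one]
    have h7 : z * 2 ^ (70 * (k + 1)) ≤ z * (2 * (n : ℝ) ^ ε) := by
      calc z * 2 ^ (70 * (k + 1)) ≤ 2 * n := h5
        _ = z * (2 * (n : ℝ) ^ ε) := by
          conv_lhs => rw [h6]
          ring
    have h8 : (2 : ℝ) ^ (70 * (k + 1)) ≤ 2 * (n : ℝ) ^ ε := le_of_mul_le_mul_left h7 (by linarith)
    have h9 : (2 : ℝ) * 2 ^ (16 * k + 27) ≤ 2 ^ (70 * (k + 1)) := by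
      rw [← pow_succ']
      exact pow_le_pow_right₀ (by norm_num) (by omega)
    linarith

end Pool.Agent.V11228.KBase
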