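import Pool.Agent.V11228.KBase
import Pool.Agent.W896.FD.ExTri

/-!
# Exact Triangle if most weights are known in advance
-/

set_option autoImplicit false

open Finset

namespace Pool.Agent.V11228.KExact

open Pool.Agent.W896.RK Pool.Agent.W896.HP Pool.Agent.W896.FD
open Pool.Agent.TH700.TN Pool.Agent.V11163.NT Pool.Agent.V11228.OMv
open Pool.Agent.V11228.KBase
open Pool.Agent.W896.FD.ExTri (Pl wt3 Valid Yes)

variable {n q N w : ℕ}

/-- All pairs are edges; the weight of the pair `e` is `W e`, but the weights of the pairs of a vertex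
in `A` and a vertex in `B` may also be larger by one. -/
def Known (W : Sym2 (Fin N) → ℤ) (A B : Finset (Fin N)) (x : Sym2 (Fin N) × Pl w → Bool) : Prop :=
  (∀ e : Sym2 (Fin N), x (e, none) = true ↔ ¬ e.IsDiag) ∧
    ∀ e, wt3 x e = W e ∨ ((∃ u ∈ A, ∃ v ∈ B, e = s(u, v)) ∧ wt3 x e = W e + 1)

/-- The vertices. -/
abbrev Vx (q n : ℕ) : Type := Fin q ⊕ (Fin n ⊕ Fin n)

/-- The known weights. -/
def wt2 (M : Fin n → Fin n → Bool) : Vx q n → Vx q n → ℤ
  | .inl _, .inl _ => 16
  | .inl _, .inr _ => 0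
  | .inr _, .inl _ => 0
  | .inr (.inl _), .inr (.inl _) => 16
  | .inr (.inr _), .inr (.inr _) => 16
  | .inr (.inl i), .inr (.inr j) => if M i j = true then -2 else 4
  | .inr (.inr j), .inr (.inl i) => if M i j = true then -2 else 4

theorem wt2_lr (M : Fin n → Fin n → Bool) (i j : Fin n) :
    wt2 (q := q) M (.inr (.inl i)) (.inr (.inr j)) = if M i j = true then -2 else 4 := rfl

theorem wt2_rl (M : Fin n → Fin n → Bool) (i j : Fin n) :
    wt2 (q := q) M (.inr (.inr j)) (.inr (.inl i)) = if M i j = true then -2 else 4 := rfl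

theorem wt2_symm (M : Fin n → Fin n → Bool) (a b : Vx q n) : wt2 M a b = wt2 M b a := by
  rcases a with a | (a | a) <;> rcases b with b | (b | b) <;> rfl

theorem wt2_le (M : Fin n → Fin n → Bool) (a b : Vx q n) : |wt2 M a b| ≤ 16 := by
  rcases a with a | (a | a) <;> rcases b with b | (b | b) <;> unfold wt2 <;>
    first | (norm_num; done) | (dsimp only; split_ifs <;> norm_num)

/-- The known weights of the pairs. -/
def wtN (M : Fin n → Fin n → Bool) (e : Vx q n ≃ Fin N) : Sym2 (Fin N) → ℤ :=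
  Sym2.lift ⟨fun a b => wt2 M (e.symm a) (e.symm b), fun _ _ => wt2_symm M _ _⟩

theorem wtN_mk (M : Fin n → Fin n → Bool) (e : Vx q n ≃ Fin N) (a b : Vx q n) :
    wtN M e s(e a, e b) = wt2 M a b := by
  unfold wtN
  rw [Sym2.lift_mk]
  simp only [Equiv.symm_apply_apply]

open Classical in
/-- The fixed bits. -/
noncomputable def base (M : Fin n → Fin n → Bool) (e : Vx q n ≃ Fin N) (w : ℕ) :
    Sym2 (Fin N) × Pl w → Bool
  | (z, none) => decide (¬ z.IsDiag)
  | (z, some none) => decide (wtN M e z < 0)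
  | (z, some (some l)) => (wtN M e z).natAbs.testBit l.val

/-- The places of the free bits. -/
def ps (e : Vx q n ≃ Fin N) (w : ℕ) (j : Fin q) (s : Fin n ⊕ Fin n) : Sym2 (Fin N) × Pl w :=
  (s(e (.inl j), e (.inr s)), some (some 0))

theorem ps_inj (e : Vx q n ≃ Fin N) (w : ℕ) (j : Fin q) : Function.Injective (ps e w j) := by
  intro s s' h
  have h1 := Sym2.congr_right.1 (congrArg Prod.fst h)
  exact Sum.inr_injective (e.injective h1)

/-- The input. -/
noncomputable def inst (M : Fin n → Fin n → Bool) (e : Vx q n ≃ Fin N) (w : ℕ) (j : Fin q)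
    (y : Fin n ⊕ Fin n → Bool) : Sym2 (Fin N) × Pl w → Bool :=
  fill (ps e w j) (base M e w) y

theorem inst_flag (M : Fin n → Fin n → Bool) (e : Vx q n ≃ Fin N) (j : Fin q)
    (y : Fin n ⊕ Fin n → Bool) (z : Sym2 (Fin N)) :
    inst M e w j y (z, none) = true ↔ ¬ z.IsDiag := by
  classical
  unfold inst
  rw [fill_other _ _ (fun s h => by
    have h1 := congrArg Prod.snd h
    unfold ps at h1
    cases h1)]
  unfold base
  exact decide_eq_true_iff

theorem inst_sign (M : Fin n → Fin n → Bool) (e : Vx q n ≃ Fin N) (j : Fin q)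
    (y : Fin n ⊕ Fin n → Bool) (z : Sym2 (Fin N)) :
    inst M e w j y (z, some none) = decide (wtN M e z < 0) := by
  classical
  unfold inst
  rw [fill_other _ _ (fun s h => by
    have h1 := congrArg Prod.snd h
    unfold ps at h1
    cases h1)]
  unfold base
  rfl

/-- The weights which are known. -/
theorem wt_other (M : Fin n → Fin n → Bool) (e : Vx q n ≃ Fin N) (j : Fin q)
    (y : Fin n ⊕ Fin n → Bool) (z : Sym2 (Fin N)) (hw : 16 < 2 ^ (w + 1))
    (hz : ∀ s, s(e (.inl j), e (.inr s)) ≠ z) : wt3 (inst M e w j y) z = wtN M e z := by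
  classical
  unfold wt3
  rw [inst_sign]
  have h1 : (fun l : Fin (w + 1) => inst M e w j y (z, some (some l))) =
      fun l : Fin (w + 1) => (wtN M e z).natAbs.testBit l.val := by
    funext l
    unfold inst
    rw [fill_other _ _ (fun s h => hz s (congrArg Prod.fst h))]
    rfl
  have h2 : |wtN M e z| ≤ 16 := by
    induction z with
    | _ a b =>
      obtain ⟨a, rfl⟩ := e.surjective a
      obtain ⟨b, rfl⟩ := e.surjective b
      rw [wtN_mk]
      exact wt2_le M a b
  have h3 : (wtN M e z).natAbs < 2 ^ (w + 1) := by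
    have h4 : ((wtN M e z).natAbs : ℤ) ≤ 16 := by rw [Int.natCast_natAbs]; exact h2
    omega
  rw [h1, Nat.ofBits_testBit, Nat.mod_eq_of_lt h3, Int.natCast_natAbs]
  by_cases h5 : wtN M e z < 0
  · simp only [h5, decide_true, if_true]
    rw [abs_of_neg h5]
    ring
  · simp only [h5, decide_false]
    rw [abs_of_nonneg (not_lt.1 h5)]
    simp

/-- The weights which are not known. -/
theorem wt_star (M : Fin n → Fin n → Bool) (e : Vx q n ≃ Fin N) (j : Fin q)
    (y : Fin n ⊕ Fin n → Bool) (s : Fin n ⊕ Fin n) :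
    wt3 (inst M e w j y) s(e (.inl j), e (.inr s)) = ((y s).toNat : ℤ) := by
  classical
  have h0 : wtN M e s(e (.inl j), e (.inr s)) = 0 := by
    rw [wtN_mk]
    rfl
  unfold wt3
  rw [inst_sign, h0]
  have h1 : (fun l : Fin (w + 1) => inst M e w j y (s(e (.inl j), e (.inr s)), some (some l))) =
      fun l : Fin (w + 1) => (Nat.bit (y s) 0).testBit l.val := by
    funext l
    rcases eq_or_ne l 0 with rfl | hl
    · rw [Fin.val_zero, Nat.testBit_bit_zero]
      exact fill_apply (ps_inj e w j) _ y s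
    · obtain ⟨l', hl'⟩ : ∃ l', l.val = l' + 1 := by
        refine ⟨l.val - 1, ?_⟩
        have : l.val ≠ 0 := fun h => hl (Fin.ext h)
        omega
      unfold inst
      rw [fill_other _ _ (fun s' h => by
        have h2 := congrArg Prod.snd h
        unfold ps at h2
        simp only [Option.some.injEq] at h2
        exact hl h2.symm)]
      unfold base
      simp only [h0]
      rw [hl', Nat.testBit_bit_succ]
      simp
  have h2 : Nat.bit (y s) 0 = (y s).toNat := by rw [Nat.bit_val]; ring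
  have h3 : (y s).toNat < 2 ^ (w + 1) := by
    have h4 := Bool.toNat_le (y s)
    have h5 : 2 ≤ 2 ^ (w + 1) := by
      rw [pow_succ]
      have := Nat.one_le_two_pow (n := w)
      omega
    omega
  rw [h1, Nat.ofBits_testBit, h2, Nat.mod_eq_of_lt h3]
  simp

/-- The vertices with unknown weights. -/
def sA (e : Vx q n ≃ Fin N) : Finset (Fin N) :=
  univ.map ⟨fun j : Fin q => e (.inl j), fun _ _ h => Sum.inl_injective (e.injective h)⟩

/-- The other vertices. -/
def sB (e : Vx q n ≃ Fin N) : Finset (Fin N) :=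
  univ.map ⟨fun s : Fin n ⊕ Fin n => e (.inr s), fun _ _ h => Sum.inr_injective (e.injective h)⟩

theorem known_inst (M : Fin n → Fin n → Bool) (e : Vx q n ≃ Fin N) (hw : 16 < 2 ^ (w + 1))
    (j : Fin q) (y : Fin n ⊕ Fin n → Bool) :
    Known (wtN M e) (sA e) (sB e) (inst M e w j y) := by
  refine ⟨inst_flag M e j y, fun z => ?_⟩
  by_cases hz : ∃ s, s(e (.inl j), e (.inr s)) = z
  · obtain ⟨s, rfl⟩ := hz
    rw [wt_star]
    have h0 : wtN M e s(e (.inl j), e (.inr s)) = 0 := by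
      rw [wtN_mk]
      rfl
    rw [h0]
    cases hs : y s with
    | false => left; simp
    | true =>
      right
      refine ⟨⟨e (.inl j), mem_map.2 ⟨j, mem_univ _, rfl⟩, e (.inr s),
        mem_map.2 ⟨s, mem_univ _, rfl⟩, rfl⟩, by simp⟩
  · push Not at hz
    exact Or.inl (wt_other M e j y z hw hz)

theorem valid_known (M : Fin n → Fin n → Bool) (e : Vx q n ≃ Fin N) (hN : 2 ≤ N)
    {x : Sym2 (Fin N) × Pl w → Bool} (hx : Known (wtN M e) (sA e) (sB e) x) : Valid x := by
  constructor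
  · intro i
    cases h : x (s(i, i), none) with
    | false => rfl
    | true => exact absurd (Sym2.mk_isDiag_iff.2 rfl) ((hx.1 _).1 h)
  · intro z
    have h2 : |wtN M e z| ≤ 16 := by
      induction z with
      | _ a b =>
        obtain ⟨a, rfl⟩ := e.surjective a
        obtain ⟨b, rfl⟩ := e.surjective b
        rw [wtN_mk]
        exact wt2_le M a b
    have h3 : (17 : ℤ) ≤ (N : ℤ) ^ 300 := by
      have h4 : (2 : ℤ) ^ 300 ≤ (N : ℤ) ^ 300 := by
        apply pow_le_pow_left₀ (by norm_num)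
        exact_mod_cast hN
      refine le_trans ?_ h4
      calc (17 : ℤ) ≤ 2 ^ 5 := by norm_num
        _ ≤ 2 ^ 300 := pow_le_pow_right₀ (by norm_num) (by norm_num)
    rw [abs_le] at h2 ⊢
    rcases hx.2 z with h | ⟨-, h⟩ <;> rw [h] <;> constructor <;> linarith [h2.1, h2.2]

theorem yes_inst (M : Fin n → Fin n → Bool) (e : Vx q n ≃ Fin N) (hw : 16 < 2 ^ (w + 1))
    (j : Fin q) (y : Fin n ⊕ Fin n → Bool) :
    ¬ Yes (inst M e w j y) ↔
      ∀ r c, y (.inl r) = true → y (.inr c) = true → M r c = false := by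
  classical
  -- the weights
  have hwt : ∀ a b : Vx q n, ∃ t : ℤ, wt3 (inst M e w j y) s(e a, e b) = t ∧
      (t = wt2 M a b ∨ (0 ≤ t ∧ t ≤ 1 ∧ wt2 M a b = 0)) := by
    intro a b
    refine ⟨_, rfl, ?_⟩
    by_cases hz : ∃ s, s(e (.inl j), e (.inr s)) = s(e a, e b)
    · obtain ⟨s, hs⟩ := hz
      right
      rw [← wtN_mk M e a b, ← hs, wt_star, wtN_mk]
      have := Bool.toNat_le (y s)
      refine ⟨by positivity, by exact_mod_cast this, rfl⟩
    · push Not at hz
      left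
      rw [wt_other M e j y _ hw hz, wtN_mk]
  have hlow : ∀ a b : Vx q n, -2 ≤ wt3 (inst M e w j y) s(e a, e b) := by
    intro a b
    obtain ⟨t, h1, h2⟩ := hwt a b
    rw [h1]
    rcases h2 with h2 | h2
    · rw [h2]
      rcases a with a | (a | a) <;> rcases b with b | (b | b) <;> unfold wt2 <;>
        first | (norm_num; done) | (dsimp only; split_ifs <;> norm_num)
    · linarith [h2.1]
  have hbig : ∀ a b : Vx q n, wt2 M a b = 16 → wt3 (inst M e w j y) s(e a, e b) = 16 := by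
    intro a b h
    obtain ⟨t, h1, h2⟩ := hwt a b
    rw [h1]
    rcases h2 with h2 | h2
    · rw [h2, h]
    · rw [h] at h2
      exact absurd h2.2.2 (by norm_num)
  -- no heavy pair in a triangle of weight zero
  have hno : ∀ a b c : Vx q n, wt3 (inst M e w j y) s(e a, e b) +
      wt3 (inst M e w j y) s(e b, e c) + wt3 (inst M e w j y) s(e a, e c) = 0 →
      wt2 M a b ≠ 16 ∧ wt2 M b c ≠ 16 ∧ wt2 M a c ≠ 16 := by
    intro a b c h
    refine ⟨fun h' => ?_, fun h' => ?_, fun h' => ?_⟩ <;> have h1 := hbig _ _ h' <;>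
      linarith [hlow a b, hlow b c, hlow a c]
  have hone : ∀ (j' : Fin q) (s : Fin n ⊕ Fin n),
      wt3 (inst M e w j y) s(e (.inl j'), e (.inr s)) ≤ 1 ∧
      0 ≤ wt3 (inst M e w j y) s(e (.inl j'), e (.inr s)) ∧
      (wt3 (inst M e w j y) s(e (.inl j'), e (.inr s)) = 1 → y s = true) := by
    intro j' s
    by_cases hj : j' = j
    · subst hj
      rw [wt_star]
      cases y s <;> simp
    · rw [wt_other M e j y _ hw (fun s' h => by
        rw [Sym2.eq_iff] at h
        rcases h with ⟨h, -⟩ | ⟨h, -⟩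
        · exact hj (Sum.inl_injective (e.injective h)).symm
        · have := e.injective h
          simp at this), wtN_mk]
      unfold wt2
      simp
  -- a triangle of weight zero
  have hkey : ∀ (j' : Fin q) (s t : Fin n ⊕ Fin n), wt3 (inst M e w j y) s(e (.inl j'), e (.inr s)) +
      wt3 (inst M e w j y) s(e (.inl j'), e (.inr t)) +
      wt3 (inst M e w j y) s(e (.inr s), e (.inr t)) = 0 →
      y s = true ∧ y t = true ∧ wt2 (q := q) M (.inr s) (.inr t) = -2 := by
    intro j' s t h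
    obtain ⟨a1, a2, a3⟩ := hone j' s
    obtain ⟨b1, b2, b3⟩ := hone j' t
    obtain ⟨u, h1, h2⟩ := hwt (.inr s) (.inr t)
    have hne : ∀ s' t' : Fin n ⊕ Fin n, wt2 (q := q) M (.inr s') (.inr t') = 16 ∨
        wt2 (q := q) M (.inr s') (.inr t') = 4 ∨ wt2 (q := q) M (.inr s') (.inr t') = -2 := by
      rintro (a | a) (b | b)
      · exact Or.inl rfl
      · rw [wt2_lr]
        by_cases hm : M a b = true
        · rw [if_pos hm]; exact Or.inr (Or.inr rfl)
        · rw [if_neg hm]; exact Or.inr (Or.inl rfl)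
      · rw [wt2_rl]
        by_cases hm : M b a = true
        · rw [if_pos hm]; exact Or.inr (Or.inr rfl)
        · rw [if_neg hm]; exact Or.inr (Or.inl rfl)
      · exact Or.inl rfl
    have h3 : u = wt2 (q := q) M (.inr s) (.inr t) := by
      rcases h2 with h2 | h2
      · exact h2
      · rcases hne s t with h4 | h4 | h4 <;> rw [h4] at h2 <;> exact absurd h2.2.2 (by norm_num)
    rw [h1, h3] at h
    rcases hne s t with h4 | h4 | h4 <;> rw [h4] at h
    · exfalso; linarith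
    · exfalso; linarith
    · exact ⟨a3 (by linarith), b3 (by linarith), h4⟩
  have hfin : ∀ s t : Fin n ⊕ Fin n, wt2 (q := q) M (.inr s) (.inr t) = -2 → y s = true →
      y t = true → ∃ r c, y (.inl r) = true ∧ y (.inr c) = true ∧ M r c = true := by
    rintro (a | a) (b | b) h hs ht
    · unfold wt2 at h
      exact absurd h (by norm_num)
    · refine ⟨a, b, hs, ht, ?_⟩
      by_contra hm
      rw [wt2_lr, if_neg hm] at h
      exact absurd h (by norm_num)
    · refine ⟨b, a, ht, hs, ?_⟩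
      by_contra hm
      rw [wt2_rl, if_neg hm] at h
      exact absurd h (by norm_num)
    · unfold wt2 at h
      exact absurd h (by norm_num)
  have h1 : Yes (inst M e w j y) ↔
      ∃ r c, y (.inl r) = true ∧ y (.inr c) = true ∧ M r c = true := by
    constructor
    · rintro ⟨a, b, c, -, -, -, -, -, -, h⟩
      obtain ⟨a, rfl⟩ := e.surjective a
      obtain ⟨b, rfl⟩ := e.surjective b
      obtain ⟨c, rfl⟩ := e.surjective c
      obtain ⟨n1, n2, n3⟩ := hno a b c h
      rcases a with a | a <;> rcases b with b | b <;> rcases c with c | c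
      · exact absurd rfl n1
      · exact absurd rfl n1
      · exact absurd rfl n3
      · obtain ⟨h4, h5, h6⟩ := hkey a b c (by linarith)
        exact hfin b c h6 h4 h5
      · exact absurd rfl n2
      · obtain ⟨h4, h5, h6⟩ := hkey b a c (by
          rw [Sym2.eq_swap (a := e (.inl b)) (b := e (.inr a))]
          linarith)
        exact hfin a c h6 h4 h5
      · obtain ⟨h4, h5, h6⟩ := hkey c a b (by
          rw [Sym2.eq_swap (a := e (.inl c)) (b := e (.inr a)),
            Sym2.eq_swap (a := e (.inl c)) (b := e (.inr b))]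
          linarith)
        exact hfin a b h6 h4 h5
      · exfalso
        rcases a with a | a <;> rcases b with b | b <;> rcases c with c | c <;>
          first | exact n1 rfl | exact n2 rfl | exact n3 rfl
    · rintro ⟨r, c, hr, hc, hM⟩
      refine ⟨e (.inl j), e (.inr (.inl r)), e (.inr (.inr c)), fun h => ?_, fun h => ?_,
        fun h => ?_, ?_, ?_, ?_, ?_⟩
      · have := e.injective h; simp at this
      · have := e.injective h; simp at this
      · have := e.injective h; simp at this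
      · rw [inst_flag, Sym2.mk_isDiag_iff]
        intro h; have := e.injective h; simp at this
      · rw [inst_flag, Sym2.mk_isDiag_iff]
        intro h; have := e.injective h; simp at this
      · rw [inst_flag, Sym2.mk_isDiag_iff]
        intro h; have := e.injective h; simp at this
      · rw [wt_star, wt_star, wt_other M e j y _ hw (fun s' h => by
          rw [Sym2.eq_iff] at h
          rcases h with ⟨h, -⟩ | ⟨h, -⟩ <;> have := e.injective h <;> simp at this), wtN_mk, hr, hc,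
          wt2_lr, if_pos hM]
        norm_num
  rw [h1]
  constructor
  · intro h r c hr hc
    cases hM : M r c with
    | false => rfl
    | true => exact absurd ⟨r, c, hr, hc, hM⟩ h
  · rintro h ⟨r, c, hr, hc, hM⟩
    rw [h r c hr hc] at hM
    exact Bool.noConfusion hM

theorem sum_star (e : Vx q n ≃ Fin N) (j : Fin q) (g : Sym2 (Fin N) × Pl w → ℕ) :
    ∑ s, g (ps e w j s) = ∑ v ∈ sB e, g (s(e (.inl j), v), some (some 0)) := by
  unfold sB ps
  rw [sum_map]
  rfl

/-- **Exact Triangle with known weights.** -/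
theorem main (k n q : ℕ) (hn : 1 ≤ n) : ∃ (W : Sym2 (Fin (q + 2 * n)) → ℤ)
    (A B : Finset (Fin (q + 2 * n))),
    A.card = q ∧ B.card = 2 * n ∧ Disjoint A B ∧ (∀ e, |W e| ≤ 16) ∧
    (∀ w, ∀ x : Sym2 (Fin (q + 2 * n)) × Pl w → Bool, Known W A B x → Valid x) ∧
    (∀ w, 16 < 2 ^ (w + 1) → ∀ u ∈ A,
      ∀ (R : Type) [Fintype R] [Nonempty R] (U : R → Circ (Sym2 (Fin (q + 2 * n)) × Pl w)),
      (∀ r x, Known W A B x → (U r).Val x (U r).out → ¬ Yes x) →
      (∀ x, Known W A B x → ¬ Yes x → Nat.card R ≤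
        2 ^ (n / 2 ^ (70 * (k + 1))) * Nat.card {r // (U r).Val x (U r).out}) →
      (∀ r, ∃ d : (U r).G → Sym2 (Fin (q + 2 * n)) × Pl w → ℕ, IsDeg (U r) id d ∧
        ∑ v ∈ B, d (U r).out (s(u, v), some (some 0)) ≤ k * n) →
      ∃ r, n ≤ 2 ^ (70 * (k + 1)) * (Nat.log 2 (Fintype.card (U r).G) + 1)) ∧
    (∀ w, 16 < 2 ^ (w + 1) → ∀ u ∈ A,
      ∀ (R : Type) [Fintype R] [Nonempty R] (K L : R → Type) [∀ r, Field (K r)]
        [∀ r, Fintype (L r)] (P : ∀ r, Net (K r) (Sym2 (Fin (q + 2 * n)) × Pl w) (L r))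
        (a : ∀ r, L r → K r),
      (∀ r x, Known W A B x → (P r).value (a r) x ≠ 0 → ¬ Yes x) →
      (∀ x, Known W A B x → ¬ Yes x → Nat.card R ≤
        2 ^ (n / 2 ^ (70 * (k + 1))) * Nat.card {r // (P r).value (a r) x ≠ 0}) →
      (∀ r, ∑ v ∈ B, (P r).reads (s(u, v), some (some 0)) ≤ k * n) →
      ∃ r, n ≤ 2 ^ (70 * (k + 1)) * (Nat.log 2 (Fintype.card (L r)) + 1)) := by
  obtain ⟨M, hM, -⟩ := exists_good k n
  have e : Vx q n ≃ Fin (q + 2 * n) := Fintype.equivFinOfCardEq (by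
    rw [Fintype.card_sum, Fintype.card_sum, Fintype.card_fin, Fintype.card_fin, two_mul])
  refine ⟨wtN M e, sA e, sB e, ?_, ?_, ?_, ?_, fun w x hx => valid_known M e (by omega) hx,
    fun w hw u hu R _ _ U hU hc hd => ?_, fun w hw u hu R _ _ K L _ _ P a hU hc hd => ?_⟩
  · unfold sA
    rw [card_map, card_univ, Fintype.card_fin]
  · unfold sB
    rw [card_map, card_univ, Fintype.card_sum, Fintype.card_fin, two_mul]
  · rw [disjoint_left]
    intro v hv hv'
    obtain ⟨j, -, rfl⟩ := mem_map.1 hv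
    obtain ⟨s, -, hs⟩ := mem_map.1 hv'
    have := e.injective hs
    simp at this
  · intro z
    induction z with
    | _ a b =>
      obtain ⟨a, rfl⟩ := e.surjective a
      obtain ⟨b, rfl⟩ := e.surjective b
      rw [wtN_mk]
      exact wt2_le M a b
  · obtain ⟨j, -, rfl⟩ := mem_map.1 hu
    refine circ_good hM (ps_inj e w j) (base M e w) R U (fun r y hy => ?_) (fun y hy => ?_)
      (fun r => ?_)
    · exact (yes_inst M e hw j y).1 (hU r _ (known_inst M e hw j y) hy)
    · exact hc _ (known_inst M e hw j y) ((yes_inst M e hw j y).2 hy)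
    · obtain ⟨d, hd1, hd2⟩ := hd r
      refine ⟨d, hd1, ?_⟩
      rw [sum_star e j (fun v => d (U r).out v)]
      exact hd2
  · obtain ⟨j, -, rfl⟩ := mem_map.1 hu
    refine net_good hM (ps_inj e w j) (base M e w) R K L P a (fun r y hy => ?_) (fun y hy => ?_)
      (fun r => ?_)
    · exact (yes_inst M e hw j y).1 (hU r _ (known_inst M e hw j y) hy)
    · exact hc _ (known_inst M e hw j y) ((yes_inst M e hw j y).2 hy)
    · rw [sum_star e j (fun v => (P r).reads v)]
      exact hd r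

/-- Asymptotic form. -/
theorem asymp {ε : ℝ} (hε : 0 < ε) (hε1 : ε ≤ 1) : ∃ n₀ : ℕ, ∀ n ≥ n₀, ∀ q : ℕ,
    ∃ (W : Sym2 (Fin (q + 2 * n)) → ℤ) (A B : Finset (Fin (q + 2 * n))),
    A.card = q ∧ B.card = 2 * n ∧ Disjoint A B ∧ (∀ e, |W e| ≤ 16) ∧
    (∀ w, ∀ x : Sym2 (Fin (q + 2 * n)) × Pl w → Bool, Known W A B x → Valid x) ∧
    (∀ w, 16 < 2 ^ (w + 1) → ∀ m μ : ℕ, (m : ℝ) ≤ (n : ℝ) ^ (1 - ε) →
        (μ : ℝ) ≤ (n : ℝ) ^ (1 - ε) → ∀ u ∈ A,
      ∀ (R : Type) [Fintype R] [Nonempty R] (U : R → Circ (Sym2 (Fin (q + 2 * n)) × Pl w)),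
      (∀ r, Fintype.card (U r).G ≤ 2 ^ m) →
      (∀ r x, Known W A B x → (U r).Val x (U r).out → ¬ Yes x) →
      (∀ x, Known W A B x → ¬ Yes x →
        Nat.card R ≤ 2 ^ μ * Nat.card {r // (U r).Val x (U r).out}) →
      ∃ r, ∀ d : (U r).G → Sym2 (Fin (q + 2 * n)) × Pl w → ℕ, IsDeg (U r) id d →
        ε / 210 * (n * Real.logb 2 n) ≤
          (∑ v ∈ B, d (U r).out (s(u, v), some (some 0)) : ℕ)) ∧
    (∀ w, 16 < 2 ^ (w + 1) → ∀ m μ : ℕ, (m : ℝ) ≤ (n : ℝ) ^ (1 - ε) →
        (μ : ℝ) ≤ (n : ℝ) ^ (1 - ε) → ∀ u ∈ A,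
      ∀ (R : Type) [Fintype R] [Nonempty R] (K L : R → Type) [∀ r, Field (K r)]
        [∀ r, Fintype (L r)] (P : ∀ r, Net (K r) (Sym2 (Fin (q + 2 * n)) × Pl w) (L r))
        (a : ∀ r, L r → K r),
      (∀ r, Fintype.card (L r) ≤ 2 ^ m) →
      (∀ r x, Known W A B x → (P r).value (a r) x ≠ 0 → ¬ Yes x) →
      (∀ x, Known W A B x → ¬ Yes x →
        Nat.card R ≤ 2 ^ μ * Nat.card {r // (P r).value (a r) x ≠ 0}) →
      ∃ r, ε / 210 * (n * Real.logb 2 n) ≤
        (∑ v ∈ B, (P r).reads (s(u, v), some (some 0)) : ℕ)) := by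
  obtain ⟨n₀, hn₀⟩ := asym_size hε hε1
  refine ⟨n₀, fun n hn q => ?_⟩
  obtain ⟨hn4, k, hk1, hk0, hk2, hk3⟩ := hn₀ n hn
  obtain ⟨W, A, B, hA, hB, hAB, hW, hval, hcirc, hnet⟩ := main k n q (by omega)
  have hkey : ∀ X : ℕ, (X : ℝ) < ε / 210 * (n * Real.logb 2 n) → X ≤ k * n := by
    intro X hX
    have h2 : (X : ℝ) ≤ k * n := by
      calc (X : ℝ) ≤ ε / 210 * (n * Real.logb 2 n) := hX.le
        _ = (ε / 210 * Real.logb 2 n) * n := by ring
        _ ≤ k * n := by gcongr
    exact_mod_cast h2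
  have hlog : ∀ m g : ℕ, (m : ℝ) ≤ (n : ℝ) ^ (1 - ε) → g ≤ 2 ^ m →
      ¬ n ≤ 2 ^ (70 * (k + 1)) * (Nat.log 2 g + 1) := by
    intro m g hm hg h
    refine hk3 m hm (h.trans (Nat.mul_le_mul_left _ (Nat.add_le_add_right ?_ 1)))
    exact (Nat.log_mono_right hg).trans (le_of_eq (Nat.log_pow (by norm_num) m))
  refine ⟨W, A, B, hA, hB, hAB, hW, hval, fun w hw m μ hm hμ u hu R _ _ U hg hU hc => ?_,
    fun w hw m μ hm hμ u hu R _ _ K L _ _ P a hg hU hc => ?_⟩
  · by_contra hcon
    push Not at hcon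
    obtain ⟨r, hr⟩ := hcirc w hw u hu R U hU (fun x hx hx' => (hc x hx hx').trans
      (Nat.mul_le_mul_right _ (Nat.pow_le_pow_right (by norm_num) (hk2 μ hμ)))) (fun r => by
        obtain ⟨d, hd, hd'⟩ := hcon r
        exact ⟨d, hd, hkey _ hd'⟩)
    exact hlog m _ hm (hg r) hr
  · by_contra hcon
    push Not at hcon
    obtain ⟨r, hr⟩ := hnet w hw u hu R K L P a hU (fun x hx hx' => (hc x hx hx').trans
      (Nat.mul_le_mul_right _ (Nat.pow_le_pow_right (by norm_num) (hk2 μ hμ))))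
      (fun r => hkey _ (hcon r))
    exact hlog m _ hm (hg r) hr

/-- Deterministic networks: the reads of all the unknown bits. -/
theorem total {ε : ℝ} (hε : 0 < ε) (hε1 : ε ≤ 1) : ∃ n₀ : ℕ, ∀ n ≥ n₀, ∀ q : ℕ,
    ∃ (W : Sym2 (Fin (q + 2 * n)) → ℤ) (A B : Finset (Fin (q + 2 * n))),
    A.card = q ∧ B.card = 2 * n ∧ Disjoint A B ∧ (∀ e, |W e| ≤ 16) ∧
    ∀ w, 16 < 2 ^ (w + 1) → ∀ m : ℕ, (m : ℝ) ≤ (n : ℝ) ^ (1 - ε) →
    (∀ U : Circ (Sym2 (Fin (q + 2 * n)) × Pl w), Fintype.card U.G ≤ 2 ^ m →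
      (∀ x, Known W A B x → (U.Val x U.out ↔ ¬ Yes x)) →
      ∀ d : U.G → Sym2 (Fin (q + 2 * n)) × Pl w → ℕ, IsDeg U id d →
        ε / 210 * (q * n * Real.logb 2 n) ≤
          (∑ u ∈ A, ∑ v ∈ B, d U.out (s(u, v), some (some 0)) : ℕ)) ∧
    (∀ (K L : Type) [Field K] [Fintype L] (P : Net K (Sym2 (Fin (q + 2 * n)) × Pl w) L)
      (a : L → K), Fintype.card L ≤ 2 ^ m →
      (∀ x, Known W A B x → (P.value a x ≠ 0 ↔ ¬ Yes x)) →
        ε / 210 * (q * n * Real.logb 2 n) ≤
          (∑ u ∈ A, ∑ v ∈ B, P.reads (s(u, v), some (some 0)) : ℕ)) := by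
  obtain ⟨n₀, hn₀⟩ := asymp hε hε1
  refine ⟨n₀, fun n hn q => ?_⟩
  obtain ⟨W, A, B, hA, hB, hAB, hW, -, hcirc, hnet⟩ := hn₀ n hn q
  have hz : ((0 : ℕ) : ℝ) ≤ (n : ℝ) ^ (1 - ε) := by
    rw [Nat.cast_zero]
    positivity
  have hsum : ∀ g : Fin (q + 2 * n) → ℕ,
      (∀ u ∈ A, ε / 210 * (n * Real.logb 2 n) ≤ (g u : ℝ)) →
      ε / 210 * (q * n * Real.logb 2 n) ≤ ((∑ u ∈ A, g u : ℕ) : ℝ) := by
    intro g hg
    rw [Nat.cast_sum]
    calc ε / 210 * (q * n * Real.logb 2 n) = ∑ _u ∈ A, ε / 210 * (n * Real.logb 2 n) := by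
          rw [sum_const, hA, nsmul_eq_mul]
          ring
      _ ≤ ∑ u ∈ A, (g u : ℝ) := sum_le_sum hg
  refine ⟨W, A, B, hA, hB, hAB, hW, fun w hw m hm => ⟨fun U hU hc d hd => ?_,
    fun K L _ _ P a hP hc => ?_⟩⟩
  · apply hsum (fun u => ∑ v ∈ B, d U.out (s(u, v), some (some 0)))
    intro u hu
    obtain ⟨-, h1⟩ := hcirc w hw m 0 hm hz u hu Unit (fun _ => U) (fun _ => hU)
      (fun _ x hx => (hc x hx).1) (fun x hx hx' => one_le_of_iff hx' (hc x hx))
    exact h1 d hd
  · apply hsum (fun u => ∑ v ∈ B, P.reads (s(u, v), some (some 0)))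
    intro u hu
    obtain ⟨-, h1⟩ := hnet w hw m 0 hm hz u hu Unit (fun _ => K) (fun _ => L) (fun _ => P)
      (fun _ => a) (fun _ => hP) (fun _ x hx => (hc x hx).1)
      (fun x hx hx' => one_le_of_iff hx' (hc x hx))
    exact h1

end Pool.Agent.V11228.KExact
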