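import Pool.Agent.V11228.KBase
import Pool.Agent.W896.FD.Ident2

/-!
# The general bounds with negated bits
-/

set_option autoImplicit false

open Finset

namespace Pool.Agent.V11228.KBase

open Pool.Agent.W896.RK Pool.Agent.W896.HP Pool.Agent.W896.FD
open Pool.Agent.TH700.TN Pool.Agent.V11163.NT Pool.Agent.V11228.OMv

variable {n k : ℕ} {V : Type}

/-- Negating some of the bits of a network. -/
def nneg {K W : Type} (sg : V → Bool) : Net K V W → Net K V W
  | .leaf v f => .leaf v (fun b => f (xor (sg v) b))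
  | .node l r c => .node (nneg sg l) (nneg sg r) c

theorem nneg_eval {K W : Type} [Semiring K] [Fintype W] (sg : V → Bool) (T : Net K V W)
    (x : V → Bool) : (nneg sg T).eval x = T.eval (fun v => xor (sg v) (x v)) := by
  induction T with
  | leaf v f => rfl
  | node l r c ih1 ih2 =>
    change (fun k => ∑ i, ∑ j, c i j k * ((nneg sg l).eval x i * (nneg sg r).eval x j)) = _
    rw [ih1, ih2]
    rfl

theorem nneg_value {K W : Type} [Semiring K] [Fintype W] (sg : V → Bool) (T : Net K V W)
    (a : W → K) (x : V → Bool) :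
    (nneg sg T).value a x = T.value a (fun v => xor (sg v) (x v)) := by
  unfold Net.value
  rw [nneg_eval]

theorem nneg_reads {K W : Type} (sg : V → Bool) (T : Net K V W) (v : V) :
    (nneg sg T).reads v = T.reads v := by
  induction T with
  | leaf u f => rfl
  | node l r c ih1 ih2 =>
    change (nneg sg l).reads v + (nneg sg r).reads v = _
    rw [ih1, ih2]
    rfl

open Classical in
/-- The places which are negated. -/
noncomputable def sgn (p : Fin n ⊕ Fin n → V) (v : V) : Bool := decide (∃ i, p i = v)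

theorem fill_sgn {p : Fin n ⊕ Fin n → V} (hp : Function.Injective p) (b₀ : V → Bool)
    (y : Fin n ⊕ Fin n → Bool) :
    (fun v => xor (sgn p v) (fill p b₀ y v)) = fill p b₀ (fun i => !y i) := by
  classical
  funext v
  unfold sgn
  by_cases h : ∃ i, p i = v
  · obtain ⟨i, rfl⟩ := h
    rw [fill_apply hp, fill_apply hp, decide_eq_true ⟨i, rfl⟩, Bool.true_xor]
  · have h' := h
    push Not at h'
    rw [fill_other _ _ h', fill_other _ _ h', decide_eq_false h, Bool.false_xor]

theorem deg_neg {U : Circ V} {sg : V → Bool} {d : U.G → V → ℕ} (hd : IsDeg U id d) :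
    IsDeg (Star.neg sg U) id (d : (Star.neg sg U).G → V → ℕ) :=
  ⟨fun g v _ e j hj => hd.1 g v _ (Star.neg_lit e) j hj,
    fun g a b e j => hd.2.1 g a b (Star.neg_and e) j,
    fun g S a e ha j => hd.2.2 g S a (Star.neg_any e) ha j⟩

/-- The bound for random circuits. -/
theorem circ_good' {M : Fin n → Fin n → Bool} (hM : Good k n M)
    {p : Fin n ⊕ Fin n → V} (hp : Function.Injective p) (b₀ : V → Bool)
    (R : Type) [Fintype R] [Nonempty R] (U : R → Circ V)
    (hU : ∀ r (y : Fin n ⊕ Fin n → Bool), (U r).Val (fill p b₀ (fun i => !y i)) (U r).out →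
      ∀ i j, y (.inl i) = true → y (.inr j) = true → M i j = false)
    (hc : ∀ y : Fin n ⊕ Fin n → Bool,
      (∀ i j, y (.inl i) = true → y (.inr j) = true → M i j = false) →
      Nat.card R ≤ 2 ^ (n / 2 ^ (70 * (k + 1))) *
        Nat.card {r // (U r).Val (fill p b₀ (fun i => !y i)) (U r).out})
    (hd : ∀ r, ∃ d : (U r).G → V → ℕ, IsDeg (U r) id d ∧
      ∑ i, d (U r).out (p i) ≤ k * n) :
    ∃ r, n ≤ 2 ^ (70 * (k + 1)) * (Nat.log 2 (Fintype.card (U r).G) + 1) := by
  have hv : ∀ r y, (Star.neg (sgn p) (U r)).Val (fill p b₀ y) (Star.neg (sgn p) (U r)).out ↔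
      (U r).Val (fill p b₀ (fun i => !y i)) (U r).out := by
    intro r y
    rw [← fill_sgn hp]
    exact Star.neg_val
  refine circ_good hM hp b₀ R (fun r => Star.neg (sgn p) (U r)) (fun r y hy => ?_)
    (fun y hy => ?_) (fun r => ?_)
  · exact hU r y ((hv r y).1 hy)
  · have h1 := hc y hy
    have h2 : Nat.card {r // (U r).Val (fill p b₀ (fun i => !y i)) (U r).out} =
        Nat.card {r // (Star.neg (sgn p) (U r)).Val (fill p b₀ y)
          (Star.neg (sgn p) (U r)).out} :=
      Nat.card_congr (Equiv.subtypeEquivRight fun r => (hv r y).symm)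
    rw [← h2]
    exact h1
  · obtain ⟨d, hd1, hd2⟩ := hd r
    exact ⟨d, deg_neg hd1, hd2⟩

/-- The bound for random networks. -/
theorem net_good' {M : Fin n → Fin n → Bool} (hM : Good k n M)
    {p : Fin n ⊕ Fin n → V} (hp : Function.Injective p) (b₀ : V → Bool)
    (R : Type) [Fintype R] [Nonempty R] (K W : R → Type) [∀ r, Field (K r)]
    [∀ r, Fintype (W r)] (T : ∀ r, Net (K r) V (W r)) (o : ∀ r, W r → K r)
    (hU : ∀ r (y : Fin n ⊕ Fin n → Bool), (T r).value (o r) (fill p b₀ (fun i => !y i)) ≠ 0 →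
      ∀ i j, y (.inl i) = true → y (.inr j) = true → M i j = false)
    (hc : ∀ y : Fin n ⊕ Fin n → Bool,
      (∀ i j, y (.inl i) = true → y (.inr j) = true → M i j = false) →
      Nat.card R ≤ 2 ^ (n / 2 ^ (70 * (k + 1))) *
        Nat.card {r // (T r).value (o r) (fill p b₀ (fun i => !y i)) ≠ 0})
    (hd : ∀ r, ∑ i, (T r).reads (p i) ≤ k * n) :
    ∃ r, n ≤ 2 ^ (70 * (k + 1)) * (Nat.log 2 (Fintype.card (W r)) + 1) := by
  have hv : ∀ r y, (nneg (sgn p) (T r)).value (o r) (fill p b₀ y) =
      (T r).value (o r) (fill p b₀ (fun i => !y i)) := by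
    intro r y
    rw [nneg_value, fill_sgn hp]
  refine net_good hM hp b₀ R K W (fun r => nneg (sgn p) (T r)) o (fun r y hy => ?_)
    (fun y hy => ?_) (fun r => ?_)
  · rw [hv] at hy
    exact hU r y hy
  · have h1 := hc y hy
    have h2 : Nat.card {r // (T r).value (o r) (fill p b₀ (fun i => !y i)) ≠ 0} =
        Nat.card {r // (nneg (sgn p) (T r)).value (o r) (fill p b₀ y) ≠ 0} :=
      Nat.card_congr (Equiv.subtypeEquivRight fun r => by rw [hv r y])
    rw [← h2]
    exact h1
  · simp only [nneg_reads]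
    exact hd r

end Pool.Agent.V11228.KBase
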