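import Pool.Agent.V11228.KBase
import Pool.Agent.W896.FD.Sum3

/-!
# 3SUM if all digits but some last ones are known in advance
-/

set_option autoImplicit false

open Finset

namespace Pool.Agent.V11228.KSum

open Pool.Agent.W896.RK Pool.Agent.W896.HP Pool.Agent.W896.FD
open Pool.Agent.TH700.TN Pool.Agent.V11163.NT Pool.Agent.V11228.OMv
open Pool.Agent.W896.FD.Sum3 (val Valid Yes)
open Pool.Agent.V11228.KBase

variable {n N w : ℕ}

/-- The numbers `2 u_i` and, for `i` in `T`, the numbers `2 u_i + 1` are the possible values of the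
number `i`. -/
def Known (u : Fin N → ℕ) (T : Finset (Fin N)) (x : Fin N × Option (Fin (w + 1)) → Bool) : Prop :=
  ∀ i, val x i = 2 * u i ∨ (i ∈ T ∧ val x i = 2 * u i + 1)

/-- The numbers of the instance: two families of `n` numbers and one number for each one of the
matrix. -/
abbrev Ix (M : Fin n → Fin n → Bool) : Type :=
  (Fin n ⊕ Fin n) ⊕ {p : Fin n × Fin n // M p.1 p.2 = true}

/-- The size of the gaps. -/
def gap (n : ℕ) : ℕ := 2 * (n * n + n + 1)

/-- Half of a number. -/
def hf (M : Fin n → Fin n → Bool) : Ix M → ℕ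
  | .inl (.inl i) => gap n + 2 * i.val
  | .inl (.inr j) => 3 * gap n + 2 * (n * j.val)
  | .inr p => 4 * gap n + 2 * (p.1.1.val + n * p.1.2.val) + 1

/-- The last bit of a number. -/
def lst (M : Fin n → Fin n → Bool) (y : Fin n ⊕ Fin n → Bool) : Ix M → Bool
  | .inl s => y s
  | .inr _ => false

/-- The number. -/
def num (M : Fin n → Fin n → Bool) (y : Fin n ⊕ Fin n → Bool) (t : Ix M) : ℕ :=
  Nat.bit (lst M y t) (hf M t)

theorem num_eq (M : Fin n → Fin n → Bool) (y : Fin n ⊕ Fin n → Bool) (t : Ix M) :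
    num M y t = 2 * hf M t + (lst M y t).toNat := by
  unfold num
  rw [Nat.bit_val]

theorem mul_le (j : Fin n) : n * j.val + n ≤ n * n := by
  calc n * j.val + n = n * (j.val + 1) := by ring
    _ ≤ n * n := Nat.mul_le_mul_left _ j.isLt

theorem euclid {i i' j j' : Fin n} (h : i.val + n * j.val = i'.val + n * j'.val) :
    i = i' ∧ j = j' := by
  have hn : 0 < n := lt_of_le_of_lt (Nat.zero_le _) i.isLt
  have h1 : (i.val + n * j.val) % n = (i'.val + n * j'.val) % n := by rw [h]
  have h2 : (i.val + n * j.val) / n = (i'.val + n * j'.val) / n := by rw [h]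
  rw [Nat.add_mul_mod_self_left, Nat.add_mul_mod_self_left, Nat.mod_eq_of_lt i.isLt,
    Nat.mod_eq_of_lt i'.isLt] at h1
  rw [Nat.add_mul_div_left _ _ hn, Nat.add_mul_div_left _ _ hn, Nat.div_eq_of_lt i.isLt,
    Nat.div_eq_of_lt i'.isLt, zero_add, zero_add] at h2
  exact ⟨Fin.ext h1, Fin.ext h2⟩

theorem toNat_le (b : Bool) : b.toNat ≤ 1 := by cases b <;> simp

/-- The three kinds of numbers. -/
theorem kinds (M : Fin n → Fin n → Bool) (y : Fin n ⊕ Fin n → Bool) (t : Ix M) :
    (∃ i, t = .inl (.inl i) ∧ num M y t = 2 * gap n + 4 * i.val + (y (.inl i)).toNat) ∨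
    (∃ j, t = .inl (.inr j) ∧ num M y t = 6 * gap n + 4 * (n * j.val) + (y (.inr j)).toNat) ∨
    (∃ p, t = .inr p ∧ num M y t = 8 * gap n + 4 * (p.1.1.val + n * p.1.2.val) + 2) := by
  rw [num_eq]
  rcases t with (i | j) | p
  · exact Or.inl ⟨i, rfl, by unfold hf lst; ring⟩
  · exact Or.inr (Or.inl ⟨j, rfl, by unfold hf lst; ring⟩)
  · exact Or.inr (Or.inr ⟨p, rfl, by
      unfold hf lst
      simp only [Bool.toNat_false]
      ring⟩)

/-- The numbers are different. -/
theorem num_inj (M : Fin n → Fin n → Bool) (y : Fin n ⊕ Fin n → Bool) :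
    Function.Injective (num M y) := by
  intro t t' h
  rcases kinds M y t with ⟨i, rfl, h1⟩ | ⟨j, rfl, h1⟩ | ⟨p, rfl, h1⟩ <;>
    rcases kinds M y t' with ⟨i', rfl, h2⟩ | ⟨j', rfl, h2⟩ | ⟨p', rfl, h2⟩ <;>
    rw [h1, h2] at h
  · have h3 := toNat_le (y (.inl i))
    have h4 := toNat_le (y (.inl i'))
    have : i = i' := Fin.ext (by omega)
    rw [this]
  · exfalso
    have h3 := toNat_le (y (.inl i))
    have h4 := i.isLt
    unfold gap at h
    have h5 := mul_le i
    omega
  · exfalso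
    have h3 := toNat_le (y (.inl i))
    have h4 := i.isLt
    unfold gap at h
    omega
  · exfalso
    have h3 := toNat_le (y (.inl i'))
    have h4 := i'.isLt
    unfold gap at h
    have h5 := mul_le i'
    omega
  · have h3 := toNat_le (y (.inr j))
    have h4 := toNat_le (y (.inr j'))
    have h5 : n * j.val = n * j'.val := by omega
    have hn : 0 < n := lt_of_le_of_lt (Nat.zero_le _) j.isLt
    have : j = j' := Fin.ext (Nat.eq_of_mul_eq_mul_left hn h5)
    rw [this]
  · exfalso
    have h3 := toNat_le (y (.inr j))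
    have h5 := mul_le j
    unfold gap at h
    omega
  · exfalso
    have h3 := toNat_le (y (.inl i'))
    have h4 := i'.isLt
    unfold gap at h
    omega
  · exfalso
    have h3 := toNat_le (y (.inr j'))
    have h5 := mul_le j'
    unfold gap at h
    omega
  · obtain ⟨h3, h4⟩ := euclid (i := p.1.1) (i' := p'.1.1) (j := p.1.2) (j' := p'.1.2) (by omega)
    have : p = p' := Subtype.ext (Prod.ext h3 h4)
    rw [this]

/-- The size of the numbers. -/
theorem num_lt (M : Fin n → Fin n → Bool) (y : Fin n ⊕ Fin n → Bool) (t : Ix M) :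
    num M y t < 20 * (n * n + n + 1) := by
  rcases kinds M y t with ⟨i, -, h1⟩ | ⟨j, -, h1⟩ | ⟨p, -, h1⟩ <;> rw [h1]
  · have h3 := toNat_le (y (.inl i))
    have h5 := mul_le i
    have := i.isLt
    unfold gap
    omega
  · have h3 := toNat_le (y (.inr j))
    have h5 := mul_le j
    unfold gap
    omega
  · have h5 := mul_le p.1.2
    have := p.1.1.isLt
    unfold gap
    omega

/-- The solutions. -/
theorem sum_iff (M : Fin n → Fin n → Bool) (y : Fin n ⊕ Fin n → Bool) :
    (∃ s t v : Ix M, s ≠ t ∧ s ≠ v ∧ t ≠ v ∧ num M y s + num M y t = num M y v) ↔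
      ∃ i j, y (.inl i) = true ∧ y (.inr j) = true ∧ M i j = true := by
  have hab : ∀ (i j : Fin n) (v : Ix M),
      (2 * gap n + 4 * i.val + (y (.inl i)).toNat) +
        (6 * gap n + 4 * (n * j.val) + (y (.inr j)).toNat) = num M y v →
      y (.inl i) = true ∧ y (.inr j) = true ∧ M i j = true := by
    intro i j v h
    have h3 := toNat_le (y (.inl i))
    have h4 := toNat_le (y (.inr j))
    have h5 := mul_le j
    have h6 := i.isLt
    rcases kinds M y v with ⟨i', rfl, h2⟩ | ⟨j', rfl, h2⟩ | ⟨p, rfl, h2⟩ <;> rw [h2] at h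
    · exfalso
      have h7 := toNat_le (y (.inl i'))
      have h8 := i'.isLt
      unfold gap at h
      omega
    · exfalso
      have h7 := toNat_le (y (.inr j'))
      have h8 := mul_le j'
      unfold gap at h
      omega
    · have h7 : i.val + n * j.val = p.1.1.val + n * p.1.2.val ∧
          (y (.inl i)).toNat = 1 ∧ (y (.inr j)).toNat = 1 := by omega
      obtain ⟨h8, h9⟩ := euclid h7.1
      refine ⟨?_, ?_, ?_⟩
      · cases hb : y (.inl i) with
        | true => rfl
        | false => rw [hb] at h7; simp at h7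
      · cases hb : y (.inr j) with
        | true => rfl
        | false => rw [hb] at h7; simp at h7
      · rw [h8, h9]
        exact p.2
  constructor
  · rintro ⟨s, t, v, hst, -, -, h⟩
    rcases kinds M y s with ⟨i, rfl, h1⟩ | ⟨j, rfl, h1⟩ | ⟨p, rfl, h1⟩ <;>
      rcases kinds M y t with ⟨i', rfl, h2⟩ | ⟨j', rfl, h2⟩ | ⟨p', rfl, h2⟩ <;>
      rw [h1, h2] at h
    · exfalso
      have h3 := toNat_le (y (.inl i))
      have h4 := toNat_le (y (.inl i'))
      have h5 := i.isLt
      have h6 := i'.isLt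
      have h7 : i.val ≠ i'.val := by
        intro h7
        exact hst (by rw [Fin.ext h7])
      have h8 := mul_le i
      have h9 := mul_le i'
      rcases kinds M y v with ⟨i'', rfl, h2⟩ | ⟨j'', rfl, h2⟩ | ⟨p, rfl, h2⟩ <;> rw [h2] at h
      · have h7 := toNat_le (y (.inl i''))
        have h8 := i''.isLt
        unfold gap at h
        omega
      · unfold gap at h
        have h10 : 4 * n ≤ n * n + 4 := by nlinarith
        omega
      · unfold gap at h
        have h10 : 4 * n ≤ n * n + 4 := by nlinarith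
        omega
    · obtain ⟨h3, h4, h5⟩ := hab i j' v h
      exact ⟨i, j', h3, h4, h5⟩
    · exfalso
      have := num_lt M y v
      unfold gap at h
      omega
    · obtain ⟨h3, h4, h5⟩ := hab i' j v (by rw [add_comm]; exact h)
      exact ⟨i', j, h3, h4, h5⟩
    · exfalso
      have := num_lt M y v
      unfold gap at h
      omega
    · exfalso
      have := num_lt M y v
      unfold gap at h
      omega
    · exfalso
      have := num_lt M y v
      unfold gap at h
      omega
    · exfalso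
      have := num_lt M y v
      unfold gap at h
      omega
    · exfalso
      have := num_lt M y v
      unfold gap at h
      omega
  · rintro ⟨i, j, h1, h2, h3⟩
    refine ⟨.inl (.inl i), .inl (.inr j), .inr ⟨(i, j), h3⟩, by simp, by simp, by simp, ?_⟩
    rw [num_eq, num_eq, num_eq]
    unfold hf lst
    simp only [h1, h2, Bool.toNat_true, Bool.toNat_false]
    ring

/-! ### The inputs -/

/-- The fixed bits. -/
def base (M : Fin n → Fin n → Bool) (e : Ix M ≃ Fin N) (v : Fin N × Option (Fin (w + 1))) : Bool :=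
  match v.2 with
  | none => false
  | some l => (Nat.bit false (hf M (e.symm v.1))).testBit l.val

/-- The places of the free bits. -/
def ps (M : Fin n → Fin n → Bool) (e : Ix M ≃ Fin N) (s : Fin n ⊕ Fin n) :
    Fin N × Option (Fin (w + 1)) := (e (.inl s), some 0)

theorem ps_inj (M : Fin n → Fin n → Bool) (e : Ix M ≃ Fin N) :
    Function.Injective (ps (w := w) M e) := by
  intro s s' h
  have h1 := e.injective (congrArg Prod.fst h)
  exact Sum.inl_injective h1

/-- The input. -/
noncomputable def inst (M : Fin n → Fin n → Bool) (e : Ix M ≃ Fin N) (w : ℕ)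
    (y : Fin n ⊕ Fin n → Bool) : Fin N × Option (Fin (w + 1)) → Bool :=
  fill (ps M e) (base M e) y

theorem inst_none (M : Fin n → Fin n → Bool) (e : Ix M ≃ Fin N) (y : Fin n ⊕ Fin n → Bool)
    (t : Fin N) : inst M e w y (t, none) = false := by
  unfold inst
  rw [fill_other _ _ (fun s h => by
    have h' := congrArg Prod.snd h
    exact Option.some_ne_none _ h')]
  rfl

theorem inst_some (M : Fin n → Fin n → Bool) (e : Ix M ≃ Fin N) (y : Fin n ⊕ Fin n → Bool)
    (t : Ix M) (l : Fin (w + 1)) : inst M e w y (e t, some l) = (num M y t).testBit l.val := by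
  unfold inst num
  rcases eq_or_ne l 0 with rfl | hl
  · rw [Fin.val_zero, Nat.testBit_bit_zero]
    rcases t with s | p
    · exact fill_apply (ps_inj M e) _ y s
    · rw [fill_other _ _ (fun s h => by
        have h' := e.injective (congrArg Prod.fst h)
        exact absurd h' (by simp))]
      unfold base lst
      simp only [Fin.val_zero, Nat.testBit_bit_zero]
  · obtain ⟨l', hl'⟩ : ∃ l', l.val = l' + 1 := by
      refine ⟨l.val - 1, ?_⟩
      have : l.val ≠ 0 := fun h => hl (Fin.ext h)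
      omega
    rw [fill_other _ _ (fun s h => by
      have h' := Option.some_injective _ (congrArg Prod.snd h)
      exact hl h'.symm)]
    unfold base
    simp only [Equiv.symm_apply_apply]
    rw [hl', Nat.testBit_bit_succ, Nat.testBit_bit_succ]

theorem val_inst (M : Fin n → Fin n → Bool) (e : Ix M ≃ Fin N) (y : Fin n ⊕ Fin n → Bool)
    (hw : 20 * (n * n + n + 1) ≤ 2 ^ (w + 1)) (t : Ix M) :
    val (inst M e w y) (e t) = (num M y t : ℤ) := by
  unfold Pool.Agent.W896.FD.Sum3.val
  rw [inst_none]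
  have h : (fun j => inst M e w y (e t, some j)) =
      fun j : Fin (w + 1) => (num M y t).testBit j.val := by
    funext j
    exact inst_some M e y t j
  rw [h, Nat.ofBits_testBit, Nat.mod_eq_of_lt ((num_lt M y t).trans_le hw)]
  simp

/-- Half of the numbers. -/
def hfN (M : Fin n → Fin n → Bool) (e : Ix M ≃ Fin N) (i : Fin N) : ℕ := hf M (e.symm i)

/-- The numbers whose last bits are not known. -/
def unk (M : Fin n → Fin n → Bool) (e : Ix M ≃ Fin N) : Finset (Fin N) :=
  univ.map ⟨fun s : Fin n ⊕ Fin n => e (.inl s), fun _ _ h => Sum.inl_injective (e.injective h)⟩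

theorem card_unk (M : Fin n → Fin n → Bool) (e : Ix M ≃ Fin N) : (unk M e).card = 2 * n := by
  unfold unk
  rw [card_map, card_univ, Fintype.card_sum, Fintype.card_fin, two_mul]

theorem known_inst (M : Fin n → Fin n → Bool) (e : Ix M ≃ Fin N)
    (hw : 20 * (n * n + n + 1) ≤ 2 ^ (w + 1)) (y : Fin n ⊕ Fin n → Bool) :
    Known (hfN M e) (unk M e) (inst M e w y) := by
  intro i
  obtain ⟨t, rfl⟩ := e.surjective i
  rw [val_inst M e y hw, num_eq]
  unfold hfN
  rw [Equiv.symm_apply_apply]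
  rcases t with s | p
  · cases hs : y s with
    | false =>
      left
      unfold lst
      simp only [hs, Bool.toNat_false]
      push_cast
      ring
    | true =>
      right
      refine ⟨?_, ?_⟩
      · unfold unk
        rw [mem_map]
        exact ⟨s, mem_univ _, rfl⟩
      · unfold lst
        simp only [hs, Bool.toNat_true]
        push_cast
        ring
  · left
    unfold lst
    simp only [Bool.toNat_false]
    push_cast
    ring

/-- Every input of the kind considered has the numbers of one of these inputs. -/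
theorem of_known (M : Fin n → Fin n → Bool) (e : Ix M ≃ Fin N) {x : Fin N × Option (Fin (w + 1)) → Bool}
    (hx : Known (hfN M e) (unk M e) x) :
    ∃ y : Fin n ⊕ Fin n → Bool, ∀ t, val x (e t) = (num M y t : ℤ) := by
  classical
  refine ⟨fun s => decide (val x (e (.inl s)) = 2 * (hf M (.inl s) : ℕ) + 1), fun t => ?_⟩
  rw [num_eq]
  have h := hx (e t)
  unfold hfN at h
  rw [Equiv.symm_apply_apply] at h
  rcases t with s | p
  · by_cases h1 : val x (e (.inl s)) = 2 * (hf M (.inl s) : ℕ) + 1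
    · unfold lst
      simp only [h1, decide_true, Bool.toNat_true]
      push_cast
      ring
    · unfold lst
      simp only [h1, decide_false, Bool.toNat_false]
      rcases h with h | ⟨-, h⟩
      · rw [h]
        push_cast
        ring
      · exact absurd h h1
  · unfold lst
    simp only [Bool.toNat_false]
    rcases h with h | ⟨h, -⟩
    · rw [h]
      push_cast
      ring
    · exfalso
      unfold unk at h
      rw [mem_map] at h
      obtain ⟨s, -, hs⟩ := h
      have := e.injective hs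
      simp at this

theorem valid_known (M : Fin n → Fin n → Bool) (e : Ix M ≃ Fin N) (hn : 4 ≤ n) (hN : 2 * n ≤ N)
    {x : Fin N × Option (Fin (w + 1)) → Bool}
    (hx : Known (hfN M e) (unk M e) x) : Valid x := by
  have h3 : 20 * (n * n + n + 1) ≤ N ^ 3 := by
    calc 20 * (n * n + n + 1) ≤ (2 * n) ^ 3 := by nlinarith [Nat.mul_le_mul hn hn]
      _ ≤ N ^ 3 := Nat.pow_le_pow_left hN 3
  obtain ⟨y, hy⟩ := of_known M e hx
  constructor
  · intro i
    obtain ⟨t, rfl⟩ := e.surjective i
    rw [hy]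
    have h4 : num M y t ≤ N ^ 3 := (num_lt M y t).le.trans h3
    rw [abs_of_nonneg (by positivity)]
    exact_mod_cast h4
  · intro i i' h
    obtain ⟨t, rfl⟩ := e.surjective i
    obtain ⟨t', rfl⟩ := e.surjective i'
    rw [hy, hy] at h
    have h5 : num M y t = num M y t' := by exact_mod_cast h
    rw [num_inj M y h5]

theorem yes_inst (M : Fin n → Fin n → Bool) (e : Ix M ≃ Fin N)
    (hw : 20 * (n * n + n + 1) ≤ 2 ^ (w + 1)) (y : Fin n ⊕ Fin n → Bool) :
    ¬ Yes (inst M e w y) ↔
      ∀ i j, y (.inl i) = true → y (.inr j) = true → M i j = false := by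
  have h1 : Yes (inst M e w y) ↔
      ∃ i j, y (.inl i) = true ∧ y (.inr j) = true ∧ M i j = true := by
    rw [← sum_iff]
    constructor
    · rintro ⟨a, b, c, hab, hac, hbc, h⟩
      obtain ⟨s, rfl⟩ := e.surjective a
      obtain ⟨t, rfl⟩ := e.surjective b
      obtain ⟨v, rfl⟩ := e.surjective c
      rw [val_inst M e y hw, val_inst M e y hw, val_inst M e y hw] at h
      exact ⟨s, t, v, fun h' => hab (by rw [h']), fun h' => hac (by rw [h']),
        fun h' => hbc (by rw [h']), by exact_mod_cast h⟩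
    · rintro ⟨s, t, v, hst, hsv, htv, h⟩
      refine ⟨e s, e t, e v, fun h' => hst (e.injective h'), fun h' => hsv (e.injective h'),
        fun h' => htv (e.injective h'), ?_⟩
      rw [val_inst M e y hw, val_inst M e y hw, val_inst M e y hw]
      exact_mod_cast h
  rw [h1]
  constructor
  · intro h i j hi hj
    cases hM : M i j with
    | false => rfl
    | true => exact absurd ⟨i, j, hi, hj, hM⟩ h
  · rintro h ⟨i, j, hi, hj, hM⟩
    rw [h i j hi hj] at hM
    exact Bool.noConfusion hM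

theorem sum_unk (M : Fin n → Fin n → Bool) (e : Ix M ≃ Fin N)
    (g : Fin N × Option (Fin (w + 1)) → ℕ) :
    ∑ s, g (ps M e s) = ∑ i ∈ unk M e, g (i, some 0) := by
  unfold unk ps
  rw [sum_map]
  rfl

/-- **3SUM with known numbers.** -/
theorem main (k n : ℕ) (hn : 4 ≤ n) : ∃ (N : ℕ) (u : Fin N → ℕ) (T : Finset (Fin N)),
    N ≤ 2 ^ (16 * k + 27) * n ∧ T.card = 2 * n ∧
    (∀ w, ∀ x : Fin N × Option (Fin (w + 1)) → Bool, Known u T x → Valid x) ∧
    (∀ w, N ^ 3 < 2 ^ (w + 1) →
      ∀ (R : Type) [Fintype R] [Nonempty R] (U : R → Circ (Fin N × Option (Fin (w + 1)))),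
      (∀ r x, Known u T x → (U r).Val x (U r).out → ¬ Yes x) →
      (∀ x, Known u T x → ¬ Yes x → Nat.card R ≤
        2 ^ (n / 2 ^ (70 * (k + 1))) * Nat.card {r // (U r).Val x (U r).out}) →
      (∀ r, ∃ d : (U r).G → Fin N × Option (Fin (w + 1)) → ℕ, IsDeg (U r) id d ∧
        ∑ i ∈ T, d (U r).out (i, some 0) ≤ k * n) →
      ∃ r, n ≤ 2 ^ (70 * (k + 1)) * (Nat.log 2 (Fintype.card (U r).G) + 1)) ∧
    (∀ w, N ^ 3 < 2 ^ (w + 1) →
      ∀ (R : Type) [Fintype R] [Nonempty R] (K W : R → Type) [∀ r, Field (K r)]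
        [∀ r, Fintype (W r)] (P : ∀ r, Net (K r) (Fin N × Option (Fin (w + 1))) (W r))
        (a : ∀ r, W r → K r),
      (∀ r x, Known u T x → (P r).value (a r) x ≠ 0 → ¬ Yes x) →
      (∀ x, Known u T x → ¬ Yes x → Nat.card R ≤
        2 ^ (n / 2 ^ (70 * (k + 1))) * Nat.card {r // (P r).value (a r) x ≠ 0}) →
      (∀ r, ∑ i ∈ T, (P r).reads (i, some 0) ≤ k * n) →
      ∃ r, n ≤ 2 ^ (70 * (k + 1)) * (Nat.log 2 (Fintype.card (W r)) + 1)) := by
  obtain ⟨M, hM, hM1⟩ := exists_good k n
  obtain ⟨N, hN⟩ : ∃ N, N = Fintype.card (Ix M) := ⟨_, rfl⟩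
  have hN1 : N = 2 * n + Fintype.card {p : Fin n × Fin n // M p.1 p.2 = true} := by
    rw [hN, Fintype.card_sum, Fintype.card_sum, Fintype.card_fin, two_mul]
  have e : Ix M ≃ Fin N := Fintype.equivFinOfCardEq hN.symm
  have hlow : 2 * n ≤ N := by omega
  have hpow : ∀ w, N ^ 3 < 2 ^ (w + 1) → 20 * (n * n + n + 1) ≤ 2 ^ (w + 1) := by
    intro w hw
    refine le_trans ?_ hw.le
    calc 20 * (n * n + n + 1) ≤ (2 * n) ^ 3 := by nlinarith [Nat.mul_le_mul hn hn]
      _ ≤ N ^ 3 := Nat.pow_le_pow_left hlow 3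
  refine ⟨N, hfN M e, unk M e, ?_, card_unk M e, fun w x hx => valid_known M e hn hlow hx,
    fun w hw R _ _ U hU hc hd => ?_, fun w hw R _ _ K W _ _ P a hU hc hd => ?_⟩
  · have h1 := card_ones hM1
    have h2 : 2 * n ≤ 2 ^ (16 * k + 26) * n := by
      apply Nat.mul_le_mul_right
      calc 2 = 2 ^ 1 := rfl
        _ ≤ _ := Nat.pow_le_pow_right (by norm_num) (by omega)
    have h3 : 2 ^ (16 * k + 27) * n = 2 ^ (16 * k + 26) * n + 2 ^ (16 * k + 26) * n := by
      rw [pow_succ]
      ring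
    omega
  · refine circ_good hM (ps_inj M e) (base M e) R U (fun r y hy => ?_) (fun y hy => ?_)
      (fun r => ?_)
    · exact (yes_inst M e (hpow w hw) y).1 (hU r _ (known_inst M e (hpow w hw) y) hy)
    · exact hc _ (known_inst M e (hpow w hw) y) ((yes_inst M e (hpow w hw) y).2 hy)
    · obtain ⟨d, hd1, hd2⟩ := hd r
      refine ⟨d, hd1, ?_⟩
      rw [sum_unk M e (fun v => d (U r).out v)]
      exact hd2
  · refine net_good hM (ps_inj M e) (base M e) R K W P a (fun r y hy => ?_) (fun y hy => ?_)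
      (fun r => ?_)
    · exact (yes_inst M e (hpow w hw) y).1 (hU r _ (known_inst M e (hpow w hw) y) hy)
    · exact hc _ (known_inst M e (hpow w hw) y) ((yes_inst M e (hpow w hw) y).2 hy)
    · rw [sum_unk M e (fun v => (P r).reads v)]
      exact hd r

/-- Asymptotic form. -/
theorem asymp {ε : ℝ} (hε : 0 < ε) (hε1 : ε ≤ 1) : ∃ n₀ : ℕ, ∀ n ≥ n₀,
    ∃ (N : ℕ) (u : Fin N → ℕ) (T : Finset (Fin N)),
    (N : ℝ) ≤ (n : ℝ) ^ (1 + ε) ∧ T.card = 2 * n ∧
    (∀ w, ∀ x : Fin N × Option (Fin (w + 1)) → Bool, Known u T x → Valid x) ∧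
    (∀ w, N ^ 3 < 2 ^ (w + 1) → ∀ m μ : ℕ, (m : ℝ) ≤ (n : ℝ) ^ (1 - ε) →
        (μ : ℝ) ≤ (n : ℝ) ^ (1 - ε) →
      ∀ (R : Type) [Fintype R] [Nonempty R] (U : R → Circ (Fin N × Option (Fin (w + 1)))),
      (∀ r, Fintype.card (U r).G ≤ 2 ^ m) →
      (∀ r x, Known u T x → (U r).Val x (U r).out → ¬ Yes x) →
      (∀ x, Known u T x → ¬ Yes x → Nat.card R ≤ 2 ^ μ * Nat.card {r // (U r).Val x (U r).out}) →
      ∃ r, ∀ d : (U r).G → Fin N × Option (Fin (w + 1)) → ℕ, IsDeg (U r) id d →
        ε / 210 * (n * Real.logb 2 n) ≤ (∑ i ∈ T, d (U r).out (i, some 0) : ℕ)) ∧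
    (∀ w, N ^ 3 < 2 ^ (w + 1) → ∀ m μ : ℕ, (m : ℝ) ≤ (n : ℝ) ^ (1 - ε) →
        (μ : ℝ) ≤ (n : ℝ) ^ (1 - ε) →
      ∀ (R : Type) [Fintype R] [Nonempty R] (K W : R → Type) [∀ r, Field (K r)]
        [∀ r, Fintype (W r)] (P : ∀ r, Net (K r) (Fin N × Option (Fin (w + 1))) (W r))
        (a : ∀ r, W r → K r),
      (∀ r, Fintype.card (W r) ≤ 2 ^ m) →
      (∀ r x, Known u T x → (P r).value (a r) x ≠ 0 → ¬ Yes x) →
      (∀ x, Known u T x → ¬ Yes x →
        Nat.card R ≤ 2 ^ μ * Nat.card {r // (P r).value (a r) x ≠ 0}) →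
      ∃ r, ε / 210 * (n * Real.logb 2 n) ≤ (∑ i ∈ T, (P r).reads (i, some 0) : ℕ)) := by
  obtain ⟨n₀, hn₀⟩ := asym_size hε hε1
  refine ⟨n₀, fun n hn => ?_⟩
  obtain ⟨hn4, k, hk1, hk0, hk2, hk3⟩ := hn₀ n hn
  obtain ⟨N, u, T, hN, hT, hval, hcirc, hnet⟩ := main k n hn4
  have hn0 : (0 : ℝ) < n := by
    have : (4 : ℝ) ≤ n := by exact_mod_cast hn4
    linarith
  have hkey : ∀ X : ℕ, (X : ℝ) < ε / 210 * (n * Real.logb 2 n) → X ≤ k * n := by
    intro X hX
    have h2 : (X : ℝ) ≤ k * n := by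
      calc (X : ℝ) ≤ ε / 210 * (n * Real.logb 2 n) := hX.le
        _ = (ε / 210 * Real.logb 2 n) * n := by ring
        _ ≤ k * n := by gcongr
    exact_mod_cast h2
  have hlog : ∀ m g : ℕ, (m : ℝ) ≤ (n : ℝ) ^ (1 - ε) → g ≤ 2 ^ m →
      ¬ n ≤ 2 ^ (70 * (k + 1)) * (Nat.log 2 g + 1) := by
    intro m g hm hg h
    refine hk3 m hm (h.trans (Nat.mul_le_mul_left _ (Nat.add_le_add_right ?_ 1)))
    exact (Nat.log_mono_right hg).trans (le_of_eq (Nat.log_pow (by norm_num) m))
  refine ⟨N, u, T, ?_, hT, hval, fun w hw m μ hm hμ R _ _ U hg hU hc => ?_,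
    fun w hw m μ hm hμ R _ _ K W _ _ P a hg hU hc => ?_⟩
  · calc (N : ℝ) ≤ ((2 ^ (16 * k + 27) * n : ℕ) : ℝ) := by exact_mod_cast hN
      _ = (2 : ℝ) ^ (16 * k + 27) * n := by push_cast; ring
      _ ≤ (n : ℝ) ^ ε * n := by gcongr
      _ = (n : ℝ) ^ (1 + ε) := by
          rw [add_comm, Real.rpow_add hn0, Real.rpow_one]
  · by_contra hcon
    push Not at hcon
    obtain ⟨r, hr⟩ := hcirc w hw R U hU (fun x hx hx' => (hc x hx hx').trans
      (Nat.mul_le_mul_right _ (Nat.pow_le_pow_right (by norm_num) (hk2 μ hμ)))) (fun r => by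
        obtain ⟨d, hd, hd'⟩ := hcon r
        exact ⟨d, hd, hkey _ hd'⟩)
    exact hlog m _ hm (hg r) hr
  · by_contra hcon
    push Not at hcon
    obtain ⟨r, hr⟩ := hnet w hw R K W P a hU (fun x hx hx' => (hc x hx hx').trans
      (Nat.mul_le_mul_right _ (Nat.pow_le_pow_right (by norm_num) (hk2 μ hμ))))
      (fun r => hkey _ (hcon r))
    exact hlog m _ hm (hg r) hr

/-- A network which reads the unknown bits once. -/
theorem upper (K : Type) [Field K] (N w : ℕ) (T : Finset (Fin N)) (hT : T.Nonempty) :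
    ∃ (W : Type) (_ : Fintype W) (P : Net K (Fin N × Option (Fin (w + 1))) W) (a : W → K),
      Fintype.card W = 2 ^ T.card + 1 ∧ (∀ i ∈ T, P.reads (i, some 0) = 1) ∧
        ∀ x, P.value a x ≠ 0 ↔ Valid x ∧ ¬ Yes x := by
  classical
  obtain ⟨i₀, hi₀⟩ := hT
  obtain ⟨W, hW, P, a, h1, h2, h3⟩ := exists_net K
    (T.image (fun i => ((i, some 0) : Fin N × Option (Fin (w + 1)))))
    ⟨_, mem_image_of_mem _ hi₀⟩ ⟨(i₀, none), by
      rw [mem_image]
      rintro ⟨i, -, h⟩
      exact Option.some_ne_none _ (congrArg Prod.snd h)⟩ (fun x => Valid x ∧ ¬ Yes x)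
  refine ⟨W, hW, P, a, ?_, fun i hi => h2 _ (mem_image_of_mem _ hi), h3⟩
  rw [h1, card_image_of_injective _ (fun i i' h => congrArg Prod.fst h)]

end Pool.Agent.V11228.KSum
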