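import Pool.Agent.V11228.KBase
import Pool.Agent.W896.FD.Graph

/-!
# Triangles through a new vertex of a known graph
-/

set_option autoImplicit false

open Finset

namespace Pool.Agent.V11228.KTri

open Pool.Agent.W896.RK Pool.Agent.W896.HP Pool.Agent.W896.FD
open Pool.Agent.TH700.TN Pool.Agent.V11163.NT Pool.Agent.V11228.OMv
open Pool.Agent.V11228.KBase

variable {V : Type} {n : ℕ}

/-- The graph `H` with a new vertex `none`, which is joined to the vertices `v` with
`y v = true`. -/
def plus (H : SimpleGraph V) (y : V → Bool) : SimpleGraph (Option V) where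
  Adj a b := match a, b with
    | none, none => False
    | none, some v => y v = true
    | some v, none => y v = true
    | some v, some w => H.Adj v w
  symm := ⟨by
    rintro (_ | v) (_ | w) h
    · exact h
    · exact h
    · exact h
    · exact SimpleGraph.Adj.symm (G := H) h⟩
  loopless := ⟨by
    rintro (_ | v) h
    · exact h
    · exact H.irrefl h⟩

theorem plus_new (H : SimpleGraph V) (y : V → Bool) (v : V) :
    (plus H y).Adj none (some v) ↔ y v = true := Iff.rfl

theorem plus_old (H : SimpleGraph V) (y : V → Bool) (v w : V) :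
    (plus H y).Adj (some v) (some w) ↔ H.Adj v w := Iff.rfl

/-- The bipartite graph of a matrix. -/
def bip (M : Fin n → Fin n → Bool) : SimpleGraph (Fin n ⊕ Fin n) where
  Adj a b := match a, b with
    | .inl i, .inr j => M i j = true
    | .inr j, .inl i => M i j = true
    | _, _ => False
  symm := ⟨by
    rintro (i | j) (i' | j') h
    · exact h
    · exact h
    · exact h
    · exact h⟩
  loopless := ⟨by
    rintro (i | j) h
    · exact h
    · exact h⟩

theorem bip_lr (M : Fin n → Fin n → Bool) (i j : Fin n) :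
    (bip M).Adj (.inl i) (.inr j) ↔ M i j = true := Iff.rfl

theorem bip_ll (M : Fin n → Fin n → Bool) (i j : Fin n) :
    ¬ (bip M).Adj (.inl i) (.inl j) := fun h => h

theorem bip_rr (M : Fin n → Fin n → Bool) (i j : Fin n) :
    ¬ (bip M).Adj (.inr i) (.inr j) := fun h => h

theorem card_edges (M : Fin n → Fin n → Bool) {d : ℕ}
    (hM : ∀ r, (univ.filter (fun c => M r c = true)).card ≤ d) :
    (bip M).edgeSet.ncard ≤ d * n := by
  classical
  have h1 : (bip M).edgeSet ⊆ (((univ.filter (fun p : Fin n × Fin n => M p.1 p.2 = true)).image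
      (fun p => s(Sum.inl p.1, Sum.inr p.2)) : Finset (Sym2 (Fin n ⊕ Fin n))) :
        Set (Sym2 (Fin n ⊕ Fin n))) := by
    intro e he
    induction e with
    | _ a b =>
      rw [SimpleGraph.mem_edgeSet] at he
      rw [mem_coe, mem_image]
      rcases a with i | j <;> rcases b with i' | j'
      · exact absurd he (bip_ll M i i')
      · exact ⟨(i, j'), mem_filter.2 ⟨mem_univ _, he⟩, rfl⟩
      · exact ⟨(i', j), mem_filter.2 ⟨mem_univ _, he⟩, Sym2.eq_swap⟩
      · exact absurd he (bip_rr M j j')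
  refine (Set.ncard_le_ncard h1 (finite_toSet _)).trans ?_
  rw [Set.ncard_coe_finset]
  refine card_image_le.trans ?_
  have h2 := card_ones hM
  rw [Fintype.card_subtype] at h2
  exact h2

/-- The triangles. -/
theorem tri_iff (M : Fin n → Fin n → Bool) (y : Fin n ⊕ Fin n → Bool) :
    (plus (bip M) y).CliqueFree 3 ↔
      ∀ i j, y (.inl i) = true → y (.inr j) = true → M i j = false := by
  classical
  constructor
  · intro h i j hi hj
    cases hM : M i j with
    | false => rfl
    | true =>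
      exfalso
      refine h {none, some (.inl i), some (.inr j)} ?_
      rw [SimpleGraph.is3Clique_triple_iff]
      exact ⟨hi, hj, hM⟩
  · intro h s hs
    rw [SimpleGraph.is3Clique_iff] at hs
    obtain ⟨a, b, c, hab, hac, hbc, -⟩ := hs
    have key : ∀ v w : Fin n ⊕ Fin n, y v = true → y w = true → ¬ (bip M).Adj v w := by
      rintro (i | j) (i' | j') hv hw hvw
      · exact bip_ll M i i' hvw
      · have h1 := h i j' hv hw
        rw [show M i j' = true from hvw] at h1
        exact Bool.noConfusion h1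
      · have h1 := h i' j hw hv
        rw [show M i' j = true from hvw] at h1
        exact Bool.noConfusion h1
      · exact bip_rr M j j' hvw
    have key2 : ∀ u v w : Fin n ⊕ Fin n, (bip M).Adj u v → (bip M).Adj u w →
        ¬ (bip M).Adj v w := by
      rintro (i | j) (i' | j') (i'' | j'') h1 h2 h3
      · exact bip_ll M _ _ h1
      · exact bip_ll M _ _ h1
      · exact bip_ll M _ _ h2
      · exact bip_rr M _ _ h3
      · exact bip_ll M _ _ h3
      · exact bip_rr M _ _ h2
      · exact bip_rr M _ _ h1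
      · exact bip_rr M _ _ h1
    rcases a with _ | a <;> rcases b with _ | b <;> rcases c with _ | c
    · exact hab
    · exact hab
    · exact hac
    · exact key b c hab hac hbc
    · exact hbc
    · exact key a c hab hbc hac
    · exact key a b hac hbc hab
    · exact key2 a b c hab hac hbc

/-- The places of the bits at the new vertex. -/
def ps (s : Fin n ⊕ Fin n) : Sym2 (Option (Fin n ⊕ Fin n)) := s(none, some s)

theorem ps_inj : Function.Injective (ps (n := n)) := by
  intro s s' h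
  unfold ps at h
  rw [Sym2.eq_iff] at h
  rcases h with ⟨-, h⟩ | ⟨h, -⟩
  · exact Option.some_injective _ h
  · exact absurd h.symm (Option.some_ne_none _)

theorem fill_eq (M : Fin n → Fin n → Bool) (y : Fin n ⊕ Fin n → Bool) :
    fill ps (bits (plus (bip M) (fun _ => false))) y = bits (plus (bip M) y) := by
  classical
  funext e
  by_cases h : ∃ s, ps s = e
  · obtain ⟨s, rfl⟩ := h
    rw [fill_apply ps_inj]
    have h1 := bits_true (plus (bip M) y) (ps s)
    unfold ps at h1
    rw [SimpleGraph.mem_edgeSet, plus_new] at h1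
    unfold ps
    cases hy : y s with
    | true => exact (h1.2 hy).symm
    | false =>
      rw [hy] at h1
      simp only [Bool.false_eq_true, iff_false, Bool.not_eq_true] at h1
      exact h1.symm
  · push Not at h
    rw [fill_other _ _ h]
    induction e with
    | _ a b =>
      have h1 := bits_true (plus (bip M) y) s(a, b)
      have h2 := bits_true (plus (bip M) (fun _ => false)) s(a, b)
      rw [SimpleGraph.mem_edgeSet] at h1 h2
      have h3 : (plus (bip M) y).Adj a b ↔ (plus (bip M) (fun _ => false)).Adj a b := by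
        rcases a with _ | a <;> rcases b with _ | b
        · exact Iff.rfl
        · exact absurd rfl (h b)
        · exact absurd Sym2.eq_swap (h a)
        · exact Iff.rfl
      rw [Bool.eq_iff_iff, h1, h2, h3]

/-- **Triangles through a new vertex.** -/
theorem main (k n : ℕ) : ∃ H : SimpleGraph (Fin n ⊕ Fin n),
    H.edgeSet.ncard ≤ 2 ^ (16 * k + 26) * n ∧ H.CliqueFree 3 ∧
    (∀ (R : Type) [Fintype R] [Nonempty R] (U : R → Circ (Sym2 (Option (Fin n ⊕ Fin n)))),
      (∀ r y, (U r).Val (bits (plus H y)) (U r).out → (plus H y).CliqueFree 3) →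
      (∀ y, (plus H y).CliqueFree 3 → Nat.card R ≤
        2 ^ (n / 2 ^ (70 * (k + 1))) * Nat.card {r // (U r).Val (bits (plus H y)) (U r).out}) →
      (∀ r, ∃ d : (U r).G → Sym2 (Option (Fin n ⊕ Fin n)) → ℕ, IsDeg (U r) id d ∧
        ∑ v, d (U r).out s(none, some v) ≤ k * n) →
      ∃ r, n ≤ 2 ^ (70 * (k + 1)) * (Nat.log 2 (Fintype.card (U r).G) + 1)) ∧
    (∀ (R : Type) [Fintype R] [Nonempty R] (K W : R → Type) [∀ r, Field (K r)]
        [∀ r, Fintype (W r)] (P : ∀ r, Net (K r) (Sym2 (Option (Fin n ⊕ Fin n))) (W r))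
        (a : ∀ r, W r → K r),
      (∀ r y, (P r).value (a r) (bits (plus H y)) ≠ 0 → (plus H y).CliqueFree 3) →
      (∀ y, (plus H y).CliqueFree 3 → Nat.card R ≤
        2 ^ (n / 2 ^ (70 * (k + 1))) *
          Nat.card {r // (P r).value (a r) (bits (plus H y)) ≠ 0}) →
      (∀ r, ∑ v, (P r).reads s(none, some v) ≤ k * n) →
      ∃ r, n ≤ 2 ^ (70 * (k + 1)) * (Nat.log 2 (Fintype.card (W r)) + 1)) := by
  classical
  obtain ⟨M, hM, hM1⟩ := exists_good k n
  have hfree : (bip M).CliqueFree 3 := by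
    intro s hs
    have h1 := (tri_iff M (fun _ => false)).2 (fun i j hi => absurd hi (by simp))
    rw [SimpleGraph.is3Clique_iff] at hs
    obtain ⟨a, b, c, hab, hac, hbc, -⟩ := hs
    refine h1 {some a, some b, some c} ?_
    rw [SimpleGraph.is3Clique_triple_iff]
    exact ⟨hab, hac, hbc⟩
  refine ⟨bip M, card_edges M hM1, hfree, fun R _ _ U hU hc hd => ?_,
    fun R _ _ K W _ _ P a hU hc hd => ?_⟩
  · refine circ_good hM ps_inj (bits (plus (bip M) (fun _ => false))) R U (fun r y hy => ?_)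
      (fun y hy => ?_) (fun r => hd r)
    · rw [fill_eq] at hy
      exact (tri_iff M y).1 (hU r y hy)
    · rw [fill_eq]
      exact hc y ((tri_iff M y).2 hy)
  · refine net_good hM ps_inj (bits (plus (bip M) (fun _ => false))) R K W P a
      (fun r y hy => ?_) (fun y hy => ?_) (fun r => hd r)
    · rw [fill_eq] at hy
      exact (tri_iff M y).1 (hU r y hy)
    · rw [fill_eq]
      exact hc y ((tri_iff M y).2 hy)

/-- Asymptotic form. -/
theorem asymp {ε : ℝ} (hε : 0 < ε) (hε1 : ε ≤ 1) : ∃ n₀ : ℕ, ∀ n ≥ n₀,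
    ∃ H : SimpleGraph (Fin n ⊕ Fin n),
    (H.edgeSet.ncard : ℝ) ≤ (n : ℝ) ^ (1 + ε) ∧ H.CliqueFree 3 ∧
    (∀ m μ : ℕ, (m : ℝ) ≤ (n : ℝ) ^ (1 - ε) → (μ : ℝ) ≤ (n : ℝ) ^ (1 - ε) →
      ∀ (R : Type) [Fintype R] [Nonempty R] (U : R → Circ (Sym2 (Option (Fin n ⊕ Fin n)))),
      (∀ r, Fintype.card (U r).G ≤ 2 ^ m) →
      (∀ r y, (U r).Val (bits (plus H y)) (U r).out → (plus H y).CliqueFree 3) →
      (∀ y, (plus H y).CliqueFree 3 → Nat.card R ≤
        2 ^ μ * Nat.card {r // (U r).Val (bits (plus H y)) (U r).out}) →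
      ∃ r, ∀ d : (U r).G → Sym2 (Option (Fin n ⊕ Fin n)) → ℕ, IsDeg (U r) id d →
        ε / 210 * (n * Real.logb 2 n) ≤ (∑ v, d (U r).out s(none, some v) : ℕ)) ∧
    (∀ m μ : ℕ, (m : ℝ) ≤ (n : ℝ) ^ (1 - ε) → (μ : ℝ) ≤ (n : ℝ) ^ (1 - ε) →
      ∀ (R : Type) [Fintype R] [Nonempty R] (K W : R → Type) [∀ r, Field (K r)]
        [∀ r, Fintype (W r)] (P : ∀ r, Net (K r) (Sym2 (Option (Fin n ⊕ Fin n))) (W r))
        (a : ∀ r, W r → K r),
      (∀ r, Fintype.card (W r) ≤ 2 ^ m) →
      (∀ r y, (P r).value (a r) (bits (plus H y)) ≠ 0 → (plus H y).CliqueFree 3) →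
      (∀ y, (plus H y).CliqueFree 3 → Nat.card R ≤
        2 ^ μ * Nat.card {r // (P r).value (a r) (bits (plus H y)) ≠ 0}) →
      ∃ r, ε / 210 * (n * Real.logb 2 n) ≤ (∑ v, (P r).reads s(none, some v) : ℕ)) := by
  obtain ⟨n₀, hn₀⟩ := asym_size hε hε1
  refine ⟨n₀, fun n hn => ?_⟩
  obtain ⟨hn4, k, hk1, hk0, hk2, hk3⟩ := hn₀ n hn
  obtain ⟨H, hH, hfree, hcirc, hnet⟩ := main k n
  have hn0 : (0 : ℝ) < n := by
    have : (4 : ℝ) ≤ n := by exact_mod_cast hn4
    linarith
  have hkey : ∀ X : ℕ, (X : ℝ) < ε / 210 * (n * Real.logb 2 n) → X ≤ k * n := by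
    intro X hX
    have h2 : (X : ℝ) ≤ k * n := by
      calc (X : ℝ) ≤ ε / 210 * (n * Real.logb 2 n) := hX.le
        _ = (ε / 210 * Real.logb 2 n) * n := by ring
        _ ≤ k * n := by gcongr
    exact_mod_cast h2
  have hlog : ∀ m g : ℕ, (m : ℝ) ≤ (n : ℝ) ^ (1 - ε) → g ≤ 2 ^ m →
      ¬ n ≤ 2 ^ (70 * (k + 1)) * (Nat.log 2 g + 1) := by
    intro m g hm hg h
    refine hk3 m hm (h.trans (Nat.mul_le_mul_left _ (Nat.add_le_add_right ?_ 1)))
    exact (Nat.log_mono_right hg).trans (le_of_eq (Nat.log_pow (by norm_num) m))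
  refine ⟨H, ?_, hfree, fun m μ hm hμ R _ _ U hg hU hc => ?_,
    fun m μ hm hμ R _ _ K W _ _ P a hg hU hc => ?_⟩
  · calc (H.edgeSet.ncard : ℝ) ≤ ((2 ^ (16 * k + 26) * n : ℕ) : ℝ) := by exact_mod_cast hH
      _ = (2 : ℝ) ^ (16 * k + 26) * n := by push_cast; ring
      _ ≤ (2 : ℝ) ^ (16 * k + 27) * n := by
          gcongr
          · norm_num
          · omega
      _ ≤ (n : ℝ) ^ ε * n := by gcongr
      _ = (n : ℝ) ^ (1 + ε) := by
          rw [add_comm, Real.rpow_add hn0, Real.rpow_one]
  · by_contra hcon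
    push Not at hcon
    obtain ⟨r, hr⟩ := hcirc R U hU (fun y hy => (hc y hy).trans
      (Nat.mul_le_mul_right _ (Nat.pow_le_pow_right (by norm_num) (hk2 μ hμ)))) (fun r => by
        obtain ⟨d, hd, hd'⟩ := hcon r
        exact ⟨d, hd, hkey _ hd'⟩)
    exact hlog m _ hm (hg r) hr
  · by_contra hcon
    push Not at hcon
    obtain ⟨r, hr⟩ := hnet R K W P a hU (fun y hy => (hc y hy).trans
      (Nat.mul_le_mul_right _ (Nat.pow_le_pow_right (by norm_num) (hk2 μ hμ))))
      (fun r => hkey _ (hcon r))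
    exact hlog m _ hm (hg r) hr

/-- A network which reads the bits at the new vertex once. -/
theorem upper (K : Type) [Field K] (hn : 1 ≤ n) :
    ∃ (W : Type) (_ : Fintype W) (P : Net K (Sym2 (Option (Fin n ⊕ Fin n))) W) (a : W → K),
      Fintype.card W = 4 ^ n + 1 ∧ (∀ v, P.reads s(none, some v) = 1) ∧
        ∀ G : SimpleGraph (Option (Fin n ⊕ Fin n)), P.value a (bits G) ≠ 0 ↔ G.CliqueFree 3 := by
  classical
  obtain ⟨W, hW, P, a, h1, h2, h3⟩ := exists_net K ((univ : Finset (Fin n ⊕ Fin n)).image ps)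
    ⟨_, mem_image_of_mem _ (mem_univ (Sum.inl ⟨0, hn⟩))⟩ ⟨s(none, none), by
      rw [mem_image]
      rintro ⟨s, -, h⟩
      unfold ps at h
      rw [Sym2.eq_iff] at h
      rcases h with ⟨-, h⟩ | ⟨-, h⟩ <;> exact absurd h (Option.some_ne_none _)⟩
    (fun x => ∀ G : SimpleGraph (Option (Fin n ⊕ Fin n)), x = bits G → G.CliqueFree 3)
  refine ⟨W, hW, P, a, ?_, fun v => h2 _ (mem_image_of_mem ps (mem_univ v)), fun G => ?_⟩
  · rw [h1, card_image_of_injective _ ps_inj, card_univ, Fintype.card_sum, Fintype.card_fin,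
      ← two_mul, pow_mul]
    norm_num
  · rw [h3]
    constructor
    · intro h
      exact h G rfl
    · intro h G' hG
      have : G = G' := by
        ext v w
        rw [← SimpleGraph.mem_edgeSet, ← SimpleGraph.mem_edgeSet, ← Pool.Agent.W896.FD.bits_true,
          ← Pool.Agent.W896.FD.bits_true, hG]
      rw [← this]
      exact h

end Pool.Agent.V11228.KTri
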