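import Pool.Agent.V11228.LSGeo
import Pool.Agent.H612.PatOf
import Pool.Agent.H625R2.BallMem
import Pool.Agent.ER.Dec

/-!
# Long and short edges of complete bipartite graphs: the reduction
-/

namespace Pool.Agent.NPC.V11228

open Pool.Agent.NPC Pool.Agent.NPC.ER
open Pool.Agent.NPC.ER.Pat (sgn SR SRN Rect wid wid_eq upoly_wid)

/-- Long/short edge realizability of a complete bipartite graph.  An instance is the matrix of a
partition of the edges of `K_{m,n}`, a list of `m` rows of the same length `n`; the entry in row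
`i` and column `j` is `true` if the edge between the `i`-th vertex of the first side and the
`j`-th vertex of the second side is short, and `false` if it is long. -/
def LongShort (M : List (List Bool)) : Prop :=
  ∃ n : ℕ, n = (M.headD []).length ∧ (∀ row ∈ M, row.length = n) ∧
    ∃ x : Fin M.length ⊕ Fin n → Plane,
      IsDrawing (completeBipartiteGraph (Fin M.length) (Fin n)) x ∧
      ∀ (i : Fin M.length) (j : Fin n),
        dist (x (Sum.inl i)) (x (Sum.inr j)) ≤ 1 ↔ M[i].getD j false = true

/-- The doubled matrix. -/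
def dbl (M : List (List Bool)) : List (List Bool) := M.map fun row => row ++ row.map not

theorem length_dbl (M : List (List Bool)) : (dbl M).length = M.length := by simp [dbl]

theorem rect_dbl {M : List (List Bool)} {w : ℕ} (h : Rect w M) : Rect (2 * w) (dbl M) := by
  intro row hrow
  unfold dbl at hrow
  rw [List.mem_map] at hrow
  obtain ⟨r, hr, rfl⟩ := hrow
  have := h r hr
  simp
  omega

theorem get_dbl {M : List (List Bool)} {i : ℕ} (hi : i < M.length) :
    (dbl M)[i]'(by rw [length_dbl]; exact hi) = M[i] ++ M[i].map not := by simp [dbl]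

theorem dbl_getD {M : List (List Bool)} {i : ℕ} (hi : i < M.length) :
    (dbl M).getD i [] = M[i] ++ M[i].map not := by
  rw [List.getD_eq_getElem (dbl M) [] (by rw [length_dbl]; exact hi), get_dbl hi]

theorem wid_dbl (M : List (List Bool)) : wid (dbl M) = 2 * wid M := by
  cases M with
  | nil => rfl
  | cons a M => simp [wid, dbl]; omega

/-- A drawing gives a sign matrix of rank at most three. -/
theorem sr_of_longShort {M : List (List Bool)} {w : ℕ} (hM : Rect w M)
    (h : LongShort (dbl M)) : SR 3 M := by
  obtain ⟨n, hn, hr, x, -, hx⟩ := h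
  have hl := length_dbl M
  by_cases hne : M = []
  · subst hne
    exact ⟨0, 0, fun i hi => absurd hi (by simp)⟩
  have hw : ∀ i (hi : i < M.length), M[i].length = w := fun i hi => hM _ (List.getElem_mem hi)
  have hn2 : n = 2 * w := by
    have h0 : 0 < M.length := List.length_pos_of_ne_nil hne
    have h1 := hr ((dbl M)[0]'(by omega)) (List.getElem_mem _)
    rw [get_dbl h0] at h1
    rw [← h1]
    simp [hw 0 h0]
    omega
  -- the points
  let P : ℕ → Plane := fun i => if h : i < (dbl M).length then x (Sum.inl ⟨i, h⟩) else 0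
  let Q : ℕ → Plane := fun j => if h : j < n then x (Sum.inr ⟨j, h⟩) else 0
  have key : ∀ i < M.length, ∀ j < n, (dist (P i) (Q j) ≤ 1 ↔
      ((dbl M).getD i []).getD j false = true) := by
    intro i hi j hj
    have hi' : i < (dbl M).length := by omega
    have := hx ⟨i, hi'⟩ ⟨j, hj⟩
    simp only [P, Q, dif_pos hi', dif_pos hj]
    rw [this]
    have e : (dbl M).getD i [] = (dbl M)[i] := List.getD_eq_getElem _ _ hi'
    rw [e]
    rfl
  refine ⟨fun i => ![1, P i 0, P i 1], fun j => ![(Q (w + j) 0 ^ 2 + Q (w + j) 1 ^ 2) -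
    (Q j 0 ^ 2 + Q j 1 ^ 2), -2 * (Q (w + j) 0 - Q j 0), -2 * (Q (w + j) 1 - Q j 1)], ?_⟩
  intro i hi j hj
  have hjw : j < w := by rw [← hw i hi]; exact hj
  have e1 : ((dbl M).getD i []).getD j false = M[i][j] := by
    rw [dbl_getD hi, List.getD_eq_getElem _ _ (by simp; omega), List.getElem_append_left hj]
  have e2 : ((dbl M).getD i []).getD (w + j) false = !M[i][j] := by
    rw [dbl_getD hi, List.getD_eq_getElem _ _ (by simp [hw i hi]; omega), List.getElem_append_right (by rw [hw i hi]; omega)]
    simp [hw i hi]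
  have k1 := key i hi j (by omega)
  have k2 := key i hi (w + j) (by omega)
  rw [e1, dist_le_one_iff] at k1
  rw [e2, dist_le_one_iff] at k2
  have e3 : (![1, P i 0, P i 1] : Fin 3 → ℝ) ⬝ᵥ ![(Q (w + j) 0 ^ 2 + Q (w + j) 1 ^ 2) -
      (Q j 0 ^ 2 + Q j 1 ^ 2), -2 * (Q (w + j) 0 - Q j 0), -2 * (Q (w + j) 1 - Q j 1)] =
      ((P i 0 - Q (w + j) 0) ^ 2 + (P i 1 - Q (w + j) 1) ^ 2) -
      ((P i 0 - Q j 0) ^ 2 + (P i 1 - Q j 1) ^ 2) := by
    simp [dotProduct, Fin.sum_univ_three]
    ring
  rw [e3]
  cases hb : M[i][j] with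
  | true =>
    rw [hb] at k1 k2
    have h1 := k1.2 rfl
    have h2 : 1 < (P i 0 - Q (w + j) 0) ^ 2 + (P i 1 - Q (w + j) 1) ^ 2 := by
      by_contra h
      exact absurd (k2.1 (not_lt.1 h)) (by simp)
    simp only [Pat.sgn_true]
    linarith
  | false =>
    rw [hb] at k1 k2
    have h1 := k2.2 rfl
    have h2 : 1 < (P i 0 - Q j 0) ^ 2 + (P i 1 - Q j 1) ^ 2 := by
      by_contra h
      exact absurd (k1.1 (not_lt.1 h)) (by simp)
    simp only [Pat.sgn_false]
    linarith

/-- A normalized realization of a sign matrix gives a drawing. -/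
theorem longShort_of_srn {M : List (List Bool)} {w : ℕ} (hM : Rect w M) (h : SRN 2 M) :
    LongShort (dbl M) := by
  obtain ⟨p, q, r, hpqr⟩ := exists_strict h
  have hl := length_dbl M
  set m := (dbl M).length with hm
  by_cases hne : M = []
  · subst hne
    refine ⟨0, rfl, fun row hrow => absurd hrow (by simp [dbl]), fun _ => 0, ⟨?_, ?_⟩, ?_⟩
    · rintro (⟨i, hi⟩ | ⟨i, hi⟩)
      · simp [dbl] at hi
      · exact absurd hi (by simp)
    · rintro (⟨i, hi⟩ | ⟨i, hi⟩)
      · simp [dbl] at hi
      · exact absurd hi (by simp)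
    · rintro ⟨i, hi⟩
      simp [dbl] at hi
  have hw : ∀ i (hi : i < M.length), M[i].length = w := fun i hi => hM _ (List.getElem_mem hi)
  have hn : wid (dbl M) = 2 * w := by
    have h0 : 0 < M.length := List.length_pos_of_ne_nil hne
    rw [wid_dbl, ← wid_eq hM h0, hw 0 h0]
  -- the positions
  let X : ℕ → Plane := fun k => if k < m then p k else if k < m + w then q (k - m)
    else r (k - m - w)
  let Bt : ℕ → ℕ → Bool := fun i j => ((dbl M).getD i []).getD j false
  have e1 : ∀ i (hi : i < M.length) j (hj : j < w), Bt i j =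
      M[i][j]'(by rw [hw i hi]; exact hj) := by
    intro i hi j hj
    simp only [Bt]
    rw [dbl_getD hi, List.getD_eq_getElem _ _ (by simp [hw i hi]; omega), List.getElem_append_left (by rw [hw i hi]; exact hj)]
  have e2 : ∀ i (hi : i < M.length) j (hj : j < w), Bt i (w + j) =
      !M[i][j]'(by rw [hw i hi]; exact hj) := by
    intro i hi j hj
    simp only [Bt]
    rw [dbl_getD hi, List.getD_eq_getElem _ _ (by simp [hw i hi]; omega), List.getElem_append_right (by rw [hw i hi]; omega)]
    simp [hw i hi]
  have hX : ∀ i < m, ∀ j < 2 * w, (Bt i j = true → dist (X i) (X (m + j)) < 1) ∧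
      (Bt i j = false → 1 < dist (X i) (X (m + j))) := by
    intro i hi j hj
    have hi' : i < M.length := by omega
    have x1 : X i = p i := by simp only [X]; rw [if_pos hi]
    rw [x1]
    by_cases hjw : j < w
    · have x2 : X (m + j) = q j := by
        simp only [X]
        rw [if_neg (by omega), if_pos (by omega)]
        congr 1
        omega
      have := hpqr i hi' j (by rw [hw i hi']; exact hjw)
      rw [x2, e1 i hi' j hjw]
      exact ⟨fun h => (this.1 h).1, fun h => (this.2 h).1⟩
    · obtain ⟨j', rfl⟩ : ∃ j', j = w + j' := ⟨j - w, by omega⟩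
      have x2 : X (m + (w + j')) = r j' := by
        simp only [X]
        rw [if_neg (by omega), if_neg (by omega)]
        congr 1
        omega
      have := hpqr i hi' j' (by rw [hw i hi']; omega)
      rw [x2, e2 i hi' j' (by omega)]
      refine ⟨fun h => (this.2 ?_).2, fun h => (this.1 ?_).2⟩
      · simpa using h
      · simpa using h
  obtain ⟨Y, h1, h2, h3, h4⟩ := exists_general (m + 2 * w) X
    (fun a b => a < m ∧ m ≤ b ∧ Bt a (b - m) = true)
    (fun a b => a < m ∧ m ≤ b ∧ Bt a (b - m) = false)
    (fun a _ b hb ⟨k1, k2, k3⟩ => by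
      have := (hX a k1 (b - m) (by omega)).1 k3
      rwa [show m + (b - m) = b by omega] at this)
    (fun a _ b hb ⟨k1, k2, k3⟩ => by
      have := (hX a k1 (b - m) (by omega)).2 k3
      rwa [show m + (b - m) = b by omega] at this)
  have hrect := rect_dbl hM
  let idx : Fin m ⊕ Fin (2 * w) → ℕ := Sum.elim (fun i => i.1) (fun j => m + j.1)
  have idx_lt : ∀ v, idx v < m + 2 * w := by
    rintro (i | j)
    · have := i.2
      simp only [idx, Sum.elim_inl]
      omega
    · have := j.2
      simp only [idx, Sum.elim_inr]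
      omega
  have idx_inj : Function.Injective idx := by
    rintro (i | i) (j | j) hij
    · simp only [idx, Sum.elim_inl] at hij
      rw [Fin.ext hij]
    · simp only [idx, Sum.elim_inl, Sum.elim_inr] at hij
      have := i.2
      omega
    · simp only [idx, Sum.elim_inl, Sum.elim_inr] at hij
      have := j.2
      omega
    · simp only [idx, Sum.elim_inr] at hij
      rw [Fin.ext (show i.1 = j.1 by omega)]
  refine ⟨2 * w, ?_, hrect, fun v => Y (idx v), ⟨?_, ?_⟩, ?_⟩
  · exact hn.symm
  · intro u v huv
    by_contra hne'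
    exact h3 _ (idx_lt u) _ (idx_lt v) (fun h => hne' (idx_inj h)) huv
  · intro u v z huv hz
    have huv' : u ≠ v := huv.ne
    have hYuv := h3 _ (idx_lt u) _ (idx_lt v) (fun h => huv' (idx_inj h))
    rw [mem_openSegment_iff hYuv] at hz
    obtain ⟨z1, z2⟩ := hz
    by_cases hu : z = u
    · subst hu
      simp at z2
    · by_cases hv : z = v
      · subst hv
        simp at z2
      · apply h4 _ (idx_lt z) _ (idx_lt u) _ (idx_lt v) (fun h => hu (idx_inj h))
          (fun h => hv (idx_inj h)) (fun h => huv' (idx_inj h))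
        unfold crossP
        linarith
  · intro i j
    have hj := j.2
    have hb : (dbl M)[i].getD j false = Bt i j := by
      simp only [Bt]
      rw [List.getD_eq_getElem (dbl M) _ i.2]
      rfl
    rw [hb]
    have y1 : idx (Sum.inl i) = i.1 := rfl
    have y2 : idx (Sum.inr j) = m + j.1 := rfl
    simp only [y1, y2]
    constructor
    · intro hd
      by_contra hfalse
      have hf : Bt i j = false := by simpa using hfalse
      have := h2 i.1 (by have := i.2; omega) (m + j.1) (by omega) ⟨i.2, by omega, by
        rw [show m + j.1 - m = j.1 by omega]; exact hf⟩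
      linarith
    · intro ht
      exact (h1 i.1 (by have := i.2; omega) (m + j.1) (by omega) ⟨i.2, by omega, by
        rw [show m + j.1 - m = j.1 by omega]; exact ht⟩).le

end Pool.Agent.NPC.V11228
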