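import Pool.Agent.V11228.LS
import Pool.Agent.H612.TmPoly

/-!
# Long and short edges of complete bipartite graphs: hardness and membership
-/

namespace Pool.Agent.NPC.V11228

open Pool.Agent.NPC Pool.Agent.NPC.ER Pool.Agent.NPC.H612
open Pool.Agent.NPC.ER.Pat (sgn SR SRN Rect wid wid_eq upoly_wid)

theorem poly_dbl : Poly dbl := by
  unfold dbl
  refine Poly.map (F := fun _ (row : List Bool) => row ++ row.map not) Poly.id ?_
  refine Poly.append (Poly.snd Poly.id) (Poly.map (F := fun _ b => !b) (Poly.snd Poly.id) ?_)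
  exact Poly.not (Poly.snd Poly.id)

/-- Long/short edge realizability of complete bipartite graphs is `∃ℝ`-hard. -/
theorem longShort_hard : ERHard (lang LongShort) := by
  refine ERHard.of_sys (f := fun S => dbl (Pat.mat (Sgn.patOf S)))
    (Poly.comp poly_dbl (Poly.comp Pat.poly_mat (Sgn.poly_patOf Poly.id)))
    fun S => ⟨fun h => ?_, fun h => ?_⟩
  · obtain ⟨X, h1, h2⟩ := Sgn.patOf_complete h
    exact longShort_of_srn (Pat.rect_mat _) (Pat.SRN_of_exact (Sgn.patOf_wf S) h1 h2)
  · exact Sgn.patOf_sound (Pat.exact_of_SR (Sgn.patOf_wf S)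
      (sr_of_longShort (Pat.rect_mat _) h))

/-! ### Membership -/

/-- The difference of two coordinates. -/
def dfT (a b : ℕ) : Tm := Tm.add (Tm.var a) (Tm.neg (Tm.var b))

/-- Two points differ. -/
def neF (a b : ℕ) : Fm :=
  Fm.not (Fm.and (Fm.eq (Tm.var (2 * a)) (Tm.var (2 * b)))
    (Fm.eq (Tm.var (2 * a + 1)) (Tm.var (2 * b + 1))))

/-- A point is not in the relative interior of a segment. -/
def segF (a b w : ℕ) : Fm :=
  Fm.not (Fm.and
    (Fm.eq (Tm.mul (dfT (2 * a) (2 * w)) (dfT (2 * b + 1) (2 * w + 1)))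
      (Tm.mul (dfT (2 * a + 1) (2 * w + 1)) (dfT (2 * b) (2 * w))))
    (Fm.lt (Tm.add (Tm.mul (dfT (2 * a) (2 * w)) (dfT (2 * b) (2 * w)))
      (Tm.mul (dfT (2 * a + 1) (2 * w + 1)) (dfT (2 * b + 1) (2 * w + 1)))) Tm.zero))

/-- The square of the distance. -/
def dsT (a b : ℕ) : Tm :=
  Tm.add (Tm.mul (dfT (2 * a) (2 * b)) (dfT (2 * a) (2 * b)))
    (Tm.mul (dfT (2 * a + 1) (2 * b + 1)) (dfT (2 * a + 1) (2 * b + 1)))

/-- The edge is short or long. -/
def disF (a b : ℕ) (s : Bool) : Fm :=
  if s = true then Fm.le (dsT a b) Tm.one else Fm.lt Tm.one (dsT a b)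

/-- The conditions. -/
def lsList (M : List (List Bool)) : List Fm :=
  (List.range (M.length + wid M)).flatMap (fun a => (List.range (M.length + wid M)).map
    fun b => if a = b then tt else neF a b) ++
  ((List.range M.length).flatMap (fun i => (List.range (wid M)).flatMap fun j =>
    (List.range (M.length + wid M)).map fun w => segF i (M.length + j) w) ++
  (List.range M.length).flatMap (fun i => (List.range (wid M)).map fun j =>
    disF i (M.length + j) ((M.getD i []).getD j false)))

/-- The sentence. -/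
def lsF (M : List (List Bool)) : Fm :=
  if M.all (fun row => decide (row.length = wid M)) = true then conj (lsList M) else Fm.ff

/-- The point with a given index. -/
noncomputable def ptv (v : ℕ → ℝ) (k : ℕ) : Plane := WithLp.toLp 2 ![v (2 * k), v (2 * k + 1)]

@[simp] theorem ptv_zero (v : ℕ → ℝ) (k : ℕ) : ptv v k 0 = v (2 * k) := rfl

@[simp] theorem ptv_one (v : ℕ → ℝ) (k : ℕ) : ptv v k 1 = v (2 * k + 1) := rfl

theorem holds_neF (v : ℕ → ℝ) (a b : ℕ) : (neF a b).Holds v ↔ ptv v a ≠ ptv v b := by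
  have : ptv v a = ptv v b ↔ v (2 * a) = v (2 * b) ∧ v (2 * a + 1) = v (2 * b + 1) := by
    constructor
    · intro h
      exact ⟨congrArg (fun p : Plane => p 0) h, congrArg (fun p : Plane => p 1) h⟩
    · rintro ⟨h0, h1⟩
      ext i
      fin_cases i
      · exact h0
      · exact h1
  rw [Ne, this]
  rfl

theorem holds_segF (v : ℕ → ℝ) (a b w : ℕ) (h : ptv v a ≠ ptv v b) :
    (segF a b w).Holds v ↔ ptv v w ∉ openSegment ℝ (ptv v a) (ptv v b) := by
  rw [mem_openSegment_iff h]
  simp only [segF, Fm.Holds, dfT, Tm.eval, ptv_zero, ptv_one, ← sub_eq_add_neg]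
  rw [sub_eq_zero]

theorem holds_disF (v : ℕ → ℝ) (a b : ℕ) (s : Bool) :
    (disF a b s).Holds v ↔ (dist (ptv v a) (ptv v b) ≤ 1 ↔ s = true) := by
  rw [dist_le_one_iff]
  cases s with
  | true =>
    simp only [disF, if_true, Fm.Holds, dsT, dfT, Tm.eval, ptv_zero, ptv_one,
      ← sub_eq_add_neg, iff_true, sq]
  | false =>
    simp [disF, Fm.Holds, dsT, dfT, Tm.eval, ← sub_eq_add_neg, sq]

theorem holds_lsList (M : List (List Bool)) (v : ℕ → ℝ) :
    (conj (lsList M)).Holds v ↔
      (∀ a < M.length + wid M, ∀ b < M.length + wid M, a ≠ b → ptv v a ≠ ptv v b) ∧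
      (∀ i < M.length, ∀ j < wid M, ∀ w < M.length + wid M,
        ptv v w ∉ openSegment ℝ (ptv v i) (ptv v (M.length + j))) ∧
      ∀ i < M.length, ∀ j < wid M, (dist (ptv v i) (ptv v (M.length + j)) ≤ 1 ↔
        (M.getD i []).getD j false = true) := by
  rw [holds_conj]
  simp only [lsList, List.mem_append, or_imp, forall_and, List.mem_flatMap, List.mem_map,
    List.mem_range, forall_exists_index, and_imp]
  constructor
  · rintro ⟨h1, h2, h3⟩
    have h1' : ∀ a < M.length + wid M, ∀ b < M.length + wid M, a ≠ b → ptv v a ≠ ptv v b := by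
      intro a ha b hb hab
      have := h1 _ a ha b hb rfl
      rw [if_neg hab, holds_neF] at this
      exact this
    refine ⟨h1', fun i hi j hj w hw => ?_, fun i hi j hj => ?_⟩
    · have := h2 _ i hi j hj w hw rfl
      rwa [holds_segF _ _ _ _ (h1' i (by omega) (M.length + j) (by omega) (by omega))] at this
    · have := h3 _ i hi j hj rfl
      rwa [holds_disF] at this
  · rintro ⟨h1, h2, h3⟩
    refine ⟨?_, ?_, ?_⟩
    · rintro _ a ha b hb rfl
      by_cases hab : a = b
      · rw [if_pos hab]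
        exact holds_tt v
      · rw [if_neg hab, holds_neF]
        exact h1 a ha b hb hab
    · rintro _ i hi j hj w hw rfl
      rw [holds_segF _ _ _ _ (h1 i (by omega) (M.length + j) (by omega) (by omega))]
      exact h2 i hi j hj w hw
    · rintro _ i hi j hj rfl
      rw [holds_disF]
      exact h3 i hi j hj

/-- The index of a vertex. -/
def vidx {m n : ℕ} : Fin m ⊕ Fin n → ℕ := Sum.elim (fun i => i.1) (fun j => m + j.1)

theorem exists_val {m n : ℕ} (x : Fin m ⊕ Fin n → Plane) :
    ∃ v : ℕ → ℝ, ∀ u, ptv v (vidx u) = x u := by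
  let pos : ℕ → Plane := fun k => if h : k < m then x (Sum.inl ⟨k, h⟩) else
    if h' : k - m < n then x (Sum.inr ⟨k - m, h'⟩) else 0
  have hpos : ∀ u, pos (vidx u) = x u := by
    rintro (i | j)
    · simp [vidx, pos]
    · simp [vidx, pos]
  refine ⟨fun k => if k % 2 = 0 then pos (k / 2) 0 else pos (k / 2) 1, fun u => ?_⟩
  rw [← hpos u]
  ext i
  fin_cases i
  · change (if (2 * vidx u) % 2 = 0 then pos (2 * vidx u / 2) 0 else pos (2 * vidx u / 2) 1) =
      pos (vidx u) 0
    rw [if_pos (by omega), show 2 * vidx u / 2 = vidx u by omega]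
  · change (if (2 * vidx u + 1) % 2 = 0 then pos ((2 * vidx u + 1) / 2) 0
      else pos ((2 * vidx u + 1) / 2) 1) = pos (vidx u) 1
    rw [if_neg (by omega), show (2 * vidx u + 1) / 2 = vidx u by omega]

theorem vidx_lt {m n : ℕ} (u : Fin m ⊕ Fin n) : vidx u < m + n := by
  rcases u with (i | j)
  · have := i.2
    simp only [vidx, Sum.elim_inl]
    omega
  · have := j.2
    simp only [vidx, Sum.elim_inr]
    omega

theorem exists_vidx {m n k : ℕ} (h : k < m + n) : ∃ u : Fin m ⊕ Fin n, vidx u = k := by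
  by_cases hk : k < m
  · exact ⟨Sum.inl ⟨k, hk⟩, rfl⟩
  · exact ⟨Sum.inr ⟨k - m, by omega⟩, by simp only [vidx, Sum.elim_inr]; omega⟩

theorem vidx_inj {m n : ℕ} : Function.Injective (vidx (m := m) (n := n)) := by
  rintro (i | i) (j | j) hij
  · simp only [vidx, Sum.elim_inl] at hij
    rw [Fin.ext hij]
  · simp only [vidx, Sum.elim_inl, Sum.elim_inr] at hij
    have := i.2
    omega
  · simp only [vidx, Sum.elim_inl, Sum.elim_inr] at hij
    have := j.2
    omega
  · simp only [vidx, Sum.elim_inr] at hij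
    rw [Fin.ext (show i.1 = j.1 by omega)]

theorem longShort_iff (M : List (List Bool)) : LongShort M ↔ ETR (lsF M) := by
  unfold lsF
  by_cases hM : M.all (fun row => decide (row.length = wid M)) = true
  · rw [if_pos hM]
    have hM' : ∀ row ∈ M, row.length = wid M := by
      intro row hrow
      have := List.all_eq_true.1 hM row hrow
      simpa using this
    constructor
    · rintro ⟨n, hn, hr, x, ⟨hx1, hx2⟩, hx3⟩
      have hn' : n = wid M := hn
      subst hn'
      obtain ⟨v, hv⟩ := exists_val x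
      refine ⟨v, (holds_lsList M v).2 ⟨?_, ?_, ?_⟩⟩
      · intro a ha b hb hab h
        obtain ⟨u, rfl⟩ := exists_vidx ha
        obtain ⟨u', rfl⟩ := exists_vidx hb
        rw [hv, hv] at h
        exact hab (congrArg vidx (hx1 h))
      · intro i hi j hj w hw
        obtain ⟨u, rfl⟩ := exists_vidx hw
        have h1 : ptv v i = x (Sum.inl ⟨i, hi⟩) := hv (Sum.inl ⟨i, hi⟩)
        have h2 : ptv v (M.length + j) = x (Sum.inr ⟨j, hj⟩) := hv (Sum.inr ⟨j, hj⟩)
        rw [hv, h1, h2]
        exact hx2 _ _ _ (by simp)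
      · intro i hi j hj
        have h1 : ptv v i = x (Sum.inl ⟨i, hi⟩) := hv (Sum.inl ⟨i, hi⟩)
        have h2 : ptv v (M.length + j) = x (Sum.inr ⟨j, hj⟩) := hv (Sum.inr ⟨j, hj⟩)
        rw [h1, h2, hx3 ⟨i, hi⟩ ⟨j, hj⟩, List.getD_eq_getElem M _ hi]
        rfl
    · rintro ⟨v, hv⟩
      obtain ⟨h1, h2, h3⟩ := (holds_lsList M v).1 hv
      refine ⟨wid M, rfl, hM', fun u => ptv v (vidx u), ⟨?_, ?_⟩, ?_⟩
      · intro u u' h
        by_contra hne
        exact h1 _ (vidx_lt u) _ (vidx_lt u') (fun h => hne (vidx_inj h)) h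
      · intro u u' w hadj
        rcases u with i | j <;> rcases u' with i' | j'
        · simp at hadj
        · exact h2 i i.2 j' j'.2 _ (vidx_lt w)
        · rw [openSegment_symm]
          exact h2 i' i'.2 j j.2 _ (vidx_lt w)
        · simp at hadj
      · intro i j
        have := h3 i i.2 j j.2
        rw [List.getD_eq_getElem M _ i.2] at this
        exact this
  · rw [if_neg hM]
    constructor
    · rintro ⟨n, hn, hr, -⟩
      exfalso
      apply hM
      rw [List.all_eq_true]
      intro row hrow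
      have := hr row hrow
      rw [hn] at this
      exact decide_eq_true this
    · intro h
      exact absurd h not_ETR_ff

section

variable {α : Type} [TEnc α]

theorem poly_dfT {a b : α → ℕ} (ha : Poly a) (hb : Poly b) : Poly (fun x => dfT (a x) (b x)) :=
  poly_tadd (poly_tvar ha) (poly_tneg (poly_tvar hb))

theorem poly_dbl1 {a : α → ℕ} (ha : Poly a) : Poly (fun x => 2 * a x) :=
  Poly.mul (Poly.const 2) ha

theorem poly_dbl2 {a : α → ℕ} (ha : Poly a) : Poly (fun x => 2 * a x + 1) :=
  Poly.add (Poly.mul (Poly.const 2) ha) (Poly.const 1)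

theorem poly_neF {a b : α → ℕ} (ha : Poly a) (hb : Poly b) : Poly (fun x => neF (a x) (b x)) :=
  poly_fnot (poly_fand (poly_feq (poly_tvar (poly_dbl1 ha)) (poly_tvar (poly_dbl1 hb)))
    (poly_feq (poly_tvar (poly_dbl2 ha)) (poly_tvar (poly_dbl2 hb))))

theorem poly_segF {a b w : α → ℕ} (ha : Poly a) (hb : Poly b) (hw : Poly w) :
    Poly (fun x => segF (a x) (b x) (w x)) := by
  have a0 := poly_dfT (poly_dbl1 ha) (poly_dbl1 hw)
  have a1 := poly_dfT (poly_dbl2 ha) (poly_dbl2 hw)
  have b0 := poly_dfT (poly_dbl1 hb) (poly_dbl1 hw)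
  have b1 := poly_dfT (poly_dbl2 hb) (poly_dbl2 hw)
  exact poly_fnot (poly_fand (poly_feq (poly_tmul a0 b1) (poly_tmul a1 b0))
    (poly_flt (poly_tadd (poly_tmul a0 b0) (poly_tmul a1 b1)) (Poly.const _)))

theorem poly_disF {a b : α → ℕ} {s : α → Bool} (ha : Poly a) (hb : Poly b) (hs : Poly s) :
    Poly (fun x => disF (a x) (b x) (s x)) := by
  have a0 := poly_dfT (poly_dbl1 ha) (poly_dbl1 hb)
  have a1 := poly_dfT (poly_dbl2 ha) (poly_dbl2 hb)
  have h := poly_tadd (poly_tmul a0 a0) (poly_tmul a1 a1)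
  exact Poly.ite (Poly.decide_eq hs (Poly.const _)) (poly_fle h (Poly.const _))
    (poly_flt (Poly.const _) h)

theorem poly_lsList : Poly lsList := by
  unfold lsList
  have hl : ∀ {γ : Type} [TEnc γ] {f : γ → List (List Bool)}, Poly f →
      UPoly (fun x => (f x).length + wid (f x)) := fun hf =>
    UPoly.add (UPoly.length hf) (upoly_wid hf)
  refine Poly.append ?_ (Poly.append ?_ ?_)
  · refine Poly.flatMap (F := fun M a => (List.range (M.length + wid M)).map
      fun b => if a = b then tt else neF a b) (hl Poly.id).range ?_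
    refine Poly.map (F := fun (q : List (List Bool) × ℕ) b => if q.2 = b then tt else neF q.2 b)
      (hl (Poly.fst Poly.id)).range ?_
    have h1 : Poly (fun q : (List (List Bool) × ℕ) × ℕ => q.1.2) := Poly.snd (Poly.fst Poly.id)
    have h2 : Poly (fun q : (List (List Bool) × ℕ) × ℕ => q.2) := Poly.snd Poly.id
    exact Poly.ite (Poly.decide_eq h1 h2) (Poly.const _) (poly_neF h1 h2)
  · refine Poly.flatMap (F := fun M i => (List.range (wid M)).flatMap fun j =>
      (List.range (M.length + wid M)).map fun w => segF i (M.length + j) w)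
      (UPoly.length Poly.id).range ?_
    refine Poly.flatMap (F := fun (q : List (List Bool) × ℕ) j =>
      (List.range (q.1.length + wid q.1)).map fun w => segF q.2 (q.1.length + j) w)
      (upoly_wid (Poly.fst Poly.id)).range ?_
    refine Poly.map (F := fun (q : (List (List Bool) × ℕ) × ℕ) w =>
      segF q.1.2 (q.1.1.length + q.2) w) (hl (Poly.fst (Poly.fst Poly.id))).range ?_
    exact poly_segF (Poly.snd (Poly.fst (Poly.fst Poly.id)))
      (Poly.add (Poly.length (Poly.fst (Poly.fst (Poly.fst Poly.id))))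
        (Poly.snd (Poly.fst Poly.id))) (Poly.snd Poly.id)
  · refine Poly.flatMap (F := fun M i => (List.range (wid M)).map fun j =>
      disF i (M.length + j) ((M.getD i []).getD j false)) (UPoly.length Poly.id).range ?_
    refine Poly.map (F := fun (q : List (List Bool) × ℕ) j =>
      disF q.2 (q.1.length + j) ((q.1.getD q.2 []).getD j false))
      (upoly_wid (Poly.fst Poly.id)).range ?_
    have h1 : Poly (fun q : (List (List Bool) × ℕ) × ℕ => q.1.1) := Poly.fst (Poly.fst Poly.id)
    have h2 : Poly (fun q : (List (List Bool) × ℕ) × ℕ => q.1.2) := Poly.snd (Poly.fst Poly.id)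
    have h3 : Poly (fun q : (List (List Bool) × ℕ) × ℕ => q.2) := Poly.snd Poly.id
    exact poly_disF h2 (Poly.add (Poly.length h1) h3)
      (Poly.getD (Poly.getD h1 h2 (Poly.const [])) h3 (Poly.const false))

theorem poly_lsF : Poly lsF := by
  unfold lsF
  refine Poly.ite (Poly.congr ?_ fun M => Bool.decide_eq_true.symm) (poly_conj poly_lsList)
    (Poly.const _)
  exact Poly.all (p := fun M (row : List Bool) => decide (row.length = wid M)) Poly.id
    (Poly.decide_eq (Poly.length (Poly.snd Poly.id)) (upoly_wid (Poly.fst Poly.id)).toPoly)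

end

/-- Long/short edge realizability of complete bipartite graphs is `∃ℝ`-complete. -/
theorem longShort_complete : ERComplete (lang LongShort) :=
  ⟨InER.of_poly poly_lsF longShort_iff, longShort_hard⟩

end Pool.Agent.NPC.V11228
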