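import Pool.Agent.H625R2.UnitN
import Mathlib.Combinatorics.SimpleGraph.Bipartite
import Mathlib.Analysis.InnerProductSpace.PiL2

/-!
# Long and short edges of complete bipartite graphs: geometry
-/

namespace Pool.Agent.NPC.V11228

open Pool.Agent.NPC Pool.Agent.NPC.ER
open Pool.Agent.NPC.ER.Pat (sgn SR SRN Rect)
open Filter Topology
open scoped RealInnerProductSpace

/-- The Euclidean plane. -/
abbrev Plane : Type := EuclideanSpace ℝ (Fin 2)

/-- A non-degenerate straight-line drawing of a graph: distinct vertices go to distinct points,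
and no vertex lies in the relative interior of a segment representing an edge. -/
def IsDrawing {V : Type} (G : SimpleGraph V) (x : V → Plane) : Prop :=
  Function.Injective x ∧ ∀ u v w : V, G.Adj u v → x w ∉ openSegment ℝ (x u) (x v)

/-- The orientation determinant of three points. -/
def crossP (a b c : Plane) : ℝ := (b 0 - a 0) * (c 1 - a 1) - (b 1 - a 1) * (c 0 - a 0)

theorem mem_openSegment_iff {u v w : Plane} (h : u ≠ v) : w ∈ openSegment ℝ u v ↔
    (u 0 - w 0) * (v 1 - w 1) - (u 1 - w 1) * (v 0 - w 0) = 0 ∧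
    (u 0 - w 0) * (v 0 - w 0) + (u 1 - w 1) * (v 1 - w 1) < 0 := by
  constructor
  · rintro ⟨a, b, ha, hb, hab, rfl⟩
    have hne : (u 0 - v 0) ^ 2 + (u 1 - v 1) ^ 2 ≠ 0 := by
      intro h0
      have h1 : u 0 - v 0 = 0 := by nlinarith [sq_nonneg (u 0 - v 0), sq_nonneg (u 1 - v 1)]
      have h2 : u 1 - v 1 = 0 := by nlinarith [sq_nonneg (u 0 - v 0), sq_nonneg (u 1 - v 1)]
      apply h
      ext i
      fin_cases i
      · exact sub_eq_zero.1 h1
      · exact sub_eq_zero.1 h2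
    have hpos : 0 < (u 0 - v 0) ^ 2 + (u 1 - v 1) ^ 2 := lt_of_le_of_ne (by positivity) hne.symm
    have e : a = 1 - b := by linarith
    subst e
    simp only [PiLp.add_apply, PiLp.smul_apply, smul_eq_mul]
    constructor
    · ring
    · have : (u 0 - ((1 - b) * u 0 + b * v 0)) * (v 0 - ((1 - b) * u 0 + b * v 0)) +
          (u 1 - ((1 - b) * u 1 + b * v 1)) * (v 1 - ((1 - b) * u 1 + b * v 1)) =
          -((1 - b) * b * ((u 0 - v 0) ^ 2 + (u 1 - v 1) ^ 2)) := by ring
      rw [this]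
      have := mul_pos (mul_pos ha hb) hpos
      linarith
  · rintro ⟨h1, h2⟩
    set a0 := u 0 - w 0 with ha0
    set a1 := u 1 - w 1 with ha1
    set b0 := v 0 - w 0 with hb0
    set b1 := v 1 - w 1 with hb1
    set D := (a0 ^ 2 + a1 ^ 2) - (a0 * b0 + a1 * b1) with hD
    have hq : 0 < a0 ^ 2 + a1 ^ 2 := by
      rcases eq_or_lt_of_le (show 0 ≤ a0 ^ 2 + a1 ^ 2 by positivity) with h | h
      · have e0 : a0 = 0 := by nlinarith [sq_nonneg a0, sq_nonneg a1]
        have e1 : a1 = 0 := by nlinarith [sq_nonneg a0, sq_nonneg a1]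
        rw [e0, e1] at h2
        simp at h2
      · exact h
    have hDp : 0 < D := by rw [hD]; linarith
    refine ⟨-(a0 * b0 + a1 * b1) / D, (a0 ^ 2 + a1 ^ 2) / D, div_pos (by linarith) hDp,
      div_pos hq hDp, ?_, ?_⟩
    · rw [← add_div, div_eq_one_iff_eq hDp.ne']
      ring
    · have hu0 : u 0 = w 0 + a0 := by rw [ha0]; ring
      have hu1 : u 1 = w 1 + a1 := by rw [ha1]; ring
      have hv0 : v 0 = w 0 + b0 := by rw [hb0]; ring
      have hv1 : v 1 = w 1 + b1 := by rw [hb1]; ring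
      ext i
      fin_cases i
      · change -(a0 * b0 + a1 * b1) / D * u 0 + (a0 ^ 2 + a1 ^ 2) / D * v 0 = w 0
        rw [hu0, hv0]
        field_simp
        have : -(a1 * (a0 * b1 - a1 * b0)) = 0 := by rw [h1]; ring
        linear_combination this
      · change -(a0 * b0 + a1 * b1) / D * u 1 + (a0 ^ 2 + a1 ^ 2) / D * v 1 = w 1
        rw [hu1, hv1]
        field_simp
        have : (a0 * (a0 * b1 - a1 * b0)) = 0 := by rw [h1]; ring
        linear_combination this

theorem dist_le_one_iff (p q : Plane) :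
    dist p q ≤ 1 ↔ (p 0 - q 0) ^ 2 + (p 1 - q 1) ^ 2 ≤ 1 := by
  rw [EuclideanSpace.dist_eq, Real.sqrt_le_left zero_le_one, Fin.sum_univ_two, one_pow]
  simp [Real.dist_eq, sq_abs]

theorem dist_sq_eq (p q : Plane) : dist p q ^ 2 = (p 0 - q 0) ^ 2 + (p 1 - q 1) ^ 2 := by
  rw [EuclideanSpace.dist_eq, Real.sq_sqrt (by positivity), Fin.sum_univ_two]
  simp [Real.dist_eq, sq_abs]

/-! ### Two limits -/

theorem ev_ne {A B C : ℝ} (h : B ≠ 0 ∨ C ≠ 0) :
    ∀ᶠ s in 𝓝[>] (0 : ℝ), A + B * s + C * s ^ 2 ≠ 0 := by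
  have hs : ∀ᶠ s in 𝓝[>] (0 : ℝ), 0 < s := self_mem_nhdsWithin
  by_cases hA : A = 0
  · subst hA
    by_cases hB : B = 0
    · subst hB
      filter_upwards [hs] with s hs
      have hC : C ≠ 0 := by rcases h with h | h; exact absurd rfl h; exact h
      simpa using ⟨hC, hs.ne'⟩
    · have hc : ContinuousAt (fun s : ℝ => B + C * s) 0 := by fun_prop
      have h1 : ∀ᶠ s in 𝓝 (0 : ℝ), B + C * s ≠ 0 :=
        hc.eventually_ne (by simpa using hB)
      filter_upwards [hs, h1.filter_mono nhdsWithin_le_nhds] with s hs h1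
      have : (0 : ℝ) + B * s + C * s ^ 2 = s * (B + C * s) := by ring
      rw [this]
      exact mul_ne_zero hs.ne' h1
  · have hc : ContinuousAt (fun s : ℝ => A + B * s + C * s ^ 2) 0 := by fun_prop
    exact (hc.eventually_ne (by simpa using hA)).filter_mono nhdsWithin_le_nhds

/-- A small perturbation puts the points into general position and keeps the strict
inequalities. -/
theorem exists_general (N : ℕ) (X : ℕ → Plane) (R : ℕ → ℕ → Prop) (L : ℕ → ℕ → Prop)
    (hR : ∀ a < N, ∀ b < N, R a b → dist (X a) (X b) < 1)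
    (hL : ∀ a < N, ∀ b < N, L a b → 1 < dist (X a) (X b)) :
    ∃ Y : ℕ → Plane, (∀ a < N, ∀ b < N, R a b → dist (Y a) (Y b) < 1) ∧
      (∀ a < N, ∀ b < N, L a b → 1 < dist (Y a) (Y b)) ∧
      (∀ a < N, ∀ b < N, a ≠ b → Y a ≠ Y b) ∧
      ∀ a < N, ∀ b < N, ∀ c < N, a ≠ b → a ≠ c → b ≠ c → crossP (Y a) (Y b) (Y c) ≠ 0 := by
  let Y : ℝ → ℕ → Plane := fun s k => X k + s • WithLp.toLp 2 ![(k : ℝ), (k : ℝ) ^ 2]
  have hY0 : ∀ k, Y 0 k = X k := fun k => by simp [Y]
  have hYc : ∀ k, Continuous fun s => Y s k := fun k => by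
    simp only [Y]
    fun_prop
  have c0 : ∀ s k, Y s k 0 = X k 0 + s * k := fun s k => by simp [Y]
  have c1 : ∀ s k, Y s k 1 = X k 1 + s * (k : ℝ) ^ 2 := fun s k => by simp [Y]
  have e1 : ∀ᶠ s in 𝓝[>] (0 : ℝ), ∀ a ∈ Finset.range N, ∀ b ∈ Finset.range N,
      R a b → dist (Y s a) (Y s b) < 1 := by
    rw [Filter.eventually_all_finset]
    intro a ha
    rw [Filter.eventually_all_finset]
    intro b hb
    by_cases h : R a b
    · have hc : ContinuousAt (fun s => dist (Y s a) (Y s b)) 0 :=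
        ((hYc a).dist (hYc b)).continuousAt
      have h1 : dist (Y 0 a) (Y 0 b) < 1 := by
        rw [hY0, hY0]
        exact hR a (Finset.mem_range.1 ha) b (Finset.mem_range.1 hb) h
      exact ((hc.eventually (gt_mem_nhds h1)).filter_mono nhdsWithin_le_nhds).mono
        fun s hs _ => hs
    · exact Eventually.of_forall fun s h' => absurd h' h
  have e2 : ∀ᶠ s in 𝓝[>] (0 : ℝ), ∀ a ∈ Finset.range N, ∀ b ∈ Finset.range N,
      L a b → 1 < dist (Y s a) (Y s b) := by
    rw [Filter.eventually_all_finset]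
    intro a ha
    rw [Filter.eventually_all_finset]
    intro b hb
    by_cases h : L a b
    · have hc : ContinuousAt (fun s => dist (Y s a) (Y s b)) 0 :=
        ((hYc a).dist (hYc b)).continuousAt
      have h1 : 1 < dist (Y 0 a) (Y 0 b) := by
        rw [hY0, hY0]
        exact hL a (Finset.mem_range.1 ha) b (Finset.mem_range.1 hb) h
      exact ((hc.eventually (lt_mem_nhds h1)).filter_mono nhdsWithin_le_nhds).mono
        fun s hs _ => hs
    · exact Eventually.of_forall fun s h' => absurd h' h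
  have e3 : ∀ᶠ s in 𝓝[>] (0 : ℝ), ∀ a ∈ Finset.range N, ∀ b ∈ Finset.range N,
      a ≠ b → Y s a ≠ Y s b := by
    rw [Filter.eventually_all_finset]
    intro a ha
    rw [Filter.eventually_all_finset]
    intro b hb
    by_cases h : a = b
    · exact Eventually.of_forall fun s h' => absurd h h'
    · have hab : (a : ℝ) - b ≠ 0 := sub_ne_zero.2 (by exact_mod_cast h)
      filter_upwards [ev_ne (A := X a 0 - X b 0) (B := (a : ℝ) - b) (C := 0) (Or.inl hab)]
        with s hs _ heq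
      apply hs
      have := congrArg (fun p : Plane => p 0) heq
      simp only [c0] at this
      linear_combination this
  have e4 : ∀ᶠ s in 𝓝[>] (0 : ℝ), ∀ a ∈ Finset.range N, ∀ b ∈ Finset.range N,
      ∀ c ∈ Finset.range N, a ≠ b → a ≠ c → b ≠ c → crossP (Y s a) (Y s b) (Y s c) ≠ 0 := by
    rw [Filter.eventually_all_finset]
    intro a ha
    rw [Filter.eventually_all_finset]
    intro b hb
    rw [Filter.eventually_all_finset]
    intro c hc
    by_cases h : a ≠ b ∧ a ≠ c ∧ b ≠ c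
    · obtain ⟨h1, h2, h3⟩ := h
      have k1 : (b : ℝ) - a ≠ 0 := sub_ne_zero.2 (by exact_mod_cast h1.symm)
      have k2 : (c : ℝ) - a ≠ 0 := sub_ne_zero.2 (by exact_mod_cast h2.symm)
      have k3 : (c : ℝ) - b ≠ 0 := sub_ne_zero.2 (by exact_mod_cast h3.symm)
      have hC : ((b : ℝ) - a) * (c - a) * (c - b) ≠ 0 := mul_ne_zero (mul_ne_zero k1 k2) k3
      filter_upwards [ev_ne (A := (X b 0 - X a 0) * (X c 1 - X a 1) -
          (X b 1 - X a 1) * (X c 0 - X a 0))
        (B := (X b 0 - X a 0) * ((c : ℝ) ^ 2 - a ^ 2) + ((b : ℝ) - a) * (X c 1 - X a 1) -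
          (X b 1 - X a 1) * ((c : ℝ) - a) - ((b : ℝ) ^ 2 - a ^ 2) * (X c 0 - X a 0))
        (C := ((b : ℝ) - a) * (c - a) * (c - b)) (Or.inr hC)] with s hs _ _ _ heq
      apply hs
      simp only [crossP, c0, c1] at heq
      linear_combination heq
    · exact Eventually.of_forall fun s h1 h2 h3 => absurd ⟨h1, h2, h3⟩ h
  obtain ⟨s, h1, h2, h3, h4⟩ := (e1.and (e2.and (e3.and e4))).exists
  exact ⟨Y s, fun a ha b hb => h1 a (Finset.mem_range.2 ha) b (Finset.mem_range.2 hb),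
    fun a ha b hb => h2 a (Finset.mem_range.2 ha) b (Finset.mem_range.2 hb),
    fun a ha b hb => h3 a (Finset.mem_range.2 ha) b (Finset.mem_range.2 hb),
    fun a ha b hb c hc => h4 a (Finset.mem_range.2 ha) b (Finset.mem_range.2 hb)
      c (Finset.mem_range.2 hc)⟩

/-- The two centres of a line. -/
theorem exists_strict {M : List (List Bool)} (h : SRN 2 M) :
    ∃ (p q r : ℕ → Plane), ∀ i (hi : i < M.length) j (hj : j < M[i].length),
      (M[i][j] = true → dist (p i) (q j) < 1 ∧ 1 < dist (p i) (r j)) ∧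
      (M[i][j] = false → 1 < dist (p i) (q j) ∧ dist (p i) (r j) < 1) := by
  obtain ⟨y, n, c, hn, hy⟩ := Pat.unit_of_SRN (k := 1) h (δ := 1) one_pos
  obtain ⟨m, hm⟩ := Pat.exists_rowBound M
  have hq : ∀ (ε : ℝ) i j, dist (ε • y i) ((1 - ε * c j) • n j) ^ 2 =
      1 - 2 * ε * (c j + ⟪y i, n j⟫) +
        ε ^ 2 * (‖y i‖ ^ 2 + 2 * c j * ⟪y i, n j⟫ + c j ^ 2) := by
    intro ε i j
    rw [dist_eq_norm, norm_sub_sq_real, norm_smul, norm_smul, (hn j).1, inner_smul_left,
      inner_smul_right, mul_pow, mul_pow, Real.norm_eq_abs, Real.norm_eq_abs, sq_abs, sq_abs]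
    simp only [conj_trivial]
    ring
  have hr : ∀ (ε : ℝ) i j, dist (ε • y i) (-((1 + ε * c j) • n j)) ^ 2 =
      1 + 2 * ε * (c j + ⟪y i, n j⟫) +
        ε ^ 2 * (‖y i‖ ^ 2 + 2 * c j * ⟪y i, n j⟫ + c j ^ 2) := by
    intro ε i j
    rw [dist_eq_norm, sub_neg_eq_add, norm_add_sq_real, norm_smul, norm_smul, (hn j).1,
      inner_smul_left, inner_smul_right, mul_pow, mul_pow, Real.norm_eq_abs, Real.norm_eq_abs,
      sq_abs, sq_abs]
    simp only [conj_trivial]
    ring
  have hs : ∀ᶠ s in 𝓝[>] (0 : ℝ), 0 < s := self_mem_nhdsWithin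
  have key : ∀ σ K : ℝ, 0 < σ → ∀ᶠ ε in 𝓝[>] (0 : ℝ),
      1 - 2 * ε * σ + ε ^ 2 * K < 1 ∧ 1 < 1 + 2 * ε * σ + ε ^ 2 * K := by
    intro σ K hσ
    have hc1 : ContinuousAt (fun ε : ℝ => 2 * σ - ε * K) 0 := by fun_prop
    have hc2 : ContinuousAt (fun ε : ℝ => 2 * σ + ε * K) 0 := by fun_prop
    have h1 : (0 : ℝ) < 2 * σ - 0 * K := by simpa using hσ
    have h2 : (0 : ℝ) < 2 * σ + 0 * K := by simpa using hσ
    filter_upwards [hs, (hc1.eventually (lt_mem_nhds h1)).filter_mono nhdsWithin_le_nhds,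
      (hc2.eventually (lt_mem_nhds h2)).filter_mono nhdsWithin_le_nhds] with ε h0 h1 h2
    constructor
    · nlinarith [mul_pos h0 h1]
    · nlinarith [mul_pos h0 h2]
  have hlt : ∀ a b : Plane, dist a b ^ 2 < 1 → dist a b < 1 := fun a b h => by
    have := dist_nonneg (x := a) (y := b)
    nlinarith
  have hgt : ∀ a b : Plane, 1 < dist a b ^ 2 → 1 < dist a b := fun a b h => by
    have := dist_nonneg (x := a) (y := b)
    nlinarith
  have hev : ∀ᶠ ε in 𝓝[>] (0 : ℝ), ∀ i ∈ Finset.range M.length, ∀ j ∈ Finset.range m,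
      (0 < c j + ⟪y i, n j⟫ → dist (ε • y i) ((1 - ε * c j) • n j) < 1 ∧
        1 < dist (ε • y i) (-((1 + ε * c j) • n j))) ∧
      (c j + ⟪y i, n j⟫ < 0 → 1 < dist (ε • y i) ((1 - ε * c j) • n j) ∧
        dist (ε • y i) (-((1 + ε * c j) • n j)) < 1) := by
    rw [Filter.eventually_all_finset]
    intro i _
    rw [Filter.eventually_all_finset]
    intro j _
    rcases lt_trichotomy 0 (c j + ⟪y i, n j⟫) with h0 | h0 | h0
    · filter_upwards [key _ (‖y i‖ ^ 2 + 2 * c j * ⟪y i, n j⟫ + c j ^ 2) h0] with ε hε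
      refine ⟨fun _ => ⟨hlt _ _ ?_, hgt _ _ ?_⟩, fun h1 => absurd h1 (by linarith)⟩
      · rw [hq]; exact hε.1
      · rw [hr]; exact hε.2
    · exact Eventually.of_forall fun ε => ⟨fun h1 => absurd h1 (by linarith),
        fun h1 => absurd h1 (by linarith)⟩
    · filter_upwards [key (-(c j + ⟪y i, n j⟫)) (‖y i‖ ^ 2 + 2 * c j * ⟪y i, n j⟫ + c j ^ 2)
        (by linarith)] with ε hε
      refine ⟨fun h1 => absurd h1 (by linarith), fun _ => ⟨hgt _ _ ?_, hlt _ _ ?_⟩⟩
      · rw [hq]; linarith [hε.2]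
      · rw [hr]; linarith [hε.1]
  obtain ⟨ε, hε⟩ := hev.exists
  refine ⟨fun i => ε • y i, fun j => (1 - ε * c j) • n j, fun j => -((1 + ε * c j) • n j), ?_⟩
  intro i hi j hj
  have hjm : j < m := lt_of_lt_of_le hj (hm i hi)
  obtain ⟨h1, h2⟩ := hε i (Finset.mem_range.2 hi) j (Finset.mem_range.2 hjm)
  have h3 := hy i hi j hj
  constructor
  · intro hb
    rw [hb, Pat.sgn_true] at h3
    exact h1 (by linarith)
  · intro hb
    rw [hb, Pat.sgn_false] at h3
    exact h2 (by linarith)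

end Pool.Agent.NPC.V11228
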