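import Mathlib

/-! A variety which is logically regular but not logically perfect. -/

set_option autoImplicit false
open FirstOrder FirstOrder.Language

namespace Pool.Agent.V11228.LogReg

inductive Fn : ℕ → Type
  | f : Fn 1
  | g (i : ℕ) : Fn 1

def L : FirstOrder.Language.{0, 0} := ⟨Fn, fun _ => Empty⟩

def Ft {α : Type} (t : L.Term α) : L.Term α := Term.func (Fn.f : L.Functions 1) ![t]
def Gt {α : Type} (i : ℕ) (t : L.Term α) : L.Term α := Term.func (Fn.g i : L.Functions 1) ![t]

section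
variable {M : Type} [L.Structure M]

def fM (y : M) : M := Structure.funMap (L := L) (Fn.f : L.Functions 1) ![y]
def gM (i : ℕ) (y : M) : M := Structure.funMap (L := L) (Fn.g i : L.Functions 1) ![y]

theorem realize_Ft {α : Type} (t : L.Term α) (v : α → M) :
    (Ft t).realize v = fM (t.realize v) := by
  unfold Ft fM
  rw [Term.realize]
  congr 1
  funext i
  fin_cases i
  rfl

theorem realize_Gt {α : Type} (i : ℕ) (t : L.Term α) (v : α → M) :
    (Gt i t).realize v = gM i (t.realize v) := by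
  unfold Gt gM
  rw [Term.realize]
  congr 1
  funext i
  fin_cases i
  rfl

theorem funMap_f (v : Fin 1 → M) :
    Structure.funMap (L := L) (Fn.f : L.Functions 1) v = fM (v 0) := by
  unfold fM
  congr 1
  funext i
  fin_cases i
  rfl

theorem funMap_g (i : ℕ) (v : Fin 1 → M) :
    Structure.funMap (L := L) (Fn.g i : L.Functions 1) v = gM i (v 0) := by
  unfold gM
  congr 1
  funext i
  fin_cases i
  rfl

end

def x0 : L.Term (Fin 1) := Term.var 0

/-- The identities of the variety. -/
def E : Set (Σ n : ℕ, L.Term (Fin n) × L.Term (Fin n)) :=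
  {e | e = ⟨1, Ft (Ft x0), Ft x0⟩ ∨ (∃ i, e = ⟨1, Gt i (Ft x0), Ft x0⟩) ∨
    (∃ i j, e = ⟨1, Ft (Gt i (Gt j x0)), Ft x0⟩) ∨
    (∃ i j, e = ⟨1, Ft (Gt i x0), Ft (Gt j x0)⟩) ∨
    (∃ i j, e = ⟨1, Gt i (Gt j x0), Gt j (Gt i x0)⟩)}

/-- `M` is in the variety. -/
def InV (M : Type) [L.Structure M] : Prop :=
  ∀ e ∈ E, ∀ v : Fin e.1 → M, e.2.1.realize v = e.2.2.realize v

theorem inV_iff (M : Type) [L.Structure M] :
    InV M ↔ (∀ y : M, fM (fM y) = fM y) ∧ (∀ i, ∀ y : M, gM i (fM y) = fM y) ∧
      (∀ i j, ∀ y : M, fM (gM i (gM j y)) = fM y) ∧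
      (∀ i j, ∀ y : M, fM (gM i y) = fM (gM j y)) ∧
      (∀ i j, ∀ y : M, gM i (gM j y) = gM j (gM i y)) := by
  constructor
  · intro h
    refine ⟨fun y => ?_, fun i y => ?_, fun i j y => ?_, fun i j y => ?_, fun i j y => ?_⟩
    · have := h ⟨1, Ft (Ft x0), Ft x0⟩ (Or.inl rfl) (fun _ => y)
      simpa [realize_Ft, realize_Gt, x0] using this
    · have := h ⟨1, Gt i (Ft x0), Ft x0⟩ (Or.inr (Or.inl ⟨i, rfl⟩)) (fun _ => y)
      simpa [realize_Ft, realize_Gt, x0] using this
    · have := h ⟨1, Ft (Gt i (Gt j x0)), Ft x0⟩ (Or.inr (Or.inr (Or.inl ⟨i, j, rfl⟩))) (fun _ => y)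
      simpa [realize_Ft, realize_Gt, x0] using this
    · have := h ⟨1, Ft (Gt i x0), Ft (Gt j x0)⟩
        (Or.inr (Or.inr (Or.inr (Or.inl ⟨i, j, rfl⟩)))) (fun _ => y)
      simpa [realize_Ft, realize_Gt, x0] using this
    · have := h ⟨1, Gt i (Gt j x0), Gt j (Gt i x0)⟩
        (Or.inr (Or.inr (Or.inr (Or.inr ⟨i, j, rfl⟩)))) (fun _ => y)
      simpa [realize_Ft, realize_Gt, x0] using this
  · rintro ⟨h1, h2, h3, h4, h5⟩ e he v
    rcases he with rfl | ⟨i, rfl⟩ | ⟨i, j, rfl⟩ | ⟨i, j, rfl⟩ | ⟨i, j, rfl⟩ <;>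
      simp only [realize_Ft, realize_Gt, x0, Term.realize_var]
    · exact h1 _
    · exact h2 _ _
    · exact h3 _ _ _
    · exact h4 _ _ _
    · exact h5 _ _ _

/-- The free algebra of rank `n`. -/
def W (n : ℕ) : Type := Fin n × (Multiset ℕ ⊕ Bool)

def fW {n : ℕ} : W n → W n
  | (j, Sum.inl s) => (j, Sum.inr (decide (Odd s.card)))
  | (j, Sum.inr p) => (j, Sum.inr p)

def gW {n : ℕ} (i : ℕ) : W n → W n
  | (j, Sum.inl s) => (j, Sum.inl (i ::ₘ s))
  | (j, Sum.inr p) => (j, Sum.inr p)

def funW {n : ℕ} : {k : ℕ} → Fn k → (Fin k → W n) → W n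
  | _, Fn.f, v => fW (v 0)
  | _, Fn.g i, v => gW i (v 0)

instance (n : ℕ) : L.Structure (W n) where
  funMap := fun s v => funW s v
  RelMap := fun r => r.elim

theorem fM_W {n : ℕ} (y : W n) : fM y = fW y := rfl
theorem gM_W {n : ℕ} (i : ℕ) (y : W n) : gM i y = gW i y := rfl

theorem inV_W (n : ℕ) : InV (W n) := by
  rw [inV_iff]
  refine ⟨?_, ?_, ?_, ?_, ?_⟩
  · rintro ⟨j, s | p⟩ <;> rfl
  · rintro i ⟨j, s | p⟩ <;> rfl
  · rintro i k ⟨j, s | p⟩
    · simp only [fM_W, gM_W, gW, fW, Multiset.card_cons]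
      congr 3
      simp [Nat.odd_add_one]
    · rfl
  · rintro i k ⟨j, s | p⟩
    · simp only [fM_W, gM_W, gW, fW, Multiset.card_cons]
    · rfl
  · rintro i k ⟨j, s | p⟩
    · simp only [gM_W, gW]
      rw [Multiset.cons_swap]
    · rfl

section Free
variable {M : Type} [L.Structure M]

theorem lc (h : InV M) : LeftCommutative (fun (i : ℕ) (y : M) => gM i y) :=
  ⟨fun i j y => ((inV_iff M).1 h).2.2.2.2 i j y⟩

def act (h : InV M) (s : Multiset ℕ) (y : M) : M :=
  haveI := lc h
  Multiset.foldr (fun (i : ℕ) (y : M) => gM i y) y s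

theorem act_zero (h : InV M) (y : M) : act h 0 y = y := by
  have := lc h
  exact Multiset.foldr_zero _ _

theorem act_cons (h : InV M) (i : ℕ) (s : Multiset ℕ) (y : M) :
    act h (i ::ₘ s) y = gM i (act h s y) := by
  have := lc h
  exact Multiset.foldr_cons _ _ _ _

def sink (p : Bool) (y : M) : M := if p then fM (gM 0 y) else fM y

theorem f_act (h : InV M) (y : M) : ∀ (k : ℕ) (s : Multiset ℕ), s.card = k →
    fM (act h s y) = sink (decide (Odd k)) y := by
  obtain ⟨h1, h2, h3, h4, h5⟩ := (inV_iff M).1 h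
  intro k
  induction k using Nat.strong_induction_on with
  | _ k ih =>
    intro s hs
    induction s using Multiset.induction_on with
    | empty =>
      simp at hs
      subst hs
      simp [act_zero, sink]
    | cons i s _ =>
      induction s using Multiset.induction_on with
      | empty =>
        simp at hs
        subst hs
        simp only [act_cons, act_zero]
        rw [h4 i 0]
        simp [sink]
      | cons j s _ =>
        simp only [Multiset.card_cons] at hs
        rw [act_cons, act_cons, h3, ih s.card (by omega) s rfl]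
        subst hs
        congr 2
        simp [Nat.odd_add_one]

def lift (h : InV M) {n : ℕ} (v : Fin n → M) : W n → M
  | (j, Sum.inl s) => act h s (v j)
  | (j, Sum.inr p) => sink p (v j)

theorem f_sink (h : InV M) (p : Bool) (y : M) : fM (sink p y) = sink p y := by
  obtain ⟨h1, h2, h3, h4, h5⟩ := (inV_iff M).1 h
  cases p <;> simp [sink, h1]

theorem g_sink (h : InV M) (i : ℕ) (p : Bool) (y : M) : gM i (sink p y) = sink p y := by
  obtain ⟨h1, h2, h3, h4, h5⟩ := (inV_iff M).1 h
  cases p <;> simp [sink, h2]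

theorem lift_f (h : InV M) {n : ℕ} (v : Fin n → M) (y : W n) :
    lift h v (fM y) = fM (lift h v y) := by
  rcases y with ⟨j, s | p⟩
  · exact (f_act h (v j) s.card s rfl).symm
  · exact (f_sink h p (v j)).symm

theorem lift_g (h : InV M) {n : ℕ} (v : Fin n → M) (i : ℕ) (y : W n) :
    lift h v (gM i y) = gM i (lift h v y) := by
  rcases y with ⟨j, s | p⟩
  · exact act_cons h i s (v j)
  · exact (g_sink h i p (v j)).symm

/-- A map that commutes with the operations is a homomorphism. -/
def mkHom {A B : Type} [L.Structure A] [L.Structure B] (φ : A → B)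
    (hf : ∀ y, φ (fM y) = fM (φ y)) (hg : ∀ i y, φ (gM i y) = gM i (φ y)) : L.Hom A B where
  toFun := φ
  map_fun' := by
    intro k s v
    cases s with
    | f => rw [funMap_f, funMap_f]; exact hf _
    | g i => rw [funMap_g, funMap_g]; exact hg _ _
  map_rel' := by
    intro k r
    exact r.elim

theorem hom_f {A B : Type} [L.Structure A] [L.Structure B] (φ : L.Hom A B) (y : A) :
    φ (fM y) = fM (φ y) := by
  unfold fM
  rw [φ.map_fun]
  congr 1
  funext i
  fin_cases i
  rfl

theorem hom_g {A B : Type} [L.Structure A] [L.Structure B] (φ : L.Hom A B) (i : ℕ) (y : A) :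
    φ (gM i y) = gM i (φ y) := by
  unfold gM
  rw [φ.map_fun]
  congr 1
  funext i
  fin_cases i
  rfl

/-- The generators. -/
def gen {n : ℕ} (j : Fin n) : W n := (j, Sum.inl 0)

theorem W_ind {n : ℕ} (P : W n → Prop) (h0 : ∀ j, P (gen j)) (hf : ∀ y, P y → P (fM y))
    (hg : ∀ i y, P y → P (gM i y)) : ∀ y, P y := by
  have h1 : ∀ (j : Fin n) (s : Multiset ℕ), P (j, Sum.inl s) := by
    intro j s
    induction s using Multiset.induction_on with
    | empty => exact h0 j
    | cons i s ih => exact hg i _ ih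
  rintro ⟨j, s | p⟩
  · exact h1 j s
  · cases p with
    | false => exact hf _ (h1 j 0)
    | true =>
      have := hf _ (h1 j {0})
      simpa [fM_W, fW] using this

theorem W_free {n : ℕ} (h : InV M) (v : Fin n → M) :
    ∃! φ : L.Hom (W n) M, ⇑φ ∘ gen = v := by
  refine ⟨mkHom (lift h v) (lift_f h v) (lift_g h v), ?_, ?_⟩
  · funext j
    exact act_zero h (v j)
  · intro ψ hψ
    apply Hom.ext
    intro y
    have hψ' : ∀ j, ψ (gen j) = v j := fun j => congrFun hψ j
    refine W_ind (fun y => ψ y = lift h v y) ?_ ?_ ?_ y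
    · intro j
      rw [hψ' j]
      exact (act_zero h (v j)).symm
    · intro y hy
      show ψ (fM y) = lift h v (fM y)
      rw [hom_f, lift_f, hy]
    · intro i y hy
      show ψ (gM i y) = lift h v (gM i y)
      rw [hom_g, lift_g, hy]

end Free


/-! ### Free algebras are isomorphic to `W n` -/

theorem free_equiv {n : ℕ} (F : Type) [L.Structure F] (ι : Fin n → F) (hF : InV F)
    (hfree : ∀ (M : Type) [L.Structure M], InV M → ∀ f : Fin n → M, ∃! h : L.Hom F M, ⇑h ∘ ι = f) :
    Nonempty (L.Equiv F (W n)) := by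
  obtain ⟨φ, hφ, -⟩ := hfree (W n) (inV_W n) gen
  obtain ⟨ψ, hψ, -⟩ := W_free hF ι
  have h1 : ψ.comp φ = Hom.id L F := by
    obtain ⟨θ, -, hθ⟩ := hfree F hF ι
    have h3 : ⇑(ψ.comp φ) ∘ ι = ι := by
      funext j
      show ψ (φ (ι j)) = ι j
      rw [show φ (ι j) = gen j from congrFun hφ j]
      exact congrFun hψ j
    rw [hθ (ψ.comp φ) h3, hθ (Hom.id L F) rfl]
  have h2 : φ.comp ψ = Hom.id L (W n) := by
    obtain ⟨θ, -, hθ⟩ := W_free (inV_W n) (gen (n := n))
    have h3 : ⇑(φ.comp ψ) ∘ gen = gen := by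
      funext j
      show φ (ψ (gen j)) = gen j
      rw [show ψ (gen j) = ι j from congrFun hψ j]
      exact congrFun hφ j
    rw [hθ (φ.comp ψ) h3, hθ (Hom.id L (W n)) rfl]
  exact ⟨{ toFun := φ
           invFun := ψ
           left_inv := fun x => DFunLike.congr_fun h1 x
           right_inv := fun x => DFunLike.congr_fun h2 x
           map_fun' := fun s v => φ.map_fun s v
           map_rel' := fun r => r.elim }⟩

/-! ### Regularity -/

def noF (n : ℕ) (j : Fin n) : L.Formula (Fin n) :=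
  BoundedFormula.all (BoundedFormula.not
    (Term.bdEqual (Ft (Term.var (Sum.inr (0 : Fin 1)))) (Term.var (Sum.inl j))))

def noG (n : ℕ) (i : ℕ) (j : Fin n) : L.Formula (Fin n) :=
  BoundedFormula.all (BoundedFormula.not
    (Term.bdEqual (Gt i (Term.var (Sum.inr (0 : Fin 1)))) (Term.var (Sum.inl j))))

theorem realize_noF {M : Type} [L.Structure M] {n : ℕ} (j : Fin n) (v : Fin n → M) :
    (noF n j).Realize v ↔ ∀ y : M, fM y ≠ v j := by
  unfold noF Formula.Realize
  rw [BoundedFormula.realize_all]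
  simp only [BoundedFormula.realize_not, BoundedFormula.realize_bdEqual, realize_Ft,
    Term.realize_var, Sum.elim_inl, Sum.elim_inr]
  rfl

theorem realize_noG {M : Type} [L.Structure M] {n : ℕ} (i : ℕ) (j : Fin n) (v : Fin n → M) :
    (noG n i j).Realize v ↔ ∀ y : M, gM i y ≠ v j := by
  unfold noG Formula.Realize
  rw [BoundedFormula.realize_all]
  simp only [BoundedFormula.realize_not, BoundedFormula.realize_bdEqual, realize_Gt,
    Term.realize_var, Sum.elim_inl, Sum.elim_inr]
  rfl

theorem gen_noF {n : ℕ} (j : Fin n) (y : W n) : fM y ≠ gen j := by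
  intro h
  have h1 := congrArg (Prod.snd : Fin n × (Multiset ℕ ⊕ Bool) → _) h
  rcases y with ⟨k, s | p⟩ <;> simp [fM_W, fW, gen] at h1

theorem gen_noG {n : ℕ} (i : ℕ) (j : Fin n) (y : W n) : gM i y ≠ gen j := by
  intro h
  have h1 := congrArg (Prod.snd : Fin n × (Multiset ℕ ⊕ Bool) → _) h
  rcases y with ⟨k, s | p⟩ <;> simp [gM_W, gW, gen] at h1

theorem root {n : ℕ} (z : W n) (hf : ∀ y : W n, fM y ≠ z) (hg : ∀ i, ∀ y : W n, gM i y ≠ z) :
    ∃ j, z = gen j := by
  rcases z with ⟨k, s | p⟩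
  · induction s using Multiset.induction_on with
    | empty => exact ⟨k, rfl⟩
    | cons i s _ => exact absurd rfl (hg i (k, Sum.inl s))
  · exact absurd rfl (hf (k, Sum.inr p))

theorem W_term {n : ℕ} (y : W n) : ∃ t : L.Term (Fin n), t.realize gen = y := by
  refine W_ind (fun y => ∃ t : L.Term (Fin n), t.realize gen = y) ?_ ?_ ?_ y
  · intro j; exact ⟨Term.var j, rfl⟩
  · rintro y ⟨t, rfl⟩; exact ⟨Ft t, realize_Ft _ _⟩
  · rintro i y ⟨t, rfl⟩; exact ⟨Gt i t, realize_Gt _ _ _⟩

theorem gen_inj {n : ℕ} : Function.Injective (gen (n := n)) := by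
  intro i j h
  exact congrArg Prod.fst h

theorem regular_W {n : ℕ} (H : Type) [L.Structure H] (hH : InV H)
    (h1 : ∀ (m : ℕ) (a : Fin m → W n), ∃ b : Fin m → H, ∀ φ : L.Formula (Fin m),
      φ.Realize a ↔ φ.Realize b)
    (h2 : ∀ (m : ℕ) (b : Fin m → H), ∃ a : Fin m → W n, ∀ φ : L.Formula (Fin m),
      φ.Realize a ↔ φ.Realize b) : Nonempty (L.Equiv (W n) H) := by
  obtain ⟨h, hh⟩ := h1 n gen
  obtain ⟨Φ, hΦ, -⟩ := W_free hH h
  have hterm : ∀ t : L.Term (Fin n), t.realize h = Φ (t.realize gen) := by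
    intro t
    have h3 := HomClass.realize_term Φ (t := t) (v := gen)
    have h4 : (fun x => Φ (gen x)) = h := hΦ
    rw [← h3]
    congr 1
    exact h4.symm
  have hinj : Function.Injective Φ := by
    intro z z' hz
    obtain ⟨t, rfl⟩ := W_term z
    obtain ⟨t', rfl⟩ := W_term z'
    rw [← hterm, ← hterm] at hz
    exact (Formula.realize_equal).1 ((hh (t.equal t')).2 (Formula.realize_equal.2 hz))
  have hsurj : Function.Surjective Φ := by
    intro c
    obtain ⟨a, ha⟩ := h2 (n + 1) (Fin.snoc h c : Fin (n + 1) → H)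
    have hb : (Fin.snoc h c : Fin (n + 1) → H) ∘ Fin.castSucc = h := by
      funext i
      simp
    have htyp : ∀ φ : L.Formula (Fin n), φ.Realize (gen (n := n)) ↔ φ.Realize (a ∘ Fin.castSucc) := by
      intro φ
      rw [hh, ← Formula.realize_relabel, ha, Formula.realize_relabel, hb]
    have hroot : ∀ j, ∃ k, a (Fin.castSucc j) = gen k := by
      intro j
      apply root
      · exact (realize_noF j _).1 ((htyp _).1 ((realize_noF j _).2 (gen_noF j)))
      · intro i
        exact (realize_noG i j _).1 ((htyp _).1 ((realize_noG i j _).2 (gen_noG i j)))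
    choose σ hσ using hroot
    have hσi : Function.Injective σ := by
      intro i j hij
      have h3 : a (Fin.castSucc i) = a (Fin.castSucc j) := by rw [hσ, hσ, hij]
      have h4 := (htyp ((Term.var i).equal (Term.var j))).2
        (Formula.realize_equal.2 h3)
      exact gen_inj (Formula.realize_equal.1 h4)
    have hσb : Function.Bijective σ := Finite.injective_iff_bijective.1 hσi
    let τ : Fin n ≃ Fin n := Equiv.ofBijective σ hσb
    obtain ⟨t, ht⟩ := W_term (a (Fin.last n))
    have hg : gen = (a ∘ Fin.castSucc) ∘ τ.symm := by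
      funext j
      show gen j = a (Fin.castSucc (τ.symm j))
      rw [hσ]
      congr 1
      exact (τ.apply_symm_apply j).symm
    rw [hg, ← Term.realize_relabel, ← Term.realize_relabel] at ht
    have h5 := (ha (((t.relabel τ.symm).relabel Fin.castSucc).equal (Term.var (Fin.last n)))).1
      (Formula.realize_equal.2 ht)
    have h6 := Formula.realize_equal.1 h5
    rw [Term.realize_relabel, hb, hterm] at h6
    refine ⟨_, h6.trans ?_⟩
    simp
  exact ⟨{ Equiv.ofBijective Φ ⟨hinj, hsurj⟩ with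
           map_fun' := fun s v => Φ.map_fun s v
           map_rel' := fun r => r.elim }⟩

theorem type_transfer {F H : Type} [L.Structure F] [L.Structure H]
    (h : ∀ (m : ℕ) (T : Set (L.Formula (Fin m))),
            {φ : L.Formula (Fin m) | ∀ a : Fin m → F,
                (∀ ψ ∈ T, ψ.Realize a) → φ.Realize a} =
            {φ : L.Formula (Fin m) | ∀ a : Fin m → H,
                (∀ ψ ∈ T, ψ.Realize a) → φ.Realize a}) (m : ℕ) (a : Fin m → F) :
    ∃ b : Fin m → H, ∀ φ : L.Formula (Fin m), φ.Realize a ↔ φ.Realize b := by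
  have h1 : ∃ b : Fin m → H, ∀ ψ ∈ {ψ : L.Formula (Fin m) | ψ.Realize a}, ψ.Realize b := by
    by_contra hcon
    push Not at hcon
    have h2 : (⊥ : L.Formula (Fin m)) ∈ {φ : L.Formula (Fin m) | ∀ b : Fin m → H,
        (∀ ψ ∈ {ψ : L.Formula (Fin m) | ψ.Realize a}, ψ.Realize b) → φ.Realize b} := by
      intro b hb
      obtain ⟨ψ, h3, h4⟩ := hcon b
      exact absurd (hb ψ h3) h4
    rw [← h] at h2
    exact h2 a (fun ψ hψ => hψ)
  obtain ⟨b, hb⟩ := h1
  refine ⟨b, fun φ => ⟨fun h2 => hb φ h2, fun h2 => ?_⟩⟩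
  by_contra h3
  exact hb φ.not (Formula.realize_not.2 h3) h2

theorem regular {n : ℕ} (F : Type) [L.Structure F] (ι : Fin n → F) (hF : InV F)
    (hfree : ∀ (M : Type) [L.Structure M], InV M → ∀ f : Fin n → M, ∃! h : L.Hom F M, ⇑h ∘ ι = f)
    (H : Type) [L.Structure H] (hH : InV H)
    (h : ∀ (m : ℕ) (T : Set (L.Formula (Fin m))),
            {φ : L.Formula (Fin m) | ∀ a : Fin m → F,
                (∀ ψ ∈ T, ψ.Realize a) → φ.Realize a} =
            {φ : L.Formula (Fin m) | ∀ a : Fin m → H,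
                (∀ ψ ∈ T, ψ.Realize a) → φ.Realize a}) : Nonempty (L.Equiv F H) := by
  obtain ⟨e⟩ := free_equiv F ι hF hfree
  have h3 : Nonempty (L.Equiv (W n) H) := by
    apply regular_W H hH
    · intro m a
      obtain ⟨b, hb⟩ := type_transfer h m (e.symm ∘ a)
      refine ⟨b, fun φ => ?_⟩
      rw [← hb, StrongHomClass.realize_formula]
    · intro m b
      obtain ⟨a, ha⟩ := type_transfer (fun m T => (h m T).symm) m b
      refine ⟨e ∘ a, fun φ => ?_⟩
      rw [ha, StrongHomClass.realize_formula]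
  obtain ⟨e'⟩ := h3
  exact ⟨e'.comp e⟩

/-! ### Two elements of the same type -/

def fok (N : ℕ) : {k : ℕ} → Fn k → Prop
  | _, Fn.f => True
  | _, Fn.g i => i < N

def tok (N : ℕ) {α : Type} : L.Term α → Prop
  | Term.var _ => True
  | Term.func s ts => fok N s ∧ ∀ i, tok N (ts i)

def bok (N : ℕ) {α : Type} : {n : ℕ} → L.BoundedFormula α n → Prop
  | _, BoundedFormula.falsum => True
  | _, BoundedFormula.equal t u => tok N t ∧ tok N u
  | _, BoundedFormula.rel _ _ => True
  | _, BoundedFormula.imp φ ψ => bok N φ ∧ bok N ψ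
  | _, BoundedFormula.all φ => bok N φ

theorem fok_mono {N N' : ℕ} (h : N ≤ N') {k : ℕ} (s : Fn k) (hs : fok N s) : fok N' s := by
  cases s with
  | f => trivial
  | g i => exact lt_of_lt_of_le hs h

theorem tok_mono {N N' : ℕ} (h : N ≤ N') {α : Type} (t : L.Term α) (ht : tok N t) : tok N' t := by
  induction t with
  | var _ => trivial
  | func s ts ih => exact ⟨fok_mono h s ht.1, fun i => ih i (ht.2 i)⟩

theorem bok_mono {N N' : ℕ} (h : N ≤ N') {α : Type} {n : ℕ} (φ : L.BoundedFormula α n)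
    (hφ : bok N φ) : bok N' φ := by
  induction φ with
  | falsum => trivial
  | equal t u => exact ⟨tok_mono h t hφ.1, tok_mono h u hφ.2⟩
  | rel _ _ => trivial
  | imp φ ψ ih1 ih2 => exact ⟨ih1 hφ.1, ih2 hφ.2⟩
  | all φ ih => exact ih hφ

theorem exists_fok {k : ℕ} (s : Fn k) : ∃ N, fok N s := by
  cases s with
  | f => exact ⟨0, trivial⟩
  | g i => exact ⟨i + 1, Nat.lt_succ_self i⟩

theorem exists_tok {α : Type} (t : L.Term α) : ∃ N, tok N t := by
  induction t with
  | var _ => exact ⟨0, trivial⟩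
  | func s ts ih =>
    choose M hM using ih
    obtain ⟨N, hN⟩ := exists_fok s
    refine ⟨max N (Finset.univ.sup M), fok_mono (le_max_left _ _) s hN, fun i => ?_⟩
    exact tok_mono (le_trans (Finset.le_sup (Finset.mem_univ i)) (le_max_right _ _)) _ (hM i)

theorem exists_bok {α : Type} {n : ℕ} (φ : L.BoundedFormula α n) : ∃ N, bok N φ := by
  induction φ with
  | falsum => exact ⟨0, trivial⟩
  | equal t u =>
    obtain ⟨N, hN⟩ := exists_tok t
    obtain ⟨M, hM⟩ := exists_tok u
    exact ⟨max N M, tok_mono (le_max_left _ _) _ hN, tok_mono (le_max_right _ _) _ hM⟩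
  | rel _ _ => exact ⟨0, trivial⟩
  | imp φ ψ ih1 ih2 =>
    obtain ⟨N, hN⟩ := ih1
    obtain ⟨M, hM⟩ := ih2
    exact ⟨max N M, bok_mono (le_max_left _ _) _ hN, bok_mono (le_max_right _ _) _ hM⟩
  | all φ ih => exact ih

/-- Toggle the letter `N`. -/
def tm (N : ℕ) (s : Multiset ℕ) : Multiset ℕ :=
  if Even (s.count N) then N ::ₘ s else s.erase N

theorem tm_tm (N : ℕ) (s : Multiset ℕ) : tm N (tm N s) = s := by
  unfold tm
  by_cases h : Even (s.count N)
  · rw [if_pos h, if_neg, Multiset.erase_cons_head]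
    rw [Multiset.count_cons_self, Nat.even_add_one]
    exact not_not.2 h
  · have h1 : 0 < s.count N := Nat.pos_of_ne_zero (fun h0 => h (by rw [h0]; exact Even.zero))
    rw [if_neg h, if_pos, Multiset.cons_erase (Multiset.count_pos.1 h1)]
    rw [Multiset.count_erase_self]
    rw [Nat.not_even_iff_odd] at h
    exact Nat.Odd.sub_odd h odd_one

theorem tm_cons (N i : ℕ) (hi : i ≠ N) (s : Multiset ℕ) : tm N (i ::ₘ s) = i ::ₘ tm N s := by
  unfold tm
  rw [Multiset.count_cons_of_ne hi.symm]
  split_ifs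
  · exact Multiset.cons_swap _ _ _
  · exact Multiset.erase_cons_tail _ hi

theorem tm_card (N : ℕ) (s : Multiset ℕ) : Odd (tm N s).card ↔ ¬ Odd s.card := by
  unfold tm
  split_ifs with h
  · rw [Multiset.card_cons, Nat.odd_add_one]
  · have h1 : 0 < s.count N := Nat.pos_of_ne_zero (fun h0 => h (by rw [h0]; exact Even.zero))
    have h2 := Multiset.card_erase_add_one (Multiset.count_pos.1 h1)
    rw [← h2, Nat.odd_add_one, not_not]

def tog (N : ℕ) : W 1 → W 1
  | (j, Sum.inl s) => (j, Sum.inl (tm N s))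
  | (j, Sum.inr p) => (j, Sum.inr (!p))

theorem tog_tog (N : ℕ) (y : W 1) : tog N (tog N y) = y := by
  rcases y with ⟨j, s | p⟩
  · simp [tog, tm_tm]
  · simp [tog]

theorem tog_f (N : ℕ) (y : W 1) : tog N (fM y) = fM (tog N y) := by
  rcases y with ⟨j, s | p⟩
  · simp only [fM_W, fW, tog]
    congr 2
    rw [Bool.eq_iff_iff]
    simp [tm_card]
  · simp [fM_W, fW, tog]

theorem tog_g (N i : ℕ) (hi : i < N) (y : W 1) : tog N (gM i y) = gM i (tog N y) := by
  rcases y with ⟨j, s | p⟩
  · simp only [gM_W, gW, tog]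
    rw [tm_cons N i hi.ne]
  · simp [gM_W, gW, tog]

theorem tok_realize (N : ℕ) {α : Type} (t : L.Term α) (ht : tok N t) (v : α → W 1) :
    t.realize (tog N ∘ v) = tog N (t.realize v) := by
  induction t with
  | var _ => rfl
  | func s ts ih =>
    simp only [Term.realize_func]
    have h1 : (fun i => (ts i).realize (tog N ∘ v)) = fun i => tog N ((ts i).realize v) := by
      funext i
      exact ih i (ht.2 i)
    rw [h1]
    cases s with
    | f => rw [funMap_f, funMap_f]; exact (tog_f N _).symm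
    | g i => rw [funMap_g, funMap_g]; exact (tog_g N i ht.1 _).symm

theorem bok_realize (N : ℕ) {α : Type} {n : ℕ} (φ : L.BoundedFormula α n) (hφ : bok N φ)
    (v : α → W 1) (xs : Fin n → W 1) :
    φ.Realize (tog N ∘ v) (tog N ∘ xs) ↔ φ.Realize v xs := by
  induction φ with
  | falsum => exact Iff.rfl
  | equal t u =>
    simp only [BoundedFormula.Realize]
    rw [← Sum.comp_elim, tok_realize N _ hφ.1, tok_realize N _ hφ.2]
    exact (Function.LeftInverse.injective (tog_tog N)).eq_iff
  | rel r _ => exact r.elim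
  | imp φ ψ ih1 ih2 =>
    simp only [BoundedFormula.realize_imp]
    rw [ih1 hφ.1, ih2 hφ.2]
  | all φ ih =>
    simp only [BoundedFormula.realize_all]
    constructor
    · intro h y
      have h1 := h (tog N y)
      rw [← Fin.comp_snoc, ih hφ] at h1
      exact h1
    · intro h y
      have h1 := h (tog N y)
      rw [← ih hφ, Fin.comp_snoc, tog_tog] at h1
      exact h1

def pa : Fin 1 → W 1 := fun _ => (0, Sum.inr false)
def pb : Fin 1 → W 1 := fun _ => (0, Sum.inr true)

theorem same_type (φ : L.Formula (Fin 1)) : φ.Realize pa ↔ φ.Realize pb := by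
  obtain ⟨N, hN⟩ := exists_bok φ
  have h := bok_realize N φ hN pa default
  have h1 : tog N ∘ pa = pb := by
    funext i
    rfl
  have h2 : tog N ∘ (default : Fin 0 → W 1) = default := Subsingleton.elim _ _
  rw [h1, h2] at h
  exact h.symm

theorem equiv_f {A B : Type} [L.Structure A] [L.Structure B] (φ : L.Equiv A B) (y : A) :
    φ (fM y) = fM (φ y) := hom_f φ.toHom y

theorem equiv_g {A B : Type} [L.Structure A] [L.Structure B] (φ : L.Equiv A B) (i : ℕ) (y : A) :
    φ (gM i y) = gM i (φ y) := hom_g φ.toHom i y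

theorem not_conj (σ : L.Equiv (W 1) (W 1)) : ⇑σ ∘ pb ≠ pa := by
  intro h
  have h0 : σ (0, Sum.inr true) = (0, Sum.inr false) := congrFun h 0
  have h1 : ∃ j, σ (gen 0) = gen j := by
    apply root
    · intro y hy
      apply gen_noF (0 : Fin 1) (σ.symm y)
      apply σ.injective
      rw [equiv_f, ← hy]
      congr 1
      exact σ.apply_symm_apply y
    · intro i y hy
      apply gen_noG i (0 : Fin 1) (σ.symm y)
      apply σ.injective
      rw [equiv_g, ← hy]
      congr 1
      exact σ.apply_symm_apply y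
  obtain ⟨j, hj⟩ := h1
  have h2 : j = 0 := Subsingleton.elim _ _
  subst h2
  have h3 : ((0, Sum.inr true) : W 1) = fM (gM 0 (gen 0)) := rfl
  rw [h3, equiv_f, equiv_g, hj] at h0
  have h4 : fM (gM 0 (gen 0 : W 1)) = ((0, Sum.inr true) : W 1) := rfl
  rw [h4] at h0
  have h5 := congrArg (Prod.snd : Fin 1 × (Multiset ℕ ⊕ Bool) → _) h0
  simp at h5

end Pool.Agent.V11228.LogReg
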