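import Pool.Agent.H606R2.MinRank.PolyT
import Pool.Agent.ER.Hard

/-!
# The minimum rank of a variable matrix with a constant bound

A system of elementary equations is turned into a variable matrix of the block form
`[[I, Y], [X, Z]]`, where the identity block has the size `s + 2` and where the off-diagonal
entries of `Z` are new variables.  The rank is at most `s + 2` if and only if `Z = X Y`.
-/

namespace Pool.Agent.NPC.V11228

open Pool.Agent.NPC Pool.Agent.NPC.ER
open Pool.Agent.H606R2.MinRank (VarMatrix Entry c0 c1)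

/-- The decision problem `MinRank_r`: some substitution of real numbers for the variables gives
a matrix of rank at most `r`. -/
def MinRankLE (r : ℕ) (M : VarMatrix) : Prop := ∃ a : ℕ → ℝ, (M.at a).rank ≤ r

/-- The row of a constraint. -/
def rowE (c : ℕ × ℕ × ℕ × ℕ) (k : ℕ) : Entry :=
  if k = 0 then (if c.1 = 0 then c1 else Entry.var (2 * c.2.1))
  else if k = 1 then (if c.1 = 1 then c1 else c0) else c0

/-- The column of a constraint. -/
def colE (c : ℕ × ℕ × ℕ × ℕ) (k : ℕ) : Entry :=
  if k = 0 then (if c.1 = 2 then Entry.var (2 * c.2.2.1) else c1)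
  else if k = 1 then (if c.1 = 1 then Entry.var (2 * c.2.2.1) else c0) else c0

/-- The diagonal entry of a constraint. -/
def diaE (c : ℕ × ℕ × ℕ × ℕ) : Entry :=
  if c.1 = 0 then Entry.var (2 * c.2.1) else Entry.var (2 * c.2.2.2)

/-- The code of the constraint with the given index. -/
def cd (S : List Con) (i : ℕ) : ℕ × ℕ × ℕ × ℕ := (S.getD i (ER.Con.one 0)).code

/-- The entries of the matrix. -/
def rent (r : ℕ) (S : List Con) (i j : ℕ) : Entry :=
  if i < r then (if j < r then (if i = j then c1 else c0) else colE (cd S (j - r)) i)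
  else if j < r then rowE (cd S (i - r)) j
  else if i = j then diaE (cd S (i - r))
  else Entry.var (2 * (i * (r + S.length) + j) + 1)

/-- The matrix of a system. -/
def rmat (r : ℕ) (S : List Con) : VarMatrix where
  rows := (List.range (r + S.length)).map fun i =>
    (List.range (r + S.length)).map fun j => rent r S i j
  square := by
    intro l hl
    rw [List.mem_map] at hl
    obtain ⟨i, _, rfl⟩ := hl
    simp

theorem length_rmat (r : ℕ) (S : List Con) : (rmat r S).rows.length = r + S.length := by
  simp [rmat]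

theorem rmat_at (r : ℕ) (S : List Con) (a : ℕ → ℝ) (i j : Fin (rmat r S).rows.length) :
    (rmat r S).at a i j = (rent r S i j).eval a := by
  simp [VarMatrix.at, rmat]
  rfl

theorem sum_two {s : ℕ} (f : ℕ → ℝ) (hf : ∀ k, 2 ≤ k → f k = 0) :
    ∑ k : Fin (s + 2), f k = f 0 + f 1 := by
  rw [Fin.sum_univ_succ, Fin.sum_univ_succ]
  have : ∑ i : Fin s, f ((i.succ.succ : Fin (s + 2)) : ℕ) = 0 :=
    Finset.sum_eq_zero fun i _ => hf _ (by simp)
  rw [this]
  simp

/-- The equation of the block of a constraint. -/
theorem con_iff {s : ℕ} (v : ℕ → ℝ) (a : ℕ → ℝ) (ha : ∀ k, a (2 * k) = v k) (c : Con) :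
    (diaE c.code).eval a = ∑ k : Fin (s + 2), (rowE c.code k).eval a * (colE c.code k).eval a ↔
      c.Holds v := by
  rw [sum_two (fun k => (rowE c.code k).eval a * (colE c.code k).eval a) (fun k hk => by
    have h0 : k ≠ 0 := by omega
    have h1 : k ≠ 1 := by omega
    simp [rowE, h0, h1, c0, Entry.eval])]
  cases c with
  | one x => simp [rowE, colE, diaE, Con.code, Con.Holds, c0, c1, Entry.eval, ha]
  | add x y z =>
    simp [rowE, colE, diaE, Con.code, Con.Holds, c0, c1, Entry.eval, ha]
    exact ⟨fun h => h.symm, fun h => h.symm⟩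
  | mul x y z =>
    simp [rowE, colE, diaE, Con.code, Con.Holds, c0, c1, Entry.eval, ha]
    exact ⟨fun h => h.symm, fun h => h.symm⟩

theorem row_even {c : ℕ × ℕ × ℕ × ℕ} {k : ℕ} {a a' : ℕ → ℝ} (h : ∀ i, a (2 * i) = a' (2 * i)) :
    (rowE c k).eval a = (rowE c k).eval a' := by
  unfold rowE
  split_ifs <;> simp [c0, c1, Entry.eval, h]

theorem col_even {c : ℕ × ℕ × ℕ × ℕ} {k : ℕ} {a a' : ℕ → ℝ} (h : ∀ i, a (2 * i) = a' (2 * i)) :
    (colE c k).eval a = (colE c k).eval a' := by
  unfold colE
  split_ifs <;> simp [c0, c1, Entry.eval, h]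

theorem dia_even {c : ℕ × ℕ × ℕ × ℕ} {a a' : ℕ → ℝ} (h : ∀ i, a (2 * i) = a' (2 * i)) :
    (diaE c).eval a = (diaE c).eval a' := by
  unfold diaE
  split_ifs <;> simp [Entry.eval, h]

/-- A satisfiable system gives a matrix of rank at most `s + 2`. -/
theorem rmat_complete (s : ℕ) (S : List Con) (h : Sat S) : MinRankLE (s + 2) (rmat (s + 2) S) := by
  obtain ⟨v, hv⟩ := h
  set r := s + 2 with hr
  set N := r + S.length with hN
  let b : ℕ → ℝ := fun k => v (k / 2)
  let a : ℕ → ℝ := fun k => if k % 2 = 0 then v (k / 2) else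
    ∑ t : Fin r, (rowE (cd S (k / 2 / N - r)) t).eval b * (colE (cd S (k / 2 % N - r)) t).eval b
  have hb : ∀ k, b (2 * k) = v k := fun k => by simp [b]
  have ha : ∀ k, a (2 * k) = v k := fun k => by simp [a]
  have hab : ∀ k, a (2 * k) = b (2 * k) := fun k => by rw [ha, hb]
  refine ⟨a, ?_⟩
  have hfac : (rmat r S).at a =
      (Matrix.of fun (i : Fin (rmat r S).rows.length) (k : Fin r) => (rent r S i k).eval a) *
      (Matrix.of fun (k : Fin r) (j : Fin (rmat r S).rows.length) => (rent r S k j).eval a) := by
    ext i j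
    rw [rmat_at, Matrix.mul_apply]
    simp only [Matrix.of_apply]
    by_cases hi : i.1 < r
    · rw [Finset.sum_eq_single (⟨i.1, hi⟩ : Fin r)]
      · have : (rent r S i.1 i.1).eval a = 1 := by simp [rent, hi, c1, Entry.eval]
        simp [this]
      · intro k _ hk
        have : i.1 ≠ k.1 := fun h => hk (Fin.ext h.symm)
        have h0 : (rent r S i.1 k.1).eval a = 0 := by
          simp [rent, hi, k.2, this, c0, Entry.eval]
        rw [h0, zero_mul]
      · intro h
        exact absurd (Finset.mem_univ _) h
    · by_cases hj : j.1 < r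
      · rw [Finset.sum_eq_single (⟨j.1, hj⟩ : Fin r)]
        · have : (rent r S j.1 j.1).eval a = 1 := by simp [rent, hj, c1, Entry.eval]
          simp [this]
        · intro k _ hk
          have : k.1 ≠ j.1 := fun h => hk (Fin.ext h)
          have h0 : (rent r S k.1 j.1).eval a = 0 := by
            simp [rent, hj, k.2, this, c0, Entry.eval]
          rw [h0, mul_zero]
        · intro h
          exact absurd (Finset.mem_univ _) h
      · have e1 : ∀ k : Fin r, (rent r S i.1 k.1) = rowE (cd S (i.1 - r)) k := fun k => by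
          simp [rent, hi]
        have e2 : ∀ k : Fin r, (rent r S k.1 j.1) = colE (cd S (j.1 - r)) k := fun k => by
          simp [rent, hj]
        simp only [e1, e2]
        have hiN : i.1 < N := lt_of_lt_of_eq i.2 (length_rmat r S)
        have hjN : j.1 < N := lt_of_lt_of_eq j.2 (length_rmat r S)
        by_cases hij : i.1 = j.1
        · have e3 : rent r S i.1 j.1 = diaE (cd S (i.1 - r)) := by
            simp [rent, hi, hj, hij]
          rw [e3, ← hij]
          have hg : i.1 - r < S.length := by omega
          have hc : cd S (i.1 - r) = (S[i.1 - r]).code := by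
            unfold cd
            rw [List.getD_eq_getElem _ _ hg]
          rw [hc]
          exact (con_iff v a ha _).2 (hv _ (List.getElem_mem hg))
        · have e3 : rent r S i.1 j.1 = Entry.var (2 * (i.1 * N + j.1) + 1) := by
            simp [rent, hi, hj, hij, hN]
          rw [e3]
          change a _ = _
          have e4 : (2 * (i.1 * N + j.1) + 1) / 2 = i.1 * N + j.1 := by omega
          have e5 : (i.1 * N + j.1) / N = i.1 := by
            rw [Nat.add_comm, Nat.add_mul_div_right _ _ (by omega), Nat.div_eq_of_lt hjN]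
            omega
          have e6 : (i.1 * N + j.1) % N = j.1 := by
            rw [Nat.add_comm, Nat.add_mul_mod_self_right, Nat.mod_eq_of_lt hjN]
          simp only [a]
          rw [if_neg (by omega), e4, e5, e6]
          exact Finset.sum_congr rfl fun k _ => by rw [row_even hab, col_even hab]
  rw [hfac]
  exact (Matrix.rank_mul_le_left _ _).trans (Matrix.rank_le_width _)

/-- A matrix of rank at most `s + 2` gives a solution of the system. -/
theorem rmat_sound (s : ℕ) (S : List Con) (h : MinRankLE (s + 2) (rmat (s + 2) S)) : Sat S := by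
  obtain ⟨a, ha⟩ := h
  refine ⟨fun k => a (2 * k), fun c hc => ?_⟩
  obtain ⟨g, hg, rfl⟩ := List.getElem_of_mem hc
  rw [← con_iff (s := s) (fun k => a (2 * k)) a (fun _ => rfl)]
  by_contra hne
  set r := s + 2 with hr
  have hN : (rmat r S).rows.length = r + S.length := length_rmat r S
  let f : Fin r ⊕ Fin 1 → Fin (rmat r S).rows.length :=
    Sum.elim (fun i => ⟨i, by omega⟩) (fun _ => ⟨r + g, by omega⟩)
  have hcd : cd S g = (S[g]).code := by
    unfold cd
    rw [List.getD_eq_getElem _ _ hg]
  have key : ((rmat r S).at a).submatrix f f = Matrix.fromBlocks 1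
      (Matrix.of fun (k : Fin r) (_ : Fin 1) => (colE (S[g]).code k).eval a)
      (Matrix.of fun (_ : Fin 1) (k : Fin r) => (rowE (S[g]).code k).eval a)
      (Matrix.of fun (_ _ : Fin 1) => (diaE (S[g]).code).eval a) := by
    ext i j
    rcases i with i | i <;> rcases j with j | j
    · simp only [Matrix.submatrix_apply, rmat_at, Matrix.fromBlocks_apply₁₁]
      change (rent r S i j).eval a = _
      rw [Matrix.one_apply]
      by_cases hij : i = j
      · subst hij
        simp [rent, c1, Entry.eval]
      · have : i.1 ≠ j.1 := fun h => hij (Fin.ext h)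
        simp [rent, c0, Entry.eval, this, hij]
    · simp only [Matrix.submatrix_apply, rmat_at, Matrix.fromBlocks_apply₁₂]
      change (rent r S i (r + g)).eval a = _
      simp [rent, hcd]
    · simp only [Matrix.submatrix_apply, rmat_at, Matrix.fromBlocks_apply₂₁]
      change (rent r S (r + g) j).eval a = _
      simp [rent, hcd]
    · simp only [Matrix.submatrix_apply, rmat_at, Matrix.fromBlocks_apply₂₂]
      change (rent r S (r + g) (r + g)).eval a = _
      simp [rent, hcd]
  have h1 : (((rmat r S).at a).submatrix f f).rank = r + 1 := by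
    rw [Matrix.rank_of_det_ne_zero]
    · simp
    · rw [key, Matrix.det_fromBlocks_one₁₁, Matrix.det_fin_one, Matrix.sub_apply,
        Matrix.mul_apply]
      simp only [Matrix.of_apply]
      intro h0
      exact hne (by linarith)
  have h2 := Matrix.rank_submatrix_le ((rmat r S).at a) f f
  omega

/-! ### Polynomial time -/

section

variable {α : Type} [TEnc α]

theorem poly_evar {v : α → ℕ} (hv : Poly v) : Poly (fun a => Entry.var (v a)) :=
  Pool.Agent.NPC.H606MinRank.poly_var hv

theorem poly_cd {S : α → List Con} {i : α → ℕ} (hS : Poly S) (hi : Poly i) :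
    Poly (fun a => cd (S a) (i a)) := by
  unfold cd
  have h1 : Poly (fun a => (S a).getD (i a) (ER.Con.one 0)) := Poly.getD hS hi (Poly.const _)
  exact Poly.of_toT (h1.toT'.congr fun _ => rfl)

theorem poly_rowE {c : α → ℕ × ℕ × ℕ × ℕ} {k : α → ℕ} (hc : Poly c) (hk : Poly k) :
    Poly (fun a => rowE (c a) (k a)) := by
  unfold rowE
  have h1 : Poly (fun a => (c a).1) := Poly.fst hc
  have h2 : Poly (fun a => (c a).2.1) := Poly.fst (Poly.snd hc)
  exact Poly.ite (Poly.decide_eq hk (Poly.const _))
    (Poly.ite (Poly.decide_eq h1 (Poly.const _)) (Poly.const _)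
      (poly_evar (Poly.mul (Poly.const 2) h2)))
    (Poly.ite (Poly.decide_eq hk (Poly.const _))
      (Poly.ite (Poly.decide_eq h1 (Poly.const _)) (Poly.const _) (Poly.const _)) (Poly.const _))

theorem poly_colE {c : α → ℕ × ℕ × ℕ × ℕ} {k : α → ℕ} (hc : Poly c) (hk : Poly k) :
    Poly (fun a => colE (c a) (k a)) := by
  unfold colE
  have h1 : Poly (fun a => (c a).1) := Poly.fst hc
  have h2 : Poly (fun a => (c a).2.2.1) := Poly.fst (Poly.snd (Poly.snd hc))
  exact Poly.ite (Poly.decide_eq hk (Poly.const _))
    (Poly.ite (Poly.decide_eq h1 (Poly.const _)) (poly_evar (Poly.mul (Poly.const 2) h2))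
      (Poly.const _))
    (Poly.ite (Poly.decide_eq hk (Poly.const _))
      (Poly.ite (Poly.decide_eq h1 (Poly.const _)) (poly_evar (Poly.mul (Poly.const 2) h2))
        (Poly.const _)) (Poly.const _))

theorem poly_diaE {c : α → ℕ × ℕ × ℕ × ℕ} (hc : Poly c) : Poly (fun a => diaE (c a)) := by
  unfold diaE
  have h1 : Poly (fun a => (c a).1) := Poly.fst hc
  have h2 : Poly (fun a => (c a).2.1) := Poly.fst (Poly.snd hc)
  have h3 : Poly (fun a => (c a).2.2.2) := Poly.snd (Poly.snd (Poly.snd hc))
  exact Poly.ite (Poly.decide_eq h1 (Poly.const _)) (poly_evar (Poly.mul (Poly.const 2) h2))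
    (poly_evar (Poly.mul (Poly.const 2) h3))

theorem poly_rent (r : ℕ) {S : α → List Con} {i j : α → ℕ} (hS : Poly S) (hi : Poly i)
    (hj : Poly j) : Poly (fun a => rent r (S a) (i a) (j a)) := by
  unfold rent
  have hir : Poly (fun a => i a - r) := Poly.sub hi (Poly.const _)
  have hjr : Poly (fun a => j a - r) := Poly.sub hj (Poly.const _)
  refine Poly.ite (Poly.decide_lt hi (Poly.const _))
    (Poly.ite (Poly.decide_lt hj (Poly.const _))
      (Poly.ite (Poly.decide_eq hi hj) (Poly.const _) (Poly.const _))
      (poly_colE (poly_cd hS hjr) hi))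
    (Poly.ite (Poly.decide_lt hj (Poly.const _)) (poly_rowE (poly_cd hS hir) hj)
      (Poly.ite (Poly.decide_eq hi hj) (poly_diaE (poly_cd hS hir)) ?_))
  exact poly_evar (Poly.add (Poly.mul (Poly.const 2) (Poly.add (Poly.mul hi
    (Poly.add (Poly.const r) (Poly.length hS))) hj)) (Poly.const 1))

theorem poly_rmat (r : ℕ) : Poly (rmat r) := by
  have hr : UPoly (fun S : List Con => r + S.length) := UPoly.add (UPoly.const r)
    (UPoly.length Poly.id)
  have h : Poly (fun S : List Con => (List.range (r + S.length)).map fun i =>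
      (List.range (r + S.length)).map fun j => rent r S i j) := by
    refine Poly.map (F := fun (S : List Con) i =>
      (List.range (r + S.length)).map fun j => rent r S i j) hr.range ?_
    have hr' : UPoly (fun q : List Con × ℕ => r + q.1.length) :=
      UPoly.add (UPoly.const r) (UPoly.length (Poly.fst Poly.id))
    refine Poly.map (F := fun (q : List Con × ℕ) j => rent r q.1 q.2 j) hr'.range ?_
    exact poly_rent r (Poly.fst (Poly.fst Poly.id)) (Poly.snd (Poly.fst Poly.id))
      (Poly.snd Poly.id)
  exact Poly.of_toT (h.toT'.congr fun _ => rfl)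

end

/-- `MinRank_r` is `∃ℝ`-hard for every `r ≥ 2`. -/
theorem minRank_hard (r : ℕ) (hr : 2 ≤ r) : ERHard (lang (MinRankLE r)) := by
  obtain ⟨s, rfl⟩ := Nat.exists_eq_add_of_le' hr
  exact ERHard.of_sys (poly_rmat (s + 2)) fun S =>
    ⟨rmat_complete s S, rmat_sound s S⟩

end Pool.Agent.NPC.V11228
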