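import Mathlib

/-!
# Sparse inputs: counting
-/

set_option autoImplicit false

open Finset

namespace Pool.Agent.V11228.OMv

variable {n L : ℕ}

/-- A point of the sample space is zero at a place. -/
abbrev Z (ω : Fin n ⊕ Fin n → Fin L) (x : Fin n ⊕ Fin n) : Prop := (ω x).val = 0

/-- No entry of the matrix is hit. -/
def NoM (M : Fin n → Fin n → Bool) (ω : Fin n ⊕ Fin n → Fin L) : Prop :=
  ∀ r c, Z ω (.inl r) → Z ω (.inr c) → M r c = false

theorem card_ne (hL : 1 ≤ L) : (univ.filter (fun t : Fin L => t.val ≠ 0)).card = L - 1 := by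
  obtain ⟨l, rfl⟩ : ∃ l, L = l + 1 := ⟨L - 1, by omega⟩
  have : univ.filter (fun t : Fin (l + 1) => t.val ≠ 0) = univ.erase 0 := by
    ext t
    rw [mem_filter, mem_erase]
    constructor
    · rintro ⟨-, h⟩
      exact ⟨fun h' => h (by rw [h']; rfl), mem_univ _⟩
    · rintro ⟨h, -⟩
      exact ⟨mem_univ _, fun h' => h (Fin.ext h')⟩
  rw [this, card_erase_of_mem (mem_univ _), card_univ, Fintype.card_fin]

open Classical in
/-- The number of the sparse inputs which hit no entry. -/
theorem no_card (M : Fin n → Fin n → Bool) {d : ℕ} (hL : 1 ≤ L) (hdL : d ≤ L)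
    (hM : ∀ r, (univ.filter (fun c => M r c = true)).card ≤ d) :
    (L : ℝ) ^ (2 * n) * (1 - d / (L : ℝ) ^ 2) ^ n ≤
      (univ.filter (fun ω : Fin n ⊕ Fin n → Fin L => NoM M ω)).card := by
  have hL0 : (0 : ℝ) < L := by exact_mod_cast hL
  have hL1 : (1 : ℝ) ≤ L := by exact_mod_cast hL
  obtain ⟨a, ha⟩ : ∃ a : ℝ, a = 1 - 1 / L := ⟨_, rfl⟩
  have ha0 : 0 ≤ a := by
    rw [ha, sub_nonneg, div_le_one hL0]
    exact hL1
  have ha1 : a ≤ 1 := by
    rw [ha]
    have : 0 ≤ 1 / (L : ℝ) := by positivity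
    linarith
  -- the number for a given vector of rows
  obtain ⟨N, hN⟩ : ∃ N : (Fin n → Fin L) → Finset (Fin n), ∀ α, N α =
      (univ.filter (fun r => (α r).val = 0)).biUnion
        (fun r => univ.filter (fun c => M r c = true)) := ⟨_, fun _ => rfl⟩
  have hNc : ∀ α, (N α).card ≤ d * (univ.filter (fun r => (α r).val = 0)).card := by
    intro α
    rw [hN, mul_comm, ← smul_eq_mul, ← sum_const]
    exact card_biUnion_le.trans (sum_le_sum fun r _ => hM r)
  have h1 : (univ.filter (fun ω : Fin n ⊕ Fin n → Fin L => NoM M ω)).card =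
      ∑ α : Fin n → Fin L, (univ.filter (fun β : Fin n → Fin L =>
        NoM M (Sum.elim α β))).card := by
    have h2 : (univ.filter (fun ω : Fin n ⊕ Fin n → Fin L => NoM M ω)).card =
        (univ.filter (fun P : (Fin n → Fin L) × (Fin n → Fin L) =>
          NoM M (Sum.elim P.1 P.2))).card := by
      refine card_bij (fun ω _ => (fun i => ω (.inl i), fun i => ω (.inr i))) ?_ ?_ ?_
      · intro ω hω
        rw [mem_filter] at hω ⊢
        refine ⟨mem_univ _, ?_⟩
        have : (Sum.elim (fun i => ω (Sum.inl i)) fun i => ω (Sum.inr i)) = ω := by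
          funext x
          cases x <;> rfl
        simp only [this]
        exact hω.2
      · intro ω _ ω' _ h
        rw [Prod.mk.injEq] at h
        funext x
        cases x with
        | inl i => exact congrFun h.1 i
        | inr i => exact congrFun h.2 i
      · rintro ⟨α, β⟩ h
        rw [mem_filter] at h
        exact ⟨Sum.elim α β, mem_filter.2 ⟨mem_univ _, h.2⟩, rfl⟩
    rw [h2, card_filter, Fintype.sum_prod_type]
    exact sum_congr rfl (fun α _ => (card_filter _ _).symm)
  have h2 : ∀ α : Fin n → Fin L, (L : ℝ) ^ n * ∏ r, (if (α r).val = 0 then a ^ d else 1) ≤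
      ((univ.filter (fun β : Fin n → Fin L => NoM M (Sum.elim α β))).card : ℝ) := by
    intro α
    have h3 : univ.filter (fun β : Fin n → Fin L => NoM M (Sum.elim α β)) =
        Fintype.piFinset (fun c => if c ∈ N α then univ.filter (fun t : Fin L => t.val ≠ 0)
          else univ) := by
      ext β
      rw [mem_filter, Fintype.mem_piFinset]
      constructor
      · rintro ⟨-, h⟩ c
        split_ifs with hc
        · rw [mem_filter]
          refine ⟨mem_univ _, fun h0 => ?_⟩
          rw [hN, mem_biUnion] at hc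
          obtain ⟨r, hr, hrc⟩ := hc
          rw [mem_filter] at hr hrc
          rw [h r c hr.2 h0] at hrc
          exact Bool.noConfusion hrc.2
        · exact mem_univ _
      · intro h
        refine ⟨mem_univ _, fun r c hr hc => ?_⟩
        have h4 := h c
        cases hrc : M r c with
        | false => rfl
        | true =>
          have hcN : c ∈ N α := by
            rw [hN, mem_biUnion]
            exact ⟨r, mem_filter.2 ⟨mem_univ _, hr⟩, mem_filter.2 ⟨mem_univ _, hrc⟩⟩
          rw [if_pos hcN, mem_filter] at h4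
          exact absurd hc h4.2
    rw [h3, Fintype.card_piFinset]
    push_cast
    have h4 : ∀ c, (((if c ∈ N α then univ.filter (fun t : Fin L => t.val ≠ 0)
        else univ).card : ℕ) : ℝ) = L * (if c ∈ N α then a else 1) := by
      intro c
      split_ifs with hc
      · rw [card_ne hL, Nat.cast_sub hL, ha]
        field_simp
        push_cast
        ring
      · rw [card_univ, Fintype.card_fin, mul_one]
    rw [prod_congr rfl (fun c _ => h4 c), prod_mul_distrib, prod_const, card_univ,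
      Fintype.card_fin]
    apply mul_le_mul_of_nonneg_left _ (by positivity)
    rw [prod_ite, prod_const, prod_const_one, mul_one, prod_ite, prod_const, prod_const_one,
      mul_one, ← pow_mul]
    refine pow_le_pow_of_le_one ha0 ha1 ?_
    rw [filter_mem_eq_inter, univ_inter]
    exact hNc α
  have h3 : ∑ α : Fin n → Fin L, ∏ r, (if (α r).val = 0 then a ^ d else 1) =
      (a ^ d + (L - 1)) ^ n := by
    have h4 := prod_univ_sum (fun _ : Fin n => (univ : Finset (Fin L)))
      (fun _ t => if t.val = 0 then a ^ d else (1 : ℝ))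
    rw [Fintype.piFinset_univ] at h4
    rw [← h4, prod_const, card_univ, Fintype.card_fin]
    congr 1
    rw [sum_ite, sum_const, sum_const]
    have h5 := card_ne hL
    have h6 : (univ.filter (fun t : Fin L => t.val = 0)).card = 1 := by
      have := card_filter_add_card_filter_not (s := (univ : Finset (Fin L))) (fun t => t.val = 0)
      rw [card_univ, Fintype.card_fin] at this
      have h7 : (univ.filter (fun t : Fin L => ¬ t.val = 0)).card = L - 1 := h5
      omega
    have h7 : (univ.filter (fun t : Fin L => ¬ t.val = 0)).card = L - 1 := h5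
    rw [h6, h7, one_smul, nsmul_eq_mul, mul_one, Nat.cast_sub hL, Nat.cast_one]
  have h4 : (L : ℝ) * (1 - d / (L : ℝ) ^ 2) ≤ a ^ d + (L - 1) := by
    have h5 : 1 + (d : ℝ) * (-(1 / L)) ≤ (1 + -(1 / (L : ℝ))) ^ d := by
      apply one_add_mul_le_pow
      have : 1 / (L : ℝ) ≤ 1 := by rw [div_le_one hL0]; exact hL1
      linarith
    have h6 : (1 + -(1 / (L : ℝ))) = a := by rw [ha]; ring
    rw [h6] at h5
    have h7 : (L : ℝ) * (1 - d / (L : ℝ) ^ 2) = L - d / L := by
      field_simp
    rw [h7]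
    have h8 : (d : ℝ) * (-(1 / L)) = - (d / L) := by ring
    rw [h8] at h5
    linarith
  have h5 : 0 ≤ (L : ℝ) * (1 - d / (L : ℝ) ^ 2) := by
    apply mul_nonneg hL0.le
    rw [sub_nonneg, div_le_one (by positivity)]
    have : (d : ℝ) ≤ L := by exact_mod_cast hdL
    nlinarith
  rw [h1]
  push_cast
  calc (L : ℝ) ^ (2 * n) * (1 - d / (L : ℝ) ^ 2) ^ n =
      (L : ℝ) ^ n * (L * (1 - d / (L : ℝ) ^ 2)) ^ n := by
        rw [mul_pow, ← mul_assoc, ← pow_add]
        congr 2
        ring
    _ ≤ (L : ℝ) ^ n * (a ^ d + (L - 1)) ^ n := by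
        gcongr
    _ = ∑ α : Fin n → Fin L, (L : ℝ) ^ n * ∏ r, (if (α r).val = 0 then a ^ d else 1) := by
        rw [← mul_sum, h3]
    _ ≤ _ := sum_le_sum (fun α _ => h2 α)

section

variable {h : ℕ} (σ τ : Fin h ↪ Fin n)

open Classical in
/-- The representative: zeros at the second ends of the edges are moved to the first ends. -/
noncomputable def Φ (ω : Fin n ⊕ Fin n → Fin L) : Fin n ⊕ Fin n → Fin L
  | .inl r => if h : ∃ i, σ i = r ∧ Z ω (.inr (τ i)) then ω (.inr (τ h.choose)) else ω (.inl r)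
  | .inr c => if h : ∃ i, τ i = c ∧ Z ω (.inr c) then ω (.inl (σ h.choose)) else ω (.inr c)

theorem Φ_inl_pos {ω : Fin n ⊕ Fin n → Fin L} {i : Fin h} (hi : Z ω (.inr (τ i))) :
    Φ σ τ ω (.inl (σ i)) = ω (.inr (τ i)) := by
  have hex : ∃ j, σ j = σ i ∧ Z ω (.inr (τ j)) := ⟨i, rfl, hi⟩
  unfold Φ
  simp only
  rw [dif_pos hex, σ.injective hex.choose_spec.1]

theorem Φ_inl_neg {ω : Fin n ⊕ Fin n → Fin L} {r : Fin n}
    (hr : ¬ ∃ i, σ i = r ∧ Z ω (.inr (τ i))) : Φ σ τ ω (.inl r) = ω (.inl r) := by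
  unfold Φ
  simp only
  rw [dif_neg hr]

theorem Φ_inr_pos {ω : Fin n ⊕ Fin n → Fin L} {i : Fin h} (hi : Z ω (.inr (τ i))) :
    Φ σ τ ω (.inr (τ i)) = ω (.inl (σ i)) := by
  have hex : ∃ j, τ j = τ i ∧ Z ω (.inr (τ i)) := ⟨i, rfl, hi⟩
  unfold Φ
  simp only
  rw [dif_pos hex, τ.injective hex.choose_spec.1]

theorem Φ_inr_neg {ω : Fin n ⊕ Fin n → Fin L} {c : Fin n}
    (hc : ¬ ∃ i, τ i = c ∧ Z ω (.inr c)) : Φ σ τ ω (.inr c) = ω (.inr c) := by
  unfold Φ
  simp only
  rw [dif_neg hc]

/-- The places where two points with the same representative differ. -/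
theorem Φ_eq {ω ω' : Fin n ⊕ Fin n → Fin L} (hΦ : Φ σ τ ω = Φ σ τ ω') {x : Fin n ⊕ Fin n}
    (hx : ω x ≠ ω' x) : ∃ i, (x = .inl (σ i) ∨ x = .inr (τ i)) ∧
      ((Z ω (.inr (τ i)) ∧ Z ω' (.inl (σ i)) ∧ ¬ Z ω' (.inr (τ i))) ∨
        (Z ω' (.inr (τ i)) ∧ Z ω (.inl (σ i)) ∧ ¬ Z ω (.inr (τ i)))) := by
  have key : ∀ {ω ω' : Fin n ⊕ Fin n → Fin L}, Φ σ τ ω = Φ σ τ ω' → ∀ i,
      Z ω (.inr (τ i)) → ¬ Z ω' (.inr (τ i)) → Z ω' (.inl (σ i)) := by
    intro ω ω' hΦ i h1 h2
    have h3 := congrFun hΦ (.inl (σ i))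
    rw [Φ_inl_pos σ τ h1, Φ_inl_neg σ τ (by
      rintro ⟨j, hj, hj'⟩
      rw [σ.injective hj] at hj'
      exact h2 hj')] at h3
    unfold Z
    rw [← h3]
    exact h1
  have fin : ∀ i, (x = .inl (σ i) ∨ x = .inr (τ i)) →
      ∃ i, (x = .inl (σ i) ∨ x = .inr (τ i)) ∧
      ((Z ω (.inr (τ i)) ∧ Z ω' (.inl (σ i)) ∧ ¬ Z ω' (.inr (τ i))) ∨
        (Z ω' (.inr (τ i)) ∧ Z ω (.inl (σ i)) ∧ ¬ Z ω (.inr (τ i)))) := by
    intro i hxi
    refine ⟨i, hxi, ?_⟩
    by_cases h1 : Z ω (.inr (τ i))
    · by_cases h2 : Z ω' (.inr (τ i))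
      · exfalso
        rcases hxi with rfl | rfl
        · have h3 := congrFun hΦ (.inr (τ i))
          rw [Φ_inr_pos σ τ h1, Φ_inr_pos σ τ h2] at h3
          exact hx h3
        · exact hx (Fin.ext (by rw [show (ω (.inr (τ i))).val = 0 from h1,
            show (ω' (.inr (τ i))).val = 0 from h2]))
      · exact Or.inl ⟨h1, key hΦ i h1 h2, h2⟩
    · by_cases h2 : Z ω' (.inr (τ i))
      · exact Or.inr ⟨h2, key hΦ.symm i h2 h1, h1⟩
      · exfalso
        rcases hxi with rfl | rfl
        · have h3 := congrFun hΦ (.inl (σ i))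
          rw [Φ_inl_neg σ τ (by
            rintro ⟨j, hj, hj'⟩
            rw [σ.injective hj] at hj'
            exact h1 hj'), Φ_inl_neg σ τ (by
            rintro ⟨j, hj, hj'⟩
            rw [σ.injective hj] at hj'
            exact h2 hj')] at h3
          exact hx h3
        · have h3 := congrFun hΦ (.inr (τ i))
          rw [Φ_inr_neg σ τ (by
            rintro ⟨j, hj, hj'⟩
            exact h1 hj'), Φ_inr_neg σ τ (by
            rintro ⟨j, hj, hj'⟩
            exact h2 hj')] at h3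
          exact hx h3
  cases x with
  | inl r =>
    by_cases hr : ∃ i, σ i = r
    · obtain ⟨i, rfl⟩ := hr
      exact fin i (Or.inl rfl)
    · exfalso
      have h3 := congrFun hΦ (.inl r)
      rw [Φ_inl_neg σ τ (fun ⟨i, hi, _⟩ => hr ⟨i, hi⟩),
        Φ_inl_neg σ τ (fun ⟨i, hi, _⟩ => hr ⟨i, hi⟩)] at h3
      exact hx h3
  | inr c =>
    by_cases hc : ∃ i, τ i = c
    · obtain ⟨i, rfl⟩ := hc
      exact fin i (Or.inr rfl)
    · exfalso
      have h3 := congrFun hΦ (.inr c)
      rw [Φ_inr_neg σ τ (fun ⟨i, hi, _⟩ => hc ⟨i, hi⟩),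
        Φ_inr_neg σ τ (fun ⟨i, hi, _⟩ => hc ⟨i, hi⟩)] at h3
      exact hx h3

open Classical in
/-- The number of the points of a set with few points of each representative. -/
theorem card_Φ (hL : 1 ≤ L) (S : Finset (Fin n ⊕ Fin n → Fin L)) (N : ℕ)
    (hS : ∀ ω ∈ S, ∀ i, ¬ (Z ω (.inl (σ i)) ∧ Z ω (.inr (τ i))))
    (hN : ∀ w, (S.filter (fun ω => Φ σ τ ω = w)).card ≤ N) :
    (S.card : ℝ) ≤ N * ((L : ℝ) ^ (2 * n) * (1 - 1 / L) ^ h) := by
  have hL0 : (0 : ℝ) < L := by exact_mod_cast hL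
  have h1 : S.card ≤ N * (S.image (Φ σ τ)).card :=
    card_le_mul_card_image S N (fun w _ => hN w)
  obtain ⟨T, hT⟩ : ∃ T : Fin n ⊕ Fin n → Finset (Fin L), T =
      Sum.elim (fun _ => (univ : Finset (Fin L)))
        (fun c => if c ∈ univ.map τ then univ.filter (fun t : Fin L => t.val ≠ 0) else univ) :=
    ⟨_, rfl⟩
  have h2 : S.image (Φ σ τ) ⊆ Fintype.piFinset T := by
    intro w hw
    obtain ⟨ω, hω, rfl⟩ := mem_image.1 hw
    rw [Fintype.mem_piFinset]
    intro x
    rw [hT]
    cases x with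
    | inl r => exact mem_univ _
    | inr c =>
      simp only [Sum.elim_inr]
      split_ifs with hc
      · obtain ⟨i, -, rfl⟩ := mem_map.1 hc
        rw [mem_filter]
        refine ⟨mem_univ _, ?_⟩
        by_cases hz : Z ω (.inr (τ i))
        · rw [Φ_inr_pos σ τ hz]
          exact fun h0 => hS ω hω i ⟨h0, hz⟩
        · rw [Φ_inr_neg σ τ (by
            rintro ⟨j, hj, hj'⟩
            exact hz hj')]
          exact hz
      · exact mem_univ _
  have h3 : ((Fintype.piFinset T).card : ℝ) = (L : ℝ) ^ (2 * n) * (1 - 1 / L) ^ h := by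
    rw [Fintype.card_piFinset, Fintype.prod_sum_type, hT]
    push_cast
    simp only [Sum.elim_inl, Sum.elim_inr, card_univ, Fintype.card_fin, prod_const]
    have h4 : ∀ c, (((if c ∈ univ.map τ then univ.filter (fun t : Fin L => t.val ≠ 0)
        else univ).card : ℕ) : ℝ) = L * (if c ∈ univ.map τ then (1 - 1 / (L : ℝ)) else 1) := by
      intro c
      split_ifs with hc
      · rw [card_ne hL, Nat.cast_sub hL]
        field_simp
        push_cast
        ring
      · rw [card_univ, Fintype.card_fin, mul_one]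
    rw [prod_congr rfl (fun c _ => h4 c), prod_mul_distrib, prod_const, card_univ,
      Fintype.card_fin, ← mul_assoc, ← pow_add, ← two_mul]
    congr 1
    rw [prod_ite, prod_const, prod_const_one, mul_one, filter_mem_eq_inter, univ_inter,
      card_map, card_univ, Fintype.card_fin]
  rw [← h3]
  calc (S.card : ℝ) ≤ ((N * (S.image (Φ σ τ)).card : ℕ) : ℝ) := by exact_mod_cast h1
    _ ≤ _ := by
        push_cast
        apply mul_le_mul_of_nonneg_left _ (Nat.cast_nonneg _)
        exact_mod_cast card_le_card h2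

end

end Pool.Agent.V11228.OMv
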