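import Pool.Agent.V11228.OMvM
import Pool.Agent.V11228.OMvN

/-!
# Arithmetic
-/

set_option autoImplicit false

open Finset

namespace Pool.Agent.V11228.OMv

/-- The number of the classes. -/
theorem numeric {n h d j N μ L : ℕ} (hd : 1 ≤ d) (hj : 2 ≤ j) (hL : L = d * j)
    (hn : n ≤ j * (h / 2))
    (H : (L : ℝ) ^ (2 * n) * (1 - d / (L : ℝ) ^ 2) ^ n ≤
      2 ^ μ * (N * ((L : ℝ) ^ (2 * n) * (1 - 1 / L) ^ h))) :
    2 ^ ((h - h / 2) / L) ≤ 2 ^ μ * N := by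
  have hL2 : 2 ≤ L := by rw [hL]; nlinarith
  have hLR : (2 : ℝ) ≤ L := by exact_mod_cast hL2
  have hL0 : (0 : ℝ) < L := by linarith
  have hdR : (1 : ℝ) ≤ d := by exact_mod_cast hd
  have hjR : (2 : ℝ) ≤ j := by exact_mod_cast hj
  have hLe : (L : ℝ) = d * j := by rw [hL]; push_cast; ring
  obtain ⟨a, ha⟩ : ∃ a : ℝ, a = 1 - 1 / L := ⟨_, rfl⟩
  obtain ⟨b, hb⟩ : ∃ b : ℝ, b = 1 - d / (L : ℝ) ^ 2 := ⟨_, rfl⟩
  rw [← ha, ← hb] at H
  have ha0 : 0 ≤ a := by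
    rw [ha, sub_nonneg, div_le_one hL0]
    linarith
  have hb0 : 0 < b := by
    rw [hb, sub_pos, div_lt_one (by positivity), hLe]
    have : (d : ℝ) < (d * j) * (d * j) := by nlinarith
    calc (d : ℝ) < (d * j) * (d * j) := this
      _ = (d * j) ^ 2 := by ring
  have hb1 : b ≤ 1 := by
    rw [hb]
    have : 0 ≤ (d : ℝ) / (L : ℝ) ^ 2 := by positivity
    linarith
  have ha1 : a ≤ 1 := by
    rw [ha]
    have : 0 ≤ 1 / (L : ℝ) := by positivity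
    linarith
  have hab : a ≤ b ^ j := by
    have h5 : 1 + (j : ℝ) * (-(d / (L : ℝ) ^ 2)) ≤ (1 + -(d / (L : ℝ) ^ 2)) ^ j := by
      apply one_add_mul_le_pow
      have : (d : ℝ) / (L : ℝ) ^ 2 ≤ 1 := by
        rw [hb] at hb0
        linarith
      linarith
    have h6 : (1 + -(d / (L : ℝ) ^ 2)) = b := by rw [hb]; ring
    have h7 : 1 + (j : ℝ) * (-(d / (L : ℝ) ^ 2)) = a := by
      rw [ha]
      have h8 : (j : ℝ) * (d / (L : ℝ) ^ 2) = 1 / L := by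
        have : (j : ℝ) * d = L := by rw [hLe]; ring
        rw [← mul_div_assoc, this]
        field_simp
      linarith
    rw [h6, h7] at h5
    exact h5
  have h1 : a ^ h ≤ b ^ n * a ^ (h - h / 2) := by
    have e : h = h / 2 + (h - h / 2) := by omega
    calc a ^ h = a ^ (h / 2) * a ^ (h - h / 2) := by rw [← pow_add, ← e]
      _ ≤ (b ^ j) ^ (h / 2) * a ^ (h - h / 2) := by gcongr
      _ = b ^ (j * (h / 2)) * a ^ (h - h / 2) := by rw [← pow_mul]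
      _ ≤ b ^ n * a ^ (h - h / 2) := by
          apply mul_le_mul_of_nonneg_right _ (by positivity)
          exact pow_le_pow_of_le_one hb0.le hb1 hn
  obtain ⟨s, hs⟩ : ∃ s, s = (h - h / 2) / L := ⟨_, rfl⟩
  have h2 : a ^ (h - h / 2) ≤ (1 / 2) ^ s := by
    have h3 : a ^ L ≤ 1 / 2 := by
      have h4 := bern (n := L) (h := 1) (Q := L) (by omega) (by omega) (by omega)
      have h5 : (2 : ℝ) * ((L : ℝ) - 1) ^ L ≤ (L : ℝ) ^ L := by
        have : ((L - 1 : ℕ) : ℝ) = (L : ℝ) - 1 := by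
          rw [Nat.cast_sub (by omega), Nat.cast_one]
        rw [← this]
        exact_mod_cast h4
      have h6 : a = ((L : ℝ) - 1) / L := by
        rw [ha]
        field_simp
      rw [h6, div_pow, div_le_iff₀ (by positivity)]
      linarith
    calc a ^ (h - h / 2) ≤ a ^ (L * s) := by
          apply pow_le_pow_of_le_one ha0 ha1
          rw [hs]
          exact Nat.mul_div_le _ _
      _ = (a ^ L) ^ s := by rw [pow_mul]
      _ ≤ _ := by gcongr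
  rw [← hs]
  have hLp : (0 : ℝ) < (L : ℝ) ^ (2 * n) := by positivity
  have hbn : 0 < b ^ n := by positivity
  have h3 : (L : ℝ) ^ (2 * n) * b ^ n ≤
      (L : ℝ) ^ (2 * n) * b ^ n * (2 ^ μ * N * (1 / 2) ^ s) := by
    calc (L : ℝ) ^ (2 * n) * b ^ n ≤ 2 ^ μ * (N * ((L : ℝ) ^ (2 * n) * a ^ h)) := H
      _ ≤ 2 ^ μ * (N * ((L : ℝ) ^ (2 * n) * (b ^ n * (1 / 2) ^ s))) := by
          gcongr
          exact h1.trans (by gcongr)
      _ = _ := by ring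
  have h4 : 1 ≤ (2 : ℝ) ^ μ * N * (1 / 2) ^ s := by
    by_contra hcon
    push Not at hcon
    have : (L : ℝ) ^ (2 * n) * b ^ n * (2 ^ μ * N * (1 / 2) ^ s) <
        (L : ℝ) ^ (2 * n) * b ^ n * 1 := by
      apply mul_lt_mul_of_pos_left hcon
      positivity
    rw [mul_one] at this
    exact absurd h3 (not_le.2 this)
  have h5 : (2 : ℝ) ^ s ≤ 2 ^ μ * N := by
    calc (2 : ℝ) ^ s = 1 * 2 ^ s := by rw [one_mul]
      _ ≤ (2 ^ μ * N * (1 / 2) ^ s) * 2 ^ s := by gcongr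
      _ = 2 ^ μ * N * ((1 / 2) ^ s * 2 ^ s) := by ring
      _ = 2 ^ μ * N := by rw [← mul_pow]; norm_num
  exact_mod_cast h5

/-- The choice of the parameters. -/
structure Par (k n n₁ κ a m h Q L μ : ℕ) : Prop where
  κ4 : κ = 4 * (k + 1)
  n₁2 : 4 * n₁ ≤ 3 * n
  a1 : 2 ≤ a
  aκ : 2 * (κ * a) ≤ n₁
  m1 : a + 8 * (n₁ * κ) ≤ a * m
  me : m = 512 * (k + 1) ^ 2 + 1
  h1 : 1 ≤ h
  hh : h * 2 ^ (2 * κ + 2) ≤ n₁
  Qh : n ≤ Q * h
  QQ : Q = 2 ^ (8 * k + 12)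
  Lj : L = (4 * Q ^ 2) * (4 * Q)
  jh : n ≤ (4 * Q) * (h / 2)
  fin : ∀ lg, (h - h / 2) / L ≤ 2 * μ + 2 * (lg + 1) * m → n ≤ 2 ^ (70 * (k + 1)) * (lg + 1)

theorem exists_par (k n μ : ℕ) (hμ : μ = n / 2 ^ (70 * (k + 1))) (hn : 2 ^ (70 * (k + 1)) ≤ n) :
    ∃ n₁ κ a m h Q L, Par k n n₁ κ a m h Q L μ := by
  obtain ⟨D, hD⟩ : ∃ D, D = 2 ^ (70 * (k + 1)) := ⟨_, rfl⟩
  rw [← hD] at hn hμ
  obtain ⟨κ, hκ⟩ : ∃ κ, κ = 4 * (k + 1) := ⟨_, rfl⟩
  obtain ⟨m, hm⟩ : ∃ m, m = 512 * (k + 1) ^ 2 + 1 := ⟨_, rfl⟩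
  obtain ⟨n₁, hn₁⟩ : ∃ n₁, n₁ = n / 2 := ⟨_, rfl⟩
  obtain ⟨a, ha⟩ : ∃ a, a = n₁ / (2 * κ) := ⟨_, rfl⟩
  obtain ⟨E, hE⟩ : ∃ E, E = 2 ^ (2 * κ + 2) := ⟨_, rfl⟩
  obtain ⟨h, hh⟩ : ∃ h, h = n₁ / E := ⟨_, rfl⟩
  obtain ⟨Q, hQ⟩ : ∃ Q, Q = 2 ^ (8 * k + 12) := ⟨_, rfl⟩
  obtain ⟨L, hL⟩ : ∃ L, L = (4 * Q ^ 2) * (4 * Q) := ⟨_, rfl⟩
  have hE' : E = 2 ^ (8 * k + 10) := by
    rw [hE, hκ]
    congr 1
    ring
  have hQE : Q = 4 * E := by
    rw [hQ, hE', show 8 * k + 12 = (8 * k + 10) + 2 by ring, pow_add]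
    ring
  have hE1 : 1 ≤ E := by rw [hE]; exact Nat.one_le_two_pow
  have hDE : 4 * E ≤ D := by
    rw [← hQE, hQ, hD]
    exact Nat.pow_le_pow_right (by norm_num) (by omega)
  have hDbig : 2 ^ 20 * (k + 1) ≤ D := by
    have h3 : k + 1 ≤ 2 ^ k := Nat.lt_two_pow_self
    calc 2 ^ 20 * (k + 1) ≤ 2 ^ 20 * 2 ^ k := Nat.mul_le_mul_left _ h3
      _ = 2 ^ (20 + k) := (pow_add _ _ _).symm
      _ ≤ D := by rw [hD]; exact Nat.pow_le_pow_right (by norm_num) (by omega)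
  have hDE2 : 32 * E ≤ D := by
    rw [hE', hD, show 32 * 2 ^ (8 * k + 10) = 2 ^ 5 * 2 ^ (8 * k + 10) by norm_num, ← pow_add]
    exact Nat.pow_le_pow_right (by norm_num) (by omega)
  have hn20 : 2 ^ 20 * (k + 1) ≤ n := hDbig.trans hn
  have hκ1 : 1 ≤ κ := by omega
  have ha1 : 2 ≤ a := by
    rw [ha, Nat.le_div_iff_mul_le (by omega)]
    omega
  have haκ : 2 * κ * a ≤ n₁ := by rw [ha]; exact Nat.mul_div_le _ _
  have hna : n₁ < 2 * κ * (a + 1) := by rw [ha]; exact Nat.lt_mul_div_succ n₁ (by omega)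
  have hhE : E * h ≤ n₁ := by rw [hh]; exact Nat.mul_div_le _ _
  have hhE2 : n₁ < E * (h + 1) := by rw [hh]; exact Nat.lt_mul_div_succ n₁ (by omega)
  have hh8 : 4 ≤ h := by
    rw [hh, Nat.le_div_iff_mul_le (by omega)]
    omega
  have hnE : n ≤ 4 * E * h := by
    have h3 : n ≤ 2 * n₁ + 1 := by omega
    nlinarith
  refine ⟨n₁, κ, a, m, h, Q, L, ⟨hκ, by omega, ha1, by linarith, ?_, hm, by omega, ?_, ?_, hQ, hL,
    ?_, ?_⟩⟩
  · have h3 : n₁ ≤ 4 * κ * a := by nlinarith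
    calc a + 8 * (n₁ * κ) ≤ a + 8 * ((4 * κ * a) * κ) := by gcongr
      _ = a * m := by rw [hm, hκ]; ring
  · rw [← hE, mul_comm]
    exact hhE
  · rw [hQE]
    exact hnE
  · have h3 : h ≤ 4 * (h / 2) := by omega
    have h4 : n ≤ Q * h := by rw [hQE]; exact hnE
    calc n ≤ Q * h := h4
      _ ≤ Q * (4 * (h / 2)) := Nat.mul_le_mul_left _ h3
      _ = _ := by ring
  · intro lg H
    rw [← hD]
    obtain ⟨s, hs⟩ : ∃ s, s = (h - h / 2) / L := ⟨_, rfl⟩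
    rw [← hs] at H
    have hQ1 : 1 ≤ Q := by omega
    have hL1 : 1 ≤ L := by
      rw [hL]
      exact Nat.mul_pos (Nat.mul_pos (Nat.succ_pos 3) (Nat.pow_pos hQ1)) (Nat.mul_pos (Nat.succ_pos 3) hQ1)
    obtain ⟨W, hW⟩ : ∃ W, W = 2 * Q * L := ⟨_, rfl⟩
    have hW1 : 1 ≤ W := by
      rw [hW]
      exact Nat.mul_pos (Nat.mul_pos (Nat.succ_pos 1) hQ1) hL1
    have h3 : h - h / 2 < L * (s + 1) := by rw [hs]; exact Nat.lt_mul_div_succ _ (by omega)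
    have h4 : n ≤ W * (s + 1) := by
      have h5 : n ≤ Q * h := by rw [hQE]; exact hnE
      have h6 : h ≤ 2 * (h - h / 2) := by omega
      calc n ≤ Q * h := h5
        _ ≤ Q * (2 * (h - h / 2)) := Nat.mul_le_mul_left _ h6
        _ ≤ Q * (2 * (L * (s + 1))) := by
            apply Nat.mul_le_mul_left
            omega
        _ = W * (s + 1) := by rw [hW]; ring
    have hWe : W = 2 ^ (32 * k + 53) := by
      have : W = 32 * Q ^ 4 := by rw [hW, hL]; ring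
      rw [this, hQ, ← pow_mul, show (32 : ℕ) = 2 ^ 5 by norm_num, ← pow_add]
      congr 1
      ring
    have hk4 : (k + 1) ^ 2 ≤ 2 ^ (2 * k) := by
      have : k + 1 ≤ 2 ^ k := Nat.lt_two_pow_self
      calc (k + 1) ^ 2 ≤ (2 ^ k) ^ 2 := Nat.pow_le_pow_left this 2
        _ = _ := by rw [← pow_mul, mul_comm]
    have hm5 : 6 * m ≤ 2 ^ (2 * k + 12) := by
      have h1 : 1 ≤ 2 ^ (2 * k) := Nat.one_le_two_pow
      have h2 : 2 ^ (2 * k + 12) = 4096 * 2 ^ (2 * k) := by rw [pow_add]; norm_num; ring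
      rw [hm, h2]; omega
    have hDW : W * (6 * m) ≤ D := by
      calc W * (6 * m) ≤ 2 ^ (32 * k + 53) * 2 ^ (2 * k + 12) := by
            rw [hWe]; exact Nat.mul_le_mul_left _ hm5
        _ = 2 ^ (34 * k + 65) := by rw [← pow_add]; congr 1; ring
        _ ≤ D := by rw [hD]; exact Nat.pow_le_pow_right (by norm_num) (by omega)
    have h4W : 4 * W ≤ D := by
      rw [hWe, hD, show 4 * 2 ^ (32 * k + 53) = 2 ^ 2 * 2 ^ (32 * k + 53) by norm_num, ← pow_add]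
      exact Nat.pow_le_pow_right (by norm_num) (by omega)
    have h5 : 4 * μ ≤ s + 1 := by
      have h3 : D * μ ≤ n := by rw [hμ]; exact Nat.mul_div_le n D
      have h6 : (4 * W) * μ ≤ n := (Nat.mul_le_mul_right _ h4W).trans h3
      have h7 : W * (4 * μ) ≤ W * (s + 1) := by nlinarith
      exact Nat.le_of_mul_le_mul_left h7 (by omega)
    obtain ⟨X, hX⟩ : ∃ X, X = (lg + 1) * m := ⟨_, rfl⟩
    have hX1 : 1 ≤ X := by rw [hX]; exact Nat.mul_pos (by omega) (by omega)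
    have hXe : 2 * (lg + 1) * m = 2 * X := by rw [hX]; ring
    rw [hXe] at H
    have h6 : s + 1 ≤ 6 * X := by omega
    calc n ≤ W * (s + 1) := h4
      _ ≤ W * (6 * X) := Nat.mul_le_mul_left _ h6
      _ = W * (6 * m) * (lg + 1) := by rw [hX]; ring
      _ ≤ D * (lg + 1) := Nat.mul_le_mul_right _ hDW

end Pool.Agent.V11228.OMv
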