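import Pool.Agent.V11228.OMvA
import Pool.Agent.W896.FD.Ident

/-!
# A fixed matrix and circuits of small formal degree
-/

set_option autoImplicit false

open Finset

namespace Pool.Agent.V11228.OMv

open Pool.Agent.W896.RK Pool.Agent.W896.HP Pool.Agent.W896.FD

variable {n L : ℕ} {V : Type}

open Classical in
/-- The input for a point of the sample space. -/
noncomputable def bits (ω : Fin n ⊕ Fin n → Fin L) (x : Fin n ⊕ Fin n) : Bool := decide (Z ω x)

open Classical in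
/-- The first vector of one point and the second vector of another one. -/
noncomputable def mix (ω ω' : Fin n ⊕ Fin n → Fin L) : Fin n ⊕ Fin n → Bool :=
  Sum.elim (fun r => bits ω (.inl r)) (fun c => bits ω' (.inr c))

theorem bits_true {ω : Fin n ⊕ Fin n → Fin L} {x : Fin n ⊕ Fin n} : bits ω x = true ↔ Z ω x := by
  unfold bits
  exact decide_eq_true_iff

/-- The difference to the mixture. -/
theorem fill_mix {p : Fin n ⊕ Fin n → V} {b₀ : V → Bool} {ω ω' : Fin n ⊕ Fin n → Fin L} {v : V}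
    (h : fill p b₀ (bits ω) v ≠ fill p b₀ (mix ω ω') v) :
    ∃ c, p (.inr c) = v ∧ ω (.inr c) ≠ ω' (.inr c) := by
  unfold fill at h
  cases hv : idx p v with
  | none => rw [hv] at h; exact absurd rfl h
  | some i =>
    rw [hv] at h
    have hi := idx_some hv
    cases i with
    | inl r => exact absurd rfl h
    | inr c =>
      refine ⟨c, hi, fun he => h ?_⟩
      change bits ω (.inr c) = bits ω' (.inr c)
      unfold bits Z
      rw [he]

theorem fill_mix' {p : Fin n ⊕ Fin n → V} {b₀ : V → Bool} {ω ω' : Fin n ⊕ Fin n → Fin L} {v : V}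
    (h : fill p b₀ (bits ω') v ≠ fill p b₀ (mix ω ω') v) :
    ∃ r, p (.inl r) = v ∧ ω (.inl r) ≠ ω' (.inl r) := by
  unfold fill at h
  cases hv : idx p v with
  | none => rw [hv] at h; exact absurd rfl h
  | some i =>
    rw [hv] at h
    have hi := idx_some hv
    cases i with
    | inr c => exact absurd rfl h
    | inl r =>
      refine ⟨r, hi, fun he => h ?_⟩
      change bits ω' (.inl r) = bits ω (.inl r)
      unfold bits Z
      rw [he]

section

variable {n₁ m h : ℕ} {U : Circ V}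

open Classical in
/-- The points which satisfy the pieces. -/
theorem card_piece {p : Fin n ⊕ Fin n → V} (hp : Function.Injective p) (b₀ : V → Bool)
    {M : Fin n → Fin n → Bool} {α β : Fin n₁ ↪ Fin n} {d : U.G → Fin n₁ ⊕ Fin n₁ → ℕ}
    (hd : IsDeg U (fun i => p (Sum.map α β i)) d) {θ : Fin m → Option (Piece U)}
    (hcl : Cl U (plst θ) U.out) (col : Fin m → Bool) (σ τ : Fin h ↪ Fin n)
    (hσ : ∀ i, ∃ a, α a = σ i ∧
      ∀ j, Sum.inl a ∈ vrs (fun i => p (Sum.map α β i)) d θ j → col j = true)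
    (hτ : ∀ i, ∃ a, β a = τ i ∧
      ∀ j, Sum.inr a ∈ vrs (fun i => p (Sum.map α β i)) d θ j → col j = false)
    (hM : ∀ i, M (σ i) (τ i) = true)
    (hU : ∀ y : Fin n ⊕ Fin n → Bool, U.Val (fill p b₀ y) U.out →
      ∀ r c, y (.inl r) = true → y (.inr c) = true → M r c = false) (hL : 1 ≤ L) :
    ((univ.filter (fun ω : Fin n ⊕ Fin n → Fin L =>
      ∀ j P, θ j = some P → P.True (fill p b₀ (bits ω)))).card : ℝ) ≤
      (L : ℝ) ^ (2 * n) * (1 - 1 / L) ^ h := by
  have hp' : Function.Injective (fun i => p (Sum.map α β i)) :=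
    hp.comp (Function.Injective.sumMap α.injective β.injective)
  obtain ⟨S, hS⟩ : ∃ S : Finset (Fin n ⊕ Fin n → Fin L), S = univ.filter
    (fun ω => ∀ j P, θ j = some P → P.True (fill p b₀ (bits ω))) := ⟨_, rfl⟩
  rw [← hS]
  have hval : ∀ y : Fin n ⊕ Fin n → Bool, (∀ j P, θ j = some P → P.True (fill p b₀ y)) →
      ∀ r c, y (.inl r) = true → y (.inr c) = true → M r c = false := by
    intro y hy
    apply hU
    apply hcl.val
    intro P hP
    obtain ⟨j, hj⟩ := mem_plst.1 hP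
    exact hy j P hj
  -- mixtures
  have hmix : ∀ ω ω', ω ∈ S → ω' ∈ S → Φ σ τ ω = Φ σ τ ω' →
      ∀ j P, θ j = some P → P.True (fill p b₀ (mix ω ω')) := by
    intro ω ω' hω hω' hΦ j P hj
    rw [hS, mem_filter] at hω hω'
    have hvrs : vrs (fun i => p (Sum.map α β i)) d θ j =
        P.vars (fun i => p (Sum.map α β i)) d := by
      unfold vrs
      rw [hj]; rfl
    cases hcol : col j with
    | true =>
      refine piece_dep' hd (hω.2 j P hj) (fun v hv => ?_) hp'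
      obtain ⟨c, hc, hne⟩ := fill_mix hv
      obtain ⟨i, hi | hi, -⟩ := Φ_eq σ τ hΦ hne
      · exact absurd hi (by simp)
      · obtain ⟨a, ha, ha'⟩ := hτ i
        refine ⟨.inr a, ?_, ?_⟩
        · rw [← hc, Sum.inr_injective hi, ← ha]
          rfl
        · intro h5
          rw [← hvrs] at h5
          rw [ha' j h5] at hcol
          exact Bool.noConfusion hcol
    | false =>
      refine piece_dep' hd (hω'.2 j P hj) (fun v hv => ?_) hp'
      obtain ⟨r, hr, hne⟩ := fill_mix' hv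
      obtain ⟨i, hi | hi, -⟩ := Φ_eq σ τ hΦ hne
      · obtain ⟨a, ha, ha'⟩ := hσ i
        refine ⟨.inl a, ?_, ?_⟩
        · rw [← hr, Sum.inl_injective hi, ← ha]
          rfl
        · intro h5
          rw [← hvrs] at h5
          rw [ha' j h5] at hcol
          exact Bool.noConfusion hcol
      · exact absurd hi (by simp)
  have hno : ∀ ω ω', ω ∈ S → ω' ∈ S → Φ σ τ ω = Φ σ τ ω' → ∀ i,
      ¬ (Z ω (.inl (σ i)) ∧ Z ω' (.inr (τ i))) := by
    rintro ω ω' hω hω' hΦ i ⟨h1, h2⟩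
    have h3 := hval _ (hmix ω ω' hω hω' hΦ) (σ i) (τ i) (bits_true.2 h1) (bits_true.2 h2)
    rw [hM i] at h3
    exact Bool.noConfusion h3
  have hfin := card_Φ σ τ hL S 1 (fun ω hω i => hno ω ω hω hω rfl i) (by
    intro w
    rw [card_le_one]
    intro ω hω ω' hω'
    rw [mem_filter] at hω hω'
    by_contra hne
    obtain ⟨x, hx⟩ := Function.ne_iff.1 hne
    have hΦ : Φ σ τ ω = Φ σ τ ω' := hω.2.trans hω'.2.symm
    obtain ⟨i, -, ⟨h1, h2, -⟩ | ⟨h1, h2, -⟩⟩ := Φ_eq σ τ hΦ hx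
    · exact hno ω' ω hω'.1 hω.1 hΦ.symm i ⟨h2, h1⟩
    · exact hno ω ω' hω.1 hω'.1 hΦ i ⟨h2, h1⟩)
  rw [Nat.cast_one, one_mul] at hfin
  exact hfin

end

/-- Positions which are read rarely. -/
theorem exists_rare {k κ n₁ : ℕ} (hκ : κ = 4 * (k + 1)) (hn₁ : 4 * n₁ ≤ 3 * n) (d : Fin n → ℕ)
    (hd : ∑ i, d i ≤ k * n) : ∃ α : Fin n₁ ↪ Fin n, ∀ i, d (α i) ≤ κ := by
  classical
  obtain ⟨G, hG⟩ : ∃ G : Finset (Fin n), G = univ.filter (fun e => d e ≤ κ) := ⟨_, rfl⟩
  have hGc : n₁ ≤ G.card := by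
    have h3 : (univ.filter (fun e => ¬ d e ≤ κ)).card * (κ + 1) ≤ k * n := by
      refine le_trans ?_ hd
      rw [← smul_eq_mul, ← sum_const]
      calc ∑ _e ∈ univ.filter (fun e => ¬ d e ≤ κ), (κ + 1) ≤
          ∑ e ∈ univ.filter (fun e => ¬ d e ≤ κ), d e := by
            apply sum_le_sum
            intro e he
            have := (mem_filter.1 he).2
            omega
        _ ≤ _ := sum_le_sum_of_subset (subset_univ _)
    have h4 : G.card + (univ.filter (fun e => ¬ d e ≤ κ)).card = n := by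
      rw [hG, card_filter_add_card_filter_not, card_univ, Fintype.card_fin]
    obtain ⟨X, hX⟩ : ∃ X, X = (univ.filter (fun e => ¬ d e ≤ κ)).card := ⟨_, rfl⟩
    rw [← hX] at h3 h4
    have h6 : 4 * X ≤ n := by
      have h7 : (4 * X) * (k + 1) ≤ n * (k + 1) := by
        calc (4 * X) * (k + 1) ≤ X * (κ + 1) := by rw [hκ]; nlinarith
          _ ≤ k * n := h3
          _ ≤ _ := by nlinarith
      exact Nat.le_of_mul_le_mul_right h7 (by omega)
    omega
  have h3 : Fintype.card (Fin n₁) ≤ Fintype.card G := by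
    rw [Fintype.card_fin, Fintype.card_coe]
    exact hGc
  obtain ⟨g⟩ := Function.Embedding.nonempty_of_card_le h3
  have hGm : ∀ e ∈ G, d e ≤ κ := by
    intro e he
    rw [hG, mem_filter] at he
    exact he.2
  exact ⟨g.trans (Function.Embedding.subtype _), fun i => hGm _ (g i).2⟩

/-- The two sides of a coloring contain a matching. -/
theorem color_matching {n₁ κ h : ℕ} {A B : Finset (Fin n₁)} {α β : Fin n₁ ↪ Fin n}
    (hAB : n₁ * n₁ ≤ 2 ^ (2 * κ + 1) * (A.card * B.card)) (h1 : 1 ≤ h)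
    (hh : h * 2 ^ (2 * κ + 2) ≤ n₁) {M : Fin n → Fin n → Bool}
    (hM : ∀ A B : Finset (Fin n), h ≤ A.card → h ≤ B.card → ∃ r ∈ A, ∃ c ∈ B, M r c = true) :
    ∃ σ τ : Fin h ↪ Fin n, (∀ i, ∃ a ∈ A, α a = σ i) ∧ (∀ i, ∃ a ∈ B, β a = τ i) ∧
      ∀ i, M (σ i) (τ i) = true := by
  classical
  have hA1 : A.card ≤ n₁ := by simpa using card_le_univ A
  have hB1 : B.card ≤ n₁ := by simpa using card_le_univ B
  have hpos : 0 < 2 ^ (2 * κ + 1) := Nat.two_pow_pos _
  have e : 2 ^ (2 * κ + 2) = 2 * 2 ^ (2 * κ + 1) := by rw [pow_succ 2 (2 * κ + 1)]; ring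
  have hn₁ : 0 < n₁ := by
    have := Nat.two_pow_pos (2 * κ + 2)
    have : 0 < h * 2 ^ (2 * κ + 2) := Nat.mul_pos h1 this
    omega
  have hA : 2 * h ≤ A.card := by
    have h2 : n₁ * n₁ ≤ n₁ * (2 ^ (2 * κ + 1) * A.card) := by
      calc n₁ * n₁ ≤ 2 ^ (2 * κ + 1) * (A.card * B.card) := hAB
        _ ≤ 2 ^ (2 * κ + 1) * (A.card * n₁) := by gcongr
        _ = _ := by ring
    have h3 : n₁ ≤ 2 ^ (2 * κ + 1) * A.card := Nat.le_of_mul_le_mul_left h2 hn₁
    rw [e] at hh
    have h4 : 2 ^ (2 * κ + 1) * (2 * h) ≤ 2 ^ (2 * κ + 1) * A.card := by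
      calc 2 ^ (2 * κ + 1) * (2 * h) = h * (2 * 2 ^ (2 * κ + 1)) := by ring
        _ ≤ n₁ := hh
        _ ≤ _ := h3
    exact Nat.le_of_mul_le_mul_left h4 hpos
  have hB : 2 * h ≤ B.card := by
    have h2 : n₁ * n₁ ≤ n₁ * (2 ^ (2 * κ + 1) * B.card) := by
      calc n₁ * n₁ ≤ 2 ^ (2 * κ + 1) * (A.card * B.card) := hAB
        _ ≤ 2 ^ (2 * κ + 1) * (n₁ * B.card) := by gcongr
        _ = _ := by ring
    have h3 : n₁ ≤ 2 ^ (2 * κ + 1) * B.card := Nat.le_of_mul_le_mul_left h2 hn₁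
    rw [e] at hh
    have h4 : 2 ^ (2 * κ + 1) * (2 * h) ≤ 2 ^ (2 * κ + 1) * B.card := by
      calc 2 ^ (2 * κ + 1) * (2 * h) = h * (2 * 2 ^ (2 * κ + 1)) := by ring
        _ ≤ n₁ := hh
        _ ≤ _ := h3
    exact Nat.le_of_mul_le_mul_left h4 hpos
  obtain ⟨σ, τ, h2, h3, h4⟩ := exists_matching hM (A.map α) (B.map β) h
    (by rw [card_map]; omega) (by rw [card_map]; omega)
  refine ⟨σ, τ, fun i => ?_, fun i => ?_, h4⟩
  · obtain ⟨a, ha, ha'⟩ := mem_map.1 (h2 i)
    exact ⟨a, ha, ha'⟩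
  · obtain ⟨a, ha, ha'⟩ := mem_map.1 (h3 i)
    exact ⟨a, ha, ha'⟩

open Classical in
/-- **The bound** for random circuits. -/
theorem circ_main {k n n₁ κ a m h Q L μ : ℕ} (par : Par k n n₁ κ a m h Q L μ)
    {M : Fin n → Fin n → Bool}
    (hMr : ∀ r, (univ.filter (fun c => M r c = true)).card ≤ 4 * Q ^ 2)
    (hM : ∀ A B : Finset (Fin n), h ≤ A.card → h ≤ B.card → ∃ r ∈ A, ∃ c ∈ B, M r c = true)
    {p : Fin n ⊕ Fin n → V} (hp : Function.Injective p) (b₀ : V → Bool)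
    (R : Type) [Fintype R] [Nonempty R] (U : R → Circ V)
    (hU : ∀ r y, (U r).Val (fill p b₀ y) (U r).out →
      ∀ i j, y (.inl i) = true → y (.inr j) = true → M i j = false)
    (hc : ∀ y : Fin n ⊕ Fin n → Bool,
      (∀ i j, y (.inl i) = true → y (.inr j) = true → M i j = false) →
      Nat.card R ≤ 2 ^ μ * Nat.card {r // (U r).Val (fill p b₀ y) (U r).out})
    (hd : ∀ r, ∃ d : (U r).G → V → ℕ, IsDeg (U r) id d ∧
      ∑ i, d (U r).out (p i) ≤ k * n) :
    ∃ r, n ≤ 2 ^ (70 * (k + 1)) * (Nat.log 2 (Fintype.card (U r).G) + 1) := by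
  have hQ1 : 1 ≤ Q := by rw [par.QQ]; exact Nat.one_le_two_pow
  have hL1 : 1 ≤ L := by
    have : 0 < L := by rw [par.Lj]; positivity
    exact this
  -- the acceptance
  obtain ⟨r, hr⟩ := Pool.Agent.H538R4.SP.average
    (fun ω : Fin n ⊕ Fin n → Fin L => NoM M ω)
    (fun r ω => (U r).Val (fill p b₀ (bits ω)) (U r).out) μ (by
      intro ω hω
      exact hc _ (fun i j hi hj => hω i j (bits_true.1 hi) (bits_true.1 hj)))
  refine ⟨r, ?_⟩
  obtain ⟨T, hT⟩ : ∃ T : Finset (Fin n ⊕ Fin n → Fin L), T = univ.filter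
    (fun ω => (U r).Val (fill p b₀ (bits ω)) (U r).out) := ⟨_, rfl⟩
  have hacc : ((univ.filter (fun ω : Fin n ⊕ Fin n → Fin L => NoM M ω)).card : ℝ) ≤
      2 ^ μ * T.card := by
    rw [Nat.card_eq_fintype_card, Fintype.card_subtype, Nat.card_eq_fintype_card,
      Fintype.card_subtype] at hr
    rw [hT]
    exact_mod_cast hr
  -- the degrees
  obtain ⟨f, hf, hfk⟩ := hd r
  rw [Fintype.sum_sum_type] at hfk
  obtain ⟨α, hα⟩ := exists_rare par.κ4 par.n₁2 (fun i => f (U r).out (p (.inl i)))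
    ((Nat.le_add_right _ _).trans hfk)
  obtain ⟨β, hβ⟩ := exists_rare par.κ4 par.n₁2 (fun i => f (U r).out (p (.inr i)))
    ((Nat.le_add_left _ _).trans hfk)
  obtain ⟨d, hdd⟩ : ∃ d : (U r).G → Fin n₁ ⊕ Fin n₁ → ℕ, ∀ g i, d g i =
    f g (p (Sum.map α β i)) := ⟨_, fun _ _ => rfl⟩
  have hd' : IsDeg (U r) (fun i => p (Sum.map α β i)) d := by
    refine ⟨fun g v b e i hi => ?_, fun g a b e i => ?_, fun g S a e ha i => ?_⟩
    · rw [hdd]
      exact hf.1 g v b e _ hi
    · rw [hdd, hdd, hdd]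
      exact hf.2.1 g a b e _
    · rw [hdd, hdd]
      exact hf.2.2 g S a e ha _
  have hp' : Function.Injective (fun i => p (Sum.map α β i)) :=
    hp.comp (Function.Injective.sumMap α.injective β.injective)
  have hκ : ∀ i, d (U r).out i ≤ κ := by
    intro i
    rw [hdd]
    cases i with
    | inl i => exact hα i
    | inr i => exact hβ i
  have hwt : wt d (U r).out ≤ 2 * (n₁ * κ) := by
    unfold wt
    calc ∑ i, d (U r).out i ≤ ∑ _i : Fin n₁ ⊕ Fin n₁, κ := sum_le_sum (fun i _ => hκ i)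
      _ = 2 * (n₁ * κ) := by
          rw [sum_const, card_univ, Fintype.card_sum, Fintype.card_fin, smul_eq_mul]
          ring
  obtain ⟨S, hS⟩ : ∃ S : (Fin m → Option (Piece (U r))) → Finset (Fin n ⊕ Fin n → Fin L),
    ∀ θ, S θ = if Valid (U r) (fun i => p (Sum.map α β i)) d a κ θ then
      univ.filter (fun ω => ∀ j P, θ j = some P → P.True (fill p b₀ (bits ω)))
      else ∅ := ⟨_, fun _ => rfl⟩
  have h3 : T ⊆ univ.biUnion S := by
    intro ω hω
    rw [hT, mem_filter] at hω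
    obtain ⟨θ, h4, h5⟩ := exists_valid (p := fun i => p (Sum.map α β i)) (d := d)
      hd' (one_le_two.trans par.a1) hp' hω.2 hκ (m := m) (by
        have := par.m1
        omega)
    rw [mem_biUnion]
    refine ⟨θ, mem_univ _, ?_⟩
    rw [hS, if_pos h4, mem_filter]
    exact ⟨mem_univ _, h5⟩
  have hLR : (1 : ℝ) ≤ L := by exact_mod_cast hL1
  have hL0 : (0 : ℝ) < L := by linarith
  have ha0 : (0 : ℝ) ≤ 1 - 1 / L := by
    rw [sub_nonneg, div_le_one hL0]
    exact hLR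
  have h4 : ∀ θ, ((S θ).card : ℝ) ≤ (L : ℝ) ^ (2 * n) * (1 - 1 / L) ^ h := by
    intro θ
    rw [hS]
    by_cases hθ : Valid (U r) (fun i => p (Sum.map α β i)) d a κ θ
    · rw [if_pos hθ]
      obtain ⟨col, hcol⟩ := exists_color (vrs (fun i => p (Sum.map α β i)) d θ)
        hθ.cnt hθ.card par.aκ
      obtain ⟨σ, τ, h5, h6, h7⟩ := color_matching (α := α) (β := β) hcol par.h1 par.hh hM
      refine card_piece hp b₀ hd' hθ.cl col σ τ (fun i => ?_) (fun i => ?_) h7 (hU r) hL1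
      · obtain ⟨a, ha, ha'⟩ := h5 i
        exact ⟨a, ha', (mem_filter.1 ha).2⟩
      · obtain ⟨a, ha, ha'⟩ := h6 i
        exact ⟨a, ha', (mem_filter.1 ha).2⟩
    · rw [if_neg hθ]
      simp only [card_empty, Nat.cast_zero]
      positivity
  have h5 : (T.card : ℝ) ≤ ((Fintype.card (Option (Piece (U r))) ^ m : ℕ) : ℝ) *
      ((L : ℝ) ^ (2 * n) * (1 - 1 / L) ^ h) := by
    calc (T.card : ℝ) ≤ ∑ θ, ((S θ).card : ℝ) := by
          exact_mod_cast (card_le_card h3).trans card_biUnion_le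
      _ ≤ ∑ _θ : Fin m → Option (Piece (U r)), ((L : ℝ) ^ (2 * n) * (1 - 1 / L) ^ h) :=
          sum_le_sum (fun θ _ => h4 θ)
      _ = _ := by
          rw [sum_const, card_univ, nsmul_eq_mul, Fintype.card_fun, Fintype.card_fin]
  have h6 := no_card (L := L) M hL1 (by
    rw [par.Lj]
    exact Nat.le_mul_of_pos_right _ (by omega)) hMr
  have h7 := numeric (N := Fintype.card (Option (Piece (U r))) ^ m) (μ := μ) (d := 4 * Q ^ 2)
    (j := 4 * Q) (L := L) (n := n) (h := h) (by nlinarith) (by omega) par.Lj par.jh (by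
      refine h6.trans (hacc.trans ?_)
      apply mul_le_mul_of_nonneg_left h5
      positivity)
  apply par.fin
  have h8 : 2 ^ ((h - h / 2) / L) ≤
      2 ^ (2 * μ + 2 * (Nat.log 2 (Fintype.card (U r).G) + 1) * m) := by
    refine h7.trans ?_
    rw [pow_add]
    refine Nat.mul_le_mul (Nat.pow_le_pow_right (by norm_num) (by omega)) ?_
    rw [pow_mul]
    exact Nat.pow_le_pow_left (piece_card (U r)) m
  exact (Nat.pow_le_pow_iff_right (by norm_num)).1 h8

end Pool.Agent.V11228.OMv
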