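import Mathlib

/-!
# Matrices with few ones in every row and without large empty submatrices
-/

set_option autoImplicit false

open Finset

namespace Pool.Agent.V11228.OMv

/-- Bernoulli. -/
theorem bern {n h Q : ℕ} (hn1 : 1 ≤ n) (hn : h ≤ n) (hQ : n ≤ Q * h) :
    2 * (n - h) ^ Q ≤ n ^ Q := by
  obtain ⟨m, rfl⟩ : ∃ m, n = m + h := ⟨n - h, by omega⟩
  rw [Nat.add_sub_cancel]
  rcases Nat.eq_zero_or_pos m with rfl | hm
  · have hQ0 : Q ≠ 0 := by
      rintro rfl
      omega
    rw [zero_pow hQ0]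
    exact Nat.zero_le _
  have hmR : (0 : ℝ) < m := by exact_mod_cast hm
  have h1 : (1 : ℝ) + Q * (h / m) ≤ (1 + (h : ℝ) / m) ^ Q :=
    one_add_mul_le_pow (by
      have : (0 : ℝ) ≤ (h : ℝ) / m := by positivity
      linarith) Q
  have h2 : (1 : ℝ) ≤ Q * (h / m) := by
    rw [← mul_div_assoc, le_div_iff₀ hmR, one_mul]
    have : m ≤ Q * h := by omega
    exact_mod_cast this
  have h3 : (2 : ℝ) ≤ (1 + (h : ℝ) / m) ^ Q := by linarith
  have h4 : (2 : ℝ) * (m : ℝ) ^ Q ≤ ((m : ℝ) + h) ^ Q := by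
    calc (2 : ℝ) * (m : ℝ) ^ Q ≤ (1 + (h : ℝ) / m) ^ Q * (m : ℝ) ^ Q := by gcongr
      _ = ((m : ℝ) + h) ^ Q := by
          rw [← mul_pow]
          congr 1
          field_simp
  exact_mod_cast h4

theorem cond {n h Q : ℕ} (hn1 : 1 ≤ n) (hn : h ≤ n) (hQ : n ≤ Q * h) :
    4 ^ n * (n - h) ^ (4 * Q ^ 2 * h) < n ^ (4 * Q ^ 2 * h) := by
  have e : 4 * Q ^ 2 * h = Q * (4 * Q * h) := by ring
  have h1 := Nat.pow_le_pow_left (bern hn1 hn hQ) (4 * Q * h)
  rw [mul_pow, ← pow_mul, ← pow_mul] at h1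
  rw [e]
  have h2 : 4 ^ n < 2 ^ (4 * Q * h) := by
    calc 4 ^ n = 2 ^ (2 * n) := by rw [pow_mul]; norm_num
      _ < 2 ^ (4 * Q * h) := by
          apply Nat.pow_lt_pow_right (by norm_num)
          nlinarith
  rcases Nat.eq_zero_or_pos ((n - h) ^ (Q * (4 * Q * h))) with h3 | h3
  · rw [h3, mul_zero]
    exact Nat.pow_pos (by omega)
  · exact lt_of_lt_of_le (Nat.mul_lt_mul_of_pos_right h2 h3) h1

/-- A matrix whose rows have at most `4 Q ^ 2` ones and in which every `h × h` submatrix contains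
a one. -/
theorem exists_matrix {n h Q : ℕ} (hh : 1 ≤ h) (hQ : n ≤ Q * h) :
    ∃ M : Fin n → Fin n → Bool, (∀ r, (univ.filter (fun c => M r c = true)).card ≤ 4 * Q ^ 2) ∧
      ∀ A B : Finset (Fin n), h ≤ A.card → h ≤ B.card → ∃ r ∈ A, ∃ c ∈ B, M r c = true := by
  classical
  rcases Nat.lt_or_ge n h with hnh | hnh
  · refine ⟨fun _ _ => false, fun r => by simp, fun A B hA hB => ?_⟩
    have := card_le_univ A
    rw [Fintype.card_fin] at this
    omega
  have hn1 : 1 ≤ n := hh.trans hnh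
  by_contra hcon
  push Not at hcon
  obtain ⟨d, hd⟩ : ∃ d, d = 4 * Q ^ 2 := ⟨_, rfl⟩
  obtain ⟨I, hI⟩ : ∃ I : Finset (Finset (Fin n) × Finset (Fin n)), I =
      univ.filter (fun P => P.1.card = h ∧ P.2.card = h) := ⟨_, rfl⟩
  obtain ⟨F, hF⟩ : ∃ F : Finset (Fin n) × Finset (Fin n) → Finset (Fin n → Fin d → Fin n),
      ∀ P, F P = Fintype.piFinset (fun r => Fintype.piFinset (fun _ =>
        if r ∈ P.1 then P.2ᶜ else univ)) := ⟨_, fun _ => rfl⟩
  have h1 : (univ : Finset (Fin n → Fin d → Fin n)) ⊆ I.biUnion F := by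
    intro f _
    obtain ⟨A, B, hA, hB, hAB⟩ := hcon (fun r c => decide (∃ t, f r t = c)) (by
      intro r
      have : univ.filter (fun c => decide (∃ t, f r t = c) = true) ⊆ univ.image (f r) := by
        intro c hc
        rw [mem_filter, decide_eq_true_iff] at hc
        obtain ⟨-, t, ht⟩ := hc
        exact mem_image.2 ⟨t, mem_univ _, ht⟩
      refine (card_le_card this).trans (card_image_le.trans ?_)
      rw [card_univ, Fintype.card_fin, hd])
    obtain ⟨A', hA', hA'c⟩ := exists_subset_card_eq hA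
    obtain ⟨B', hB', hB'c⟩ := exists_subset_card_eq hB
    rw [mem_biUnion]
    refine ⟨(A', B'), by rw [hI, mem_filter]; exact ⟨mem_univ _, hA'c, hB'c⟩, ?_⟩
    rw [hF, Fintype.mem_piFinset]
    intro r
    rw [Fintype.mem_piFinset]
    intro t
    split_ifs with hr
    · rw [mem_compl]
      intro hc
      have := hAB r (hA' hr) (f r t) (hB' hc)
      exact this (decide_eq_true ⟨t, rfl⟩)
    · exact mem_univ _
  have h2 : ∀ P ∈ I, (F P).card = (n - h) ^ (d * h) * n ^ (d * (n - h)) := by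
    intro P hP
    rw [hI, mem_filter] at hP
    rw [hF, Fintype.card_piFinset]
    have : ∀ r, (Fintype.piFinset (fun _ : Fin d => if r ∈ P.1 then P.2ᶜ else univ)).card =
        if r ∈ P.1 then (n - h) ^ d else n ^ d := by
      intro r
      rw [Fintype.card_piFinset, prod_const, card_univ, Fintype.card_fin]
      split_ifs with hr
      · rw [card_compl, Fintype.card_fin, hP.2.2]
      · rw [card_univ, Fintype.card_fin]
    rw [prod_congr rfl (fun r _ => this r), prod_ite, prod_const, prod_const, ← pow_mul,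
      ← pow_mul]
    have h3 : (univ.filter (fun r => r ∈ P.1)).card = h := by
      rw [filter_mem_eq_inter, univ_inter, hP.2.1]
    have h4 : (univ.filter (fun r => ¬ r ∈ P.1)).card = n - h := by
      have := card_filter_add_card_filter_not (s := (univ : Finset (Fin n))) (fun r => r ∈ P.1)
      rw [h3, card_univ, Fintype.card_fin] at this
      omega
    rw [h3, h4]
  have h3 : I.card ≤ 4 ^ n := by
    refine (card_le_univ I).trans (le_of_eq ?_)
    rw [Fintype.card_prod, Fintype.card_finset, Fintype.card_fin, ← mul_pow]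
    norm_num
  have h4 : n ^ (d * n) ≤ 4 ^ n * ((n - h) ^ (d * h) * n ^ (d * (n - h))) := by
    calc n ^ (d * n) = (univ : Finset (Fin n → Fin d → Fin n)).card := by
          rw [card_univ, Fintype.card_fun, Fintype.card_fun, Fintype.card_fin, Fintype.card_fin,
            ← pow_mul]
      _ ≤ ∑ P ∈ I, (F P).card := (card_le_card h1).trans card_biUnion_le
      _ = I.card * ((n - h) ^ (d * h) * n ^ (d * (n - h))) := by
          rw [sum_congr rfl h2, sum_const, smul_eq_mul]
      _ ≤ _ := Nat.mul_le_mul_right _ h3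
  have h5 := cond (Q := Q) hn1 hnh hQ
  rw [← hd] at h5
  have h6 : n ^ (d * n) = n ^ (d * h) * n ^ (d * (n - h)) := by
    rw [← pow_add, ← mul_add]
    congr 2
    omega
  rw [h6, ← mul_assoc] at h4
  exact absurd (Nat.le_of_mul_le_mul_right h4 (Nat.pow_pos (by omega))) (not_le.2 h5)

/-- A matching. -/
theorem exists_matching {n h : ℕ} {M : Fin n → Fin n → Bool}
    (hM : ∀ A B : Finset (Fin n), h ≤ A.card → h ≤ B.card → ∃ r ∈ A, ∃ c ∈ B, M r c = true)
    (A B : Finset (Fin n)) (m : ℕ) (hA : m + h ≤ A.card + 1) (hB : m + h ≤ B.card + 1) :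
    ∃ σ τ : Fin m ↪ Fin n, (∀ i, σ i ∈ A) ∧ (∀ i, τ i ∈ B) ∧ ∀ i, M (σ i) (τ i) = true := by
  classical
  induction m with
  | zero => exact ⟨⟨Fin.elim0, fun i => i.elim0⟩, ⟨Fin.elim0, fun i => i.elim0⟩,
      fun i => i.elim0, fun i => i.elim0, fun i => i.elim0⟩
  | succ m ih =>
    obtain ⟨σ, τ, h1, h2, h3⟩ := ih (by omega) (by omega)
    have hAc : h ≤ (A \ univ.map σ).card := by
      have := le_card_sdiff (univ.map σ) A
      rw [card_map, card_univ, Fintype.card_fin] at this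
      omega
    have hBc : h ≤ (B \ univ.map τ).card := by
      have := le_card_sdiff (univ.map τ) B
      rw [card_map, card_univ, Fintype.card_fin] at this
      omega
    obtain ⟨r, hr, c, hc, hrc⟩ := hM _ _ hAc hBc
    rw [mem_sdiff] at hr hc
    refine ⟨⟨Fin.cons r σ, ?_⟩, ⟨Fin.cons c τ, ?_⟩, ?_, ?_, ?_⟩
    · rw [Fin.cons_injective_iff]
      refine ⟨?_, σ.injective⟩
      rintro ⟨i, hi⟩
      exact hr.2 (mem_map.2 ⟨i, mem_univ _, hi⟩)
    · rw [Fin.cons_injective_iff]
      refine ⟨?_, τ.injective⟩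
      rintro ⟨i, hi⟩
      exact hc.2 (mem_map.2 ⟨i, mem_univ _, hi⟩)
    · intro i
      refine Fin.cases ?_ (fun i => ?_) i
      · exact hr.1
      · exact h1 i
    · intro i
      refine Fin.cases ?_ (fun i => ?_) i
      · exact hc.1
      · exact h2 i
    · intro i
      refine Fin.cases ?_ (fun i => ?_) i
      · exact hrc
      · exact h3 i

end Pool.Agent.V11228.OMv
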