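import Pool.Agent.V11228.OMvC
import Pool.Agent.V11163.NT.Fin

/-!
# A fixed matrix and tree tensor networks
-/

set_option autoImplicit false

open Finset

namespace Pool.Agent.V11228.OMv

open Pool.Agent.W896.RK Pool.Agent.W896.HP Pool.Agent.W896.FD
open Pool.Agent.TH700.TN Pool.Agent.V11163.GI Pool.Agent.V11163.NT

variable {n L : ℕ} {V : Type}

open Classical in
/-- The accepted points. -/
theorem card_net {K : Type} [Field K] {n₁ m h N : ℕ} {D : Set V} {f : (V → Bool) → K}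
    {P : Fin m → Finset V} (hf : Pd D f m P N)
    {p : Fin n ⊕ Fin n → V} (b₀ : V → Bool)
    {M : Fin n → Fin n → Bool} {α β : Fin n₁ ↪ Fin n}
    (hD : ∀ i, p (Sum.map α β i) ∈ D) (col : Fin m → Bool) (σ τ : Fin h ↪ Fin n)
    (hσ : ∀ i, ∃ a, α a = σ i ∧ ∀ j, p (.inl (α a)) ∈ P j → col j = true)
    (hτ : ∀ i, ∃ a, β a = τ i ∧ ∀ j, p (.inr (β a)) ∈ P j → col j = false)
    (hM : ∀ i, M (σ i) (τ i) = true)
    (hU : ∀ y : Fin n ⊕ Fin n → Bool, f (fill p b₀ y) ≠ 0 →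
      ∀ r c, y (.inl r) = true → y (.inr c) = true → M r c = false) (hL : 1 ≤ L) :
    ((univ.filter (fun ω : Fin n ⊕ Fin n → Fin L => f (fill p b₀ (bits ω)) ≠ 0)).card : ℝ) ≤
      ((N ^ 2 : ℕ) : ℝ) * ((L : ℝ) ^ (2 * n) * (1 - 1 / L) ^ h) := by
  obtain ⟨X, iX, G, hX, hG, hfG⟩ := hf
  obtain ⟨S, hS⟩ : ∃ S : Finset (Fin n ⊕ Fin n → Fin L), S = univ.filter
    (fun ω => f (fill p b₀ (bits ω)) ≠ 0) := ⟨_, rfl⟩
  rw [← hS]
  obtain ⟨A, hA⟩ : ∃ A : (Fin n ⊕ Fin n → Fin L) → X → K, ∀ ω u, A ω u =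
      ∏ j with col j = true, G j (fill p b₀ (bits ω)) u := ⟨_, fun _ _ => rfl⟩
  obtain ⟨B, hB⟩ : ∃ B : (Fin n ⊕ Fin n → Fin L) → X → K, ∀ ω u, B ω u =
      ∏ j with ¬ col j = true, G j (fill p b₀ (bits ω)) u := ⟨_, fun _ _ => rfl⟩
  -- mixtures
  have hmix : ∀ ω ω', Φ σ τ ω = Φ σ τ ω' →
      ∑ u, A ω u * B ω' u = f (fill p b₀ (mix ω ω')) := by
    intro ω ω' hΦ
    rw [hfG]
    refine sum_congr rfl fun u _ => ?_
    rw [← prod_filter_mul_prod_filter_not univ (fun j => col j = true)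
      (fun j => G j (fill p b₀ (mix ω ω')) u), hA, hB]
    congr 1
    · refine prod_congr rfl fun j hj => ?_
      rw [mem_filter] at hj
      refine congrFun (hG j _ _ fun v hv => ?_) u
      obtain ⟨c, hc, hne⟩ := fill_mix hv
      obtain ⟨i, hi | hi, -⟩ := Φ_eq σ τ hΦ hne
      · exact absurd hi (by simp)
      · obtain ⟨a, ha, ha'⟩ := hτ i
        have hv' : v = p (.inr (β a)) := by rw [← hc, Sum.inr_injective hi, ← ha]
        rw [hv']
        refine ⟨hD (.inr a), fun h5 => ?_⟩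
        have := ha' j h5
        rw [hj.2] at this
        exact Bool.noConfusion this
    · refine prod_congr rfl fun j hj => ?_
      rw [mem_filter] at hj
      refine congrFun (hG j _ _ fun v hv => ?_) u
      obtain ⟨r, hr, hne⟩ := fill_mix' hv
      obtain ⟨i, hi | hi, -⟩ := Φ_eq σ τ hΦ hne
      · obtain ⟨a, ha, ha'⟩ := hσ i
        have hv' : v = p (.inl (α a)) := by rw [← hr, Sum.inl_injective hi, ← ha]
        rw [hv']
        exact ⟨hD (.inl a), fun h5 => hj.2 (ha' j h5)⟩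
      · exact absurd hi (by simp)
  have hno : ∀ ω ω' : Fin n ⊕ Fin n → Fin L, f (fill p b₀ (mix ω ω')) ≠ 0 → ∀ i,
      ¬ (Z ω (.inl (σ i)) ∧ Z ω' (.inr (τ i))) := by
    rintro ω ω' hω i ⟨h1, h2⟩
    have h3 := hU _ hω (σ i) (τ i) (bits_true.2 h1) (bits_true.2 h2)
    rw [hM i] at h3
    exact Bool.noConfusion h3
  refine card_Φ σ τ hL S (N ^ 2) (fun ω hω i => ?_) (fun w => ?_)
  · rw [hS, mem_filter] at hω
    rintro ⟨h1, h2⟩
    have h3 := hU _ hω.2 (σ i) (τ i) (bits_true.2 h1) (bits_true.2 h2)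
    rw [hM i] at h3
    exact Bool.noConfusion h3
  · refine (rank_sq A B (S.filter (fun ω => Φ σ τ ω = w)) ?_ ?_).trans
      (Nat.pow_le_pow_left hX 2)
    · intro ω hω
      rw [mem_filter, hS, mem_filter] at hω
      rw [hmix ω ω rfl]
      have : mix ω ω = bits ω := by
        funext x
        cases x <;> rfl
      rw [this]
      exact hω.1.2
    · intro ω hω ω' hω' hne
      rw [mem_filter] at hω hω'
      have hΦ : Φ σ τ ω = Φ σ τ ω' := hω.2.trans hω'.2.symm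
      rw [hmix ω ω' hΦ, hmix ω' ω hΦ.symm]
      obtain ⟨x, hx⟩ := Function.ne_iff.1 hne
      obtain ⟨i, -, ⟨h1, h2, -⟩ | ⟨h1, h2, -⟩⟩ := Φ_eq σ τ hΦ hx
      · right
        by_contra h3
        exact hno ω' ω h3 i ⟨h2, h1⟩
      · left
        by_contra h3
        exact hno ω ω' h3 i ⟨h2, h1⟩

open Classical in
/-- **The bound** for random networks. -/
theorem net_main {k n n₁ κ a m h Q L μ : ℕ} (par : Par k n n₁ κ a m h Q L μ)
    {M : Fin n → Fin n → Bool}
    (hMr : ∀ r, (univ.filter (fun c => M r c = true)).card ≤ 4 * Q ^ 2)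
    (hM : ∀ A B : Finset (Fin n), h ≤ A.card → h ≤ B.card → ∃ r ∈ A, ∃ c ∈ B, M r c = true)
    {p : Fin n ⊕ Fin n → V} (hp : Function.Injective p) (b₀ : V → Bool)
    (R : Type) [Fintype R] [Nonempty R] (K W : R → Type) [∀ r, Field (K r)]
    [∀ r, Fintype (W r)] (T : ∀ r, Net (K r) V (W r)) (o : ∀ r, W r → K r)
    (hU : ∀ r y, (T r).value (o r) (fill p b₀ y) ≠ 0 →
      ∀ i j, y (.inl i) = true → y (.inr j) = true → M i j = false)
    (hc : ∀ y : Fin n ⊕ Fin n → Bool,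
      (∀ i j, y (.inl i) = true → y (.inr j) = true → M i j = false) →
      Nat.card R ≤ 2 ^ μ * Nat.card {r // (T r).value (o r) (fill p b₀ y) ≠ 0})
    (hd : ∀ r, ∑ i, (T r).reads (p i) ≤ k * n) :
    ∃ r, n ≤ 2 ^ (70 * (k + 1)) * (Nat.log 2 (Fintype.card (W r)) + 1) := by
  have hQ1 : 1 ≤ Q := by rw [par.QQ]; exact Nat.one_le_two_pow
  have hL1 : 1 ≤ L := by
    have : 0 < L := by rw [par.Lj]; positivity
    exact this
  -- the acceptance
  obtain ⟨r, hr⟩ := Pool.Agent.H538R4.SP.average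
    (fun ω : Fin n ⊕ Fin n → Fin L => NoM M ω)
    (fun r ω => (T r).value (o r) (fill p b₀ (bits ω)) ≠ 0) μ (by
      intro ω hω
      exact hc _ (fun i j hi hj => hω i j (bits_true.1 hi) (bits_true.1 hj)))
  refine ⟨r, ?_⟩
  obtain ⟨S, hS⟩ : ∃ S : Finset (Fin n ⊕ Fin n → Fin L), S = univ.filter
    (fun ω => (T r).value (o r) (fill p b₀ (bits ω)) ≠ 0) := ⟨_, rfl⟩
  have hacc : ((univ.filter (fun ω : Fin n ⊕ Fin n → Fin L => NoM M ω)).card : ℝ) ≤
      2 ^ μ * S.card := by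
    rw [Nat.card_eq_fintype_card, Fintype.card_subtype, Nat.card_eq_fintype_card,
      Fintype.card_subtype] at hr
    rw [hS]
    exact_mod_cast hr
  -- the reads
  have hfk := hd r
  rw [Fintype.sum_sum_type] at hfk
  obtain ⟨α, hα⟩ := exists_rare par.κ4 par.n₁2 (fun i => (T r).reads (p (.inl i)))
    ((Nat.le_add_right _ _).trans hfk)
  obtain ⟨β, hβ⟩ := exists_rare par.κ4 par.n₁2 (fun i => (T r).reads (p (.inr i)))
    ((Nat.le_add_left _ _).trans hfk)
  have hp' : Function.Injective (fun i => p (Sum.map α β i)) :=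
    hp.comp (Function.Injective.sumMap α.injective β.injective)
  have hκ : ∀ i, (T r).reads (p (Sum.map α β i)) ≤ κ := by
    intro i
    cases i with
    | inl i => exact hα i
    | inr i => exact hβ i
  obtain ⟨g, hg⟩ : ∃ g, g = a / 2 := ⟨_, rfl⟩
  have hg1 : 1 ≤ g := by
    have := par.a1
    omega
  obtain ⟨D, hD⟩ : ∃ D : Finset V, D = univ.image (fun i => p (Sum.map α β i)) := ⟨_, rfl⟩
  obtain ⟨s, P, hPd, hPc, -, hPs, hPr⟩ := net_pd D hg1 (T r) (o r)
  have hsum : ∑ v ∈ D, (T r).reads v ≤ 2 * (n₁ * κ) := by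
    rw [hD, sum_image (fun i _ j _ h => hp' h)]
    calc ∑ i, (T r).reads (p (Sum.map α β i)) ≤ ∑ _i : Fin n₁ ⊕ Fin n₁, κ :=
          sum_le_sum (fun i _ => hκ i)
      _ = 2 * (n₁ * κ) := by
          rw [sum_const, card_univ, Fintype.card_sum, Fintype.card_fin, smul_eq_mul]
          ring
  have hs : s ≤ 256 * (k + 1) ^ 2 := by
    have h3 : s * (g + 1) ≤ 2 * (n₁ * κ) := hPs.trans hsum
    have h4 : 8 * (n₁ * κ) ≤ a * (512 * (k + 1) ^ 2) := by
      have h5 := par.m1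
      rw [par.me, mul_add, mul_one] at h5
      omega
    have h5 : a ≤ 2 * (g + 1) := by omega
    have h6 : s * (g + 1) ≤ 256 * (k + 1) ^ 2 * (g + 1) := by
      have h7 : 8 * (n₁ * κ) ≤ 2 * (g + 1) * (512 * (k + 1) ^ 2) :=
        h4.trans (Nat.mul_le_mul_right _ h5)
      obtain ⟨Y, hY⟩ : ∃ Y, Y = (g + 1) * (k + 1) ^ 2 := ⟨_, rfl⟩
      have e1 : 2 * (g + 1) * (512 * (k + 1) ^ 2) = 1024 * Y := by rw [hY]; ring
      have e2 : 256 * (k + 1) ^ 2 * (g + 1) = 256 * Y := by rw [hY]; ring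
      rw [e1] at h7
      rw [e2]
      omega
    exact Nat.le_of_mul_le_mul_right h6 (by omega)
  obtain ⟨Vp, hVp⟩ : ∃ Vp : Fin (s + 1) → Finset (Fin n₁ ⊕ Fin n₁), ∀ j, Vp j =
      univ.filter (fun i => p (Sum.map α β i) ∈ P j) := ⟨_, fun _ => rfl⟩
  obtain ⟨col, hcol⟩ := exists_color (a := a) (κ := κ) Vp (by
      intro i
      refine le_trans (le_trans (le_of_eq ?_) (hPr (p (Sum.map α β i)))) (hκ i)
      congr 1
      ext j
      rw [mem_filter, mem_filter, hVp, mem_filter]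
      simp only [mem_univ, true_and]) (by
      intro j
      have h3 : (Vp j).card ≤ (P j).card := by
        refine card_le_card_of_injOn (fun i => p (Sum.map α β i)) ?_ (hp'.injOn)
        intro i hi
        rw [mem_coe, hVp, mem_filter] at hi
        exact mem_coe.2 hi.2
      have h4 := hPc j
      omega) par.aκ
  obtain ⟨σ, τ, h5, h6, h7⟩ := color_matching (α := α) (β := β) hcol par.h1 par.hh hM
  have h8 := card_net (L := L) hPd b₀ (M := M) (p := p) (α := α) (β := β) (by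
      intro i
      rw [hD]
      exact mem_coe.2 (mem_image_of_mem _ (mem_univ i))) col σ τ (by
      intro i
      obtain ⟨x, hx, hx'⟩ := h5 i
      refine ⟨x, hx', fun j hj => (mem_filter.1 hx).2 j ?_⟩
      rw [hVp, mem_filter]
      exact ⟨mem_univ _, hj⟩) (by
      intro i
      obtain ⟨x, hx, hx'⟩ := h6 i
      refine ⟨x, hx', fun j hj => (mem_filter.1 hx).2 j ?_⟩
      rw [hVp, mem_filter]
      exact ⟨mem_univ _, hj⟩) h7 (hU r) hL1
  rw [← hS] at h8
  have h9 := no_card (L := L) M hL1 (by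
    rw [par.Lj]
    exact Nat.le_mul_of_pos_right _ (by omega)) hMr
  have h10 := numeric (N := (Fintype.card (W r) ^ s) ^ 2) (μ := μ) (d := 4 * Q ^ 2)
    (j := 4 * Q) (L := L) (n := n) (h := h) (by nlinarith) (by omega) par.Lj par.jh (by
      refine h9.trans (hacc.trans ?_)
      apply mul_le_mul_of_nonneg_left h8
      positivity)
  apply par.fin
  have h11 : 2 ^ ((h - h / 2) / L) ≤
      2 ^ (2 * μ + 2 * (Nat.log 2 (Fintype.card (W r)) + 1) * m) := by
    refine h10.trans ?_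
    rw [pow_add]
    refine Nat.mul_le_mul (Nat.pow_le_pow_right (by norm_num) (by omega)) ?_
    exact pow_log_bound rfl hs par.me
  exact (Nat.pow_le_pow_iff_right (by norm_num)).1 h11

end Pool.Agent.V11228.OMv
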