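import Mathlib
import Pool.Agent.V11228.DefLib

/-! An infinite poset all of whose order-preserving self-maps are definable. -/

set_option autoImplicit false
open FirstOrder FirstOrder.Language

namespace Pool.Agent.V11228.PosetDef

open Pool.Agent.V11228.DefLib

inductive Q : Type
  | x (a : ℝ)
  | p (k : ℕ)
  | s (k : ℕ)
  | r (k : ℕ)
  | l (k : ℕ)
  | c (k : ℕ) (m : ℤ)
  | w
  | wl
  | us
  | ur

/-- The place of the marker `m` of level `k`. -/
noncomputable def mk (k : ℕ) (m : ℤ) : ℝ := (m : ℝ) / 3 ^ (k + 1)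

/-- The name of the marker `m` of level `k`. -/
def nm (k : ℕ) (m : ℤ) : ℕ := Encodable.encode (k, m)

theorem nm_inj {k k' : ℕ} {m m' : ℤ} (h : nm k m = nm k' m') : k = k' ∧ m = m' := by
  have := Encodable.encode_injective h
  exact Prod.mk.inj this

/-- The strict order. -/
def R : Q → Q → Prop
  | Q.x a, Q.x b => a < b
  | Q.x a, Q.c k m => a < mk k m
  | Q.p n, Q.l n' => n = n'
  | Q.s n, Q.l n' => n = n'
  | Q.r n, Q.l n' => n = n'
  | Q.p n, Q.c k m => n = nm k m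
  | Q.s n, Q.c k _ => n = (Nat.unpair k).1
  | Q.r n, Q.c k _ => n = (Nat.unpair k).2
  | Q.w, Q.c _ m => m % 3 = 1
  | Q.wl, Q.l _ => True
  | Q.s _, Q.us => True
  | Q.r _, Q.ur => True
  | _, _ => False

theorem R_irrefl (a : Q) : ¬ R a a := by
  cases a <;> simp [R]

theorem R_trans {a b c : Q} (h1 : R a b) (h2 : R b c) : R a c := by
  cases b <;> cases a <;> simp only [R] at h1 <;> cases c <;> simp only [R] at h2 ⊢
  · exact lt_trans h1 h2
  · exact lt_trans h1 h2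

instance : PartialOrder Q where
  le a b := a = b ∨ R a b
  lt a b := R a b
  le_refl a := Or.inl rfl
  le_trans a b c h1 h2 := by
    rcases h1 with rfl | h1
    · exact h2
    · rcases h2 with rfl | h2
      · exact Or.inr h1
      · exact Or.inr (R_trans h1 h2)
  le_antisymm a b h1 h2 := by
    rcases h1 with rfl | h1
    · rfl
    · rcases h2 with rfl | h2
      · rfl
      · exact absurd (R_trans h1 h2) (R_irrefl a)
  lt_iff_le_not_ge a b := by
    constructor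
    · intro h
      refine ⟨Or.inr h, ?_⟩
      rintro (rfl | h')
      · exact R_irrefl _ h
      · exact R_irrefl _ (R_trans h h')
    · rintro ⟨h | h, h'⟩
      · exact absurd (Or.inl h.symm) h'
      · exact h

theorem lt_iff (a b : Q) : a < b ↔ R a b := Iff.rfl
theorem le_iff (a b : Q) : a ≤ b ↔ a = b ∨ R a b := Iff.rfl

instance : Infinite Q := Infinite.of_injective Q.p (fun _ _ h => Q.p.inj h)

instance : Language.order.Structure Q := orderStructure Q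

instance : Language.order.OrderedStructure Q := ⟨fun x => by
  rw [show x = ![x 0, x 1] from by funext i; fin_cases i <;> rfl]
  rfl⟩

theorem D_le {α : Type} (a b : α) : D Language.order (fun v : α → Q => v a ≤ v b) := by
  refine Set.Definable.mono (A := ∅) ?_ (Set.empty_subset _)
  rw [Set.empty_definable_iff]
  refine ⟨((Term.var (Sum.inl a)).le (Term.var (Sum.inl b)) :
    Language.order.BoundedFormula α 0), ?_⟩
  ext v
  simp [Formula.Realize]

theorem D_lt {α : Type} (a b : α) : D Language.order (fun v : α → Q => v a < v b) :=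
  ((D_le a b).and (D_le b a).not).congr (fun v => (lt_iff_le_not_ge (a := v a) (b := v b)).symm)

/-! ### The sorts -/

def sort : Q → Fin 7
  | Q.x _ => 0
  | Q.p _ => 1
  | Q.s _ => 2
  | Q.r _ => 3
  | Q.l _ => 4
  | Q.c _ _ => 5
  | Q.w => 6
  | Q.wl => 6
  | Q.us => 6
  | Q.ur => 6

def idx : Q → ℕ
  | Q.x _ => 0
  | Q.p k => k
  | Q.s k => k
  | Q.r k => k
  | Q.l k => k
  | Q.c k m => nm k m
  | Q.w => 0
  | Q.wl => 1
  | Q.us => 2
  | Q.ur => 3

theorem sort_x (a : ℝ) : sort (Q.x a) = 0 := rfl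
theorem sort_p (k : ℕ) : sort (Q.p k) = 1 := rfl
theorem sort_s (k : ℕ) : sort (Q.s k) = 2 := rfl
theorem sort_r (k : ℕ) : sort (Q.r k) = 3 := rfl
theorem sort_l (k : ℕ) : sort (Q.l k) = 4 := rfl
theorem sort_c (k : ℕ) (m : ℤ) : sort (Q.c k m) = 5 := rfl
theorem sort_w : sort Q.w = 6 := rfl
theorem sort_wl : sort Q.wl = 6 := rfl
theorem sort_us : sort Q.us = 6 := rfl
theorem sort_ur : sort Q.ur = 6 := rfl

theorem sort_idx {a b : Q} (ha : sort a ≠ 0) (h1 : sort a = sort b) (h2 : idx a = idx b) : a = b := by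
  cases a <;> cases b <;> simp [sort, idx] at * <;> try exact h2
  exact nm_inj h2

theorem isX_iff (a : Q) : sort a = 0 ↔ (∃ b, b < a) ∧ ∃ b, a < b := by
  constructor
  · intro h
    cases a <;> simp [sort] at h
    rename_i a
    exact ⟨⟨Q.x (a - 1), show a - 1 < a by linarith⟩, ⟨Q.x (a + 1), show a < a + 1 by linarith⟩⟩
  · rintro ⟨⟨b, hb⟩, ⟨c, hc⟩⟩
    rw [lt_iff] at hb hc
    cases a <;> cases b <;> simp only [R] at hb <;> cases c <;> simp only [R] at hc <;> rfl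

theorem D_X : D1 Language.order (fun a : Q => sort a = 0) :=
  D.congr (R := fun v : Fin 1 → Q => (∃ b, b < v 0) ∧ ∃ b, v 0 < b)
    ((D.ex (R := fun (v : Fin 1 → Q) b => b < v 0) (D_lt none (some 0))).and
      (D.ex (R := fun (v : Fin 1 → Q) b => v 0 < b) (D_lt (some 0) none)))
    (fun v => (isX_iff (v 0)).symm)

theorem isS_iff (a : Q) : sort a = 2 ↔ a < Q.us := by
  rw [lt_iff]
  cases a <;> simp [sort, R]

theorem isR_iff (a : Q) : sort a = 3 ↔ a < Q.ur := by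
  rw [lt_iff]
  cases a <;> simp [sort, R]

theorem isL_iff (a : Q) : sort a = 4 ↔ Q.wl < a := by
  rw [lt_iff]
  cases a <;> simp [sort, R]

theorem isC_iff (a : Q) : sort a = 5 ↔ (∃ b, sort b = 0 ∧ b < a) ∧ sort a ≠ 0 := by
  constructor
  · intro h
    refine ⟨?_, by rw [h]; decide⟩
    cases a <;> simp [sort] at h
    rename_i k m
    refine ⟨Q.x (mk k m - 1), rfl, ?_⟩
    show mk k m - 1 < mk k m
    linarith
  · rintro ⟨⟨b, hb, hba⟩, h0⟩
    rw [lt_iff] at hba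
    cases b <;> simp [sort] at hb
    cases a <;> simp [sort, R] at h0 hba ⊢

theorem isK_iff (a : Q) : sort a = 6 ↔ a = Q.w ∨ a = Q.wl ∨ a = Q.us ∨ a = Q.ur := by
  cases a <;> simp [sort]

theorem isP_iff (a : Q) : sort a = 1 ↔ sort a ≠ 0 ∧ sort a ≠ 2 ∧ sort a ≠ 3 ∧ sort a ≠ 4 ∧
    sort a ≠ 5 ∧ sort a ≠ 6 := by
  cases a <;> simp [sort]

theorem D_S : D1 Language.order (fun a : Q => sort a = 2) :=
  D.congr (R := fun v : Fin 1 → Q => v 0 < Q.us)
    (D.param (R := fun (v : Fin 1 → Q) b => v 0 < b) Q.us (D_lt (some 0) none))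
    (fun v => (isS_iff (v 0)).symm)

theorem D_R : D1 Language.order (fun a : Q => sort a = 3) :=
  D.congr (R := fun v : Fin 1 → Q => v 0 < Q.ur)
    (D.param (R := fun (v : Fin 1 → Q) b => v 0 < b) Q.ur (D_lt (some 0) none))
    (fun v => (isR_iff (v 0)).symm)

theorem D_L : D1 Language.order (fun a : Q => sort a = 4) :=
  D.congr (R := fun v : Fin 1 → Q => Q.wl < v 0)
    (D.param (R := fun (v : Fin 1 → Q) b => b < v 0) Q.wl (D_lt none (some 0)))
    (fun v => (isL_iff (v 0)).symm)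

theorem D_C : D1 Language.order (fun a : Q => sort a = 5) :=
  D.congr (R := fun v : Fin 1 → Q => (∃ b, sort b = 0 ∧ b < v 0) ∧ ¬ sort (v 0) = 0)
    ((D.ex (R := fun (v : Fin 1 → Q) b => sort b = 0 ∧ b < v 0)
      ((D1.app D_X none).and (D_lt none (some 0)))).and (D1.app D_X 0).not)
    (fun v => (isC_iff (v 0)).symm)

theorem D_K : D1 Language.order (fun a : Q => sort a = 6) :=
  D.congr (R := fun v : Fin 1 → Q => v 0 = Q.w ∨ v 0 = Q.wl ∨ v 0 = Q.us ∨ v 0 = Q.ur)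
    ((D.eqc 0 _).or ((D.eqc 0 _).or ((D.eqc 0 _).or (D.eqc 0 _))))
    (fun v => (isK_iff (v 0)).symm)

theorem D_P : D1 Language.order (fun a : Q => sort a = 1) :=
  D.congr (R := fun v : Fin 1 → Q => ¬ sort (v 0) = 0 ∧ ¬ sort (v 0) = 2 ∧ ¬ sort (v 0) = 3 ∧
      ¬ sort (v 0) = 4 ∧ ¬ sort (v 0) = 5 ∧ ¬ sort (v 0) = 6)
    ((D1.app D_X 0).not.and ((D1.app D_S 0).not.and ((D1.app D_R 0).not.and
      ((D1.app D_L 0).not.and ((D1.app D_C 0).not.and (D1.app D_K 0).not)))))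
    (fun v => (isP_iff (v 0)).symm)

theorem D_sort (i : Fin 7) : D1 Language.order (fun a : Q => sort a = i) := by
  fin_cases i
  · exact D_X
  · exact D_P
  · exact D_S
  · exact D_R
  · exact D_L
  · exact D_C
  · exact D_K

/-! ### The index -/

/-- `n` is linked with `m`. -/
def Lk (a b : Q) : Prop := ∃ l, sort l = 4 ∧ a < l ∧ b < l

theorem D_Lk : D2 Language.order Lk :=
  D.ex (R := fun (v : Fin 2 → Q) l => sort l = 4 ∧ v 0 < l ∧ v 1 < l)
    ((D1.app D_L none).and ((D_lt (some 0) none).and (D_lt (some 1) none)))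

theorem Lk_iff (a b : Q) (ha : sort a = 1 ∨ sort a = 2 ∨ sort a = 3) (hb : sort b = 1 ∨ sort b = 2 ∨ sort b = 3) :
    Lk a b ↔ idx a = idx b := by
  constructor
  · rintro ⟨l, hl, h1, h2⟩
    rw [lt_iff] at h1 h2
    cases l <;> simp [sort] at hl
    cases a <;> simp [sort] at ha <;> cases b <;> simp [sort] at hb <;> simp only [R] at h1 h2 <;>
      simp only [idx] <;> rw [h1, h2]
  · intro h
    refine ⟨Q.l (idx a), rfl, ?_, ?_⟩
    · rw [lt_iff]
      cases a <;> simp [sort] at ha <;> simp [R, idx]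
    · rw [h, lt_iff]
      cases b <;> simp [sort] at hb <;> simp [R, idx]

/-- The index relation with values in the sort `S`. -/
def Ix (q s : Q) : Prop := sort s = 2 ∧ ((sort q = 2 ∧ q = s) ∨ ((sort q = 1 ∨ sort q = 3) ∧ Lk q s) ∨
  (sort q = 4 ∧ s < q) ∨ (sort q = 5 ∧ ∃ p, sort p = 1 ∧ p < q ∧ Lk p s) ∨
  (q = Q.w ∧ s = Q.s 0) ∨ (q = Q.wl ∧ s = Q.s 1) ∨ (q = Q.us ∧ s = Q.s 2) ∨ (q = Q.ur ∧ s = Q.s 3))

theorem D_Ix : D2 Language.order Ix := by
  refine (D1.app D_S 1).and ?_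
  refine ((D1.app D_S 0).and (D.eq 0 1)).or ?_
  refine (((D1.app D_P 0).or (D1.app D_R 0)).and (D2.app D_Lk 0 1)).or ?_
  refine ((D1.app D_L 0).and (D_lt 1 0)).or ?_
  refine ((D1.app D_C 0).and (D.ex (R := fun (v : Fin 2 → Q) p => sort p = 1 ∧ p < v 0 ∧ Lk p (v 1))
    ((D1.app D_P none).and ((D_lt none (some 0)).and (D2.app D_Lk none (some 1)))))).or ?_
  exact ((D.eqc 0 _).and (D.eqc 1 _)).or (((D.eqc 0 _).and (D.eqc 1 _)).or
    (((D.eqc 0 _).and (D.eqc 1 _)).or ((D.eqc 0 _).and (D.eqc 1 _))))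

theorem Ix_iff (q : Q) (hq : sort q ≠ 0) (s : Q) : Ix q s ↔ s = Q.s (idx q) := by
  have hs : ∀ k, (s = Q.s k ↔ sort s = 2 ∧ idx s = k) := by
    intro k
    cases s <;> simp [sort, idx]
  unfold Ix
  rw [hs (idx q)]
  refine and_congr_right fun h1 => ?_
  cases q with
  | x a => exact absurd rfl hq
  | p k =>
    constructor
    · rintro (⟨h, -⟩ | ⟨-, h⟩ | ⟨h, -⟩ | ⟨h, -⟩ | ⟨h, -⟩ | ⟨h, -⟩ | ⟨h, -⟩ | ⟨h, -⟩)
      · exact absurd h (by rw [sort_p]; decide)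
      · exact ((Lk_iff _ _ (Or.inl rfl) (Or.inr (Or.inl h1))).1 h).symm
      · exact absurd h (by rw [sort_p]; decide)
      · exact absurd h (by rw [sort_p]; decide)
      · exact Q.noConfusion h
      · exact Q.noConfusion h
      · exact Q.noConfusion h
      · exact Q.noConfusion h
    · intro h
      exact Or.inr (Or.inl ⟨Or.inl rfl, (Lk_iff _ _ (Or.inl rfl) (Or.inr (Or.inl h1))).2 h.symm⟩)
  | s k =>
    constructor
    · rintro (⟨-, h⟩ | ⟨h | h, -⟩ | ⟨h, -⟩ | ⟨h, -⟩ | ⟨h, -⟩ | ⟨h, -⟩ | ⟨h, -⟩ | ⟨h, -⟩)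
      · rw [← h]
      · exact absurd h (by rw [sort_s]; decide)
      · exact absurd h (by rw [sort_s]; decide)
      · exact absurd h (by rw [sort_s]; decide)
      · exact absurd h (by rw [sort_s]; decide)
      · exact Q.noConfusion h
      · exact Q.noConfusion h
      · exact Q.noConfusion h
      · exact Q.noConfusion h
    · intro h
      exact Or.inl ⟨rfl, ((hs k).2 ⟨h1, h⟩).symm⟩
  | r k =>
    constructor
    · rintro (⟨h, -⟩ | ⟨-, h⟩ | ⟨h, -⟩ | ⟨h, -⟩ | ⟨h, -⟩ | ⟨h, -⟩ | ⟨h, -⟩ | ⟨h, -⟩)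
      · exact absurd h (by rw [sort_r]; decide)
      · exact ((Lk_iff _ _ (Or.inr (Or.inr rfl)) (Or.inr (Or.inl h1))).1 h).symm
      · exact absurd h (by rw [sort_r]; decide)
      · exact absurd h (by rw [sort_r]; decide)
      · exact Q.noConfusion h
      · exact Q.noConfusion h
      · exact Q.noConfusion h
      · exact Q.noConfusion h
    · intro h
      exact Or.inr (Or.inl ⟨Or.inr rfl,
        (Lk_iff _ _ (Or.inr (Or.inr rfl)) (Or.inr (Or.inl h1))).2 h.symm⟩)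
  | l k =>
    cases s with
    | s j => simp [sort, idx, lt_iff, R]
    | _ => simp [sort] at h1
  | c k m =>
    constructor
    · rintro (⟨h, -⟩ | ⟨h | h, -⟩ | ⟨h, -⟩ | ⟨-, p, hp, hpc, hl⟩ | ⟨h, -⟩ | ⟨h, -⟩ | ⟨h, -⟩ | ⟨h, -⟩)
      · exact absurd h (by rw [sort_c]; decide)
      · exact absurd h (by rw [sort_c]; decide)
      · exact absurd h (by rw [sort_c]; decide)
      · exact absurd h (by rw [sort_c]; decide)
      · rw [← (Lk_iff _ _ (Or.inl hp) (Or.inr (Or.inl h1))).1 hl]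
        rw [lt_iff] at hpc
        cases p <;> simp [sort] at hp
        exact hpc
      · exact Q.noConfusion h
      · exact Q.noConfusion h
      · exact Q.noConfusion h
      · exact Q.noConfusion h
    · intro h
      exact Or.inr (Or.inr (Or.inr (Or.inl ⟨rfl, Q.p (nm k m), rfl, rfl,
        (Lk_iff _ _ (Or.inl rfl) (Or.inr (Or.inl h1))).2 h.symm⟩)))
  | w =>
    cases s with
    | s j => simp [sort, idx]
    | _ => simp [sort] at h1
  | wl =>
    cases s with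
    | s j => simp [sort, idx]
    | _ => simp [sort] at h1
  | us =>
    cases s with
    | s j => simp [sort, idx]
    | _ => simp [sort] at h1
  | ur =>
    cases s with
    | s j => simp [sort, idx]
    | _ => simp [sort] at h1

/-- The index relation with values in the sort `R`. -/
def IxR (q r : Q) : Prop := sort r = 3 ∧ ∃ s, Ix q s ∧ Lk s r

theorem D_IxR : D2 Language.order IxR :=
  (D1.app D_R 1).and (D.ex (R := fun (v : Fin 2 → Q) s => Ix (v 0) s ∧ Lk s (v 1))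
    ((D2.app D_Ix (some 0) none).and (D2.app D_Lk none (some 1))))

theorem IxR_iff (q : Q) (hq : sort q ≠ 0) (r : Q) : IxR q r ↔ r = Q.r (idx q) := by
  have hr : ∀ k, (r = Q.r k ↔ sort r = 3 ∧ idx r = k) := by
    intro k
    cases r <;> simp [sort, idx]
  unfold IxR
  rw [hr (idx q)]
  refine and_congr_right fun h1 => ?_
  constructor
  · rintro ⟨s, hs, h⟩
    rw [Ix_iff q hq] at hs
    rw [hs] at h
    exact ((Lk_iff _ _ (Or.inr (Or.inl rfl)) (Or.inr (Or.inr h1))).1 h).symm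
  · intro h
    refine ⟨Q.s (idx q), (Ix_iff q hq _).2 rfl, ?_⟩
    exact (Lk_iff _ _ (Or.inr (Or.inl rfl)) (Or.inr (Or.inr h1))).2 h.symm

/-! ### The bits of a real number -/

def Bit (x s r : Q) : Prop := ∃ c, sort c = 5 ∧ s < c ∧ r < c ∧ Q.w < c ∧ ¬ x < c ∧
  ∀ c', sort c' = 5 → s < c' → r < c' → ¬ x < c' → ∀ y, sort y = 0 → y < c' → y < c

theorem D_Bit : D3 Language.order Bit := by
  refine D.ex (R := fun (v : Fin 3 → Q) c => sort c = 5 ∧ v 1 < c ∧ v 2 < c ∧ Q.w < c ∧ ¬ v 0 < c ∧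
    ∀ c', sort c' = 5 → v 1 < c' → v 2 < c' → ¬ v 0 < c' → ∀ y, sort y = 0 → y < c' → y < c) ?_
  refine (D1.app D_C none).and ((D_lt _ _).and ((D_lt _ _).and ((D.param (R := fun
    (v : Option (Fin 3) → Q) w => w < v none) Q.w (D_lt _ _)).and ((D_lt _ _).not.and ?_))))
  refine D.all (R := fun (v : Option (Fin 3) → Q) c' => sort c' = 5 → v (some 1) < c' →
    v (some 2) < c' → ¬ v (some 0) < c' → ∀ y, sort y = 0 → y < c' → y < v none) ?_
  refine (D1.app D_C none).imp ((D_lt _ _).imp ((D_lt _ _).imp ((D_lt _ _).not.imp ?_)))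
  refine D.all (R := fun (v : Option (Option (Fin 3)) → Q) y => sort y = 0 → y < v none →
    y < v (some none)) ?_
  exact (D1.app D_X none).imp ((D_lt _ _).imp (D_lt _ _))

theorem mk_le (k : ℕ) (m : ℤ) (a : ℝ) : mk k m ≤ a ↔ m ≤ ⌊a * 3 ^ (k + 1)⌋ := by
  unfold mk
  rw [div_le_iff₀ (by positivity), Int.le_floor]

theorem mk_mono (k : ℕ) (m m' : ℤ) : mk k m ≤ mk k m' ↔ m ≤ m' := by
  unfold mk
  rw [div_le_div_iff_of_pos_right (by positivity)]
  exact Int.cast_le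

theorem Bit_iff (a : ℝ) (i j : ℕ) : Bit (Q.x a) (Q.s i) (Q.r j) ↔
    ⌊a * 3 ^ (Nat.pair i j + 1)⌋ % 3 = 1 := by
  constructor
  · rintro ⟨c, hc, h1, h2, h3, h4, h5⟩
    cases c <;> simp only [sort, Fin.isValue] at hc <;> try exact absurd hc (by decide)
    rename_i k m
    have h1' : i = (Nat.unpair k).1 := h1
    have h2' : j = (Nat.unpair k).2 := h2
    have hk : Nat.pair i j = k := by rw [h1', h2', Nat.pair_unpair]
    have h3' : m % 3 = 1 := h3
    have h4' : mk k m ≤ a := not_lt.1 h4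
    rw [hk]
    have h6 := h5 (Q.c k ⌊a * 3 ^ (k + 1)⌋) rfl h1 h2
      (fun h : a < mk k _ => absurd ((mk_le k _ a).2 le_rfl) (not_le.2 h))
    have h7 : mk k ⌊a * 3 ^ (k + 1)⌋ ≤ mk k m := by
      apply le_of_forall_lt
      intro y hy
      exact h6 (Q.x y) rfl hy
    rw [mk_mono] at h7
    have h8 := (mk_le k m a).1 h4'
    rw [le_antisymm h7 h8]
    exact h3'
  · intro h
    refine ⟨Q.c (Nat.pair i j) ⌊a * 3 ^ (Nat.pair i j + 1)⌋, rfl, ?_, ?_, h, ?_, ?_⟩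
    · show i = (Nat.unpair (Nat.pair i j)).1
      rw [Nat.unpair_pair]
    · show j = (Nat.unpair (Nat.pair i j)).2
      rw [Nat.unpair_pair]
    · exact fun h : a < mk _ _ => absurd ((mk_le _ _ a).2 le_rfl) (not_le.2 h)
    · intro c' hc' h1 h2 h3 y hy h4
      cases c' <;> simp only [sort, Fin.isValue] at hc' <;> try exact absurd hc' (by decide)
      rename_i k m
      have h1' : i = (Nat.unpair k).1 := h1
      have h2' : j = (Nat.unpair k).2 := h2
      have hk : Nat.pair i j = k := by rw [h1', h2', Nat.pair_unpair]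
      have h3' : mk k m ≤ a := not_lt.1 h3
      cases y <;> simp only [sort, Fin.isValue] at hy <;> try exact absurd hy (by decide)
      rename_i y
      have h4' : y < mk k m := h4
      show y < mk (Nat.pair i j) ⌊a * 3 ^ (Nat.pair i j + 1)⌋
      rw [hk]
      exact lt_of_lt_of_le h4' ((mk_mono _ _ _).2 ((mk_le _ _ _).1 h3'))

/-- The integer with given ternary digits. -/
def NN (d : ℕ → ℤ) : ℕ → ℤ
  | 0 => d 0
  | k + 1 => 3 * NN d k + d (k + 1)

theorem exists_bits (A : ℕ → Prop) : ∃ a : ℝ, ∀ k, ⌊a * 3 ^ (k + 1)⌋ % 3 = 1 ↔ A k := by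
  classical
  let d : ℕ → ℤ := fun k => if A k then 1 else 0
  have hd0 : ∀ k, 0 ≤ d k := fun k => by by_cases h : A k <;> simp [d, h]
  have hd1 : ∀ k, d k ≤ 1 := fun k => by by_cases h : A k <;> simp [d, h]
  let f : ℕ → ℝ := fun k => (NN d k : ℝ) / 3 ^ (k + 1)
  let g : ℕ → ℝ := fun k => ((NN d k : ℝ) + 1 / 2) / 3 ^ (k + 1)
  have hf : Monotone f := by
    apply monotone_nat_of_le_succ
    intro k
    show (NN d k : ℝ) / 3 ^ (k + 1) ≤ (NN d (k + 1) : ℝ) / 3 ^ (k + 1 + 1)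
    rw [div_le_div_iff₀ (by positivity) (by positivity)]
    have h1 : (0 : ℝ) ≤ d (k + 1) := by exact_mod_cast hd0 (k + 1)
    have h2 : (NN d (k + 1) : ℝ) = 3 * NN d k + d (k + 1) := by
      show ((3 * NN d k + d (k + 1) : ℤ) : ℝ) = _
      push_cast
      ring
    rw [h2, pow_succ (3 : ℝ) (k + 1)]
    have h3 : (0 : ℝ) < 3 ^ (k + 1) := by positivity
    nlinarith
  have hg : Antitone g := by
    apply antitone_nat_of_succ_le
    intro k
    show ((NN d (k + 1) : ℝ) + 1 / 2) / 3 ^ (k + 1 + 1) ≤ ((NN d k : ℝ) + 1 / 2) / 3 ^ (k + 1)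
    rw [div_le_div_iff₀ (by positivity) (by positivity)]
    have h1 : (d (k + 1) : ℝ) ≤ 1 := by exact_mod_cast hd1 (k + 1)
    have h2 : (NN d (k + 1) : ℝ) = 3 * NN d k + d (k + 1) := by
      show ((3 * NN d k + d (k + 1) : ℤ) : ℝ) = _
      push_cast
      ring
    rw [h2, pow_succ (3 : ℝ) (k + 1)]
    have h3 : (0 : ℝ) < 3 ^ (k + 1) := by positivity
    nlinarith
  have hfg : ∀ k, f k ≤ g k := by
    intro k
    show (NN d k : ℝ) / 3 ^ (k + 1) ≤ ((NN d k : ℝ) + 1 / 2) / 3 ^ (k + 1)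
    rw [div_le_div_iff_of_pos_right (by positivity)]
    linarith
  have hmem := Monotone.ciSup_mem_iInter_Icc_of_antitone hf hg hfg
  refine ⟨⨆ n, f n, fun k => ?_⟩
  have hk := Set.mem_iInter.1 hmem k
  obtain ⟨h1, h2⟩ := hk
  have h3 : (0 : ℝ) < 3 ^ (k + 1) := by positivity
  have h4 : ⌊(⨆ n, f n) * 3 ^ (k + 1)⌋ = NN d k := by
    rw [Int.floor_eq_iff]
    constructor
    · exact (div_le_iff₀ h3).1 h1
    · have := (le_div_iff₀ h3).1 h2
      linarith
  rw [h4]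
  have h5 : NN d k % 3 = d k := by
    have h6 := hd0 k
    have h7 := hd1 k
    cases k with
    | zero =>
      show d 0 % 3 = d 0
      omega
    | succ k =>
      show (3 * NN d k + d (k + 1)) % 3 = d (k + 1)
      omega
  rw [h5]
  by_cases h : A k <;> simp [d, h]

theorem exists_code (ρ : ℕ → ℕ → Prop) : ∃ a : ℝ, ∀ i j,
    Bit (Q.x a) (Q.s i) (Q.r j) ↔ ρ i j := by
  obtain ⟨a, ha⟩ := exists_bits (fun k => ρ (Nat.unpair k).1 (Nat.unpair k).2)
  refine ⟨a, fun i j => ?_⟩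
  rw [Bit_iff, ha, Nat.unpair_pair]

/-! ### All relations on the countable part -/

theorem H3 (ρ : Q → Q → Prop) :
    D2 Language.order (fun a b => sort a ≠ 0 ∧ sort b ≠ 0 ∧ ρ a b) := by
  have h0 : ∀ i : Fin 7 × Fin 7, ∃ z : ℝ, ∀ m n, Bit (Q.x z) (Q.s m) (Q.r n) ↔
      ∃ a b, sort a = i.1 ∧ sort b = i.2 ∧ idx a = m ∧ idx b = n ∧ ρ a b :=
    fun i => exists_code _
  choose z hz using h0
  refine D.congr (R := fun v : Fin 2 → Q => ∃ i : Fin 7 × Fin 7, sort (v 0) = i.1 ∧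
    sort (v 1) = i.2 ∧ (i.1 ≠ 0 ∧ i.2 ≠ 0) ∧ ∃ s, ∃ r, Ix (v 0) s ∧ IxR (v 1) r ∧
      Bit (Q.x (z i)) s r) ?_ ?_
  · refine D.exFin fun i => ?_
    refine (D1.app (D_sort i.1) 0).and ((D1.app (D_sort i.2) 1).and ((D.prop _).and ?_))
    refine D.ex (R := fun (v : Fin 2 → Q) s => ∃ r, Ix (v 0) s ∧ IxR (v 1) r ∧
      Bit (Q.x (z i)) s r) ?_
    refine D.ex (R := fun (v : Option (Fin 2) → Q) r => Ix (v (some 0)) (v none) ∧
      IxR (v (some 1)) r ∧ Bit (Q.x (z i)) (v none) r) ?_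
    refine (D2.app D_Ix _ _).and ((D2.app D_IxR _ _).and ?_)
    exact D.param (R := fun (v : Option (Option (Fin 2)) → Q) x =>
      Bit x (v (some none)) (v none)) _ (D3.app D_Bit _ _ _)
  · intro v
    constructor
    · rintro ⟨i, h1, h2, ⟨h3, h4⟩, s, r, h5, h6, h7⟩
      have ha : sort (v 0) ≠ 0 := by rw [h1]; exact h3
      have hb : sort (v 1) ≠ 0 := by rw [h2]; exact h4
      refine ⟨ha, hb, ?_⟩
      rw [Ix_iff _ ha] at h5
      rw [IxR_iff _ hb] at h6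
      rw [h5, h6, hz] at h7
      obtain ⟨a, b, k1, k2, k3, k4, k5⟩ := h7
      have e1 : v 0 = a := sort_idx ha (h1.trans k1.symm) k3.symm
      have e2 : v 1 = b := sort_idx hb (h2.trans k2.symm) k4.symm
      rw [e1, e2]
      exact k5
    · rintro ⟨ha, hb, h⟩
      refine ⟨(sort (v 0), sort (v 1)), rfl, rfl, ⟨ha, hb⟩, Q.s (idx (v 0)), Q.r (idx (v 1)),
        (Ix_iff _ ha _).2 rfl, (IxR_iff _ hb _).2 rfl, ?_⟩
      rw [hz]
      exact ⟨v 0, v 1, rfl, rfl, rfl, rfl, h⟩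

/-! ### Monotone maps -/

theorem eq_x {a : Q} (h : sort a = 0) : ∃ α, a = Q.x α := by
  cases a <;> simp only [sort, Fin.isValue] at h <;> try exact absurd h (by decide)
  exact ⟨_, rfl⟩

theorem sep {a b : Q} (ha : sort a = 0) (hb : sort b = 0) (h : a < b) :
    ∃ c, sort c ≠ 0 ∧ a < c ∧ ¬ b < c := by
  obtain ⟨α, rfl⟩ := eq_x ha
  obtain ⟨β, rfl⟩ := eq_x hb
  have h' : α < β := h
  obtain ⟨k, hk⟩ := exists_pow_lt_of_lt_one (sub_pos.2 h') (show (1 / 3 : ℝ) < 1 by norm_num)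
  refine ⟨Q.c k ⌊β * 3 ^ (k + 1)⌋, by rw [sort_c]; decide, ?_, ?_⟩
  · show α < mk k ⌊β * 3 ^ (k + 1)⌋
    unfold mk
    rw [lt_div_iff₀ (by positivity)]
    have h1 := Int.lt_floor_add_one (β * 3 ^ (k + 1))
    have h2 : (1 : ℝ) ≤ (β - α) * 3 ^ (k + 1) := by
      have h3 : (1 / 3 : ℝ) ^ k * 3 ^ k = 1 := by rw [← mul_pow]; norm_num
      have h4 : (0 : ℝ) < 3 ^ k := by positivity
      rw [pow_succ]
      nlinarith
    linarith
  · exact fun h : β < mk k _ => absurd ((mk_le k _ β).2 le_rfl) (not_le.2 h)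

theorem chain {a b : Q} (ha : sort a = 0) (hb : sort b = 0) : a ≤ b ∨ b < a := by
  obtain ⟨α, rfl⟩ := eq_x ha
  obtain ⟨β, rfl⟩ := eq_x hb
  rcases lt_trichotomy α β with h | h | h
  · exact Or.inl (Or.inr h)
  · exact Or.inl (Or.inl (by rw [h]))
  · exact Or.inr h

theorem star (z : Q → Q) (hz : ∀ c, sort (z c) = 0) :
    D2 Language.order (fun c x => sort c ≠ 0 ∧ sort x = 0 ∧ x = z c) := by
  refine D.congr (R := fun v : Fin 2 → Q => ¬ sort (v 0) = 0 ∧ sort (v 1) = 0 ∧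
    ∀ d, ¬ sort d = 0 → ((sort (v 0) ≠ 0 ∧ sort d ≠ 0 ∧ z (v 0) < d) ↔ v 1 < d)) ?_ ?_
  · refine (D1.app D_X _).not.and ((D1.app D_X _).and ?_)
    refine D.all (R := fun (v : Fin 2 → Q) d => ¬ sort d = 0 →
      ((sort (v 0) ≠ 0 ∧ sort d ≠ 0 ∧ z (v 0) < d) ↔ v 1 < d)) ?_
    refine (D1.app D_X _).not.imp (D.iff ?_ (D_lt _ _))
    exact D2.app (H3 (fun a b => z a < b)) (some 0) none
  · intro v
    refine and_congr_right fun h1 => and_congr_right fun h2 => ?_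
    constructor
    · intro h
      rcases chain h2 (hz (v 0)) with h3 | h3
      · rcases h3.lt_or_eq with h4 | h4
        · obtain ⟨c, hc, h5, h6⟩ := sep h2 (hz (v 0)) h4
          exact absurd ((h c hc).2 h5).2.2 h6
        · exact h4
      · obtain ⟨c, hc, h5, h6⟩ := sep (hz (v 0)) h2 h3
        exact absurd ((h c hc).1 ⟨h1, hc, h5⟩) h6
    · intro h d hd
      rw [h]
      exact ⟨fun h => h.2.2, fun h => ⟨h1, hd, h⟩⟩

theorem upset (U : Q → Q → Prop)
    (hU : ∀ c y y', sort y = 0 → sort y' = 0 → y ≤ y' → U c y → U c y') :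
    D2 Language.order (fun c x => sort c ≠ 0 ∧ sort x = 0 ∧ U c x) := by
  classical
  let F : Q → Prop := fun c => ∃ x, sort x = 0 ∧ U c x ∧ ∀ y, sort y = 0 → U c y → x ≤ y
  let z : Q → Q := fun c => if h : F c then h.choose else Q.x 0
  have hz0 : ∀ c, sort (z c) = 0 := by
    intro c
    by_cases h : F c
    · simp only [z, dif_pos h]; exact h.choose_spec.1
    · simp only [z, dif_neg h]; rfl
  have hz1 : ∀ c, F c → U c (z c) ∧ ∀ y, sort y = 0 → U c y → z c ≤ y := by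
    intro c h
    simp only [z, dif_pos h]
    exact h.choose_spec.2
  refine D.congr (R := fun v : Fin 2 → Q => ¬ sort (v 0) = 0 ∧ sort (v 1) = 0 ∧
    ((∃ d, (sort (v 0) ≠ 0 ∧ sort d ≠ 0 ∧ ∀ y, sort y = 0 → ¬ y < d → U (v 0) y) ∧ ¬ v 1 < d) ∨
      ((sort (v 0) ≠ 0 ∧ sort (v 0) ≠ 0 ∧ F (v 0)) ∧
        (sort (v 0) ≠ 0 ∧ sort (v 1) = 0 ∧ v 1 = z (v 0))))) ?_ ?_
  · refine (D1.app D_X _).not.and ((D1.app D_X _).and (D.or ?_ (D.and ?_ ?_)))
    · refine D.ex (R := fun (v : Fin 2 → Q) d => (sort (v 0) ≠ 0 ∧ sort d ≠ 0 ∧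
        ∀ y, sort y = 0 → ¬ y < d → U (v 0) y) ∧ ¬ v 1 < d) (D.and ?_ (D_lt _ _).not)
      exact D2.app (H3 (fun a b => ∀ y, sort y = 0 → ¬ y < b → U a y)) (some 0) none
    · exact D2.app (H3 (fun a _ => F a)) 0 0
    · exact star z hz0
  · intro v
    refine and_congr_right fun h1 => and_congr_right fun h2 => ?_
    constructor
    · rintro (⟨d, ⟨-, -, h3⟩, h4⟩ | ⟨⟨-, -, h3⟩, ⟨-, -, h4⟩⟩)
      · exact h3 _ h2 h4
      · rw [h4]; exact (hz1 _ h3).1
    · intro h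
      by_cases hm : ∀ y, sort y = 0 → U (v 0) y → v 1 ≤ y
      · have hF : F (v 0) := ⟨v 1, h2, h, hm⟩
        refine Or.inr ⟨⟨h1, h1, hF⟩, h1, h2, ?_⟩
        exact le_antisymm (hm _ (hz0 _) (hz1 _ hF).1) ((hz1 _ hF).2 _ h2 h)
      · push Not at hm
        obtain ⟨y, hy, hUy, hlt⟩ := hm
        have hlt' : y < v 1 := by
          rcases chain h2 hy with h3 | h3
          · exact absurd h3 hlt
          · exact h3
        obtain ⟨d, hd, h5, h6⟩ := sep hy h2 hlt'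
        refine Or.inl ⟨d, ⟨h1, hd, fun y' hy' h7 => ?_⟩, h6⟩
        rcases chain hy hy' with h8 | h8
        · exact hU _ _ _ hy hy' h8 hUy
        · exact absurd (lt_trans h8 h5) h7

theorem trace_eq (y y' : Q)
    (h : ∀ c, sort c ≠ 0 → ((c ≤ y ↔ c ≤ y') ∧ (y ≤ c ↔ y' ≤ c))) : y = y' := by
  by_cases h1 : sort y = 0
  · by_cases h2 : sort y' = 0
    · rcases chain h1 h2 with h3 | h3
      · rcases h3.lt_or_eq with h4 | h4
        · obtain ⟨c, hc, h5, h6⟩ := sep h1 h2 h4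
          have h7 := (h c hc).2.1 h5.le
          rcases h7.lt_or_eq with h8 | h8
          · exact absurd h8 h6
          · exact absurd (by rw [← h8]; exact h2) hc
        · exact h4
      · obtain ⟨c, hc, h5, h6⟩ := sep h2 h1 h3
        have h7 := (h c hc).2.2 h5.le
        rcases h7.lt_or_eq with h8 | h8
        · exact absurd h8 h6
        · exact absurd (by rw [← h8]; exact h1) hc
    · exact le_antisymm ((h y' h2).2.2 le_rfl) ((h y' h2).1.2 le_rfl)
  · exact le_antisymm ((h y h1).1.1 le_rfl) ((h y h1).2.1 le_rfl)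

theorem main (f : Q → Q) (hf : Monotone f) : D2 Language.order (fun a b => f a = b) := by
  have hU1 := upset (fun c y => c ≤ f y) (fun c y y' _ _ h h1 => le_trans h1 (hf h))
  have hU2 := upset (fun c y => ¬ f y ≤ c) (fun c y y' _ _ h h1 h2 => h1 (le_trans (hf h) h2))
  have hK1 := H3 (fun a c => c ≤ f a)
  have hK2 := H3 (fun a c => f a ≤ c)
  refine D.congr (R := fun v : Fin 2 → Q =>
    (sort (v 0) = 0 ∧ ∀ c, ¬ sort c = 0 →
      (((sort c ≠ 0 ∧ sort (v 0) = 0 ∧ c ≤ f (v 0)) ↔ c ≤ v 1) ∧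
      ((sort c ≠ 0 ∧ sort (v 0) = 0 ∧ ¬ f (v 0) ≤ c) ↔ ¬ v 1 ≤ c))) ∨
    (¬ sort (v 0) = 0 ∧ ∀ c, ¬ sort c = 0 →
      (((sort (v 0) ≠ 0 ∧ sort c ≠ 0 ∧ c ≤ f (v 0)) ↔ c ≤ v 1) ∧
      ((sort (v 0) ≠ 0 ∧ sort c ≠ 0 ∧ f (v 0) ≤ c) ↔ v 1 ≤ c)))) ?_ ?_
  · refine D.or ((D1.app D_X _).and ?_) ((D1.app D_X _).not.and ?_)
    · refine D.all (R := fun (v : Fin 2 → Q) c => ¬ sort c = 0 →
        (((sort c ≠ 0 ∧ sort (v 0) = 0 ∧ c ≤ f (v 0)) ↔ c ≤ v 1) ∧
        ((sort c ≠ 0 ∧ sort (v 0) = 0 ∧ ¬ f (v 0) ≤ c) ↔ ¬ v 1 ≤ c))) ?_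
      refine (D1.app D_X _).not.imp (D.and (D.iff ?_ (D_le _ _)) (D.iff ?_ (D_le _ _).not))
      · exact D2.app hU1 none (some 0)
      · exact D2.app hU2 none (some 0)
    · refine D.all (R := fun (v : Fin 2 → Q) c => ¬ sort c = 0 →
        (((sort (v 0) ≠ 0 ∧ sort c ≠ 0 ∧ c ≤ f (v 0)) ↔ c ≤ v 1) ∧
        ((sort (v 0) ≠ 0 ∧ sort c ≠ 0 ∧ f (v 0) ≤ c) ↔ v 1 ≤ c))) ?_
      refine (D1.app D_X _).not.imp (D.and (D.iff ?_ (D_le _ _)) (D.iff ?_ (D_le _ _)))
      · exact D2.app hK1 (some 0) none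
      · exact D2.app hK2 (some 0) none
  · intro v
    constructor
    · rintro (⟨h1, h⟩ | ⟨h1, h⟩)
      · apply trace_eq
        intro c hc
        obtain ⟨h2, h3⟩ := h c hc
        refine ⟨⟨fun h4 => h2.1 ⟨hc, h1, h4⟩, fun h4 => (h2.2 h4).2.2⟩, ⟨fun h4 => ?_, fun h4 => ?_⟩⟩
        · by_contra h5
          exact (h3.2 h5).2.2 h4
        · by_contra h5
          exact h3.1 ⟨hc, h1, h5⟩ h4
      · apply trace_eq
        intro c hc
        obtain ⟨h2, h3⟩ := h c hc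
        exact ⟨⟨fun h4 => h2.1 ⟨h1, hc, h4⟩, fun h4 => (h2.2 h4).2.2⟩,
          ⟨fun h4 => h3.1 ⟨h1, hc, h4⟩, fun h4 => (h3.2 h4).2.2⟩⟩
    · intro h
      by_cases h1 : sort (v 0) = 0
      · refine Or.inl ⟨h1, fun c hc => ?_⟩
        rw [h]
        exact ⟨⟨fun h4 => h4.2.2, fun h4 => ⟨hc, h1, h4⟩⟩, ⟨fun h4 => h4.2.2, fun h4 => ⟨hc, h1, h4⟩⟩⟩
      · refine Or.inr ⟨h1, fun c hc => ?_⟩
        rw [h]
        exact ⟨⟨fun h4 => h4.2.2, fun h4 => ⟨h1, hc, h4⟩⟩, ⟨fun h4 => h4.2.2, fun h4 => ⟨h1, hc, h4⟩⟩⟩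

end Pool.Agent.V11228.PosetDef
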