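import Mathlib

set_option autoImplicit false

namespace Pool.Agent.V11228.SelA

open Set Cardinal

/-- History coding: `hist g k` codes `g 0, ..., g k`. -/
def hist (g : ℕ → ℕ) : ℕ → ℕ
  | 0 => g 0
  | (k+1) => Nat.pair (hist g k) (g (k+1))

theorem le_hist (g : ℕ → ℕ) (k : ℕ) : g k ≤ hist g k := by
  cases k with
  | zero => exact le_rfl
  | succ k => exact Nat.right_le_pair _ _

theorem hist_eq {g g' : ℕ → ℕ} {k : ℕ} (h : hist g k = hist g' k) : ∀ i ≤ k, g i = g' i := by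
  induction k with
  | zero =>
    intro i hi
    obtain rfl : i = 0 := by omega
    exact h
  | succ k ih =>
    have h' : Nat.pair (hist g k) (g (k+1)) = Nat.pair (hist g' k) (g' (k+1)) := h
    rw [Nat.pair_eq_pair] at h'
    intro i hi
    rcases Nat.lt_or_ge i (k+1) with h1 | h1
    · exact ih h'.1 i (by omega)
    · obtain rfl : i = k+1 := by omega
      exact h'.2

def graph (g : ℕ → ℕ) : Set ℕ := range (fun k => Nat.pair k (hist g k))
def col (k : ℕ) : Set ℕ := range (fun m => Nat.pair k m)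

theorem graph_inf (g : ℕ → ℕ) : (graph g).Infinite :=
  Set.infinite_range_of_injective (fun a b h => (Nat.pair_eq_pair.1 h).1)

theorem col_inf (k : ℕ) : (col k).Infinite :=
  Set.infinite_range_of_injective (fun a b h => (Nat.pair_eq_pair.1 h).2)

theorem col_col {k l : ℕ} (h : k ≠ l) : (col k ∩ col l) = ∅ := by
  ext x
  simp only [mem_inter_iff, mem_empty_iff_false, iff_false, not_and]
  rintro ⟨m, rfl⟩ ⟨m', h'⟩
  exact h (Nat.pair_eq_pair.1 h').1.symm

theorem col_graph (k : ℕ) (g : ℕ → ℕ) : (col k ∩ graph g).Finite := by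
  refine (Set.finite_singleton (Nat.pair k (hist g k))).subset ?_
  rintro x ⟨⟨m, rfl⟩, ⟨l, hl⟩⟩
  have h := Nat.pair_eq_pair.1 hl
  simp only [mem_singleton_iff]
  rw [Nat.pair_eq_pair]
  exact ⟨rfl, by rw [← h.2, h.1]⟩

theorem graph_graph {g g' : ℕ → ℕ} (h : g ≠ g') : (graph g ∩ graph g').Finite := by
  obtain ⟨i, hi⟩ := Function.ne_iff.1 h
  refine ((Set.finite_Iio i).image (fun k => Nat.pair k (hist g k))).subset ?_
  rintro x ⟨⟨k, rfl⟩, ⟨l, hl⟩⟩
  have h' := Nat.pair_eq_pair.1 hl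
  obtain ⟨rfl, h2⟩ := h'
  refine ⟨l, ?_, rfl⟩
  by_contra hcon
  exact hi (hist_eq h2.symm i (not_lt.1 hcon))

theorem graph_inj {g g' : ℕ → ℕ} (h : graph g = graph g') : g = g' := by
  by_contra hne
  have := graph_graph hne
  rw [h, inter_self] at this
  exact graph_inf g' this

theorem finite_not_dom (D : Set (ℕ → ℕ)) (hD : D.Finite)
    (h : ∀ f : ℕ → ℕ, ∃ g ∈ D, ∀ᶠ n in Filter.atTop, f n ≤ g n) : False := by
  obtain ⟨g, hg, hn⟩ := h (fun n => (∑ g ∈ hD.toFinset, g n) + 1)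
  obtain ⟨n, hn⟩ := hn.exists
  have : g n ≤ ∑ g ∈ hD.toFinset, g n :=
    Finset.single_le_sum (f := fun g : ℕ → ℕ => g n) (fun _ _ => Nat.zero_le _) (hD.mem_toFinset.2 hg)
  omega

def basis (A : Set (Set ℕ)) : Set (Set (ℕ ⊕ A)) :=
  ({s : Set (ℕ ⊕ A) | ∃ n : ℕ, s = {Sum.inl n}} ∪
         {s : Set (ℕ ⊕ A) | ∃ a : A, ∃ F : Set ℕ, F.Finite ∧
            s = insert (Sum.inr a) (Sum.inl '' ((a : Set ℕ) \ F))})

theorem nhd {A : Set (Set ℕ)} (V : Set (ℕ ⊕ A))
    (hV : @IsOpen _ (TopologicalSpace.generateFrom (basis A)) V) (a : A) (ha : Sum.inr a ∈ V) :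
    ∃ F : Set ℕ, F.Finite ∧ ∀ x ∈ (a : Set ℕ), x ∉ F → Sum.inl x ∈ V := by
  have hV' : TopologicalSpace.GenerateOpen (basis A) V := hV
  clear hV
  induction hV' with
  | basic s hs =>
    rcases hs with ⟨n, rfl⟩ | ⟨b, F, hF, rfl⟩
    · simp at ha
    · have hab : a = b := by simpa using ha
      subst hab
      exact ⟨F, hF, fun x hx hxF => Or.inr ⟨x, ⟨hx, hxF⟩, rfl⟩⟩
  | univ => exact ⟨∅, Set.finite_empty, fun _ _ _ => mem_univ _⟩
  | inter s t hs ht ihs iht =>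
    obtain ⟨F, hF, h1⟩ := ihs ha.1
    obtain ⟨G, hG, h2⟩ := iht ha.2
    exact ⟨F ∪ G, hF.union hG, fun x hx hxF => ⟨h1 x hx (fun h => hxF (Or.inl h)),
      h2 x hx (fun h => hxF (Or.inr h))⟩⟩
  | sUnion S hS ih =>
    obtain ⟨s, hs, has⟩ := ha
    obtain ⟨F, hF, h1⟩ := ih s hs has
    exact ⟨F, hF, fun x hx hxF => ⟨s, hs, h1 x hx hxF⟩⟩

theorem final :
  ∃ A : Set (Set ℕ),
    (∀ a ∈ A, a.Infinite) ∧ (∀ a ∈ A, ∀ b ∈ A, a ≠ b → (a ∩ b).Finite) ∧
    (∃ D : Set (ℕ → ℕ), (∀ f : ℕ → ℕ, ∃ g ∈ D, ∀ᶠ n in Filter.atTop, f n ≤ g n) ∧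
        Cardinal.mk D = Cardinal.mk A) ∧
    (∀ D : Set (ℕ → ℕ), (∀ f : ℕ → ℕ, ∃ g ∈ D, ∀ᶠ n in Filter.atTop, f n ≤ g n) →
        Cardinal.mk A ≤ Cardinal.mk D) ∧
    ∀ t : TopologicalSpace (ℕ ⊕ A),
      t = TopologicalSpace.generateFrom
        ({s : Set (ℕ ⊕ A) | ∃ n : ℕ, s = {Sum.inl n}} ∪
         {s : Set (ℕ ⊕ A) | ∃ a : A, ∃ F : Set ℕ, F.Finite ∧
            s = insert (Sum.inr a) (Sum.inl '' ((a : Set ℕ) \ F))}) →
      ¬ (∀ U : ℕ → Set (Set (ℕ ⊕ A)),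
          (∀ n, (∀ u ∈ U n, @IsOpen _ t u) ∧ ⋃₀ U n = Set.univ) →
          ∀ Dn : Set (ℕ ⊕ A), @Dense _ t Dn →
          ∃ F : ℕ → Set (ℕ ⊕ A),
            (∀ n, F n ⊆ Dn ∧ ∀ x, ∃ V : Set (ℕ ⊕ A), @IsOpen _ t V ∧ x ∈ V ∧ V ∩ F n ⊆ {x}) ∧
            ∀ x, ∃ n, ∃ u ∈ U n, x ∈ u ∧ (u ∩ F n).Nonempty) := by
  classical
  -- dominating family of minimal cardinality
  obtain ⟨D, hD, hmin⟩ : ∃ D : Set (ℕ → ℕ),
      (∀ f : ℕ → ℕ, ∃ g ∈ D, ∀ᶠ n in Filter.atTop, f n ≤ g n) ∧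
      ∀ D' : Set (ℕ → ℕ), (∀ f : ℕ → ℕ, ∃ g ∈ D', ∀ᶠ n in Filter.atTop, f n ≤ g n) →
        #D ≤ #D' := by
    let S : Set (Set (ℕ → ℕ)) :=
      {D | ∀ f : ℕ → ℕ, ∃ g ∈ D, ∀ᶠ n in Filter.atTop, f n ≤ g n}
    have hS : S.Nonempty := ⟨univ, fun f => ⟨f, mem_univ _, Filter.Eventually.of_forall fun _ => le_rfl⟩⟩
    obtain ⟨D, hD, hm⟩ := (InvImage.wf (fun D : Set (ℕ → ℕ) => #D) Cardinal.lt_wf).has_min S hS
    exact ⟨D, hD, fun D' hD' => not_lt.1 (hm D' hD')⟩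
  have hDinf : D.Infinite := fun h => finite_not_dom D h hD
  let E : Set (ℕ → ℕ) := range (fun p : D × ℕ => fun k => p.1.1 k + p.2)
  let A : Set (Set ℕ) := range col ∪ graph '' E
  have hAD : #A = #D := by
    apply le_antisymm
    · have h0 : ℵ₀ ≤ #D := Cardinal.aleph0_le_mk_iff.2 hDinf.to_subtype
      calc #A ≤ #(range col) + #(graph '' E) := Cardinal.mk_union_le _ _
        _ ≤ ℵ₀ + #D := by
            gcongr
            · exact Cardinal.mk_le_aleph0_iff.2 (Set.countable_range _).to_subtype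
            · calc #(graph '' E) ≤ #E := Cardinal.mk_image_le
                _ ≤ #(D × ℕ) := Cardinal.mk_range_le
                _ = #D * ℵ₀ := by simp
                _ = #D := Cardinal.mul_aleph0_eq h0
        _ = #D := Cardinal.add_eq_right h0 h0
    · refine Cardinal.mk_le_of_injective
        (f := fun g : D => (⟨graph g.1, Or.inr ⟨g.1, ⟨(g, 0), by simp⟩, rfl⟩⟩ : A)) ?_
      intro g g' h
      exact Subtype.ext (graph_inj (congrArg Subtype.val h))
  refine ⟨A, ?_, ?_, ⟨D, hD, hAD.symm⟩, fun D' hD' => hAD.le.trans (hmin D' hD'), ?_⟩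
  · rintro a (⟨k, rfl⟩ | ⟨g, -, rfl⟩)
    · exact col_inf k
    · exact graph_inf g
  · rintro a (⟨k, rfl⟩ | ⟨g, -, rfl⟩) b (⟨l, rfl⟩ | ⟨g', -, rfl⟩) hab
    · rw [col_col (fun h => hab (by rw [h]))]; exact Set.finite_empty
    · exact col_graph _ _
    · rw [inter_comm]; exact col_graph _ _
    · exact graph_graph (fun h => hab (by rw [h]))
  · intro t ht
    have ht' : t = TopologicalSpace.generateFrom (basis A) := ht
    clear ht
    subst ht'
    intro hsel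
    have hAinf : ∀ a : A, (a : Set ℕ).Infinite := by
      rintro ⟨a, (⟨k, rfl⟩ | ⟨g, -, rfl⟩)⟩
      · exact col_inf k
      · exact graph_inf g
    let _ : TopologicalSpace (ℕ ⊕ A) := TopologicalSpace.generateFrom (basis A)
    have hs2 := hsel
      (fun n => {s | IsOpen s ∧ ∀ a : A, Sum.inr a ∈ s → ∀ g, (a : Set ℕ) = graph g →
        ∀ x, Sum.inl x ∈ s → x ∈ (a : Set ℕ) ∧ n ≤ (Nat.unpair x).1}) ?_
      (range Sum.inl) ?_
    · obtain ⟨F, hF1, hF2⟩ := hs2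
      -- bounds on columns
      have hφ : ∀ n k : ℕ, ∃ b, ∀ m, b ≤ m → (Sum.inl (Nat.pair k m) : ℕ ⊕ A) ∉ F n := by
        intro n k
        obtain ⟨V, hV, hx, hVF⟩ := (hF1 n).2 (Sum.inr ⟨col k, Or.inl ⟨k, rfl⟩⟩)
        obtain ⟨G, hG, hG2⟩ := nhd V hV _ hx
        obtain ⟨b, hb⟩ := hG.bddAbove
        refine ⟨b + 1, fun m hm hmF => ?_⟩
        have h1 : (Sum.inl (Nat.pair k m) : ℕ ⊕ A) ∈ V := by
          apply hG2 _ ⟨m, rfl⟩
          intro hc
          have h2 : Nat.pair k m ≤ b := hb hc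
          have h3 := Nat.right_le_pair k m
          omega
        have := hVF ⟨h1, hmF⟩
        simp at this
      choose φ hφ using hφ
      obtain ⟨g, hg, hgd⟩ := hD (fun k => ∑ n ∈ Finset.range (k+1), φ n k)
      obtain ⟨K, hK⟩ := Filter.eventually_atTop.1 hgd
      let c := ∑ k ∈ Finset.range K, ∑ n ∈ Finset.range (k+1), φ n k
      have hc : ∀ k, ∑ n ∈ Finset.range (k+1), φ n k ≤ g k + c := by
        intro k
        rcases Nat.lt_or_ge k K with h | h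
        · have : ∑ n ∈ Finset.range (k+1), φ n k ≤ c :=
            Finset.single_le_sum (f := fun k => ∑ n ∈ Finset.range (k+1), φ n k)
              (fun _ _ => Nat.zero_le _) (Finset.mem_range.2 h)
          omega
        · exact (hK k h).trans (Nat.le_add_right _ _)
      let e : ℕ → ℕ := fun k => g k + c
      have heE : e ∈ E := ⟨(⟨g, hg⟩, c), rfl⟩
      obtain ⟨n, u, ⟨-, hu⟩, hau, ⟨z, hzu, hzF⟩⟩ := hF2 (Sum.inr ⟨graph e, Or.inr ⟨e, heE, rfl⟩⟩)
      obtain ⟨x, rfl⟩ := (hF1 n).1 hzF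
      obtain ⟨⟨k, rfl⟩, hxn⟩ := hu _ hau e rfl x hzu
      simp only [Nat.unpair_pair] at hxn
      refine hφ n k _ ?_ hzF
      calc φ n k ≤ ∑ n ∈ Finset.range (k+1), φ n k :=
            Finset.single_le_sum (f := fun n => φ n k) (fun _ _ => Nat.zero_le _)
              (Finset.mem_range.2 (by omega))
        _ ≤ e k := hc k
        _ ≤ hist e k := le_hist e k
    · intro n
      refine ⟨fun u hu => hu.1, ?_⟩
      rw [Set.eq_univ_iff_forall]
      rintro (m | a)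
      · refine ⟨{Sum.inl m}, ⟨TopologicalSpace.isOpen_generateFrom_of_mem (Or.inl ⟨m, rfl⟩), ?_⟩, rfl⟩
        intro a ha
        simp at ha
      · by_cases hg : ∃ g, (a : Set ℕ) = graph g
        · obtain ⟨g, hg⟩ := hg
          have hfin : ((fun k => Nat.pair k (hist g k)) '' Iio n).Finite := (Set.finite_Iio n).image _
          refine ⟨insert (Sum.inr a) (Sum.inl '' ((a : Set ℕ) \
            ((fun k => Nat.pair k (hist g k)) '' Iio n))),
            ⟨TopologicalSpace.isOpen_generateFrom_of_mem (Or.inr ⟨a, _, hfin, rfl⟩), ?_⟩,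
            mem_insert _ _⟩
          intro b hb g' hg' x hx
          have hab : b = a := by simpa using hb
          subst hab
          have hx' : x ∈ (b : Set ℕ) \ ((fun k => Nat.pair k (hist g k)) '' Iio n) := by
            simpa using hx
          refine ⟨hx'.1, ?_⟩
          have h1 := hx'.1
          rw [hg] at h1
          obtain ⟨k, rfl⟩ := h1
          simp only [Nat.unpair_pair]
          by_contra hcon
          exact hx'.2 ⟨k, not_le.1 hcon, rfl⟩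
        · refine ⟨insert (Sum.inr a) (Sum.inl '' ((a : Set ℕ) \ ∅)),
            ⟨TopologicalSpace.isOpen_generateFrom_of_mem (Or.inr ⟨a, ∅, Set.finite_empty, rfl⟩), ?_⟩,
            mem_insert _ _⟩
          intro b hb g' hg' x hx
          have hab : b = a := by simpa using hb
          subst hab
          exact (hg ⟨g', hg'⟩).elim
    · rw [dense_iff_inter_open]
      rintro V hV ⟨(m | a), hx⟩
      · exact ⟨_, hx, m, rfl⟩
      · obtain ⟨G, hG, hG2⟩ := nhd V hV a hx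
        obtain ⟨x, hx1, hx2⟩ := ((hAinf a).sdiff hG).nonempty
        exact ⟨_, hG2 x hx1 hx2, x, rfl⟩

end Pool.Agent.V11228.SelA
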