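import Mathlib

set_option autoImplicit false

namespace Pool.Agent.V11228.Selector

open Set Cardinal

/-- Small sets of a well-order: off a bounded piece, a pressing-down map with bounded fibres. -/
def Sm {L : Type} [LinearOrder L] (X : Set L) : Prop :=
  ∃ (g h : L → L) (b : L), ∀ a ∈ X, b ≤ a → g a < a ∧ a < h (g a)

section core

variable {L : Type} [LinearOrder L] [WellFoundedLT L]

theorem Sm.mono {X Y : Set L} (h : Sm Y) (hXY : X ⊆ Y) : Sm X := by
  obtain ⟨g, h', b, hb⟩ := h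
  exact ⟨g, h', b, fun a ha => hb a (hXY ha)⟩

theorem Sm.empty [Nonempty L] : Sm (∅ : Set L) :=
  ⟨id, id, Classical.arbitrary L, fun a ha => ha.elim⟩

theorem Sm.iUnion (P1 : ∀ c : ℕ → L, ∃ b, ∀ n, c n < b) {X : ℕ → Set L} (h : ∀ n, Sm (X n)) :
    Sm (⋃ n, X n) := by
  classical
  choose g h b hb using h
  obtain ⟨b', hb'⟩ := P1 b
  have hh : ∀ x : L, ∃ c, ∀ n, h n x < c := fun x => P1 (fun n => h n x)
  choose H hH using hh
  refine ⟨fun a => if ha : ∃ n, a ∈ X n then g ha.choose a else a, H, b', ?_⟩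
  intro a ha hba
  have ha' : ∃ n, a ∈ X n := mem_iUnion.1 ha
  simp only [ha', dite_true]
  have := hb ha'.choose a ha'.choose_spec ((hb' _).le.trans hba)
  exact ⟨this.1, this.2.trans (hH _ _)⟩

theorem Sm.of_inj [NoMaxOrder L] [Nonempty L] {X : Set L} (f : L → L) (hf : ∀ a ∈ X, f a < a)
    (hi : ∀ a ∈ X, ∀ b ∈ X, f a = f b → a = b) : Sm X := by
  classical
  have hh : ∀ x : L, ∃ c, ∀ a ∈ X, f a = x → a < c := by
    intro x
    by_cases hx : ∃ a ∈ X, f a = x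
    · obtain ⟨a, ha, hax⟩ := hx
      obtain ⟨c, hc⟩ := exists_gt a
      refine ⟨c, fun b hb hbx => ?_⟩
      have : b = a := hi b hb a ha (hbx.trans hax.symm)
      rw [this]; exact hc
    · exact ⟨x, fun a ha hax => (hx ⟨a, ha, hax⟩).elim⟩
  choose h hh using hh
  exact ⟨f, h, Classical.arbitrary L, fun a ha _ => ⟨hf a ha, hh _ a ha rfl⟩⟩

theorem Sm.proper [NoMaxOrder L] (P1 : ∀ c : ℕ → L, ∃ b, ∀ n, c n < b)
    (P2 : ∀ (a : L) (h : L → L), ∃ b, ∀ x, x < a → h x < b)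
    {X : Set L} (hX : Sm X) (b0 : L) : ∃ a, b0 ≤ a ∧ a ∉ X := by
  obtain ⟨g, h, b, hb⟩ := hX
  have P2' : ∀ a : L, ∃ c, a < c ∧ ∀ x, x < a → h x < c := by
    intro a
    obtain ⟨c, hc⟩ := P2 a h
    obtain ⟨c', hc'⟩ := exists_gt (max a c)
    exact ⟨c', (le_max_left _ _).trans_lt hc',
      fun x hx => ((hc x hx).le.trans (le_max_right _ _)).trans_lt hc'⟩
  choose N hN1 hN2 using P2'
  let d : ℕ → L := fun n => Nat.rec (max b b0) (fun _ x => N x) n
  have hd0 : d 0 = max b b0 := rfl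
  have hd : ∀ n, d (n+1) = N (d n) := fun n => rfl
  obtain ⟨u, hu⟩ := P1 d
  obtain ⟨δ, hδ, hmin⟩ := WellFounded.has_min (wellFounded_lt (α := L)) {x | ∀ n, d n < x} ⟨u, hu⟩
  have hδ' : ∀ n, d n < δ := hδ
  refine ⟨δ, ((le_max_right b b0).trans (hδ' 0).le), fun hx => ?_⟩
  obtain ⟨h1, h2⟩ := hb δ hx ((le_max_left b b0).trans (hδ' 0).le)
  have : ∃ n, g δ ≤ d n := by
    by_contra hcon
    push Not at hcon
    exact hmin (g δ) hcon h1
  obtain ⟨n, hn⟩ := this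
  have h3 : g δ < d (n+1) := hn.trans_lt (by rw [hd]; exact hN1 _)
  have h4 : h (g δ) < d (n+2) := by rw [hd (n+1)]; exact hN2 _ _ h3
  exact absurd (h2.trans h4) (not_lt.2 (hδ' (n+2)).le)

/-- The main argument. -/
theorem main [NoMaxOrder L] [Nonempty L] (P1 : ∀ c : ℕ → L, ∃ b, ∀ n, c n < b)
    (P2 : ∀ (a : L) (h : L → L), ∃ b, ∀ x, x < a → h x < b)
    (e : L → ℝ) (he : Function.Injective e) (heI : ∀ a, e a ∈ Icc (0:ℝ) 1)
    (G : L → Set (ℚ → {B : Set ℝ // MeasurableSet B})) (hG : ∀ a, #(G a) < 𝔠)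
    (hG2 : ∀ t, ∃ a, ∀ b, a ≤ b → t ∈ G b) :
    ¬ (∀ N : Set (Set ℝ),
      (∀ A ∈ N, A ⊆ Set.Icc (0:ℝ) 1) →
      (∀ J : Set ℝ, J.OrdConnected → J ⊆ Set.Icc (0:ℝ) 1 → J ∈ N) →
      (∀ A ∈ N, Set.Icc (0:ℝ) 1 \ A ∈ N) →
      (∀ f : ℕ → Set ℝ, (∀ n, f n ∈ N) → (⋃ n, f n) ∈ N) →
      (∀ P : Set (Set ℝ),
          (∀ p ∈ P, ∃ x ∈ p, ∃ y ∈ p, x ≠ y) →
          P.PairwiseDisjoint id →
          ⋃₀ P = Set.Icc (0:ℝ) 1 →
          ∃ S ∈ N, ∀ p ∈ P, ∃! x, x ∈ S ∧ x ∈ p) →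
      ∀ A : Set ℝ, A ⊆ Set.Icc (0:ℝ) 1 → A ∈ N) := by
  classical
  intro hall
  have key := hall {A | A ⊆ Icc (0:ℝ) 1 ∧ ∃ B, MeasurableSet B ∧ Sm {a | ¬ (e a ∈ A ↔ e a ∈ B)}}
    (fun A hA => hA.1)
    (fun J hJ hJI => ⟨hJI, J, hJ.measurableSet, Sm.empty.mono (fun a ha => (ha Iff.rfl).elim)⟩)
    ?_ ?_ ?_
  · -- properness
    have hF : ∀ a : L, ∃ y : ℝ, ∀ t ∈ G a, ¬ (∀ q : ℚ, y < q ↔ e a ∈ (t q).1) := by
      intro a
      by_contra hcon
      push Not at hcon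
      choose T hT1 hT2 using hcon
      have hinj : Function.Injective (fun y : ℝ => (⟨T y, hT1 y⟩ : G a)) := by
        intro y z hyz
        have hyz' : T y = T z := congrArg Subtype.val hyz
        have h1 : ∀ q : ℚ, y < q ↔ z < q := fun q => by
          rw [hT2 y q, hT2 z q, hyz']
        rcases lt_trichotomy y z with h | h | h
        · obtain ⟨q, hq1, hq2⟩ := exists_rat_btwn h
          exact absurd ((h1 q).1 hq1) (not_lt.2 hq2.le)
        · exact h
        · obtain ⟨q, hq1, hq2⟩ := exists_rat_btwn h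
          exact absurd ((h1 q).2 hq1) (not_lt.2 hq2.le)
      have := Cardinal.mk_le_of_injective hinj
      rw [Cardinal.mk_real] at this
      exact absurd this (not_le.2 (hG a))
    choose F hF using hF
    have hA : ∀ q : ℚ, ∃ B, MeasurableSet B ∧ Sm {a | ¬ (F a < q ↔ e a ∈ B)} := by
      intro q
      obtain ⟨-, B, hB, hS⟩ := key (e '' {a | F a < q}) (by rintro _ ⟨a, -, rfl⟩; exact heI a)
      refine ⟨B, hB, hS.mono ?_⟩
      intro a ha
      simpa [he.mem_set_image] using ha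
    choose B hB hS using hA
    obtain ⟨f, hf⟩ := exists_surjective_nat ℚ
    have hU := Sm.iUnion P1 (fun n => hS (f n))
    obtain ⟨a0, ha0⟩ := hG2 (fun q => ⟨B q, hB q⟩)
    obtain ⟨a, ha1, ha2⟩ := Sm.proper P1 P2 hU a0
    apply hF a _ (ha0 a ha1)
    intro q
    obtain ⟨n, rfl⟩ := hf q
    by_contra hcon
    exact ha2 (mem_iUnion.2 ⟨n, hcon⟩)
  · rintro A ⟨hA, B, hB, hS⟩
    refine ⟨sdiff_subset, Bᶜ, hB.compl, hS.mono ?_⟩
    intro a ha
    simp only [mem_ofPred_eq, mem_sdiff, heI a, true_and, mem_compl_iff] at ha ⊢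
    tauto
  · intro f hf
    have hf1 : ∀ n, f n ⊆ Icc (0:ℝ) 1 := fun n => (hf n).1
    have hf2 : ∀ n, ∃ B, MeasurableSet B ∧ Sm {a | ¬ (e a ∈ f n ↔ e a ∈ B)} := fun n => (hf n).2
    choose B hB hS using hf2
    refine ⟨iUnion_subset hf1, ⋃ n, B n, MeasurableSet.iUnion hB, (Sm.iUnion P1 hS).mono ?_⟩
    intro a ha
    by_contra hcon
    simp only [mem_iUnion, mem_ofPred_eq, not_exists, not_not] at hcon
    apply ha
    simp only [mem_iUnion]
    exact exists_congr hcon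
  · intro P hP2 hPd hPU
    have hsel : ∀ p ∈ P, ∃ x ∈ p, ∀ a, e a = x → ∃ m, m < a ∧ e m ∈ p := by
      intro p hp
      by_cases hx : ∃ x ∈ p, ∀ a, e a ≠ x
      · obtain ⟨x, hx, hxe⟩ := hx
        exact ⟨x, hx, fun a ha => (hxe a ha).elim⟩
      · push Not at hx
        obtain ⟨x, hxp, y, hyp, hxy⟩ := hP2 p hp
        obtain ⟨a, rfl⟩ := hx x hxp
        obtain ⟨b, rfl⟩ := hx y hyp
        have hab : a ≠ b := fun h => hxy (by rw [h])
        rcases lt_or_gt_of_ne hab with h | h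
        · exact ⟨e b, hyp, fun c hc => ⟨a, by rwa [he hc], hxp⟩⟩
        · exact ⟨e a, hxp, fun c hc => ⟨b, by rwa [he hc], hyp⟩⟩
    choose! s hs1 hs2 using hsel
    refine ⟨s '' P, ⟨?_, ∅, MeasurableSet.empty, ?_⟩, ?_⟩
    · rintro _ ⟨p, hp, rfl⟩
      rw [← hPU]
      exact mem_sUnion.2 ⟨p, hp, hs1 p hp⟩
    · have : ∀ a : L, ∃ m : L, e a ∈ s '' P → ∃ p ∈ P, e a = s p ∧ m < a ∧ e m ∈ p := by
        intro a
        by_cases h : e a ∈ s '' P
        · obtain ⟨p, hp, hpa⟩ := h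
          obtain ⟨m, hm1, hm2⟩ := hs2 p hp a hpa.symm
          exact ⟨m, fun _ => ⟨p, hp, hpa.symm, hm1, hm2⟩⟩
        · exact ⟨a, fun h' => (h h').elim⟩
      choose m hm using this
      apply Sm.of_inj m
      · intro a ha
        have ha' : e a ∈ s '' P := by simpa using ha
        obtain ⟨p, hp, -, h, -⟩ := hm a ha'
        exact h
      · intro a ha b hb hab
        have ha' : e a ∈ s '' P := by simpa using ha
        have hb' : e b ∈ s '' P := by simpa using hb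
        obtain ⟨p, hp, hpa, -, h⟩ := hm a ha'
        obtain ⟨q, hq, hqb, -, h'⟩ := hm b hb'
        have hpq : p = q := by
          by_contra hne
          exact Set.disjoint_left.1 (hPd hp hq hne) h (by rw [hab]; exact h')
        subst hpq
        exact he (hpa.trans hqb.symm)
    · intro p hp
      refine ⟨s p, ⟨⟨p, hp, rfl⟩, hs1 p hp⟩, ?_⟩
      rintro x ⟨⟨q, hq, rfl⟩, hx⟩
      have hpq : q = p := by
        by_contra hne
        exact Set.disjoint_left.1 (hPd hq hp hne) (hs1 q hq) hx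
      rw [hpq]

end core

theorem final : ¬ (∀ N : Set (Set ℝ),
      (∀ A ∈ N, A ⊆ Set.Icc (0:ℝ) 1) →
      (∀ J : Set ℝ, J.OrdConnected → J ⊆ Set.Icc (0:ℝ) 1 → J ∈ N) →
      (∀ A ∈ N, Set.Icc (0:ℝ) 1 \ A ∈ N) →
      (∀ f : ℕ → Set ℝ, (∀ n, f n ∈ N) → (⋃ n, f n) ∈ N) →
      (∀ P : Set (Set ℝ),
          (∀ p ∈ P, ∃ x ∈ p, ∃ y ∈ p, x ≠ y) →
          P.PairwiseDisjoint id →
          ⋃₀ P = Set.Icc (0:ℝ) 1 →
          ∃ S ∈ N, ∀ p ∈ P, ∃! x, x ∈ S ∧ x ∈ p) →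
      ∀ A : Set ℝ, A ⊆ Set.Icc (0:ℝ) 1 → A ∈ N) := by
  classical
  obtain ⟨s, hs, hst⟩ := Ordinal.exists_ord_cof_eq ((Cardinal.continuum.{0}).ord.ToType)
  have hK : #((Cardinal.continuum.{0}).ord.ToType) = 𝔠 := by simp
  have hcofK : ℵ₀ < Order.cof ((Cardinal.continuum.{0}).ord.ToType) := by
    rw [Ordinal.cof_toType, ← Cardinal.two_power_aleph0]
    exact Cardinal.lt_cof_ord_power le_rfl Cardinal.one_lt_two
  haveI : Nonempty ((Cardinal.continuum.{0}).ord.ToType) := by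
    rw [← Cardinal.mk_ne_zero_iff, hK]; exact Cardinal.continuum_ne_zero
  haveI hKnm : NoMaxOrder ((Cardinal.continuum.{0}).ord.ToType) := by
    apply Cardinal.noMaxOrder Cardinal.aleph0_le_continuum
  have hcs : #s = Order.cof ((Cardinal.continuum.{0}).ord.ToType) := by
    rw [← Ordinal.card_type (· < · : s → s → Prop), hst, Cardinal.card_ord]
  haveI hsne : Nonempty s := by
    rw [← Cardinal.mk_ne_zero_iff, hcs]
    intro h
    rw [h] at hcofK
    exact absurd hcofK (by simp)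
  -- bounded
  have hbd : ∀ t : Set s, #t < #s → ∃ b : s, ∀ x ∈ t, x < b := by
    intro t ht
    have h1 : ¬ IsCofinal (Subtype.val '' t : Set ((Cardinal.continuum.{0}).ord.ToType)) := by
      intro hc
      have h2 := Order.cof_le hc
      have h3 : #(Subtype.val '' t : Set ((Cardinal.continuum.{0}).ord.ToType)) ≤ #t := Cardinal.mk_image_le
      rw [← hcs] at h2
      exact absurd (h2.trans h3) (not_le.2 ht)
    simp only [IsCofinal, not_forall, not_exists, not_and, not_le] at h1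
    obtain ⟨x, hx⟩ := h1
    obtain ⟨y, hy, hxy⟩ := hs x
    exact ⟨⟨y, hy⟩, fun z hz => (hx z.1 ⟨z, hz, rfl⟩).trans_le hxy⟩
  have P1 : ∀ c : ℕ → s, ∃ b, ∀ n, c n < b := by
    intro c
    obtain ⟨b, hb⟩ := hbd (range c) ((Cardinal.mk_range_le).trans_lt (by
      rw [hcs]; simpa using hcofK))
    exact ⟨b, fun n => hb _ ⟨n, rfl⟩⟩
  have P2 : ∀ (a : s) (h : s → s), ∃ b, ∀ x, x < a → h x < b := by
    intro a h
    obtain ⟨b, hb⟩ := hbd (h '' Iio a) ((Cardinal.mk_image_le).trans_lt (by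
      apply Cardinal.mk_Iio_lt
      rw [hst, hcs]))
    exact ⟨b, fun x hx => hb _ ⟨x, hx, rfl⟩⟩
  haveI : NoMaxOrder s := ⟨fun a => by
    obtain ⟨b, hb⟩ := P1 (fun _ => a)
    exact ⟨b, hb 0⟩⟩
  -- injection into the interval
  have hsI : #s ≤ #(Icc (0:ℝ) 1) := by
    rw [Cardinal.mk_Icc_real zero_lt_one]
    exact (Cardinal.mk_set_le s).trans hK.le
  obtain ⟨e⟩ : Nonempty (s ↪ Icc (0:ℝ) 1) := hsI
  -- enumeration
  have hT : #(ℚ → {B : Set ℝ // MeasurableSet B}) ≤ #((Cardinal.continuum.{0}).ord.ToType) := by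
    rw [hK]
    have h1 : #{B : Set ℝ // MeasurableSet B} ≤ 𝔠 := by
      have := MeasurableSpace.cardinal_measurableSet_le_continuum
        (s := ⋃ (a : ℚ), {Iio (a : ℝ)}) (by
          refine (Cardinal.mk_le_aleph0_iff.2 ?_).trans Cardinal.aleph0_le_continuum
          exact (Set.countable_iUnion fun a => Set.countable_singleton _).to_subtype)
      rw [← Real.borel_eq_generateFrom_Iio_rat, ← BorelSpace.measurable_eq (α := ℝ)] at this
      exact this
    calc #(ℚ → {B : Set ℝ // MeasurableSet B}) = #{B : Set ℝ // MeasurableSet B} ^ #ℚ := by simp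
      _ ≤ 𝔠 ^ #ℚ := Cardinal.power_le_power_right h1
      _ = 𝔠 := by simp
  obtain ⟨j⟩ : Nonempty ((ℚ → {B : Set ℝ // MeasurableSet B}) ↪ (Cardinal.continuum.{0}).ord.ToType) := hT
  refine main (L := s) P1 P2 (fun a => (e a).1) (fun a b h => e.injective (Subtype.ext h))
    (fun a => (e a).2) (fun a => {t | j t < a.1}) ?_ ?_
  · intro a
    have h1 : #{t | j t < a.1} ≤ #(Iio a.1) := by
      refine Cardinal.mk_le_of_injective (f := fun t : {t | j t < a.1} => (⟨j t.1, t.2⟩ : Iio a.1)) ?_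
      intro x y hxy
      exact Subtype.ext (j.injective (congrArg Subtype.val hxy))
    refine h1.trans_lt ?_
    exact Cardinal.mk_Iio_toType_ord_lt a.1
  · intro t
    obtain ⟨u, hu⟩ := exists_gt (j t)
    obtain ⟨a, ha, hua⟩ := hs u
    exact ⟨⟨a, ha⟩, fun b hb => hu.trans_le (hua.trans hb)⟩

end Pool.Agent.V11228.Selector
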