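import Pool.Agent.V11228.SpecRed

/-!
# The spectral norm of a tensor: the decision problems and the reduction
-/

namespace Pool.Agent.NPC.V11228.Spec

open Finset Pool.Agent.NPC Pool.Agent.NPC.ER Pool.Agent.H78R3.TSV Pool.Agent.NPC.H78TSV
open Pool.Agent.NPC.H670R2

/-- The number `T(x, y, z) = ∑ t_{ijk} x_i y_j z_k`. -/
noncomputable def tri {d : ℕ} (t : Fin d → Fin d → Fin d → ℝ)
    (x y z : EuclideanSpace ℝ (Fin d)) : ℝ := ∑ i, ∑ j, ∑ k, t i j k * x i * y j * z k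

/-- The spectral norm of a real `d × d × d` tensor: the maximum of `|T(x, y, z)|` over all unit
vectors `x`, `y`, `z` (for `d = 0` it is `0`). -/
noncomputable def spectralNorm {d : ℕ} (t : Fin d → Fin d → Fin d → ℝ) : ℝ :=
  sSup {r | ∃ x y z : EuclideanSpace ℝ (Fin d), ‖x‖ = 1 ∧ ‖y‖ = 1 ∧ ‖z‖ = 1 ∧ r = |tri t x y z|}

/-- The decision problem SPECTRAL-NORM-BOUND: the input is a `d × d × d` tensor with rational
entries (a nested list; `d` is its length) and a rational number `σ > 0`; the question is whether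
the spectral norm of the tensor is at most `σ`. -/
def SpectralNormBound (q : List (List (List ℚ)) × ℚ) : Prop :=
  IsCube q.1 ∧ 0 < q.2 ∧
    spectralNorm (fun i j k : Fin q.1.length => ((entry q.1 i j k : ℚ) : ℝ)) ≤ (q.2 : ℝ)

/-- The decision problem SPECTRAL-NORM-EXCEED: is the spectral norm greater than `σ`? -/
def SpectralNormExceed (q : List (List (List ℚ)) × ℚ) : Prop :=
  IsCube q.1 ∧ 0 < q.2 ∧
    (q.2 : ℝ) < spectralNorm (fun i j k : Fin q.1.length => ((entry q.1 i j k : ℚ) : ℝ))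

/-- A version with vectors indexed by all natural numbers. -/
def Exc (d : ℕ) (t : ℕ → ℕ → ℕ → ℝ) (σ : ℝ) : Prop :=
  ∃ x y z : ℕ → ℝ, ∑ i ∈ range d, x i ^ 2 = 1 ∧ ∑ i ∈ range d, y i ^ 2 = 1 ∧
    ∑ i ∈ range d, z i ^ 2 = 1 ∧
    σ < ∑ i ∈ range d, ∑ j ∈ range d, ∑ k ∈ range d, t i j k * x i * y j * z k

theorem abs_le_one_of_norm {d : ℕ} {x : EuclideanSpace ℝ (Fin d)} (hx : ‖x‖ = 1) (i : Fin d) :
    |x i| ≤ 1 := by
  rw [norm_eq_one_iff] at hx
  have h1 : x i ^ 2 ≤ ∑ i, x i ^ 2 :=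
    Finset.single_le_sum (f := fun i => x i ^ 2) (fun i _ => sq_nonneg _) (Finset.mem_univ i)
  rw [hx] at h1
  exact abs_le_one_iff_mul_self_le_one.2 (by rw [← sq]; exact h1)

theorem bdd {d : ℕ} (t : Fin d → Fin d → Fin d → ℝ) : BddAbove {r |
    ∃ x y z : EuclideanSpace ℝ (Fin d), ‖x‖ = 1 ∧ ‖y‖ = 1 ∧ ‖z‖ = 1 ∧ r = |tri t x y z|} := by
  refine ⟨∑ i, ∑ j, ∑ k, |t i j k|, ?_⟩
  rintro r ⟨x, y, z, hx, hy, hz, rfl⟩
  unfold tri
  refine (Finset.abs_sum_le_sum_abs _ _).trans (Finset.sum_le_sum fun i _ => ?_)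
  refine (Finset.abs_sum_le_sum_abs _ _).trans (Finset.sum_le_sum fun j _ => ?_)
  refine (Finset.abs_sum_le_sum_abs _ _).trans (Finset.sum_le_sum fun k _ => ?_)
  rw [abs_mul, abs_mul, abs_mul]
  have h1 := abs_le_one_of_norm hx i
  have h2 := abs_le_one_of_norm hy j
  have h3 := abs_le_one_of_norm hz k
  have h4 := abs_nonneg (t i j k)
  calc |t i j k| * |x i| * |y j| * |z k| ≤ |t i j k| * 1 * 1 * 1 := by gcongr
    _ = |t i j k| := by ring

theorem exceed_iff {d : ℕ} (t : ℕ → ℕ → ℕ → ℝ) {σ : ℝ} (hσ : 0 < σ) :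
    σ < spectralNorm (fun i j k : Fin d => t i j k) ↔ Exc d t σ := by
  constructor
  · intro h
    have hne : {r | ∃ x y z : EuclideanSpace ℝ (Fin d), ‖x‖ = 1 ∧ ‖y‖ = 1 ∧ ‖z‖ = 1 ∧
        r = |tri (fun i j k : Fin d => t i j k) x y z|}.Nonempty := by
      by_contra hemp
      rw [Set.not_nonempty_iff_eq_empty] at hemp
      unfold spectralNorm at h
      rw [hemp, Real.sSup_empty] at h
      linarith
    obtain ⟨r, ⟨x, y, z, hx, hy, hz, rfl⟩, hr⟩ := exists_lt_of_lt_csSup hne h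
    rw [norm_eq_one_iff] at hx hy hz
    obtain ⟨s, hs2, hs⟩ : ∃ s : ℝ, s ^ 2 = 1 ∧
        s * tri (fun i j k : Fin d => t i j k) x y z =
          |tri (fun i j k : Fin d => t i j k) x y z| := by
      rcases abs_cases (tri (fun i j k : Fin d => t i j k) x y z) with h | h
      · exact ⟨1, by norm_num, by rw [h.1, one_mul]⟩
      · exact ⟨-1, by norm_num, by rw [h.1, neg_one_mul]⟩
    let X : ℕ → ℝ := fun i => if h : i < d then s * x ⟨i, h⟩ else 0
    let Y : ℕ → ℝ := fun i => if h : i < d then y ⟨i, h⟩ else 0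
    let Z : ℕ → ℝ := fun i => if h : i < d then z ⟨i, h⟩ else 0
    have eX : ∀ i : Fin d, X i = s * x i := fun i => by simp [X]
    have eY : ∀ i : Fin d, Y i = y i := fun i => by simp [Y]
    have eZ : ∀ i : Fin d, Z i = z i := fun i => by simp [Z]
    refine ⟨X, Y, Z, ?_, ?_, ?_, ?_⟩
    · rw [← Fin.sum_univ_eq_sum_range (fun i => X i ^ 2)]
      simp_rw [eX, mul_pow, hs2, one_mul]
      exact hx
    · rw [← Fin.sum_univ_eq_sum_range (fun i => Y i ^ 2)]; simpa only [eY] using hy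
    · rw [← Fin.sum_univ_eq_sum_range (fun i => Z i ^ 2)]; simpa only [eZ] using hz
    · rw [← hs] at hr
      refine lt_of_lt_of_eq hr ?_
      rw [← Fin.sum_univ_eq_sum_range (fun i => ∑ j ∈ range d, ∑ k ∈ range d,
        t i j k * X i * Y j * Z k)]
      simp_rw [← Fin.sum_univ_eq_sum_range (fun j => ∑ k ∈ range d, t _ j k * X _ * Y j * Z k),
        ← Fin.sum_univ_eq_sum_range (fun k => t _ _ k * X _ * Y _ * Z k), eX, eY, eZ]
      unfold tri
      simp_rw [Finset.mul_sum]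
      refine Finset.sum_congr rfl fun i _ => Finset.sum_congr rfl fun j _ =>
        Finset.sum_congr rfl fun k _ => ?_
      ring
  · rintro ⟨x, y, z, hx, hy, hz, h⟩
    refine lt_of_lt_of_le h (le_trans (le_abs_self _) (le_csSup (bdd _) ?_))
    refine ⟨WithLp.toLp 2 fun i => x i, WithLp.toLp 2 fun i => y i, WithLp.toLp 2 fun i => z i,
      ?_, ?_, ?_, ?_⟩
    · rw [norm_eq_one_iff, ← hx]
      exact Fin.sum_univ_eq_sum_range (fun i => x i ^ 2) d
    · rw [norm_eq_one_iff, ← hy]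
      exact Fin.sum_univ_eq_sum_range (fun i => y i ^ 2) d
    · rw [norm_eq_one_iff, ← hz]
      exact Fin.sum_univ_eq_sum_range (fun i => z i ^ 2) d
    · congr 1
      rw [← Fin.sum_univ_eq_sum_range (fun i => ∑ j ∈ range d, ∑ k ∈ range d,
        t i j k * x i * y j * z k)]
      simp_rw [← Fin.sum_univ_eq_sum_range (fun j => ∑ k ∈ range d, t _ j k * x _ * y j * z k),
        ← Fin.sum_univ_eq_sum_range (fun k => t _ _ k * x _ * y _ * z k)]
      rfl

theorem exc_congr {d : ℕ} {t t' : ℕ → ℕ → ℕ → ℝ} {σ : ℝ}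
    (h : ∀ i < d, ∀ j < d, ∀ k < d, t i j k = t' i j k) : Exc d t σ ↔ Exc d t' σ := by
  unfold Exc
  have key : ∀ x y z : ℕ → ℝ,
      ∑ i ∈ range d, ∑ j ∈ range d, ∑ k ∈ range d, t i j k * x i * y j * z k =
      ∑ i ∈ range d, ∑ j ∈ range d, ∑ k ∈ range d, t' i j k * x i * y j * z k := fun x y z =>
    Finset.sum_congr rfl fun i hi => Finset.sum_congr rfl fun j hj =>
      Finset.sum_congr rfl fun k hk => by
        rw [h i (Finset.mem_range.1 hi) j (Finset.mem_range.1 hj) k (Finset.mem_range.1 hk)]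
  simp_rw [key]

/-- The spectral norm of the tensor of a list of forms. -/
theorem exc_ten {d : ℕ} {L : List (List QT)} (hL : ∀ f ∈ L, FOk d f) (hd : L.length ≤ d)
    {σ : ℝ} (hσ : 0 < σ) :
    Exc d (fun i j k => (ten L i j k : ℝ)) σ ↔
      ∃ x y : ℕ → ℝ, ∑ i ∈ range d, x i ^ 2 = 1 ∧ ∑ i ∈ range d, y i ^ 2 = 1 ∧
        σ ^ 2 < S x y x y L := by
  have hFd : ∀ k, FOk d (L.getD k []) := fun k => fok_getD hL k
  have key : ∀ x y z : ℕ → ℝ,
      ∑ i ∈ range d, ∑ j ∈ range d, ∑ k ∈ range d, (ten L i j k : ℝ) * x i * y j * z k =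
      ∑ k ∈ range d, fev x y (L.getD k []) * z k := by
    intro x y z
    have h1 : ∀ k, fev x y (L.getD k []) * z k = ∑ i ∈ range d, ∑ j ∈ range d,
        (ten L i j k : ℝ) * x i * y j * z k := by
      intro k
      rw [← sum_cf d _ (hFd k), Finset.sum_mul]
      refine Finset.sum_congr rfl fun i _ => ?_
      rw [Finset.sum_mul]
      rfl
    simp_rw [h1]
    conv_rhs => rw [Finset.sum_comm]
    refine Finset.sum_congr rfl fun i _ => ?_
    rw [Finset.sum_comm]
  have key2 : ∀ x y : ℕ → ℝ, ∑ k ∈ range d, fev x y (L.getD k []) ^ 2 = S x y x y L := by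
    intro x y
    unfold S
    rw [← sum_getD L hd (fun f => fev x y f * fev x y f) (by simp)]
    exact Finset.sum_congr rfl fun k _ => sq _
  constructor
  · rintro ⟨x, y, z, hx, hy, hz, h⟩
    refine ⟨x, y, hx, hy, ?_⟩
    rw [key] at h
    have h1 := Finset.sum_mul_sq_le_sq_mul_sq (range d) (fun k => fev x y (L.getD k [])) z
    rw [key2, hz, mul_one] at h1
    have h2 : σ ^ 2 < (∑ k ∈ range d, fev x y (L.getD k []) * z k) ^ 2 :=
      pow_lt_pow_left₀ h hσ.le two_ne_zero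
    linarith
  · rintro ⟨x, y, hx, hy, h⟩
    have hs : 0 < S x y x y L := lt_of_le_of_lt (sq_nonneg σ) h
    set s := S x y x y L with hs'
    have hr : Real.sqrt s ^ 2 = s := Real.sq_sqrt hs.le
    have hr0 : 0 < Real.sqrt s := Real.sqrt_pos.2 hs
    refine ⟨x, y, fun k => fev x y (L.getD k []) / Real.sqrt s, hx, hy, ?_, ?_⟩
    · simp_rw [div_pow, hr]
      rw [← Finset.sum_div, key2, ← hs', div_self hs.ne']
    · rw [key]
      have h1 : ∀ k, fev x y (L.getD k []) * (fev x y (L.getD k []) / Real.sqrt s) =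
          fev x y (L.getD k []) ^ 2 / Real.sqrt s := fun k => by ring
      simp_rw [h1]
      rw [← Finset.sum_div, key2, ← hs']
      have h2 : s / Real.sqrt s = Real.sqrt s := by
        rw [div_eq_iff hr0.ne', ← sq, hr]
      rw [h2]
      exact Real.lt_sqrt_of_sq_lt h

/-! ### The instance -/

/-- The forms. -/
def sforms (T : List ER.Con) : List (List QT) := forms (sn T) (sys T) ++ [[(1, ti T, ti T)]]

/-- The dimension of the tensor. -/
def sdim (T : List ER.Con) : ℕ := sn T + (sforms T).length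

/-- The instance of a system. -/
def sinst (S : List ER.Con) : List (List (List ℚ)) × ℚ :=
  (tenL (sdim (bsys S)) (sforms (bsys S)), (((48 * (sys (bsys S)).length : ℕ) : ℤ) : ℚ))

theorem fok_sforms (T : List ER.Con) : ∀ f ∈ sforms T, FOk (sn T) f := by
  intro f hf
  unfold sforms at hf
  rw [List.mem_append] at hf
  rcases hf with hf | hf
  · exact fok_forms (sys_ok T) f hf
  · rw [List.mem_singleton] at hf
    subst hf
    intro t ht
    rw [List.mem_singleton] at ht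
    subst ht
    exact ⟨ti_lt T, ti_lt T⟩

theorem S_sforms (T : List ER.Con) (x y : ℕ → ℝ) : S x y x y (sforms T) =
    1152 * ((sys T).length : ℝ) ^ 2 * ((∑ i ∈ range (sn T), x i ^ 2) *
      (∑ i ∈ range (sn T), y i ^ 2) + (∑ i ∈ range (sn T), x i * y i) ^ 2) -
      ((sys T).length : ℝ) * ((sys T).map fun g => gev x y g * gev x y g).sum +
      4 * (x (ti T) * y (ti T)) ^ 2 := by
  unfold sforms
  rw [S_append, S_forms x y x y _ _ (sys_ok T), sum_bev]
  simp only [S_cons, S_nil, fev_cons, fev_nil, tev, bev]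
  have e1 : ∑ i ∈ range (sn T), x i * x i = ∑ i ∈ range (sn T), x i ^ 2 := by simp only [sq]
  have e2 : ∑ i ∈ range (sn T), y i * y i = ∑ i ∈ range (sn T), y i ^ 2 := by simp only [sq]
  have e3 : ∑ i ∈ range (sn T), y i * x i = ∑ i ∈ range (sn T), x i * y i :=
    Finset.sum_congr rfl (fun i _ => mul_comm _ _)
  rw [e1, e2, e3]
  push_cast
  ring

theorem gev_congr {n : ℕ} {g : QC} (hg : GOk n g) {x y x' y' : ℕ → ℝ}
    (hx : ∀ i < n, x i = x' i) (hy : ∀ i < n, y i = y' i) : gev x y g = gev x' y' g := by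
  obtain ⟨⟨a1, a2, a3⟩, ⟨b1, b2, b3⟩, ⟨c1, c2, c3⟩⟩ := hg
  unfold gev tev bev
  rw [hx _ a2, hx _ a3, hx _ b2, hx _ b3, hx _ c2, hx _ c3, hy _ a2, hy _ a3, hy _ b2, hy _ b3,
    hy _ c2, hy _ c3]

/-- The main equivalence for a system with bounded variables. -/
theorem main (T : List ER.Con) :
    ((∃ x y : ℕ → ℝ, ∑ i ∈ range (sdim T), x i ^ 2 = 1 ∧ ∑ i ∈ range (sdim T), y i ^ 2 = 1 ∧
        (48 * ((sys T).length : ℝ)) ^ 2 < S x y x y (sforms T)) →
      ∃ w', ∀ c ∈ T, c.HoldsC (1 / 8) w') ∧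
    ((∃ w : ℕ → ℝ, (∀ i, |w i| ≤ 1 / 8) ∧ ∀ c ∈ T, c.HoldsC (1 / 8) w) →
      ∃ x y : ℕ → ℝ, ∑ i ∈ range (sdim T), x i ^ 2 = 1 ∧ ∑ i ∈ range (sdim T), y i ^ 2 = 1 ∧
        (48 * ((sys T).length : ℝ)) ^ 2 < S x y x y (sforms T)) := by
  have hm4 : (4 : ℝ) ≤ ((sys T).length : ℝ) := by exact_mod_cast length_sys T
  obtain ⟨m, hm⟩ : ∃ m : ℝ, m = ((sys T).length : ℝ) := ⟨_, rfl⟩
  rw [← hm] at hm4
  have hnd : sn T ≤ sdim T := by unfold sdim; omega
  have hsub : range (sn T) ⊆ range (sdim T) := Finset.range_subset_range.2 hnd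
  constructor
  · rintro ⟨x, y, hx, hy, h⟩
    rw [S_sforms, ← hm] at h
    apply sound (x := x) (y := y)
    obtain ⟨a, ha⟩ : ∃ a, a = ∑ i ∈ range (sn T), x i ^ 2 := ⟨_, rfl⟩
    obtain ⟨b, hb⟩ : ∃ b, b = ∑ i ∈ range (sn T), y i ^ 2 := ⟨_, rfl⟩
    obtain ⟨c, hc⟩ : ∃ c, c = ∑ i ∈ range (sn T), x i * y i := ⟨_, rfl⟩
    obtain ⟨Q, hQ⟩ : ∃ Q, Q = ((sys T).map fun g => gev x y g * gev x y g).sum := ⟨_, rfl⟩
    obtain ⟨u, hu⟩ : ∃ u, u = (x (ti T) * y (ti T)) ^ 2 := ⟨_, rfl⟩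
    rw [← ha, ← hb, ← hc, ← hQ, ← hu] at h ⊢
    have ha1 : a ≤ 1 := by
      rw [ha, ← hx]
      exact Finset.sum_le_sum_of_subset_of_nonneg hsub (fun _ _ _ => sq_nonneg _)
    have hb1 : b ≤ 1 := by
      rw [hb, ← hy]
      exact Finset.sum_le_sum_of_subset_of_nonneg hsub (fun _ _ _ => sq_nonneg _)
    have ha0 : 0 ≤ a := by rw [ha]; exact Finset.sum_nonneg (fun _ _ => sq_nonneg _)
    have hb0 : 0 ≤ b := by rw [hb]; exact Finset.sum_nonneg (fun _ _ => sq_nonneg _)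
    have hcs : c ^ 2 ≤ a * b := by
      rw [ha, hb, hc]
      exact Finset.sum_mul_sq_le_sq_mul_sq _ x y
    have hab : a * b ≤ 1 := by nlinarith
    have hQ0 : 0 ≤ Q := by
      rw [hQ]
      refine List.sum_nonneg fun r hr => ?_
      obtain ⟨g, _, rfl⟩ := List.mem_map.1 hr
      exact mul_self_nonneg _
    have hm0 : 0 < m := by linarith
    have h1 : 2304 * m ^ 2 * (a * b) ≤ 2304 * m ^ 2 := by
      have : 0 ≤ 2304 * m ^ 2 := by positivity
      nlinarith
    have h2 : 1152 * m ^ 2 * (a * b - c ^ 2) + m * Q < 4 * u := by nlinarith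
    have h3 : 4 * (a * b - c ^ 2) ≤ 1152 * m ^ 2 * (a * b - c ^ 2) := by
      apply mul_le_mul_of_nonneg_right _ (by linarith)
      nlinarith
    have h4 : 4 * Q ≤ m * Q := mul_le_mul_of_nonneg_right hm4 hQ0
    linarith
  · rintro ⟨w, hw, hc⟩
    obtain ⟨x₀, h0, hg₀⟩ := complete hw hc
    obtain ⟨s, hs⟩ : ∃ s, s = ∑ i ∈ range (sn T), x₀ i ^ 2 := ⟨_, rfl⟩
    have hs1 : 1 ≤ s := by
      have h1 : x₀ (ti T) ^ 2 ≤ ∑ i ∈ range (sn T), x₀ i ^ 2 :=
        Finset.single_le_sum (f := fun i => x₀ i ^ 2) (fun i _ => sq_nonneg (x₀ i))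
          (Finset.mem_range.2 (ti_lt T))
      rw [h0] at h1
      rw [hs]
      linarith
    have hs0 : 0 < s := by linarith
    have hr : Real.sqrt s ^ 2 = s := Real.sq_sqrt hs0.le
    have hr0 : 0 < Real.sqrt s := Real.sqrt_pos.2 hs0
    let x : ℕ → ℝ := fun i => if i < sn T then x₀ i / Real.sqrt s else 0
    have hxn : ∀ i < sn T, x i = x₀ i / Real.sqrt s := fun i hi => by simp [x, hi]
    have hxo : ∀ i, sn T ≤ i → x i = 0 := fun i hi => by simp [x, not_lt.2 hi]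
    have hx : ∑ i ∈ range (sn T), x i ^ 2 = 1 := by
      rw [Finset.sum_congr rfl (fun i hi => by
        rw [hxn i (Finset.mem_range.1 hi), div_pow, hr])]
      rw [← Finset.sum_div, ← hs, div_self hs0.ne']
    have hxd : ∑ i ∈ range (sdim T), x i ^ 2 = 1 := by
      rw [← hx]
      symm
      apply Finset.sum_subset hsub
      intro i _ hi
      rw [hxo i (not_lt.1 (fun h => hi (Finset.mem_range.2 h)))]
      norm_num
    have hg : ∀ g ∈ sys T, gev x x g = 0 := by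
      intro g hg
      rw [gev_congr (sys_ok T g hg) (x' := fun i => x₀ i / Real.sqrt s)
        (y' := fun i => x₀ i / Real.sqrt s) hxn hxn]
      have h1 : gev (fun i => x₀ i / Real.sqrt s) (fun i => x₀ i / Real.sqrt s) g =
          gev x₀ x₀ g / (Real.sqrt s * Real.sqrt s) := by
        unfold gev tev bev
        field_simp
      rw [h1, hg₀ g hg, zero_div]
    refine ⟨x, x, hxd, hxd, ?_⟩
    rw [S_sforms, ← hm]
    have hsum : ((sys T).map fun g => gev x x g * gev x x g).sum = 0 := by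
      apply List.sum_eq_zero
      intro r hr
      obtain ⟨g, hg', rfl⟩ := List.mem_map.1 hr
      rw [hg g hg', zero_mul]
    have hxx : ∑ i ∈ range (sn T), x i * x i = 1 := by rw [← hx]; simp only [sq]
    rw [hsum, hx, hxx, hxn _ (ti_lt T), h0]
    have hpos : 0 < 1 / Real.sqrt s * (1 / Real.sqrt s) := by positivity
    nlinarith [pow_pos hpos 2]

theorem rpos (S : List ER.Con) : (0 : ℚ) < (((48 * (sys (bsys S)).length : ℕ) : ℤ) : ℚ) := by
  have := length_sys (bsys S)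
  exact_mod_cast (by omega : 0 < 48 * (sys (bsys S)).length)

theorem exceed_tenL (d : ℕ) (L : List (List QT)) (q : ℚ) (hq : 0 < q) :
    (q : ℝ) < spectralNorm (fun i j k : Fin (tenL d L).length =>
      ((entry (tenL d L) i j k : ℚ) : ℝ)) ↔ Exc d (fun i j k => (ten L i j k : ℝ)) (q : ℝ) := by
  rw [exceed_iff (fun i j k => ((entry (tenL d L) i j k : ℚ) : ℝ)) (by exact_mod_cast hq)]
  have h3 : (tenL d L).length = d := length_tenL _ _
  rw [h3]
  exact exc_congr fun i hi j hj k hk => by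
    rw [entry_tenL hi hj hk]
    push_cast
    rfl

/-- **Correctness of the reduction.** -/
theorem sat_iff (S : List ER.Con) : Sat S ↔ Exc (sdim (bsys S))
    (fun i j k => (ten (sforms (bsys S)) i j k : ℝ)) (48 * ((sys (bsys S)).length : ℝ)) := by
  have hm4 : (4 : ℝ) ≤ ((sys (bsys S)).length : ℝ) := by exact_mod_cast length_sys (bsys S)
  have hnd : sn (bsys S) ≤ sdim (bsys S) := by unfold sdim; omega
  rw [exc_ten (fun f hf t ht => ⟨(fok_sforms _ f hf t ht).1.trans_le hnd,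
    (fok_sforms _ f hf t ht).2.trans_le hnd⟩) (by unfold sdim; omega) (by linarith)]
  constructor
  · intro h
    exact (main (bsys S)).2 (bsys_of_sat h)
  · intro h
    obtain ⟨w', hw'⟩ := (main (bsys S)).1 h
    exact sat_of_bsys hw'

theorem cast_lem (m : ℕ) : (((((48 * m : ℕ) : ℤ) : ℚ)) : ℝ) = 48 * (m : ℝ) := by
  push_cast
  ring

theorem exceed_pair (d : ℕ) (L : List (List QT)) (m : ℕ) (hm : 0 < m) :
    SpectralNormExceed (tenL d L, (((48 * m : ℕ) : ℤ) : ℚ)) ↔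
      Exc d (fun i j k => (ten L i j k : ℝ)) (48 * (m : ℝ)) := by
  have hq : (0 : ℚ) < (((48 * m : ℕ) : ℤ) : ℚ) := by exact_mod_cast (by omega : 0 < 48 * m)
  unfold SpectralNormExceed
  rw [exceed_tenL _ _ _ hq, cast_lem]
  exact ⟨fun h => h.2.2, fun h => ⟨isCube_tenL _ _, hq, h⟩⟩

theorem sys_pos (T : List ER.Con) : 0 < (sys T).length := by
  have := length_sys T
  omega

theorem sat_iff_exceed (S : List ER.Con) : Sat S ↔ SpectralNormExceed (sinst S) :=
  (sat_iff S).trans (exceed_pair (sdim (bsys S)) (sforms (bsys S)) _ (sys_pos (bsys S))).symm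

theorem exceed_iff_not_bound {q : List (List (List ℚ)) × ℚ} (h1 : IsCube q.1) (h2 : 0 < q.2) :
    SpectralNormExceed q ↔ ¬ SpectralNormBound q := by
  unfold SpectralNormExceed SpectralNormBound
  constructor
  · rintro ⟨-, -, h⟩ ⟨-, -, h'⟩
    exact absurd h (not_lt.2 h')
  · intro h
    refine ⟨h1, h2, ?_⟩
    by_contra h'
    exact h ⟨h1, h2, not_lt.1 h'⟩

theorem pair_cube (d : ℕ) (L : List (List QT)) (q : ℚ) : IsCube (tenL d L, q).1 :=
  isCube_tenL _ _

theorem sinst_cube (S : List ER.Con) : IsCube (sinst S).1 :=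
  pair_cube (sdim (bsys S)) (sforms (bsys S)) _

theorem pair_pos (t : List (List (List ℚ))) (q : ℚ) (h : 0 < q) : 0 < (t, q).2 := h

theorem sinst_pos (S : List ER.Con) : 0 < (sinst S).2 :=
  pair_pos (tenL (sdim (bsys S)) (sforms (bsys S))) _ (rpos S)

theorem sat_iff_not_bound (S : List ER.Con) : Sat S ↔ ¬ SpectralNormBound (sinst S) :=
  (sat_iff_exceed S).trans (exceed_iff_not_bound (sinst_cube S) (sinst_pos S))

end Pool.Agent.NPC.V11228.Spec
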