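import Pool.Agent.V11228.Spec

/-!
# The spectral norm of a tensor: polynomial time and membership
-/

namespace Pool.Agent.NPC.V11228.Spec

open Finset Pool.Agent.NPC Pool.Agent.NPC.ER Pool.Agent.H78R3.TSV Pool.Agent.NPC.H78TSV
open Pool.Agent.NPC.H670R2

section

variable {α : Type} [TEnc α]

theorem upoly_gapK {T : α → List ER.Con} (hT : Poly T) : UPoly (fun a => gapK (T a).length) :=
  UPoly.add (UPoly.mul (UPoly.const 11) (UPoly.length hT)) (UPoly.const 7)

theorem upoly_ti {T : α → List ER.Con} (hT : Poly T) : UPoly (fun a => ti (T a)) :=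
  UPoly.add (UPoly.mul (UPoly.const 2) (UPoly.length (poly_svars hT))) (UPoly.const 1)

theorem upoly_sn {T : α → List ER.Con} (hT : Poly T) : UPoly (fun a => sn (T a)) :=
  UPoly.add (UPoly.add (upoly_ti hT) (UPoly.const 1)) (upoly_gapK hT)

theorem poly_ci {T : α → List ER.Con} {j : α → ℕ} (hT : Poly T) (hj : Poly j) :
    Poly (fun a => ci (T a) (j a)) :=
  Poly.ite (Poly.decide_eq hj (upoly_gapK hT).toPoly) (Poly.const 0)
    (Poly.add (Poly.add (upoly_ti hT).toPoly (Poly.const 1)) hj)

theorem poly_sl {N r : α → ℕ} (hN : Poly N) (hr : Poly r) :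
    Poly (fun a => sl (N a) (r a)) := by
  have h1 := Poly.succ hr
  have h2 : Poly (fun a => N a + 1 + r a) := Poly.add (Poly.succ hN) hr
  exact Poly.pair (Poly.pair (Poly.const 4) (Poly.pair h1 h1))
    (Poly.pair (Poly.pair (Poly.const 4) (Poly.pair h2 h2)) (Poly.const _))

theorem poly_ch0 {a' t : α → ℕ} (ha : Poly a') (ht : Poly t) :
    Poly (fun a => ch0 (a' a) (t a)) :=
  Poly.pair (Poly.pair (Poly.const 1) (Poly.pair ha ht))
    (Poly.pair (Poly.pair (Poly.const (-8)) (Poly.pair ht ht)) (Poly.const _))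

theorem poly_chS {a' b t : α → ℕ} (ha : Poly a') (hb : Poly b) (ht : Poly t) :
    Poly (fun a => chS (a' a) (b a) (t a)) :=
  Poly.pair (Poly.pair (Poly.const 1) (Poly.pair hb ht))
    (Poly.pair (Poly.pair (Poly.const (-1)) (Poly.pair ha ha)) (Poly.const _))

theorem poly_sys {T : α → List ER.Con} (hT : Poly T) : Poly (fun a => sys (T a)) := by
  have hV := poly_svars hT
  have hT2 : Poly (fun p : α × ℕ => T p.1) := hT.comp (Poly.fst Poly.id)
  refine Poly.append ?_ (Poly.append ?_ (Poly.cons ?_ ?_))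
  · exact Poly.map (F := fun a c => hcon (svars (T a)) c) hT
      (poly_hcon (hV.comp (Poly.fst Poly.id)) (Poly.snd Poly.id))
  · refine Poly.map (F := fun a r => sl (svars (T a)).length r) (UPoly.length hV).range ?_
    exact poly_sl ((Poly.length hV).comp (Poly.fst Poly.id)) (Poly.snd Poly.id)
  · exact poly_ch0 (poly_ci hT (Poly.const 0)) (upoly_ti hT).toPoly
  · refine Poly.map (F := fun a j => chS (ci (T a) j) (ci (T a) (j + 1)) (ti (T a)))
      (upoly_gapK hT).range ?_
    exact poly_chS (poly_ci hT2 (Poly.snd Poly.id)) (poly_ci hT2 (Poly.succ (Poly.snd Poly.id)))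
      (upoly_ti hT2).toPoly

theorem poly_sforms {T : α → List ER.Con} (hT : Poly T) : Poly (fun a => sforms (T a)) := by
  refine Poly.append (poly_forms (upoly_sn hT) (poly_sys hT)) ?_
  have ht := (upoly_ti hT).toPoly
  exact Poly.cons (Poly.cons (Poly.pair (Poly.const 1) (Poly.pair ht ht)) (Poly.const []))
    (Poly.const [])

theorem poly_sinst {S : α → List ER.Con} (hS : Poly S) : Poly (fun a => sinst (S a)) := by
  have hT := poly_bsys hS
  have hF := poly_sforms hT
  refine Poly.pair (poly_tenL (UPoly.add (upoly_sn hT) (UPoly.length hF)) hF) ?_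
  exact poly_intToRat (Poly.natCast (Poly.mul (Poly.const 48) (Poly.length (poly_sys hT))))

end

/-- SPECTRAL-NORM-EXCEED is `∃ℝ`-hard. -/
theorem exceed_hard : ERHard (lang SpectralNormExceed) :=
  ERHard.of_sys (poly_sinst Poly.id) sat_iff_exceed

/-- SPECTRAL-NORM-BOUND is `∀ℝ`-hard. -/
theorem bound_hard : ARHard (lang SpectralNormBound) :=
  ARHard.of_sys (poly_sinst Poly.id) sat_iff_not_bound

/-! ### Membership -/

/-- The trilinear form. -/
def triT (d : ℕ) : Tm :=
  sumTm ((List.range d).flatMap fun i => (List.range d).flatMap fun j => (List.range d).map fun k =>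
    Tm.mul (Tm.mul (Tm.mul (Tm.var (vw d i j k)) (Tm.var (4 * i))) (Tm.var (4 * j + 1)))
      (Tm.var (4 * k + 2)))

/-- The list of the formulas. -/
def eAll (q : List (List (List ℚ)) × ℚ) : List Fm :=
  fU q.1.length 0 :: fU q.1.length 1 :: fU q.1.length 2 ::
    eqRat (Tm.var (vs q.1.length)) q.2 ::
    Fm.lt (Tm.var (vs q.1.length)) (triT q.1.length) :: fEnt q.1

/-- The formula of SPECTRAL-NORM-EXCEED. -/
def fExc (q : List (List (List ℚ)) × ℚ) : Fm :=
  bif isCubeB q.1 && isPosB q.2 then conj (eAll q) else H670R2.ff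

/-- The formula of the complement of SPECTRAL-NORM-BOUND. -/
def fNotBd (q : List (List (List ℚ)) × ℚ) : Fm :=
  bif isCubeB q.1 && isPosB q.2 then conj (eAll q) else H612.tt

theorem sum_flatMap2 (n : ℕ) (l : List ℕ) (F : ℕ → List Tm) (v : ℕ → ℝ) :
    ((l.flatMap F).map (Tm.eval v)).sum = (l.map fun i => ((F i).map (Tm.eval v)).sum).sum := by
  induction l with
  | nil => simp
  | cons a l ih => simp only [List.flatMap_cons, List.map_append, List.sum_append, ih,
      List.map_cons, List.sum_cons]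

theorem eval_triT (d : ℕ) (v : ℕ → ℝ) : (triT d).eval v = ∑ i ∈ range d, ∑ j ∈ range d,
    ∑ k ∈ range d, v (vw d i j k) * v (4 * i) * v (4 * j + 1) * v (4 * k + 2) := by
  unfold triT
  rw [eval_sumTm, sum_flatMap2 d, sum_list_range]
  refine Finset.sum_congr rfl fun i _ => ?_
  rw [sum_flatMap_range, sum_list_range]
  simp only [Tm.eval]

theorem holds_eAll (q : List (List (List ℚ)) × ℚ) (v : ℕ → ℝ) :
    (∀ φ ∈ eAll q, φ.Holds v) ↔ (fU q.1.length 0).Holds v ∧ (fU q.1.length 1).Holds v ∧
      (fU q.1.length 2).Holds v ∧ (eqRat (Tm.var (vs q.1.length)) q.2).Holds v ∧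
      v (vs q.1.length) < (triT q.1.length).eval v ∧ (∀ φ ∈ fEnt q.1, φ.Holds v) := by
  unfold eAll
  simp only [List.forall_mem_cons]
  rfl

theorem etr_eAll (q : List (List (List ℚ)) × ℚ) : ETR (conj (eAll q)) ↔
    Exc q.1.length (fun i j k => ((entry q.1 i j k : ℚ) : ℝ)) (q.2 : ℝ) := by
  unfold ETR
  simp_rw [holds_conj, holds_eAll, holds_fU, holds_fEnt, holds_eqRat, eval_triT]
  set d := q.1.length with hd
  constructor
  · rintro ⟨v, hx, hy, hz, v3, g, v4⟩
    simp only [Tm.eval] at v3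
    refine ⟨fun i => v (4 * i), fun i => v (4 * i + 1), fun i => v (4 * i + 2), hx, hy, hz, ?_⟩
    rw [← v3]
    refine lt_of_lt_of_eq g ?_
    exact Finset.sum_congr rfl fun i hi => Finset.sum_congr rfl fun j hj =>
      Finset.sum_congr rfl fun k hk => by
        rw [v4 i (Finset.mem_range.1 hi) j (Finset.mem_range.1 hj) k (Finset.mem_range.1 hk)]
  · rintro ⟨x, y, z, hx, hy, hz, g⟩
    let v : ℕ → ℝ := fun n => if n % 4 = 0 then x (n / 4) else if n % 4 = 1 then y (n / 4) else
      if n % 4 = 2 then z (n / 4) else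
      if n / 4 = d * d * d then (q.2 : ℝ) else
        ((entry q.1 (n / 4 / d / d) (n / 4 / d % d) (n / 4 % d) : ℚ) : ℝ)
    have v0 : ∀ i, v (4 * i) = x i := by
      intro i
      simp only [v]
      rw [if_pos (by omega)]
      congr 1; omega
    have v0' : ∀ i, v (4 * i + 0) = x i := v0
    have v1 : ∀ i, v (4 * i + 1) = y i := by
      intro i
      simp only [v]
      rw [if_neg (by omega), if_pos (by omega)]
      congr 1; omega
    have v2 : ∀ i, v (4 * i + 2) = z i := by
      intro i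
      simp only [v]
      rw [if_neg (by omega), if_neg (by omega), if_pos (by omega)]
      congr 1; omega
    have v3 : v (vs d) = (q.2 : ℝ) := by
      simp only [v, vs]
      rw [if_neg (by omega), if_neg (by omega), if_neg (by omega), if_pos (by omega)]
    have v4 : ∀ i < d, ∀ j < d, ∀ k < d, v (vw d i j k) = ((entry q.1 i j k : ℚ) : ℝ) := by
      intro i hi j hj k hk
      have e0 : (4 * ((i * d + j) * d + k) + 3) / 4 = (i * d + j) * d + k := by omega
      have hd0 : 0 < d := by omega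
      have e1 : ((i * d + j) * d + k) % d = k := by
        rw [Nat.mul_comm, Nat.mul_add_mod, Nat.mod_eq_of_lt hk]
      have e2 : ((i * d + j) * d + k) / d = i * d + j := by
        rw [Nat.mul_comm, Nat.mul_add_div hd0, Nat.div_eq_of_lt hk, Nat.add_zero]
      have e3 : (i * d + j) % d = j := by
        rw [Nat.mul_comm, Nat.mul_add_mod, Nat.mod_eq_of_lt hj]
      have e4 : (i * d + j) / d = i := by
        rw [Nat.mul_comm, Nat.mul_add_div hd0, Nat.div_eq_of_lt hj, Nat.add_zero]
      have e5 : (i * d + j) * d + k ≠ d * d * d := by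
        have h5 : i * d + j < d * d := by
          calc i * d + j < i * d + d := by omega
            _ = (i + 1) * d := by ring
            _ ≤ d * d := Nat.mul_le_mul_right _ hi
        have h6 : (i * d + j) * d + k < d * d * d := by
          calc (i * d + j) * d + k < (i * d + j) * d + d := by omega
            _ = (i * d + j + 1) * d := by ring
            _ ≤ d * d * d := Nat.mul_le_mul_right _ h5
        omega
      simp only [v, vw]
      rw [if_neg (by omega), if_neg (by omega), if_neg (by omega), e0, if_neg e5, e2, e4, e1, e3]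
    refine ⟨v, ?_, ?_, ?_, v3, ?_, v4⟩
    · simp_rw [v0']; exact hx
    · simp_rw [v1]; exact hy
    · simp_rw [v2]; exact hz
    · rw [v3]
      refine lt_of_lt_of_eq g ?_
      exact Finset.sum_congr rfl fun i hi => Finset.sum_congr rfl fun j hj =>
        Finset.sum_congr rfl fun k hk => by
          rw [v4 i (Finset.mem_range.1 hi) j (Finset.mem_range.1 hj) k (Finset.mem_range.1 hk),
            v0, v1, v2]

theorem valid_iff (q : List (List (List ℚ)) × ℚ) :
    (isCubeB q.1 && isPosB q.2) = true ↔ IsCube q.1 ∧ 0 < q.2 := by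
  rw [Bool.and_eq_true, isCubeB_iff, isPosB_iff]

theorem exceed_iff_etr (q : List (List (List ℚ)) × ℚ) :
    SpectralNormExceed q ↔ ETR (fExc q) := by
  unfold fExc
  by_cases hq : (isCubeB q.1 && isPosB q.2) = true
  · rw [hq, cond_true, etr_eAll]
    obtain ⟨h1, h2⟩ := (valid_iff q).1 hq
    rw [← exceed_iff (fun i j k => ((entry q.1 i j k : ℚ) : ℝ)) (by exact_mod_cast h2)]
    exact ⟨fun h => h.2.2, fun h => ⟨h1, h2, h⟩⟩
  · have hb : (isCubeB q.1 && isPosB q.2) = false := by simpa using hq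
    rw [hb, cond_false]
    constructor
    · rintro ⟨h1, h2, -⟩
      exact absurd ((valid_iff q).2 ⟨h1, h2⟩) hq
    · intro h
      exact absurd h H670R2.not_etr_ff

theorem not_bound_iff_etr (q : List (List (List ℚ)) × ℚ) :
    ¬ SpectralNormBound q ↔ ETR (fNotBd q) := by
  unfold fNotBd
  by_cases hq : (isCubeB q.1 && isPosB q.2) = true
  · obtain ⟨h1, h2⟩ := (valid_iff q).1 hq
    rw [hq, cond_true, etr_eAll, ← exceed_iff_not_bound h1 h2,
      ← exceed_iff (fun i j k => ((entry q.1 i j k : ℚ) : ℝ)) (by exact_mod_cast h2)]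
    exact ⟨fun h => h.2.2, fun h => ⟨h1, h2, h⟩⟩
  · have hb : (isCubeB q.1 && isPosB q.2) = false := by simpa using hq
    rw [hb, cond_false]
    constructor
    · intro _
      exact ⟨fun _ => 0, H612.holds_tt _⟩
    · rintro - ⟨h1, h2, -⟩
      exact hq ((valid_iff q).2 ⟨h1, h2⟩)

section

variable {α : Type} [TEnc α]

theorem poly_triT {d : α → ℕ} (hd : UPoly d) : Poly (fun a => triT (d a)) := by
  have e1 : Poly (fun p : ((α × ℕ) × ℕ) × ℕ => p.1.1.1) :=
    Poly.fst (Poly.fst (Poly.fst Poly.id))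
  have e2 : Poly (fun p : ((α × ℕ) × ℕ) × ℕ => p.1.1.2) :=
    Poly.snd (Poly.fst (Poly.fst Poly.id))
  have e3 : Poly (fun p : ((α × ℕ) × ℕ) × ℕ => p.1.2) := Poly.snd (Poly.fst Poly.id)
  have e4 : Poly (fun p : ((α × ℕ) × ℕ) × ℕ => p.2) := Poly.snd Poly.id
  refine poly_sumTm (Poly.flatMap (F := fun a i => (List.range (d a)).flatMap fun j =>
    (List.range (d a)).map fun k =>
    Tm.mul (Tm.mul (Tm.mul (Tm.var (vw (d a) i j k)) (Tm.var (4 * i))) (Tm.var (4 * j + 1)))
      (Tm.var (4 * k + 2))) hd.range ?_)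
  refine Poly.flatMap (F := fun (p : α × ℕ) j => (List.range (d p.1)).map fun k =>
    Tm.mul (Tm.mul (Tm.mul (Tm.var (vw (d p.1) p.2 j k)) (Tm.var (4 * p.2))) (Tm.var (4 * j + 1)))
      (Tm.var (4 * k + 2))) (hd.range.comp (Poly.fst Poly.id)) ?_
  refine Poly.map (F := fun (p : (α × ℕ) × ℕ) k =>
    Tm.mul (Tm.mul (Tm.mul (Tm.var (vw (d p.1.1) p.1.2 p.2 k)) (Tm.var (4 * p.1.2)))
      (Tm.var (4 * p.2 + 1))) (Tm.var (4 * k + 2))) (hd.range.comp (Poly.fst (Poly.fst Poly.id))) ?_
  exact poly_tmul (poly_tmul (poly_tmul (poly_tvar (poly_vw (hd.toPoly.comp e1) e2 e3 e4))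
    (poly_lin0 e2)) (poly_lin e3 1)) (poly_lin e4 2)

theorem poly_valid : Poly (fun q : List (List (List ℚ)) × ℚ => isCubeB q.1 && isPosB q.2) := by
  have h1 : Poly (fun q : List (List (List ℚ)) × ℚ => q.1) := Poly.fst Poly.id
  have h2 : Poly (fun q : List (List (List ℚ)) × ℚ => q.2) := Poly.snd Poly.id
  have hd : UPoly (fun q : List (List (List ℚ)) × ℚ => q.1.length) := UPoly.length h1
  refine Poly.and ?_ ?_
  · refine Poly.all (p := fun (q : List (List (List ℚ)) × ℚ) a =>
      decide (a.length = q.1.length) && a.all fun b => decide (b.length = q.1.length)) h1 ?_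
    refine Poly.and (Poly.decide_eq (Poly.length (Poly.snd Poly.id))
      (hd.toPoly.comp (Poly.fst Poly.id))) ?_
    refine Poly.all (p := fun (r : (List (List (List ℚ)) × ℚ) × List (List ℚ)) b =>
      decide (b.length = r.1.1.length)) (Poly.snd Poly.id) ?_
    exact Poly.decide_eq (Poly.length (Poly.snd Poly.id))
      (hd.toPoly.comp (Poly.fst (Poly.fst Poly.id)))
  · exact Poly.and (Poly.not (poly_isNeg (poly_ratNum h2)))
      (Poly.not (Poly.decide_eq (poly_natAbs (poly_ratNum h2)) (Poly.const 0)))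

theorem poly_eAll : Poly eAll := by
  have h1 : Poly (fun q : List (List (List ℚ)) × ℚ => q.1) := Poly.fst Poly.id
  have h2 : Poly (fun q : List (List (List ℚ)) × ℚ => q.2) := Poly.snd Poly.id
  have hd : UPoly (fun q : List (List (List ℚ)) × ℚ => q.1.length) := UPoly.length h1
  exact Poly.cons (poly_fU hd 0) (Poly.cons (poly_fU hd 1) (Poly.cons (poly_fU hd 2)
      (Poly.cons (poly_eqRat (poly_tvar (poly_vs hd.toPoly)) h2)
        (Poly.cons (poly_lt (poly_tvar (poly_vs hd.toPoly)) (poly_triT hd)) (poly_fEnt h1)))))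

end

/-- SPECTRAL-NORM-EXCEED belongs to `∃ℝ`. -/
theorem exceed_mem : InER (lang SpectralNormExceed) :=
  ER.InER.of_poly (Poly.cond poly_valid (poly_conj poly_eAll) (Poly.const _)) exceed_iff_etr

/-- SPECTRAL-NORM-BOUND belongs to `∀ℝ`. -/
theorem bound_mem : InAR (lang SpectralNormBound) :=
  ER.InAR.of_poly (Poly.cond poly_valid (poly_conj poly_eAll) (Poly.const _)) not_bound_iff_etr

end Pool.Agent.NPC.V11228.Spec
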