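import Pool.Agent.H78R3.TSV.Mem
import Pool.Agent.ER.GapSys
import Pool.Agent.H612.AR

/-!
# The spectral norm of a tensor: the quadratic system

Homogeneous quadratic equations with a chain of repeated squarings.  A pair of vectors which are
almost parallel and satisfy the equations approximately, the error being measured by the square of
the smallest coordinate, gives an approximate solution of the original system with a doubly
exponentially small error.
-/

namespace Pool.Agent.NPC.V11228.Spec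

open Finset Pool.Agent.NPC Pool.Agent.NPC.ER Pool.Agent.H78R3.TSV

/-- The bound `4 x² + 4 s² = x₀²`. -/
def sl (N r : ℕ) : QC := ((4, r + 1, r + 1), (4, N + 1 + r, N + 1 + r), (-1, 0, 0))

/-- The index of the small coordinate. -/
def ti (T : List ER.Con) : ℕ := 2 * (svars T).length + 1

/-- The indices of the coordinates of the chain. -/
def ci (T : List ER.Con) (j : ℕ) : ℕ := if j = gapK T.length then 0 else ti T + 1 + j

/-- The start `a t = 8 t²` of the chain. -/
def ch0 (a t : ℕ) : QC := ((1, a, t), (-8, t, t), (0, 0, 0))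

/-- The step `b t = a²` of the chain. -/
def chS (a b t : ℕ) : QC := ((1, b, t), (-1, a, a), (0, 0, 0))

/-- The quadratic system. -/
def sys (T : List ER.Con) : List QC :=
  T.map (hcon (svars T)) ++ ((List.range (svars T).length).map (sl (svars T).length) ++
    (ch0 (ci T 0) (ti T) ::
      (List.range (gapK T.length)).map fun j => chS (ci T j) (ci T (j + 1)) (ti T)))

/-- The number of coordinates. -/
def sn (T : List ER.Con) : ℕ := ti T + 1 + gapK T.length

theorem gapK_pos (m : ℕ) : 7 ≤ gapK m := by unfold gapK; omega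

theorem ti_lt (T : List ER.Con) : ti T < sn T := by unfold sn; omega

theorem ci_lt (T : List ER.Con) {j : ℕ} (hj : j ≤ gapK T.length) : ci T j < sn T := by
  unfold ci sn
  split_ifs <;> omega

theorem ix_lt' {T : List ER.Con} {i : ℕ} (hi : i ∈ svars T) :
    ix (svars T) i < (svars T).length + 1 := by
  unfold ix
  have := List.idxOf_lt_length_of_mem hi
  omega

theorem sys_ok (T : List ER.Con) : ∀ g ∈ sys T, GOk (sn T) g := by
  intro g hg
  unfold sys at hg
  rw [List.mem_append, List.mem_append, List.mem_cons, List.mem_map, List.mem_map,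
    List.mem_map] at hg
  have ht := ti_lt T
  have h0 : 0 < sn T := by omega
  have hsn : 2 * (svars T).length + 1 < sn T := ht
  rcases hg with ⟨c, hc, rfl⟩ | ⟨r, hr, rfl⟩ | rfl | ⟨j, hj, rfl⟩
  · cases c with
    | one i =>
      have h1 := ix_lt hc (i := i) (by simp [Con.vars])
      refine ⟨⟨by simp [hcon], ?_, ?_⟩, ⟨by simp [hcon], ?_, ?_⟩, ⟨by simp [hcon], ?_, ?_⟩⟩ <;>
        simp only [hcon] <;> omega
    | add i j k =>
      have h1 := ix_lt hc (i := i) (by simp [Con.vars])
      have h2 := ix_lt hc (i := j) (by simp [Con.vars])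
      have h3 := ix_lt hc (i := k) (by simp [Con.vars])
      refine ⟨⟨by simp [hcon], ?_, ?_⟩, ⟨by simp [hcon], ?_, ?_⟩, ⟨by simp [hcon], ?_, ?_⟩⟩ <;>
        simp only [hcon] <;> omega
    | mul i j k =>
      have h1 := ix_lt hc (i := i) (by simp [Con.vars])
      have h2 := ix_lt hc (i := j) (by simp [Con.vars])
      have h3 := ix_lt hc (i := k) (by simp [Con.vars])
      refine ⟨⟨by simp [hcon], ?_, ?_⟩, ⟨by simp [hcon], ?_, ?_⟩, ⟨by simp [hcon], ?_, ?_⟩⟩ <;>
        simp only [hcon] <;> omega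
  · have := List.mem_range.1 hr
    refine ⟨⟨by simp [sl], ?_, ?_⟩, ⟨by simp [sl], ?_, ?_⟩, ⟨by simp [sl], ?_, ?_⟩⟩ <;>
        simp only [sl] <;> omega
  · have h1 := ci_lt T (Nat.zero_le (gapK T.length))
    refine ⟨⟨by simp [ch0], ?_, ?_⟩, ⟨by simp [ch0], ?_, ?_⟩, ⟨by simp [ch0], ?_, ?_⟩⟩ <;>
        simp only [ch0] <;> omega
  · have hj' := List.mem_range.1 hj
    have h1 := ci_lt T hj'.le
    have h2 := ci_lt T (j := j + 1) hj'
    refine ⟨⟨by simp [chS], ?_, ?_⟩, ⟨by simp [chS], ?_, ?_⟩, ⟨by simp [chS], ?_, ?_⟩⟩ <;>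
        simp only [chS] <;> omega

theorem length_sys (T : List ER.Con) : 4 ≤ (sys T).length := by
  have := gapK_pos T.length
  simp only [sys, List.length_append, List.length_map, List.length_cons, List.length_range]
  omega

/-! ### Lagrange's identity -/

theorem lagrange_le {n : ℕ} (x y : ℕ → ℝ) {i j : ℕ} (hi : i < n) (hj : j < n) :
    (x i * y j - x j * y i) ^ 2 ≤
      (∑ a ∈ range n, x a ^ 2) * (∑ a ∈ range n, y a ^ 2) - (∑ a ∈ range n, x a * y a) ^ 2 := by
  by_cases hij : i = j
  · subst hij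
    have := Finset.sum_mul_sq_le_sq_mul_sq (range n) x y
    simp only [sub_self, ne_eq, OfNat.ofNat_ne_zero, not_false_eq_true, zero_pow]
    linarith
  · let f : ℕ → ℕ → ℝ := fun a b => (x a * y b - x b * y a) ^ 2
    have hf : ∀ a b, 0 ≤ f a b := fun a b => sq_nonneg _
    have h1 : ∑ a ∈ range n, ∑ b ∈ range n, f a b =
        2 * ((∑ a ∈ range n, x a ^ 2) * (∑ a ∈ range n, y a ^ 2) -
          (∑ a ∈ range n, x a * y a) ^ 2) := by
      have e : ∀ a b, f a b = x a ^ 2 * y b ^ 2 + y a ^ 2 * x b ^ 2 -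
          2 * ((x a * y a) * (x b * y b)) := fun a b => by simp only [f]; ring
      simp_rw [e, Finset.sum_sub_distrib, Finset.sum_add_distrib, ← Finset.mul_sum,
        ← Finset.sum_mul]
      ring
    have h2 : ∀ g : ℕ → ℝ, (∀ a, 0 ≤ g a) → g i + g j ≤ ∑ a ∈ range n, g a := by
      intro g hg
      calc g i + g j = ∑ a ∈ {i, j}, g a := (Finset.sum_pair hij).symm
        _ ≤ _ := Finset.sum_le_sum_of_subset_of_nonneg (by
            intro a ha
            simp only [Finset.mem_insert, Finset.mem_singleton] at ha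
            rcases ha with rfl | rfl
            · exact Finset.mem_range.2 hi
            · exact Finset.mem_range.2 hj) (fun a _ _ => hg a)
    have h3 := h2 (fun a => ∑ b ∈ range n, f a b) (fun a => Finset.sum_nonneg fun b _ => hf a b)
    have h4 : f i j ≤ ∑ b ∈ range n, f i b :=
      Finset.single_le_sum (f := fun b => f i b) (fun b _ => hf i b) (Finset.mem_range.2 hj)
    have h5 : f j i ≤ ∑ b ∈ range n, f j b :=
      Finset.single_le_sum (f := fun b => f j b) (fun b _ => hf j b) (Finset.mem_range.2 hi)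
    have h6 : f j i = f i j := by simp only [f]; ring
    have h7 : f i j = (x i * y j - x j * y i) ^ 2 := rfl
    linarith

/-! ### Soundness -/

theorem growth {T : List ER.Con} {X Y : ℕ → ℝ} (hX : X (ti T) = 1) (hY : Y (ti T) = 1)
    (hP : ∀ i < sn T, ∀ j < sn T, |X i * Y j - X j * Y i| ≤ 1)
    (hG : ∀ g ∈ sys T, |gev X Y g| ≤ 1) :
    ∀ j ≤ gapK T.length, (2 : ℝ) ^ 2 ^ j + 2 ≤ X (ci T j) ∧ (2 : ℝ) ^ 2 ^ j + 2 ≤ Y (ci T j) := by
  have hd : ∀ j ≤ gapK T.length, |Y (ci T j) - X (ci T j)| ≤ 1 := by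
    intro j hj
    have := hP (ti T) (ti_lt T) (ci T j) (ci_lt T hj)
    rwa [hX, hY, one_mul, mul_one] at this
  intro j
  induction j with
  | zero =>
    intro h0
    have h1 := hG (ch0 (ci T 0) (ti T)) (by
      unfold sys
      exact List.mem_append_right _ (List.mem_append_right _ List.mem_cons_self))
    simp only [gev, tev, bev, ch0, hX, hY] at h1
    push_cast at h1
    have h2 := abs_le.1 h1
    have h3 := abs_le.1 (hd 0 h0)
    norm_num
    constructor <;> linarith [h2.1, h2.2, h3.1, h3.2]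
  | succ j ih =>
    intro hj
    obtain ⟨i1, i2⟩ := ih (by omega)
    have h1 := hG (chS (ci T j) (ci T (j + 1)) (ti T)) (by
      unfold sys
      refine List.mem_append_right _ (List.mem_append_right _ (List.mem_cons_of_mem _ ?_))
      exact List.mem_map.2 ⟨j, List.mem_range.2 (by omega), rfl⟩)
    simp only [gev, tev, bev, chS, hX, hY] at h1
    push_cast at h1
    have h2 := abs_le.1 h1
    have h3 := abs_le.1 (hd (j + 1) hj)
    have e : (2 : ℝ) ^ 2 ^ (j + 1) = ((2 : ℝ) ^ 2 ^ j) ^ 2 := by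
      rw [← pow_mul]; congr 1
    have hA : (0 : ℝ) < 2 ^ 2 ^ j := by positivity
    rw [e]
    set A : ℝ := 2 ^ 2 ^ j with hA'
    have h4 : (A + 2) * (A + 2) ≤ X (ci T j) * Y (ci T j) :=
      mul_le_mul i1 i2 (by linarith) (by linarith)
    constructor <;> nlinarith [h2.1, h2.2, h3.1, h3.2]

theorem ci_last (T : List ER.Con) : ci T (gapK T.length) = 0 := by unfold ci; rw [if_pos rfl]

theorem big_pow (m : ℕ) : (16 : ℝ) ≤ 2 ^ 2 ^ gapK m := by
  have h1 : 4 ≤ 2 ^ gapK m := by
    calc 4 = 2 ^ 2 := rfl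
      _ ≤ 2 ^ gapK m := Nat.pow_le_pow_right (by norm_num) (by have := gapK_pos m; omega)
  calc (16 : ℝ) = 2 ^ 4 := by norm_num
    _ ≤ 2 ^ 2 ^ gapK m := pow_le_pow_right₀ (by norm_num) h1

theorem sound_core {T : List ER.Con} {X Y : ℕ → ℝ} (hX : X (ti T) = 1)
    (hY : Y (ti T) = 1)
    (hP : ∀ i < sn T, ∀ j < sn T, |X i * Y j - X j * Y i| ≤ 1)
    (hG : ∀ g ∈ sys T, |gev X Y g| ≤ 1) : ∃ w', ∀ c ∈ T, c.HoldsC (1 / 8) w' := by
  obtain ⟨gX, gY⟩ := growth hX hY hP hG (gapK T.length) le_rfl
  rw [ci_last] at gX gY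
  have hA16 := big_pow T.length
  obtain ⟨V, hV⟩ : ∃ V, V = svars T := ⟨_, rfl⟩
  obtain ⟨A, hA⟩ : ∃ A : ℝ, A = 2 ^ 2 ^ gapK T.length := ⟨_, rfl⟩
  rw [← hA] at gX gY hA16
  have x0 : 0 < X 0 := by linarith
  have y0 : 0 < Y 0 := by linarith
  have hD : 0 < X 0 * Y 0 := mul_pos x0 y0
  obtain ⟨δ, hδ⟩ : ∃ δ : ℝ, δ = 1 / (X 0 * Y 0) := ⟨_, rfl⟩
  have hδ0 : 0 < δ := by rw [hδ]; exact div_pos one_pos hD
  have hAA : A * A ≤ X 0 * Y 0 := mul_le_mul (by linarith) (by linarith) (by linarith) x0.le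
  have hδA : δ * (A * A) ≤ 1 := by
    rw [hδ, one_div, inv_mul_le_iff₀ hD, mul_one]
    exact hAA
  have hδ16 : δ ≤ 1 / 256 := by
    have h1 : (256 : ℝ) ≤ A * A := by nlinarith
    have h2 := mul_le_mul_of_nonneg_left h1 hδ0.le
    linarith
  have hdiv : ∀ e : ℝ, |e| ≤ 1 → |e / (X 0 * Y 0)| ≤ δ := by
    intro e he
    rw [abs_div, abs_of_pos hD, hδ]
    exact div_le_div_of_nonneg_right he hD.le
  have h0sn : 0 < sn T := by have := ti_lt T; omega
  have hclose : ∀ k < sn T, |X k / X 0 - Y k / Y 0| ≤ δ := by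
    intro k hk
    have h1 := hdiv _ (hP k hk 0 h0sn)
    have e : (X k * Y 0 - X 0 * Y k) / (X 0 * Y 0) = X k / X 0 - Y k / Y 0 := by
      field_simp
    rwa [e] at h1
  have hixsn : ∀ i ∈ V, ix V i < sn T := by
    intro i hi
    subst hV
    have h1 := ix_lt' (T := T) hi
    have h2 : 2 * (svars T).length + 1 < sn T := ti_lt T
    omega
  have hsl : ∀ i ∈ V, |X (ix V i) / X 0| ≤ 1 := by
    intro i hi
    have hr : V.idxOf i < V.length := List.idxOf_lt_length_of_mem hi
    have h1 := hG (sl V.length (V.idxOf i)) (by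
      subst hV
      unfold sys
      refine List.mem_append_right _ (List.mem_append_left _ ?_)
      exact List.mem_map.2 ⟨_, List.mem_range.2 hr, rfl⟩)
    have e1 : ix V i = V.idxOf i + 1 := rfl
    have h2 := hclose _ (hixsn i hi)
    have h3 := hclose (V.length + 1 + V.idxOf i) (by
      have h2 : 2 * V.length + 1 < sn T := by rw [hV]; exact ti_lt T
      omega)
    rw [e1] at h2 ⊢
    set u := V.length + 1 + V.idxOf i with hu
    set r := V.idxOf i + 1 with hr'
    have h4 := hdiv _ h1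
    have e2 : gev X Y (sl V.length (V.idxOf i)) / (X 0 * Y 0) =
        8 * (X r / X 0) * (Y r / Y 0) + 8 * (X u / X 0) * (Y u / Y 0) - 2 := by
      simp only [gev, tev, bev, sl, ← hu, ← hr']
      push_cast
      field_simp
      ring
    rw [e2] at h4
    set z := X r / X 0 with hz
    set z' := Y r / Y 0 with hz'
    set s := X u / X 0 with hs
    set s' := Y u / Y 0 with hs'
    have a1 := abs_le.1 h2
    have a2 := abs_le.1 h3
    have a3 := abs_le.1 h4
    have p1 : |z * (z' - z)| ≤ |z| * δ := by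
      rw [abs_mul, abs_sub_comm z' z]
      exact mul_le_mul_of_nonneg_left h2 (abs_nonneg _)
    have p2 : |s * (s' - s)| ≤ |s| * δ := by
      rw [abs_mul, abs_sub_comm s' s]
      exact mul_le_mul_of_nonneg_left h3 (abs_nonneg _)
    have q1 := abs_le.1 p1
    have q2 := abs_le.1 p2
    have r1 : |z| ≤ (1 + z ^ 2) / 2 := by
      rw [← sq_abs z]; nlinarith [sq_nonneg (|z| - 1)]
    have r2 : |s| ≤ (1 + s ^ 2) / 2 := by
      rw [← sq_abs s]; nlinarith [sq_nonneg (|s| - 1)]
    have r3 : |z| * δ ≤ (1 + z ^ 2) / 2 * δ := mul_le_mul_of_nonneg_right r1 hδ0.le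
    have r4 : |s| * δ ≤ (1 + s ^ 2) / 2 * δ := mul_le_mul_of_nonneg_right r2 hδ0.le
    have r5 : z ^ 2 * δ ≤ z ^ 2 * (1 / 256) := mul_le_mul_of_nonneg_left hδ16 (sq_nonneg _)
    have r6 : s ^ 2 * δ ≤ s ^ 2 * (1 / 256) := mul_le_mul_of_nonneg_left hδ16 (sq_nonneg _)
    have hz1 : z ^ 2 ≤ 1 := by
      nlinarith [sq_nonneg z, sq_nonneg s, q1.1, q2.1, a3.2]
    exact abs_le_one_iff_mul_self_le_one.2 (by nlinarith)
  have herr : ∀ e : ℝ, |e| ≤ 5 * δ → |e| * 2 ^ 2 ^ gapK T.length ≤ 1 := by
    intro e he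
    rw [← hA]
    have h1 : |e| * A ≤ 5 * δ * A := mul_le_mul_of_nonneg_right he (by linarith)
    have h2 : 5 * δ * A ≤ δ * (A * A) := by
      have h3 : 0 ≤ δ * (A * (A - 5)) :=
        mul_nonneg hδ0.le (mul_nonneg (by linarith) (by linarith))
      linarith
    linarith
  refine holds_of_approx (S := T) (w := fun i => X (ix V i) / X 0)
    (fun i hi => hsl i (by rw [hV]; exact hi)) (fun c hc => by
    apply herr
    have h1 := hG (hcon V c) (by
      subst hV
      unfold sys
      exact List.mem_append_left _ (List.mem_map.2 ⟨c, hc, rfl⟩))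
    have h4 := hdiv _ h1
    cases c with
    | one i =>
      have m1 : i ∈ V := by rw [hV]; exact mem_svars hc (by simp [Con.vars])
      have b1 := abs_le.1 (hclose _ (hixsn i m1))
      have e2 : gev X Y (hcon V (ER.Con.one i)) / (X 0 * Y 0) =
          8 * (X (ix V i) / X 0) + 8 * (Y (ix V i) / Y 0) - 2 := by
        simp only [gev, tev, bev, hcon]
        push_cast
        field_simp
        ring
      rw [e2] at h4
      have a3 := abs_le.1 h4
      simp only [Con.err]
      rw [abs_le]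
      constructor <;> linarith [a3.1, a3.2, b1.1, b1.2]
    | add i j k =>
      have m1 : i ∈ V := by rw [hV]; exact mem_svars hc (by simp [Con.vars])
      have m2 : j ∈ V := by rw [hV]; exact mem_svars hc (by simp [Con.vars])
      have m3 : k ∈ V := by rw [hV]; exact mem_svars hc (by simp [Con.vars])
      have b1 := abs_le.1 (hclose _ (hixsn i m1))
      have b2 := abs_le.1 (hclose _ (hixsn j m2))
      have b3 := abs_le.1 (hclose _ (hixsn k m3))
      have e2 : gev X Y (hcon V (ER.Con.add i j k)) / (X 0 * Y 0) =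
          (X (ix V i) / X 0) + (Y (ix V i) / Y 0) + ((X (ix V j) / X 0) + (Y (ix V j) / Y 0)) -
          ((X (ix V k) / X 0) + (Y (ix V k) / Y 0)) := by
        simp only [gev, tev, bev, hcon]
        push_cast
        field_simp
        ring
      rw [e2] at h4
      have a3 := abs_le.1 h4
      simp only [Con.err]
      rw [abs_le]
      constructor <;> linarith [a3.1, a3.2, b1.1, b1.2, b2.1, b2.2, b3.1, b3.2]
    | mul i j k =>
      have m1 : i ∈ V := by rw [hV]; exact mem_svars hc (by simp [Con.vars])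
      have m2 : j ∈ V := by rw [hV]; exact mem_svars hc (by simp [Con.vars])
      have m3 : k ∈ V := by rw [hV]; exact mem_svars hc (by simp [Con.vars])
      have c1 := hclose _ (hixsn i m1)
      have c2 := hclose _ (hixsn j m2)
      have b3 := abs_le.1 (hclose _ (hixsn k m3))
      have s1 := hsl i m1
      have s2 := hsl j m2
      have e2 : gev X Y (hcon V (ER.Con.mul i j k)) / (X 0 * Y 0) =
          (X (ix V i) / X 0) * (Y (ix V j) / Y 0) + (X (ix V j) / X 0) * (Y (ix V i) / Y 0) -
          ((X (ix V k) / X 0) + (Y (ix V k) / Y 0)) := by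
        simp only [gev, tev, bev, hcon]
        push_cast
        field_simp
        ring
      rw [e2] at h4
      have a3 := abs_le.1 h4
      simp only [Con.err]
      set zi := X (ix V i) / X 0
      set zj := X (ix V j) / X 0
      set zk := X (ix V k) / X 0
      set yi := Y (ix V i) / Y 0
      set yj := Y (ix V j) / Y 0
      set yk := Y (ix V k) / Y 0
      have d1 : |zi * (zj - yj)| ≤ δ := by
        rw [abs_mul]
        calc |zi| * |zj - yj| ≤ 1 * δ := mul_le_mul s1 c2 (abs_nonneg _) zero_le_one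
          _ = δ := one_mul _
      have d2 : |zj * (zi - yi)| ≤ δ := by
        rw [abs_mul]
        calc |zj| * |zi - yi| ≤ 1 * δ := mul_le_mul s2 c1 (abs_nonneg _) zero_le_one
          _ = δ := one_mul _
      have f1 := abs_le.1 d1
      have f2 := abs_le.1 d2
      rw [abs_le]
      constructor <;> nlinarith [a3.1, a3.2, f1.1, f1.2, f2.1, f2.2, b3.1, b3.2])

/-- **Soundness.** -/
theorem sound {T : List ER.Con} {x y : ℕ → ℝ}
    (h : (∑ a ∈ range (sn T), x a ^ 2) * (∑ a ∈ range (sn T), y a ^ 2) -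
        (∑ a ∈ range (sn T), x a * y a) ^ 2 +
      ((sys T).map fun g => gev x y g * gev x y g).sum <
      (x (ti T) * y (ti T)) ^ 2) : ∃ w', ∀ c ∈ T, c.HoldsC (1 / 8) w' := by
  obtain ⟨t, ht⟩ : ∃ t, t = ti T := ⟨_, rfl⟩
  rw [← ht] at h
  obtain ⟨P, hP⟩ : ∃ P, P = (∑ a ∈ range (sn T), x a ^ 2) * (∑ a ∈ range (sn T), y a ^ 2) -
        (∑ a ∈ range (sn T), x a * y a) ^ 2 := ⟨_, rfl⟩
  rw [← hP] at h
  have hP0 : 0 ≤ P := by
    have := lagrange_le x y (ti_lt T) (ti_lt T)
    rw [hP]
    exact le_trans (sq_nonneg _) this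
  have hnn : ∀ r ∈ (sys T).map (fun g => gev x y g * gev x y g), 0 ≤ r := by
    intro r hr
    obtain ⟨g, -, rfl⟩ := List.mem_map.1 hr
    exact mul_self_nonneg _
  have hQ0 := List.sum_nonneg hnn
  have hpos : 0 < (x t * y t) ^ 2 := by linarith
  have hne : x t * y t ≠ 0 := by
    intro h0
    rw [h0] at hpos
    norm_num at hpos
  have hxt : x t ≠ 0 := left_ne_zero_of_mul hne
  have hyt : y t ≠ 0 := right_ne_zero_of_mul hne
  have hle : ∀ e : ℝ, e ^ 2 ≤ (x t * y t) ^ 2 → |e / (x t * y t)| ≤ 1 := by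
    intro e he
    rw [abs_div, div_le_one (abs_pos.2 hne)]
    exact sq_le_sq.1 he
  apply sound_core (X := fun i => x i / x t) (Y := fun i => y i / y t)
  · rw [← ht]; exact div_self hxt
  · rw [← ht]; exact div_self hyt
  · intro i hi j hj
    have h1 := lagrange_le x y hi hj
    rw [← hP] at h1
    have h2 := hle (x i * y j - x j * y i) (by linarith)
    have e : (x i * y j - x j * y i) / (x t * y t) = x i / x t * (y j / y t) -
        x j / x t * (y i / y t) := by field_simp
    rwa [e] at h2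
  · intro g hg
    have h1 : gev x y g * gev x y g ≤ ((sys T).map fun g => gev x y g * gev x y g).sum :=
      List.single_le_sum hnn _ (List.mem_map.2 ⟨g, hg, rfl⟩)
    have h2 := hle (gev x y g) (by rw [sq]; linarith)
    have e : gev x y g / (x t * y t) = gev (fun i => x i / x t) (fun i => y i / y t) g := by
      unfold gev tev bev
      field_simp
    rwa [e] at h2

/-! ### Completeness -/

/-- **Completeness.** -/
theorem complete {T : List ER.Con} {w : ℕ → ℝ} (hw : ∀ i, |w i| ≤ 1 / 8)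
    (hc : ∀ c ∈ T, c.HoldsC (1 / 8) w) : ∃ x : ℕ → ℝ, x (ti T) = 1 ∧
    ∀ g ∈ sys T, gev x x g = 0 := by
  obtain ⟨V, hV⟩ : ∃ V, V = svars T := ⟨_, rfl⟩
  obtain ⟨N, hN⟩ : ∃ N, N = V.length := ⟨_, rfl⟩
  obtain ⟨K, hK⟩ : ∃ K, K = gapK T.length := ⟨_, rfl⟩
  obtain ⟨W, hW⟩ : ∃ W : ℝ, W = 8 ^ 2 ^ K := ⟨_, rfl⟩
  have htT : ti T = 2 * N + 1 := by rw [hN, hV]; rfl
  let x : ℕ → ℝ := fun i => if i = 0 then W else if i < N + 1 then W * w (V.getD (i - 1) 0) else
      if i < 2 * N + 1 then W * Real.sqrt (1 / 4 - w (V.getD (i - (N + 1)) 0) ^ 2) else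
      if i = 2 * N + 1 then 1 else 8 ^ 2 ^ (i - (2 * N + 2))
  have x0 : x 0 = W := by simp [x]
  have x1 : ∀ r < N, x (r + 1) = W * w (V.getD r 0) := by
    intro r hr
    simp only [x]
    rw [if_neg (by omega), if_pos (by omega)]
    simp
  have x2 : ∀ r < N, x (N + 1 + r) = W * Real.sqrt (1 / 4 - w (V.getD r 0) ^ 2) := by
    intro r hr
    simp only [x]
    rw [if_neg (by omega), if_neg (by omega), if_pos (by omega)]
    congr 6
    omega
  have x3 : x (ti T) = 1 := by
    rw [htT]
    simp only [x]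
    rw [if_neg (by omega), if_neg (by omega), if_neg (by omega)]
    simp
  have x4 : ∀ j ≤ K, x (ci T j) = 8 ^ 2 ^ j := by
    intro j hj
    unfold ci
    rw [← hK]
    split_ifs with h
    · rw [x0, hW, h]
    · rw [htT]
      simp only [x]
      rw [if_neg (by omega), if_neg (by omega), if_neg (by omega), if_neg (by omega)]
      congr 2
      omega
  have xi : ∀ i ∈ V, x (ix V i) = W * w i := by
    intro i hi
    have h1 := List.idxOf_lt_length_of_mem hi
    unfold ix
    rw [x1 _ (by rw [hN]; exact h1), List.getD_eq_getElem _ _ h1, List.getElem_idxOf h1]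
  refine ⟨x, x3, fun g hg => ?_⟩
  unfold sys at hg
  rw [← hV, ← hN, ← hK] at hg
  rw [List.mem_append, List.mem_append, List.mem_cons, List.mem_map, List.mem_map,
    List.mem_map] at hg
  rcases hg with ⟨c, hcT, rfl⟩ | ⟨r, hr, rfl⟩ | rfl | ⟨j, hj, rfl⟩
  · have hh := hc c hcT
    cases c with
    | one i =>
      have e1 := xi i (by rw [hV]; exact mem_svars hcT (by simp [Con.vars]))
      simp only [Con.HoldsC] at hh
      simp only [gev, tev, bev, hcon]
      rw [e1, x0, hh]
      push_cast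
      ring
    | add i j k =>
      have e1 := xi i (by rw [hV]; exact mem_svars hcT (by simp [Con.vars]))
      have e2 := xi j (by rw [hV]; exact mem_svars hcT (by simp [Con.vars]))
      have e3 := xi k (by rw [hV]; exact mem_svars hcT (by simp [Con.vars]))
      simp only [Con.HoldsC] at hh
      simp only [gev, tev, bev, hcon]
      rw [e1, e2, e3, x0, ← hh]
      push_cast
      ring
    | mul i j k =>
      have e1 := xi i (by rw [hV]; exact mem_svars hcT (by simp [Con.vars]))
      have e2 := xi j (by rw [hV]; exact mem_svars hcT (by simp [Con.vars]))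
      have e3 := xi k (by rw [hV]; exact mem_svars hcT (by simp [Con.vars]))
      simp only [Con.HoldsC] at hh
      simp only [gev, tev, bev, hcon]
      rw [e1, e2, e3, x0, ← hh]
      push_cast
      ring
  · have hr := List.mem_range.1 hr
    simp only [gev, tev, bev, sl]
    rw [x1 r hr, x2 r hr, x0]
    push_cast
    have h1 : 0 ≤ 1 / 4 - w (V.getD r 0) ^ 2 := by
      have := hw (V.getD r 0)
      have h2 : w (V.getD r 0) ^ 2 ≤ (1 / 8) ^ 2 := by
        rw [← sq_abs]
        exact pow_le_pow_left₀ (abs_nonneg _) this 2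
      have h3 : ((1 : ℝ) / 8) ^ 2 ≤ 1 / 4 := by norm_num
      linarith
    have h2 := Real.mul_self_sqrt h1
    linear_combination (8 * W ^ 2) * h2
  · simp only [gev, tev, bev, ch0]
    rw [x4 0 (Nat.zero_le _), x3]
    push_cast
    norm_num
  · have hj' := List.mem_range.1 hj
    simp only [gev, tev, bev, chS]
    rw [x4 j hj'.le, x4 (j + 1) hj', x3]
    push_cast
    have e : (8 : ℝ) ^ 2 ^ (j + 1) = ((8 : ℝ) ^ 2 ^ j) ^ 2 := by
      rw [← pow_mul]; congr 1
    rw [e]
    ring

end Pool.Agent.NPC.V11228.Spec
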