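import Pool.Agent.V11228.AE

/-!
# Surjectivity of integer polynomial maps `ℝⁿ → ℝᵐ`
-/

namespace Pool.Agent.NPC.V11228

open Pool.Agent.NPC Pool.Agent.NPC.ER Pool.Agent.NPC.H612

/-- Instances: a number `n` of variables, and a list of `m` integer polynomials. -/
abbrev MapInst : Type := ℕ × List PolyData

/-- The polynomial map `ℝⁿ → ℝᵐ` of an instance. -/
noncomputable def polyMap (I : MapInst) (x : Fin I.1 → ℝ) : Fin I.2.length → ℝ :=
  fun j => MvPolynomial.aeval x ((I.2.get j).toPoly I.1)

/-- The surjectivity problem, full-space version: given integer polynomials `f₁, …, f_m` in `n`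
variables (given by their coefficients), is the map `ℝⁿ → ℝᵐ` surjective? -/
def Surjectivity (I : MapInst) : Prop :=
  (∀ p ∈ I.2, PolyData.Valid I.1 p) ∧ Function.Surjective (polyMap I)

theorem surjective_iff (n : ℕ) (L : List PolyData) : Function.Surjective (polyMap (n, L)) ↔
    ∀ t : ℕ → ℝ, ∃ x : Fin n → ℝ, ∀ j (h : j < L.length), pval x L[j] = t j := by
  constructor
  · intro h t
    obtain ⟨x, hx⟩ := h (fun j => t j)
    exact ⟨x, fun j hj => congrFun hx ⟨j, hj⟩⟩
  · intro h t
    obtain ⟨x, hx⟩ := h (fun j => if h : j < L.length then t ⟨j, h⟩ else 0)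
    refine ⟨x, funext fun j => ?_⟩
    have := hx j j.2
    rw [dif_pos j.2] at this
    exact this

/-! ### The reduction -/

/-- The universally quantified variables of the system. -/
def uvars (E : List ℕ) : List ℕ := (E.map fun i => 2 * i).dedup

/-- All variables of the system, the universally quantified ones first. -/
def avars (E : List ℕ) (S : List Con) : List ℕ := uvars E ++ varsOf S

/-- The polynomial `u v - P`, where `P` is the sum of the squares of the constraints, and `u`, `v`
have the indices `N`, `N + 1`. -/
def gRaw (V : List ℕ) (S : List Con) : List (Bool × List ℕ) :=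
  (false, [V.length, V.length + 1]) :: S.flatMap fun c => negSq (craw V c)

/-- The polynomial `(u v - P) u ^ 2 + v`. -/
def hRaw (V : List ℕ) (S : List Con) : List (Bool × List ℕ) :=
  (gRaw V S).map (fun q => (q.1, V.length :: V.length :: q.2)) ++ [(false, [V.length + 1])]

/-- The instance of a sentence. -/
def surjInst (p : List ℕ × Fm) : MapInst :=
  let S := sysOf p.2
  let V := avars p.1 S
  (V.length + 2, (List.range (uvars p.1).length).map (fun j => collect (V.length + 2) [(false, [j])])
    ++ [collect (V.length + 2) (gRaw V S), collect (V.length + 2) (hRaw V S)])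

theorem craw_lt2 (V : List ℕ) (c : ER.Con) : ∀ p ∈ craw V c, ∀ i ∈ p.2, i < V.length + 2 :=
  fun p hp i hi => (craw_lt V c p hp i hi).trans (by omega)

theorem negSq_lt {n : ℕ} {q : List (Bool × List ℕ)} (h : ∀ p ∈ q, ∀ i ∈ p.2, i < n) :
    ∀ p ∈ negSq q, ∀ i ∈ p.2, i < n := by
  intro p hp i hi
  unfold negSq at hp
  rw [List.mem_flatMap] at hp
  obtain ⟨a, ha, hp⟩ := hp
  rw [List.mem_map] at hp
  obtain ⟨b, hb, rfl⟩ := hp
  rcases List.mem_append.1 hi with hi | hi
  · exact h a ha i hi
  · exact h b hb i hi

theorem gRaw_lt (V : List ℕ) (S : List Con) : ∀ p ∈ gRaw V S, ∀ i ∈ p.2, i < V.length + 2 := by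
  intro p hp i hi
  unfold gRaw at hp
  rcases List.mem_cons.1 hp with rfl | hp
  · simp at hi
    omega
  · rw [List.mem_flatMap] at hp
    obtain ⟨c, _, hp⟩ := hp
    exact negSq_lt (craw_lt2 V c) p hp i hi

theorem hRaw_lt (V : List ℕ) (S : List Con) : ∀ p ∈ hRaw V S, ∀ i ∈ p.2, i < V.length + 2 := by
  intro p hp i hi
  unfold hRaw at hp
  rcases List.mem_append.1 hp with hp | hp
  · rw [List.mem_map] at hp
    obtain ⟨q, hq, rfl⟩ := hp
    simp only [List.mem_cons] at hi
    rcases hi with rfl | rfl | hi
    · omega
    · omega
    · exact gRaw_lt V S q hq i hi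
  · simp at hp
    subst hp
    simp at hi
    omega

/-- The value of the polynomial of a constraint. -/
noncomputable def cval (V : List ℕ) (y : ℕ → ℝ) (c : Con) : ℝ := rawEval y (craw V c)

theorem cval_eq_zero (V : List ℕ) (y : ℕ → ℝ) (c : Con) :
    cval V y c = 0 ↔ c.Holds (fun i => y (V.idxOf i)) := by
  unfold cval
  cases c with
  | one i =>
    simp only [craw, rawEval, Con.Holds, H612.sgn]
    simp only [List.map_cons, List.map_nil, List.prod_cons, List.prod_nil, List.sum_cons,
      List.sum_nil]
    constructor
    · intro h; push_cast at h; simp at h; linarith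
    · intro h; push_cast; simp; linarith
  | add i j k =>
    simp only [craw, rawEval, Con.Holds, H612.sgn]
    simp only [List.map_cons, List.map_nil, List.prod_cons, List.prod_nil, List.sum_cons,
      List.sum_nil]
    constructor
    · intro h; push_cast at h; simp at h; linarith
    · intro h; push_cast; simp; linarith
  | mul i j k =>
    simp only [craw, rawEval, Con.Holds, H612.sgn]
    simp only [List.map_cons, List.map_nil, List.prod_cons, List.prod_nil, List.sum_cons,
      List.sum_nil]
    constructor
    · intro h; push_cast at h; simp at h; linarith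
    · intro h; push_cast; simp; linarith

theorem rawEval_cons (y : ℕ → ℝ) (p : Bool × List ℕ) (q : List (Bool × List ℕ)) :
    rawEval y (p :: q) = (H612.sgn p.1 : ℝ) * (p.2.map y).prod + rawEval y q := by
  simp [rawEval]

theorem rawEval_gRaw (V : List ℕ) (S : List Con) (y : ℕ → ℝ) :
    rawEval y (gRaw V S) = y V.length * y (V.length + 1) - (S.map fun c => (cval V y c) ^ 2).sum := by
  have key : ∀ S : List Con,
      rawEval y (S.flatMap fun c => negSq (craw V c)) = -(S.map fun c => (cval V y c) ^ 2).sum := by
    intro S
    induction S with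
    | nil => simp [rawEval]
    | cons c S ih =>
      rw [List.flatMap_cons, rawEval_append, ih, rawEval_negSq]
      simp only [List.map_cons, List.sum_cons, cval]
      ring
  unfold gRaw
  rw [rawEval_cons, key]
  simp [H612.sgn]
  ring

theorem rawEval_hRaw (V : List ℕ) (S : List Con) (y : ℕ → ℝ) :
    rawEval y (hRaw V S) = rawEval y (gRaw V S) * y V.length ^ 2 + y (V.length + 1) := by
  have key : ∀ q : List (Bool × List ℕ),
      rawEval y (q.map fun q => (q.1, V.length :: V.length :: q.2)) =
        rawEval y q * y V.length ^ 2 := by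
    intro q
    induction q with
    | nil => simp [rawEval]
    | cons a q ih =>
      rw [List.map_cons, rawEval_cons, rawEval_cons, ih]
      simp only [List.map_cons, List.prod_cons]
      ring
  unfold hRaw
  rw [rawEval_append, key, rawEval_cons]
  simp [rawEval, H612.sgn]

/-- The cubic equation. -/
theorem exists_cubic (q : ℝ) : ∃ u : ℝ, u ^ 3 - q * u + 1 = 0 := by
  have hM : (0 : ℝ) ≤ 1 + |q| := by positivity
  have hcont : ContinuousOn (fun u : ℝ => u ^ 3 - q * u + 1) (Set.Icc (-(1 + |q|)) 0) :=
    (by fun_prop : Continuous fun u : ℝ => u ^ 3 - q * u + 1).continuousOn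
  have h := intermediate_value_Icc (by linarith : -(1 + |q|) ≤ 0) hcont
  have h1 : (-(1 + |q|)) ^ 3 - q * (-(1 + |q|)) + 1 ≤ 0 := by
    have h2 := le_abs_self q
    have h3 := abs_nonneg q
    nlinarith [mul_nonneg h3 h3, mul_nonneg h3 (mul_nonneg h3 h3), mul_nonneg h3 (sub_nonneg.2 h2)]
  obtain ⟨u, _, hu⟩ := h ⟨h1, by norm_num⟩
  exact ⟨u, hu⟩

/-- The map `(u, v) ↦ (u v, u v u² + v)` is surjective. -/
theorem exists_uv (a b : ℝ) : ∃ u v : ℝ, u * v = a ∧ u * v * u ^ 2 + v = b := by
  by_cases ha : a = 0
  · exact ⟨0, b, by rw [ha]; ring, by ring⟩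
  · obtain ⟨u, hu⟩ := exists_cubic (b / a)
    refine ⟨u, b - a * u ^ 2, ?_, ?_⟩
    · have h1 : a * (u ^ 3 - b / a * u + 1) = 0 := by rw [hu, mul_zero]
      have h2 : a * (b / a * u) = b * u := by field_simp
      nlinarith
    · have h1 : a * (u ^ 3 - b / a * u + 1) = 0 := by rw [hu, mul_zero]
      have h2 : a * (b / a * u) = b * u := by field_simp
      have h3 : u * (b - a * u ^ 2) = a := by nlinarith
      rw [h3]
      ring

theorem sum_sq_con_eq_zero {V : List ℕ} {S : List Con} {y : ℕ → ℝ}
    (h : (S.map fun c => (cval V y c) ^ 2).sum = 0) : SysHolds (fun i => y (V.idxOf i)) S :=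
  fun c hc => (cval_eq_zero V y c).1 (sum_sq_eq_zero h c hc)

theorem sum_sq_con_of {V : List ℕ} {S : List Con} {y : ℕ → ℝ}
    (h : SysHolds (fun i => y (V.idxOf i)) S) : (S.map fun c => (cval V y c) ^ 2).sum = 0 := by
  apply List.sum_eq_zero
  intro r hr
  rw [List.mem_map] at hr
  obtain ⟨c, hc, rfl⟩ := hr
  rw [(cval_eq_zero V y c).2 (h c hc)]
  ring

theorem valid_aux (n k : ℕ) (G H : List (Bool × List ℕ)) :
    ∀ q ∈ (List.range k).map (fun j => collect n [(false, [j])]) ++ [collect n G, collect n H],
      PolyData.Valid n q := by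
  intro q hq
  rcases List.mem_append.1 hq with hq | hq
  · obtain ⟨j, _, rfl⟩ := List.mem_map.1 hq
    exact collect_valid n _
  · rcases List.mem_cons.1 hq with rfl | hq
    · exact collect_valid n _
    · rw [List.mem_singleton] at hq
      subst hq
      exact collect_valid n _

theorem surjInst_valid (p : List ℕ × Fm) :
    ∀ q ∈ (surjInst p).2, PolyData.Valid (surjInst p).1 q :=
  valid_aux _ _ _ _

theorem aer_iff_surj (p : List ℕ × Fm) : AER p ↔ Surjectivity (surjInst p) := by
  rw [aer_iff_sys]
  unfold Surjectivity
  rw [and_iff_right (surjInst_valid p)]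
  obtain ⟨E, φ⟩ := p
  set S := sysOf φ with hS
  set U := uvars E with hU
  set V := avars E S with hV
  have hUn : U.Nodup := List.nodup_dedup _
  have hUV : V = U ++ varsOf S := rfl
  have hlen : U.length ≤ V.length := by rw [hUV, List.length_append]; omega
  have hinst : surjInst (E, φ) = (V.length + 2,
    (List.range U.length).map (fun j => collect (V.length + 2) [(false, [j])])
    ++ [collect (V.length + 2) (gRaw V S), collect (V.length + 2) (hRaw V S)]) := rfl
  rw [hinst, surjective_iff]
  -- the values of the polynomials
  have hG : ∀ z : Fin (V.length + 2) → ℝ, pval z (collect (V.length + 2) (gRaw V S)) =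
      rawEval (xt z) (gRaw V S) := fun z => aeval_collect _ (gRaw_lt V S) z
  have hH : ∀ z : Fin (V.length + 2) → ℝ, pval z (collect (V.length + 2) (hRaw V S)) =
      rawEval (xt z) (hRaw V S) := fun z => aeval_collect _ (hRaw_lt V S) z
  have hX : ∀ (z : Fin (V.length + 2) → ℝ) (j : ℕ), j < U.length →
      pval z (collect (V.length + 2) [(false, [j])]) = xt z j := by
    intro z j hj
    unfold pval
    rw [aeval_collect _ (by
      intro p hp i hi
      simp at hp
      subst hp
      simp at hi
      omega) z]
    simp [rawEval, H612.sgn]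
  have hidx : ∀ i ∈ E, V.idxOf (2 * i) < U.length ∧ U.getD (V.idxOf (2 * i)) 0 = 2 * i := by
    intro i hi
    have h1 : 2 * i ∈ U := by
      rw [hU]
      unfold uvars
      rw [List.mem_dedup, List.mem_map]
      exact ⟨i, hi, rfl⟩
    rw [hUV, List.idxOf_append_of_mem h1]
    have h2 := List.idxOf_lt_length_of_mem h1
    exact ⟨h2, by rw [List.getD_eq_getElem _ _ h2, List.getElem_idxOf h2]⟩
  have hval : ∀ (z : Fin (V.length + 2) → ℝ) (t : ℕ → ℝ),
      (∀ j (h : j < ((List.range U.length).map (fun j => collect (V.length + 2) [(false, [j])])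
        ++ [collect (V.length + 2) (gRaw V S), collect (V.length + 2) (hRaw V S)]).length),
        pval z (((List.range U.length).map (fun j => collect (V.length + 2) [(false, [j])])
        ++ [collect (V.length + 2) (gRaw V S), collect (V.length + 2) (hRaw V S)])[j]) = t j) ↔
      (∀ j < U.length, xt z j = t j) ∧ rawEval (xt z) (gRaw V S) = t U.length ∧
        rawEval (xt z) (hRaw V S) = t (U.length + 1) := by
    intro z t
    constructor
    · intro h
      refine ⟨fun j hj => ?_, ?_, ?_⟩
      · have h1 := h j (by simp; omega)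
        rw [List.getElem_append_left (by simpa using hj)] at h1
        simp only [List.getElem_map, List.getElem_range] at h1
        rw [← h1, hX z j hj]
      · have h1 := h U.length (by simp)
        rw [List.getElem_append_right (by simp)] at h1
        simp only [List.length_map, List.length_range, Nat.sub_self, List.getElem_cons_zero] at h1
        rw [← h1, hG]
      · have h1 := h (U.length + 1) (by simp)
        rw [List.getElem_append_right (by simp)] at h1
        simp only [List.length_map, List.length_range, Nat.add_sub_cancel_left,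
          List.getElem_cons_succ, List.getElem_cons_zero] at h1
        rw [← h1, hH]
    · rintro ⟨h1, h2, h3⟩ j hj
      simp only [List.length_append, List.length_map, List.length_range, List.length_cons,
        List.length_nil] at hj
      rcases lt_trichotomy j U.length with hlt | heq | hgt
      · rw [List.getElem_append_left (by simpa using hlt)]
        simp only [List.getElem_map, List.getElem_range]
        rw [hX z j hlt, h1 j hlt]
      · subst heq
        rw [List.getElem_append_right (by simp)]
        simp only [List.length_map, List.length_range, Nat.sub_self, List.getElem_cons_zero]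
        rw [hG, h2]
      · have hj2 : j = U.length + 1 := by omega
        subst hj2
        rw [List.getElem_append_right (by simp)]
        simp only [List.length_map, List.length_range, Nat.add_sub_cancel_left,
          List.getElem_cons_succ, List.getElem_cons_zero]
        rw [hH, h3]
  constructor
  · intro h t
    obtain ⟨v, hv, hs⟩ := h (fun i => t (V.idxOf (2 * i)))
    obtain ⟨u, w, huw, huw2⟩ := exists_uv (t U.length) (t (U.length + 1))
    set y : ℕ → ℝ := fun k => if k < U.length then t k else if k < V.length then v (V.getD k 0)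
      else if k = V.length then u else w with hy
    refine ⟨fun k => y k, (hval _ t).2 ?_⟩
    have hxt : ∀ k < V.length + 2, xt (fun k : Fin (V.length + 2) => y k) k = y k := by
      intro k hk
      simp [xt, hk]
    have hE : ∀ k < U.length, ∃ i ∈ E, U.getD k 0 = 2 * i := by
      intro k hk
      have h1 : U.getD k 0 ∈ U := by
        rw [List.getD_eq_getElem _ _ hk]
        exact List.getElem_mem _
      rw [hU] at h1
      unfold uvars at h1
      rw [List.mem_dedup, List.mem_map] at h1
      obtain ⟨i, hi, h2⟩ := h1
      exact ⟨i, hi, h2.symm⟩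
    have hyv : ∀ i ∈ varsOf S, xt (fun k : Fin (V.length + 2) => y k) (V.idxOf i) = v i := by
      intro i hi
      have hm : i ∈ V := by rw [hUV]; exact List.mem_append_right _ hi
      have hl := List.idxOf_lt_length_of_mem hm
      rw [hxt _ (by omega)]
      simp only [hy]
      by_cases hk : V.idxOf i < U.length
      · rw [if_pos hk]
        have hiU : i ∈ U := by
          by_contra hn
          rw [hUV, List.idxOf_append_of_notMem hn] at hk
          omega
        have hiE : ∃ e ∈ E, 2 * e = i := by
          rw [hU] at hiU
          unfold uvars at hiU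
          rw [List.mem_dedup, List.mem_map] at hiU
          exact hiU
        obtain ⟨e, he, rfl⟩ := hiE
        exact (hv e he).symm
      · rw [if_neg hk, if_pos hl, List.getD_eq_getElem _ _ hl, List.getElem_idxOf hl]
    have hP : ((S.map fun c => (cval V (xt (fun k : Fin (V.length + 2) => y k)) c) ^ 2).sum) = 0 := by
      apply sum_sq_con_of
      intro c hc
      refine (Con.holds_congr fun i hi => ?_).2 (hs c hc)
      exact hyv i (List.mem_flatMap.2 ⟨c, hc, hi⟩)
    have hu : xt (fun k : Fin (V.length + 2) => y k) V.length = u := by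
      rw [hxt _ (by omega)]
      simp only [hy]
      rw [if_neg (by omega), if_neg (by omega)]
      simp
    have hw : xt (fun k : Fin (V.length + 2) => y k) (V.length + 1) = w := by
      rw [hxt _ (by omega)]
      simp only [hy]
      rw [if_neg (by omega), if_neg (by omega), if_neg (by omega)]
    refine ⟨fun j hj => ?_, ?_, ?_⟩
    · rw [hxt _ (by omega)]
      simp only [hy]
      rw [if_pos hj]
    · rw [rawEval_gRaw, hP, hu, hw, sub_zero, huw]
    · rw [rawEval_hRaw, rawEval_gRaw, hP, hu, hw, sub_zero, huw2]
  · intro h x
    obtain ⟨z, hz⟩ := h (fun j => if j < U.length then x (U.getD j 0 / 2) else 0)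
    obtain ⟨h1, h2, h3⟩ := (hval z _).1 hz
    rw [if_neg (by omega)] at h2 h3
    rw [rawEval_hRaw, h2, zero_mul, zero_add] at h3
    rw [rawEval_gRaw, h3, mul_zero, zero_sub, neg_eq_zero] at h2
    refine ⟨fun i => xt z (V.idxOf i), fun i hi => ?_, sum_sq_con_eq_zero h2⟩
    obtain ⟨h4, h5⟩ := hidx i hi
    show xt z (V.idxOf (2 * i)) = x i
    rw [h1 _ h4, if_pos h4, h5]
    congr 1
    omega

/-! ### Polynomial time -/

section

variable {α : Type} [TEnc α]

theorem poly_uvars {E : α → List ℕ} (hE : Poly E) : Poly (fun a => uvars (E a)) :=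
  poly_dedup (Poly.map (F := fun _ i => 2 * i) hE (Poly.mul (Poly.const 2) (Poly.snd Poly.id)))

theorem poly_avars {E : α → List ℕ} {S : α → List Con} (hE : Poly E) (hS : Poly S) :
    Poly (fun a => avars (E a) (S a)) :=
  Poly.append (poly_uvars hE) (poly_varsOf hS)

end

end Pool.Agent.NPC.V11228
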