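import Pool.Agent.V11228.Surj

/-!
# Surjectivity: polynomial time, and membership
-/

namespace Pool.Agent.NPC.V11228

open Pool.Agent.NPC Pool.Agent.NPC.ER Pool.Agent.NPC.H612

section

variable {α : Type} [TEnc α]

theorem poly_gRaw {V : α → List ℕ} {S : α → List Con} (hV : Poly V) (hS : Poly S) :
    Poly (fun a => gRaw (V a) (S a)) := by
  unfold gRaw
  have hl : Poly (fun a => (V a).length) := Poly.length hV
  refine Poly.cons (Poly.pair (Poly.const _) (Poly.cons hl (Poly.cons (Poly.succ hl)
    (Poly.const [])))) ?_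
  refine Poly.flatMap (F := fun a c => negSq (craw (V a) c)) hS ?_
  exact poly_negSq (poly_craw (hV.comp (Poly.fst Poly.id)) (Poly.snd Poly.id))

theorem poly_hRaw {V : α → List ℕ} {S : α → List Con} (hV : Poly V) (hS : Poly S) :
    Poly (fun a => hRaw (V a) (S a)) := by
  unfold hRaw
  have hl : Poly (fun a => (V a).length) := Poly.length hV
  refine Poly.append ?_ (Poly.cons (Poly.pair (Poly.const _) (Poly.cons (Poly.succ hl)
    (Poly.const []))) (Poly.const []))
  have hl' : Poly (fun q : α × (Bool × List ℕ) => (V q.1).length) :=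
    Poly.length (hV.comp (Poly.fst Poly.id))
  exact Poly.map (F := fun a (q : Bool × List ℕ) => (q.1, (V a).length :: (V a).length :: q.2))
    (poly_gRaw hV hS) (Poly.pair (Poly.fst (Poly.snd Poly.id))
      (Poly.cons hl' (Poly.cons hl' (Poly.snd (Poly.snd Poly.id)))))

theorem poly_surjInst {f : α → List ℕ × Fm} (hf : Poly f) : Poly (fun a => surjInst (f a)) := by
  unfold surjInst
  have hS : Poly (fun a => sysOf (f a).2) := poly_sysOf (Poly.snd hf)
  have hU : Poly (fun a => uvars (f a).1) := poly_uvars (Poly.fst hf)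
  have hV : Poly (fun a => avars (f a).1 (sysOf (f a).2)) := poly_avars (Poly.fst hf) hS
  have hn : UPoly (fun a => (avars (f a).1 (sysOf (f a).2)).length + 2) :=
    UPoly.add (UPoly.length hV) (UPoly.const 2)
  refine Poly.pair hn.toPoly (Poly.append ?_ (Poly.cons (poly_collect hn (poly_gRaw hV hS))
    (Poly.cons (poly_collect hn (poly_hRaw hV hS)) (Poly.const []))))
  refine Poly.map (F := fun a j => collect ((avars (f a).1 (sysOf (f a).2)).length + 2)
    [(false, [j])]) (UPoly.length hU).range ?_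
  have hn' : UPoly (fun q : α × ℕ => (avars (f q.1).1 (sysOf (f q.1).2)).length + 2) :=
    UPoly.comp (n := fun a => (avars (f a).1 (sysOf (f a).2)).length + 2) hn (Poly.fst Poly.id)
  exact poly_collect hn' (Poly.cons (Poly.pair (Poly.const _)
    (Poly.cons (Poly.snd Poly.id) (Poly.const []))) (Poly.const []))

end

/-- Surjectivity is hard for `∀∃ℝ`. -/
theorem surjectivity_hard : AERHard (lang Surjectivity) :=
  AERHard.of_poly (poly_surjInst Poly.id) aer_iff_surj

/-! ### Membership -/

/-- The conjunction of the equations `p = 0`. -/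
def allEq (L : List PolyData) : QF := qconj (L.map QF.eqZ) (QF.eqZ [])

theorem polys_allEq (L : List PolyData) : (allEq L).polys = L ++ [[]] := by
  unfold allEq
  induction L with
  | nil => rfl
  | cons a L ih =>
    change (QF.eqZ a).polys ++ (qconj (L.map QF.eqZ) (QF.eqZ [])).polys = _
    rw [ih]
    rfl

/-- The quantifier-free part of the sentence. -/
def surjFm (I : MapInst) : Fm :=
  conj (powEqs (nv I.1 (allEq I.2)) (szList (allEq I.2)).length ++
    I.2.zipIdx.map fun q => Fm.eq (polT (nv I.1 (allEq I.2)) q.1) (Tm.var (vC q.2)))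

/-- The sentence. -/
def surjSent (I : MapInst) : List ℕ × Fm :=
  if validB I.1 (allEq I.2) = true then ((List.range I.2.length).map vC, surjFm I)
  else ([], Fm.ff)

theorem holds_pow_of {m L : ℕ} {x y : ℕ → ℝ} (h : ∀ i < m, ∀ k ≤ L, x (vP i k) = y i ^ 2 ^ k) :
    ∀ ψ ∈ powEqs m L, ψ.Holds x := by
  intro ψ hψ
  simp only [powEqs, List.mem_flatMap, List.mem_range, List.mem_map] at hψ
  obtain ⟨i, hi, k, hk, rfl⟩ := hψ
  simp only [Fm.Holds, Tm.eval]
  rw [h i hi (k + 1) hk, h i hi k hk.le, pow_succ, pow_mul]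
  ring

theorem pow_of_holds {m L : ℕ} {x : ℕ → ℝ} (h : ∀ ψ ∈ powEqs m L, ψ.Holds x) :
    ∀ i < m, ∀ k ≤ L, x (vP i k) = x (vP i 0) ^ 2 ^ k := by
  intro i hi k
  induction k with
  | zero => intro _; rw [pow_zero, pow_one]
  | succ k ih =>
    intro hk
    have h1 := h (Fm.eq (Tm.var (vP i (k + 1)))
      (Tm.mul (Tm.var (vP i k)) (Tm.var (vP i k)))) (by
      simp only [powEqs, List.mem_flatMap, List.mem_range, List.mem_map]
      exact ⟨i, hi, k, hk, rfl⟩)
    simp only [Fm.Holds, Tm.eval] at h1
    rw [h1, ih (by omega), pow_succ, pow_mul]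
    ring

theorem eval_polT_of {n : ℕ} {φ : QF} (x : ℕ → ℝ) (z : Fin n → ℝ)
    (hz : ∀ i < nv n φ, ∀ k ≤ (szList φ).length, x (vP i k) = xt z i ^ 2 ^ k) :
    ∀ p ∈ φ.polys, (polT (nv n φ) p).eval x = pval z p := by
  intro p hp
  refine eval_polT x (nv n φ) z p (min_le_left _ _) ?_ ?_
  · intro t ht i hi hin
    apply List.getD_eq_default
    have h1 := expo_length hp ht
    have h2 : nv n φ = min n (szList φ).length := rfl
    omega
  · intro t ht i hi k hk
    exact hz i hi k (hk.le.trans (bits_length_le hp ht i))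

theorem vC_inj {i j : ℕ} (h : vC i = vC j) : i = j := by
  unfold vC at h
  omega

theorem vP_ne_vC (i k j : ℕ) : vP i k ≠ vC j := by
  unfold vP vC
  omega

theorem surjFm_iff (I : MapInst) (t : ℕ → ℝ) :
    (∃ y : ℕ → ℝ, (surjFm I).Holds (mixv ((List.range I.2.length).map vC) t y)) ↔
      ∃ x : Fin I.1 → ℝ, ∀ j (h : j < I.2.length), pval x I.2[j] = t (vC j) := by
  obtain ⟨n, L⟩ := I
  set U := (List.range L.length).map vC with hU
  have hmC : ∀ y : ℕ → ℝ, ∀ j < L.length, mixv U t y (vC j) = t (vC j) := by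
    intro y j hj
    unfold mixv
    rw [if_pos]
    rw [hU, List.mem_map]
    exact ⟨j, List.mem_range.2 hj, rfl⟩
  have hmP : ∀ y : ℕ → ℝ, ∀ i k, mixv U t y (vP i k) = y (vP i k) := by
    intro y i k
    unfold mixv
    rw [if_neg]
    rw [hU, List.mem_map]
    rintro ⟨j, _, hj⟩
    exact vP_ne_vC i k j hj.symm
  have hnv : nv n (allEq L) ≤ n := min_le_left _ _
  simp only [surjFm, holds_conj, List.forall_mem_append]
  constructor
  · rintro ⟨y, hy1, hy2⟩
    set w := mixv U t y with hw
    set z : Fin n → ℝ := fun i => if (i : ℕ) < nv n (allEq L) then w (vP i 0) else 0 with hz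
    have hxt : ∀ i < nv n (allEq L), xt z i = w (vP i 0) := by
      intro i hi
      have : i < n := hi.trans_le hnv
      simp [xt, this, hz, hi]
    have hk : ∀ i < nv n (allEq L), ∀ k ≤ (szList (allEq L)).length,
        w (vP i k) = xt z i ^ 2 ^ k := by
      intro i hi k hk
      rw [hxt i hi]
      exact pow_of_holds hy1 i hi k hk
    have hp := eval_polT_of w z hk
    refine ⟨z, fun j hj => ?_⟩
    have h1 := hy2 (Fm.eq (polT (nv n (allEq L)) L[j]) (Tm.var (vC j))) (by
      rw [List.mem_map]
      refine ⟨(L[j], j), ?_, rfl⟩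
      rw [List.mem_zipIdx_iff_getElem?]
      simp [List.getElem?_eq_getElem hj])
    change (polT (nv n (allEq L)) L[j]).eval w = w (vC j) at h1
    rw [hp L[j] (by rw [polys_allEq]; exact List.mem_append_left _ (List.getElem_mem _)),
      hw, hmC y j hj] at h1
    exact h1
  · rintro ⟨z, hz⟩
    set y : ℕ → ℝ := fun v => xt z (Nat.unpair (v / 4)).1 ^ 2 ^ (Nat.unpair (v / 4)).2 with hy
    have hyP : ∀ i k, y (vP i k) = xt z i ^ 2 ^ k := by
      intro i k
      simp only [hy]
      have : vP i k / 4 = Nat.pair i k := by unfold vP; omega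
      rw [this, Nat.unpair_pair]
    have hk : ∀ i < nv n (allEq L), ∀ k ≤ (szList (allEq L)).length,
        mixv U t y (vP i k) = xt z i ^ 2 ^ k := by
      intro i _ k _
      rw [hmP, hyP]
    have hp := eval_polT_of (mixv U t y) z hk
    refine ⟨y, holds_pow_of hk, ?_⟩
    intro ψ hψ
    rw [List.mem_map] at hψ
    obtain ⟨⟨p, j⟩, hpj, rfl⟩ := hψ
    rw [List.mem_zipIdx_iff_getElem?] at hpj
    simp only at hpj
    obtain ⟨hj, hpj⟩ := List.getElem?_eq_some_iff.1 hpj
    change (polT (nv n (allEq L)) p).eval (mixv U t y) = mixv U t y (vC j)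
    rw [hmC y j hj, ← hz j hj, hpj]
    apply hp
    rw [polys_allEq, ← hpj]
    exact List.mem_append_left _ (List.getElem_mem _)

theorem valid_allEq (n : ℕ) (L : List PolyData) :
    (allEq L).Valid n ↔ ∀ p ∈ L, PolyData.Valid n p := by
  unfold QF.Valid
  rw [polys_allEq]
  constructor
  · exact fun h p hp => h p (List.mem_append_left _ hp)
  · intro h p hp
    rcases List.mem_append.1 hp with hp | hp
    · exact h p hp
    · rw [List.mem_singleton] at hp
      subst hp
      exact ⟨by simp, by simp⟩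

theorem surj_iff_sent (I : MapInst) : Surjectivity I ↔ AER (surjSent I) := by
  unfold Surjectivity surjSent
  by_cases h : validB I.1 (allEq I.2) = true
  · rw [if_pos h]
    rw [and_iff_right ((valid_allEq I.1 I.2).1 ((validB_iff _ _).1 h))]
    unfold AER
    simp only [surjFm_iff]
    rw [show polyMap I = polyMap (I.1, I.2) from rfl, surjective_iff]
    constructor
    · intro h1 x
      exact h1 fun j => x (vC j)
    · intro h1 t
      obtain ⟨z, hz⟩ := h1 fun v => t (v / 4)
      refine ⟨z, fun j hj => ?_⟩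
      rw [hz j hj]
      congr 1
      unfold vC
      omega
  · rw [if_neg h]
    constructor
    · rintro ⟨h1, _⟩
      exact absurd ((validB_iff _ _).2 ((valid_allEq I.1 I.2).2 h1)) h
    · intro h1
      obtain ⟨y, hy⟩ := h1 fun _ => 0
      exact (lt_irrefl _ hy).elim

theorem poly_allEq {α : Type} [TEnc α] {L : α → List PolyData} (hL : Poly L) :
    Poly (fun a => allEq (L a)) := by
  unfold allEq
  exact poly_qconj (Poly.map (F := fun _ p => QF.eqZ p) hL (poly_eqZ (Poly.snd Poly.id)))
    (Poly.const _)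

theorem poly_surjSent : Poly surjSent := by
  unfold surjSent
  have hI1 : Poly (fun I : MapInst => I.1) := Poly.fst Poly.id
  have hI2 : Poly (fun I : MapInst => I.2) := Poly.snd Poly.id
  have hE : Poly (fun I : MapInst => allEq I.2) := poly_allEq hI2
  have hm := upoly_nv hI1 hE
  refine Poly.ite (Poly.decide_bool (poly_validB.comp (Poly.pair hI1 hE))) (Poly.pair ?_ ?_)
    (Poly.const _)
  · exact Poly.map (F := fun _ j => vC j) (UPoly.length hI2).range (poly_vC (Poly.snd Poly.id))
  · unfold surjFm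
    refine poly_conj (Poly.append (poly_powEqs hm (UPoly.length (poly_szList hE))) ?_)
    refine Poly.map (F := fun (I : MapInst) (q : PolyData × ℕ) =>
      Fm.eq (polT (nv I.1 (allEq I.2)) q.1) (Tm.var (vC q.2))) (Poly.zipIdx hI2) ?_
    exact poly_feq (poly_polT (UPoly.comp hm (Poly.fst Poly.id)) (Poly.fst (Poly.snd Poly.id)))
      (poly_tvar (poly_vC (Poly.snd (Poly.snd Poly.id))))

/-- Surjectivity belongs to `∀∃ℝ`. -/
theorem surjectivity_mem : InAER (lang Surjectivity) :=
  InAER.of_poly poly_surjSent surj_iff_sent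

/-- **Surjectivity of integer polynomial maps `ℝⁿ → ℝᵐ` is complete for `∀∃ℝ`.** -/
theorem surjectivity_complete : AERComplete (lang Surjectivity) :=
  ⟨surjectivity_mem, surjectivity_hard⟩

end Pool.Agent.NPC.V11228
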